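import Pool.Agent.Olsh.Axis

/-!
# Coordinates along an axis, commuting isometries
-/

set_option autoImplicit false

open Filter Topology

namespace Pool.Agent.Olsh

variable {V : Type} {d : V → V → ℕ} {δ : ℕ} {G : Type} [Group G] [MulAction G V]

namespace IsomAct

/-- LINE (1). -/
theorem gp_pow_pow (hG : IsomAct G d) (hh : Hyp d δ) (hd : IsGM d) {h : G} {z : V}
    (hz : z ∈ Mn d h) (hL : 7 * δ + 2 ≤ disp d h) (N : ℕ) :
    GpLe d (4 * δ) ((h ^ N)⁻¹ • z) z (h ^ N • z) := by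
  have hz' : (h ^ N)⁻¹ • z ∈ Mn d h := by
    have := hG.pow_mem_Mn hz (-(N : ℤ))
    rwa [zpow_neg, zpow_natCast] at this
  have h1 := (hG.isChain_orbit hh hd hz' (by omega) (2 * N)).gp_ends hh hd (by omega) N (by omega)
  have e1 : h ^ N • (h ^ N)⁻¹ • z = z := smul_inv_smul _ _
  have e2 : h ^ (2 * N) • (h ^ N)⁻¹ • z = h ^ N • z := by
    rw [two_mul, pow_add, mul_smul, smul_inv_smul]
  have e3 : h ^ 0 • (h ^ N)⁻¹ • z = (h ^ N)⁻¹ • z := by rw [pow_zero, one_smul]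
  have h2 : GpLe d (2 * δ + 2 * δ) (h ^ 0 • (h ^ N)⁻¹ • z) (h ^ N • (h ^ N)⁻¹ • z)
    (h ^ (2 * N) • (h ^ N)⁻¹ • z) := h1
  rw [e1, e2, e3] at h2
  exact h2.mono (by omega)

/-- LINE (2). -/
theorem gp_pow_pow' (hG : IsomAct G d) (hh : Hyp d δ) (hd : IsGM d) {h : G} {z w : V}
    (hz : z ∈ Mn d h) (hL : 7 * δ + 2 ≤ disp d h) (N : ℕ)
    (hN : 2 * d z w + 12 * δ + 2 ≤ N) :
    GpLe d (6 * δ) ((h ^ N)⁻¹ • w) z (h ^ N • w) := by
  have h1 := hG.gp_pow_pow hh hd hz hL N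
  have h2 := hG.dist_pow_ge hh hd hz (by omega) N
  have h3 : N + N * (6 * δ) ≤ N * disp d h := by
    have : N * (6 * δ + 1) ≤ N * disp d h := Nat.mul_le_mul_left _ (by omega)
    have e : N * (6 * δ + 1) = N + N * (6 * δ) := by ring
    omega
  have h4 : (N - 1) * (6 * δ) ≤ N * (6 * δ) := Nat.mul_le_mul_right _ (by omega)
  have h5 : N ≤ d z (h ^ N • z) := by omega
  have h6 : d z ((h ^ N)⁻¹ • z) = d z (h ^ N • z) := by
    rw [hd.comm, hG.inv]
  have h7 : d ((h ^ N)⁻¹ • z) ((h ^ N)⁻¹ • w) = d z w := hG _ _ _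
  have h8 : d (h ^ N • z) (h ^ N • w) = d z w := hG _ _ _
  -- the four point conditions
  have k1 := hh z ((h ^ N)⁻¹ • w) ((h ^ N)⁻¹ • z) (h ^ N • z)
  have k2 := hh z ((h ^ N)⁻¹ • w) (h ^ N • z) ((h ^ N)⁻¹ • z)
  have k3 := hh z ((h ^ N)⁻¹ • z) ((h ^ N)⁻¹ • w) (h ^ N • z)
  have k4 := hh z ((h ^ N)⁻¹ • z) (h ^ N • z) ((h ^ N)⁻¹ • w)
  have k5 := hh z (h ^ N • z) (h ^ N • w) ((h ^ N)⁻¹ • w)
  have k6 := hh z (h ^ N • z) ((h ^ N)⁻¹ • w) (h ^ N • w)
  have k7 := hh z (h ^ N • w) (h ^ N • z) ((h ^ N)⁻¹ • w)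
  have k8 := hh z (h ^ N • w) ((h ^ N)⁻¹ • w) (h ^ N • z)
  have c1 := hd.comm ((h ^ N)⁻¹ • w) z
  have c2 := hd.comm ((h ^ N)⁻¹ • z) z
  have c3 := hd.comm (h ^ N • z) ((h ^ N)⁻¹ • z)
  have c4 := hd.comm (h ^ N • z) ((h ^ N)⁻¹ • w)
  have c5 := hd.comm (h ^ N • w) ((h ^ N)⁻¹ • w)
  have c6 := hd.comm (h ^ N • w) (h ^ N • z)
  have c7 := hd.comm ((h ^ N)⁻¹ • w) ((h ^ N)⁻¹ • z)
  have c8 := hd.comm (h ^ N • z) z
  have c9 := hd.comm (h ^ N • w) z
  have t1 := hd.tri z (h ^ N • w) (h ^ N • z)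
  have t2 := hd.tri z ((h ^ N)⁻¹ • w) ((h ^ N)⁻¹ • z)
  -- first: `(P' | Q)_z ≤ 5 δ`
  have s1 : GpLe d (5 * δ) ((h ^ N)⁻¹ • w) z (h ^ N • z) := by
    unfold GpLe at *
    clear k5 k6 k7 k8 k2
    omega
  unfold GpLe at *
  clear k1 k2 k3 k4
  omega

/-- LINE (3): the distance to a far point of the axis is a coordinate. -/
theorem coord_dist (hG : IsomAct G d) (hh : Hyp d δ) (hd : IsGM d) {h : G} {z z' w : V}
    (hz : z ∈ Mn d h) (hz' : z' ∈ Mn d h) (hL : 7 * δ + 2 ≤ disp d h) (N : ℕ)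
    (hN : 2 * d z w + 12 * δ + 2 ≤ N) (hN' : 2 * d z' w + 12 * δ + 2 ≤ N) :
    d z z' + d z ((h ^ N)⁻¹ • w) ≤ d z' ((h ^ N)⁻¹ • w) + 14 * δ ∨
      d z z' + d z' ((h ^ N)⁻¹ • w) ≤ d z ((h ^ N)⁻¹ • w) + 14 * δ := by
  have h1 := hG.gp_pow_pow' hh hd hz hL N hN
  have h2 := hG.gp_pow_pow' hh hd hz' hL N hN'
  have k1 := hh z z' ((h ^ N)⁻¹ • w) (h ^ N • w)
  have k2 := hh z ((h ^ N)⁻¹ • w) z' (h ^ N • w)
  have k3 := hh z z' (h ^ N • w) ((h ^ N)⁻¹ • w)
  have c1 := hd.comm ((h ^ N)⁻¹ • w) z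
  have c2 := hd.comm ((h ^ N)⁻¹ • w) z'
  have c3 := hd.comm (h ^ N • w) z'
  have c4 := hd.comm (h ^ N • w) z
  have c5 := hd.comm (h ^ N • w) ((h ^ N)⁻¹ • w)
  have k4 := hh z ((h ^ N)⁻¹ • w) (h ^ N • w) z'
  have k5 := hh ((h ^ N)⁻¹ • w) z z' (h ^ N • w)
  have k6 := hh z z' ((h ^ N)⁻¹ • w) (h ^ N • w)
  have key : d z z' + d ((h ^ N)⁻¹ • w) (h ^ N • w) ≤
      d z ((h ^ N)⁻¹ • w) + d z' (h ^ N • w) + 2 * δ ∨
      d z z' + d ((h ^ N)⁻¹ • w) (h ^ N • w) ≤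
      d z (h ^ N • w) + d z' ((h ^ N)⁻¹ • w) + 2 * δ := by
    have := hh z ((h ^ N)⁻¹ • w) z' (h ^ N • w)
    omega
  unfold GpLe at *
  clear k1 k2 k3 k4 k5 k6
  omega

/-- LINE (4): a commuting isometry changes the coordinate by a constant. -/
theorem coord_shift (hG : IsomAct G d) (hh : Hyp d δ) (hd : IsGM d) {g h : G} (hc : Commute g h)
    (z z' w : V) (N : ℕ) (hN : 2 * δ + 1 + d z z' + d w (g • w) ≤ d z' ((h ^ N)⁻¹ • w))
    (hN' : 2 * δ + 1 + d z z' + d w (g • w) ≤ d z ((h ^ N)⁻¹ • w)) :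
    d (g • z) ((h ^ N)⁻¹ • w) + d z' ((h ^ N)⁻¹ • w) ≤
      d (g • z') ((h ^ N)⁻¹ • w) + d z ((h ^ N)⁻¹ • w) + 2 * δ := by
  have e : ∀ x : V, d (g • x) ((h ^ N)⁻¹ • w) = d x ((h ^ N)⁻¹ • g⁻¹ • w) := by
    intro x
    rw [hd.comm, ← hG.inv, hd.comm, smul_smul, smul_smul]
    have : Commute g⁻¹ (h ^ N)⁻¹ := (hc.pow_right N).inv_inv
    rw [this.eq]
  rw [e z, e z']
  have h1 : d ((h ^ N)⁻¹ • w) ((h ^ N)⁻¹ • g⁻¹ • w) = d w (g • w) := by
    rw [hG, hd.comm, hG.inv]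
  have k := hh z ((h ^ N)⁻¹ • w) ((h ^ N)⁻¹ • g⁻¹ • w) z'
  have c1 := hd.comm ((h ^ N)⁻¹ • w) z'
  have c2 := hd.comm ((h ^ N)⁻¹ • g⁻¹ • w) z'
  omega

/-- LINE (5): an isometry which commutes with `h` moves the points of the axis of `h` by at most
its stable length, up to a constant. -/
theorem comm_dist_pow (hG : IsomAct G d) (hh : Hyp d δ) (hd : IsGM d) {g h : G} (hc : Commute g h)
    {w : V} (hw : w ∈ Mn d h) (hL : 7 * δ + 2 ≤ disp d h) (n : ℕ) :
    n * d w (g • w) ≤ d w (g ^ n • w) + n * (16 * δ) := by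
  set s := d w (g • w) with hs
  -- a large `N`
  set N := 2 * (n + 2) * s + 20 * δ + 10 + 2 * s + s + s * n with hN
  set p := (h ^ N)⁻¹ • w with hp
  have hdist : ∀ j, j ≤ n + 1 → d w (g ^ j • w) ≤ (n + 1) * s := by
    intro j hj
    have h1 := hG.pow_le hd g w j
    have h2 : j * d w (g • w) ≤ (n + 1) * s := Nat.mul_le_mul_right _ hj
    omega
  have hwp : N ≤ d w p := by
    have h2 := hG.dist_pow_ge hh hd hw (by omega) N
    have h3 : N + N * (6 * δ) ≤ N * disp d h := by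
      have : N * (6 * δ + 1) ≤ N * disp d h := Nat.mul_le_mul_left _ (by omega)
      have e : N * (6 * δ + 1) = N + N * (6 * δ) := by ring
      omega
    have h4 : (N - 1) * (6 * δ) ≤ N * (6 * δ) := Nat.mul_le_mul_right _ (by omega)
    have h6 : d w p = d w (h ^ N • w) := by
      rw [hp, hd.comm, hG.inv]
    omega
  have eN : 2 * (n + 2) * s = 2 * ((n + 1) * s) + 2 * s := by ring
  have esn : (n + 1) * s = s * n + s := by ring
  have hfar : ∀ j, j ≤ n + 1 → 2 * δ + 1 + s + s ≤ d (g ^ j • w) p := by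
    intro j hj
    have h1 := hdist j hj
    have h2 := hd.tri w (g ^ j • w) p
    omega
  -- consecutive shifts
  have hshift : ∀ j, j < n → d (g ^ (j + 1) • w) p + d w p ≤
      d (g • w) p + d (g ^ j • w) p + 2 * δ * 1 + 0 ∧ True ∨ True := by
    intro j _
    exact Or.inr trivial
  clear hshift
  -- the shift of `g^j w` compared with the shift of `g^(j+1) w`
  have hmem : ∀ j : ℕ, g ^ j • w ∈ Mn d h := fun j =>
    (hG.smul_mem_Mn_of_commute (hc.pow_left j) w).2 hw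
  have hrange : ∀ j, j ≤ n + 1 → 2 * d (g ^ j • w) w + 12 * δ + 2 ≤ N := by
    intro j hj
    have h1 := hdist j hj
    have h2 := hd.comm w (g ^ j • w)
    omega
  -- shift at `w`
  have hw1 := hG.coord_dist hh hd hw (hmem 1) hL N (w := w)
    (by have := hrange 0 (by omega); rwa [pow_zero, one_smul] at this) (hrange 1 (by omega))
  rw [pow_one, ← hp, ← hs] at hw1
  -- compare with `w`
  have hcmp : ∀ j, j ≤ n → d (g • (g ^ j • w)) p + d w p ≤ d (g • w) p + d (g ^ j • w) p + 2 * δ ∧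
      d (g • w) p + d (g ^ j • w) p ≤ d (g • (g ^ j • w)) p + d w p + 2 * δ := by
    intro j hj
    have h1 := hdist j (by omega)
    have h2 := hd.comm w (g ^ j • w)
    have h3 := hd.tri w (g ^ j • w) p
    constructor
    · exact hG.coord_shift hh hd hc (g ^ j • w) w w N (by rw [← hp, ← hs]; omega)
        (by rw [← hp, ← hs]; omega)
    · exact hG.coord_shift hh hd hc w (g ^ j • w) w N (by rw [← hp, ← hs]; omega)
        (by rw [← hp, ← hs]; omega)
  -- total shift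
  rcases hw1 with hw1 | hw1
  · have key : ∀ j, j ≤ n → j * s + d w p ≤ d (g ^ j • w) p + j * (16 * δ) := by
      intro j
      induction j with
      | zero => intro _; rw [pow_zero, one_smul]; omega
      | succ j ih =>
        intro hj
        have h1 := ih (by omega)
        have h2 := (hcmp j (by omega)).2
        rw [smul_smul, ← pow_succ'] at h2
        have e1 : (j + 1) * s = j * s + s := by ring
        have e2 : (j + 1) * (16 * δ) = j * (16 * δ) + 16 * δ := by ring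
        omega
    have h1 := key n le_rfl
    have h2 := hd.tri (g ^ n • w) w p
    have h3 := hd.comm (g ^ n • w) w
    omega
  · have key : ∀ j, j ≤ n → j * s + d (g ^ j • w) p ≤ d w p + j * (16 * δ) := by
      intro j
      induction j with
      | zero => intro _; rw [pow_zero, one_smul]; omega
      | succ j ih =>
        intro hj
        have h1 := ih (by omega)
        have h2 := (hcmp j (by omega)).1
        rw [smul_smul, ← pow_succ'] at h2
        have e1 : (j + 1) * s = j * s + s := by ring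
        have e2 : (j + 1) * (16 * δ) = j * (16 * δ) + 16 * δ := by ring
        omega
    have h1 := key n le_rfl
    have h2 := hd.tri w (g ^ n • w) p
    omega

/-- LINE (6). -/
theorem comm_dist_le_slen (hG : IsomAct G d) (hh : Hyp d δ) (hd : IsGM d) {g h : G}
    (hc : Commute g h) {w : V} (hw : w ∈ Mn d h) (hL : 7 * δ + 2 ≤ disp d h) :
    (d w (g • w) : ℝ) ≤ slen d g + 16 * δ := by
  have h1 := hG.tendsto_slen hd g w
  have h2 : (d w (g • w) : ℝ) - 16 * δ ≤ slen d g := by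
    apply le_of_tendsto_of_tendsto tendsto_const_nhds h1
    filter_upwards [eventually_ge_atTop 1] with n hn
    have h3 := hG.comm_dist_pow hh hd hc hw hL n
    have h4 : (0 : ℝ) < n := by exact_mod_cast hn
    rw [le_div_iff₀ h4]
    have h5 : (n : ℝ) * d w (g • w) ≤ d w (g ^ n • w) + n * (16 * δ) := by exact_mod_cast h3
    linarith
  linarith

/-- LINE (7): the minimal sets of commuting isometries of large displacement are close. -/
theorem comm_mn_near (hG : IsomAct G d) (hh : Hyp d δ) (hd : IsGM d) {g h : G}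
    (hc : Commute g h) {w : V} (hw : w ∈ Mn d h) (hL : 7 * δ + 2 ≤ disp d h)
    (hLg : 37 * δ + 5 ≤ disp d g) : ∃ y ∈ Mn d g, d w y ≤ 45 * δ + 4 := by
  have : Nonempty V := ⟨w⟩
  have h1 := hG.comm_dist_le_slen hh hd hc hw hL
  have h2 := slen_le_disp (d := d) g
  obtain ⟨y, hy, hy'⟩ := hG.near_mn hh hd hLg w
  refine ⟨y, hy, ?_⟩
  have h3 : d w (g • w) ≤ disp d g + 16 * δ := by
    have : (d w (g • w) : ℝ) ≤ disp d g + 16 * δ := by linarith
    exact_mod_cast this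
  omega

end IsomAct

/-! ### The axis of an isometry of positive stable length -/

/-- The least power of `g` with displacement at least `D`. -/
noncomputable def axPow (D : ℕ) (d : V → V → ℕ) (g : G) : ℕ := sInf {m | 1 ≤ m ∧ D ≤ disp d (g ^ m)}

/-- The axis of `g`. -/
def Ax (D : ℕ) (d : V → V → ℕ) (g : G) : Set V := Mn d (g ^ axPow D d g)

namespace IsomAct

theorem axPow_spec (hG : IsomAct G d) (hd : IsGM d) [Nonempty V] (D : ℕ) {g : G}
    (hg : 0 < slen d g) : 1 ≤ axPow D d g ∧ D ≤ disp d (g ^ axPow D d g) := by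
  have hne : {m | 1 ≤ m ∧ D ≤ disp d (g ^ m)}.Nonempty := by
    obtain ⟨m, hm⟩ := exists_nat_gt ((D : ℝ) / slen d g)
    refine ⟨m + 1, by omega, ?_⟩
    have h1 := slen_le_disp (d := d) (g ^ (m + 1))
    rw [hG.slen_pow hd] at h1
    rw [div_lt_iff₀ hg] at hm
    have h2 : (D : ℝ) ≤ disp d (g ^ (m + 1)) := by
      push_cast at h1
      nlinarith
    exact_mod_cast h2
  exact Nat.sInf_mem hne

theorem axPow_conj (hG : IsomAct G d) (D : ℕ) (g h : G) :
    axPow D d (h * g * h⁻¹) = axPow D d g := by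
  unfold axPow
  congr 1
  ext m
  simp only [Set.mem_ofPred_eq, conj_pow, hG.disp_conj]

theorem smul_mem_Ax (hG : IsomAct G d) (D : ℕ) (g h : G) (z : V) :
    h • z ∈ Ax D d (h * g * h⁻¹) ↔ z ∈ Ax D d g := by
  unfold Ax
  rw [hG.axPow_conj, conj_pow]
  exact hG.smul_mem_Mn _ h z

theorem smul_mem_Ax_of_commute (hG : IsomAct G d) (D : ℕ) {g h : G} (hc : Commute h g) (z : V) :
    h • z ∈ Ax D d g ↔ z ∈ Ax D d g :=
  hG.smul_mem_Mn_of_commute (hc.pow_right _) z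

theorem Ax_nonempty [Nonempty V] (D : ℕ) (g : G) : (Ax D d g).Nonempty := Mn_nonempty _

theorem mem_Ax_inv (hG : IsomAct G d) (hd : IsGM d) (D : ℕ) (g : G) (z : V) :
    z ∈ Ax D d g⁻¹ ↔ z ∈ Ax D d g := by
  have h1 : axPow D d g⁻¹ = axPow D d g := by
    unfold axPow
    congr 1
    ext m
    simp only [Set.mem_ofPred_eq, inv_pow, hG.disp_inv hd]
  unfold Ax
  rw [h1, inv_pow]
  show d z ((g ^ axPow D d g)⁻¹ • z) = disp d (g ^ axPow D d g)⁻¹ ↔
    d z ((g ^ axPow D d g) • z) = disp d (g ^ axPow D d g)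
  rw [hG.disp_inv hd, hd.comm, hG.inv]

/-- AXIS (1): quasi-convexity. -/
theorem ax_qconv (hG : IsomAct G d) (hh : Hyp d δ) (hd : IsGM d) [Nonempty V] {D : ℕ}
    (hD : 37 * δ + 5 ≤ D) {g : G} (hg : 0 < slen d g) : QConv d (59 * δ + 5) (Ax D d g) := by
  have := (hG.axPow_spec hd D hg).2
  exact hG.mn_qconv hh hd (by omega)

/-- AXIS (2): commuting elements translate the axis by their stable length. -/
theorem ax_dist_le (hG : IsomAct G d) (hh : Hyp d δ) (hd : IsGM d) {D : ℕ}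
    (hD : 7 * δ + 2 ≤ D) {g h : G} (hg : 0 < slen d g) (hc : Commute h g) {z : V}
    (hz : z ∈ Ax D d g) : (d z (h • z) : ℝ) ≤ slen d h + 16 * δ := by
  have : Nonempty V := ⟨z⟩
  have h1 := (hG.axPow_spec hd D hg).2
  exact hG.comm_dist_le_slen hh hd (hc.pow_right _) hz (by omega)

/-- AXIS (3): the minimal set of every commuting isometry of large displacement is close to the
axis. -/
theorem ax_near_mn (hG : IsomAct G d) (hh : Hyp d δ) (hd : IsGM d) {D : ℕ}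
    (hD : 7 * δ + 2 ≤ D) {g h : G} (hg : 0 < slen d g) (hc : Commute h g)
    (hL : 37 * δ + 5 ≤ disp d h) {z : V} (hz : z ∈ Ax D d g) :
    ∃ y ∈ Mn d h, d z y ≤ 45 * δ + 4 := by
  have : Nonempty V := ⟨z⟩
  have h1 := (hG.axPow_spec hd D hg).2
  exact hG.comm_mn_near hh hd (hc.pow_right _) hz (by omega) hL

theorem mn_near_ax (hG : IsomAct G d) (hh : Hyp d δ) (hd : IsGM d) {D : ℕ}
    (hD : 37 * δ + 5 ≤ D) {g h : G} (hg : 0 < slen d g) (hc : Commute h g)
    (hL : 7 * δ + 2 ≤ disp d h) {z : V} (hz : z ∈ Mn d h) :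
    ∃ y ∈ Ax D d g, d z y ≤ 45 * δ + 4 := by
  have : Nonempty V := ⟨z⟩
  have h1 := (hG.axPow_spec hd D hg).2
  exact hG.comm_mn_near hh hd (hc.symm.pow_left _) hz hL (by omega)

/-- AXIS (4): displacement by elements of large displacement which commute with `g`. -/
theorem near_ax (hG : IsomAct G d) (hh : Hyp d δ) (hd : IsGM d) [Nonempty V] {D : ℕ}
    (hD : 37 * δ + 5 ≤ D) {g h : G} (hg : 0 < slen d g) (hc : Commute h g)
    (hL : 37 * δ + 5 ≤ disp d h) (z : V) :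
    ∃ y ∈ Ax D d g, 2 * d z y + disp d h ≤ d z (h • z) + (164 * δ + 16) := by
  obtain ⟨y, hy, hy'⟩ := hG.near_mn hh hd hL z
  obtain ⟨x, hx, hx'⟩ := hG.mn_near_ax hh hd hD hg hc (by omega) hy
  refine ⟨x, hx, ?_⟩
  have := hd.tri z y x
  omega

end IsomAct

end Pool.Agent.Olsh
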