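import Pool.Agent.Olsh.StmtsP

/-!
# MP_3cdb71_al, module MALN: no torsion, malnormality of centralisers
-/

set_option autoImplicit false

namespace Pool.Agent.Olsh

namespace MALN

variable {G X : Type} [Group G] [MulAction G X] {d : X → X → ℕ} {a0 L0 : ℕ} {CP : ℕ → ℕ} {M0 : ℕ}

theorem slen_one (h : Lev G d a0 L0 CP M0) : slen d (1 : G) = 0 := by
  have := h.ne
  have h1 := h.isom.slen_pow h.gm (1 : G) 0
  simpa using h1

theorem eq_one_of_slen (h : Lev G d a0 L0 CP M0) (g : G) (hg : slen d g = 0) : g = 1 := by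
  by_contra hne
  exact absurd (h.lox g hne) (by rw [hg]; exact lt_irrefl 0)

theorem torsion (h : Lev G d a0 L0 CP M0) (a : G) (n : ℕ) (hn : 1 ≤ n) (ha : a ^ n = 1) :
    a = 1 := by
  have := h.ne
  apply eq_one_of_slen h
  have h1 := h.isom.slen_pow h.gm a n
  rw [ha, slen_one h] at h1
  have h2 : (0 : ℝ) < n := by exact_mod_cast hn
  rcases mul_eq_zero.mp h1.symm with h3 | h3
  · exact absurd h3 h2.ne'
  · exact h3

end MALN

theorem MALN (h1 : Stmt_TADD) : Stmt_MALN := by
  intro G X _ _ d a0 L0 CP M0 hL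
  have := hL.ne
  refine ⟨fun a n hn ha => MALN.torsion hL a n hn ha, ?_⟩
  intro a b _ hab
  have hs : slen d a = slen d (b * a * b⁻¹) := (hL.isom.slen_conj a b).symm
  rcases h1 dl G X d hL.gm hL.hyp hL.isom hL.ne a (b * a * b⁻¹) hab hs with h2 | h2
  · -- `b a b⁻¹ = a⁻¹`
    have h3 : a * (b * a * b⁻¹) = 1 := MALN.eq_one_of_slen hL _ h2
    have h4 : b * a * b⁻¹ = a⁻¹ := (inv_eq_of_mul_eq_one_right h3).symm
    have h5 : b * a = a⁻¹ * b := by
      rw [← h4]
      group
    have h6 : b ^ 2 * a = a * b ^ 2 := by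
      have h7 : b * a⁻¹ = a * b := by
        have h8 : a * (b * a) = b := by
          rw [h5]
          group
        calc b * a⁻¹ = (a * (b * a)) * a⁻¹ := by rw [h8]
          _ = a * b := by group
      calc b ^ 2 * a = b * (b * a) := by rw [pow_two, mul_assoc]
        _ = (b * a⁻¹) * b := by rw [h5, mul_assoc]
        _ = a * b ^ 2 := by rw [h7, pow_two, mul_assoc]
    by_cases hb : b ^ 2 = 1
    · have h7 : b = 1 := MALN.torsion hL b 2 (by norm_num) hb
      rw [h7, mul_one, one_mul]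
    · have h8 : b * b ^ 2 = b ^ 2 * b := by
        rw [← pow_succ, ← pow_succ']
      exact (hL.csa b (b ^ 2) a hb h8 h6).symm
  · -- `b a b⁻¹ = a`
    have h3 : a * (b * a * b⁻¹)⁻¹ = 1 := MALN.eq_one_of_slen hL _ h2
    have h4 : a = b * a * b⁻¹ := mul_inv_eq_one.mp h3
    calc a * b = (b * a * b⁻¹) * b := by rw [← h4]
      _ = b * a := by group

end Pool.Agent.Olsh
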