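import Pool.Agent.Olsh.StmtsP

/-!
# MP_3cdb71_al, module TADD: commuting isometries of equal stable length
-/

set_option autoImplicit false

open Filter Topology

namespace Pool.Agent.Olsh

namespace TADD

variable {V : Type} {d : V → V → ℕ} {δ : ℕ} {G : Type} [Group G] [MulAction G V]

/-- The two products of elements which commute with `A`, in terms of the difference of their
displacements. -/
theorem products (hd : IsGM d) (hh : Hyp d δ) (hG : IsomAct G d) {a b A : G}
    (ha : Commute a A) (hb : Commute b A) (hL : 7 * δ + 2 ≤ disp d A) {z : V} (hz : z ∈ Mn d A)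
    (D : ℕ) (h1 : d z (a • z) ≤ d z (b • z) + D) (h2 : d z (b • z) ≤ d z (a • z) + D) :
    d z ((a * b) • z) ≤ D + 32 * δ ∨ d z ((a * b⁻¹) • z) ≤ D + 32 * δ := by
  obtain ⟨R, hR⟩ : ∃ R, R = d z (a • z) + d z (b • z) := ⟨_, rfl⟩
  obtain ⟨N, hN⟩ : ∃ N, N = 4 * R + 12 * δ + 2 := ⟨_, rfl⟩
  obtain ⟨p, hp⟩ : ∃ p, p = (A ^ N)⁻¹ • z := ⟨_, rfl⟩
  have hwp : N ≤ d z p := by
    have h2 := hG.dist_pow_ge hh hd hz (by omega) N
    have h3 : N + N * (6 * δ) ≤ N * disp d A := by
      have : N * (6 * δ + 1) ≤ N * disp d A := Nat.mul_le_mul_left _ (by omega)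
      have e : N * (6 * δ + 1) = N + N * (6 * δ) := by ring
      omega
    have h4 : (N - 1) * (6 * δ) ≤ N * (6 * δ) := Nat.mul_le_mul_right _ (by omega)
    have h6 : d z p = d z (A ^ N • z) := by
      rw [hp, hd.comm, hG.inv]
    omega
  have hbi : Commute b⁻¹ A := hb.inv_left
  -- membership
  have m1 : a • z ∈ Mn d A := (hG.smul_mem_Mn_of_commute ha z).2 hz
  have m2 : b • z ∈ Mn d A := (hG.smul_mem_Mn_of_commute hb z).2 hz
  have m3 : a • b • z ∈ Mn d A := (hG.smul_mem_Mn_of_commute ha _).2 m2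
  have m4 : b⁻¹ • z ∈ Mn d A := (hG.smul_mem_Mn_of_commute hbi z).2 hz
  have m5 : a • b⁻¹ • z ∈ Mn d A := (hG.smul_mem_Mn_of_commute ha _).2 m4
  -- distances from `z`
  have e1 : d (b⁻¹ • z) z = d z (b • z) := hG.inv b z z
  have e2 : d (a • z) (a • b • z) = d z (b • z) := hG a z (b • z)
  have e3 : d (a • z) (a • b⁻¹ • z) = d z (b⁻¹ • z) := hG a z (b⁻¹ • z)
  have e4 := hd.comm z (b⁻¹ • z)
  have e5 := hd.comm z (a • z)
  have e6 := hd.comm z (b • z)
  have e7 := hd.comm z (a • b • z)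
  have e8 := hd.comm z (a • b⁻¹ • z)
  have t1 := hd.tri z (a • z) (a • b • z)
  have t2 := hd.tri z (a • z) (a • b⁻¹ • z)
  have e9 := hd.self z
  -- coordinates
  have c1 := hG.coord_dist hh hd hz m1 hL N (w := z) (by omega) (by omega)
  have c2 := hG.coord_dist hh hd hz m2 hL N (w := z) (by omega) (by omega)
  have c3 := hG.coord_dist hh hd hz m3 hL N (w := z) (by omega) (by omega)
  have c5 := hG.coord_dist hh hd hz m5 hL N (w := z) (by omega) (by omega)
  rw [← hp] at c1 c2 c3 c5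
  -- the converse inequalities
  have f1 := hd.tri z (a • z) p
  have f1' := hd.tri (a • z) z p
  have f2 := hd.tri z (b • z) p
  have f2' := hd.tri (b • z) z p
  have f4 := hd.tri z (b⁻¹ • z) p
  -- shifts
  have s1 := hG.coord_shift hh hd ha z (b • z) z N (by rw [← hp]; omega) (by rw [← hp]; omega)
  have s1' := hG.coord_shift hh hd ha (b • z) z z N (by rw [← hp]; omega) (by rw [← hp]; omega)
  have s2 := hG.coord_shift hh hd ha z (b⁻¹ • z) z N (by rw [← hp]; omega)
    (by rw [← hp]; omega)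
  have s2' := hG.coord_shift hh hd ha (b⁻¹ • z) z z N (by rw [← hp]; omega)
    (by rw [← hp]; omega)
  have s3 := hG.coord_shift hh hd hb z (b⁻¹ • z) z N (by rw [← hp]; omega)
    (by rw [← hp]; omega)
  have s3' := hG.coord_shift hh hd hb (b⁻¹ • z) z z N (by rw [← hp]; omega)
    (by rw [← hp]; omega)
  rw [← hp] at s1 s1' s2 s2' s3 s3'
  rw [smul_inv_smul] at s3 s3'
  rw [mul_smul, mul_smul]
  clear hN hR hwp
  omega

theorem slen_mul_zero (hd : IsGM d) (hG : IsomAct G d) [Nonempty V] {g h : G}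
    (hc : Commute g h) (hg : slen d g = 0) (hh : slen d h = 0) : slen d (g * h) = 0 := by
  obtain ⟨v⟩ := ‹Nonempty V›
  apply le_antisymm _ (IsomAct.slen_nonneg _)
  have h1 := hG.tendsto_slen hd g v
  have h2 := hG.tendsto_slen hd h v
  rw [hg] at h1
  rw [hh] at h2
  have h3 := h1.add h2
  rw [add_zero] at h3
  refine le_of_tendsto_of_tendsto tendsto_const_nhds h3 ?_
  filter_upwards [eventually_ge_atTop 1] with n hn
  have h4 := IsomAct.slen_le (d := d) (g * h) v n hn
  refine h4.trans ?_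
  rw [← add_div]
  refine div_le_div_of_nonneg_right ?_ (Nat.cast_nonneg n)
  have h5 : d v ((g * h) ^ n • v) ≤ d v (g ^ n • v) + d v (h ^ n • v) := by
    rw [hc.mul_pow, mul_smul]
    have e1 := hd.tri v (g ^ n • v) (g ^ n • h ^ n • v)
    have e2 := hG (g ^ n) v (h ^ n • v)
    omega
  exact_mod_cast h5

end TADD

open TADD in
theorem TADD : Stmt_TADD := by
  intro δ G X _ _ d hd hh hG hne g h hgh hs
  have hc : Commute g h := hgh
  by_cases h0 : slen d h = 0
  · exact Or.inl (slen_mul_zero hd hG hc (hs.trans h0) h0)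
  have hpos : 0 < slen d h := lt_of_le_of_ne (IsomAct.slen_nonneg _) (Ne.symm h0)
  obtain ⟨hm1, hm2⟩ := hG.axPow_spec hd (100 * δ + 100) hpos
  generalize axPow (100 * δ + 100) d h = m at hm1 hm2
  obtain ⟨z, hz⟩ := Mn_nonempty (d := d) (h ^ m)
  by_contra hcon
  push Not at hcon
  obtain ⟨hc1, hc2⟩ := hcon
  have p1 : 0 < slen d (g * h) := lt_of_le_of_ne (IsomAct.slen_nonneg _) (Ne.symm hc1)
  have p2 : 0 < slen d (g * h⁻¹) := lt_of_le_of_ne (IsomAct.slen_nonneg _) (Ne.symm hc2)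
  obtain ⟨ε, hε, he1, he2⟩ : ∃ ε : ℝ, 0 < ε ∧ ε ≤ slen d (g * h) ∧ ε ≤ slen d (g * h⁻¹) :=
    ⟨min (slen d (g * h)) (slen d (g * h⁻¹)), lt_min p1 p2, min_le_left _ _, min_le_right _ _⟩
  have l1 := hG.tendsto_slen hd g z
  have l2 := hG.tendsto_slen hd h z
  rw [hs] at l1
  have l3 := l1.sub l2
  rw [sub_self] at l3
  have l4 := l3.abs
  rw [abs_zero] at l4
  have ev1 := l4.eventually (gt_mem_nhds (show (0 : ℝ) < ε / 4 by linarith))
  obtain ⟨n, hn1, hn2, hn3⟩ := (ev1.and ((eventually_ge_atTop 1).and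
    (eventually_gt_atTop ⌈(64 * δ : ℝ) / ε⌉₊))).exists
  have hn0 : (0 : ℝ) < n := by exact_mod_cast hn2
  have hn4 : (64 * δ : ℝ) / ε < n := lt_of_le_of_lt (Nat.le_ceil _) (by exact_mod_cast hn3)
  rw [div_lt_iff₀ hε] at hn4
  rw [← sub_div, abs_div, abs_of_pos hn0, div_lt_iff₀ hn0] at hn1
  have hcg : Commute (g ^ n) (h ^ m) := hc.pow_pow n m
  have hch : Commute (h ^ n) (h ^ m) := (Commute.refl h).pow_pow n m
  obtain ⟨D, hD⟩ : ∃ D, D = (d z (g ^ n • z) - d z (h ^ n • z)) +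
      (d z (h ^ n • z) - d z (g ^ n • z)) := ⟨_, rfl⟩
  have hDr : (D : ℝ) < ε / 4 * n := by
    refine lt_of_le_of_lt ?_ hn1
    rcases le_total (d z (g ^ n • z)) (d z (h ^ n • z)) with h5 | h5
    · have h6 : D + d z (g ^ n • z) = d z (h ^ n • z) := by omega
      have h7 : (D : ℝ) + d z (g ^ n • z) = d z (h ^ n • z) := by exact_mod_cast h6
      rw [abs_sub_comm]
      refine le_trans (le_of_eq ?_) (le_abs_self _)
      linarith
    · have h6 : D + d z (h ^ n • z) = d z (g ^ n • z) := by omega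
      have h7 : (D : ℝ) + d z (h ^ n • z) = d z (g ^ n • z) := by exact_mod_cast h6
      refine le_trans (le_of_eq ?_) (le_abs_self _)
      linarith
  have key := products hd hh hG hcg hch (by omega) hz D (by omega) (by omega)
  rcases key with key | key
  · have h5 := IsomAct.slen_mul_le (d := d) (g * h) z n
    rw [hc.mul_pow] at h5
    have h6 : (d z ((g ^ n * h ^ n) • z) : ℝ) ≤ D + 32 * δ := by exact_mod_cast key
    nlinarith
  · have h5 := IsomAct.slen_mul_le (d := d) (g * h⁻¹) z n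
    rw [hc.inv_right.mul_pow, inv_pow] at h5
    have h6 : (d z ((g ^ n * (h ^ n)⁻¹) • z) : ℝ) ≤ D + 32 * δ := by exact_mod_cast key
    nlinarith

end Pool.Agent.Olsh
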