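import Pool.Agent.Olsh.Tree

/-!
# MP_3cdb71_al: the invariants of level 0
-/

set_option autoImplicit false

namespace Pool.Agent.Olsh

open FreeGroup

theorem bt_unique {V : Type} {d : V → V → ℕ} (hd : IsGM d) (hh : Hyp d 0) {p q u v : V}
    (hu : Bt d p u q) (hv : Bt d p v q) (h : d p u = d p v) : u = v := by
  apply hd.eq_of_zero
  unfold Bt at hu hv
  have c1 := hd.comm u q
  have c2 := hd.comm v q
  rcases hh p u q v with h1 | h1
  · omega
  · omega

theorem tree_shift {V G : Type} [Group G] [MulAction G V] {d : V → V → ℕ} (hd : IsGM d)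
    (hh : Hyp d 0) (hG : IsomAct G d) {g : G} {p q z : V} {a : ℕ} (hp : d p (g • p) ≤ a)
    (hq : d q (g • q) ≤ a) (hz : Bt d p z q) (h1 : a < d p z) (h2 : a < d z q) :
    Bt d p (g • z) q ∧ d p (g • z) + d z q = d p (g • q) := by
  unfold Bt at hz ⊢
  have e1 := hG g p z
  have e2 := hG g z q
  have e3 := hG g p q
  have c1 := hd.comm (g • q) (g • p)
  have c2 := hd.comm (g • z) (g • q)
  have c3 := hd.comm (g • z) (g • p)
  have c4 := hd.comm q (g • z)
  have c5 := hd.comm q (g • q)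
  have c6 := hd.comm q (g • p)
  have t1 := hd.tri p (g • z) q
  have k1 := hh p (g • p) (g • z) (g • q)
  have k2 := hh q (g • q) (g • z) (g • p)
  have k3 := hh p (g • p) (g • q) q
  constructor <;> omega

theorem tree_wa {V G : Type} [Group G] [MulAction G V] {d : V → V → ℕ} (hd : IsGM d)
    (hh : Hyp d 0) (hG : IsomAct G d) (hfree : ∀ (g : G) (v : V), g • v = v → g = 1)
    {g h : G} {p q : V} {a : ℕ} (hgp : d p (g • p) ≤ a)
    (hgq : d q (g • q) ≤ a) (hhp : d p (h • p) ≤ a) (hhq : d q (h • q) ≤ a)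
    (hpq : 4 * a + 2 ≤ d p q) : g * h = h * g := by
  obtain ⟨z, hz, hzd⟩ := hd.exists_bt p q (2 * a + 1) (by omega)
  have hz' := hz
  unfold Bt at hz'
  have tg1 := hd.tri p q (g • q)
  have tg2 := hd.tri p (g • q) q
  have th1 := hd.tri p q (h • q)
  have th2 := hd.tri p (h • q) q
  have c1 := hd.comm q (g • q)
  have c2 := hd.comm q (h • q)
  obtain ⟨g1, g2⟩ := tree_shift hd hh hG hgp hgq hz (by omega) (by omega)
  obtain ⟨h1, h2⟩ := tree_shift hd hh hG hhp hhq hz (by omega) (by omega)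
  have g1' := g1
  have h1' := h1
  unfold Bt at g1' h1'
  obtain ⟨gh1, gh2⟩ := tree_shift hd hh hG hgp hgq h1 (by omega) (by omega)
  obtain ⟨hg1, hg2⟩ := tree_shift hd hh hG hhp hhq g1 (by omega) (by omega)
  have e : g • h • z = h • g • z := bt_unique hd hh gh1 hg1 (by omega)
  have e2 : ((h * g)⁻¹ * (g * h)) • z = z := by
    rw [mul_smul, mul_smul, e, ← mul_smul h g, inv_smul_smul]
  have := hfree _ _ e2
  rw [inv_mul_eq_one] at this
  exact this.symm

theorem td_csa (a b c : F2) (hb : b ≠ 1) (hab : a * b = b * a) (hbc : b * c = c * b) :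
    a * c = c * a := by
  set n : ℕ := 4 * (norm a + norm c) + 2 with hn
  have h1 : ∀ x : F2, Commute x b → td (b ^ n) (x • b ^ n) = td 1 (x • (1 : F2)) := by
    intro x hx
    have e : x • b ^ n = b ^ n * x := (hx.pow_right n).eq
    rw [e]
    have := td_smul (b ^ n) 1 x
    rw [mul_one] at this
    rw [this, smul_eq_mul, mul_one]
  have h2 : ∀ x : F2, td 1 (x • (1 : F2)) = norm x := by
    intro x
    simp [td]
  have ha : Commute a b := hab
  have hc : Commute c b := hbc.symm
  obtain ⟨c', r, hr, hh⟩ := td_pow_eq b 1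
  have h3 := hh n (by omega)
  have h4 : n * 1 ≤ n * r := Nat.mul_le_mul_left _ (hr hb)
  have h5 : td 1 (b ^ n • (1 : F2)) = td 1 (b ^ n) := by rw [smul_eq_mul, mul_one]
  refine tree_wa td_isGM td_hyp0 td_isom td_free (p := 1) (q := b ^ n) (a := norm a + norm c)
    ?_ ?_ ?_ ?_ ?_
  · rw [h2]; omega
  · rw [h1 a ha, h2]; omega
  · rw [h2]; omega
  · rw [h1 c hc, h2]; omega
  · rw [h5] at h3
    rw [h3]
    omega

/-- Level 0 satisfies all invariants. -/
theorem lev0 (a0 L0 : ℕ) (CP : ℕ → ℕ) (M0 : ℕ) (h : 4 * a0 + 2 ≤ L0) :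
    Lev F2 td a0 L0 CP M0 where
  gm := td_isGM
  hyp := td_hyp0.mono (Nat.zero_le _)
  isom := td_isom
  free := td_free
  ne := ⟨1⟩
  lox := by
    intro g hg
    have := td_slen g hg
    linarith
  wa := by
    intro g h' p q h1 h2 h3 h4 h5
    exact tree_wa td_isGM td_hyp0 td_isom td_free h1 h2 h3 h4 (by omega)
  csa := td_csa
  pm := by
    intro m hm _ x v _
    have := td_pm m hm x v
    omega

end Pool.Agent.Olsh
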