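import Pool.Agent.Olsh.StmtsP

/-!
# MP_3cdb71_al: weak acylindricity of the quotient, general form (6.3 of `H92.md`)
-/

set_option autoImplicit false

namespace Pool.Agent.Olsh

namespace GWA

/-- Two points of geodesics with the same endpoints. -/
theorem two_bt {V : Type} {d : V → V → ℕ} {δ : ℕ} (hh : Hyp d δ) (hd : IsGM d) {x y p q : V}
    {k : ℕ} (hp : Bt d x p y) (hq : Bt d x q y) (h1 : d x p ≤ d x q + k) (h2 : d x q ≤ d x p + k) :
    d p q ≤ k + 2 * δ := by
  have h := hh x p y q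
  have e1 := hd.comm y q
  have e2 := hd.comm p y
  have e3 := hd.comm q y
  unfold Bt at hp hq
  omega

/-- Displacement of points in the middle. -/
theorem disp_mid {G V : Type} [Group G] [MulAction G V] {d : V → V → ℕ} {δ : ℕ} (hh : Hyp d δ)
    (hd : IsGM d) (hG : Isom G d) {x y z : V} {g : G} {a : ℕ} (hx : d x (g • x) ≤ a)
    (hy : d y (g • y) ≤ a) (hz : Bt d x z y) (h1 : a + 8 * δ < d x z) (h2 : a + 8 * δ < d z y) :
    d z (g • z) ≤ a + 18 * δ := by
  obtain ⟨z', hz', h3, h4, h5⟩ := hh.quad hd hx hy hz h1 h2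
  have h6 : Bt d (g • x) (g • z) (g • y) := by
    unfold Bt
    rw [hG, hG, hG]
    exact hz
  have h7 : d (g • x) (g • z) = d x z := hG _ _ _
  have h8 := two_bt (k := a + 8 * δ) hh hd hz' h6 (by omega) (by omega)
  have h9 := hd.tri z z' (g • z)
  omega

/-- A vertex of a geodesic which is not an apex. -/
theorem nonapex {A : Type} {d : A → A → ℕ} {ap : Set A} {c : A → A → A → ℕ} {T0 : ℕ}
    (h : IsPS d ap c T0) {v w : A} {t : ℕ} (ht : t + 1 ≤ d v w) :
    ∃ z, z ∉ ap ∧ Bt d v z w ∧ t ≤ d v z ∧ d v z ≤ t + 1 := by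
  have hd := h.gm
  obtain ⟨z, hz, hzt⟩ := hd.exists_bt v w t (by omega)
  by_cases hza : z ∈ ap
  · have h1 : 1 ≤ d z w := by
      unfold Bt at hz
      omega
    obtain ⟨z', hz', hzt'⟩ := hd.exists_bt z w 1 h1
    have h2 : Bt d v z' w := by
      have e1 := hd.tri v z z'
      have e2 := hd.tri v z' w
      unfold Bt at *
      omega
    refine ⟨z', ?_, h2, ?_, ?_⟩
    · intro hz'a
      exact h.nadj z hza z' hz'a hzt'
    · have e1 := hd.tri v z' w
      have e2 := hd.tri v z z'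
      unfold Bt at *
      omega
    · have e2 := hd.tri v z z'
      omega
  · exact ⟨z, hza, hz, by omega, by omega⟩

section big

variable {G A : Type} [Group G] [MulAction G A] {d : A → A → ℕ} {ap : Set A}
  {c : A → A → A → ℕ} {T0 : ℕ}

/-- Angles are preserved by the action. -/
theorem ang_smul (hI : Isom G d) (hc : ∀ (g : G), ∀ s ∈ ap, ∀ y y', d y s = 1 → d y' s = 1 →
    c (g • s) (g • y) (g • y') = c s y y') (g : G) {s : A} (hs : s ∈ ap)
    (a b : A) : ang d c (g • s) (g • a) (g • b) = ang d c s a b := by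
  have nbs : ∀ (g : G) (s a y : A), y ∈ Nb d s a → g • y ∈ Nb d (g • s) (g • a) := by
    rintro g s a y ⟨h1, h2⟩
    refine ⟨?_, ?_⟩
    · rw [hI]; exact h1
    · rw [hI, hI]; exact h2
  have hset : {n | ∃ y ∈ Nb d (g • s) (g • a), ∃ y' ∈ Nb d (g • s) (g • b), n = c (g • s) y y'} =
      {n | ∃ y ∈ Nb d s a, ∃ y' ∈ Nb d s b, n = c s y y'} := by
    ext n
    constructor
    · rintro ⟨y, hy, y', hy', rfl⟩
      have h1 := nbs g⁻¹ _ _ _ hy
      have h2 := nbs g⁻¹ _ _ _ hy'
      rw [inv_smul_smul, inv_smul_smul] at h1 h2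
      refine ⟨g⁻¹ • y, h1, g⁻¹ • y', h2, ?_⟩
      have h3 := hc g s hs (g⁻¹ • y) (g⁻¹ • y') h1.1 h2.1
      rw [smul_inv_smul, smul_inv_smul] at h3
      exact h3
    · rintro ⟨y, hy, y', hy', rfl⟩
      exact ⟨g • y, nbs g _ _ _ hy, g • y', nbs g _ _ _ hy',
        (hc g s hs y y' hy.1 hy'.1).symm⟩
  unfold ang
  rw [hset]

/-- Big angles are moved to big angles. -/
theorem ang_move (hA : Stmt_PSA) (hps : IsPS d ap c T0) (hI : Isom G d)
    (hap : ∀ (g : G), ∀ s ∈ ap, g • s ∈ ap)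
    (hc : ∀ (g : G), ∀ s ∈ ap, ∀ y y', d y s = 1 → d y' s = 1 →
      c (g • s) (g • y) (g • y') = c s y y') {v w s : A} (hs : s ∈ ap) {K : ℕ} (e : G)
    (hK : K + 2 * T0 < ang d c s v w) (h1 : d v (e • v) < d v s) (h2 : d w (e • w) < d s w) :
    K < ang d c (e • s) v w := by
  have hd := hps.gm
  obtain ⟨-, -, -, Asym, Atri, -, -, -, -, -, Anear⟩ := hA A d ap c T0 hps (e • s) (hap e s hs)
  have e1 := ang_smul hI hc e hs v w
  have e2 : d (e • v) (e • s) = d v s := hI _ _ _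
  have e3 : d (e • w) (e • s) = d w s := hI _ _ _
  have e4 := hd.comm v (e • v)
  have e5 := hd.comm w (e • w)
  have e6 := hd.comm w s
  have a1 : ang d c (e • s) (e • v) v ≤ T0 := Anear _ _ (by omega)
  have a2 : ang d c (e • s) (e • w) w ≤ T0 := Anear _ _ (by omega)
  have a3 := Asym (e • w) w
  have n1 : v ≠ e • s := by
    intro h
    rw [← h] at e2
    omega
  have n2 : w ≠ e • s := by
    intro h
    rw [← h] at e3
    omega
  have t1 := Atri (e • v) v (e • w) n1
  have t2 := Atri v w (e • w) n2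
  omega

/-- Apexes with big angles are linearly ordered. -/
theorem lin (hA : Stmt_PSA) (hps : IsPS d ap c T0) {v w s1 s2 : A} (hs1 : s1 ∈ ap)
    (hs2 : s2 ∈ ap) (hne : s1 ≠ s2) (h1 : 2 * T0 < ang d c s1 v w)
    (h2 : 2 * T0 < ang d c s2 v w) :
    d v s2 = d v s1 + d s1 s2 ∨ d v s1 = d v s2 + d s1 s2 := by
  have hd := hps.gm
  obtain ⟨-, -, -, -, -, -, -, B1, -, -, -⟩ := hA A d ap c T0 hps s1 hs1
  obtain ⟨-, -, -, -, Atri, -, -, B2, -, -, -⟩ := hA A d ap c T0 hps s2 hs2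
  have b1 := (B1 v w (by omega)).1
  have b2 := (B2 v w (by omega)).1
  have t := Atri v s1 w hne
  have e1 := hd.comm s1 s2
  by_cases hc : T0 < ang d c s2 v s1
  · have := (B2 v s1 hc).1
    right
    omega
  · have := (B2 s1 w (by omega)).1
    left
    omega

/-- Translations preserve differences of positions, one order. -/
theorem order_lt (hA : Stmt_PSA) (hps : IsPS d ap c T0) (hI : Isom G d)
    (hap : ∀ (g : G), ∀ s ∈ ap, g • s ∈ ap)
    (hc : ∀ (g : G), ∀ s ∈ ap, ∀ y y', d y s = 1 → d y' s = 1 →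
      c (g • s) (g • y) (g • y') = c s y y') {v w s1 s2 : A} (hs1 : s1 ∈ ap) (hs2 : s2 ∈ ap)
    (hne : s1 ≠ s2) (hlt : d v s1 < d v s2)
    (h1 : 4 * T0 < ang d c s1 v w) (h2 : 4 * T0 < ang d c s2 v w) (e : G)
    (h3 : 4 * T0 < ang d c (e • s1) v w) (h4 : 4 * T0 < ang d c (e • s2) v w)
    (h5 : d w (e • w) < d s2 w) : d v (e • s2) + d v s1 = d v (e • s1) + d v s2 := by
  have hd := hps.gm
  obtain ⟨-, -, -, Asym1, Atri1, -, -, B1, -, Bet1, -⟩ := hA A d ap c T0 hps s1 hs1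
  obtain ⟨-, -, -, -, -, -, -, B2, Nbq, -, -⟩ := hA A d ap c T0 hps s2 hs2
  obtain ⟨-, -, -, -, -, -, -, B3, -, -, -⟩ := hA A d ap c T0 hps (e • s1) (hap e s1 hs1)
  obtain ⟨-, -, -, Asym4, Atri4, -, -, B4, -, -, Anear⟩ :=
    hA A d ap c T0 hps (e • s2) (hap e s2 hs2)
  have b1 := (B1 v w (by omega)).1
  have b2 := (B2 v w (by omega)).1
  have b3 := (B3 v w (by omega)).1
  have b4 := (B4 v w (by omega)).1
  have c1 := hd.comm s1 s2
  have c2 := hd.comm w s2
  have c3 := hd.comm w s1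
  have hl : d v s2 = d v s1 + d s1 s2 := by
    rcases lin (v := v) (w := w) hA hps hs1 hs2 hne (by omega) (by omega) with h | h <;> omega
  have hbt : Bt d w s2 s1 := by
    unfold Bt
    omega
  have a1 := Bet1 w s2 hbt (fun h => hne h.symm)
  have a2 := Asym1 w s2
  have t1 := Atri1 v s2 w (fun h => hne h.symm)
  obtain ⟨-, hang, -⟩ := Nbq s1 hs1 hne v (by omega)
  have a3 := hang w
  have a4 := ang_smul hI hc e hs2 s1 w
  have e3 : d (e • w) (e • s2) = d w s2 := hI _ _ _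
  have e4 : d (e • s1) (e • s2) = d s1 s2 := hI _ _ _
  have e5 := hd.comm w (e • w)
  have a5 : ang d c (e • s2) (e • w) w ≤ T0 := Anear _ _ (by omega)
  have n2 : w ≠ e • s2 := by
    intro h
    rw [← h] at e3
    omega
  have t2 := Atri4 (e • s1) w (e • w) n2
  have a6 := Asym4 (e • w) w
  have b5 := (B4 (e • s1) w (by omega)).1
  omega

/-- Translations preserve differences of positions. -/
theorem order (hA : Stmt_PSA) (hps : IsPS d ap c T0) (hI : Isom G d)
    (hap : ∀ (g : G), ∀ s ∈ ap, g • s ∈ ap)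
    (hc : ∀ (g : G), ∀ s ∈ ap, ∀ y y', d y s = 1 → d y' s = 1 →
      c (g • s) (g • y) (g • y') = c s y y') {v w s1 s2 : A} (hs1 : s1 ∈ ap) (hs2 : s2 ∈ ap)
    (h1 : 4 * T0 < ang d c s1 v w) (h2 : 4 * T0 < ang d c s2 v w) (e : G)
    (h3 : 4 * T0 < ang d c (e • s1) v w) (h4 : 4 * T0 < ang d c (e • s2) v w)
    (h5 : d w (e • w) < d s1 w) (h6 : d w (e • w) < d s2 w) :
    d v (e • s2) + d v s1 = d v (e • s1) + d v s2 := by
  by_cases hne : s1 = s2
  · subst hne
    rfl
  · rcases lin (v := v) (w := w) hA hps hs1 hs2 hne (by omega) (by omega) with h | h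
    · have hpos : d s1 s2 ≠ 0 := fun h0 => hne (hps.gm.eq_of_zero h0)
      exact order_lt hA hps hI hap hc hs1 hs2 hne (by omega) h1 h2 e h3 h4 h6
    · have hpos : d s1 s2 ≠ 0 := fun h0 => hne (hps.gm.eq_of_zero h0)
      have := order_lt hA hps hI hap hc hs2 hs1 (fun h => hne h.symm) (by omega) h2 h1 e h4 h3 h5
      omega

/-- The case of a big apex. -/
theorem big (hA : Stmt_PSA) (hps : IsPS d ap c T0) (hI : Isom G d)
    (hap : ∀ (g : G), ∀ s ∈ ap, g • s ∈ ap)
    (hc : ∀ (g : G), ∀ s ∈ ap, ∀ y y', d y s = 1 → d y' s = 1 →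
      c (g • s) (g • y) (g • y') = c s y y')
    (hfree : ∀ (g : G) (v : A), g • v = v → g = 1) {D : ℕ} {g h : G} {v w s : A}
    (hgv : d v (g • v) ≤ D) (hgw : d w (g • w) ≤ D) (hhv : d v (h • v) ≤ D)
    (hhw : d w (h • w) ≤ D) (hs : s ∈ ap) (hang : 6 * T0 < ang d c s v w)
    (h1 : 2 * D < d v s) (h2 : 2 * D < d s w) : g * h = h * g := by
  have hd := hps.gm
  have dgh : ∀ (a b : G) (x : A), d x (a • x) ≤ D → d x (b • x) ≤ D →
      d x ((a * b) • x) ≤ 2 * D := by
    intro a b x ha hb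
    have e1 := hd.tri x (a • x) ((a * b) • x)
    have e2 : d (a • x) ((a * b) • x) = d x (b • x) := by
      rw [mul_smul]
      exact hI _ _ _
    omega
  have m1 := ang_move (v := v) (w := w) hA hps hI hap hc hs (K := 4 * T0) g (by omega) (by omega) (by omega)
  have m2 := ang_move (v := v) (w := w) hA hps hI hap hc hs (K := 4 * T0) h (by omega) (by omega) (by omega)
  have q1 := dgh g h v hgv hhv
  have q2 := dgh g h w hgw hhw
  have q3 := dgh h g v hhv hgv
  have q4 := dgh h g w hhw hgw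
  have m3 := ang_move (v := v) (w := w) hA hps hI hap hc hs (K := 4 * T0) (g * h) (by omega) (by omega) (by omega)
  have m4 := ang_move (v := v) (w := w) hA hps hI hap hc hs (K := 4 * T0) (h * g) (by omega) (by omega) (by omega)
  have far : ∀ e : G, d w (e • w) ≤ D → D < d (e • s) w := by
    intro e he
    have e1 := hd.tri (e • s) w (e • w)
    have e2 : d (e • s) (e • w) = d s w := hI _ _ _
    omega
  have f1 := far g hgw
  have f2 := far h hhw
  have o1 := order (v := v) (w := w) hA hps hI hap hc hs (hap h s hs) (by omega) m2 g m1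
    (by rw [← mul_smul]; exact m3) (by omega) (by omega)
  have o2 := order (v := v) (w := w) hA hps hI hap hc hs (hap g s hs) (by omega) m1 h m2
    (by rw [← mul_smul]; exact m4) (by omega) (by omega)
  rw [← mul_smul] at o1 o2
  have heq : (g * h) • s = (h * g) • s := by
    by_contra hne
    have hpos : d ((g * h) • s) ((h * g) • s) ≠ 0 := fun h0 => hne (hd.eq_of_zero h0)
    rcases lin (v := v) (w := w) hA hps (hap _ _ hs) (hap _ _ hs) hne (by omega) (by omega) with h | h <;> omega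
  have h3 : ((h * g)⁻¹ * (g * h)) • s = s := by
    rw [mul_smul, heq, inv_smul_smul]
  have h4 := hfree _ _ h3
  have h5 : g * h = (h * g) * ((h * g)⁻¹ * (g * h)) := by
    rw [mul_inv_cancel_left]
  rw [h5, h4, mul_one]

end big

end GWA

theorem GWA (h1 : Stmt_PSA) (h2 : Stmt_QPS) (h3 : Stmt_QGM) (h4 : Stmt_QHYP) (h5 : Stmt_DICH)
    (h6 : Stmt_TR) (h7 : Stmt_LAM) (h8 : Stmt_OV) (h9 : Stmt_CONEGM) : Stmt_GWA := by
  intro η η1 C
  obtain ⟨C1, hDICH⟩ := h5 η η1 C
  obtain ⟨C2, hLAM⟩ := h7 η η1 C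
  obtain ⟨A, C3, hOV⟩ := h8
  -- constants
  let N0 : ℕ → ℕ := fun D => (D + 18 * dl + 1) * (40 * C + C1 + C2 * (1 + (D + 18 * dl)))
  refine ⟨A, fun D => 2 * (3 * D + 8 * dl + 2) + 4 + 2 * N0 D + 8 * (C2 + 2 * N0 D + 2 * dl), ?_⟩
  intro a0 L0 CP M0 hA0
  refine ⟨2 * L0 + C3 + 2 + C1 + C2 + 10 * (40 * C + C1) + 1, ?_⟩
  intro G G' X S A' _ _ _ _ _ d u L Y d' π q hLQ D g h v w hgv hgw hhv hhw hF
  have hu := hLQ.hu
  have hL := hLQ.hL
  have hlev := hLQ.lev
  have hcp := hLQ.conep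
  have hrot := hLQ.rotc
  have hquot := hLQ.quot
  have hX : IsGM d := hlev.gm
  have hIG : IsomAct G d := hlev.isom
  have hu1 : 1 ≤ u := hcp.one_le
  obtain ⟨hd', hI'⟩ := h3 G (X ⊕ S) G' A' (cd d u Y) (KK G (apx X S)) d' π q hrot.gm hrot.isom
    hquot
  have hh' : Hyp d' dl := h4 G (X ⊕ S) G' A' (cd d u Y) (apx X S) (cdX d) (C * u) L dl d' π q
    hrot hquot hcp.hypc
  obtain ⟨hps, hfree, hap, hc, -⟩ := h2 G (X ⊕ S) G' A' (cd d u Y) (apx X S) (cdX d) (C * u) L d'
    π q hrot hquot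
  obtain ⟨-, -, hcdn⟩ := h9 X S d u Y hX hu1 hLQ.ne
  -- the two points
  set K : ℕ := 3 * D + 8 * dl + 1 with hK
  have hFD : 2 * (3 * D + 8 * dl + 2) + 4 + 2 * N0 D + 8 * (C2 + 2 * N0 D + 2 * dl) ≤ d' v w := hF
  obtain ⟨p1, hp1a, hp1, hp1t, hp1t'⟩ := GWA.nonapex hps (v := v) (w := w) (t := K) (by omega)
  have hp1w : d' p1 w = d' v w - d' v p1 := by
    unfold Bt at hp1
    omega
  obtain ⟨q1, hq1a, hq1, hq1t, hq1t'⟩ := GWA.nonapex hps (v := p1) (w := w)
    (t := d' p1 w - (K + 1)) (by omega)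
  have hvq1 : Bt d' v q1 w := by
    have e1 := hd'.tri v p1 q1
    have e2 := hd'.tri v q1 w
    unfold Bt at *
    omega
  have hvq1' : d' v q1 = d' v p1 + d' p1 q1 := by
    have e1 := hd'.tri v p1 q1
    have e2 := hd'.tri v q1 w
    unfold Bt at *
    omega
  have hq1w : K ≤ d' q1 w ∧ d' q1 w ≤ K + 1 := by
    unfold Bt at *
    omega
  have hR : d' p1 q1 + 2 * (K + 1) ≥ d' v w := by
    unfold Bt at *
    omega
  by_cases hbig : ∃ s ∈ q '' apx X S, 40 * C * u < ang d' (cq (cd d u Y) (cdX d) q) s p1 q1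
  · obtain ⟨s, hs, hang⟩ := hbig
    obtain ⟨-, -, -, Asym, Atri, -, -, B1, -, Bet, -⟩ := h1 A' d' _ _ _ hps s hs
    have hT : 40 * C * u = 40 * (C * u) := by ring
    rw [hT] at hang
    have b1 := B1 p1 q1 (by omega)
    obtain ⟨b1, n1, n2⟩ := b1
    have e1 := hd'.tri v s w
    have e2 := hd'.tri v p1 s
    have e3 := hd'.tri s q1 w
    have hvs : d' v s = d' v p1 + d' p1 s := by
      unfold Bt at *
      omega
    have hsw : d' s w = d' s q1 + d' q1 w := by
      unfold Bt at *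
      omega
    have hbt1 : Bt d' v p1 s := by
      unfold Bt
      omega
    have hbt2 : Bt d' w q1 s := by
      have f1 := hd'.comm w q1
      have f2 := hd'.comm q1 s
      have f3 := hd'.comm w s
      unfold Bt
      omega
    have a1 := Bet v p1 hbt1 n1
    have a2 := Bet w q1 hbt2 n2
    have a3 := Asym v p1
    have nv : v ≠ s := by
      intro h0
      have h00 : d' v s = 0 := by
        rw [h0]
        exact hd'.self s
      omega
    have nw : w ≠ s := by
      intro h0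
      have h00 : d' s w = 0 := by
        rw [h0]
        exact hd'.self s
      omega
    have t1 := Atri p1 v q1 nv
    have t2 := Atri v w q1 nw
    exact GWA.big h1 hps hI' hap hc hfree hgv hgw hhv hhw hs (by omega) (by omega) (by omega)
  · -- lifts with small angles
    have hC1L : C1 * u ≤ L := by
      refine le_trans (Nat.mul_le_mul_right u ?_) hL
      omega
    have hB : 10 * (40 * C * u + C1 * u) ≤ L := by
      have e1 : 10 * (40 * C * u + C1 * u) = (10 * (40 * C + C1)) * u := by ring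
      rw [e1]
      refine le_trans (Nat.mul_le_mul_right u ?_) hL
      omega
    rcases hDICH G G' X S A' d u L Y d' π q hLQ.toConeQ (by omega) hC1L (40 * C * u) p1 q1 hp1a hq1a
      with hb | ⟨p2, q2, hp2, hq2, hcd2, hsm⟩
    · exact absurd hb hbig
    have hL10 : ∀ s ∈ apx X S, 10 * ang (cd d u Y) (cdX d) s (Sum.inl p2) (Sum.inl q2) ≤ L ∧
        10 * ang (cd d u Y) (cdX d) s (Sum.inl p2) (Sum.inl q2) ≤ L := by
      rintro s ⟨s0, rfl⟩
      have := hsm s0
      omega
    have hna : ∀ x : X, (Sum.inl x : X ⊕ S) ∉ apx X S := by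
      rintro x ⟨s, hs⟩
      cases hs
    have hTR := h6 G (X ⊕ S) G' A' (cd d u Y) (apx X S) (cdX d) (C * u) L d' π q hrot hquot
      (Sum.inl p2) (Sum.inl q2) (Sum.inl p2) (Sum.inl q2) (hna _) (hna _) (hna _) (hna _) hL10
    -- displacement of p1 and q1
    have hmid : ∀ e : G', d' v (e • v) ≤ D → d' w (e • w) ≤ D →
        d' p1 (e • p1) ≤ D + 18 * dl ∧ d' q1 (e • q1) ≤ D + 18 * dl := by
      intro e he1 he2
      refine ⟨GWA.disp_mid hh' hd' hI' he1 he2 hp1 (by omega) (by omega),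
        GWA.disp_mid hh' hd' hI' he1 he2 hvq1 (by omega) (by omega)⟩
    set a : ℕ := D + 18 * dl with ha
    set B : ℕ := 40 * C * u + C1 * u with hBdef
    set lam : ℕ := (a + 1) * (B + C2 * (u + a)) with hlam
    -- displacement of points in the middle of the geodesic of `X`
    have hmove : ∀ e : G', d' v (e • v) ≤ D → d' w (e • w) ≤ D → ∃ e1 : G, π e1 = e ∧
        ∀ z, Bt d p2 z q2 → lam < d p2 z → lam < d z q2 → d z (e1 • z) ≤ C2 + 2 * lam + 2 * dl := by
      intro e he1 he2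
      obtain ⟨m1, m2⟩ := hmid e he1 he2
      obtain ⟨e1, hpe, hd1, hd2⟩ := hTR e
      refine ⟨e1, hpe, ?_⟩
      intro z hz hz1 hz2
      rw [hp2] at hd1
      rw [hq2] at hd2
      have hsm' : ∀ s : S, ang (cd d u Y) (cdX d) (Sum.inr s) (Sum.inl (e1 • p2))
          (Sum.inl (e1 • q2)) ≤ B := by
        intro s
        have h10 := GWA.ang_smul hrot.isom hrot.c_smul e1 (s := (Sum.inr (e1⁻¹ • s) : X ⊕ S))
          ⟨_, rfl⟩ (Sum.inl p2) (Sum.inl q2)
        have h11 := hsm (e1⁻¹ • s)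
        rw [← h10] at h11
        have h12 : e1 • (Sum.inr (e1⁻¹ • s) : X ⊕ S) = Sum.inr s := by
          show (Sum.inr (e1 • (e1⁻¹ • s)) : X ⊕ S) = Sum.inr s
          rw [smul_inv_smul]
        rw [h12] at h11
        exact h11
      have hcd1 : cd d u Y (Sum.inl p2) (Sum.inl (e1 • p2)) ≤ a := by
        have : cd d u Y (Sum.inl p2) (Sum.inl (e1 • p2)) = d' p1 (e • p1) := hd1
        omega
      have hcd3 : cd d u Y (Sum.inl q2) (Sum.inl (e1 • q2)) ≤ a := by
        have : cd d u Y (Sum.inl q2) (Sum.inl (e1 • q2)) = d' q1 (e • q1) := hd2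
        omega
      obtain ⟨z', hz', k1, k2, k3⟩ := hLAM X S d u Y hcp (by omega) a B lam p2 q2 (e1 • p2)
        (e1 • q2) hlam hsm hsm' hcd1 hcd3 z hz hz1 hz2
      have hz3 : Bt d (e1 • p2) (e1 • z) (e1 • q2) := by
        unfold Bt
        rw [hIG, hIG, hIG]
        exact hz
      have hz4 : d (e1 • p2) (e1 • z) = d p2 z := hIG _ _ _
      have k4 := GWA.two_bt (k := 2 * lam) hlev.hyp hX hz' hz3 (by omega) (by omega)
      have k5 := hX.tri z z' (e1 • z)
      omega
    obtain ⟨g1, hg1, hg1m⟩ := hmove g hgv hgw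
    obtain ⟨h0, hh0, hh0m⟩ := hmove h hhv hhw
    -- size of the geodesic of `X`
    have hlamle : lam ≤ N0 D * u := by
      have e1 : C2 * (u + a) ≤ C2 * ((1 + a) * u) := by
        apply Nat.mul_le_mul_left
        have : a ≤ a * u := Nat.le_mul_of_pos_right a hu1
        nlinarith
      calc lam = (a + 1) * (B + C2 * (u + a)) := hlam
        _ ≤ (a + 1) * (B + C2 * ((1 + a) * u)) := by
            apply Nat.mul_le_mul_left
            omega
        _ = N0 D * u := by
            simp only [N0, hBdef, ha]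
            ring
    have hNlong : ((2 * N0 D + 8 * (C2 + 2 * N0 D + 2 * dl) + 1) * u) < d p2 q2 := by
      by_contra hcon
      have hcon' : d p2 q2 ≤ (2 * N0 D + 8 * (C2 + 2 * N0 D + 2 * dl) + 1) * u := by omega
      have := hcdn _ _ _ hcon'
      omega
    set N1 : ℕ := 2 * N0 D + 8 * (C2 + 2 * N0 D + 2 * dl) with hN1
    have hexp : N1 * u = 2 * (N0 D * u) + 8 * (C2 * u + 2 * (N0 D * u) + 2 * (dl * u)) := by
      rw [hN1]
      ring
    have hC2u : C2 ≤ C2 * u := Nat.le_mul_of_pos_right _ hu1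
    have hdlu : dl ≤ dl * u := Nat.le_mul_of_pos_right _ hu1
    have hN1u : (N1 + 1) * u = N1 * u + u := by ring
    have hlong : 2 * lam + 2 + 8 * (C2 + 2 * lam + 2 * dl) + 2 * L0 + C3 ≤ d p2 q2 := by
      omega
    obtain ⟨z1, hz1, hz1t⟩ := hX.exists_bt p2 q2 (lam + 1) (by omega)
    have hz1q : d z1 q2 = d p2 q2 - (lam + 1) := by
      unfold Bt at hz1
      omega
    obtain ⟨z2, hz2, hz2t⟩ := hX.exists_bt z1 q2 (d z1 q2 - (lam + 1)) (by omega)
    have hz2q : d z2 q2 = lam + 1 := by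
      unfold Bt at hz2
      omega
    have hz2' : Bt d p2 z2 q2 := by
      have e1 := hX.tri p2 z1 z2
      have e2 := hX.tri p2 z2 q2
      unfold Bt at *
      omega
    have hz2p : d p2 z2 = d p2 q2 - (lam + 1) := by
      unfold Bt at hz2'
      omega
    have w1 := hg1m z1 hz1 (by omega) (by omega)
    have w2 := hg1m z2 hz2' (by omega) (by omega)
    have w3 := hh0m z1 hz1 (by omega) (by omega)
    have w4 := hh0m z2 hz2' (by omega) (by omega)
    have hcomm := hOV G X d a0 L0 CP M0 hlev hA0 g1 h0 z1 z2 _ _ w1 w2 w3 w4 (by omega)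
    rw [← hg1, ← hh0, ← map_mul, hcomm, map_mul]

end Pool.Agent.Olsh
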