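import Pool.Agent.Olsh.StmtsC

/-!
# MP_3cdb71_al, module PSA: Lemma 2.4 (A1)-(A4) of `Pool/Agent/Olsh/H92.md`
-/

set_option autoImplicit false

namespace Pool.Agent.Olsh

namespace PSA

variable {A : Type} {d : A → A → ℕ} {ap : Set A} {c : A → A → A → ℕ} {T0 : ℕ}

theorem nb_nonempty (h : IsPS d ap c T0) {s a : A} (ha : a ≠ s) : (Nb d s a).Nonempty := by
  have h0 : d a s ≠ 0 := fun e => ha (h.gm.eq_of_zero e)
  obtain ⟨z, hz1, hz2⟩ := h.gm.mid a s (d a s - 1) (by omega)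
  exact ⟨z, by omega, by omega⟩

theorem nb_self (h : IsPS d ap c T0) {s y : A} : y ∉ Nb d s s := by
  intro hy
  have h1 := hy.2
  have h2 := h.gm.self s
  omega

theorem nb_close (h : IsPS d ap c T0) {s : A} (hs : s ∈ ap) {a y y' : A} (hy : y ∈ Nb d s a)
    (hy' : y' ∈ Nb d s a) : c s y y' ≤ T0 := by
  by_contra hc
  have h1 := h.bgi s hs a a y y' hy hy' (by omega)
  have h2 := h.gm.self a
  have h3 := hy.2
  omega

theorem bdd (h : IsPS d ap c T0) {s : A} (hs : s ∈ ap) (a b : A) :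
    BddAbove {n | ∃ y ∈ Nb d s a, ∃ y' ∈ Nb d s b, n = c s y y'} := by
  by_cases hn : (Nb d s a).Nonempty ∧ (Nb d s b).Nonempty
  · obtain ⟨⟨y, hy⟩, ⟨y', hy'⟩⟩ := hn
    refine ⟨T0 + c s y y' + T0, ?_⟩
    rintro n ⟨z, hz, z', hz', rfl⟩
    have h1 := h.ctri s hs z y z' hz.1 hy.1 hz'.1
    have h2 := h.ctri s hs y y' z' hy.1 hy'.1 hz'.1
    have h3 := nb_close h hs hz hy
    have h4 := nb_close h hs hy' hz'
    omega
  · refine ⟨0, ?_⟩
    rintro n ⟨z, hz, z', hz', rfl⟩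
    exact absurd ⟨⟨z, hz⟩, ⟨z', hz'⟩⟩ hn

theorem le_ang (h : IsPS d ap c T0) {s : A} (hs : s ∈ ap) {a b y y' : A} (hy : y ∈ Nb d s a)
    (hy' : y' ∈ Nb d s b) : c s y y' ≤ ang d c s a b :=
  le_csSup (bdd h hs a b) ⟨y, hy, y', hy', rfl⟩

theorem attained (h : IsPS d ap c T0) {s : A} (hs : s ∈ ap) {a b : A} (ha : a ≠ s) (hb : b ≠ s) :
    ∃ y ∈ Nb d s a, ∃ y' ∈ Nb d s b, c s y y' = ang d c s a b := by
  obtain ⟨y, hy⟩ := nb_nonempty h ha
  obtain ⟨y', hy'⟩ := nb_nonempty h hb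
  have hne : ({n | ∃ y ∈ Nb d s a, ∃ y' ∈ Nb d s b, n = c s y y'} : Set ℕ).Nonempty :=
    ⟨_, y, hy, y', hy', rfl⟩
  have hm := Nat.sSup_mem hne (bdd h hs a b)
  obtain ⟨z, hz, z', hz', e⟩ := hm
  exact ⟨z, hz, z', hz', e.symm⟩

theorem ang_symm (h : IsPS d ap c T0) {s : A} (hs : s ∈ ap) (a b : A) :
    ang d c s a b = ang d c s b a := by
  unfold ang
  congr 1
  ext n
  constructor
  · rintro ⟨y, hy, y', hy', rfl⟩
    exact ⟨y', hy', y, hy, h.csymm s hs y y' hy.1 hy'.1⟩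
  · rintro ⟨y, hy, y', hy', rfl⟩
    exact ⟨y', hy', y, hy, h.csymm s hs y y' hy.1 hy'.1⟩

theorem ang_left (h : IsPS d ap c T0) (s a : A) : ang d c s s a = 0 := by
  unfold ang
  have : ({n | ∃ y ∈ Nb d s s, ∃ y' ∈ Nb d s a, n = c s y y'} : Set ℕ) = ∅ := by
    ext n
    simp only [Set.mem_setOf_eq, Set.mem_empty_iff_false, iff_false]
    rintro ⟨y, hy, _⟩
    exact nb_self h hy
  rw [this]
  simp

theorem ang_right (h : IsPS d ap c T0) (s a : A) : ang d c s a s = 0 := by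
  unfold ang
  have : ({n | ∃ y ∈ Nb d s a, ∃ y' ∈ Nb d s s, n = c s y y'} : Set ℕ) = ∅ := by
    ext n
    simp only [Set.mem_setOf_eq, Set.mem_empty_iff_false, iff_false]
    rintro ⟨y, _, y', hy', _⟩
    exact nb_self h hy'
  rw [this]
  simp

theorem ang_tri (h : IsPS d ap c T0) {s : A} (hs : s ∈ ap) (a b x : A) (hb : b ≠ s) :
    ang d c s a x ≤ ang d c s a b + ang d c s b x := by
  by_cases ha : a = s
  · subst ha
    rw [ang_left h]
    omega
  by_cases hx : x = s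
  · subst hx
    rw [ang_right h]
    omega
  obtain ⟨y, hy, y', hy', e⟩ := attained h hs ha hx
  obtain ⟨z, hz⟩ := nb_nonempty h hb
  have h1 := h.ctri s hs y z y' hy.1 hz.1 hy'.1
  have h2 := le_ang h hs hy hz
  have h3 := le_ang h hs hz hy'
  omega

theorem ang_self (h : IsPS d ap c T0) {s : A} (hs : s ∈ ap) (a : A) : ang d c s a a ≤ T0 := by
  by_cases ha : a = s
  · subst ha
    rw [ang_left h]
    omega
  obtain ⟨y, hy, y', hy', e⟩ := attained h hs ha ha
  have h1 := nb_close h hs hy hy'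
  omega

theorem ang_big (h : IsPS d ap c T0) {s : A} (hs : s ∈ ap) {a b : A}
    (hab : T0 < ang d c s a b) : d a b = d a s + d s b ∧ a ≠ s ∧ b ≠ s := by
  have ha : a ≠ s := by
    rintro rfl
    rw [ang_left h] at hab
    omega
  have hb : b ≠ s := by
    rintro rfl
    rw [ang_right h] at hab
    omega
  obtain ⟨y, hy, y', hy', e⟩ := attained h hs ha hb
  exact ⟨h.bgi s hs a b y y' hy hy' (by omega), ha, hb⟩

theorem nb_eq (h : IsPS d ap c T0) {s t : A} (hs : s ∈ ap) (ht : t ∈ ap) (hts : t ≠ s) {a : A}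
    (hab : 2 * T0 < ang d c t a s) : Nb d s a = Nb d s t := by
  have h1 := (ang_big h ht (a := a) (b := s) (by omega)).1
  have key : ∀ y, d y s = 1 → d a y = d a t + d t y := by
    intro y hy
    have hyt : y ≠ t := by
      rintro rfl
      exact h.nadj y ht s hs hy
    have h2 : ang d c t y s ≤ T0 := by
      by_contra hc
      have h3 := (ang_big h ht (a := y) (b := s) (by omega)).1
      have h4 : d y t ≠ 0 := fun e => hyt (h.gm.eq_of_zero e)
      have h5 : d t s ≠ 0 := fun e => hts (h.gm.eq_of_zero e)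
      omega
    have h3 := ang_tri h ht a y s hyt
    exact (ang_big h ht (a := a) (b := y) (by omega)).1
  ext y
  constructor
  · rintro ⟨hy1, hy2⟩
    have h2 := key y hy1
    exact ⟨hy1, by omega⟩
  · rintro ⟨hy1, hy2⟩
    have h2 := key y hy1
    exact ⟨hy1, by omega⟩

end PSA

open PSA in
theorem PSA : Stmt_PSA := by
  intro A d ap c T0 h s hs
  refine ⟨fun a ha => nb_nonempty h ha, fun a b y y' hy hy' => le_ang h hs hy hy',
    fun a b ha hb => attained h hs ha hb, fun a b => ang_symm h hs a b,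
    fun a b x hb => ang_tri h hs a b x hb, fun a => ang_self h hs a,
    fun a => ⟨ang_left h s a, ang_right h s a⟩, fun a b hab => ang_big h hs hab, ?_, ?_, ?_⟩
  · intro t ht hts a ha
    have hN := nb_eq h hs ht hts ha
    refine ⟨hN, ?_, (ang_big h ht (a := a) (b := s) (by omega)).1⟩
    intro b
    unfold ang
    rw [hN]
  · intro a b hb hbs
    by_contra hc
    have h1 := (ang_big h hs (a := a) (b := b) (by omega)).1
    have h2 : d b s ≠ 0 := fun e => hbs (h.gm.eq_of_zero e)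
    unfold Bt at hb
    omega
  · intro a b hab
    by_contra hc
    have h1 := (ang_big h hs (a := a) (b := b) (by omega)).1
    omega

end Pool.Agent.Olsh
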