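import Pool.Agent.Olsh.StmtsC

/-!
# MP_3cdb71_al, module CONEISO: the group acts by isometries on the cone-off
-/

set_option autoImplicit false

namespace Pool.Agent.Olsh

namespace CONEISO

/-- `g` maps adjacent vertices of the cone-off to adjacent vertices. -/
theorem adj_smul {G X S : Type} [Group G] [MulAction G X] [MulAction G S]
    (d : X → X → ℕ) (u : ℕ) (Y : S → Set X) (hd : Isom G d)
    (hY : ∀ (g : G) (s : S) (v : X), v ∈ Y s → g • v ∈ Y (g • s)) (g : G) :
    ∀ a b : X ⊕ S, coneAdj d u Y a b → coneAdj d u Y (g • a) (g • b) := by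
  intro a b h
  rcases a with v | s <;> rcases b with w | t
  · rw [Sum.smul_inl, Sum.smul_inl]
    refine ⟨fun h0 => h.1 (MulAction.injective g h0), ?_⟩
    rw [hd g v w]
    exact h.2
  · rw [Sum.smul_inl, Sum.smul_inr]
    exact hY g t v h
  · rw [Sum.smul_inr, Sum.smul_inl]
    exact hY g s w h
  · exact h.elim

/-- `g` maps paths of the cone-off to paths. -/
theorem hasPath_smul {G X S : Type} [Group G] [MulAction G X] [MulAction G S]
    (d : X → X → ℕ) (u : ℕ) (Y : S → Set X) (hd : Isom G d)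
    (hY : ∀ (g : G) (s : S) (v : X), v ∈ Y s → g • v ∈ Y (g • s)) (g : G)
    (n : ℕ) (a b : X ⊕ S) (h : HasPath (coneAdj d u Y) n a b) :
    HasPath (coneAdj d u Y) n (g • a) (g • b) := by
  obtain ⟨p, h0, h1, h2⟩ := h
  refine ⟨fun i => g • p i, ?_, ?_, fun i hi => adj_smul d u Y hd hY g _ _ (h2 i hi)⟩
  · show g • p 0 = g • a
    rw [h0]
  · show g • p n = g • b
    rw [h1]

end CONEISO

theorem CONEISO : Stmt_CONEISO := by
  intro G X S _ _ _ d u Y hd hY g a b
  have key : ∀ n, HasPath (coneAdj d u Y) n (g • a) (g • b) ↔ HasPath (coneAdj d u Y) n a b := by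
    intro n
    constructor
    · intro h
      have h' := CONEISO.hasPath_smul d u Y hd hY g⁻¹ n _ _ h
      rwa [inv_smul_smul, inv_smul_smul] at h'
    · intro h
      exact CONEISO.hasPath_smul d u Y hd hY g n _ _ h
  show pdist (coneAdj d u Y) (g • a) (g • b) = pdist (coneAdj d u Y) a b
  unfold pdist
  congr 1
  ext n
  exact key n

end Pool.Agent.Olsh
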