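import Pool.Agent.Olsh.StmtsC

/-!
# MP_3cdb71_al: the cone-off of a `G`-space is a rotating family
-/

set_option autoImplicit false

namespace Pool.Agent.Olsh

namespace CONEROT

/-- Neighbours of an apex. -/
theorem nb {X S : Type} {d : X → X → ℕ} {u : ℕ} {Y : S → Set X}
    (h : ∀ a b, cd d u Y a b = 1 ↔ coneAdj d u Y a b) {s : S} {a : X ⊕ S}
    (ha : cd d u Y a (Sum.inr s) = 1) : ∃ v, a = Sum.inl v ∧ v ∈ Y s := by
  have h1 := (h _ _).mp ha
  rcases a with v | t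
  · exact ⟨v, rfl, h1⟩
  · exact h1.elim

end CONEROT

theorem CONEROT (h1 : Stmt_CONEISO) (h2 : Stmt_CONEGM) : Stmt_CONEROT := by
  intro η η1 C G X S _ _ _ d u L Y hG hP hC hL
  obtain ⟨-, hadj, -⟩ := h2 X S d u Y hP.gm hP.one_le hP.ne
  refine { hP.ps with
    isom := h1 G X S d u Y hG.isom hG.Ysmul
    ap_smul := ?_
    c_smul := ?_
    free := ?_
    nbr := ?_
    rot := ?_
    one_le := ?_
    big := ?_ }
  · rintro g _ ⟨s, rfl⟩
    exact ⟨g • s, rfl⟩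
  · rintro g _ ⟨s, rfl⟩ y y' hy hy'
    obtain ⟨v, rfl, -⟩ := CONEROT.nb hadj hy
    obtain ⟨v', rfl, -⟩ := CONEROT.nb hadj hy'
    exact hG.isom g v v'
  · intro g v hv hgv
    rcases v with x | s
    · exact hG.free g x (Sum.inl_injective hgv)
    · exact absurd ⟨s, rfl⟩ hv
  · rintro _ ⟨s, rfl⟩
    obtain ⟨y, hy⟩ := hP.ne s
    exact ⟨Sum.inl y, (hadj _ _).mpr hy⟩
  · rintro _ ⟨s, rfl⟩ r hr hr1 y hy
    obtain ⟨v, rfl, hv⟩ := CONEROT.nb hadj hy
    exact hG.rot s r (Sum.inr_injective hr) hr1 v hv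
  · exact Nat.mul_pos hC hP.one_le
  · rw [← Nat.mul_assoc]
    exact hL

end Pool.Agent.Olsh
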