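import Pool.Agent.Olsh.Proj

/-!
# Isometries: displacement, stable length, minimal sets (T5)
-/

set_option autoImplicit false

open Filter Topology

namespace Pool.Agent.Olsh

variable {V : Type} {d : V → V → ℕ} {δ : ℕ} {G : Type} [Group G] [MulAction G V]

/-- `G` acts by isometries. -/
def IsomAct (G : Type) {V : Type} [Group G] [MulAction G V] (d : V → V → ℕ) : Prop :=
  ∀ (g : G) (x y : V), d (g • x) (g • y) = d x y

/-- The minimal displacement `|g|`. -/
noncomputable def disp (d : V → V → ℕ) (g : G) : ℕ := sInf (Set.range fun v : V => d v (g • v))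

/-- The set of points of minimal displacement. -/
def Mn (d : V → V → ℕ) (g : G) : Set V := {z | d z (g • z) = disp d g}

/-- The stable length `||g||`. -/
noncomputable def slen (d : V → V → ℕ) (g : G) : ℝ :=
  sInf {r : ℝ | ∃ (v : V) (n : ℕ), 1 ≤ n ∧ r = (d v (g ^ n • v) : ℝ) / n}

theorem disp_le (g : G) (v : V) : disp d g ≤ d v (g • v) := Nat.sInf_le ⟨v, rfl⟩

theorem Mn_nonempty [Nonempty V] (g : G) : (Mn d g).Nonempty := by
  have h : (Set.range fun v : V => d v (g • v)).Nonempty := Set.range_nonempty _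
  obtain ⟨v, hv⟩ := Nat.sInf_mem h
  exact ⟨v, hv⟩

namespace IsomAct

theorem inv (hG : IsomAct G d) (g : G) (x y : V) : d (g⁻¹ • x) y = d x (g • y) := by
  rw [← hG g (g⁻¹ • x) y, smul_inv_smul]

theorem conj (hG : IsomAct G d) (g h : G) (x : V) :
    d (h • x) ((h * g * h⁻¹) • (h • x)) = d x (g • x) := by
  rw [smul_smul, inv_mul_cancel_right, mul_smul, hG]

theorem disp_conj (hG : IsomAct G d) (g h : G) : disp d (h * g * h⁻¹) = disp d g := by
  unfold disp
  congr 1
  ext n
  constructor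
  · rintro ⟨v, rfl⟩
    refine ⟨h⁻¹ • v, ?_⟩
    have := hG.conj g h (h⁻¹ • v)
    rw [smul_inv_smul] at this
    exact this.symm
  · rintro ⟨v, rfl⟩
    exact ⟨h • v, hG.conj g h v⟩

theorem disp_inv (hG : IsomAct G d) (hd : IsGM d) (g : G) : disp d g⁻¹ = disp d g := by
  unfold disp
  congr 1
  ext n
  have key : ∀ v : V, d v (g⁻¹ • v) = d v (g • v) := by
    intro v
    rw [hd.comm, hG.inv]
  constructor
  · rintro ⟨v, rfl⟩
    exact ⟨v, (key v).symm⟩
  · rintro ⟨v, rfl⟩
    exact ⟨v, key v⟩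

theorem smul_mem_Mn (hG : IsomAct G d) (g h : G) (z : V) :
    h • z ∈ Mn d (h * g * h⁻¹) ↔ z ∈ Mn d g := by
  show d (h • z) ((h * g * h⁻¹) • (h • z)) = disp d (h * g * h⁻¹) ↔ d z (g • z) = disp d g
  rw [hG.conj, hG.disp_conj]

/-- The centraliser preserves the minimal set. -/
theorem smul_mem_Mn_of_commute (hG : IsomAct G d) {g h : G} (hc : Commute h g) (z : V) :
    h • z ∈ Mn d g ↔ z ∈ Mn d g := by
  have : h * g * h⁻¹ = g := by rw [hc.eq, mul_inv_cancel_right]
  conv_lhs => rw [← this]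
  exact hG.smul_mem_Mn g h z

/-- Points between `v` and `g v` have minimal displacement if `v` has. -/
theorem mem_Mn_of_bt (hG : IsomAct G d) (hd : IsGM d) {g : G} {v z : V} (hv : v ∈ Mn d g)
    (hz : Bt d v z (g • v)) : z ∈ Mn d g := by
  have h1 : d v (g • v) = disp d g := hv
  have h2 := disp_le (d := d) g z
  have h3 := hd.tri z (g • v) (g • z)
  have h4 := hG g v z
  have h5 : d z (g • z) = disp d g := by
    unfold Bt at hz
    omega
  exact h5

/-- Displacement of a power. -/
theorem pow_le (hG : IsomAct G d) (hd : IsGM d) (g : G) (v : V) (n : ℕ) :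
    d v (g ^ n • v) ≤ n * d v (g • v) := by
  induction n with
  | zero =>
    rw [pow_zero, one_smul, hd.self]
    omega
  | succ n ih =>
    have h1 := hd.tri v (g ^ n • v) (g ^ (n + 1) • v)
    have h2 : d (g ^ n • v) (g ^ (n + 1) • v) = d v (g • v) := by
      rw [pow_succ, mul_smul, hG]
    have h3 : (n + 1) * d v (g • v) = n * d v (g • v) + d v (g • v) := by ring
    omega

theorem dist_pow_add (hG : IsomAct G d) (hd : IsGM d) (g : G) (v : V) (m n : ℕ) :
    d v (g ^ (m + n) • v) ≤ d v (g ^ m • v) + d v (g ^ n • v) := by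
  have h1 := hd.tri v (g ^ m • v) (g ^ (m + n) • v)
  have h2 : d (g ^ m • v) (g ^ (m + n) • v) = d v (g ^ n • v) := by
    rw [pow_add, mul_smul, hG]
  omega

theorem dist_pow_pow (hG : IsomAct G d) (g : G) (v : V) (m n : ℕ) :
    d (g ^ m • v) (g ^ (m + n) • v) = d v (g ^ n • v) := by
  rw [pow_add, mul_smul, hG]

/-- Change of the base point. -/
theorem dist_base (hG : IsomAct G d) (hd : IsGM d) (g : G) (v w : V) :
    d v (g • v) ≤ d w (g • w) + 2 * d v w := by
  have h1 := hd.tri v w (g • v)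
  have h2 := hd.tri w (g • w) (g • v)
  have h3 := hG g w v
  have h4 := hd.comm w v
  omega

/-! ### The stable length -/

theorem slen_bdd (g : G) :
    BddBelow {r : ℝ | ∃ (v : V) (n : ℕ), 1 ≤ n ∧ r = (d v (g ^ n • v) : ℝ) / n} := by
  refine ⟨0, ?_⟩
  rintro r ⟨v, n, -, rfl⟩
  positivity

theorem slen_le (g : G) (v : V) (n : ℕ) (hn : 1 ≤ n) :
    slen d g ≤ (d v (g ^ n • v) : ℝ) / n := csInf_le (slen_bdd g) ⟨v, n, hn, rfl⟩

theorem slen_mul_le (g : G) (v : V) (n : ℕ) : n * slen d g ≤ (d v (g ^ n • v) : ℝ) := by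
  rcases Nat.eq_zero_or_pos n with h | h
  · subst h
    simp
  · have h1 := slen_le (d := d) g v n h
    have h2 : (0 : ℝ) < n := by exact_mod_cast h
    rw [le_div_iff₀ h2] at h1
    linarith

theorem slen_nonneg (g : G) : 0 ≤ slen d g := by
  apply Real.sInf_nonneg
  rintro r ⟨v, n, -, rfl⟩
  positivity

theorem slen_le_disp [Nonempty V] (g : G) : slen d g ≤ disp d g := by
  obtain ⟨v, hv⟩ := Mn_nonempty (d := d) g
  have h1 := slen_mul_le (d := d) g v 1
  have h2 : d v (g • v) = disp d g := hv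
  rw [pow_one, h2] at h1
  simpa using h1

/-- Fekete. -/
theorem tendsto_slen (hG : IsomAct G d) (hd : IsGM d) (g : G) (v : V) :
    Tendsto (fun n : ℕ => (d v (g ^ n • v) : ℝ) / n) atTop (𝓝 (slen d g)) := by
  have hsub : Subadditive (fun n : ℕ => (d v (g ^ n • v) : ℝ)) := by
    intro m n
    have := hG.dist_pow_add hd g v m n
    show (d v (g ^ (m + n) • v) : ℝ) ≤ d v (g ^ m • v) + d v (g ^ n • v)
    exact_mod_cast this
  have hbdd : BddBelow (Set.range fun n : ℕ => (d v (g ^ n • v) : ℝ) / n) := by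
    refine ⟨0, ?_⟩
    rintro _ ⟨n, rfl⟩
    positivity
  have h1 := hsub.tendsto_lim hbdd
  have h2 : hsub.lim = slen d g := by
    apply le_antisymm
    · -- for all `w`, `n` : `lim ≤ d w (g^n w) / n`
      refine le_csInf ⟨(d v (g ^ 1 • v) : ℝ) / (1 : ℕ), v, 1, le_rfl, rfl⟩ ?_
      rintro r ⟨w, n, hn, rfl⟩
      -- the same limit at `w`
      have hsubw : Subadditive (fun n : ℕ => (d w (g ^ n • w) : ℝ)) := by
        intro m n
        have := hG.dist_pow_add hd g w m n
        show (d w (g ^ (m + n) • w) : ℝ) ≤ d w (g ^ m • w) + d w (g ^ n • w)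
        exact_mod_cast this
      have hbddw : BddBelow (Set.range fun n : ℕ => (d w (g ^ n • w) : ℝ) / n) := by
        refine ⟨0, ?_⟩
        rintro _ ⟨n, rfl⟩
        positivity
      have h3 := hsubw.tendsto_lim hbddw
      have h4 : hsubw.lim = hsub.lim := by
        have h5 : Tendsto (fun n : ℕ => (d w (g ^ n • w) : ℝ) / n - (d v (g ^ n • v) : ℝ) / n)
            atTop (𝓝 0) := by
          apply squeeze_zero_norm (a := fun n : ℕ => (2 * (d v w : ℝ)) / n)
          · intro n
            rw [← sub_div, norm_div, Real.norm_natCast]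
            refine div_le_div_of_nonneg_right ?_ (Nat.cast_nonneg n)
            have h6 := hG.dist_base hd (g ^ n) v w
            have h7 := hG.dist_base hd (g ^ n) w v
            rw [hd.comm w v] at h7
            have h6' : (d v (g ^ n • v) : ℝ) ≤ d w (g ^ n • w) + 2 * d v w := by exact_mod_cast h6
            have h7' : (d w (g ^ n • w) : ℝ) ≤ d v (g ^ n • v) + 2 * d v w := by exact_mod_cast h7
            rw [Real.norm_eq_abs, abs_le]
            constructor <;> linarith
          · exact tendsto_const_div_atTop_nhds_zero_nat _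
        have h8 := h3.sub h1
        have h9 := tendsto_nhds_unique h8 h5
        linarith
      rw [← h4]
      exact hsubw.lim_le_div hbddw (by omega)
    · apply le_of_tendsto_of_tendsto tendsto_const_nhds h1
      filter_upwards [eventually_ge_atTop 1] with n hn
      exact slen_le g v n hn
  rw [← h2]
  exact h1

theorem slen_pow (hG : IsomAct G d) (hd : IsGM d) [Nonempty V] (g : G) (m : ℕ) :
    slen d (g ^ m) = m * slen d g := by
  obtain ⟨v⟩ := ‹Nonempty V›
  rcases Nat.eq_zero_or_pos m with h | h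
  · subst h
    have h1 := hG.tendsto_slen hd (g ^ 0) v
    have h2 : (fun n : ℕ => (d v ((g ^ 0) ^ n • v) : ℝ) / n) = fun _ => 0 := by
      funext n
      rw [pow_zero, one_pow, one_smul, hd.self]
      simp
    rw [h2] at h1
    have := tendsto_nhds_unique h1 tendsto_const_nhds
    rw [this]
    simp
  · have h1 := hG.tendsto_slen hd (g ^ m) v
    have h2 := (hG.tendsto_slen hd g v).comp
      (tendsto_id.const_mul_atTop' h : Tendsto (fun n : ℕ => m * n) atTop atTop)
    have h3 := h2.const_mul (m : ℝ)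
    refine tendsto_nhds_unique h1 (h3.congr' ?_)
    filter_upwards [eventually_ge_atTop 1] with n hn
    have hm0 : (m : ℝ) ≠ 0 := by
      have : (0 : ℝ) < m := by exact_mod_cast h
      exact this.ne'
    have hn0 : (n : ℝ) ≠ 0 := by
      have : (0 : ℝ) < n := by exact_mod_cast hn
      exact this.ne'
    simp only [Function.comp_apply]
    rw [← pow_mul]
    push_cast
    field_simp

theorem slen_conj (hG : IsomAct G d) (g h : G) : slen d (h * g * h⁻¹) = slen d g := by
  unfold slen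
  congr 1
  ext r
  have key : ∀ (v : V) (n : ℕ), d (h • v) ((h * g * h⁻¹) ^ n • (h • v)) = d v (g ^ n • v) := by
    intro v n
    rw [conj_pow, hG.conj]
  constructor
  · rintro ⟨v, n, hn, rfl⟩
    refine ⟨h⁻¹ • v, n, hn, ?_⟩
    have := key (h⁻¹ • v) n
    rw [smul_inv_smul] at this
    rw [this]
  · rintro ⟨v, n, hn, rfl⟩
    exact ⟨h • v, n, hn, by rw [key]⟩

theorem slen_inv (hG : IsomAct G d) (hd : IsGM d) (g : G) : slen d g⁻¹ = slen d g := by
  unfold slen
  congr 1
  ext r
  have key : ∀ (v : V) (n : ℕ), d v (g⁻¹ ^ n • v) = d v (g ^ n • v) := by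
    intro v n
    rw [inv_pow, hd.comm, hG.inv]
  constructor
  · rintro ⟨v, n, hn, rfl⟩
    exact ⟨v, n, hn, by rw [key]⟩
  · rintro ⟨v, n, hn, rfl⟩
    exact ⟨v, n, hn, by rw [key]⟩

/-! ### T5: large displacement -/

/-- T5 (1). -/
theorem gp_of_disp (hG : IsomAct G d) (hh : Hyp d δ) (hd : IsGM d) {g : G} {v : V}
    (hv : v ∈ Mn d g) (hL : 3 * δ + 2 ≤ disp d g) : GpLe d (2 * δ) v (g • v) (g ^ 2 • v) := by
  have h1 : d v (g • v) = disp d g := hv
  obtain ⟨m, hm, hm'⟩ := hd.exists_bt v (g • v) (δ + 1) (by omega)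
  have h2 : Bt d (g • v) (g • m) (g ^ 2 • v) := by
    rw [pow_two, mul_smul]
    have a1 := hG g v m
    have a2 := hG g m (g • v)
    have a3 := hG g v (g • v)
    unfold Bt at *
    omega
  have h3 := disp_le (d := d) g m
  have h4 := hh.dist_bt (w := g ^ 2 • v) hm hd
  have h5 := hh.dist_bt (w := m) h2 hd
  have h6 := hG g v m
  have h7 : d (g • v) (g ^ 2 • v) = d v (g • v) := by
    rw [pow_two, mul_smul]
    exact hG g v (g • v)
  have h8 := hd.comm (g ^ 2 • v) m
  have h9 := hd.comm (g ^ 2 • v) v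
  have h10 := hd.comm (g ^ 2 • v) (g • v)
  unfold GpLe Bt at *
  omega

/-- The orbit of a point of minimal displacement is a chain. -/
theorem isChain_orbit (hG : IsomAct G d) (hh : Hyp d δ) (hd : IsGM d) {g : G} {v : V}
    (hv : v ∈ Mn d g) (hL : 3 * δ + 2 ≤ disp d g) (n : ℕ) :
    IsChain d n (2 * δ) (disp d g) (fun i => g ^ i • v) := by
  constructor
  · intro i h1 _
    have h3 := hG.gp_of_disp hh hd hv hL
    obtain ⟨j, rfl⟩ : ∃ j, i = j + 1 := ⟨i - 1, by omega⟩
    have e1 := hG (g ^ j) v (g • v)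
    have e2 := hG (g ^ j) (g • v) (g ^ 2 • v)
    have e3 := hG (g ^ j) v (g ^ 2 • v)
    have k1 : g ^ j • g • v = g ^ (j + 1) • v := by rw [pow_succ, mul_smul]
    have k2 : g ^ j • g ^ 2 • v = g ^ (j + 1 + 1) • v := by
      rw [smul_smul, ← pow_add]
    rw [k1] at e1 e2
    rw [k2] at e2 e3
    unfold GpLe at *
    show d (g ^ (j + 1 - 1) • v) (g ^ (j + 1) • v) + d (g ^ (j + 1) • v) (g ^ (j + 1 + 1) • v) ≤
      d (g ^ (j + 1 - 1) • v) (g ^ (j + 1 + 1) • v) + 2 * (2 * δ)
    have k3 : j + 1 - 1 = j := by omega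
    rw [k3]
    omega
  · intro i _ _
    show disp d g ≤ d (g ^ i • v) (g ^ (i + 1) • v)
    have := hG.dist_pow_pow g v i 1
    rw [pow_one] at this
    rw [this]
    exact disp_le g v

/-- T5 (2). -/
theorem dist_pow_ge (hG : IsomAct G d) (hh : Hyp d δ) (hd : IsGM d) {g : G} {v : V}
    (hv : v ∈ Mn d g) (hL : 6 * δ + 2 ≤ disp d g) (n : ℕ) :
    n * disp d g ≤ d v (g ^ n • v) + (n - 1) * (6 * δ) := by
  rcases Nat.eq_zero_or_pos n with h0 | h0
  · subst h0
    simp
  have h1 := (hG.isChain_orbit hh hd hv (by omega) n).dist_ge hh hd (by omega) h0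
  have h2 : ∀ i, d (g ^ i • v) (g ^ (i + 1) • v) = disp d g := by
    intro i
    have := hG.dist_pow_pow g v i 1
    rw [pow_one] at this
    rw [this]
    exact hv
  simp only [h2, Finset.sum_const, Finset.card_range, smul_eq_mul, pow_zero, one_smul] at h1
  have e : (n - 1) * (2 * (2 * δ + δ)) = (n - 1) * (6 * δ) := by ring
  omega

/-- T5 (3). -/
theorem disp_le_slen (hG : IsomAct G d) (hh : Hyp d δ) (hd : IsGM d) [Nonempty V] (g : G) :
    (disp d g : ℝ) ≤ slen d g + (6 * δ + 2) := by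
  by_cases hL : 6 * δ + 2 ≤ disp d g
  · obtain ⟨v, hv⟩ := Mn_nonempty (d := d) g
    have h1 := hG.tendsto_slen hd g v
    have h2 : (disp d g : ℝ) - 6 * δ ≤ slen d g := by
      apply le_of_tendsto_of_tendsto tendsto_const_nhds h1
      filter_upwards [eventually_ge_atTop 1] with n hn
      have h3 := hG.dist_pow_ge hh hd hv hL n
      have h4 : (0 : ℝ) < n := by exact_mod_cast hn
      rw [le_div_iff₀ h4]
      have h5 : (n : ℝ) * disp d g ≤ d v (g ^ n • v) + ((n - 1 : ℕ) : ℝ) * (6 * δ) := by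
        exact_mod_cast h3
      have h6 : ((n - 1 : ℕ) : ℝ) ≤ n := by
        exact_mod_cast Nat.sub_le n 1
      have h7 : ((n - 1 : ℕ) : ℝ) * (6 * δ) ≤ n * (6 * δ) :=
        mul_le_mul_of_nonneg_right h6 (by positivity)
      nlinarith
    linarith
  · push Not at hL
    have h1 := slen_nonneg (d := d) g
    have h2 : (disp d g : ℝ) ≤ 6 * δ + 2 := by exact_mod_cast hL.le
    linarith

end IsomAct

end Pool.Agent.Olsh
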