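import Pool.Agent.Olsh.StmtsP

/-!
# OV (5.2): two elements which move two far points by a bounded amount commute
-/

set_option autoImplicit false

namespace Pool.Agent.Olsh

namespace OV

variable {G V : Type} [Group G] [MulAction G V] {d : V → V → ℕ} {δ : ℕ}

/-- A close point stays close, as long as it is far from the ends. -/
theorem close_move (hG : IsomAct G d) (hh : Hyp d δ) (hd : IsGM d) {g : G} {p q z : V} {a c : ℕ}
    (hp : d p (g • p) ≤ a) (hq : d q (g • q) ≤ a) (hz : GpLe d c p z q)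
    (h1 : a + c + 2 * δ < d p z) (h2 : a + c + 2 * δ < d z q) :
    GpLe d (c + 2 * δ) p (g • z) q := by
  unfold GpLe at *
  have e1 : d (g • p) (g • z) = d p z := hG g p z
  have e2 : d (g • z) (g • q) = d z q := hG g z q
  have e3 : d (g • p) (g • q) = d p q := hG g p q
  have t1 := hd.tri (g • p) p (g • z)
  have t2 := hd.tri (g • z) q (g • q)
  have c1 := hd.comm (g • p) p
  have c2 := hd.comm (g • q) (g • z)
  have c3 := hd.comm (g • q) q
  have c4 := hd.comm q (g • z)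
  have k1 := hh (g • p) p (g • q) (g • z)
  have k2 := hh p q (g • q) (g • z)
  omega

/-- Two close points at the same distance from `p` are close to each other. -/
theorem dist_close (hh : Hyp d δ) (hd : IsGM d) {p q z w : V} {c c' : ℕ}
    (hz : GpLe d c p z q) (hw : GpLe d c' p w q) :
    d z w + d p w ≤ d p z + 2 * c' + 2 * δ ∨ d z w + d p z ≤ d p w + 2 * c + 2 * δ := by
  unfold GpLe at *
  have k1 := hh p z q w
  have c1 := hd.comm q w
  omega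

/-- The shift is constant. -/
theorem shift (hG : IsomAct G d) (hh : Hyp d δ) (hd : IsGM d) {g : G} {p q z w : V} {a c c' : ℕ}
    (hp : d p (g • p) ≤ a) (hz : GpLe d c p z q) (hw : GpLe d c' p w q)
    (h1 : a + c + 2 * δ < d p z) (h2 : a + c' + 2 * δ < d p w) :
    d p (g • z) + d p w ≤ d p (g • w) + d p z + 2 * δ := by
  have k0 := dist_close hh hd hz hw
  have e1 : d (g • p) (g • z) = d p z := hG g p z
  have e2 : d (g • p) (g • w) = d p w := hG g p w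
  have e3 : d (g • z) (g • w) = d z w := hG g z w
  have t1 := hd.tri (g • p) p (g • z)
  have c1 := hd.comm (g • p) p
  have k1 := hh p (g • p) (g • z) (g • w)
  omega

/-- The element `γ` shifts close points far from the ends by about `s`. -/
def Good (d : V → V → ℕ) (p q : V) (δ m : ℕ) (γ : G) (s : ℤ) : Prop :=
  ∀ c : ℕ, c ≤ 10 * δ → ∀ z : V, GpLe d c p z q → m + 12 * δ < d p z →
    d p z + m + 12 * δ < d p q → GpLe d (c + 2 * δ) p (γ • z) q ∧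
      (d p (γ • z) : ℤ) ≤ d p z + s + 2 * δ ∧ (d p z : ℤ) + s ≤ d p (γ • z) + 2 * δ

theorem exists_good (hG : IsomAct G d) (hh : Hyp d δ) (hd : IsGM d) {γ : G} {p q : V} {a m : ℕ}
    (ham : a ≤ m) (hp : d p (γ • p) ≤ a) (hq : d q (γ • q) ≤ a)
    (hn : 2 * m + 24 * δ + 4 ≤ d p q) :
    ∃ s : ℤ, -a ≤ s ∧ s ≤ a ∧ Good d p q δ m γ s := by
  obtain ⟨z0, hz0, hz1⟩ := hd.exists_bt p q (d p q / 2) (by omega)
  have hz0' : GpLe d 0 p z0 q := (gpLe_zero_iff hd).mpr hz0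
  refine ⟨(d p (γ • z0) : ℤ) - d p z0, ?_, ?_, ?_⟩
  · have e1 : d (γ • p) (γ • z0) = d p z0 := hG γ p z0
    have t1 := hd.tri (γ • p) p (γ • z0)
    have c1 := hd.comm (γ • p) p
    omega
  · have e1 : d (γ • p) (γ • z0) = d p z0 := hG γ p z0
    have t1 := hd.tri p (γ • p) (γ • z0)
    omega
  · intro c hc z hz h1 h2
    have t1 := hd.tri p z q
    refine ⟨close_move hG hh hd hp hq hz (by omega) (by omega), ?_, ?_⟩
    · have := shift hG hh hd hp hz hz0' (by omega) (by omega)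
      omega
    · have := shift hG hh hd hp hz0' hz (by omega) (by omega)
      omega

theorem good_inv (hd : IsGM d) {γ : G} {p q : V} {m : ℕ} {s s' : ℤ}
    (h : Good d p q δ m γ s) (h' : Good d p q δ m γ⁻¹ s') (h1 : -m ≤ s') (h2 : s' ≤ m)
    (hn : 4 * m + 40 * δ + 4 ≤ d p q) : -(4 * δ) ≤ s + s' ∧ s + s' ≤ 4 * δ := by
  obtain ⟨z0, hz0, hz1⟩ := hd.exists_bt p q (d p q / 2) (by omega)
  have hz0' : GpLe d 0 p z0 q := (gpLe_zero_iff hd).mpr hz0
  obtain ⟨a1, a2, a3⟩ := h' 0 (Nat.zero_le _) z0 hz0' (by omega) (by omega)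
  obtain ⟨b1, b2, b3⟩ := h (0 + 2 * δ) (by omega) (γ⁻¹ • z0) a1 (by omega) (by omega)
  rw [smul_inv_smul] at b2 b3
  omega

/-- Displacement of the commutator. -/
theorem comm_disp (hh : Hyp d δ) (hd : IsGM d) {g h : G} {p q z : V} {m c : ℕ}
    {sg sg' sh sh' : ℤ} (hg : Good d p q δ m g sg) (hg' : Good d p q δ m g⁻¹ sg')
    (hh1 : Good d p q δ m h sh) (hh1' : Good d p q δ m h⁻¹ sh')
    (i1 : -(4 * δ) ≤ sg + sg') (i2 : sg + sg' ≤ 4 * δ)
    (i3 : -(4 * δ) ≤ sh + sh') (i4 : sh + sh' ≤ 4 * δ)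
    (hc : c ≤ 2 * δ) (hz : GpLe d c p z q)
    (x0 : (m : ℤ) + 26 * δ < d p z) (y0 : (d p z : ℤ) + m + 26 * δ < d p q)
    (x1 : (m : ℤ) + 26 * δ < d p z - sh) (y1 : (d p z : ℤ) - sh + m + 26 * δ < d p q)
    (x2 : (m : ℤ) + 26 * δ < d p z - sh - sg) (y2 : (d p z : ℤ) - sh - sg + m + 26 * δ < d p q)
    (x3 : (m : ℤ) + 26 * δ < d p z - sg) (y3 : (d p z : ℤ) - sg + m + 26 * δ < d p q) :
    d z ((g * h * g⁻¹ * h⁻¹) • z) ≤ 38 * δ := by
  obtain ⟨a1, a2, a3⟩ := hh1' c (by omega) z hz (by omega) (by omega)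
  obtain ⟨b1, b2, b3⟩ := hg' (c + 2 * δ) (by omega) (h⁻¹ • z) a1 (by omega) (by omega)
  obtain ⟨c1, c2, c3⟩ := hh1 (c + 2 * δ + 2 * δ) (by omega) (g⁻¹ • h⁻¹ • z) b1 (by omega)
    (by omega)
  obtain ⟨d1, d2, d3⟩ := hg (c + 2 * δ + 2 * δ + 2 * δ) (by omega) (h • g⁻¹ • h⁻¹ • z) c1
    (by omega) (by omega)
  have e : (g * h * g⁻¹ * h⁻¹) • z = g • h • g⁻¹ • h⁻¹ • z := by
    rw [mul_smul, mul_smul, mul_smul]
  rw [e]
  rcases dist_close hh hd hz d1 with k | k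
  · omega
  · omega

/-- Displacement of a conjugate of the commutator. -/
theorem conj_disp (hG : IsomAct G d) (hh : Hyp d δ) (hd : IsGM d) {g h k : G} {p q z : V} {m : ℕ}
    {sg sg' sh sh' sk sk' : ℤ} (hg : Good d p q δ m g sg) (hg' : Good d p q δ m g⁻¹ sg')
    (hh1 : Good d p q δ m h sh) (hh1' : Good d p q δ m h⁻¹ sh')
    (hk' : Good d p q δ m k⁻¹ sk')
    (i1 : -(4 * δ) ≤ sg + sg') (i2 : sg + sg' ≤ 4 * δ)
    (i3 : -(4 * δ) ≤ sh + sh') (i4 : sh + sh' ≤ 4 * δ)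
    (i5 : -(4 * δ) ≤ sk + sk') (i6 : sk + sk' ≤ 4 * δ)
    (hz : GpLe d 0 p z q)
    (w0 : (m : ℤ) + 12 * δ < d p z) (w1 : (d p z : ℤ) + m + 12 * δ < d p q)
    (x0 : (m : ℤ) + 32 * δ < d p z - sk) (y0 : (d p z : ℤ) - sk + m + 32 * δ < d p q)
    (x1 : (m : ℤ) + 32 * δ < d p z - sk - sh) (y1 : (d p z : ℤ) - sk - sh + m + 32 * δ < d p q)
    (x2 : (m : ℤ) + 32 * δ < d p z - sk - sh - sg)
    (y2 : (d p z : ℤ) - sk - sh - sg + m + 32 * δ < d p q)
    (x3 : (m : ℤ) + 32 * δ < d p z - sk - sg) (y3 : (d p z : ℤ) - sk - sg + m + 32 * δ < d p q) :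
    d z ((k * (g * h * g⁻¹ * h⁻¹) * k⁻¹) • z) ≤ 38 * δ := by
  obtain ⟨a1, a2, a3⟩ := hk' 0 (Nat.zero_le _) z hz (by omega) (by omega)
  have e := hG.conj (g * h * g⁻¹ * h⁻¹) k (k⁻¹ • z)
  rw [smul_inv_smul] at e
  rw [e]
  exact comm_disp hh hd hg hg' hh1 hh1' i1 i2 i3 i4 (by omega) a1 (by omega) (by omega)
    (by omega) (by omega) (by omega) (by omega) (by omega) (by omega)

/-- Two points at distance `L0` which are moved little by the commutator and its conjugate. -/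
theorem two_points (hG : IsomAct G d) (hh : Hyp d δ) (hd : IsGM d) {g h k : G} {p q : V}
    {m al be L0 : ℕ} {sg sg' sh sh' sk sk' : ℤ} (hg : Good d p q δ m g sg)
    (hg' : Good d p q δ m g⁻¹ sg') (hh1 : Good d p q δ m h sh) (hh1' : Good d p q δ m h⁻¹ sh')
    (hk' : Good d p q δ m k⁻¹ sk')
    (i1 : -(4 * δ) ≤ sg + sg') (i2 : sg + sg' ≤ 4 * δ)
    (i3 : -(4 * δ) ≤ sh + sh') (i4 : sh + sh' ≤ 4 * δ)
    (i5 : -(4 * δ) ≤ sk + sk') (i6 : sk + sk' ≤ 4 * δ)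
    (j1 : -al ≤ sg) (j2 : sg ≤ al) (j3 : -be ≤ sh) (j4 : sh ≤ be) (j5 : -m ≤ sk) (j6 : sk ≤ m)
    (hm : m ≤ al + be) (hn : 4 * (al + be) + 2 * L0 + (64 * δ + 10) ≤ d p q) :
    ∃ P Q : V, L0 ≤ d P Q ∧ d P ((g * h * g⁻¹ * h⁻¹) • P) ≤ 38 * δ ∧
      d Q ((g * h * g⁻¹ * h⁻¹) • Q) ≤ 38 * δ ∧
      d P ((k * (g * h * g⁻¹ * h⁻¹) * k⁻¹) • P) ≤ 38 * δ ∧
      d Q ((k * (g * h * g⁻¹ * h⁻¹) * k⁻¹) • Q) ≤ 38 * δ := by
  have ex : ∀ (s : ℤ) (b : ℕ), -b ≤ s → s ≤ b → ∃ M N : ℕ, s ≤ M ∧ -N ≤ s ∧ M + N ≤ b := by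
    intro s b h1 h2
    rcases le_total 0 s with hs | hs
    · exact ⟨s.toNat, 0, by omega, by omega, by omega⟩
    · exact ⟨0, (-s).toNat, by omega, by omega, by omega⟩
  obtain ⟨M1, N1, a1, a2, a3⟩ := ex sg al j1 j2
  obtain ⟨M2, N2, b1, b2, b3⟩ := ex sh be j3 j4
  obtain ⟨M3, N3, c1, c2, c3⟩ := ex sk m j5 j6
  obtain ⟨r, r0, rn, hr⟩ := hd.exists_geo p q
  -- all admissible positions
  have key : ∀ x : ℕ, m + 32 * δ + M1 + M2 + M3 < x →
      x + m + 32 * δ + N1 + N2 + N3 < d p q →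
      d (r x) ((g * h * g⁻¹ * h⁻¹) • r x) ≤ 38 * δ ∧
      d (r x) ((k * (g * h * g⁻¹ * h⁻¹) * k⁻¹) • r x) ≤ 38 * δ := by
    intro x h1 h2
    have e1 : d p (r x) = x := by
      have := hr 0 x (Nat.zero_le _) (by omega)
      rw [r0] at this
      omega
    have e2 : d (r x) q = d p q - x := by
      have := hr x (d p q) (by omega) le_rfl
      rw [rn] at this
      omega
    have hz : GpLe d 0 p (r x) q := by
      unfold GpLe
      omega
    constructor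
    · exact comm_disp hh hd hg hg' hh1 hh1' i1 i2 i3 i4 (Nat.zero_le _) hz (by omega) (by omega)
        (by omega) (by omega) (by omega) (by omega) (by omega) (by omega)
    · exact conj_disp hG hh hd hg hg' hh1 hh1' hk' i1 i2 i3 i4 i5 i6 hz (by omega) (by omega)
        (by omega) (by omega) (by omega) (by omega) (by omega) (by omega) (by omega) (by omega)
  obtain ⟨k1, k2⟩ := key (m + 32 * δ + M1 + M2 + M3 + 1) (by omega) (by omega)
  obtain ⟨k3, k4⟩ := key (m + 32 * δ + M1 + M2 + M3 + 1 + L0) (by omega) (by omega)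
  refine ⟨_, _, ?_, k1, k3, k2, k4⟩
  rw [hr _ _ (Nat.le_add_right _ L0) (by omega)]
  omega

end OV

open OV in
/-- 5.2 (OV): two elements which move two far points by a bounded amount commute. -/
theorem OVmain (hM : Stmt_MALN) : Stmt_OV := by
  refine ⟨38 * dl, 64 * dl + 10, ?_⟩
  intro G X _ _ d a0 L0 CP M0 hL hA g h p q al be hgp hgq hhp hhq hn
  have hd := hL.gm
  have hh := hL.hyp
  have hG := hL.isom
  obtain ⟨m, hm1, hm2, hm3⟩ : ∃ m : ℕ, al ≤ m ∧ be ≤ m ∧ m ≤ al + be :=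
    ⟨max al be, le_max_left _ _, le_max_right _ _, by omega⟩
  have inv : ∀ (γ : G) (v : X) (a : ℕ), d v (γ • v) ≤ a → d v (γ⁻¹ • v) ≤ a := by
    intro γ v a ha
    have h1 := hG.inv γ v v
    have h2 := hd.comm (γ⁻¹ • v) v
    omega
  obtain ⟨sg, g1, g2, g3⟩ := exists_good hG hh hd hm1 hgp hgq (by omega)
  obtain ⟨sg', g1', g2', g3'⟩ := exists_good hG hh hd hm1 (inv g p al hgp) (inv g q al hgq)
    (by omega)
  obtain ⟨sh, h1, h2, h3⟩ := exists_good hG hh hd hm2 hhp hhq (by omega)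
  obtain ⟨sh', h1', h2', h3'⟩ := exists_good hG hh hd hm2 (inv h p be hhp) (inv h q be hhq)
    (by omega)
  obtain ⟨i1, i2⟩ := good_inv hd g3 g3' (by omega) (by omega) (by omega)
  obtain ⟨i3, i4⟩ := good_inv hd h3 h3' (by omega) (by omega) (by omega)
  obtain ⟨P, Q, p1, p2, p3, p4, p5⟩ := two_points hG hh hd g3 g3' h3 h3' g3' i1 i2 i3 i4 i1 i2
    g1 g2 h1 h2 (by omega) (by omega) hm3 hn
  obtain ⟨P', Q', q1, q2, q3, q4, q5⟩ := two_points hG hh hd g3 g3' h3 h3' h3' i1 i2 i3 i4 i3 i4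
    g1 g2 h1 h2 (by omega) (by omega) hm3 hn
  set u : G := g * h * g⁻¹ * h⁻¹ with hu
  have w1 := hL.wa u (g * u * g⁻¹) P Q (p2.trans hA) (p3.trans hA) (p4.trans hA) (p5.trans hA) p1
  have w2 := hL.wa u (h * u * h⁻¹) P' Q' (q2.trans hA) (q3.trans hA) (q4.trans hA) (q5.trans hA)
    q1
  have hM2 := (hM G X d a0 L0 CP M0 hL).2
  by_cases hu1 : u = 1
  · have e : g * h * g⁻¹ * h⁻¹ = 1 := by rw [← hu, hu1]
    have e2 : g * h = (g * h * g⁻¹ * h⁻¹) * (h * g) := by group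
    rw [e2, e, one_mul]
  · have v1 := hM2 u g hu1 w1
    have v2 := hM2 u h hu1 w2
    exact hL.csa g u h hu1 v1.symm v2

end Pool.Agent.Olsh
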