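import Pool.Agent.Olsh.Basic

/-!
# Local to global for chains with small Gromov products
-/

set_option autoImplicit false

namespace Pool.Agent.Olsh

variable {V : Type} {d : V → V → ℕ} {δ : ℕ}

/-- The Gromov product `(x|z)_y` is at most `a`. -/
def GpLe (d : V → V → ℕ) (a : ℕ) (x y z : V) : Prop := d x y + d y z ≤ d x z + 2 * a

theorem GpLe.mono {a b : ℕ} {x y z : V} (h : GpLe d a x y z) (hab : a ≤ b) : GpLe d b x y z := by
  unfold GpLe at *
  omega

theorem GpLe.symm {a : ℕ} (hd : IsGM d) {x y z : V} (h : GpLe d a x y z) : GpLe d a z y x := by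
  unfold GpLe at *
  have h1 := hd.comm x y
  have h2 := hd.comm y z
  have h3 := hd.comm x z
  omega

theorem gpLe_zero_iff (hd : IsGM d) {x y z : V} : GpLe d 0 x y z ↔ Bt d x y z := by
  unfold GpLe Bt
  have := hd.tri x y z
  omega

/-- A chain `x 0, ..., x n` whose Gromov products are at most `a` and whose interior edges have
length at least `b`. -/
structure IsChain (d : V → V → ℕ) (n a b : ℕ) (x : ℕ → V) : Prop where
  gp : ∀ i, 1 ≤ i → i < n → GpLe d a (x (i - 1)) (x i) (x (i + 1))
  len : ∀ i, 1 ≤ i → i + 1 < n → b ≤ d (x i) (x (i + 1))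

theorem IsChain.mono {n a b m a' b' : ℕ} {x : ℕ → V} (h : IsChain d n a b x) (hm : m ≤ n)
    (ha : a ≤ a') (hb : b' ≤ b) : IsChain d m a' b' x :=
  ⟨fun i h1 h2 => (h.gp i h1 (by omega)).mono ha, fun i h1 h2 => by
    have := h.len i h1 (by omega)
    omega⟩

theorem IsChain.shift {n a b m s : ℕ} {x : ℕ → V} (h : IsChain d n a b x) (hs : s + m ≤ n) :
    IsChain d m a b (fun i => x (s + i)) := by
  constructor
  · intro i h1 h2
    have := h.gp (s + i) (by omega) (by omega)
    have e : s + i - 1 = s + (i - 1) := by omega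
    rw [e] at this
    exact this
  · intro i h1 h2
    exact h.len (s + i) (by omega) (by omega)

theorem IsChain.reverse {n a b : ℕ} {x : ℕ → V} (hd : IsGM d) (h : IsChain d n a b x) :
    IsChain d n a b (fun i => x (n - i)) := by
  constructor
  · intro i h1 h2
    have := (h.gp (n - i) (by omega) (by omega)).symm hd
    have e : n - i + 1 = n - (i - 1) := by omega
    have e' : n - i - 1 = n - (i + 1) := by omega
    rw [e, e'] at this
    exact this
  · intro i h1 h2
    have := h.len (n - (i + 1)) (by omega) (by omega)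
    have e : n - (i + 1) + 1 = n - i := by omega
    rw [e, hd.comm] at this
    exact this

/-- CHAIN (1). -/
theorem IsChain.step (hh : Hyp d δ) (hd : IsGM d) {n a b : ℕ} {x : ℕ → V}
    (h : IsChain d n a b x) (hb : 2 * a + 2 * δ + 1 ≤ b) :
    ∀ k, 1 ≤ k → k < n → GpLe d (a + δ) (x 0) (x k) (x (k + 1)) := by
  intro k hk
  induction k, hk using Nat.le_induction with
  | base =>
    intro h1
    exact (h.gp 1 le_rfl h1).mono (by omega)
  | succ k hk ih =>
    intro h1
    have h2 := ih (by omega)
    have h3 := h.gp (k + 1) (by omega) h1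
    have h4 := h.len k hk (by omega)
    have e : k + 1 - 1 = k := by omega
    rw [e] at h3
    have h5 := hh (x (k + 1)) (x k) (x 0) (x (k + 1 + 1))
    have h6 := hh (x (k + 1)) (x k) (x (k + 1 + 1)) (x 0)
    have c1 := hd.comm (x (k + 1)) (x k)
    have c2 := hd.comm (x (k + 1)) (x 0)
    have c3 := hd.comm (x k) (x 0)
    have c4 := hd.comm (x (k + 1 + 1)) (x 0)
    have c5 := hd.comm (x (k + 1 + 1)) (x k)
    unfold GpLe at *
    omega

/-- CHAIN (2): the distance of the end points. -/
theorem IsChain.dist_ge (hh : Hyp d δ) (hd : IsGM d) {n a b : ℕ} {x : ℕ → V}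
    (h : IsChain d n a b x) (hb : 2 * a + 2 * δ + 1 ≤ b) (hn : 1 ≤ n) :
    (∑ i ∈ Finset.range n, d (x i) (x (i + 1))) ≤ d (x 0) (x n) + (n - 1) * (2 * (a + δ)) := by
  have key : ∀ k, 1 ≤ k → k ≤ n → (∑ i ∈ Finset.range k, d (x i) (x (i + 1))) ≤
      d (x 0) (x k) + (k - 1) * (2 * (a + δ)) := by
    intro k hk
    induction k, hk using Nat.le_induction with
    | base => intro _; simp
    | succ k hk ih =>
      intro h1
      have h2 := ih (by omega)
      have h3 := h.step hh hd hb k hk (by omega)
      rw [Finset.sum_range_succ]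
      have e : (k + 1 - 1) * (2 * (a + δ)) = (k - 1) * (2 * (a + δ)) + 2 * (a + δ) := by
        have : k + 1 - 1 = (k - 1) + 1 := by omega
        rw [this]
        ring
      unfold GpLe at h3
      omega
  exact key n hn le_rfl

/-- CHAIN (3): linear growth. -/
theorem IsChain.dist_ge' (hh : Hyp d δ) (hd : IsGM d) {n a b : ℕ} {x : ℕ → V}
    (h : IsChain d n a b x) (hb : 2 * a + 2 * δ + 1 ≤ b) (hn : 1 ≤ n) :
    d (x 0) (x 1) + d (x (n - 1)) (x n) + (n - 2) * b ≤
      d (x 0) (x n) + d (x 0) (x 1) * (if n = 1 then 1 else 0) + (n - 1) * (2 * (a + δ)) := by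
  have h1 := h.dist_ge hh hd hb hn
  rcases Nat.lt_or_ge n 2 with h2 | h2
  · have : n = 1 := by omega
    subst this
    simp
  · have hif : (if n = 1 then 1 else 0) = 0 := if_neg (by omega)
    rw [hif, Nat.mul_zero, Nat.add_zero]
    have key : ∀ k, 2 ≤ k → k ≤ n → d (x 0) (x 1) + d (x (k - 1)) (x k) + (k - 2) * b ≤
        ∑ i ∈ Finset.range k, d (x i) (x (i + 1)) := by
      intro k hk
      induction k, hk using Nat.le_induction with
      | base => intro _; simp [Finset.sum_range_succ]
      | succ k hk ih =>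
        intro h3
        have h4 := ih (by omega)
        rw [Finset.sum_range_succ]
        have h5 := h.len (k - 1) (by omega) (by omega)
        have e : k - 1 + 1 = k := by omega
        have e2 : k + 1 - 1 = k := by omega
        have e3 : (k + 1 - 2) * b = (k - 2) * b + b := by
          have : k + 1 - 2 = (k - 2) + 1 := by omega
          rw [this]
          ring
        rw [e] at h5
        rw [e2, e3]
        omega
    have := key n h2 le_rfl
    omega

/-- CHAIN (4): the vertices of the chain are near the geodesic. -/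
theorem IsChain.gp_ends (hh : Hyp d δ) (hd : IsGM d) {n a b : ℕ} {x : ℕ → V}
    (h : IsChain d n a b x) (hb : 2 * a + 3 * δ + 1 ≤ b) :
    ∀ i, i ≤ n → GpLe d (a + 2 * δ) (x 0) (x i) (x n) := by
  intro i hi
  rcases Nat.eq_zero_or_pos i with h0 | h0
  · subst h0
    have := hd.self (x 0)
    unfold GpLe
    omega
  rcases Nat.eq_or_lt_of_le hi with hn | hn
  · subst hn
    have := hd.self (x i)
    unfold GpLe
    omega
  -- the reversed chain
  have h1 : GpLe d (a + δ) (x (i - 1)) (x i) (x n) := by
    have h2 := h.reverse hd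
    have h3 := h2.step hh hd (by omega) (n - i) (by omega) (by omega)
    have e1 : n - (n - i) = i := by omega
    have e2 : n - (n - i + 1) = i - 1 := by omega
    have e3 : n - 0 = n := by omega
    have h4 : GpLe d (a + δ) (x (n - 0)) (x (n - (n - i))) (x (n - (n - i + 1))) := h3
    rw [e1, e2, e3] at h4
    exact h4.symm hd
  rcases Nat.eq_or_lt_of_le h0 with h01 | h01
  · have : i = 1 := by omega
    subst this
    exact h1.mono (by omega)
  · have h2 := h.step hh hd (by omega) (i - 1) (by omega) (by omega)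
    have h3 := h.len (i - 1) (by omega) (by omega)
    have e : i - 1 + 1 = i := by omega
    rw [e] at h2 h3
    have h5 := hh (x i) (x (i - 1)) (x 0) (x n)
    have h6 := hh (x i) (x (i - 1)) (x n) (x 0)
    have c1 := hd.comm (x i) (x (i - 1))
    have c2 := hd.comm (x i) (x 0)
    have c3 := hd.comm (x (i - 1)) (x 0)
    have c4 := hd.comm (x n) (x 0)
    have c5 := hd.comm (x n) (x (i - 1))
    have c6 := hd.comm (x n) (x i)
    unfold GpLe at *
    omega

/-- A point with small Gromov product is near every geodesic. -/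
theorem Hyp.near_of_gp (hh : Hyp d δ) (hd : IsGM d) {x y z : V} {a : ℕ} (h : GpLe d a x y z) :
    ∃ q, Bt d x q z ∧ d y q ≤ a + 2 * δ + 1 := by
  obtain ⟨k, hk1, hk2⟩ : ∃ k, k ≤ d x z ∧ (2 * k + d y z = d x z + d x y ∨
      2 * k + d y z + 1 = d x z + d x y) := by
    have h1 := hd.tri x z y
    have h2 := hd.comm y z
    have h3 := hd.tri y x z
    have h4 := hd.comm x y
    exact ⟨(d x z + d x y - d y z) / 2, by omega, by omega⟩
  obtain ⟨q, hq, hq'⟩ := hd.exists_bt x z k hk1
  refine ⟨q, hq, ?_⟩
  have h1 := hh.dist_bt (w := y) hq hd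
  have h2 := hd.comm x y
  unfold GpLe at h
  unfold Bt at hq
  omega

end Pool.Agent.Olsh
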