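import Pool.Agent.Olsh.Basic

/-!
# Stability of quasi-geodesics
-/

set_option autoImplicit false

namespace Pool.Agent.Olsh

variable {V : Type} {d : V → V → ℕ} {δ : ℕ}

/-- Exponentials beat linear functions. -/
theorem exists_lt_two_pow (a b : ℕ) : ∃ s0 : ℕ, ∀ s, s0 ≤ s → a * s + b < 2 ^ s := by
  refine ⟨3 * (a + b + 2), fun s hs => ?_⟩
  induction s, hs using Nat.le_induction with
  | base =>
    set m := a + b + 2 with hm
    have h1 : m + 1 ≤ 2 ^ m := Nat.lt_two_pow_self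
    have h2 : 2 ^ (3 * m) = 2 ^ m * 2 ^ m * 2 ^ m := by ring
    have h3 : (m + 1) * (m + 1) * (m + 1) ≤ 2 ^ m * 2 ^ m * 2 ^ m :=
      Nat.mul_le_mul (Nat.mul_le_mul h1 h1) h1
    have h4 : a * (3 * m) ≤ m * (3 * m) := Nat.mul_le_mul_right _ (by omega)
    rw [h2]
    nlinarith
  | succ s hs ih =>
    have h1 : a ≤ 2 ^ s := by
      rcases Nat.eq_zero_or_pos s with h0 | h0
      · omega
      · have : a * 1 ≤ a * s := Nat.mul_le_mul_left _ h0
        omega
    rw [pow_succ, Nat.mul_add]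
    omega

/-- Logarithms are small. -/
theorem exists_log (A B a b : ℕ) : ∃ K : ℕ, ∀ D, K ≤ D → ∃ r, A * D + B ≤ 2 ^ r ∧ a * r + b < D := by
  obtain ⟨t, ht⟩ := exists_lt_two_pow 0 (A + B)
  have ht' := ht t le_rfl
  obtain ⟨s0, hs0⟩ := exists_lt_two_pow a (a * (1 + t) + b)
  refine ⟨2 ^ s0, fun D hD => ?_⟩
  have hD1 : 1 ≤ D := le_trans Nat.one_le_two_pow hD
  have h1 : s0 ≤ Nat.log 2 D := Nat.le_log_of_pow_le (by norm_num) hD
  have h2 : 2 ^ Nat.log 2 D ≤ D := Nat.pow_log_le_self 2 (by omega)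
  have h3 : D < 2 ^ (Nat.log 2 D + 1) := Nat.lt_pow_succ_log_self (by norm_num) D
  set s := Nat.log 2 D with hs
  refine ⟨s + 1 + t, ?_, ?_⟩
  · have h4 : A * D + B ≤ (A + B) * D := by nlinarith
    have h5 : (A + B) * D ≤ 2 ^ t * 2 ^ (s + 1) := Nat.mul_le_mul (by omega) h3.le
    have h6 : 2 ^ (s + 1 + t) = 2 ^ t * 2 ^ (s + 1) := by ring
    omega
  · have h7 := hs0 s h1
    have h8 : a * (s + 1 + t) + b = a * s + (a * (1 + t) + b) := by ring
    omega

/-- A coarse path with steps at most `s` comes logarithmically close to the geodesic. -/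
theorem Slim.log_est (hs : Slim d δ) (hd : IsGM d) (s r : ℕ) :
    ∀ (z : ℕ → V) (a m : ℕ), m ≤ 2 ^ r → (∀ i, a ≤ i → i < a + m → d (z i) (z (i + 1)) ≤ s) →
    ∀ w, Bt d (z a) w (z (a + m)) → ∃ i, a ≤ i ∧ i ≤ a + m ∧ d w (z i) ≤ r * δ + s := by
  induction r with
  | zero =>
    intro z a m hm hz w hw
    refine ⟨a, le_rfl, by omega, ?_⟩
    have h2 := hd.comm (z a) w
    rcases Nat.eq_zero_or_pos m with h0 | h0
    · subst h0
      have h1 := hd.self (z a)
      unfold Bt at hw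
      rw [Nat.add_zero] at hw
      omega
    · have h1 : m = 1 := by omega
      subst h1
      have := hz a le_rfl (by omega)
      unfold Bt at hw
      omega
  | succ r ih =>
    intro z a m hm hz w hw
    obtain ⟨m1, m2, rfl, hm1, hm2⟩ : ∃ m1 m2, m = m1 + m2 ∧ m1 ≤ 2 ^ r ∧ m2 ≤ 2 ^ r := by
      refine ⟨m / 2, m - m / 2, by omega, ?_, ?_⟩ <;> rw [pow_succ] at hm <;> omega
    obtain ⟨w', hw', hdw⟩ := hs _ _ (z (a + m1)) w hw
    have e : (r + 1) * δ = r * δ + δ := by ring
    rcases hw' with hw' | hw'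
    · obtain ⟨i, hi1, hi2, hi3⟩ := ih z a m1 hm1 (fun i h1 h2 => hz i h1 (by omega)) w' hw'
      refine ⟨i, hi1, by omega, ?_⟩
      have := hd.tri w w' (z i)
      omega
    · rw [← Nat.add_assoc] at hw'
      obtain ⟨i, hi1, hi2, hi3⟩ := ih z (a + m1) m2 hm2
        (fun i h1 h2 => hz i (by omega) (by omega)) w' hw'
      refine ⟨i, by omega, by omega, ?_⟩
      have := hd.tri w w' (z i)
      omega

/-- A discrete quasi-geodesic. -/
def IsQG (d : V → V → ℕ) (n l c : ℕ) (q : ℕ → V) : Prop :=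
  ∀ i j, i ≤ j → j ≤ n → d (q i) (q j) ≤ l * (j - i) + c ∧ j - i ≤ l * d (q i) (q j) + c

theorem IsQG.mono {n l c m l' c' : ℕ} {q : ℕ → V} (h : IsQG d n l c q) (hm : m ≤ n) (hl : l ≤ l')
    (hc : c ≤ c') : IsQG d m l' c' q := by
  intro i j hij hj
  obtain ⟨h1, h2⟩ := h i j hij (hj.trans hm)
  have h3 : l * (j - i) ≤ l' * (j - i) := Nat.mul_le_mul_right _ hl
  have h4 : l * d (q i) (q j) ≤ l' * d (q i) (q j) := Nat.mul_le_mul_right _ hl
  omega

/-- MORSE: stability of quasi-geodesics. -/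
theorem morse (δ l c : ℕ) : ∃ K : ℕ, ∀ (V : Type) (d : V → V → ℕ), IsGM d → Hyp d δ →
    ∀ (n : ℕ) (q : ℕ → V), IsQG d n l c q →
      (∀ w, Bt d (q 0) w (q n) → ∃ i, i ≤ n ∧ d w (q i) ≤ K) ∧
      ∀ (m : ℕ) (p : ℕ → V), IsGeo d m p → p 0 = q 0 → p m = q n → ∀ i, i ≤ n →
        ∃ j, j ≤ m ∧ d (q i) (p j) ≤ K := by
  -- the slimness constant is `4 δ`
  obtain ⟨K0, hK0⟩ := exists_log (l * 6) (l * (2 * (8 * δ + 1)) + c) (4 * δ) (8 * δ + l + c)
  refine ⟨K0 + (l * (l * (2 * K0 + 1) + c) + c), ?_⟩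
  intro V d hd hh n q hq
  have hs := hh.slim hd
  have hA : ∀ (m : ℕ) (p : ℕ → V), IsGeo d m p → p 0 = q 0 → p m = q n → ∀ j, j ≤ m →
      ∃ i, i ≤ n ∧ d (p j) (q i) ≤ K0 := by
    intro m p hp hp0 hpm
    classical
    -- the largest distance `D`
    by_contra hcon
    push Not at hcon
    have hex : ∃ D, ∀ j, j ≤ m → ∃ i, i ≤ n ∧ d (p j) (q i) ≤ D := by
      refine ⟨m, fun j hj => ⟨0, Nat.zero_le _, ?_⟩⟩
      have := hp 0 j (Nat.zero_le _) hj
      rw [hp0, hd.comm] at this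
      omega
    let D := Nat.find hex
    have hD : ∀ j, j ≤ m → ∃ i, i ≤ n ∧ d (p j) (q i) ≤ D := Nat.find_spec hex
    have hDK : K0 < D := by
      obtain ⟨j, hj, hj'⟩ := hcon
      obtain ⟨i, hi, hi'⟩ := hD j hj
      have := hj' i hi
      omega
    obtain ⟨j0, hj0, hj0'⟩ : ∃ j0, j0 ≤ m ∧ ∀ i, i ≤ n → D ≤ d (p j0) (q i) := by
      have := Nat.find_min hex (m := D - 1) (by omega)
      push Not at this
      obtain ⟨j0, hj0, hj0'⟩ := this
      exact ⟨j0, hj0, fun i hi => by have := hj0' i hi; omega⟩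
    obtain ⟨r, hr1, hr2⟩ := hK0 D hDK.le
    set T := 2 * D + 8 * δ + 1 with hT
    -- the left end
    obtain ⟨j1, i1, hj1, hj1T, hi1, hd1, hl1⟩ : ∃ j1 i1, j1 ≤ j0 ∧ j0 ≤ j1 + T ∧ i1 ≤ n ∧
        d (p j1) (q i1) ≤ D ∧ (j1 + T = j0 ∨ p j1 = q i1) := by
      by_cases hc : j0 ≤ T
      · exact ⟨0, 0, Nat.zero_le _, by omega, Nat.zero_le _, by rw [hp0, hd.self]; omega,
          Or.inr hp0⟩
      · obtain ⟨i1, h1, h2⟩ := hD (j0 - T) (by omega)
        exact ⟨j0 - T, i1, by omega, by omega, h1, h2, Or.inl (by omega)⟩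
    obtain ⟨j2, i2, hj2, hj2m, hj2T, hi2, hd2, hl2⟩ : ∃ j2 i2, j0 ≤ j2 ∧ j2 ≤ m ∧ j2 ≤ j0 + T ∧
        i2 ≤ n ∧ d (p j2) (q i2) ≤ D ∧ (j0 + T = j2 ∨ p j2 = q i2) := by
      by_cases hc : m ≤ j0 + T
      · exact ⟨m, n, hj0, le_rfl, hc, le_rfl, by rw [hpm, hd.self]; omega, Or.inr hpm⟩
      · obtain ⟨i1, h1, h2⟩ := hD (j0 + T) (by omega)
        exact ⟨j0 + T, i1, by omega, by omega, le_rfl, h1, h2, Or.inl rfl⟩
    -- first triangle
    have hb := hp.bt hj1 hj2 hj2m
    obtain ⟨u, hu, hdu⟩ := hs _ _ (q i2) (p j0) hb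
    have hu' : Bt d (p j1) u (q i2) := by
      rcases hu with hu | hu
      · exact hu
      · -- impossible
        exfalso
        rcases hl2 with h1 | h1
        · have h2 := hp j0 j2 hj2 hj2m
          have h3 := hd.tri (p j0) u (p j2)
          have h4 := hd.comm (p j2) (q i2)
          unfold Bt at hu
          omega
        · have h2 : d (q i2) (p j2) = 0 := by rw [h1, hd.self]
          have h3 : d (q i2) u = 0 := by
            unfold Bt at hu
            omega
          have h4 := hd.eq_of_zero h3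
          have h5 := hj0' i2 hi2
          rw [h4] at h5
          omega
    obtain ⟨v, hv, hdv⟩ := hs _ _ (q i1) u hu'
    have hdv' := hd.tri (p j0) u v
    have hv' : Bt d (q i1) v (q i2) := by
      rcases hv with hv | hv
      · exfalso
        rcases hl1 with h1 | h1
        · have h2 := hp j1 j0 hj1 hj0
          have h3 := hd.tri (p j1) v (p j0)
          have h4 := hd.comm (p j0) v
          unfold Bt at hv
          omega
        · have h2 : d (p j1) (q i1) = 0 := by rw [h1, hd.self]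
          have h3 : d v (q i1) = 0 := by
            unfold Bt at hv
            omega
          have h4 := hd.eq_of_zero h3
          have h5 := hj0' i1 hi1
          rw [← h4] at h5
          omega
      · exact hv
    -- the path `q` between `i1` and `i2`
    have hlen : (i2 - i1) + (i1 - i2) ≤ l * (6 * D) + (l * (2 * (8 * δ + 1)) + c) := by
      have h1 : d (q i1) (q i2) ≤ 2 * T + 2 * D := by
        have h2 := hd.tri (q i1) (p j1) (q i2)
        have h3 := hd.tri (p j1) (p j2) (q i2)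
        have h4 := hp j1 j2 (by omega) hj2m
        have h5 := hd.comm (q i1) (p j1)
        omega
      have h6 : (i2 - i1) + (i1 - i2) ≤ l * d (q i1) (q i2) + c := by
        rcases le_total i1 i2 with h7 | h7
        · have := (hq i1 i2 h7 hi2).2
          omega
        · have := (hq i2 i1 h7 hi1).2
          rw [hd.comm] at this
          omega
      have h8 : l * d (q i1) (q i2) ≤ l * (2 * T + 2 * D) := Nat.mul_le_mul_left _ h1
      have h9 : l * (2 * T + 2 * D) = l * (6 * D) + l * (2 * (8 * δ + 1)) := by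
        rw [hT]
        ring
      omega
    have hlen' : l * (6 * D) = l * 6 * D := by ring
    have hstep : ∀ i, i < n → d (q i) (q (i + 1)) ≤ l + c := by
      intro i hi
      have := (hq i (i + 1) (by omega) (by omega)).1
      have e : i + 1 - i = 1 := by omega
      rw [e] at this
      omega
    obtain ⟨k, hk, hkd⟩ : ∃ k, k ≤ n ∧ d v (q k) ≤ r * (4 * δ) + (l + c) := by
      rcases le_total i1 i2 with h7 | h7
      · obtain ⟨k, h1, h2, h3⟩ := hs.log_est hd (l + c) r q i1 (i2 - i1) (by omega)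
          (fun i _ h2 => hstep i (by omega)) v (by
            have e : i1 + (i2 - i1) = i2 := by omega
            rw [e]
            exact hv')
        exact ⟨k, by omega, h3⟩
      · obtain ⟨k, h1, h2, h3⟩ := hs.log_est hd (l + c) r q i2 (i1 - i2) (by omega)
          (fun i _ h2 => hstep i (by omega)) v (by
            have e : i2 + (i1 - i2) = i1 := by omega
            rw [e]
            exact hd.bt_symm hv')
        exact ⟨k, by omega, h3⟩
    have h10 := hj0' k hk
    have h11 := hd.tri (p j0) v (q k)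
    have h12 : r * (4 * δ) = 4 * δ * r := by ring
    omega
  refine ⟨?_, ?_⟩
  · intro w hw
    obtain ⟨p, hp0, hpn, hp, hpw⟩ := hd.exists_geo_through hw
    have h1 : d (q 0) w ≤ d (q 0) (q n) := by
      unfold Bt at hw
      omega
    obtain ⟨i, hi, hi'⟩ := hA _ p hp hp0 hpn _ h1
    rw [hpw] at hi'
    exact ⟨i, hi, by omega⟩
  · intro m p hp hp0 hpm i hi
    by_cases hn : ∃ k, k ≤ i ∧ d (p m) (q k) ≤ K0
    · obtain ⟨k, hk, hk'⟩ := hn
      refine ⟨m, le_rfl, ?_⟩
      have h1 := (hq k n (by omega) le_rfl).2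
      rw [← hpm] at h1
      have h2 := (hq k i hk hi).1
      have h3 := hd.comm (p m) (q k)
      have h4 : l * d (q k) (p m) ≤ l * (2 * K0 + 1) := Nat.mul_le_mul_left _ (by omega)
      have h5 : l * (i - k) ≤ l * (l * (2 * K0 + 1) + c) := Nat.mul_le_mul_left _ (by omega)
      have h6 := hd.tri (q i) (q k) (p m)
      have h7 := hd.comm (q i) (q k)
      omega
    · obtain ⟨j, hj, ⟨k, hk, hk'⟩, hj2⟩ := exists_switch m
        (fun j => ∃ k, k ≤ i ∧ d (p j) (q k) ≤ K0)
        ⟨0, Nat.zero_le _, by rw [hp0, hd.self]; omega⟩ hn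
      obtain ⟨k2, hk2, hk2'⟩ := hA m p hp hp0 hpm (j + 1) (by omega)
      have hlt : i < k2 := by
        by_contra h
        exact hj2 ⟨k2, by omega, hk2'⟩
      refine ⟨j, by omega, ?_⟩
      have h1 := (hq k k2 (by omega) hk2).2
      have h2 := (hq k i hk hi).1
      have h3 : d (q k) (q k2) ≤ 2 * K0 + 1 := by
        have h4 := hd.tri (q k) (p j) (q k2)
        have h5 := hd.tri (p j) (p (j + 1)) (q k2)
        have h6 := hp j (j + 1) (by omega) (by omega)
        have h7 := hd.comm (p j) (q k)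
        omega
      have h4 : l * d (q k) (q k2) ≤ l * (2 * K0 + 1) := Nat.mul_le_mul_left _ h3
      have h5 : l * (i - k) ≤ l * (l * (2 * K0 + 1) + c) := Nat.mul_le_mul_left _ (by omega)
      have h6 := hd.tri (q i) (q k) (p j)
      have h7 := hd.comm (q i) (q k)
      have h8 := hd.comm (p j) (q k)
      omega

end Pool.Agent.Olsh
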