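import Pool.Agent.Olsh.Chain
import Pool.Agent.Olsh.QG

/-!
# Polygons, quadrilaterals with a shift, projections to quasi-convex sets (T1, T2, T4)
-/

set_option autoImplicit false

namespace Pool.Agent.Olsh

variable {V : Type} {d : V → V → ℕ} {δ : ℕ}

/-- T1: polygons. -/
theorem Slim.ngon (hs : Slim d δ) (hd : IsGM d) (r : ℕ) :
    ∀ (z : ℕ → V) (a m : ℕ), 1 ≤ m → m ≤ 2 ^ r → ∀ w, Bt d (z a) w (z (a + m)) →
      ∃ i, a ≤ i ∧ i < a + m ∧ ∃ w', Bt d (z i) w' (z (i + 1)) ∧ d w w' ≤ r * δ := by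
  induction r with
  | zero =>
    intro z a m h1 hm w hw
    have : m = 1 := by omega
    subst this
    exact ⟨a, le_rfl, by omega, w, hw, by rw [hd.self]; omega⟩
  | succ r ih =>
    intro z a m h1 hm w hw
    rcases Nat.eq_or_lt_of_le h1 with h2 | h2
    · subst h2
      exact ⟨a, le_rfl, by omega, w, hw, by rw [hd.self]; omega⟩
    obtain ⟨m1, m2, rfl, hm1, hm2, hp1, hp2⟩ : ∃ m1 m2, m = m1 + m2 ∧ m1 ≤ 2 ^ r ∧ m2 ≤ 2 ^ r ∧
        1 ≤ m1 ∧ 1 ≤ m2 := by
      refine ⟨m / 2, m - m / 2, by omega, ?_, ?_, by omega, by omega⟩ <;>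
        rw [pow_succ] at hm <;> omega
    obtain ⟨w', hw', hdw⟩ := hs _ _ (z (a + m1)) w hw
    have e : (r + 1) * δ = r * δ + δ := by ring
    rcases hw' with hw' | hw'
    · obtain ⟨i, hi1, hi2, w2, hw2, hi3⟩ := ih z a m1 hp1 hm1 w' hw'
      refine ⟨i, hi1, by omega, w2, hw2, ?_⟩
      have := hd.tri w w' w2
      omega
    · rw [← Nat.add_assoc] at hw'
      obtain ⟨i, hi1, hi2, w2, hw2, hi3⟩ := ih z (a + m1) m2 hp2 hm2 w' hw'
      refine ⟨i, by omega, by omega, w2, hw2, ?_⟩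
      have := hd.tri w w' w2
      omega

/-- T2: quadrilaterals with a shift. -/
theorem Hyp.quad (hh : Hyp d δ) (hd : IsGM d) {x y x' y' z : V} {a b : ℕ} (hx : d x x' ≤ a)
    (hy : d y y' ≤ b) (hz : Bt d x z y) (h1 : a + 8 * δ < d x z) (h2 : b + 8 * δ < d z y) :
    ∃ z', Bt d x' z' y' ∧ d z z' ≤ 8 * δ ∧ d x z ≤ d x' z' + a + 8 * δ ∧
      d x' z' ≤ d x z + a + 8 * δ := by
  have hs := hh.slim hd
  obtain ⟨u, hu, hzu⟩ := hs _ _ x' z hz
  have hu' : Bt d x' u y := by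
    rcases hu with hu | hu
    · exfalso
      have := hd.tri x u z
      have := hd.comm z u
      unfold Bt at hu
      omega
    · exact hu
  obtain ⟨v, hv, huv⟩ := hs _ _ y' u hu'
  have hzv := hd.tri z u v
  have hv' : Bt d x' v y' := by
    rcases hv with hv | hv
    · exact hv
    · exfalso
      have := hd.tri z v y
      have := hd.comm y y'
      unfold Bt at hv
      omega
  refine ⟨v, hv', by omega, ?_, ?_⟩
  · have h3 := hd.tri x x' z
    have h4 := hd.tri x' v z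
    have h5 := hd.comm z v
    omega
  · have h3 := hd.tri x' x v
    have h4 := hd.tri x z v
    have h5 := hd.comm x x'
    omega

/-- A quasi-convex set. -/
def QConv (d : V → V → ℕ) (η : ℕ) (Y : Set V) : Prop :=
  ∀ y ∈ Y, ∀ y' ∈ Y, ∀ z, Bt d y z y' → ∃ y'' ∈ Y, d z y'' ≤ η

/-- `y` is a nearest point of `Y` to `v`. -/
def IsProj (d : V → V → ℕ) (Y : Set V) (v y : V) : Prop := y ∈ Y ∧ ∀ y' ∈ Y, d v y ≤ d v y'

theorem exists_proj {Y : Set V} (hY : Y.Nonempty) (v : V) : ∃ y, IsProj d Y v y := by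
  classical
  have hex : ∃ n, ∃ y ∈ Y, d v y = n := ⟨_, hY.some, hY.some_mem, rfl⟩
  obtain ⟨y, hy, hy'⟩ := Nat.find_spec hex
  refine ⟨y, hy, fun y' h' => ?_⟩
  rw [hy']
  exact Nat.find_min' hex ⟨y', h', rfl⟩

/-- T4 (1). -/
theorem IsProj.gp (hh : Hyp d δ) (hd : IsGM d) {η : ℕ} {Y : Set V} (hY : QConv d η Y) {v y z : V}
    (hy : IsProj d Y v y) (hz : z ∈ Y) : GpLe d (4 * δ + η + 1) v y z := by
  by_contra hcon
  unfold GpLe at hcon
  -- the point at distance `t = 4 δ + η + 1` from `y`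
  have h1 := hd.comm v y
  have h2 := hd.tri v z y
  have h3 := hd.comm z y
  have h4 := hd.tri y v z
  obtain ⟨m, hm, hm'⟩ := hd.exists_bt y z (4 * δ + η + 1) (by omega)
  obtain ⟨m', hm1, hm2⟩ := hd.exists_bt y v (4 * δ + η + 1) (by omega)
  have h5 := hh.fellow hd hm hm1 (by omega) (by
    have := hd.comm v z
    omega)
  obtain ⟨y'', hy1, hy2⟩ := hY y hy.1 z hz m hm
  have h6 := hy.2 y'' hy1
  have h7 := hd.tri v m' y''
  have h8 := hd.tri m' m y''
  have h9 := hd.comm m' m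
  have h10 := hd.comm v m'
  unfold Bt at hm1
  omega

/-- T4 (2). -/
theorem IsProj.dist_ge (hh : Hyp d δ) (hd : IsGM d) {η : ℕ} {Y : Set V} (hY : QConv d η Y)
    {v y v' y' : V} (hy : IsProj d Y v y) (hy' : IsProj d Y v' y')
    (h : 2 * (4 * δ + η + 1) + δ < d y y') :
    d v y + d y y' + d y' v' ≤ d v v' + 4 * (4 * δ + η + 1) + 2 * δ := by
  have h1 := hy.gp hh hd hY hy'.1
  have h2 := hy'.gp hh hd hY hy.1
  have h3 := hh v y y' v'
  have h4 := hh v y v' y'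
  have c1 := hd.comm y' y
  have c2 := hd.comm v' y'
  have c3 := hd.comm v' y
  have c4 := hd.comm v' v
  unfold GpLe at *
  omega

/-- T4 (3): the projections are on the geodesic, coarsely. -/
theorem IsProj.near (hh : Hyp d δ) (hd : IsGM d) {η : ℕ} {Y : Set V} (hY : QConv d η Y)
    {v y v' y' : V} (hy : IsProj d Y v y) (hy' : IsProj d Y v' y')
    (h : 2 * (4 * δ + η + 1) + 2 * δ < d y y') :
    (∃ q, Bt d v q v' ∧ d y q ≤ 4 * δ + η + 1 + 3 * δ + 1) ∧
      ∃ q, Bt d v q v' ∧ d y' q ≤ 4 * δ + η + 1 + 3 * δ + 1 := by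
  have h1 := hy.gp hh hd hY hy'.1
  have h2 := hy'.gp hh hd hY hy.1
  have c1 := hd.comm y' y
  have c2 := hd.comm v' y'
  have c3 := hd.comm v' y
  have c4 := hd.comm v' v
  have c5 := hd.comm v y
  have c6 := hd.comm v y'
  have k1 : GpLe d (4 * δ + η + 1 + δ) v y v' := by
    have h3 := hh y v y' v'
    have h4 := hh y v v' y'
    unfold GpLe at *
    omega
  have k2 : GpLe d (4 * δ + η + 1 + δ) v y' v' := by
    have h3 := hh y' v' y v
    have h4 := hh y' v' v y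
    unfold GpLe at *
    omega
  obtain ⟨q, hq, hq'⟩ := hh.near_of_gp hd k1
  obtain ⟨q2, hq2, hq2'⟩ := hh.near_of_gp hd k2
  exact ⟨⟨q, hq, by omega⟩, ⟨q2, hq2, by omega⟩⟩

/-- T4 (4): projections are coarsely Lipschitz. -/
theorem IsProj.lip (hh : Hyp d δ) (hd : IsGM d) {η : ℕ} {Y : Set V} (hY : QConv d η Y)
    {v y v' y' : V} (hy : IsProj d Y v y) (hy' : IsProj d Y v' y') :
    d y y' ≤ d v v' + 4 * (4 * δ + η + 1) + 2 * δ := by
  by_contra hcon
  have := hy.dist_ge hh hd hY hy' (by omega)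
  omega

/-- T4 (5): if the geodesics `[v, v']` stay far from `Y` the projections are close. -/
theorem IsProj.far (hh : Hyp d δ) (hd : IsGM d) {η : ℕ} {Y : Set V} (hY : QConv d η Y)
    {v y v' y' : V} (hy : IsProj d Y v y) (hy' : IsProj d Y v' y')
    (hfar : ∀ q, Bt d v q v' → ∀ z ∈ Y, 7 * δ + η + 2 < d q z) :
    d y y' ≤ 2 * (4 * δ + η + 1) + 2 * δ := by
  by_contra hcon
  obtain ⟨⟨q, hq, hq'⟩, -⟩ := hy.near hh hd hY hy' (by omega)
  have h1 := hfar q hq y hy.1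
  have h2 := hd.comm y q
  omega

/-- Two nearest points are close. -/
theorem IsProj.unique (hh : Hyp d δ) (hd : IsGM d) {η : ℕ} {Y : Set V} (hY : QConv d η Y)
    {v y y' : V} (hy : IsProj d Y v y) (hy' : IsProj d Y v y') :
    d y y' ≤ 2 * (4 * δ + η + 1) := by
  have h1 := hy.gp hh hd hY hy'.1
  have h2 := hy'.2 y hy.1
  have h3 := hy.2 y' hy'.1
  unfold GpLe at h1
  omega

/-- Points of `Y` near a geodesic: the neighbourhood of a quasi-convex set contains the middle of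
the geodesics between its points. -/
theorem QConv.middle (hh : Hyp d δ) (hd : IsGM d) {η : ℕ} {Y : Set V} (hY : QConv d η Y)
    {x x' y y' z : V} {a : ℕ} (hy : y ∈ Y) (hy' : y' ∈ Y) (hx : d x y ≤ a) (hx' : d x' y' ≤ a)
    (hz : Bt d x z x') (h1 : a + 8 * δ < d x z) (h2 : a + 8 * δ < d z x') :
    ∃ y'' ∈ Y, d z y'' ≤ 8 * δ + η := by
  obtain ⟨z', hz', hzz, -, -⟩ := hh.quad hd hx hx' hz h1 h2
  obtain ⟨y'', h3, h4⟩ := hY y hy y' hy' z' hz'
  refine ⟨y'', h3, ?_⟩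
  have := hd.tri z z' y''
  omega

/-- A neighbourhood of a quasi-convex set is quasi-convex. -/
theorem QConv.nbhd (hh : Hyp d δ) (hd : IsGM d) {η : ℕ} {Y : Set V} (hY : QConv d η Y) (a : ℕ) :
    QConv d (8 * δ + η) {x | ∃ y ∈ Y, d x y ≤ a} := by
  rintro x ⟨y, hy, hxy⟩ x' ⟨y', hy', hxy'⟩ z hz
  have hs := hh.slim hd
  obtain ⟨u, hu, hzu⟩ := hs _ _ y z hz
  rcases hu with hu | hu
  · refine ⟨u, ⟨y, hy, ?_⟩, by omega⟩
    unfold Bt at hu
    omega
  obtain ⟨v, hv, huv⟩ := hs _ _ y' u hu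
  have hzv := hd.tri z u v
  rcases hv with hv | hv
  · obtain ⟨y'', h1, h2⟩ := hY y hy y' hy' v hv
    refine ⟨y'', ⟨y'', h1, by rw [hd.self]; omega⟩, ?_⟩
    have := hd.tri z v y''
    omega
  · refine ⟨v, ⟨y', hy', ?_⟩, by omega⟩
    have h3 := hd.comm y' v
    have h4 := hd.comm y' x'
    unfold Bt at hv
    omega

end Pool.Agent.Olsh
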