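import Pool.Agent.Olsh.DefsP

/-!
# MP_3cdb71_al: statements of the modules for sections 5 to 7 of `Pool/Agent/Olsh/H92.md`
-/

set_option autoImplicit false

namespace Pool.Agent.Olsh

/-! ### Section 5: consequences of the invariants -/

/-- Commuting isometries of equal stable length: one of `g h`, `g h⁻¹` has stable length zero. -/
def Stmt_TADD : Prop := ∀ (δ : ℕ) (G X : Type) [Group G] [MulAction G X] (d : X → X → ℕ),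
  IsGM d → Hyp d δ → IsomAct G d → Nonempty X → ∀ g h : G, g * h = h * g →
  slen d g = slen d h → slen d (g * h) = 0 ∨ slen d (g * h⁻¹) = 0

/-- No torsion, and malnormality of centralisers (the second half of CSA). -/
def Stmt_MALN : Prop := ∀ (G X : Type) [Group G] [MulAction G X] (d : X → X → ℕ) (a0 L0 : ℕ)
  (CP : ℕ → ℕ) (M0 : ℕ), Lev G d a0 L0 CP M0 →
  (∀ (a : G) (n : ℕ), 1 ≤ n → a ^ n = 1 → a = 1) ∧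
  ∀ a b : G, a ≠ 1 → a * (b * a * b⁻¹) = (b * a * b⁻¹) * a → a * b = b * a

/-- 5.2 (OV): two elements which move two far points by a bounded amount commute. -/
def Stmt_OV : Prop := ∃ A C : ℕ, ∀ (G X : Type) [Group G] [MulAction G X] (d : X → X → ℕ)
  (a0 L0 : ℕ) (CP : ℕ → ℕ) (M0 : ℕ), Lev G d a0 L0 CP M0 → A ≤ a0 →
  ∀ (g h : G) (p q : X) (al be : ℕ), d p (g • p) ≤ al → d q (g • q) ≤ al →
    d p (h • p) ≤ be → d q (h • q) ≤ be → 4 * (al + be) + 2 * L0 + C ≤ d p q → g * h = h * g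

/-- 5.3: axes of non-commuting elements have small overlap. -/
def Stmt_OVAX : Prop := ∃ A : ℕ, ∀ r : ℕ, ∃ C : ℕ, ∀ (G X : Type) [Group G] [MulAction G X]
  (d : X → X → ℕ) (a0 L0 : ℕ) (CP : ℕ → ℕ) (M0 : ℕ), Lev G d a0 L0 CP M0 → A ≤ a0 →
  ∀ (a b : G) (p q : X), a * b ≠ b * a → p ∈ Nd d r (AX d a) → q ∈ Nd d r (AX d a) →
    p ∈ Nd d r (AX d b) → q ∈ Nd d r (AX d b) →
    (d p q : ℝ) ≤ 4 * (slen d a + slen d b) + 2 * L0 + C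

/-! ### Section 6: transfer of the invariants -/

/-- Apexes with large angles `x⁻¹ t, x t`: the orbit of `t` is an exact chain; for `m ≥ 2` every
geodesic from `v` to `x^m v` can be led through some `x^j t`. -/
def Stmt_ALC : Prop := ∀ (G A : Type) [Group G] [MulAction G A] (d : A → A → ℕ) (ap : Set A)
  (c : A → A → A → ℕ) (T0 : ℕ), IsPS d ap c T0 → IsomAct G d → (∀ (g : G), ∀ s ∈ ap, g • s ∈ ap) →
  (∀ (g : G), ∀ s ∈ ap, ∀ y y', d y s = 1 → d y' s = 1 →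
    c (g • s) (g • y) (g • y') = c s y y') →
  ∀ (x : G) (t : A), t ∈ ap → 20 * T0 < ang d c t (x⁻¹ • t) (x • t) →
    (∀ n : ℕ, d t (x ^ n • t) = n * d t (x • t)) ∧ slen d x = d t (x • t) ∧ 2 ≤ d t (x • t) ∧
    ∀ m : ℕ, 2 ≤ m → ∀ v : A, ∃ j : ℤ,
      d v (x ^ j • t) + d (x ^ j • t) (x ^ m • v) = d v (x ^ m • v)

/-- 6.1: the three types of nontrivial elements of the quotient. -/
def Stmt_TYPES : Prop := ∀ η η1 C : ℕ, ∃ E : ℕ, 1 ≤ E ∧ ∀ (a0 L0 : ℕ) (CP : ℕ → ℕ) (M0 : ℕ), ∃ U : ℕ,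
  ∀ (G G' X S A' : Type) [Group G] [MulAction G X] [MulAction G S] [Group G'] [MulAction G' A']
  (d : X → X → ℕ) (u L : ℕ) (Y : S → Set X) (d' : A' → A' → ℕ) (π : G →* G') (q : X ⊕ S → A'),
  LQ G G' d u L Y η η1 C d' π q a0 L0 CP M0 U → ∀ x : G', x ≠ 1 →
  (∃ t ∈ q '' apx X S, 20 * (C * u) < angQ d u Y d' q t (x⁻¹ • t) (x • t)) ∨
  TyBe d u π E x ∨ DD < disp d' x

/-- 6.1, elements of type (be): the axis of the lift embeds, with small angles. -/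
def Stmt_BEAX : Prop := ∀ η η1 C E : ℕ, ∃ C10 : ℕ, ∀ (a0 L0 : ℕ) (CP : ℕ → ℕ) (M0 : ℕ), ∃ U : ℕ,
  ∀ (G G' X S A' : Type) [Group G] [MulAction G X] [MulAction G S] [Group G'] [MulAction G' A']
  (d : X → X → ℕ) (u L : ℕ) (Y : S → Set X) (d' : A' → A' → ℕ) (π : G →* G') (q : X ⊕ S → A'),
  LQ G G' d u L Y η η1 C d' π q a0 L0 CP M0 U → ∀ (g : G) (o : X), π g ≠ 1 →
  d o (g • o) ≤ E * u →
  (∀ v w, v ∈ AX d g → w ∈ AX d g → (∀ s : S, angC d u Y s v w ≤ C10 * u) ∧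
    d' (q (Sum.inl v)) (q (Sum.inl w)) = cd d u Y (Sum.inl v) (Sum.inl w) ∧
    ∀ s ∈ q '' apx X S, angQ d u Y d' q s (q (Sum.inl v)) (q (Sum.inl w)) ≤ C10 * u) ∧
  slen d g ≤ C10 * u * slen d' (π g)

/-- LOX for the quotient. -/
def Stmt_LOXQ : Prop := ∀ η η1 C : ℕ, ∀ (a0 L0 : ℕ) (CP : ℕ → ℕ) (M0 : ℕ), ∃ U : ℕ,
  ∀ (G G' X S A' : Type) [Group G] [MulAction G X] [MulAction G S] [Group G'] [MulAction G' A']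
  (d : X → X → ℕ) (u L : ℕ) (Y : S → Set X) (d' : A' → A' → ℕ) (π : G →* G') (q : X ⊕ S → A'),
  LQ G G' d u L Y η η1 C d' π q a0 L0 CP M0 U → ∀ x : G', x ≠ 1 → 0 < slen d' x

/-- Short elements have a lift moving some vertex of `X` by at most `u`. -/
def Stmt_NU1 : Prop := ∀ η η1 C : ℕ, ∃ V1 : ℕ, 1 ≤ V1 ∧ ∀ (a0 L0 : ℕ) (CP : ℕ → ℕ) (M0 : ℕ), ∃ U : ℕ,
  ∀ (G G' X S A' : Type) [Group G] [MulAction G X] [MulAction G S] [Group G'] [MulAction G' A']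
  (d : X → X → ℕ) (u L : ℕ) (Y : S → Set X) (d' : A' → A' → ℕ) (π : G →* G') (q : X ⊕ S → A'),
  LQ G G' d u L Y η η1 C d' π q a0 L0 CP M0 U → ∀ x : G', x ≠ 1 →
  1 ≤ V1 * slen d' x ∨ TyBe d u π 1 x

/-- 6.3, general form: for every displacement bound `D` there is a universal distance `F D`. -/
def Stmt_GWA : Prop := ∀ η η1 C : ℕ, ∃ (A : ℕ) (F : ℕ → ℕ), ∀ (a0 L0 : ℕ) (CP : ℕ → ℕ) (M0 : ℕ),
  A ≤ a0 → ∃ U : ℕ,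
  ∀ (G G' X S A' : Type) [Group G] [MulAction G X] [MulAction G S] [Group G'] [MulAction G' A']
  (d : X → X → ℕ) (u L : ℕ) (Y : S → Set X) (d' : A' → A' → ℕ) (π : G →* G') (q : X ⊕ S → A'),
  LQ G G' d u L Y η η1 C d' π q a0 L0 CP M0 U → ∀ (D : ℕ) (g h : G') (v w : A'),
  d' v (g • v) ≤ D → d' w (g • w) ≤ D → d' v (h • v) ≤ D → d' w (h • w) ≤ D → F D ≤ d' v w →
  g * h = h * g

/-- CSA for the quotient. -/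
def Stmt_CSAQ : Prop := ∀ η η1 C : ℕ, ∃ A : ℕ, ∀ (a0 L0 : ℕ) (CP : ℕ → ℕ) (M0 : ℕ),
  A ≤ a0 → ∃ U : ℕ,
  ∀ (G G' X S A' : Type) [Group G] [MulAction G X] [MulAction G S] [Group G'] [MulAction G' A']
  (d : X → X → ℕ) (u L : ℕ) (Y : S → Set X) (d' : A' → A' → ℕ) (π : G →* G') (q : X ⊕ S → A'),
  LQ G G' d u L Y η η1 C d' π q a0 L0 CP M0 U → ∀ a b c : G', b ≠ 1 → a * b = b * a →
  b * c = c * b → a * c = c * a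

/-- 6.5, first half: on the part of a geodesic from `o` on which `x^m` displaces little, all angles
seen from `o` are bounded. -/
def Stmt_LTB : Prop := ∀ η η1 C E : ℕ, ∃ B : ℕ → ℕ, ∀ (a0 L0 : ℕ) (CP : ℕ → ℕ) (M0 : ℕ),
  ∃ U : ℕ,
  ∀ (G G' X S A' : Type) [Group G] [MulAction G X] [MulAction G S] [Group G'] [MulAction G' A']
  (d : X → X → ℕ) (u L : ℕ) (Y : S → Set X) (d' : A' → A' → ℕ) (π : G →* G') (q : X ⊕ S → A'),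
  LQ G G' d u L Y η η1 C d' π q a0 L0 CP M0 U → ∀ m : ℕ, 1 ≤ m → m ≤ M0 → ∀ (g : G) (o : X)
  (p w : A'), π g ≠ 1 → d o (g • o) ≤ (E + 1) * u → Bt d' (q (Sum.inl o)) p w →
  d' w ((π g) ^ m • w) < d' p w →
  ∀ s ∈ q '' apx X S, angQ d u Y d' q s (q (Sum.inl o)) p ≤ B m * u

/-- 6.5: Lemma T. -/
def Stmt_LT : Prop := ∀ η η1 C E : ℕ, 1 ≤ E → ∃ R : ℕ → ℕ, ∀ (a0 L0 : ℕ) (CP : ℕ → ℕ) (M0 : ℕ),
  ∃ U : ℕ,
  ∀ (G G' X S A' : Type) [Group G] [MulAction G X] [MulAction G S] [Group G'] [MulAction G' A']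
  (d : X → X → ℕ) (u L : ℕ) (Y : S → Set X) (d' : A' → A' → ℕ) (π : G →* G') (q : X ⊕ S → A'),
  LQ G G' d u L Y η η1 C d' π q a0 L0 CP M0 U → ∀ m : ℕ, 1 ≤ m → m ≤ M0 → ∀ x : G', x ≠ 1 →
  ∀ v o : A', o ∈ AT d u π q E x → (∀ o' ∈ AT d u π q E x, d' v o ≤ d' v o') →
  d' v o + d' o (x ^ m • v) ≤ d' v (x ^ m • v) + R m ∧
  d' v o + d' o ((x ^ m)⁻¹ • v) ≤ d' v ((x ^ m)⁻¹ • v) + R m

/-- 6.6: PM for the quotient. -/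
def Stmt_PMQ : Prop := ∀ η η1 C : ℕ, ∃ CQ : ℕ → ℕ, ∀ (a0 L0 : ℕ) (CP : ℕ → ℕ) (M0 : ℕ), ∃ U : ℕ,
  ∀ (G G' X S A' : Type) [Group G] [MulAction G X] [MulAction G S] [Group G'] [MulAction G' A']
  (d : X → X → ℕ) (u L : ℕ) (Y : S → Set X) (d' : A' → A' → ℕ) (π : G →* G') (q : X ⊕ S → A'),
  LQ G G' d u L Y η η1 C d' π q a0 L0 CP M0 U → ∀ m : ℕ, 1 ≤ m → m ≤ M0 → ∀ (x : G') (v : A'),
  x ≠ 1 → d' v (x • v) ≤ d' v (x ^ m • v) + CQ m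

/-- The transfer theorem: the invariants pass to the quotient with the same constants. -/
def Stmt_TRANSFER : Prop := ∀ η η1 C : ℕ, ∃ (A : ℕ) (F CQ : ℕ → ℕ), ∀ (a0 L0 : ℕ), A ≤ a0 →
  F a0 ≤ L0 → ∀ M0 : ℕ, ∃ U : ℕ,
  ∀ (G G' X S A' : Type) [Group G] [MulAction G X] [MulAction G S] [Group G'] [MulAction G' A']
  (d : X → X → ℕ) (u L : ℕ) (Y : S → Set X) (d' : A' → A' → ℕ) (π : G →* G') (q : X ⊕ S → A'),
  LQ G G' d u L Y η η1 C d' π q a0 L0 CQ M0 U → Lev G' d' a0 L0 CQ M0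

/-! ### Section 7: classification of pairs -/

/-- Product of two isometries with axes of small overlap. -/
def Stmt_PROD : Prop := ∀ δ : ℕ, ∃ r C : ℕ, ∀ (G X : Type) [Group G] [MulAction G X]
  (d : X → X → ℕ), IsGM d → Hyp d δ → IsomAct G d → Nonempty X → ∀ (g h : G) (Δ ρ : ℕ),
  (∀ p q, p ∈ Nd d r (Mn d g) → q ∈ Nd d r (Mn d g) → p ∈ Nd d r (Mn d h) →
    q ∈ Nd d r (Mn d h) → d p q ≤ Δ) →
  2 * (Δ : ℝ) + C ≤ slen d g → 2 * (Δ : ℝ) + C ≤ slen d h →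
  (∀ p ∈ Mn d g, ∀ q ∈ Mn d h, ρ ≤ d p q) →
  slen d g + slen d h + 2 * ρ ≤ slen d (g * h) + 2 * Δ + C

/-- 7.1, `x` long. -/
def Stmt_GX : Prop := ∃ A : ℕ, ∀ V1 a0 L0 : ℕ, A ≤ a0 → ∃ D0 : ℕ, ∀ D k : ℕ, D0 ≤ D → 1 ≤ k →
  ∀ (G X : Type) [Group G] [MulAction G X] (d : X → X → ℕ) (CP : ℕ → ℕ) (M0 : ℕ),
  Lev G d a0 L0 CP M0 → ∀ x y : G, x * y ≠ y * x → 1 ≤ V1 * slen d x → ∀ ρ : ℕ,
  (∀ p ∈ AX d x, ∀ q ∈ AX d x, ρ ≤ d p ((yW k y)⁻¹ • q)) →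
  19 / 10 * (D * slen d x) + 2 * ρ ≤ slen d (gW D k x y)

/-- 7.1, `y` long. -/
def Stmt_GY : Prop := ∃ A : ℕ, ∀ V1 a0 L0 : ℕ, A ≤ a0 → ∃ D0 : ℕ, ∀ D k : ℕ, 1 ≤ D → D0 ≤ k →
  ∀ (G X : Type) [Group G] [MulAction G X] (d : X → X → ℕ) (CP : ℕ → ℕ) (M0 : ℕ),
  Lev G d a0 L0 CP M0 → ∀ x y : G, x * y ≠ y * x → 1 ≤ V1 * slen d y → ∀ ρ : ℕ,
  (∀ p ∈ AX d y, ∀ q ∈ AX d y, ρ ≤ d p (pW D x • q)) →
  19 / 10 * (k * slen d y) + 2 * ρ ≤ slen d (gW D k x y)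

/-- 7.1, both long (in particular level 0, with `V1 = 1`). -/
def Stmt_CLLL : Prop := ∃ A : ℕ, ∀ V1 a0 L0 : ℕ, A ≤ a0 → ∃ D0 : ℕ, ∀ D k : ℕ, D0 ≤ D → D0 ≤ k →
  ∃ C12 : ℕ, ∀ (G X : Type) [Group G] [MulAction G X] (d : X → X → ℕ) (CP : ℕ → ℕ) (M0 : ℕ),
  Lev G d a0 L0 CP M0 → ∀ x y : G, x * y ≠ y * x → 1 ≤ V1 * slen d x → 1 ≤ V1 * slen d y →
  GPair d D k 1 C12 x y

/-- 7.1, `x` long, `y` small. -/
def Stmt_CLLS : Prop := ∀ η η1 C : ℕ, ∃ A : ℕ, ∀ V1 a0 L0 : ℕ, A ≤ a0 → ∃ D0 : ℕ, ∀ D k : ℕ,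
  D0 ≤ D → D0 ≤ k → ∃ C12 : ℕ, ∀ (CP : ℕ → ℕ) (M0 : ℕ), D ≤ M0 → k ≤ M0 → ∃ U : ℕ,
  ∀ (G G' X S A' : Type) [Group G] [MulAction G X] [MulAction G S] [Group G'] [MulAction G' A']
  (d : X → X → ℕ) (u L : ℕ) (Y : S → Set X) (d' : A' → A' → ℕ) (π : G →* G') (q : X ⊕ S → A'),
  LQ G G' d u L Y η η1 C d' π q a0 L0 CP M0 U → Lev G' d' a0 L0 CP M0 → ∀ x y : G',
  x * y ≠ y * x → 1 ≤ V1 * slen d' x → TyBe d u π 1 y → GPair d' D k 1 C12 x y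

/-- 7.1, `x` small, `y` long. -/
def Stmt_CLSL : Prop := ∀ η η1 C : ℕ, ∃ A : ℕ, ∀ V1 a0 L0 : ℕ, A ≤ a0 → ∃ D0 : ℕ, ∀ D k : ℕ,
  D0 ≤ D → D0 ≤ k → ∃ C12 : ℕ, ∀ (CP : ℕ → ℕ) (M0 : ℕ), D ≤ M0 → k ≤ M0 → ∃ U : ℕ,
  ∀ (G G' X S A' : Type) [Group G] [MulAction G X] [MulAction G S] [Group G'] [MulAction G' A']
  (d : X → X → ℕ) (u L : ℕ) (Y : S → Set X) (d' : A' → A' → ℕ) (π : G →* G') (q : X ⊕ S → A'),
  LQ G G' d u L Y η η1 C d' π q a0 L0 CP M0 U → Lev G' d' a0 L0 CP M0 → ∀ x y : G',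
  x * y ≠ y * x → TyBe d u π 1 x → 1 ≤ V1 * slen d' y → GPair d' D k 1 C12 x y

/-- 7.1, both small: a `B`-pair, or lifts with `E_X ≤ C13 u`. -/
def Stmt_CLSS : Prop := ∀ η η1 C D k : ℕ, 1 ≤ D → 1 ≤ k → ∃ C12 C13 : ℕ,
  ∀ (a0 L0 : ℕ) (CP : ℕ → ℕ) (M0 : ℕ), D ≤ M0 → k ≤ M0 → ∃ U : ℕ,
  ∀ (G G' X S A' : Type) [Group G] [MulAction G X] [MulAction G S] [Group G'] [MulAction G' A']
  (d : X → X → ℕ) (u L : ℕ) (Y : S → Set X) (d' : A' → A' → ℕ) (π : G →* G') (q : X ⊕ S → A'),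
  LQ G G' d u L Y η η1 C d' π q a0 L0 CP M0 U → Lev G' d' a0 L0 CP M0 → ∀ x y : G',
  x * y ≠ y * x → TyBe d u π 1 x → TyBe d u π 1 y → GPair d' D k 1 C12 x y ∨
  ∃ x₁ y₁ : G, π x₁ = x ∧ π y₁ = y ∧ ELe d (C13 * u) x₁ y₁

/-- Theorem 7.1: classification of the non-commuting pairs of the quotient. -/
def Stmt_CLASS : Prop := ∀ η η1 C : ℕ, ∃ A : ℕ, ∀ a0 L0 : ℕ, A ≤ a0 → ∃ D0 : ℕ, ∀ D k : ℕ,
  D0 ≤ D → D0 ≤ k → ∃ C12 C13 : ℕ, ∀ (CP : ℕ → ℕ) (M0 : ℕ), D ≤ M0 → k ≤ M0 → ∃ U : ℕ,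
  ∀ (G G' X S A' : Type) [Group G] [MulAction G X] [MulAction G S] [Group G'] [MulAction G' A']
  (d : X → X → ℕ) (u L : ℕ) (Y : S → Set X) (d' : A' → A' → ℕ) (π : G →* G') (q : X ⊕ S → A'),
  LQ G G' d u L Y η η1 C d' π q a0 L0 CP M0 U → Lev G' d' a0 L0 CP M0 → ∀ x y : G',
  x * y ≠ y * x → GPair d' D k 1 C12 x y ∨
  ∃ x₁ y₁ : G, π x₁ = x ∧ π y₁ = y ∧ ELe d (C13 * u) x₁ y₁

end Pool.Agent.Olsh
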