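import Pool.Agent.Olsh.StmtsP

/-!
# BEAX: elements of type (be), the axis of the lift embeds with small angles
-/

set_option autoImplicit false

namespace Pool.Agent.Olsh

namespace BEAX

open Filter Topology

/-- Neighbours of an apex in the cone-off are vertices of `X`. -/
theorem nb_inl {X S : Type} {d : X → X → ℕ} {u : ℕ} {Y : S → Set X} {T : ℕ}
    (hp : IsPS (cd d u Y) (apx X S) (cdX d) T) {s : S} {a y : X ⊕ S}
    (hy : y ∈ Nb (cd d u Y) (Sum.inr s) a) : ∃ y0 : X, y = Sum.inl y0 := by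
  rcases y with y0 | t
  · exact ⟨y0, rfl⟩
  · exact absurd hy.1 (hp.nadj _ ⟨t, rfl⟩ _ ⟨s, rfl⟩)

/-- The key estimate: the angles between points of the axis. -/
theorem ang_small (h1 : Stmt_PSA) {G X S : Type} [Group G] [MulAction G X] [MulAction G S]
    {d : X → X → ℕ} {u : ℕ} {Y : S → Set X} {η η1 C E : ℕ} (hc : ConeP d u Y η η1 C)
    (hI : IsomAct G d) (hY : ∀ (g : G) (s : S) (v : X), v ∈ Y s → g • v ∈ Y (g • s))
    {g : G} (hg : 0 < slen d g) (hE : slen d g ≤ E * u) (hne : Nonempty X)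
    (hu : 700 * dl + 20 * η + 100 ≤ u) {s : S} (hs : g • s ≠ s) {v w : X}
    (hv : v ∈ AX d g) (hw : w ∈ AX d g) : angC d u Y s v w ≤ (4 * C + 4 * E + 1) * u := by
  have hd := hc.gm
  have hh := hc.hyp
  obtain ⟨hP1, -, hP3, -⟩ := h1 _ _ _ _ _ hc.ps (Sum.inr s) ⟨s, rfl⟩
  obtain ⟨y, hy, y', hy', hyy⟩ := hP3 (Sum.inl v) (Sum.inl w) Sum.inl_ne_inr Sum.inl_ne_inr
  obtain ⟨y0, rfl⟩ := nb_inl hc.ps hy
  obtain ⟨y0', rfl⟩ := nb_inl hc.ps hy'
  have hang : angC d u Y s v w = d y0 y0' := hyy.symm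
  rw [hang]
  obtain ⟨a, ha⟩ := exists_proj (d := d) (hc.ne s) v
  obtain ⟨b, hb⟩ := exists_proj (d := d) (hc.ne s) w
  have n1 : d y0 a ≤ C * u := hc.near s (Sum.inl v) v y0 a rfl ha hy
  have n2 : d y0' b ≤ C * u := hc.near s (Sum.inl w) w y0' b rfl hb hy'
  have hQ : QConv d η (Y s) := hc.qc s
  -- it is enough to bound the distance of the projections
  have key : d a b ≤ 2 * (C * u) + (4 * (E * u) + u) := by
    by_cases hbig : 2 * (4 * dl + η + 1) + 2 * dl < d a b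
    swap
    · have : d a b ≤ u := by omega
      omega
    obtain ⟨⟨q1, hq1, hq1'⟩, q2, hq2, hq2'⟩ := IsProj.near hh hd hQ ha hb hbig
    have hax := IsomAct.ax_qconv hI hh hd (D := DD) (by unfold DD; omega) hg
    obtain ⟨p1, hp1, hp1'⟩ := hax v hv w hw q1 hq1
    obtain ⟨p2, hp2, hp2'⟩ := hax v hv w hw q2 hq2
    have mv : ∀ p ∈ AX d g, d p (g • p) ≤ E * u + 16 * dl := by
      intro p hp
      have h2 := IsomAct.ax_dist_le hI hh hd (D := DD) (by unfold DD; omega) hg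
        (Commute.refl g) hp
      have h3 : (d p (g • p) : ℝ) ≤ ((E * u + 16 * dl : ℕ) : ℝ) := by
        push_cast
        linarith
      exact_mod_cast h3
    have dg : ∀ (a' q' p' : X), d a' q' ≤ 4 * dl + η + 1 + 3 * dl + 1 → d q' p' ≤ 59 * dl + 5 →
        p' ∈ AX d g → d a' (g • a') ≤ 2 * (66 * dl + η + 7) + (E * u + 16 * dl) := by
      intro a' q' p' e1 e2 e3
      have i1 := hd.tri a' q' p'
      have i2 := hd.tri a' p' (g • a')
      have i3 := hd.tri p' (g • p') (g • a')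
      have i4 := mv p' e3
      have i5 : d (g • p') (g • a') = d p' a' := hI g p' a'
      have i6 := hd.comm p' a'
      omega
    have da := dg a q1 p1 hq1' hp1' hp1
    have db := dg b q2 p2 hq2' hp2' hp2
    -- the projections of `g a`, `g b` to `Y s`
    obtain ⟨a', ha'⟩ := exists_proj (d := d) (hc.ne s) (g • a)
    obtain ⟨b', hb'⟩ := exists_proj (d := d) (hc.ne s) (g • b)
    have hne' : (Sum.inr (g • s) : X ⊕ S) ≠ Sum.inr s := fun e => hs (Sum.inr_injective e)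
    obtain ⟨z, hz⟩ := hP1 (Sum.inr (g • s)) hne'
    obtain ⟨z0, rfl⟩ := nb_inl hc.ps hz
    have m1 : d z0 a' ≤ C * u := hc.near s (Sum.inr (g • s)) (g • a) z0 a' (hY g s a ha.1) ha' hz
    have m2 : d z0 b' ≤ C * u := hc.near s (Sum.inr (g • s)) (g • b) z0 b' (hY g s b hb.1) hb' hz
    have m3 : d (g • a) a' ≤ d (g • a) a := ha'.2 a ha.1
    have m4 : d (g • b) b' ≤ d (g • b) b := hb'.2 b hb.1
    have m5 := hd.comm (g • a) a
    have m6 := hd.comm (g • b) b
    have m7 := hd.tri a (g • a) a'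
    have m8 := hd.tri b (g • b) b'
    have m9 := hd.tri a a' b
    have m10 := hd.tri a' z0 b
    have m11 := hd.tri z0 b' b
    have m12 := hd.comm a' z0
    have m13 := hd.comm b' b
    omega
  have e1 := hd.tri y0 a y0'
  have e2 := hd.tri a b y0'
  have e3 := hd.comm b y0'
  have e4 : (4 * C + 4 * E + 1) * u = 4 * (C * u) + 4 * (E * u) + u := by ring
  omega

end BEAX

open Filter Topology in
theorem BEAX (h1 : Stmt_PSA) (h2 : Stmt_QPS) (h3 : Stmt_ISO) (h4 : Stmt_POLY) (_h5 : Stmt_PROJ)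
    (h6 : Stmt_LEN) (_h7 : Stmt_CONEGM) (h8 : Stmt_QGM) : Stmt_BEAX := by
  intro η η1 C E
  refine ⟨6 * C + 4 * E + 2, fun a0 L0 CP M0 => ⟨700 * dl + 20 * η + 100 + 30 * C + 4 * E + 10, ?_⟩⟩
  intro G G' X S A' _ _ _ _ _ d u L Y d' π q H g o hg1 ho
  have hgm := H.gm
  have hI : IsomAct G d := H.lev.isom
  have hne : Nonempty X := H.lev.ne
  have hg : g ≠ 1 := by
    rintro rfl
    exact hg1 (map_one π)
  have hpos : 0 < slen d g := H.lev.lox g hg
  have hE : slen d g ≤ E * u := by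
    have e1 := IsomAct.slen_mul_le (d := d) g o 1
    rw [Nat.cast_one, one_mul, pow_one] at e1
    have e2 : (d o (g • o) : ℝ) ≤ ((E * u : ℕ) : ℝ) := by exact_mod_cast ho
    rw [Nat.cast_mul] at e2
    exact e1.trans e2
  have hu := H.hu
  have hL := H.hL
  have hUL : (24 * C + 4 * E + 2) * u + 6 * (C * u) ≤ L := by
    refine le_trans ?_ hL
    have : (24 * C + 4 * E + 2) * u + 6 * (C * u) = (30 * C + 4 * E + 2) * u := by ring
    rw [this]
    exact Nat.mul_le_mul_right _ (by omega)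
  have hfix : ∀ s : S, g • s ≠ s := by
    intro s e
    apply hg1
    rw [H.quot.ker]
    refine Subgroup.subset_closure ⟨Sum.inr s, ⟨s, rfl⟩, ?_⟩
    rw [Sum.smul_inr, e]
  have hang : ∀ v w, v ∈ AX d g → w ∈ AX d g → ∀ s : S,
      angC d u Y s v w ≤ (4 * C + 4 * E + 1) * u := fun v w hv hw s =>
    BEAX.ang_small h1 H.conep hI H.Ysmul hpos hE hne (by omega) (hfix s) hv hw
  have hiso : ∀ v w, v ∈ AX d g → w ∈ AX d g →
      d' (q (Sum.inl v)) (q (Sum.inl w)) = cd d u Y (Sum.inl v) (Sum.inl w) := by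
    intro v w hv hw
    refine h3 G (X ⊕ S) G' A' (cd d u Y) (apx X S) (cdX d) (C * u) L d' π q H.rotc H.quot
      (Sum.inl v) (Sum.inl w) (by rintro ⟨t, ht⟩; exact Sum.inr_ne_inl ht) ?_
    rintro _ ⟨s, rfl⟩ -
    have e1 := hang v w hv hw s
    unfold angC at e1
    have e2 : (24 * C + 4 * E + 2) * u = 24 * (C * u) + 4 * (E * u) + 2 * u := by ring
    have e3 : (4 * C + 4 * E + 1) * u = 4 * (C * u) + 4 * (E * u) + u := by ring
    omega
  obtain ⟨hPS', -, -, -, hq5, -, -, hq8⟩ := h2 G (X ⊕ S) G' A' (cd d u Y) (apx X S) (cdX d) (C * u)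
    L d' π q H.rotc H.quot
  refine ⟨fun v w hv hw => ⟨fun s => ?_, hiso v w hv hw, ?_⟩, ?_⟩
  · refine (hang v w hv hw s).trans (Nat.mul_le_mul_right _ (by omega))
  · rintro s' ⟨_, ⟨t0, rfl⟩, ht0⟩
    have hpoly := (h4 G (X ⊕ S) G' A' (cd d u Y) (apx X S) (cdX d) (C * u) L d' π q H.rotc
      H.quot).2 3 ((4 * C + 4 * E + 1) * u)
      (fun i => if i = 1 then q (Sum.inl w) else if i = 2 then s' else q (Sum.inl v))
      (Sum.inl v) (Sum.inl w) (by rintro ⟨t, ht⟩; exact Sum.inr_ne_inl ht)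
      (by rintro ⟨t, ht⟩; exact Sum.inr_ne_inl ht)
      (by rintro _ ⟨s, rfl⟩; exact hang v w hv hw s) (by simp) (by simp) (by omega) (by simp)
      (by
        have e2 : (24 * C + 4 * E + 2) * u = 24 * (C * u) + 4 * (E * u) + 2 * u := by ring
        have e3 : (4 * C + 4 * E + 1) * u = 4 * (C * u) + 4 * (E * u) + u := by ring
        omega)
    obtain ⟨a, ha0, ha1, hqa, hda, ha3⟩ := hpoly
    have d1 := hda 1 le_rfl (by omega)
    have d2 := hda 2 (by omega) (by omega)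
    simp only [Nat.reduceAdd, ha1, if_true] at d1
    norm_num at d1 d2
    have q2 : q (a 2) = s' := by
      have := hqa 2 (by omega)
      simpa using this
    rw [ha3] at d2
    have hap : a 2 ∈ apx X S := hq5 _ (by rw [q2]; exact ⟨_, ⟨t0, rfl⟩, ht0⟩)
    have hgmc := H.conep.ps.gm
    have hgm' := hPS'.gm
    have e1 := hq8 (a 2) hap (Sum.inl v) (Sum.inl w)
      (by rw [q2, hgmc.comm, d2, hgm'.comm]) (by rw [q2, d1])
    obtain ⟨t, ht⟩ := hap
    have e2 := hang v w hv hw t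
    unfold angC at e2
    rw [ht] at e2
    rw [q2] at e1
    unfold angQ
    have e3 : (6 * C + 4 * E + 2) * u = 6 * (C * u) + 4 * (E * u) + 2 * u := by ring
    have e4 : (4 * C + 4 * E + 1) * u = 4 * (C * u) + 4 * (E * u) + u := by ring
    omega
  · -- the stable length
    obtain ⟨v, hv⟩ := IsomAct.Ax_nonempty (d := d) DD g
    have hvn : ∀ n : ℕ, g ^ n • v ∈ AX d g := fun n =>
      (IsomAct.smul_mem_Ax_of_commute hI DD ((Commute.refl g).pow_left n) v).mpr hv
    obtain ⟨hgm', hI'⟩ := h8 G (X ⊕ S) G' A' (cd d u Y) (KK G (apx X S)) d' π q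
      H.conep.ps.gm H.rotc.isom H.quot
    have hlim := (IsomAct.tendsto_slen (d := d') hI' hgm' (π g) (q (Sum.inl v))).const_mul
      (((6 * C + 4 * E + 2 : ℕ) : ℝ) * u)
    refine ge_of_tendsto hlim (eventually_atTop.mpr ⟨1, fun n hn => ?_⟩)
    have hn0 : (0 : ℝ) < n := by exact_mod_cast hn
    rw [← mul_div_assoc, le_div_iff₀ hn0, mul_comm]
    refine (IsomAct.slen_mul_le (d := d) g v n).trans ?_
    have e1 := h6 η η1 C X S d u Y H.conep ((4 * C + 4 * E + 1) * u) v (g ^ n • v)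
      (fun s => hang v _ hv (hvn n) s)
    rw [← hiso v _ hv (hvn n)] at e1
    have e2 : q (Sum.inl (g ^ n • v)) = (π g) ^ n • q (Sum.inl v) := by
      rw [← map_pow, ← H.quot.equiv, Sum.smul_inl]
    rw [e2] at e1
    have e3 : (4 * C + 4 * E + 1) * u + u ≤ (6 * C + 4 * E + 2) * u := by
      have e4 : (4 * C + 4 * E + 1) * u + u = (4 * C + 4 * E + 2) * u := by ring
      rw [e4]
      exact Nat.mul_le_mul_right _ (by omega)
    have e5 : d v (g ^ n • v) ≤ (6 * C + 4 * E + 2) * u *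
        d' (q (Sum.inl v)) ((π g) ^ n • q (Sum.inl v)) := by
      rw [mul_comm]
      exact e1.trans (Nat.mul_le_mul_left _ e3)
    exact_mod_cast e5

end Pool.Agent.Olsh
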