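import Pool.Agent.Olsh.StmtsC

/-!
# MP_3cdb71_al: angles are at most the distance in `X` up to a multiple of `u`
-/

set_option autoImplicit false

namespace Pool.Agent.Olsh

namespace ANGX

/-- Nearest points exist. -/
theorem exists_pr {V : Type} (d : V → V → ℕ) (Y : Set V) (hY : Y.Nonempty) (v : V) :
    ∃ y, IsPr d Y v y := by
  classical
  have hex : ∃ n : ℕ, ∃ y ∈ Y, d v y = n := by
    obtain ⟨y, hy⟩ := hY
    exact ⟨_, y, hy, rfl⟩
  obtain ⟨y, hy, hn⟩ := Nat.find_spec hex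
  refine ⟨y, hy, fun z hz => ?_⟩
  rw [hn]
  exact Nat.find_min' hex ⟨z, hz, rfl⟩

/-- Two neighbours of `s` in the directions of `v` and `w`. -/
theorem core {X S : Type} {d : X → X → ℕ} {u : ℕ} {Y : S → Set X} {η η1 C : ℕ}
    (h : ConeP d u Y η η1 C) (Cp : ℕ)
    (hp : ∀ (s : S) (v v' y y' : X), IsPr d (Y s) v y → IsPr d (Y s) v' y' →
      d y y' ≤ d v v' + Cp ∧ (Cp < d y y' → d v y + d y y' + d y' v' ≤ d v v' + Cp))
    (s : S) (v w y y' : X)
    (hy : Sum.inl y ∈ Nb (cd d u Y) (Sum.inr s) (Sum.inl v))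
    (hy' : Sum.inl y' ∈ Nb (cd d u Y) (Sum.inr s) (Sum.inl w)) :
    d y y' ≤ d v w + (4 * C + 2 * Cp + 1) * u ∧
    ((4 * C + 2 * Cp + 1) * u < d y y' →
      d v y + d y y' + d y' w ≤ d v w + (4 * C + 2 * Cp + 1) * u) := by
  have hgm := h.gm
  obtain ⟨pv, hpv⟩ := exists_pr d (Y s) (h.ne s) v
  obtain ⟨pw, hpw⟩ := exists_pr d (Y s) (h.ne s) w
  have e1 : d y pv ≤ C * u := h.near s (Sum.inl v) v y pv rfl hpv hy
  have e2 : d y' pw ≤ C * u := h.near s (Sum.inl w) w y' pw rfl hpw hy'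
  obtain ⟨k1, k2⟩ := hp s v w pv pw hpv hpw
  have hu := h.one_le
  have hexp : (4 * C + 2 * Cp + 1) * u = 4 * (C * u) + 2 * (Cp * u) + u := by ring
  have hcu : Cp ≤ Cp * u := Nat.le_mul_of_pos_right _ hu
  rw [hexp]
  have t1 : d y y' ≤ d y pv + d pv pw + d pw y' := by
    have a1 := hgm.tri y pv y'
    have a2 := hgm.tri pv pw y'
    omega
  have t2 := hgm.comm pw y'
  have t3 := hgm.tri v pv y
  have t4 := hgm.comm pv y
  have t5 := hgm.tri y' pw w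
  refine ⟨by omega, fun hlt => ?_⟩
  have k3 := k2 (by omega)
  omega

end ANGX

/-- Angles are at most the distance in `X` up to a multiple of `u`. -/
theorem ANGX (h1 : Stmt_PSA) (h2 : Stmt_PROJ) : Stmt_ANGX := by
  intro η η1 C
  obtain ⟨Cp, hCp⟩ := h2 dl η
  refine ⟨4 * C + 2 * Cp + 1, ?_⟩
  intro X S d u Y h _ s v w
  have hp : ∀ (s : S) (v v' y y' : X), IsPr d (Y s) v y → IsPr d (Y s) v' y' →
      d y y' ≤ d v v' + Cp ∧ (Cp < d y y' → d v y + d y y' + d y' v' ≤ d v v' + Cp) := by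
    intro s v v' y y' hy hy'
    have := hCp X d (Y s) h.gm h.hyp (h.qc s) v v' y y' hy hy'
    exact ⟨this.2.1, this.2.2.1⟩
  refine ⟨?_, fun y y' hy hy' hlt => (ANGX.core h Cp hp s v w y y' hy hy').2 hlt⟩
  have hs : (Sum.inr s : X ⊕ S) ∈ apx X S := ⟨s, rfl⟩
  obtain ⟨-, -, hex, -⟩ := h1 (X ⊕ S) (cd d u Y) (apx X S) (cdX d) (C * u) h.ps _ hs
  obtain ⟨a, ha, b, hb, hab⟩ := hex (Sum.inl v) (Sum.inl w) (by simp) (by simp)
  have hnap : ∀ t : S, ∀ z : X ⊕ S, z = Sum.inr t → cd d u Y z (Sum.inr s) = 1 → False := by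
    intro t z hz hd
    subst hz
    exact h.ps.nadj _ ⟨t, rfl⟩ _ hs hd
  rcases a with a | t
  · rcases b with b | t
    · rw [← hab]
      exact (ANGX.core h Cp hp s v w a b ha hb).1
    · exact (hnap t _ rfl hb.1).elim
  · exact (hnap t _ rfl ha.1).elim

end Pool.Agent.Olsh
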