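import Pool.Agent.Olsh.StmtsC

/-!
# MP_3cdb71_al, module CHAIN: exact chains (Lemma 2.5 of `H92.md`)
-/

set_option autoImplicit false

namespace Pool.Agent.Olsh

namespace CHAIN

variable {A : Type} {d : A → A → ℕ} {c : A → A → A → ℕ}

theorem ang_congr_left {s a a' : A} (b : A) (h : Nb d s a = Nb d s a') :
    ang d c s a b = ang d c s a' b := by
  unfold ang
  rw [h]

theorem ang_congr_right {s b b' : A} (a : A) (h : Nb d s b = Nb d s b') :
    ang d c s a b = ang d c s a b' := by
  unfold ang
  rw [h]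

end CHAIN

theorem CHAIN (h1 : Stmt_PSA) : Stmt_CHAIN := by
  intro A d ap c T0 hPS m p hp
  have H := h1 A d ap c T0 hPS
  -- the left neighbours
  have left : ∀ i, i < m → Nb d (p (i + 1)) (p 0) = Nb d (p (i + 1)) (p i) := by
    intro i
    induction i with
    | zero => intro _; rfl
    | succ i ih =>
      intro hi
      have h0 := ih (by omega)
      obtain ⟨ha, hang⟩ := hp i (by omega)
      obtain ⟨hb, -⟩ := hp (i + 1) hi
      obtain ⟨-, -, -, -, -, -, -, h8, -, -, -⟩ := H (p (i + 1)) ha
      obtain ⟨-, -, -, -, -, -, -, -, h9, -, -⟩ := H (p (i + 2)) hb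
      have hne : p (i + 1) ≠ p (i + 2) := fun hh => (h8 (p i) (p (i + 2)) (by omega)).2.2 hh.symm
      have hang' : 2 * T0 < ang d c (p (i + 1)) (p 0) (p (i + 2)) := by
        rw [CHAIN.ang_congr_left (c := c) (p (i + 2)) h0]
        exact hang
      exact (h9 (p (i + 1)) ha hne (p 0) hang').1
  -- the right neighbours
  have right : ∀ j i, i + j + 1 = m → Nb d (p (i + 1)) (p (m + 1)) = Nb d (p (i + 1)) (p (i + 2)) := by
    intro j
    induction j with
    | zero =>
      intro i hi
      have : m + 1 = i + 2 := by omega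
      rw [this]
    | succ j ih =>
      intro i hi
      have h0 := ih (i + 1) (by omega)
      obtain ⟨ha, -⟩ := hp i (by omega)
      obtain ⟨hb, hang⟩ := hp (i + 1) (by omega)
      obtain ⟨-, -, -, h4, -, -, -, h8, -, -, -⟩ := H (p (i + 1 + 1)) hb
      obtain ⟨-, -, -, -, -, -, -, -, h9, -, -⟩ := H (p (i + 1)) ha
      have hne : p (i + 1 + 1) ≠ p (i + 1) :=
        fun hh => (h8 (p (i + 1)) (p (i + 1 + 2)) (by omega)).2.1 hh.symm
      have hang' : 2 * T0 < ang d c (p (i + 1 + 1)) (p (m + 1)) (p (i + 1)) := by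
        rw [CHAIN.ang_congr_left (c := c) (p (i + 1)) h0, h4]
        exact hang
      exact (h9 (p (i + 1 + 1)) hb hne (p (m + 1)) hang').1
  refine ⟨?_, ?_⟩
  · intro i hi
    have hl := left i hi
    have hr := right (m - 1 - i) i (by omega)
    obtain ⟨ha, hang⟩ := hp i hi
    have he : ang d c (p (i + 1)) (p 0) (p (m + 1)) = ang d c (p (i + 1)) (p i) (p (i + 2)) := by
      rw [CHAIN.ang_congr_left (c := c) (p (m + 1)) hl, CHAIN.ang_congr_right (c := c) (p i) hr]
    obtain ⟨-, -, -, -, -, -, -, h8, -, -, -⟩ := H (p (i + 1)) ha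
    refine ⟨hr, hl, he, (h8 (p 0) (p (m + 1)) ?_).1⟩
    rw [he]
    omega
  · have key : ∀ j, j ≤ m → d (p 0) (p (j + 1)) = ∑ i ∈ Finset.range (j + 1), d (p i) (p (i + 1)) := by
      intro j
      induction j with
      | zero => intro _; simp
      | succ j ih =>
        intro hj
        have h0 := ih (by omega)
        obtain ⟨ha, hang⟩ := hp j (by omega)
        obtain ⟨-, -, -, -, -, -, -, h8, -, -, -⟩ := H (p (j + 1)) ha
        have h2 : T0 < ang d c (p (j + 1)) (p 0) (p (j + 2)) := by
          rw [CHAIN.ang_congr_left (c := c) (p (j + 2)) (left j (by omega))]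
          omega
        have h3 := (h8 (p 0) (p (j + 2)) h2).1
        rw [Finset.sum_range_succ, ← h0]
        exact h3
    exact key m le_rfl

end Pool.Agent.Olsh
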