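import Pool.Agent.Olsh.StmtsP

/-!
# MP_3cdb71_al: theorem 7.1, classification of pairs (module CLASS)
-/

set_option autoImplicit false

namespace Pool.Agent.Olsh

namespace CLASS

theorem lq_mono {G G' X S A' : Type} [Group G] [MulAction G X] [MulAction G S]
    [Group G'] [MulAction G' A'] {d : X → X → ℕ} {u L : ℕ} {Y : S → Set X} {η η1 C : ℕ}
    {d' : A' → A' → ℕ} {π : G →* G'} {q : X ⊕ S → A'} {a0 L0 : ℕ} {CP : ℕ → ℕ} {M0 U U' : ℕ}
    (hU : U' ≤ U) (h : LQ G G' d u L Y η η1 C d' π q a0 L0 CP M0 U) :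
    LQ G G' d u L Y η η1 C d' π q a0 L0 CP M0 U' :=
  { h with
    hu := hU.trans h.hu
    hL := (Nat.mul_le_mul_right u hU).trans h.hL }

theorem gpair_mono {G X : Type} [Group G] [MulAction G X] {d : X → X → ℕ} {D k B B' : ℕ}
    {x y : G} (hB : B ≤ B') (h : GPair d D k 1 B x y) : GPair d D k 1 B' x y := by
  obtain ⟨h1, h2, o, h3, h4⟩ := h
  have h5 : (0 : ℝ) ≤ slen d (gW D k x y) + 1 := by
    rw [Nat.cast_one, one_mul] at h2
    linarith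
  have h6 : (B : ℝ) * (slen d (gW D k x y) + 1) ≤ B' * (slen d (gW D k x y) + 1) :=
    mul_le_mul_of_nonneg_right (by exact_mod_cast hB) h5
  exact ⟨h1, h2, o, h3.trans h6, h4.trans h6⟩

end CLASS

theorem CLASS (h1 : Stmt_NU1) (h2 : Stmt_CLLL) (h3 : Stmt_CLLS) (h4 : Stmt_CLSL)
    (h5 : Stmt_CLSS) : Stmt_CLASS := by
  intro η η1 C
  obtain ⟨V1, -, hNU⟩ := h1 η η1 C
  obtain ⟨A1, h2⟩ := h2
  obtain ⟨A2, h3⟩ := h3 η η1 C
  obtain ⟨A3, h4⟩ := h4 η η1 C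
  refine ⟨max A1 (max A2 A3), fun a0 L0 hA => ?_⟩
  obtain ⟨D1, h2⟩ := h2 V1 a0 L0 (by omega)
  obtain ⟨D2, h3⟩ := h3 V1 a0 L0 (by omega)
  obtain ⟨D3, h4⟩ := h4 V1 a0 L0 (by omega)
  refine ⟨max (max D1 D2) (max D3 1), fun D k hD hk => ?_⟩
  obtain ⟨B1, h2⟩ := h2 D k (by omega) (by omega)
  obtain ⟨B2, h3⟩ := h3 D k (by omega) (by omega)
  obtain ⟨B3, h4⟩ := h4 D k (by omega) (by omega)
  obtain ⟨B4, C13, h5⟩ := h5 η η1 C D k (by omega) (by omega)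
  refine ⟨max (max B1 B2) (max B3 B4), C13, fun CP M0 hDM hkM => ?_⟩
  obtain ⟨U0, hNU⟩ := hNU a0 L0 CP M0
  obtain ⟨U2, h3⟩ := h3 CP M0 hDM hkM
  obtain ⟨U3, h4⟩ := h4 CP M0 hDM hkM
  obtain ⟨U4, h5⟩ := h5 a0 L0 CP M0 hDM hkM
  refine ⟨max (max U0 U2) (max U3 U4), ?_⟩
  intro G G' X S A' _ _ _ _ _ d u L Y d' π q hLQ hLev x y hxy
  have hx : x ≠ 1 := by rintro rfl; exact hxy (by rw [one_mul, mul_one])
  have hy : y ≠ 1 := by rintro rfl; exact hxy (by rw [one_mul, mul_one])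
  have hQ0 := CLASS.lq_mono (U' := U0) (by omega) hLQ
  have hQ2 := CLASS.lq_mono (U' := U2) (by omega) hLQ
  have hQ3 := CLASS.lq_mono (U' := U3) (by omega) hLQ
  have hQ4 := CLASS.lq_mono (U' := U4) (by omega) hLQ
  rcases hNU G G' X S A' d u L Y d' π q hQ0 x hx with hx1 | hx1 <;>
  rcases hNU G G' X S A' d u L Y d' π q hQ0 y hy with hy1 | hy1
  · exact Or.inl (CLASS.gpair_mono (by omega) (h2 G' A' d' CP M0 hLev x y hxy hx1 hy1))
  · exact Or.inl (CLASS.gpair_mono (by omega)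
      (h3 G G' X S A' d u L Y d' π q hQ2 hLev x y hxy hx1 hy1))
  · exact Or.inl (CLASS.gpair_mono (by omega)
      (h4 G G' X S A' d u L Y d' π q hQ3 hLev x y hxy hx1 hy1))
  · rcases h5 G G' X S A' d u L Y d' π q hQ4 hLev x y hxy hx1 hy1 with h | h
    · exact Or.inl (CLASS.gpair_mono (by omega) h)
    · exact Or.inr h

end Pool.Agent.Olsh
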