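import Pool.Agent.Olsh.StmtsP

/-!
# OLP_CLLL: pairs of long elements are pairs of bounded energy (7.1, both long)
-/

set_option autoImplicit false

namespace Pool.Agent.Olsh

namespace CLLL

variable {V : Type} {d : V → V → ℕ} {δ : ℕ}

/-- A nearest pair of points of two nonempty sets. -/
theorem exists_near (d : V → V → ℕ) {P Q : Set V} (hP : P.Nonempty) (hQ : Q.Nonempty) :
    ∃ p ∈ P, ∃ q ∈ Q, ∀ p' ∈ P, ∀ q' ∈ Q, d p q ≤ d p' q' := by
  classical
  have hex : ∃ n, ∃ p ∈ P, ∃ q ∈ Q, d p q = n := ⟨_, hP.some, hP.some_mem, hQ.some, hQ.some_mem, rfl⟩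
  obtain ⟨p, hp, q, hq, hpq⟩ := Nat.find_spec hex
  refine ⟨p, hp, q, hq, fun p' hp' q' hq' => ?_⟩
  rw [hpq]
  exact Nat.find_min' hex ⟨p', hp', q', hq', rfl⟩

/-- Two far apart quasi-convex sets `P`, `Q` and an isometry `Y` preserving `Q` and moving its
points by a large distance: `P` and `Y⁻¹ P` are at distance at least twice that of `P` and `Q`. -/
theorem far_sets {G : Type} [Group G] [MulAction G V] (hG : IsomAct G d) (hh : Hyp d δ)
    (hd : IsGM d) {η D1 : ℕ} {P Q : Set V} (hP : QConv d η P) (hQ : QConv d η Q)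
    (hQn : Q.Nonempty) (hD1 : ∀ p ∈ P, ∀ q ∈ Q, D1 ≤ d p q) (hbig : 7 * δ + 2 * η + 3 ≤ D1)
    {g : G} (hg : ∀ z, g⁻¹ • z ∈ Q ↔ z ∈ Q)
    (hmove : ∀ z ∈ Q, 4 * (4 * δ + η + 1) + 3 * δ + 1 ≤ d z (g • z)) :
    ∀ p ∈ P, ∀ q ∈ P, 2 * D1 - (4 * (4 * δ + η + 1) + 2 * δ) ≤ d p (g⁻¹ • q) := by
  intro p hp q hq
  obtain ⟨p', hp'⟩ := exists_proj (d := d) hQn p
  obtain ⟨q', hq'⟩ := exists_proj (d := d) hQn q
  have h1 : d p' q' ≤ 2 * (4 * δ + η + 1) + 2 * δ := by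
    refine hp'.far hh hd hQ hq' ?_
    intro z hz w hw
    obtain ⟨z', hz', hzz⟩ := hP p hp q hq z hz
    have h2 := hD1 z' hz' w hw
    have h3 := hd.tri z' z w
    have h4 := hd.comm z' z
    omega
  have h2 : IsProj d Q (g⁻¹ • q) (g⁻¹ • q') := hG.isProj_smul hg hq'
  have h3 : d (g⁻¹ • q') q' = d q' (g • q') := hG.inv g q' q'
  have h4 := hmove q' hq'.1
  have h5 := hd.tri q' p' (g⁻¹ • q')
  have h6 := hd.comm p' q'
  have h7 := hd.comm (g⁻¹ • q') q'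
  have h8 := hp'.dist_ge hh hd hQ h2 (by omega)
  have h9 := hD1 p hp p' hp'.1
  have h10 := hD1 q hq q' hq'.1
  have h11 : d (g⁻¹ • q') (g⁻¹ • q) = d q' q := hG _ _ _
  have h12 := hd.comm q q'
  omega

end CLLL

/-- OLP_CLLL. -/
theorem CLLL (h1 : Stmt_GX) (h2 : Stmt_GY) : Stmt_CLLL := by
  obtain ⟨A1, h1⟩ := h1
  obtain ⟨A2, h2⟩ := h2
  refine ⟨max A1 A2, fun V1 a0 L0 ha0 => ?_⟩
  obtain ⟨D1, h1⟩ := h1 V1 a0 L0 (le_trans (le_max_left _ _) ha0)
  obtain ⟨D2, h2⟩ := h2 V1 a0 L0 (le_trans (le_max_right _ _) ha0)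
  -- constants
  obtain ⟨η, hη⟩ : ∃ η : ℕ, η = 59 * dl + 5 := ⟨_, rfl⟩
  obtain ⟨K1, hK1⟩ : ∃ K1 : ℕ, K1 = 4 * (4 * dl + η + 1) + 3 * dl + 1 := ⟨_, rfl⟩
  obtain ⟨K0, hK0⟩ : ∃ K0 : ℕ, K0 = 7 * dl + 2 * η + 3 := ⟨_, rfl⟩
  refine ⟨D1 + D2 + V1 * (K1 + 1) + 1, fun D k hD hk => ?_⟩
  refine ⟨3 + 2 * K0 + 2 * K1 + 16 * dl, ?_⟩
  intro G X _ _ d CP M0 hL x y hxy hx hy
  have hV1K : V1 ≤ V1 * (K1 + 1) := Nat.le_mul_of_pos_right _ (by omega)
  have hDV : V1 ≤ D := by omega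
  have hkV : V1 * (K1 + 1) ≤ k := by omega
  have hkV1 : V1 ≤ k := by omega
  have hD1 : 1 ≤ D := by omega
  have hk1 : 1 ≤ k := by omega
  have hsx0 := IsomAct.slen_nonneg (d := d) x
  have hsy0 := IsomAct.slen_nonneg (d := d) y
  have hDV' : (V1 : ℝ) ≤ D := by exact_mod_cast hDV
  have hD1' : (1 : ℝ) ≤ D := by exact_mod_cast hD1
  have hk1' : (1 : ℝ) ≤ k := by exact_mod_cast hk1
  have hkV' : (V1 : ℝ) * (K1 + 1) ≤ k := by exact_mod_cast hkV
  have hDx : 1 ≤ D * slen d x := le_trans hx (mul_le_mul_of_nonneg_right hDV' hsx0)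
  have hDx' : slen d x ≤ D * slen d x := by nlinarith
  have hky' : slen d y ≤ k * slen d y := by nlinarith
  have hky : (K1 : ℝ) + 1 ≤ k * slen d y := by
    have e1 : (V1 : ℝ) * (K1 + 1) * slen d y ≤ k * slen d y :=
      mul_le_mul_of_nonneg_right hkV' hsy0
    have e2 : ((K1 : ℝ) + 1) * 1 ≤ (K1 + 1) * (V1 * slen d y) :=
      mul_le_mul_of_nonneg_left hy (by positivity)
    linarith
  have hsx : 0 < slen d x := by
    rcases lt_or_eq_of_le hsx0 with h | h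
    · exact h
    · rw [← h, mul_zero] at hx
      linarith
  have hsy : 0 < slen d y := by
    rcases lt_or_eq_of_le hsy0 with h | h
    · exact h
    · rw [← h, mul_zero] at hy
      linarith
  have hgx := h1 D k (by omega) hk1 G X d CP M0 hL x y hxy hx 0 (fun _ _ _ _ => Nat.zero_le _)
  have hgy := h2 D k hD1 (by omega) G X d CP M0 hL x y hxy hy 0 (fun _ _ _ _ => Nat.zero_le _)
  push_cast at hgx hgy
  have hgx1 : slen d x ≤ slen d (gW D k x y) := by linarith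
  have hgy1 : slen d y ≤ slen d (gW D k x y) := by linarith
  have hg1 : 1 ≤ slen d (gW D k x y) := by linarith
  refine ⟨hxy, by push_cast; linarith, ?_⟩
  have := hL.ne
  have hDD1 : 7 * dl + 2 ≤ DD := by
    unfold DD
    omega
  have hDD2 : 37 * dl + 5 ≤ DD := by
    unfold DD
    omega
  have hqx : QConv d η (AX d x) := by
    rw [hη]
    exact hL.isom.ax_qconv hL.hyp hL.gm hDD2 hsx
  have hqy : QConv d η (AX d y) := by
    rw [hη]
    exact hL.isom.ax_qconv hL.hyp hL.gm hDD2 hsy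
  obtain ⟨p, hp, q, hq, hpq⟩ := CLLL.exists_near d (IsomAct.Ax_nonempty (d := d) DD x)
    (IsomAct.Ax_nonempty (d := d) DD y)
  -- the distance of the axes
  have hdist : (d p q : ℝ) ≤ slen d (gW D k x y) + (K0 + K1) := by
    by_cases hb : K0 ≤ d p q
    · have hfar := CLLL.far_sets hL.isom hL.hyp hL.gm hqx hqy ⟨q, hq⟩ hpq (by omega) (g := yW k y)
        (fun z => hL.isom.smul_mem_Ax_of_commute DD ((Commute.refl y).pow_left k).inv_left z)
        (fun z _ => by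
          have e1 := IsomAct.slen_mul_le (d := d) y z k
          have e2 : (K1 : ℝ) ≤ d z (yW k y • z) := by
            unfold yW
            linarith
          have e3 : K1 ≤ d z (yW k y • z) := by exact_mod_cast e2
          omega)
      have hg2 := h1 D k (by omega) hk1 G X d CP M0 hL x y hxy hx _ hfar
      have e4 : d p q ≤ (2 * d p q - (4 * (4 * dl + η + 1) + 2 * dl)) + K1 := by omega
      have e5 : (d p q : ℝ) ≤
          ((2 * d p q - (4 * (4 * dl + η + 1) + 2 * dl) : ℕ) : ℝ) + K1 := by exact_mod_cast e4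
      have e6 : (0 : ℝ) ≤ K0 := Nat.cast_nonneg _
      have e7 : (0 : ℝ) ≤ ((2 * d p q - (4 * (4 * dl + η + 1) + 2 * dl) : ℕ) : ℝ) :=
        Nat.cast_nonneg _
      linarith
    · have e1 : d p q ≤ K0 := by omega
      have e2 : (d p q : ℝ) ≤ K0 := by exact_mod_cast e1
      have e3 : (0 : ℝ) ≤ K1 := Nat.cast_nonneg _
      linarith
  have hxp := hL.isom.ax_dist_le hL.hyp hL.gm hDD1 hsx (Commute.refl x) hp
  have hyq := hL.isom.ax_dist_le hL.hyp hL.gm hDD1 hsy (Commute.refl y) hq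
  have hyp' : (d p (y • p) : ℝ) ≤ d q (y • q) + 2 * d p q := by
    exact_mod_cast hL.isom.dist_base hL.gm y p q
  have c0 : (0 : ℝ) ≤ K0 := Nat.cast_nonneg _
  have c1 : (0 : ℝ) ≤ K1 := Nat.cast_nonneg _
  have c2 : (0 : ℝ) ≤ dl := Nat.cast_nonneg _
  refine ⟨p, ?_, ?_⟩
  · push_cast
    nlinarith
  · push_cast
    nlinarith

end Pool.Agent.Olsh
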