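import Pool.Agent.Olsh.StmtsP

/-!
# MP_3cdb71_al: classification of pairs, `x` long and `y` small (module `OLP_CLLS`)
-/

set_option autoImplicit false

namespace Pool.Agent.Olsh

namespace CLLS

/-- A nearest pair of points of two non-empty sets. -/
theorem exists_pair {V : Type} (d : V → V → ℕ) {P Q : Set V} (hP : P.Nonempty)
    (hQ : Q.Nonempty) : ∃ o ∈ P, ∃ o' ∈ Q, ∀ p ∈ P, ∀ p' ∈ Q, d o o' ≤ d p p' := by
  classical
  have hex : ∃ n, ∃ p ∈ P, ∃ p' ∈ Q, d p p' = n :=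
    ⟨_, hP.some, hP.some_mem, hQ.some, hQ.some_mem, rfl⟩
  obtain ⟨o, ho, o', ho', h⟩ := Nat.find_spec hex
  refine ⟨o, ho, o', ho', fun p hp p' hp' => ?_⟩
  rw [h]
  exact Nat.find_min' hex ⟨p, hp, p', hp', rfl⟩

/-- The elements of `A_y` are moved by at most `2` by `y`. -/
theorem at_disp (h3 : Stmt_CONEGM) {G G' X S A' : Type} [Group G] [MulAction G X]
    [MulAction G S] [Group G'] [MulAction G' A'] {d : X → X → ℕ} {u L : ℕ} {Y : S → Set X}
    {η η1 C : ℕ} {d' : A' → A' → ℕ} {π : G →* G'} {q : X ⊕ S → A'}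
    (h : ConeQ G G' d u L Y η η1 C d' π q) {y : G'} {v : A'} (hv : v ∈ AT d u π q 1 y) :
    d' v (y • v) ≤ 2 := by
  obtain ⟨g, o, rfl, rfl, -, hd⟩ := hv
  have h5 := (h3 X S d u Y h.gm h.conep.one_le h.ne).2.2 2 o (g • o) (by simpa using hd)
  have h6 := h.quot.le (Sum.inl o) (Sum.inl (g • o))
  have h7 : q (Sum.inl (g • o)) = π g • q (Sum.inl o) := by
    rw [← h.quot.equiv]
    rfl
  rw [← h7]
  omega

/-- Elements of type (be) have a non-empty set `A_y`. -/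
theorem at_nonempty {G G' X S A' : Type} [Group G] [MulAction G X] [Group G'] {d : X → X → ℕ}
    {u : ℕ} {π : G →* G'} {q : X ⊕ S → A'} {y : G'} (hy : TyBe d u π 1 y) :
    (AT d u π q 1 y).Nonempty := by
  obtain ⟨g, o, h1, h2⟩ := hy
  refine ⟨q (Sum.inl o), g, o, h1, rfl, ?_, ?_⟩
  · have h3 := IsomAct.slen_mul_le (d := d) g o 1
    rw [pow_one] at h3
    have h4 : (d o (g • o) : ℝ) ≤ ((1 * u : ℕ) : ℝ) := by exact_mod_cast h2
    push_cast at h3 h4 ⊢
    linarith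
  · have : (1 + 1) * u = 1 * u + u := by ring
    omega

/-- The distance of the axis of `x` and its translate by `Y⁻¹`. -/
theorem far {V H : Type} [Group H] [MulAction H V] {d : V → V → ℕ} {δ : ℕ} (hd : IsGM d)
    (hh : Hyp d δ) (hG : IsomAct H d) {c r k : ℕ} {y : H} {o o' z z' : V}
    (hz : GpLe d c o' o z) (hz' : GpLe d c o' o z')
    (hr : d o o' + d o' ((y ^ k)⁻¹ • o) ≤ d o ((y ^ k)⁻¹ • o) + r) (ho' : d o' (y • o') ≤ 2) :
    2 * d o o' ≤ d z ((y ^ k)⁻¹ • z') + (2 * (2 * (c + 2 * k + r) + 2 * δ + 1 + 2 * k) +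
      6 * (c + 2 * k + r + δ) + 2 * k) := by
  by_cases hcase : d o o' < 2 * (c + 2 * k + r) + 2 * δ + 1 + 2 * k
  · omega
  have hY : d o' (y ^ k • o') ≤ 2 * k := by
    have h1 := hG.pow_le hd y o' k
    have h2 : k * d o' (y • o') ≤ k * 2 := Nat.mul_le_mul_left _ ho'
    omega
  -- translation by `Y`
  have e1 : d o' ((y ^ k)⁻¹ • o) = d (y ^ k • o') o := by
    rw [hd.comm, hG.inv, hd.comm]
  have e2 : d ((y ^ k)⁻¹ • o) ((y ^ k)⁻¹ • z') = d o z' := hG _ _ _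
  have e3 : d o' ((y ^ k)⁻¹ • z') = d (y ^ k • o') z' := by
    rw [hd.comm, hG.inv, hd.comm]
  have t1 := hd.tri o' (y ^ k • o') o
  have t2 := hd.tri (y ^ k • o') o' o
  have t3 := hd.tri o' (y ^ k • o') z'
  have t4 := hd.comm o' (y ^ k • o')
  have t5 := hd.comm o o'
  have t6 := hd.comm z o
  have hchain : IsChain d 4 (c + 2 * k + r) (2 * (c + 2 * k + r) + 2 * δ + 1)
      (fun i => if i = 0 then z else if i = 1 then o else if i = 2 then o' else
        if i = 3 then (y ^ k)⁻¹ • o else (y ^ k)⁻¹ • z') := by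
    constructor
    · intro i h1 h2
      have : i = 1 ∨ i = 2 ∨ i = 3 := by omega
      rcases this with rfl | rfl | rfl
      · have := hz.symm hd
        exact this.mono (by omega)
      · show GpLe d _ o o' ((y ^ k)⁻¹ • o)
        unfold GpLe
        omega
      · show GpLe d _ o' ((y ^ k)⁻¹ • o) ((y ^ k)⁻¹ • z')
        unfold GpLe at *
        omega
    · intro i h1 h2
      have : i = 1 ∨ i = 2 := by omega
      rcases this with rfl | rfl
      · show _ ≤ d o o'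
        omega
      · show _ ≤ d o' ((y ^ k)⁻¹ • o)
        omega
  have h4 := hchain.dist_ge hh hd (by omega) (by omega)
  simp only [Finset.sum_range_succ, Finset.range_zero, Finset.sum_empty] at h4
  have h5 : 0 + d z o + d o o' + d o' ((y ^ k)⁻¹ • o) + d ((y ^ k)⁻¹ • o) ((y ^ k)⁻¹ • z') ≤
      d z ((y ^ k)⁻¹ • z') + (4 - 1) * (2 * (c + 2 * k + r + δ)) := h4
  omega

end CLLS

open CLLS in
theorem CLLS (h1 : Stmt_GX) (h2 : Stmt_LT) (h3 : Stmt_CONEGM) : Stmt_CLLS := by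
  intro η η1 C
  obtain ⟨A, hA⟩ := h1
  obtain ⟨R, hR⟩ := h2 η η1 C 1 le_rfl
  refine ⟨A, fun V1 a0 L0 ha => ?_⟩
  obtain ⟨D0, hD0⟩ := hA V1 a0 L0 ha
  refine ⟨D0 + V1 + 1, fun D k hD hk => ?_⟩
  obtain ⟨Ck, hCk⟩ : ∃ Ck, Ck = 2 * (2 * (4 * dl + (59 * dl + 5) + 1 + 2 * k + R k) + 2 * dl + 1 +
    2 * k) + 6 * (4 * dl + (59 * dl + 5) + 1 + 2 * k + R k + dl) + 2 * k := ⟨_, rfl⟩
  refine ⟨Ck + 16 * dl + 10, fun CP M0 hDM hkM => ?_⟩
  obtain ⟨U, hU⟩ := hR a0 L0 CP M0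
  refine ⟨U, ?_⟩
  intro G G' X S A' _ _ _ _ _ d u L Y d' π q hLQ hLev x y hxy hx hy
  have hd := hLev.gm
  have hh := hLev.hyp
  have hG := hLev.isom
  have := hLev.ne
  have hxpos : 0 < slen d' x := by
    by_contra hcon
    push Not at hcon
    have : (V1 : ℝ) * slen d' x ≤ 0 := mul_nonpos_of_nonneg_of_nonpos (Nat.cast_nonneg _) hcon
    linarith
  have hy1 : y ≠ 1 := by
    rintro rfl
    exact hxy (by rw [mul_one, one_mul])
  -- the nearest pair
  obtain ⟨o, ho, o', ho', hmin⟩ := exists_pair d' (P := AX d' x) (Q := AT d u π q 1 y)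
    (IsomAct.Ax_nonempty DD x) (at_nonempty hy)
  have hproj : IsProj d' (AX d' x) o' o := by
    refine ⟨ho, fun p hp => ?_⟩
    rw [hd.comm o' o, hd.comm o' p]
    exact hmin p hp o' ho'
  have hqc : QConv d' (59 * dl + 5) (AX d' x) :=
    hG.ax_qconv hh hd (D := DD) (by unfold DD; omega) hxpos
  have hLT := (hU G G' X S A' d u L Y d' π q hLQ k (by omega) hkM y hy1 o o' ho'
    (fun p hp => hmin o ho p hp)).2
  have ho'2 := at_disp h3 hLQ.toConeQ ho'
  have hfar : ∀ p ∈ AX d' x, ∀ p' ∈ AX d' x, 2 * d' o o' - Ck ≤ d' p ((yW k y)⁻¹ • p') := by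
    intro p hp p' hp'
    have := far hd hh hG (hproj.gp hh hd hqc hp) (hproj.gp hh hd hqc hp') hLT ho'2
    show _ ≤ d' p ((y ^ k)⁻¹ • p')
    omega
  have hg := hD0 D k (by omega) (by omega) G' A' d' CP M0 hLev x y hxy hx _ hfar
  have hDV : (V1 : ℝ) ≤ D := by exact_mod_cast (by omega : V1 ≤ D)
  have h5 : (V1 : ℝ) * slen d' x ≤ D * slen d' x := mul_le_mul_of_nonneg_right hDV hxpos.le
  have hρ : (2 * (d' o o' : ℝ)) - Ck ≤ ((2 * d' o o' - Ck : ℕ) : ℝ) := by
    have : 2 * d' o o' ≤ (2 * d' o o' - Ck) + Ck := by omega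
    have h6 : ((2 * d' o o' : ℕ) : ℝ) ≤ (((2 * d' o o' - Ck) + Ck : ℕ) : ℝ) := by
      exact_mod_cast this
    push_cast at h6
    linarith
  have hρ0 : (0 : ℝ) ≤ ((2 * d' o o' - Ck : ℕ) : ℝ) := Nat.cast_nonneg _
  have hg1 : 1 ≤ slen d' (gW D k x y) := by linarith
  have hD1 : (1 : ℝ) ≤ D := by exact_mod_cast (by omega : 1 ≤ D)
  have hxD : slen d' x ≤ D * slen d' x := le_mul_of_one_le_left hxpos.le hD1
  refine ⟨hxy, by simpa using hg1, o, ?_, ?_⟩
  · have h6 := hG.ax_dist_le hh hd (D := DD) (by unfold DD; omega) hxpos (Commute.refl x) ho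
    have h7 : ((Ck + 16 * dl + 10 : ℕ) : ℝ) * (slen d' (gW D k x y) + 1) =
        Ck * (slen d' (gW D k x y) + 1) + 16 * dl * (slen d' (gW D k x y) + 1) +
          10 * (slen d' (gW D k x y) + 1) := by
      push_cast
      ring
    rw [h7]
    have h8 : (0 : ℝ) ≤ Ck * (slen d' (gW D k x y) + 1) := by positivity
    have h9 : 16 * (dl : ℝ) ≤ 16 * dl * (slen d' (gW D k x y) + 1) := by
      apply le_mul_of_one_le_right (by positivity)
      linarith
    linarith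
  · have h6 : d' o (y • o) ≤ 2 * d' o o' + 2 := by
      have := hG.dist_base hd y o o'
      omega
    have h6' : (d' o (y • o) : ℝ) ≤ 2 * d' o o' + 2 := by exact_mod_cast h6
    have h7 : ((Ck + 16 * dl + 10 : ℕ) : ℝ) * (slen d' (gW D k x y) + 1) =
        Ck * (slen d' (gW D k x y) + 1) + 16 * dl * (slen d' (gW D k x y) + 1) +
          10 * (slen d' (gW D k x y) + 1) := by
      push_cast
      ring
    rw [h7]
    have h8 : (Ck : ℝ) ≤ Ck * (slen d' (gW D k x y) + 1) := by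
      apply le_mul_of_one_le_right (by positivity)
      linarith
    have h9 : (0 : ℝ) ≤ 16 * dl * (slen d' (gW D k x y) + 1) := by positivity
    linarith

end Pool.Agent.Olsh
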