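import Pool.Agent.Olsh.StmtsP

/-!
# MP_3cdb71_al: 7.1, `x` small and `y` long
-/

set_option autoImplicit false

namespace Pool.Agent.Olsh

namespace CLSL

variable {V G : Type} [Group G] [MulAction G V] {d : V → V → ℕ} {δ : ℕ}

/-- A nearest pair of two nonempty sets. -/
theorem exists_pair {S T : Set V} (hS : S.Nonempty) (hT : T.Nonempty) :
    ∃ s ∈ S, ∃ t ∈ T, ∀ s' ∈ S, ∀ t' ∈ T, d s t ≤ d s' t' := by
  classical
  have hex : ∃ n, ∃ s ∈ S, ∃ t ∈ T, d s t = n := ⟨_, hS.some, hS.some_mem, hT.some, hT.some_mem, rfl⟩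
  obtain ⟨s, hs, t, ht, hst⟩ := Nat.find_spec hex
  refine ⟨s, hs, t, ht, fun s' hs' t' ht' => ?_⟩
  rw [hst]
  exact Nat.find_min' hex ⟨s', hs', t', ht', rfl⟩

/-- The distance of `Z` and `P Z`, for `P` moving `p` little and `(z, p)` a nearest pair. -/
theorem far (hG : IsomAct G d) (hh : Hyp d δ) (hd : IsGM d) {η r m b : ℕ} {Z : Set V}
    (hZ : QConv d η Z) {p z : V} {P : G} (hz : IsProj d Z p z)
    (hP : d p (P • p) ≤ m) (hr : d z p + d p (P • z) ≤ d z (P • z) + r)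
    (hb : b = 2 * (4 * δ + η + 1 + m + r) + 2 * δ + 1)
    (hfar : b + m ≤ d p z) {z1 z2 : V} (h1 : z1 ∈ Z) (h2 : z2 ∈ Z) :
    2 * d p z ≤ d z1 (P • z2) + (m + 6 * (4 * δ + η + 1 + m + r + δ)) := by
  set a : ℕ := 4 * δ + η + 1 + m + r with ha
  let x : ℕ → V := fun i => match i with
    | 0 => z1
    | 1 => z
    | 2 => p
    | 3 => P • z
    | _ => P • z2
  have g1 := hz.gp hh hd hZ h1
  have g2 := hz.gp hh hd hZ h2
  have i1 := hG P p z
  have i2 := hG P z z2
  have i3 := hG P p z2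
  have t1 := hd.tri p (P • p) (P • z)
  have t2 := hd.tri (P • p) p (P • z2)
  have t3 := hd.tri (P • p) p (P • z)
  have c1 := hd.comm (P • p) p
  have c2 := hd.comm z p
  have c3 := hd.comm z1 z
  have c4 := hd.comm z1 p
  have hch : IsChain d 4 a b x := by
    constructor
    · intro i hi1 hi2
      have hi : i = 1 ∨ i = 2 ∨ i = 3 := by omega
      rcases hi with rfl | rfl | rfl
      · show d z1 z + d z p ≤ d z1 p + 2 * a
        unfold GpLe at g1
        omega
      · show d z p + d p (P • z) ≤ d z (P • z) + 2 * a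
        omega
      · show d p (P • z) + d (P • z) (P • z2) ≤ d p (P • z2) + 2 * a
        unfold GpLe at g2
        omega
    · intro i hi1 hi2
      have hi : i = 1 ∨ i = 2 := by omega
      rcases hi with rfl | rfl
      · show b ≤ d z p
        omega
      · show b ≤ d p (P • z)
        omega
  have h3 := hch.dist_ge hh hd (by omega) (by norm_num)
  rw [Finset.sum_range_succ, Finset.sum_range_succ, Finset.sum_range_succ,
    Finset.sum_range_one] at h3
  have h4 : d z1 z + d z p + d p (P • z) + d (P • z) (P • z2) ≤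
      d z1 (P • z2) + (4 - 1) * (2 * (a + δ)) := h3
  omega

end CLSL

open CLSL in
theorem CLSL (h1 : Stmt_GY) (h2 : Stmt_LT) (h3 : Stmt_CONEGM) (_h4 : Stmt_QGM) :
    Stmt_CLSL := by
  intro η η1 C
  obtain ⟨A, hA⟩ := h1
  obtain ⟨R, hR⟩ := h2 η η1 C 1 le_rfl
  refine ⟨A, ?_⟩
  intro V1 a0 L0 ha0
  obtain ⟨D0, hD0⟩ := hA V1 a0 L0 ha0
  refine ⟨D0 + V1 + 1, ?_⟩
  intro D k hD hk
  -- constants
  obtain ⟨b, hb⟩ : ∃ b : ℕ, b = 2 * (4 * dl + (59 * dl + 5) + 1 + 2 * D + R D) + 2 * dl + 1 :=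
    ⟨_, rfl⟩
  obtain ⟨K, hK⟩ : ∃ K : ℕ, K = 2 * D + 6 * (4 * dl + (59 * dl + 5) + 1 + 2 * D + R D + dl) +
    2 * (b + 2 * D) := ⟨_, rfl⟩
  refine ⟨16 * dl + K + 3, ?_⟩
  intro CP M0 hDM hkM
  obtain ⟨U, hU⟩ := hR a0 L0 CP M0
  refine ⟨U, ?_⟩
  intro G G' X S A' _ _ _ _ _ d u L Y d' π q hLQ hLev x y hxy hx hy
  have hx1 : x ≠ 1 := by
    rintro rfl
    apply hxy
    rw [one_mul, mul_one]
  have hV1 : V1 ≠ 0 := by
    rintro rfl
    norm_num at hy
  have hV1' : (1 : ℝ) ≤ V1 := by exact_mod_cast Nat.one_le_iff_ne_zero.mpr hV1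
  have hy0 : 0 < slen d' y := by
    by_contra hcon
    push Not at hcon
    nlinarith
  have hne : Nonempty A' := hLev.ne
  have hGY := fun ρ => hD0 D k (by omega) (by omega) G' A' d' CP M0 hLev x y hxy hy ρ
  -- the nearest pair
  have hDD : 37 * dl + 5 ≤ DD := by unfold DD; omega
  have hQ : QConv d' (59 * dl + 5) (AX d' y) :=
    hLev.isom.ax_qconv hLev.hyp hLev.gm hDD hy0
  have hAXne : (AX d' y).Nonempty := IsomAct.Ax_nonempty _ _
  have hcone := h3 X S d u Y hLQ.conep.gm hLQ.conep.one_le hLQ.conep.ne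
  have hmove : ∀ v ∈ AT d u π q 1 x, d' v (x • v) ≤ 2 := by
    rintro v ⟨g, o, hg, hqo, -, hdo⟩
    have e1 : x • v = q (Sum.inl (g • o)) := by
      rw [← hqo, ← hg, ← hLQ.quot.equiv]
      rfl
    rw [e1, ← hqo]
    exact (hLQ.quot.le _ _).trans (hcone.2.2 2 o (g • o) hdo)
  have hATne : (AT d u π q 1 x).Nonempty := by
    obtain ⟨g, o, hg, ho⟩ := hx
    refine ⟨q (Sum.inl o), g, o, hg, rfl, ?_, ?_⟩
    · have := IsomAct.slen_le (d := d) g o 1 le_rfl
      rw [pow_one] at this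
      have h5 : ((d o (g • o) : ℕ) : ℝ) ≤ ((1 * u : ℕ) : ℝ) := by exact_mod_cast ho
      push_cast at h5 this ⊢
      linarith
    · omega
  obtain ⟨ox, hox, oy, hoy, hmin⟩ := exists_pair (d := d') hATne hAXne
  have hproj : IsProj d' (AX d' y) ox oy := ⟨hoy, fun y' hy' => hmin ox hox y' hy'⟩
  have hLT := hU G G' X S A' d u L Y d' π q hLQ D (by omega) hDM x hx1 oy ox hox (by
    intro o' ho'
    have h5 := hmin o' ho' oy hoy
    have h6 := hLev.gm.comm ox oy
    have h7 := hLev.gm.comm o' oy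
    omega)
  have hPm : d' ox (x ^ D • ox) ≤ 2 * D := by
    have h5 := hLev.isom.pow_le hLev.gm x ox D
    have h6 := hmove ox hox
    calc d' ox (x ^ D • ox) ≤ D * d' ox (x • ox) := h5
      _ ≤ D * 2 := Nat.mul_le_mul_left _ h6
      _ = 2 * D := by ring
  -- the two estimates
  have e0 := hGY 0 (fun p _ q _ => Nat.zero_le _)
  have e1 := hGY (2 * d' ox oy - K) (by
    intro p hp p' hp'
    rcases Nat.lt_or_ge (d' ox oy) (b + 2 * D) with h5 | h5
    · omega
    · have h6 := far hLev.isom hLev.hyp hLev.gm hQ hproj hPm hLT.1 hb h5 hp hp'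
      have h7 : d' p (pW D x • p') = d' p (x ^ D • p') := rfl
      rw [h7]
      omega)
  have hk1 : (V1 : ℝ) + 1 ≤ k := by
    have : V1 + 1 ≤ k := by omega
    exact_mod_cast this
  have hg1 : 1 ≤ slen d' (gW D k x y) := by
    have h5 : (V1 : ℝ) * slen d' y ≤ k * slen d' y := by nlinarith
    push_cast at e0
    nlinarith
  have hg2 : slen d' y ≤ slen d' (gW D k x y) := by
    have h5 : slen d' y ≤ k * slen d' y := by nlinarith
    push_cast at e0
    nlinarith
  have hD1 : 4 * (d' ox oy : ℝ) ≤ slen d' (gW D k x y) + 2 * K := by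
    have h5 : (2 * (d' ox oy : ℝ)) ≤ ((2 * d' ox oy - K : ℕ) : ℝ) + K := by
      have h6 : 2 * d' ox oy ≤ (2 * d' ox oy - K) + K := by omega
      exact_mod_cast h6
    have h7 : (0 : ℝ) ≤ 19 / 10 * (k * slen d' y) := by positivity
    nlinarith
  have hdl : (0 : ℝ) ≤ dl := Nat.cast_nonneg _
  have hK0 : (0 : ℝ) ≤ K := Nat.cast_nonneg _
  refine ⟨hxy, by push_cast; linarith, oy, ?_, ?_⟩
  · have h5 : d' oy (x • oy) ≤ 2 * d' ox oy + 2 := by
      have t1 := hLev.gm.tri oy ox (x • oy)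
      have t2 := hLev.gm.tri ox (x • ox) (x • oy)
      have t3 := hLev.isom x ox oy
      have t4 := hmove ox hox
      have t5 := hLev.gm.comm ox oy
      omega
    have h6 : (d' oy (x • oy) : ℝ) ≤ 2 * d' ox oy + 2 := by exact_mod_cast h5
    push_cast
    nlinarith
  · have h5 := hLev.isom.ax_dist_le hLev.hyp hLev.gm (D := DD) (by omega) hy0 (Commute.refl y) hoy
    push_cast
    nlinarith

end Pool.Agent.Olsh
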