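import Pool.Agent.Olsh.StmtsP

/-!
# MP_3cdb71_al, module CLSS (7.1 of `H92.md`): both elements small
-/

set_option autoImplicit false

open Filter Topology

namespace Pool.Agent.Olsh

namespace CLSS

/-! ### Periodic sequences -/

/-- The periodic continuation of a path. -/
def per {G V : Type} [Group G] [MulAction G V] (N : ℕ) (g : G) (w : ℕ → V) (i : ℕ) : V :=
  g ^ (i / N) • w (i % N)

theorem per_eq {G V : Type} [Group G] [MulAction G V] {N : ℕ} (g : G) (w : ℕ → V) (j r : ℕ)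
    (hr : r < N) : per N g w (N * j + r) = g ^ j • w r := by
  unfold per
  have h1 : (N * j + r) / N = j := by
    rw [Nat.mul_add_div (by omega), Nat.div_eq_of_lt hr, Nat.add_zero]
  have h2 : (N * j + r) % N = r := by
    rw [Nat.mul_add_mod, Nat.mod_eq_of_lt hr]
  rw [h1, h2]

theorem per_spec {G V : Type} [Group G] [MulAction G V] {N : ℕ} (hN : 2 ≤ N) (g : G) (w : ℕ → V)
    (h0 : w N = g • w 0) (h1 : w (N + 1) = g • w 1) (i : ℕ) :
    ∃ j r, r < N ∧ per N g w i = g ^ j • w r ∧ per N g w (i + 1) = g ^ j • w (r + 1) ∧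
      per N g w (i + 2) = g ^ j • w (r + 2) := by
  have hi : N * (i / N) + i % N = i := Nat.div_add_mod i N
  have hr : i % N < N := Nat.mod_lt _ (by omega)
  generalize i / N = j at hi
  generalize i % N = r at hi hr
  refine ⟨j, r, hr, ?_, ?_, ?_⟩
  · rw [← hi, per_eq g w j r hr]
  · rcases Nat.lt_or_ge (r + 1) N with h | h
    · have e : i + 1 = N * j + (r + 1) := by omega
      rw [e, per_eq g w j (r + 1) h]
    · have e1 : r + 1 = N := by omega
      have e : i + 1 = N * (j + 1) + 0 := by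
        rw [Nat.mul_add]
        omega
      rw [e, per_eq g w (j + 1) 0 (by omega), e1, h0, pow_succ, mul_smul]
  · rcases Nat.lt_or_ge (r + 2) N with h | h
    · have e : i + 2 = N * j + (r + 2) := by omega
      rw [e, per_eq g w j (r + 2) h]
    · rcases Nat.lt_or_ge (r + 1) N with h' | h'
      · have e1 : r + 2 = N := by omega
        have e : i + 2 = N * (j + 1) + 0 := by
          rw [Nat.mul_add]
          omega
        rw [e, per_eq g w (j + 1) 0 (by omega), e1, h0, pow_succ, mul_smul]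
      · have e1 : r + 2 = N + 1 := by omega
        have e : i + 2 = N * (j + 1) + 1 := by
          rw [Nat.mul_add]
          omega
        rw [e, per_eq g w (j + 1) 1 (by omega), e1, h1, pow_succ, mul_smul]

/-- A linear lower bound for an orbit bounds the stable length. -/
theorem slen_ge_of_orbit {V : Type} {d : V → V → ℕ} {G : Type} [Group G] [MulAction G V]
    (hG : IsomAct G d) (hd : IsGM d) (g : G) (v : V) (c : ℝ)
    (h : ∀ n : ℕ, 1 ≤ n → n * c ≤ (d v (g ^ n • v) : ℝ)) : c ≤ slen d g := by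
  apply le_of_tendsto_of_tendsto tendsto_const_nhds (hG.tendsto_slen hd g v)
  filter_upwards [eventually_ge_atTop 1] with n hn
  have h4 : (0 : ℝ) < n := by exact_mod_cast hn
  rw [le_div_iff₀ h4]
  have := h n hn
  linarith

/-! ### Case 1: the sets are far apart -/

section far

variable {V : Type} {d : V → V → ℕ} {δ : ℕ} {G : Type} [Group G] [MulAction G V]

theorem gp_smul (hG : IsomAct G d) {a : ℕ} (h : G) {x y z : V} (H : GpLe d a x y z) :
    GpLe d a (h • x) (h • y) (h • z) := by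
  unfold GpLe at *
  rw [hG, hG, hG]
  exact H

/-- A Gromov product after moving one end point. -/
theorem gp_move (hd : IsGM d) {a e r : ℕ} {x x' y z : V} (hx : d x x' ≤ e)
    (H : d x y + d y z ≤ d x z + r) (ha : 2 * e + r ≤ 2 * a) : GpLe d a x' y z := by
  unfold GpLe
  have h1 := hd.tri x' x y
  have h2 := hd.tri x x' z
  have h3 := hd.comm x x'
  omega

theorem far (hh : Hyp d δ) (hd : IsGM d) (hG : IsomAct G d) (P Y : G) (ox oy : V) (e r : ℕ)
    (hP : d ox (P • ox) ≤ e) (hP' : d ox (P⁻¹ • ox) ≤ e)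
    (hY : d oy (Y • oy) ≤ e) (hY' : d oy (Y⁻¹ • oy) ≤ e)
    (lP : d oy ox + d ox (P • oy) ≤ d oy (P • oy) + r)
    (lP' : d oy ox + d ox (P⁻¹ • oy) ≤ d oy (P⁻¹ • oy) + r)
    (lY : d ox oy + d oy (Y • ox) ≤ d ox (Y • ox) + r)
    (lY' : d ox oy + d oy (Y⁻¹ • ox) ≤ d ox (Y⁻¹ • ox) + r)
    (hbig : e + 2 * (e + r + δ) + 1 ≤ d ox oy) :
    4 * (d ox oy : ℝ) ≤ slen d (P * Y⁻¹ * P⁻¹ * Y) + 4 * (e + 2 * (e + r + δ)) := by
  obtain ⟨g, hg⟩ : ∃ g : G, g = P * Y⁻¹ * P⁻¹ * Y := ⟨_, rfl⟩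
  rw [← hg]
  let w : ℕ → V := fun i => match i with
    | 0 => ox
    | 1 => P • oy
    | 2 => (P * Y⁻¹) • ox
    | 3 => (P * Y⁻¹ * P⁻¹) • oy
    | 4 => g • ox
    | _ => (g * P) • oy
  have w4 : w 4 = g • w 0 := rfl
  have w5 : w (4 + 1) = g • w 1 := mul_smul g P oy
  have c0 := hd.comm ox oy
  -- the Gromov products
  have g1 : GpLe d (e + r) (P⁻¹ • ox) oy (Y⁻¹ • ox) := gp_move hd hP' lY' (by omega)
  have g2 : GpLe d (e + r) (Y • oy) ox (P⁻¹ • oy) := gp_move hd hY lP' (by omega)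
  have g3 : GpLe d (e + r) (P • ox) oy (Y • ox) := gp_move hd hP lY (by omega)
  have g4 : GpLe d (e + r) (Y⁻¹ • oy) ox (P • oy) := gp_move hd hY' lP (by omega)
  have hgp : ∀ i, i < 4 → GpLe d (e + r) (w i) (w (i + 1)) (w (i + 2)) := by
    intro i hi
    interval_cases i
    · have := gp_smul hG P g1
      rw [smul_inv_smul, smul_smul] at this
      exact this
    · have := gp_smul hG (P * Y⁻¹) g2
      rw [smul_smul, inv_mul_cancel_right, smul_smul] at this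
      exact this
    · have := gp_smul hG (P * Y⁻¹ * P⁻¹) g3
      rw [smul_smul, inv_mul_cancel_right, smul_smul, ← hg] at this
      exact this
    · have := gp_smul hG g g4
      have e1 : g * Y⁻¹ = P * Y⁻¹ * P⁻¹ := by rw [hg, mul_inv_cancel_right]
      rw [smul_smul, e1, smul_smul] at this
      exact this
  -- the lengths
  have hlen : ∀ i, i < 4 → d ox oy ≤ d (w i) (w (i + 1)) + e := by
    intro i hi
    interval_cases i
    · show d ox oy ≤ d ox (P • oy) + e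
      have h1 := hG P⁻¹ ox (P • oy)
      rw [inv_smul_smul] at h1
      have h2 := hd.tri ox (P⁻¹ • ox) oy
      omega
    · show d ox oy ≤ d (P • oy) ((P * Y⁻¹) • ox) + e
      rw [mul_smul, hG]
      have h1 := hG Y oy (Y⁻¹ • ox)
      rw [smul_inv_smul] at h1
      have h2 := hd.tri oy (Y • oy) ox
      omega
    · show d ox oy ≤ d ((P * Y⁻¹) • ox) ((P * Y⁻¹ * P⁻¹) • oy) + e
      rw [mul_smul (P * Y⁻¹) P⁻¹ oy, hG]
      have h1 := hG P ox (P⁻¹ • oy)
      rw [smul_inv_smul] at h1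
      have h2 := hd.tri ox (P • ox) oy
      omega
    · show d ox oy ≤ d ((P * Y⁻¹ * P⁻¹) • oy) (g • ox) + e
      rw [hg, mul_smul (P * Y⁻¹ * P⁻¹) Y ox, hG]
      have h1 := hG Y⁻¹ oy (Y • ox)
      rw [inv_smul_smul] at h1
      have h2 := hd.tri oy (Y⁻¹ • oy) ox
      omega
  -- the periodic chain
  have hlen' : ∀ i, d ox oy ≤ d (per 4 g w i) (per 4 g w (i + 1)) + e := by
    intro i
    obtain ⟨j, t, ht, e1, e2, -⟩ := per_spec (N := 4) (by omega) g w w4 w5 i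
    rw [e1, e2, hG]
    exact hlen t ht
  have hchain : ∀ n, IsChain d n (e + r) (d ox oy - e) (per 4 g w) := by
    intro n
    refine ⟨fun i h1 _ => ?_, fun i _ _ => ?_⟩
    · obtain ⟨j, t, ht, e1, e2, e3⟩ := per_spec (N := 4) (by omega) g w w4 w5 (i - 1)
      have e4 : i - 1 + 1 = i := by omega
      have e5 : i - 1 + 2 = i + 1 := by omega
      rw [e4] at e2
      rw [e5] at e3
      rw [e1, e2, e3]
      exact gp_smul hG (g ^ j) (hgp t ht)
    · have := hlen' i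
      omega
  have horb : ∀ n : ℕ, 1 ≤ n → n * (4 * d ox oy) ≤
      d ox (g ^ n • ox) + n * (4 * (e + 2 * (e + r + δ))) := by
    intro n hn
    have h1 := (hchain (4 * n)).dist_ge hh hd (by omega) (by omega)
    have h2 : (4 * n) * (d ox oy - e) ≤
        ∑ i ∈ Finset.range (4 * n), d (per 4 g w i) (per 4 g w (i + 1)) := by
      have : ∀ i ∈ Finset.range (4 * n), d ox oy - e ≤ d (per 4 g w i) (per 4 g w (i + 1)) := by
        intro i _
        have := hlen' i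
        omega
      have h3 := Finset.card_nsmul_le_sum _ _ _ this
      rw [Finset.card_range, smul_eq_mul] at h3
      exact h3
    have e0 : per 4 g w 0 = ox := by
      have := per_eq (N := 4) g w 0 0 (by omega)
      rw [Nat.mul_zero, Nat.zero_add, pow_zero, one_smul] at this
      exact this
    have en : per 4 g w (4 * n) = g ^ n • ox := by
      have := per_eq (N := 4) g w n 0 (by omega)
      exact this
    rw [e0, en] at h1
    have h4 : (4 * n - 1) * (2 * (e + r + δ)) ≤ (4 * n) * (2 * (e + r + δ)) :=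
      Nat.mul_le_mul_right _ (by omega)
    have h5 : (4 * n) * (d ox oy - e) + (4 * n) * e = n * (4 * d ox oy) := by
      have : d ox oy - e + e = d ox oy := by omega
      calc (4 * n) * (d ox oy - e) + (4 * n) * e = (4 * n) * (d ox oy - e + e) := by ring
        _ = n * (4 * d ox oy) := by rw [this]; ring
    have h6 : (4 * n) * (2 * (e + r + δ)) + (4 * n) * e = n * (4 * (e + 2 * (e + r + δ))) := by
      ring
    omega
  have hfin := slen_ge_of_orbit hG hd g ox (4 * (d ox oy : ℝ) - 4 * (e + 2 * (e + r + δ))) (by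
    intro n hn
    have h1 := horb n hn
    have h2 : (n : ℝ) * (4 * (d ox oy : ℝ)) ≤
      (d ox (g ^ n • ox) : ℝ) + n * (4 * (e + 2 * (e + r + δ))) := by exact_mod_cast h1
    linarith)
  linarith

end far

/-! ### Case 2: a big apex -/

section big

variable {A : Type} {d : A → A → ℕ} {ap : Set A} {c : A → A → A → ℕ} {T0 : ℕ}
  {G : Type} [Group G] [MulAction G A]

/-- Angles are preserved by the action. -/
theorem ang_smul (hI : IsomAct G d) (hc : ∀ (g : G), ∀ s ∈ ap, ∀ y y', d y s = 1 → d y' s = 1 →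
      c (g • s) (g • y) (g • y') = c s y y') (g : G) {s : A} (hs : s ∈ ap) (a b : A) :
    ang d c (g • s) (g • a) (g • b) = ang d c s a b := by
  have hN : ∀ (g : G) {s a y : A}, y ∈ Nb d s a → g • y ∈ Nb d (g • s) (g • a) := by
    intro g s a y hy
    obtain ⟨h1, h2⟩ := hy
    refine ⟨?_, ?_⟩
    · rw [hI]; exact h1
    · rw [hI, hI]; exact h2
  unfold ang
  congr 1
  ext n
  constructor
  · rintro ⟨y, hy, y', hy', rfl⟩
    have h1 := hN g⁻¹ hy
    have h2 := hN g⁻¹ hy'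
    rw [inv_smul_smul, inv_smul_smul] at h1 h2
    refine ⟨g⁻¹ • y, h1, g⁻¹ • y', h2, ?_⟩
    have h3 := hc g s hs (g⁻¹ • y) (g⁻¹ • y') h1.1 h2.1
    rw [smul_inv_smul, smul_inv_smul] at h3
    exact h3
  · rintro ⟨y, hy, y', hy', rfl⟩
    exact ⟨g • y, hN g hy, g • y', hN g hy', (hc g s hs y y' hy.1 hy'.1).symm⟩

/-- A periodic exact chain bounds the stable length. -/
theorem slen_of_chain (hPSA : Stmt_PSA) (hCH : Stmt_CHAIN) (hPS : IsPS d ap c T0)
    (hG : IsomAct G d) (hap : ∀ (g : G), ∀ s ∈ ap, g • s ∈ ap)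
    (hc : ∀ (g : G), ∀ s ∈ ap, ∀ y y', d y s = 1 → d y' s = 1 →
      c (g • s) (g • y) (g • y') = c s y y') {N : ℕ} (hN : 2 ≤ N) (g : G) (w : ℕ → A)
    (h0 : w N = g • w 0) (h1 : w (N + 1) = g • w 1)
    (hw : ∀ r, r < N → w (r + 1) ∈ ap ∧ 2 * T0 < ang d c (w (r + 1)) (w r) (w (r + 2))) :
    (N : ℝ) ≤ slen d g := by
  have hd := hPS.gm
  have hp : ∀ i, per N g w (i + 1) ∈ ap ∧
      2 * T0 < ang d c (per N g w (i + 1)) (per N g w i) (per N g w (i + 2)) := by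
    intro i
    obtain ⟨j, r, hr, e1, e2, e3⟩ := per_spec hN g w h0 h1 i
    obtain ⟨a1, a2⟩ := hw r hr
    rw [e1, e2, e3, ang_smul hG hc (g ^ j) a1]
    exact ⟨hap _ _ a1, a2⟩
  have hstep : ∀ i, 1 ≤ d (per N g w i) (per N g w (i + 1)) := by
    intro i
    obtain ⟨a1, a2⟩ := hp i
    obtain ⟨-, -, -, -, -, -, -, h8, -⟩ := hPSA A d ap c T0 hPS _ a1
    obtain ⟨-, h9, -⟩ := h8 (per N g w i) (per N g w (i + 2)) (by omega)
    by_contra hcon
    exact h9 (hd.eq_of_zero (by omega))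
  apply slen_ge_of_orbit hG hd g (w 0) N
  intro n hn
  have hNn : 1 ≤ N * n := Nat.one_le_iff_ne_zero.2 (Nat.mul_ne_zero (by omega) (by omega))
  obtain ⟨-, hsum⟩ := hCH A d ap c T0 hPS (N * n - 1) (per N g w) (fun i _ => hp i)
  have e : N * n - 1 + 1 = N * n := by omega
  rw [e] at hsum
  have h3 := Finset.card_nsmul_le_sum (Finset.range (N * n))
    (fun i => d (per N g w i) (per N g w (i + 1))) 1 (fun i _ => hstep i)
  rw [Finset.card_range, smul_eq_mul, mul_one, ← hsum] at h3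
  have e0 : per N g w 0 = w 0 := by
    have := per_eq (N := N) g w 0 0 (by omega)
    rw [Nat.mul_zero, Nat.zero_add, pow_zero, one_smul] at this
    exact this
  have en : per N g w (N * n) = g ^ n • w 0 := by
    have := per_eq (N := N) g w n 0 (by omega)
    exact this
  rw [e0, en] at h3
  have h4 : ((N * n : ℕ) : ℝ) ≤ (d (w 0) (g ^ n • w 0) : ℝ) := by exact_mod_cast h3
  push_cast at h4
  linarith

/-- The first apex whose angle is large compared with its distance. -/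
theorem side (hPSA : Stmt_PSA) (hPS : IsPS d ap c T0) (hG : IsomAct G d)
    (hap : ∀ (g : G), ∀ s ∈ ap, g • s ∈ ap)
    (hc : ∀ (g : G), ∀ s ∈ ap, ∀ y y', d y s = 1 → d y' s = 1 →
      c (g • s) (g • y) (g • y') = c s y y')
    {ox oy : A} (hox : ox ∉ ap) (Th W : ℕ) (hTh : 8 * W + 100 * T0 + 100 ≤ Th)
    (hs : ∃ s ∈ ap, 8 ^ d ox s * Th < ang d c s ox oy) :
    ∃ sx ∈ ap, 8 ^ d ox sx * Th < ang d c sx ox oy ∧
      (∀ t ∈ ap, d ox t < d ox sx → ang d c t ox oy ≤ 8 ^ d ox t * Th) ∧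
      ∀ Q : G, (∀ s ∈ ap, ang d c s ox (Q • ox) ≤ W) →
        4 * ang d c sx ox (Q • sx) ≤ ang d c sx ox oy := by
  classical
  have hex : ∃ n, ∃ s ∈ ap, 8 ^ d ox s * Th < ang d c s ox oy ∧ d ox s = n := by
    obtain ⟨s, h1, h2⟩ := hs
    exact ⟨_, s, h1, h2, rfl⟩
  obtain ⟨sx, hsx, hbig, hn⟩ := Nat.find_spec hex
  have hmin : ∀ t ∈ ap, d ox t < d ox sx → ang d c t ox oy ≤ 8 ^ d ox t * Th := by
    intro t ht hlt
    by_contra hcon
    push Not at hcon
    rw [hn] at hlt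
    exact Nat.find_min hex hlt ⟨t, ht, hcon, rfl⟩
  refine ⟨sx, hsx, hbig, hmin, ?_⟩
  intro Q hQ
  obtain ⟨-, -, -, q4, q5, -, -, q8, -, -, q11⟩ := hPSA A d ap c T0 hPS sx hsx
  have hTle : Th ≤ 8 ^ d ox sx * Th := Nat.le_mul_of_pos_left _ (by positivity)
  -- the first part
  have hne : Q • ox ≠ sx := by
    intro h
    apply hox
    have : ox = Q⁻¹ • sx := by rw [← h, inv_smul_smul]
    rw [this]
    exact hap _ _ hsx
  have t1 := q5 ox (Q • ox) (Q • sx) hne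
  have t2 := hQ sx hsx
  -- the second part
  have ht : Q⁻¹ • sx ∈ ap := hap _ _ hsx
  have e1 : ang d c sx (Q • ox) (Q • sx) = ang d c (Q⁻¹ • sx) ox sx := by
    have := ang_smul hG hc Q ht ox sx
    rw [smul_inv_smul] at this
    exact this
  obtain ⟨-, -, -, p4, -, -, -, p8, p9, -, -⟩ := hPSA A d ap c T0 hPS (Q⁻¹ • sx) ht
  have t3 : 8 * ang d c (Q⁻¹ • sx) ox sx ≤ ang d c sx ox oy := by
    by_cases hsm : ang d c (Q⁻¹ • sx) ox sx ≤ 2 * T0
    · omega
    · obtain ⟨a1, -, a3⟩ := p8 ox sx (by omega)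
      have a4 : d (Q⁻¹ • sx) sx ≠ 0 := fun h => a3 (hPS.gm.eq_of_zero h).symm
      have a5 : d ox (Q⁻¹ • sx) < d ox sx := by omega
      have a6 := q11 ox (Q⁻¹ • sx) a5
      have a7 := q5 ox (Q⁻¹ • sx) oy (fun h => a3 h.symm)
      have a8 := q4 (Q⁻¹ • sx) oy
      obtain ⟨-, a9, -⟩ := p9 sx hsx a3 oy (by omega)
      have b1 := a9 ox
      have b2 := p4 oy ox
      have b3 := p4 sx ox
      have b4 := hmin _ ht a5
      have b5 : 8 * (8 ^ d ox (Q⁻¹ • sx) * Th) ≤ 8 ^ d ox sx * Th := by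
        calc 8 * (8 ^ d ox (Q⁻¹ • sx) * Th) = 8 ^ (d ox (Q⁻¹ • sx) + 1) * Th := by ring
          _ ≤ 8 ^ d ox sx * Th :=
            Nat.mul_le_mul_right _ (Nat.pow_le_pow_right (by norm_num) a5)
      omega
  omega

/-- The case of one apex. -/
theorem one (hPSA : Stmt_PSA) (hCH : Stmt_CHAIN) (hPS : IsPS d ap c T0)
    (hG : IsomAct G d) (hap : ∀ (g : G), ∀ s ∈ ap, g • s ∈ ap)
    (hc : ∀ (g : G), ∀ s ∈ ap, ∀ y y', d y s = 1 → d y' s = 1 →
      c (g • s) (g • y) (g • y') = c s y y') (P Y : G) {s : A} (hs : s ∈ ap)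
    (h1 : 2 * T0 < ang d c s (P⁻¹ • s) (Y⁻¹ • s)) (h2 : 2 * T0 < ang d c s (Y • s) (P⁻¹ • s))
    (h3 : 2 * T0 < ang d c s (P • s) (Y • s)) (h4 : 2 * T0 < ang d c s (Y⁻¹ • s) (P • s)) :
    (4 : ℝ) ≤ slen d (P * Y⁻¹ * P⁻¹ * Y) := by
  obtain ⟨g, hg⟩ : ∃ g : G, g = P * Y⁻¹ * P⁻¹ * Y := ⟨_, rfl⟩
  rw [← hg]
  let w : ℕ → A := fun i => match i with
    | 0 => s
    | 1 => P • s
    | 2 => (P * Y⁻¹) • s
    | 3 => (P * Y⁻¹ * P⁻¹) • s
    | 4 => g • s
    | _ => (g * P) • s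
  have w4 : w 4 = g • w 0 := rfl
  have w5 : w (4 + 1) = g • w 1 := mul_smul g P s
  have key := slen_of_chain hPSA hCH hPS hG hap hc (N := 4) (by omega) g w w4 w5 (by
    intro r hr
    have e1 : s = P • (P⁻¹ • s) := (smul_inv_smul P s).symm
    have e2 : P • s = (P * Y⁻¹) • (Y • s) := by rw [smul_smul, inv_mul_cancel_right]
    have e3 : (P * Y⁻¹) • s = (P * Y⁻¹ * P⁻¹) • (P • s) := by
      rw [smul_smul, inv_mul_cancel_right]
    have e4 : (P * Y⁻¹ * P⁻¹) • s = g • (Y⁻¹ • s) := by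
      rw [smul_smul, hg, mul_inv_cancel_right]
    interval_cases r
    · refine ⟨hap P s hs, ?_⟩
      show 2 * T0 < ang d c (P • s) s ((P * Y⁻¹) • s)
      have := ang_smul hG hc P hs (P⁻¹ • s) (Y⁻¹ • s)
      rw [← e1, smul_smul] at this
      rw [this]
      exact h1
    · refine ⟨hap _ s hs, ?_⟩
      show 2 * T0 < ang d c ((P * Y⁻¹) • s) (P • s) ((P * Y⁻¹ * P⁻¹) • s)
      have := ang_smul hG hc (P * Y⁻¹) hs (Y • s) (P⁻¹ • s)
      rw [← e2, smul_smul (P * Y⁻¹)] at this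
      rw [this]
      exact h2
    · refine ⟨hap _ s hs, ?_⟩
      show 2 * T0 < ang d c ((P * Y⁻¹ * P⁻¹) • s) ((P * Y⁻¹) • s) (g • s)
      have := ang_smul hG hc (P * Y⁻¹ * P⁻¹) hs (P • s) (Y • s)
      rw [← e3, smul_smul (P * Y⁻¹ * P⁻¹), ← hg] at this
      rw [this]
      exact h3
    · refine ⟨hap _ s hs, ?_⟩
      show 2 * T0 < ang d c (g • s) ((P * Y⁻¹ * P⁻¹) • s) ((g * P) • s)
      have := ang_smul hG hc g hs (Y⁻¹ • s) (P • s)
      rw [← e4, smul_smul g] at this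
      rw [this]
      exact h4)
  exact_mod_cast key

/-- The case of two apexes. -/
theorem two (hPSA : Stmt_PSA) (hCH : Stmt_CHAIN) (hPS : IsPS d ap c T0)
    (hG : IsomAct G d) (hap : ∀ (g : G), ∀ s ∈ ap, g • s ∈ ap)
    (hc : ∀ (g : G), ∀ s ∈ ap, ∀ y y', d y s = 1 → d y' s = 1 →
      c (g • s) (g • y) (g • y') = c s y y') (P Y : G) {s t : A} (hs : s ∈ ap) (ht : t ∈ ap)
    (h1 : 2 * T0 < ang d c s (P • s) t) (h2 : 2 * T0 < ang d c s (P⁻¹ • s) t)
    (h3 : 2 * T0 < ang d c t (Y • t) s) (h4 : 2 * T0 < ang d c t (Y⁻¹ • t) s) :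
    (4 : ℝ) ≤ slen d (P * Y⁻¹ * P⁻¹ * Y) := by
  obtain ⟨g, hg⟩ : ∃ g : G, g = P * Y⁻¹ * P⁻¹ * Y := ⟨_, rfl⟩
  rw [← hg]
  obtain ⟨-, -, -, p4, -⟩ := hPSA A d ap c T0 hPS s hs
  obtain ⟨-, -, -, q4, -⟩ := hPSA A d ap c T0 hPS t ht
  let w : ℕ → A := fun i => match i with
    | 0 => s
    | 1 => P • s
    | 2 => P • t
    | 3 => (P * Y⁻¹) • t
    | 4 => (P * Y⁻¹) • s
    | 5 => (P * Y⁻¹ * P⁻¹) • s
    | 6 => (P * Y⁻¹ * P⁻¹) • t
    | 7 => g • t
    | 8 => g • s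
    | _ => (g * P) • s
  have w8 : w 8 = g • w 0 := rfl
  have w9 : w (8 + 1) = g • w 1 := mul_smul g P s
  have key := slen_of_chain hPSA hCH hPS hG hap hc (N := 8) (by omega) g w w8 w9 (by
    intro r hr
    have e1 : s = P • (P⁻¹ • s) := (smul_inv_smul P s).symm
    have e2 : P • t = (P * Y⁻¹) • (Y • t) := by rw [smul_smul, inv_mul_cancel_right]
    have e3 : (P * Y⁻¹) • s = (P * Y⁻¹ * P⁻¹) • (P • s) := by
      rw [smul_smul, inv_mul_cancel_right]
    have e4 : (P * Y⁻¹ * P⁻¹) • t = g • (Y⁻¹ • t) := by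
      rw [smul_smul, hg, mul_inv_cancel_right]
    interval_cases r
    · refine ⟨hap P s hs, ?_⟩
      show 2 * T0 < ang d c (P • s) s (P • t)
      have := ang_smul hG hc P hs (P⁻¹ • s) t
      rw [← e1] at this
      rw [this]
      exact h2
    · refine ⟨hap _ t ht, ?_⟩
      show 2 * T0 < ang d c (P • t) (P • s) ((P * Y⁻¹) • t)
      have := ang_smul hG hc P ht s (Y⁻¹ • t)
      rw [smul_smul] at this
      rw [this, q4]
      exact h4
    · refine ⟨hap _ t ht, ?_⟩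
      show 2 * T0 < ang d c ((P * Y⁻¹) • t) (P • t) ((P * Y⁻¹) • s)
      have := ang_smul hG hc (P * Y⁻¹) ht (Y • t) s
      rw [← e2] at this
      rw [this]
      exact h3
    · refine ⟨hap _ s hs, ?_⟩
      show 2 * T0 < ang d c ((P * Y⁻¹) • s) ((P * Y⁻¹) • t) ((P * Y⁻¹ * P⁻¹) • s)
      have := ang_smul hG hc (P * Y⁻¹) hs t (P⁻¹ • s)
      rw [smul_smul (P * Y⁻¹)] at this
      rw [this, p4]
      exact h2
    · refine ⟨hap _ s hs, ?_⟩
      show 2 * T0 < ang d c ((P * Y⁻¹ * P⁻¹) • s) ((P * Y⁻¹) • s) ((P * Y⁻¹ * P⁻¹) • t)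
      have := ang_smul hG hc (P * Y⁻¹ * P⁻¹) hs (P • s) t
      rw [← e3] at this
      rw [this]
      exact h1
    · refine ⟨hap _ t ht, ?_⟩
      show 2 * T0 < ang d c ((P * Y⁻¹ * P⁻¹) • t) ((P * Y⁻¹ * P⁻¹) • s) (g • t)
      have := ang_smul hG hc (P * Y⁻¹ * P⁻¹) ht s (Y • t)
      rw [smul_smul (P * Y⁻¹ * P⁻¹), ← hg] at this
      rw [this, q4]
      exact h3
    · refine ⟨hap _ t ht, ?_⟩
      show 2 * T0 < ang d c (g • t) ((P * Y⁻¹ * P⁻¹) • t) (g • s)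
      have := ang_smul hG hc g ht (Y⁻¹ • t) s
      rw [← e4] at this
      rw [this]
      exact h4
    · refine ⟨hap _ s hs, ?_⟩
      show 2 * T0 < ang d c (g • s) (g • t) ((g * P) • s)
      have := ang_smul hG hc g hs t (P • s)
      rw [smul_smul g] at this
      rw [this, p4]
      exact h1)
  have h8 : (8 : ℝ) ≤ slen d g := by exact_mod_cast key
  linarith

theorem big (hPSA : Stmt_PSA) (hCH : Stmt_CHAIN) (hPS : IsPS d ap c T0)
    (hG : IsomAct G d) (hap : ∀ (g : G), ∀ s ∈ ap, g • s ∈ ap)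
    (hc : ∀ (g : G), ∀ s ∈ ap, ∀ y y', d y s = 1 → d y' s = 1 →
      c (g • s) (g • y) (g • y') = c s y y')
    (hfree : ∀ (g : G) (v : A), g • v = v → g = 1) (P Y : G) (hP1 : P ≠ 1) (hY1 : Y ≠ 1)
    {ox oy : A} (hox : ox ∉ ap) (hoy : oy ∉ ap) (D2 Th W : ℕ)
    (hTh : 8 * W + 100 * T0 + 100 ≤ Th) (hD : d ox oy ≤ D2)
    (hP : ∀ s ∈ ap, ang d c s ox (P • ox) ≤ W) (hP' : ∀ s ∈ ap, ang d c s ox (P⁻¹ • ox) ≤ W)
    (hY : ∀ s ∈ ap, ang d c s oy (Y • oy) ≤ W) (hY' : ∀ s ∈ ap, ang d c s oy (Y⁻¹ • oy) ≤ W)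
    (hs : ∃ s ∈ ap, 8 ^ D2 * Th < ang d c s ox oy) :
    (4 : ℝ) ≤ slen d (P * Y⁻¹ * P⁻¹ * Y) := by
  have hd := hPS.gm
  have hpow : ∀ n : ℕ, Th ≤ 8 ^ n * Th := fun n => Nat.le_mul_of_pos_left _ (by positivity)
  obtain ⟨s₀, hs₀, hb₀⟩ := hs
  obtain ⟨-, -, -, r4, -, -, -, r8, -⟩ := hPSA A d ap c T0 hPS s₀ hs₀
  have hs₀T := hpow D2
  obtain ⟨r1, -, -⟩ := r8 ox oy (by omega)
  have c1 := hd.comm s₀ oy
  have hmono : ∀ n, n ≤ D2 → 8 ^ n * Th ≤ 8 ^ D2 * Th := fun n hn =>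
    Nat.mul_le_mul_right _ (Nat.pow_le_pow_right (by norm_num) hn)
  obtain ⟨sx, hsx, bx, mx, kx⟩ := side hPSA hPS hG hap hc (oy := oy) hox Th W hTh
    ⟨s₀, hs₀, by
      have := hmono (d ox s₀) (by omega)
      omega⟩
  obtain ⟨sy, hsy, by', my, ky⟩ := side hPSA hPS hG hap hc (oy := ox) hoy Th W hTh
    ⟨s₀, hs₀, by
      have := hmono (d oy s₀) (by omega)
      have h2 := r4 oy ox
      omega⟩
  have kxP := kx P hP
  have kxP' := kx P⁻¹ hP'
  have kyY := ky Y hY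
  have kyY' := ky Y⁻¹ hY'
  have neg : ∀ (Q : G), Q ≠ 1 → ∀ s : A, Q • s ≠ s := fun Q hQ s h => hQ (hfree Q s h)
  have hPi : P⁻¹ ≠ 1 := inv_ne_one.2 hP1
  have hYi : Y⁻¹ ≠ 1 := inv_ne_one.2 hY1
  obtain ⟨-, -, -, x4, x5, -, -, x8, x9, -, -⟩ := hPSA A d ap c T0 hPS sx hsx
  obtain ⟨-, -, -, y4, y5, -, -, y8, y9, -, -⟩ := hPSA A d ap c T0 hPS sy hsy
  have tx := hpow (d ox sx)
  have ty := hpow (d oy sy)
  have sxy := y4 oy ox
  obtain ⟨ex, -, -⟩ := x8 ox oy (by omega)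
  obtain ⟨ey, -, -⟩ := y8 ox oy (by omega)
  have c2 := hd.comm sx oy
  have c3 := hd.comm sy oy
  have hTh1 : 1 ≤ Th := by omega
  have hlt : ∀ a b : ℕ, 8 ^ a * Th < 8 ^ b * Th → a < b := by
    intro a b h
    have h1 : (8 : ℕ) ^ a < 8 ^ b := Nat.lt_of_mul_lt_mul_right h
    exact (Nat.pow_lt_pow_iff_right (by norm_num)).1 h1
  -- the order
  have hord : d ox sx ≤ d ox sy := by
    by_contra hcon
    push Not at hcon
    have h1 := mx sy hsy hcon
    have h2 := my sx hsx (by omega)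
    have h3 := x4 oy ox
    have h4 := hlt (d oy sy) (d ox sy) (by omega)
    have h5 := hlt (d ox sx) (d oy sx) (by omega)
    omega
  by_cases hxy : sx = sy
  · subst hxy
    -- one apex
    have key : ∀ Q R : G, Q ≠ 1 → R ≠ 1 → 4 * ang d c sx ox (Q • sx) ≤ ang d c sx ox oy →
        4 * ang d c sx oy (R • sx) ≤ ang d c sx oy ox →
        2 * T0 < ang d c sx (Q • sx) (R • sx) := by
      intro Q R hQ hR h1 h2
      have h3 := x5 ox (Q • sx) oy (neg Q hQ sx)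
      have h4 := x5 (Q • sx) (R • sx) oy (neg R hR sx)
      have h5 := x4 (R • sx) oy
      omega
    have k1 := key P⁻¹ Y⁻¹ hPi hYi kxP' kyY'
    have k2 := key P⁻¹ Y hPi hY1 kxP' kyY
    have k3 := key P Y hP1 hY1 kxP kyY
    have k4 := key P Y⁻¹ hP1 hYi kxP kyY'
    exact one hPSA hCH hPS hG hap hc P Y hsx k1 (by rw [x4]; exact k2) k3
      (by rw [x4]; exact k4)
  · -- two apexes
    have dne : d sx sy ≠ 0 := fun h => hxy (hd.eq_of_zero h)
    have dc := hd.comm sx sy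
    -- angles at `sy`
    have u1 : ang d c sy ox sx ≤ T0 := by
      by_contra hcon
      obtain ⟨a1, -, -⟩ := y8 ox sx (by omega)
      omega
    have u2 := y5 ox sx oy hxy
    have u3 := y4 sx oy
    -- angles at `sx`
    have v1 : ang d c sx oy sy ≤ T0 := by
      by_contra hcon
      obtain ⟨a1, -, -⟩ := x8 oy sy (by omega)
      omega
    have v2 := x5 ox sy oy (fun h => hxy h.symm)
    have v3 := x4 sy oy
    obtain ⟨-, fx, -⟩ := x9 sy hsy (fun h => hxy h.symm) oy (by omega)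
    obtain ⟨-, fy, -⟩ := y9 sx hsx hxy ox (by omega)
    have keyx : ∀ Q : G, Q ≠ 1 → 4 * ang d c sx ox (Q • sx) ≤ ang d c sx ox oy →
        2 * T0 < ang d c sx (Q • sx) sy := by
      intro Q hQ h1
      have h3 := x5 ox (Q • sx) oy (neg Q hQ sx)
      have h4 := fx (Q • sx)
      have h5 := x4 (Q • sx) oy
      have h6 := x4 (Q • sx) sy
      omega
    have keyy : ∀ Q : G, Q ≠ 1 → 4 * ang d c sy oy (Q • sy) ≤ ang d c sy oy ox →
        2 * T0 < ang d c sy (Q • sy) sx := by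
      intro Q hQ h1
      have h3 := y5 oy (Q • sy) ox (neg Q hQ sy)
      have h4 := fy (Q • sy)
      have h5 := y4 (Q • sy) ox
      have h6 := y4 (Q • sy) sx
      omega
    exact two hPSA hCH hPS hG hap hc P Y hsx hsy (keyx P hP1 kxP) (keyx P⁻¹ hPi kxP')
      (keyy Y hY1 kyY) (keyy Y⁻¹ hYi kyY')

end big

/-! ### Small elements -/

section small

variable {G G' X S A' : Type} [Group G] [MulAction G X] [MulAction G S] [Group G']
  [MulAction G' A'] {d : X → X → ℕ} {u L : ℕ} {Y : S → Set X} {η η1 C : ℕ}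
  {d' : A' → A' → ℕ} {π : G →* G'} {q : X ⊕ S → A'}

theorem smul_q (H : ConeQ G G' d u L Y η η1 C d' π q) (g : G) (o : X) :
    π g • q (Sum.inl o) = q (Sum.inl (g • o)) := by
  rw [← H.quot.equiv, Sum.smul_inl]

theorem at_nonempty {x : G'} (hx : TyBe d u π 1 x) : ∃ v, v ∈ AT d u π q 1 x := by
  obtain ⟨g, o, h1, h2⟩ := hx
  refine ⟨q (Sum.inl o), g, o, h1, rfl, ?_, by omega⟩
  have h3 := IsomAct.slen_mul_le (d := d) g o 1
  rw [pow_one, Nat.cast_one, one_mul] at h3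
  have h4 : (d o (g • o) : ℝ) ≤ ((1 : ℕ) : ℝ) * (u : ℝ) := by exact_mod_cast h2
  linarith

theorem at_move (h9 : Stmt_CONEGM) (H : ConeQ G G' d u L Y η η1 C d' π q) {x : G'} {v : A'}
    (hv : v ∈ AT d u π q 1 x) : d' v (x • v) ≤ 2 := by
  obtain ⟨g, o, rfl, rfl, -, h2⟩ := hv
  rw [smul_q H]
  have h3 := (h9 X S d u Y H.gm H.conep.one_le H.ne).2.2 2 o (g • o) (by omega)
  exact (H.quot.le _ _).trans h3

theorem at_fine {C4 : ℕ} (hF : ∀ (v w : X), 4 * d v w ≤ L → ∀ s ∈ q '' apx X S,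
      ang d' (cq (cd d u Y) (cdX d) q) s (q (Sum.inl v)) (q (Sum.inl w)) ≤ d v w + C4 * u)
    (H : ConeQ G G' d u L Y η η1 C d' π q) {x : G'} {v : A'}
    (hv : v ∈ AT d u π q 1 x) (n : ℕ) (hn : 8 * n * u ≤ L) :
    (∀ s ∈ q '' apx X S, ang d' (cq (cd d u Y) (cdX d) q) s v (x ^ n • v) ≤ (2 * n + C4) * u) ∧
    ∀ s ∈ q '' apx X S, ang d' (cq (cd d u Y) (cdX d) q) s v ((x ^ n)⁻¹ • v) ≤
      (2 * n + C4) * u := by
  obtain ⟨g, o, rfl, rfl, -, h2⟩ := hv
  have hG : IsomAct G d := H.isom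
  have h3 := hG.pow_le H.gm g o n
  have h4 : n * d o (g • o) ≤ n * (2 * u) := Nat.mul_le_mul_left _ (by omega)
  have h5 : n * (2 * u) = 2 * n * u := by ring
  have h6 : 8 * n * u = 4 * (2 * n * u) := by ring
  have h7 : (2 * n + C4) * u = 2 * n * u + C4 * u := by ring
  have h8 : d o ((g ^ n)⁻¹ • o) = d o (g ^ n • o) := by
    rw [H.gm.comm, hG.inv]
  have e1 : (π g) ^ n • q (Sum.inl o) = q (Sum.inl (g ^ n • o)) := by
    rw [← map_pow, smul_q H]
  have e2 : ((π g) ^ n)⁻¹ • q (Sum.inl o) = q (Sum.inl ((g ^ n)⁻¹ • o)) := by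
    rw [← map_pow, ← map_inv, smul_q H]
  rw [e1, e2]
  refine ⟨fun s hs => ?_, fun s hs => ?_⟩
  · have := hF o (g ^ n • o) (by omega) s hs
    omega
  · have := hF o ((g ^ n)⁻¹ • o) (by omega) s hs
    omega

theorem at_lift (H : ConeQ G G' d u L Y η η1 C d' π q) {x : G'} {v : X}
    (hv : q (Sum.inl v) ∈ AT d u π q 1 x) : ∃ x₁ : G, π x₁ = x ∧ d v (x₁ • v) ≤ 2 * u := by
  obtain ⟨g, o, h1, h2, -, h4⟩ := hv
  obtain ⟨κ, hκ, h5⟩ := (H.quot.fib _ _).1 h2
  rw [Sum.smul_inl] at h5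
  have h6 : κ • o = v := Sum.inl_injective h5
  have h7 : π κ = 1 := (H.quot.ker κ).2 hκ
  refine ⟨κ * g * κ⁻¹, ?_, ?_⟩
  · rw [map_mul, map_mul, map_inv, h7, h1]
    simp
  · have hG : IsomAct G d := H.isom
    have := hG.conj g κ o
    rw [h6] at this
    omega

end small

end CLSS

open CLSS in
theorem CLSS (h1 : Stmt_PSA) (h2 : Stmt_CHAIN) (h3 : Stmt_LT) (h4 : Stmt_FINE) (h5 : Stmt_DICH)
    (h6 : Stmt_LEN) (h7 : Stmt_QPS) (_h8 : Stmt_QGM) (h9 : Stmt_CONEGM) : Stmt_CLSS := by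
  classical
  intro η η1 C D k hD hk
  obtain ⟨R, hR⟩ := h3 η η1 C 1 le_rfl
  obtain ⟨C4, hC4⟩ := h4 η η1 C
  obtain ⟨C5, hC5⟩ := h5 η η1 C
  -- constants
  obtain ⟨e, he⟩ : ∃ e, e = 2 * D + 2 * k := ⟨_, rfl⟩
  obtain ⟨r, hr⟩ : ∃ r, r = R D + R k := ⟨_, rfl⟩
  obtain ⟨K, hK⟩ : ∃ K, K = e + 2 * (e + r + dl) := ⟨_, rfl⟩
  obtain ⟨D2, hD2⟩ : ∃ D2, D2 = 2 * K + 1 := ⟨_, rfl⟩
  obtain ⟨W0, hW0⟩ : ∃ W0, W0 = 2 * D + 2 * k + C4 := ⟨_, rfl⟩
  obtain ⟨K9, hK9⟩ : ∃ K9, K9 = 8 * W0 + 100 * C + 100 := ⟨_, rfl⟩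
  obtain ⟨B, hB⟩ : ∃ B, B = 8 ^ D2 * K9 + C5 + 1 := ⟨_, rfl⟩
  refine ⟨2 * D2 + 2, 2 * (D2 * B) + 2, ?_⟩
  intro a0 L0 CP M0 hDM hkM
  obtain ⟨U1, hU1⟩ := hR a0 L0 CP M0
  refine ⟨U1 + C4 + C5 + 8 * D + 8 * k + 1, ?_⟩
  intro G G' X S A' _ _ _ _ _ d u L Y d' π q hLQ hLev x y hxy hTx hTy
  have H : ConeQ G G' d u L Y η η1 C d' π q := hLQ.toConeQ
  have hu := hLQ.hu
  have hL := hLQ.hL
  have hmulU : ∀ n, n ≤ U1 + C4 + C5 + 8 * D + 8 * k + 1 → n * u ≤ L := fun n hn =>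
    (Nat.mul_le_mul_right _ hn).trans hL
  have hLQ1 : LQ G G' d u L Y η η1 C d' π q a0 L0 CP M0 U1 :=
    { toConeQ := H, lev := hLQ.lev, hu := by omega, hL := hmulU _ (by omega),
      heta := hLQ.heta }
  have hgm := hLev.gm
  have hG : IsomAct G' d' := hLev.isom
  have : Nonempty A' := hLev.ne
  obtain ⟨hF, -⟩ := hC4 G G' X S A' d u L Y d' π q H (by omega) (hmulU _ (by omega))
  have hDI := hC5 G G' X S A' d u L Y d' π q H (by omega) (hmulU _ (by omega))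
  obtain ⟨hPS, -, hap, hc, hback, -⟩ :=
    h7 G (X ⊕ S) G' A' (cd d u Y) (apx X S) (cdX d) (C * u) L d' π q H.rotc H.quot
  have hfree := hLev.free
  have hinl : ∀ v : X, q (Sum.inl v) ∉ q '' apx X S := by
    intro v hv
    obtain ⟨s, hs⟩ := hback _ hv
    exact absurd hs (by simp)
  have hATap : ∀ {z : G'} {v : A'}, v ∈ AT d u π q 1 z → v ∉ q '' apx X S := by
    rintro z v ⟨g, o, -, rfl, -⟩
    exact hinl o
  have hx1 : x ≠ 1 := by
    rintro rfl
    exact hxy (by rw [one_mul, mul_one])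
  have hy1 : y ≠ 1 := by
    rintro rfl
    exact hxy (by rw [one_mul, mul_one])
  have hpow1 : ∀ z : G', z ≠ 1 → ∀ n : ℕ, 1 ≤ n → z ^ n ≠ 1 := by
    intro z hz n hn h
    have h10 := hLev.lox z hz
    have h11 := hG.slen_pow hgm z n
    rw [h] at h11
    obtain ⟨v⟩ := hLev.ne
    have h12 := IsomAct.slen_mul_le (d := d') (1 : G') v 1
    rw [pow_one, one_smul, hgm.self, Nat.cast_one, one_mul, Nat.cast_zero] at h12
    have h13 : (0 : ℝ) < n := by exact_mod_cast hn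
    have h14 : (0 : ℝ) < n * slen d' z := mul_pos h13 h10
    linarith
  -- the nearest pair
  have hex : ∃ n, ∃ a ∈ AT d u π q 1 x, ∃ b ∈ AT d u π q 1 y, d' a b = n := by
    obtain ⟨a, ha⟩ := at_nonempty (q := q) hTx
    obtain ⟨b, hb⟩ := at_nonempty (q := q) hTy
    exact ⟨_, a, ha, b, hb, rfl⟩
  obtain ⟨ox, hox, oy, hoy, hn⟩ := Nat.find_spec hex
  have hmin : ∀ a ∈ AT d u π q 1 x, ∀ b ∈ AT d u π q 1 y, d' ox oy ≤ d' a b := by
    intro a ha b hb
    rw [hn]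
    exact Nat.find_min' hex ⟨a, ha, b, hb, rfl⟩
  have hsymm := hgm.comm ox oy
  -- displacements
  have hmv : ∀ {z : G'} {v : A'}, v ∈ AT d u π q 1 z → ∀ n : ℕ, d' v (z ^ n • v) ≤ 2 * n ∧
      d' v ((z ^ n)⁻¹ • v) ≤ 2 * n := by
    intro z v hv n
    have h10 := at_move h9 H hv
    have h11 := hG.pow_le hgm z v n
    have h12 : n * d' v (z • v) ≤ n * 2 := Nat.mul_le_mul_left _ h10
    have h13 : d' v ((z ^ n)⁻¹ • v) = d' v (z ^ n • v) := by
      rw [hgm.comm, hG.inv]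
    omega
  have hox2 := at_move h9 H hox
  have hoy2 := at_move h9 H hoy
  obtain ⟨mP, mP'⟩ := hmv hox D
  obtain ⟨mY, mY'⟩ := hmv hoy k
  have hyox : d' ox (y • ox) ≤ 2 * d' ox oy + 2 := by
    have h10 := hG.dist_base hgm y ox oy
    omega
  -- Lemma T
  obtain ⟨lP, lP'⟩ := hU1 G G' X S A' d u L Y d' π q hLQ1 D hD hDM x hx1 oy ox hox
    (fun o' ho' => by
      have h10 := hmin o' ho' oy hoy
      have h11 := hgm.comm oy o'
      omega)
  obtain ⟨lY, lY'⟩ := hU1 G G' X S A' d u L Y d' π q hLQ1 k hk hkM y hy1 ox oy hoy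
    (fun o' ho' => hmin ox hox o' ho')
  have hgW : gW D k x y = x ^ D * (y ^ k)⁻¹ * (x ^ D)⁻¹ * y ^ k := by
    unfold gW qW pW yW
    group
  rcases Nat.lt_or_ge (d' ox oy) D2 with hlt | hge
  · -- close
    rcases hDI (8 ^ D2 * (K9 * u)) ox oy (hATap hox) (hATap hoy) with hbig | hsmall
    · left
      obtain ⟨fP, fP'⟩ := at_fine hF H hox D (hmulU _ (by omega))
      obtain ⟨fY, fY'⟩ := at_fine hF H hoy k (hmulU _ (by omega))
      have hWP : (2 * D + C4) * u ≤ W0 * u := Nat.mul_le_mul_right _ (by omega)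
      have hWY : (2 * k + C4) * u ≤ W0 * u := Nat.mul_le_mul_right _ (by omega)
      have hu1 : 1 ≤ u := H.conep.one_le
      have hTh : 8 * (W0 * u) + 100 * (C * u) + 100 ≤ K9 * u := by
        have : K9 * u = 8 * (W0 * u) + 100 * (C * u) + 100 * u := by
          rw [hK9]
          ring
        omega
      have key := big h1 h2 hPS hG hap hc hfree (x ^ D) (y ^ k) (hpow1 x hx1 D hD)
        (hpow1 y hy1 k hk) (hATap hox) (hATap hoy) D2 (K9 * u) (W0 * u) hTh (by omega)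
        (fun s hs => (fP s hs).trans hWP) (fun s hs => (fP' s hs).trans hWP)
        (fun s hs => (fY s hs).trans hWY) (fun s hs => (fY' s hs).trans hWY) hbig
      rw [← hgW] at key
      refine ⟨hxy, ?_, ox, ?_, ?_⟩
      · rw [Nat.cast_one, one_mul]
        linarith
      · have h10 : (d' ox (x • ox) : ℝ) ≤ 2 := by exact_mod_cast hox2
        have h11 : (2 : ℝ) ≤ ((2 * D2 + 2 : ℕ) : ℝ) := by
          push_cast
          have : (0 : ℝ) ≤ D2 := Nat.cast_nonneg _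
          linarith
        nlinarith
      · have h10 : d' ox (y • ox) ≤ 2 * D2 + 2 := by omega
        have h11 : (d' ox (y • ox) : ℝ) ≤ ((2 * D2 + 2 : ℕ) : ℝ) := by exact_mod_cast h10
        have h12 : (0 : ℝ) ≤ ((2 * D2 + 2 : ℕ) : ℝ) := Nat.cast_nonneg _
        nlinarith
    · right
      obtain ⟨v₁, w₁, hv, hw, hvw, hang⟩ := hsmall
      obtain ⟨x₁, hx₁, hx₂⟩ := at_lift H (x := x) (v := v₁) (by rw [hv]; exact hox)
      obtain ⟨y₁, hy₁, hy₂⟩ := at_lift H (x := y) (v := w₁) (by rw [hw]; exact hoy)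
      have hlen := h6 η η1 C X S d u Y H.conep (8 ^ D2 * (K9 * u) + C5 * u) v₁ w₁ hang
      rw [hvw] at hlen
      have hB' : 8 ^ D2 * (K9 * u) + C5 * u + u = B * u := by
        rw [hB]
        ring
      rw [hB'] at hlen
      have hlen' : d v₁ w₁ ≤ D2 * (B * u) := hlen.trans (Nat.mul_le_mul_right _ hlt.le)
      have e1 : (2 * (D2 * B) + 2) * u = 2 * (D2 * (B * u)) + 2 * u := by ring
      have hGX : IsomAct G d := H.isom
      have h10 := hGX.dist_base H.gm y₁ v₁ w₁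
      refine ⟨x₁, y₁, hx₁, hy₁, v₁, ?_, ?_⟩
      · omega
      · omega
  · -- far
    left
    have key := far hLev.hyp hgm hG (x ^ D) (y ^ k) ox oy e r (by omega) (by omega) (by omega)
      (by omega) (by omega) (by omega) (by omega) (by omega) (by omega)
    rw [← hgW] at key
    have h10 : (D2 : ℝ) ≤ d' ox oy := by exact_mod_cast hge
    have h11 : (D2 : ℝ) = 2 * K + 1 := by exact_mod_cast hD2
    have h12 : (K : ℝ) = e + 2 * (e + r + dl) := by exact_mod_cast hK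
    have h13 : (0 : ℝ) ≤ K := Nat.cast_nonneg _
    have h14 : (d' ox oy : ℝ) ≤ slen d' (gW D k x y) := by linarith
    have h15 : (2 : ℝ) ≤ ((2 * D2 + 2 : ℕ) : ℝ) := by
      push_cast
      have : (0 : ℝ) ≤ D2 := Nat.cast_nonneg _
      linarith
    refine ⟨hxy, ?_, ox, ?_, ?_⟩
    · rw [Nat.cast_one, one_mul]
      linarith
    · have h16 : (d' ox (x • ox) : ℝ) ≤ 2 := by exact_mod_cast hox2
      nlinarith
    · have h16 : (d' ox (y • ox) : ℝ) ≤ 2 * d' ox oy + 2 := by exact_mod_cast hyox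
      nlinarith

end Pool.Agent.Olsh
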