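import Pool.Agent.Olsh.StmtsC

/-!
# MP_3cdb71_al, module CONEA: Theorem A, the cone-off is hyperbolic
-/

set_option autoImplicit false

namespace Pool.Agent.Olsh

namespace CONEA

variable {X S : Type} {d : X → X → ℕ} {u η : ℕ} {Y : S → Set X}

/-- The guessed geodesics of the cone-off. -/
def LL (d : X → X → ℕ) (bf : X ⊕ S → X) (a b : X ⊕ S) : Set (X ⊕ S) :=
  {w | w = a ∨ w = b ∨ ∃ z, Bt d (bf a) z (bf b) ∧ w = Sum.inl z}

theorem base_near (hc : IsGM (cd d u Y))
    (hadj : ∀ a b, cd d u Y a b = 1 ↔ coneAdj d u Y a b) (a : X ⊕ S) (v : X)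
    (hv : IsBase Y a v) : cd d u Y (Sum.inl v) a ≤ 1 := by
  rcases a with w | s
  · have h1 : v = w := hv
    subst h1
    rw [hc.self]
    omega
  · have h1 : cd d u Y (Sum.inl v) (Sum.inr s) = 1 := (hadj _ _).mpr hv
    omega

theorem base_near' (hc : IsGM (cd d u Y))
    (hadj : ∀ a b, cd d u Y a b = 1 ↔ coneAdj d u Y a b) (a : X ⊕ S) (v : X)
    (hv : IsBase Y a v) : cd d u Y a (Sum.inl v) ≤ 1 := by
  rw [hc.comm]
  exact base_near hc hadj a v hv

/-- Points between two base points of a vertex are near that vertex. -/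
theorem two_bases (hd : IsGM d) (hc : IsGM (cd d u Y))
    (hadj : ∀ a b, cd d u Y a b = 1 ↔ coneAdj d u Y a b)
    (hle : ∀ (n : ℕ) (v w : X), d v w ≤ n * u → cd d u Y (Sum.inl v) (Sum.inl w) ≤ n)
    (hqc : ∀ s, QC d η (Y s)) (hη : η ≤ u) (a : X ⊕ S) (v w z : X)
    (hv : IsBase Y a v) (hw : IsBase Y a w) (hz : Bt d v z w) :
    cd d u Y (Sum.inl z) a ≤ 2 := by
  rcases a with x | s
  · have h1 : v = x := hv
    have h2 : w = x := hw
    rw [h1, h2] at hz
    have h3 : x = z := by
      apply hd.eq_of_zero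
      have h4 := hd.self x
      unfold Bt at hz
      omega
    rw [← h3, hc.self]
    omega
  · obtain ⟨y, hy, hzy⟩ := hqc s v hv w hw z hz
    have h1 : cd d u Y (Sum.inl z) (Sum.inl y) ≤ 1 := hle 1 z y (by omega)
    have h2 : cd d u Y (Sum.inl y) (Sum.inr s) = 1 := (hadj _ _).mpr hy
    have h3 := hc.tri (Sum.inl z) (Sum.inl y) (Sum.inr s)
    omega

/-- Guesses for neighbours are in the ball of radius two of a vertex. -/
theorem radius (hd : IsGM d) (hc : IsGM (cd d u Y))
    (hadj : ∀ a b, cd d u Y a b = 1 ↔ coneAdj d u Y a b)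
    (hle : ∀ (n : ℕ) (v w : X), d v w ≤ n * u → cd d u Y (Sum.inl v) (Sum.inl w) ≤ n)
    (hqc : ∀ s, QC d η (Y s)) (hη : η ≤ u) (bf : X ⊕ S → X) (hbf : ∀ a, IsBase Y a (bf a))
    (a b : X ⊕ S) (hab : cd d u Y a b ≤ 1) :
    ∃ c, ∀ w ∈ LL d bf a b, cd d u Y w c ≤ 2 := by
  by_cases h0 : cd d u Y a b = 0
  · have h1 := hc.eq_of_zero h0
    subst h1
    refine ⟨a, fun w hw => ?_⟩
    rcases hw with rfl | rfl | ⟨z, hz, rfl⟩
    · rw [hc.self]
      omega
    · rw [hc.self]
      omega
    · exact two_bases hd hc hadj hle hqc hη a _ _ z (hbf a) (hbf a) hz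
  · have h1 : cd d u Y a b = 1 := by omega
    have h2 := (hadj a b).mp h1
    rcases a with v | s
    · rcases b with v' | t
      · -- both are points
        have e1 : bf (Sum.inl v) = v := hbf (Sum.inl v)
        have e2 : bf (Sum.inl v') = v' := hbf (Sum.inl v')
        have h3 : d v v' ≤ u := h2.2
        refine ⟨Sum.inl v, fun w hw => ?_⟩
        rcases hw with rfl | rfl | ⟨z, hz, rfl⟩
        · rw [hc.self]
          omega
        · rw [hc.comm]
          omega
        · rw [e1, e2] at hz
          have h4 : d z v ≤ 1 * u := by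
            have h5 := hd.comm z v
            unfold Bt at hz
            omega
          have h5 := hle 1 z v h4
          omega
      · have e1 : bf (Sum.inl v) = v := hbf (Sum.inl v)
        have h3 : IsBase Y (Sum.inr t : X ⊕ S) v := h2
        refine ⟨Sum.inr t, fun w hw => ?_⟩
        rcases hw with rfl | rfl | ⟨z, hz, rfl⟩
        · omega
        · rw [hc.self]
          omega
        · rw [e1] at hz
          exact two_bases hd hc hadj hle hqc hη _ _ _ z h3 (hbf _) hz
    · rcases b with v' | t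
      · have e1 : bf (Sum.inl v') = v' := hbf (Sum.inl v')
        have h3 : IsBase Y (Sum.inr s : X ⊕ S) v' := h2
        refine ⟨Sum.inr s, fun w hw => ?_⟩
        rcases hw with rfl | rfl | ⟨z, hz, rfl⟩
        · rw [hc.self]
          omega
        · rw [hc.comm]
          omega
        · rw [e1] at hz
          exact two_bases hd hc hadj hle hqc hη _ _ _ z (hbf _) h3 hz
      · exact absurd h2 (fun h => h)

/-- The guesses are good. -/
theorem isGuess (hd : IsGM d) (hh : Hyp d dl) (hu : 1 ≤ u) (hdl : 4 * dl ≤ u)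
    (hc : IsGM (cd d u Y)) (hadj : ∀ a b, cd d u Y a b = 1 ↔ coneAdj d u Y a b)
    (hle : ∀ (n : ℕ) (v w : X), d v w ≤ n * u → cd d u Y (Sum.inl v) (Sum.inl w) ≤ n)
    (hqc : ∀ s, QC d η (Y s)) (hη : η ≤ u) (bf : X ⊕ S → X) (hbf : ∀ a, IsBase Y a (bf a)) :
    IsGuess (cd d u Y) 5 (LL d bf) where
  left := fun x y => Or.inl rfl
  right := fun x y => Or.inr (Or.inl rfl)
  conn := by
    intro a b
    obtain ⟨q, hq0, hq1, hq⟩ := hd.exists_geo (bf a) (bf b)
    set D := d (bf a) (bf b) with hD
    have hin : ∀ i, i ≤ D → Bt d (bf a) (q i) (bf b) := by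
      intro i hi
      have h1 := hq.bt (Nat.zero_le i) hi le_rfl
      rwa [hq0, hq1] at h1
    refine ⟨D + 2, fun i => if i = 0 then a else if i ≤ D + 1 then Sum.inl (q (i - 1)) else b,
      by simp, ?_, ?_, ?_⟩
    · have h1 : ¬ D + 2 = 0 := by omega
      have h2 : ¬ D + 2 ≤ D + 1 := by omega
      simp only [h1, h2, if_false]
    · intro i hi
      by_cases h1 : i = 0
      · simp only [h1, if_true]
        exact Or.inl rfl
      · by_cases h2 : i ≤ D + 1
        · simp only [h1, h2, if_true, if_false]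
          exact Or.inr (Or.inr ⟨q (i - 1), hin _ (by omega), rfl⟩)
        · simp only [h1, h2, if_false]
          exact Or.inr (Or.inl rfl)
    · intro i hi
      by_cases h1 : i = 0
      · subst h1
        have h2 : ¬ 0 + 1 = 0 := by omega
        have h3 : 0 + 1 ≤ D + 1 := by omega
        have h4 : 0 + 1 - 1 = 0 := by omega
        simp only [h2, h3, h4, if_true, if_false]
        rw [hq0]
        have h5 := base_near' hc hadj a (bf a) (hbf a)
        omega
      · have h2 : ¬ i + 1 = 0 := by omega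
        have h3 : i ≤ D + 1 := by omega
        by_cases h4 : i + 1 ≤ D + 1
        · simp only [h1, h2, h3, h4, if_true, if_false]
          have h5 := hq (i - 1) (i + 1 - 1) (by omega) (by omega)
          have h6 := hle 1 (q (i - 1)) (q (i + 1 - 1)) (by omega)
          omega
        · simp only [h1, h2, h3, h4, if_true, if_false]
          have h5 : i - 1 = D := by omega
          rw [h5, hq1]
          have h6 := base_near hc hadj b (bf b) (hbf b)
          omega
  thin := by
    intro x y z w hw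
    rcases hw with rfl | rfl | ⟨t, ht, rfl⟩
    · exact ⟨w, Or.inl (Or.inl rfl), by rw [hc.self]; omega⟩
    · exact ⟨w, Or.inr (Or.inr (Or.inl rfl)), by rw [hc.self]; omega⟩
    · obtain ⟨q, hq, hq'⟩ := hh.slim hd (bf x) (bf y) (bf z) t ht
      have h1 := hle 1 t q (by omega)
      refine ⟨Sum.inl q, ?_, by omega⟩
      rcases hq with hq | hq
      · exact Or.inl (Or.inr (Or.inr ⟨q, hq, rfl⟩))
      · exact Or.inr (Or.inr (Or.inr ⟨q, hq, rfl⟩))
  small := by
    intro x y hxy w hw w' hw'
    obtain ⟨c, hr⟩ := radius hd hc hadj hle hqc hη bf hbf x y hxy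
    have h1 := hr w hw
    have h2 := hr w' hw'
    have h3 := hc.tri w c w'
    have h4 := hc.comm c w'
    omega

end CONEA

theorem CONEA (h1 : Stmt_CONEGM) : Stmt_CONEA := by
  intro X S d u η Y hd hh hne hqc hu hdl hη
  obtain ⟨hc, hadj, hle⟩ := h1 X S d u Y hd hu hne
  have hbase : ∃ bf : X ⊕ S → X, ∀ a, IsBase Y a (bf a) := by
    refine ⟨fun a => match a with
      | Sum.inl v => v
      | Sum.inr s => (hne s).some, ?_⟩
    intro a
    rcases a with v | s
    · exact (rfl : v = v)
    · exact (hne s).some_mem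
  obtain ⟨bf0, hbf0⟩ := hbase
  have hg0 := CONEA.isGuess hd hh hu hdl hc hadj hle hqc hη bf0 hbf0
  refine ⟨(dl_kl (X ⊕ S) (cd d u Y) _ hc hg0).1, ?_⟩
  intro a b va vb hva hvb
  by_cases hab : a = b
  · subst hab
    refine ⟨?_, ?_⟩
    · intro z hz m p _ hp0 _
      refine ⟨0, Nat.zero_le _, ?_⟩
      rw [hp0]
      have h2 := CONEA.two_bases hd hc hadj hle hqc hη a va vb z hva hvb hz
      omega
    · intro z' hz'
      have h2 : a = z' := by
        apply hc.eq_of_zero
        have h3 := hc.self a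
        unfold Bt at hz'
        omega
      subst h2
      refine ⟨va, hd.bt_left _ _, ?_⟩
      have h3 := CONEA.base_near' hc hadj a va hva
      omega
  · classical
    obtain ⟨bf, hbf, ha, hb⟩ : ∃ bf : X ⊕ S → X, (∀ c, IsBase Y c (bf c)) ∧ bf a = va ∧
        bf b = vb := by
      refine ⟨fun c => if c = a then va else if c = b then vb else bf0 c, ?_, ?_, ?_⟩
      · intro c
        by_cases h2 : c = a
        · simp only [h2, if_true]
          exact hva
        · by_cases h3 : c = b
          · subst h3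
            simp only [h2, if_true, if_false]
            exact hvb
          · simp only [h2, h3, if_false]
            exact hbf0 c
      · simp
      · have h2 : ¬ b = a := fun h => hab h.symm
        simp only [h2, if_true, if_false]
    have hg := CONEA.isGuess hd hh hu hdl hc hadj hle hqc hη bf hbf
    obtain ⟨-, hA, hB⟩ := dl_kl (X ⊕ S) (cd d u Y) _ hc hg
    refine ⟨?_, ?_⟩
    · intro z hz m p hp hp0 hpm
      obtain ⟨i, hi, hi'⟩ := hA a b (Sum.inl z)
        (Or.inr (Or.inr ⟨z, by rw [ha, hb]; exact hz, rfl⟩)) m p hp hp0 hpm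
      exact ⟨i, hi, by omega⟩
    · intro z' hz'
      obtain ⟨w, hw, hw'⟩ := hB a b z' hz'
      rcases hw with rfl | rfl | ⟨z, hz, rfl⟩
      · refine ⟨va, hd.bt_left _ _, ?_⟩
        have h2 := CONEA.base_near' hc hadj w va hva
        have h3 := hc.tri z' w (Sum.inl va)
        omega
      · refine ⟨vb, hd.bt_right _ _, ?_⟩
        have h2 := CONEA.base_near' hc hadj w vb hvb
        have h3 := hc.tri z' w (Sum.inl vb)
        omega
      · rw [ha, hb] at hz
        exact ⟨z, hz, by omega⟩

end Pool.Agent.Olsh
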