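import Pool.Agent.Olsh.StmtsC

/-!
# MP_3cdb71_al, module CONEGM: the cone-off is a metric graph
-/

set_option autoImplicit false

namespace Pool.Agent.Olsh

namespace CONEGM

/-! ### Paths of a relation -/

section Rel

variable {V : Type} {R : V → V → Prop}

theorem path_zero (x : V) : HasPath R 0 x x :=
  ⟨fun _ => x, rfl, rfl, fun i hi => absurd hi (Nat.not_lt_zero i)⟩

theorem eq_of_path_zero {x y : V} (h : HasPath R 0 x y) : x = y := by
  obtain ⟨p, h0, h1, -⟩ := h
  exact h0.symm.trans h1

theorem path_one {x y : V} (h : R x y) : HasPath R 1 x y := by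
  refine ⟨fun i => if i = 0 then x else y, by simp, by simp, ?_⟩
  intro i hi
  have h0 : i = 0 := by omega
  subst h0
  simpa using h

theorem of_path_one {x y : V} (h : HasPath R 1 x y) : R x y := by
  obtain ⟨p, h0, h1, h2⟩ := h
  have h3 := h2 0 (by omega)
  rw [h0] at h3
  have h4 : p (0 + 1) = y := h1
  rwa [h4] at h3

theorem path_trans {n m : ℕ} {x y z : V} (h : HasPath R n x y) (h' : HasPath R m y z) :
    HasPath R (n + m) x z := by
  obtain ⟨p, h0, h1, h2⟩ := h
  obtain ⟨q, g0, g1, g2⟩ := h'
  refine ⟨fun i => if i ≤ n then p i else q (i - n), ?_, ?_, ?_⟩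
  · simp [h0]
  · by_cases hm : m = 0
    · subst hm
      have h3 : n + 0 ≤ n := by omega
      simp only [h3, if_true]
      have h4 : n + 0 = n := by omega
      rw [h4, h1, ← g0, g1]
    · have h3 : ¬ n + m ≤ n := by omega
      simp only [h3, if_false]
      have h4 : n + m - n = m := by omega
      rw [h4, g1]
  · intro i hi
    by_cases hin : i + 1 ≤ n
    · have h3 : i ≤ n := by omega
      simp only [hin, h3, if_true]
      exact h2 i (by omega)
    · by_cases hin2 : i ≤ n
      · have h3 : i = n := by omega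
        subst h3
        simp only [hin, hin2, if_true, if_false]
        have h4 : i + 1 - i = 0 + 1 := by omega
        rw [h4, h1, ← g0]
        exact g2 0 (by omega)
      · simp only [hin, hin2, if_false]
        have h4 : i + 1 - n = i - n + 1 := by omega
        rw [h4]
        exact g2 (i - n) (by omega)

theorem path_symm (hR : ∀ x y, R x y → R y x) {n : ℕ} {x y : V} (h : HasPath R n x y) :
    HasPath R n y x := by
  obtain ⟨p, h0, h1, h2⟩ := h
  refine ⟨fun i => p (n - i), ?_, ?_, ?_⟩
  · show p (n - 0) = y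
    rw [Nat.sub_zero, h1]
  · show p (n - n) = x
    rw [Nat.sub_self, h0]
  · intro i hi
    show R (p (n - i)) (p (n - (i + 1)))
    have h3 : n - i = n - (i + 1) + 1 := by omega
    rw [h3]
    exact hR _ _ (h2 (n - (i + 1)) (by omega))

theorem pdist_le {n : ℕ} {x y : V} (h : HasPath R n x y) : pdist R x y ≤ n :=
  Nat.sInf_le h

theorem path_pdist {x y : V} (h : ∃ n, HasPath R n x y) : HasPath R (pdist R x y) x y :=
  Nat.sInf_mem (s := {n | HasPath R n x y}) h

/-- The path metric of a connected symmetric relation is a metric graph. -/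
theorem isGM_pdist (hR : ∀ x y, R x y → R y x) (hc : ∀ x y, ∃ n, HasPath R n x y) :
    IsGM (pdist R) where
  eq_of_zero := by
    intro x y h
    have h1 := path_pdist (hc x y)
    rw [h] at h1
    exact eq_of_path_zero h1
  self := fun x => Nat.le_zero.mp (pdist_le (path_zero x))
  comm := fun x y => le_antisymm (pdist_le (path_symm hR (path_pdist (hc y x))))
    (pdist_le (path_symm hR (path_pdist (hc x y))))
  tri := fun x y z => pdist_le (path_trans (path_pdist (hc x y)) (path_pdist (hc y z)))
  mid := by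
    intro x y k hk
    obtain ⟨p, h0, h1, h2⟩ := path_pdist (hc x y)
    have h3 : pdist R x (p k) ≤ k :=
      pdist_le ⟨p, h0, rfl, fun i hi => h2 i (by omega)⟩
    have h4 : pdist R (p k) y ≤ pdist R x y - k := by
      refine pdist_le ⟨fun i => p (k + i), rfl, ?_, ?_⟩
      · show p (k + (pdist R x y - k)) = y
        have h5 : k + (pdist R x y - k) = pdist R x y := by omega
        rw [h5, h1]
      · intro i hi
        exact h2 (k + i) (by omega)
    have h5 : pdist R x y ≤ pdist R x (p k) + pdist R (p k) y :=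
      pdist_le (path_trans (path_pdist (hc x (p k))) (path_pdist (hc (p k) y)))
    exact ⟨p k, by omega, by omega⟩

end Rel

/-! ### The cone-off -/

section Cone

variable {X S : Type} {d : X → X → ℕ} {u : ℕ} {Y : S → Set X}

theorem adj_symm (hd : IsGM d) : ∀ a b : X ⊕ S, coneAdj d u Y a b → coneAdj d u Y b a := by
  intro a b h
  rcases a with v | s <;> rcases b with w | t
  · refine ⟨fun h0 => h.1 h0.symm, ?_⟩
    rw [hd.comm w v]
    exact h.2
  · exact h
  · exact h
  · exact h

theorem adj_irrefl : ∀ a : X ⊕ S, ¬ coneAdj d u Y a a := by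
  intro a h
  rcases a with v | s
  · exact h.1 rfl
  · exact h

theorem path_points (hd : IsGM d) (hu : 1 ≤ u) (n : ℕ) : ∀ v w : X, d v w ≤ n * u →
    ∃ m, m ≤ n ∧ HasPath (coneAdj d u Y) m (Sum.inl v) (Sum.inl w) := by
  induction n with
  | zero =>
    intro v w h
    have h1 : v = w := hd.eq_of_zero (by omega)
    subst h1
    exact ⟨0, le_rfl, path_zero _⟩
  | succ n ih =>
    intro v w h
    by_cases h1 : d v w ≤ u
    · by_cases h2 : v = w
      · subst h2
        exact ⟨0, Nat.zero_le _, path_zero _⟩
      · exact ⟨1, by omega, path_one (show coneAdj d u Y (Sum.inl v) (Sum.inl w) from ⟨h2, h1⟩)⟩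
    · obtain ⟨z, hz1, hz2⟩ := hd.mid v w u (by omega)
      have h3 : d z w ≤ n * u := by
        have h4 : (n + 1) * u = n * u + u := by ring
        omega
      obtain ⟨m, hm, hp⟩ := ih z w h3
      have h4 : v ≠ z := by
        intro h5
        subst h5
        rw [hd.self] at hz1
        omega
      have h5 : HasPath (coneAdj d u Y) 1 (Sum.inl v) (Sum.inl z) :=
        path_one (show coneAdj d u Y (Sum.inl v) (Sum.inl z) from ⟨h4, by omega⟩)
      exact ⟨1 + m, by omega, path_trans h5 hp⟩

theorem connected_points (hd : IsGM d) (hu : 1 ≤ u) (v w : X) :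
    ∃ m, HasPath (coneAdj d u Y) m (Sum.inl v) (Sum.inl w) := by
  obtain ⟨m, -, h⟩ := path_points (Y := Y) hd hu (d v w) v w (Nat.le_mul_of_pos_right _ hu)
  exact ⟨m, h⟩

/-- Every vertex is joined to some point. -/
theorem to_point (hne : ∀ s, (Y s).Nonempty) (a : X ⊕ S) :
    ∃ (v : X) (m : ℕ), HasPath (coneAdj d u Y) m a (Sum.inl v) := by
  rcases a with v | s
  · exact ⟨v, 0, path_zero _⟩
  · obtain ⟨y, hy⟩ := hne s
    exact ⟨y, 1, path_one (show coneAdj d u Y (Sum.inr s) (Sum.inl y) from hy)⟩

theorem connected (hd : IsGM d) (hu : 1 ≤ u) (hne : ∀ s, (Y s).Nonempty) (a b : X ⊕ S) :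
    ∃ m, HasPath (coneAdj d u Y) m a b := by
  obtain ⟨v, m, h1⟩ := to_point (d := d) (u := u) hne a
  obtain ⟨w, k, h2⟩ := to_point (d := d) (u := u) hne b
  obtain ⟨l, h3⟩ := connected_points (Y := Y) hd hu v w
  exact ⟨m + (l + k), path_trans h1 (path_trans h3 (path_symm (adj_symm hd) h2))⟩

end Cone

end CONEGM

theorem CONEGM : Stmt_CONEGM := by
  intro X S d u Y hd hu hne
  have hc := CONEGM.connected (d := d) (u := u) (Y := Y) hd hu hne
  refine ⟨CONEGM.isGM_pdist (CONEGM.adj_symm hd) hc, ?_, ?_⟩
  · intro a b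
    constructor
    · intro h
      have h1 := CONEGM.path_pdist (hc a b)
      have h2 : pdist (coneAdj d u Y) a b = 1 := h
      rw [h2] at h1
      exact CONEGM.of_path_one h1
    · intro h
      have h1 : pdist (coneAdj d u Y) a b ≤ 1 := CONEGM.pdist_le (CONEGM.path_one h)
      have h2 : pdist (coneAdj d u Y) a b ≠ 0 := by
        intro h3
        have h4 := CONEGM.path_pdist (hc a b)
        rw [h3] at h4
        have h5 := CONEGM.eq_of_path_zero h4
        subst h5
        exact CONEGM.adj_irrefl a h
      show pdist (coneAdj d u Y) a b = 1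
      omega
  · intro n v w h
    obtain ⟨m, hm, hp⟩ := CONEGM.path_points (Y := Y) hd hu n v w h
    exact (CONEGM.pdist_le hp).trans hm

end Pool.Agent.Olsh
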