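import Pool.Agent.Olsh.StmtsC

/-!
# MP_3cdb71_al, module CONEPS: Lemmas 2.1 and 2.2 of `Pool/Agent/Olsh/H92.md`
-/

set_option autoImplicit false

namespace Pool.Agent.Olsh

namespace CONEPS

/-- Nearest points exist. -/
theorem exists_pr {V : Type} (d : V → V → ℕ) {Z : Set V} (hZ : Z.Nonempty) (v : V) :
    ∃ y, IsPr d Z v y := by
  classical
  obtain ⟨y0, hy0⟩ := hZ
  have h : ∃ n, ∃ y ∈ Z, d v y = n := ⟨_, y0, hy0, rfl⟩
  obtain ⟨y, hy, hyn⟩ := Nat.find_spec h
  refine ⟨y, hy, fun z hz => ?_⟩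
  rw [hyn]
  exact Nat.find_min' h ⟨z, hz, rfl⟩

/-- What we use of the projection lemma. -/
def PR (P η : ℕ) : Prop := ∀ (V : Type) (d : V → V → ℕ) (Y : Set V),
  IsGM d → Hyp d dl → QC d η Y → ∀ v v' y y', IsPr d Y v y → IsPr d Y v' y' →
    d y y' ≤ d v v' + P ∧
    (P < d y y' → (∃ z, Bt d v z v' ∧ d y z ≤ P) ∧ ∃ z, Bt d v z v' ∧ d y' z ≤ P)

section

variable {X S : Type} {d : X → X → ℕ} {u : ℕ} {Y : S → Set X} {η η1 P : ℕ}

/-- Passing through another apex moves projections by a bounded amount. -/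
theorem apex_step (H : ConeH d u Y η η1) (hη1 : P + η ≤ η1) (hP : PR P η) {s t : S}
    (hst : t ≠ s) {z z' pr pr' : X} (hz : z ∈ Y t) (hz' : z' ∈ Y t) (h : IsPr d (Y s) z pr)
    (h' : IsPr d (Y s) z' pr') : d pr pr' ≤ u + P := by
  by_contra hcon
  have hbig : P < d pr pr' := by omega
  obtain ⟨⟨w, hw, hw'⟩, ⟨w2, hw2, hw2'⟩⟩ := (hP X d (Y s) H.gm H.hyp (H.qc s) z z' pr pr' h h').2
    hbig
  obtain ⟨x, hx, hx'⟩ := H.qc t z hz z' hz' w hw
  obtain ⟨x2, hx2, hx2'⟩ := H.qc t z hz z' hz' w2 hw2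
  have e1 := H.gm.tri pr w x
  have e2 := H.gm.tri pr' w2 x2
  have e3 := H.gm.self pr
  have e4 := H.gm.self pr'
  have := H.ov s t (Ne.symm hst) pr pr' ⟨pr, h.1, by omega⟩ ⟨x, hx, by omega⟩
    ⟨pr', h'.1, by omega⟩ ⟨x2, hx2, by omega⟩
  omega

/-- Two base points of the same vertex. -/
theorem same_step (H : ConeH d u Y η η1) (hη1 : P + η ≤ η1) (hP : PR P η) {s : S}
    {a : X ⊕ S} (ha : a ≠ Sum.inr s) {v v' pr pr' : X} (hv : IsBase Y a v) (hv' : IsBase Y a v')
    (h : IsPr d (Y s) v pr) (h' : IsPr d (Y s) v' pr') : d pr pr' ≤ u + P := by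
  cases a with
  | inl w =>
    have e1 : v = w := hv
    have e2 : v' = w := hv'
    subst e1
    subst e2
    have := (hP X d (Y s) H.gm H.hyp (H.qc s) v' v' pr pr' h h').1
    have e3 := H.gm.self v'
    omega
  | inr t =>
    have hts : t ≠ s := fun e => ha (by rw [e])
    exact apex_step H hη1 hP hts hv hv' h h'

/-- Projections along a path avoiding the apex. -/
theorem path_step (H : ConeH d u Y η η1) (hη1 : P + η ≤ η1) (hP : PR P η) {s : S}
    (p : ℕ → X ⊕ S) (m : ℕ) : (∀ i, i ≤ m → p i ≠ Sum.inr s) →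
    (∀ i, i < m → coneAdj d u Y (p i) (p (i + 1))) →
    ∀ v v' pr pr' : X, IsBase Y (p 0) v → IsBase Y (p m) v' →
    IsPr d (Y s) v pr → IsPr d (Y s) v' pr' → d pr pr' ≤ (m + 1) * (u + P) := by
  induction m with
  | zero =>
    intro hav _ v v' pr pr' hv hv' h h'
    have := same_step H hη1 hP (hav 0 le_rfl) hv hv' h h'
    omega
  | succ m ih =>
    intro hav hadj v v' pr pr' hv hv' h h'
    have ih' := ih (fun i hi => hav i (by omega)) (fun i hi => hadj i (by omega))
    have ha := hadj m (by omega)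
    have hne := hav m (by omega)
    have hne' := hav (m + 1) le_rfl
    have key : ∃ v'' : X, IsBase Y (p m) v'' ∧ ∀ pr'', IsPr d (Y s) v'' pr'' →
        d pr'' pr' ≤ u + P := by
      cases hm : p m with
      | inl w =>
        cases hm1 : p (m + 1) with
        | inl w' =>
          rw [hm, hm1] at ha
          rw [hm1] at hv'
          have e1 : v' = w' := hv'
          subst e1
          refine ⟨w, rfl, fun pr'' h'' => ?_⟩
          have := (hP X d (Y s) H.gm H.hyp (H.qc s) w v' pr'' pr' h'' h').1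
          have e2 : w ≠ v' ∧ d w v' ≤ u := ha
          omega
        | inr t =>
          rw [hm, hm1] at ha
          rw [hm1] at hv' hne'
          have hts : t ≠ s := fun e => hne' (by rw [e])
          refine ⟨w, rfl, fun pr'' h'' => ?_⟩
          have e1 : w ∈ Y t := ha
          exact apex_step H hη1 hP hts e1 hv' h'' h'
      | inr t =>
        cases hm1 : p (m + 1) with
        | inl w' =>
          rw [hm, hm1] at ha
          rw [hm1] at hv'
          have e1 : v' = w' := hv'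
          subst e1
          have e2 : v' ∈ Y t := ha
          refine ⟨v', e2, fun pr'' h'' => ?_⟩
          have := (hP X d (Y s) H.gm H.hyp (H.qc s) v' v' pr'' pr' h'' h').1
          have e3 := H.gm.self v'
          omega
        | inr t' =>
          rw [hm, hm1] at ha
          exact absurd ha (fun h => h)
    obtain ⟨v'', hv'', hkey⟩ := key
    obtain ⟨pr'', hpr''⟩ := exists_pr d (H.ne s) v''
    have e1 := ih' v v'' pr pr'' hv hv'' h hpr''
    have e2 := hkey pr'' hpr''
    have e3 := H.gm.tri pr pr'' pr'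
    have e4 : (m + 1 + 1) * (u + P) = (m + 1) * (u + P) + (u + P) := by ring
    omega

theorem base_exists (H : ConeH d u Y η η1) (a : X ⊕ S) : ∃ v, IsBase Y a v := by
  cases a with
  | inl w => exact ⟨w, rfl⟩
  | inr t => exact H.ne t

/-- Data of the cone-off which is used. -/
structure CO (d : X → X → ℕ) (u : ℕ) (Y : S → Set X) : Prop where
  gm : IsGM (cd d u Y)
  adj : ∀ a b, cd d u Y a b = 1 ↔ coneAdj d u Y a b
  le : ∀ (n : ℕ) (v w : X), d v w ≤ n * u → cd d u Y (Sum.inl v) (Sum.inl w) ≤ n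
  near : ∀ a b va vb, IsBase Y a va → IsBase Y b vb →
    ∀ z, Bt d va z vb → ∀ (m : ℕ) (p : ℕ → X ⊕ S), IsGeo (cd d u Y) m p → p 0 = a → p m = b →
      ∃ i, i ≤ m ∧ cd d u Y (Sum.inl z) (p i) ≤ kl + 2

/-- Projections along a geodesic far from the apex. -/
theorem far_step (H : ConeH d u Y η η1) (hP : PR P η) (hPu : P ≤ u) (K : CO d u Y) {s : S}
    {m : ℕ} {p : ℕ → X ⊕ S} (hp : IsGeo (cd d u Y) m p)
    (hfar : ∀ i, i ≤ m → kl + 5 ≤ cd d u Y (p i) (Sum.inr s)) {v v' pr pr' : X}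
    (hv : IsBase Y (p 0) v) (hv' : IsBase Y (p m) v') (h : IsPr d (Y s) v pr)
    (h' : IsPr d (Y s) v' pr') : d pr pr' ≤ P := by
  by_contra hcon
  have hbig : P < d pr pr' := by omega
  obtain ⟨⟨z, hz, hz'⟩, _⟩ := (hP X d (Y s) H.gm H.hyp (H.qc s) v v' pr pr' h h').2 hbig
  obtain ⟨i, hi, hi'⟩ := K.near (p 0) (p m) v v' hv hv' z hz m p hp rfl rfl
  have e0 := H.gm.comm z pr
  have e1 := K.le 1 z pr (by omega)
  have e2 : cd d u Y (Sum.inl pr) (Sum.inr s) = 1 := (K.adj _ _).2 h.1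
  have e3 := K.gm.tri (p i) (Sum.inl z) (Sum.inr s)
  have e4 := K.gm.tri (Sum.inl z) (Sum.inl pr) (Sum.inr s)
  have e5 := K.gm.comm (p i) (Sum.inl z)
  have e6 := hfar i hi
  omega

theorem geo_adj (K : CO d u Y) {m : ℕ} {p : ℕ → X ⊕ S} (hp : IsGeo (cd d u Y) m p) (i : ℕ)
    (hi : i < m) : coneAdj d u Y (p i) (p (i + 1)) := by
  apply (K.adj _ _).1
  have := hp i (i + 1) (by omega) (by omega)
  omega

/-- Geodesic segments avoiding the apex, long or short. -/
theorem geo_step (H : ConeH d u Y η η1) (hη1 : P + η ≤ η1) (hP : PR P η) (K : CO d u Y)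
    {s : S} {m : ℕ} {p : ℕ → X ⊕ S} (hp : IsGeo (cd d u Y) m p) (a n : ℕ) (han : a + n ≤ m)
    (hav : ∀ i, a ≤ i → i ≤ a + n → p i ≠ Sum.inr s) {v v' pr pr' : X}
    (hv : IsBase Y (p a) v) (hv' : IsBase Y (p (a + n)) v') (h : IsPr d (Y s) v pr)
    (h' : IsPr d (Y s) v' pr') : d pr pr' ≤ (n + 1) * (u + P) := by
  have hg := hp.shift a (m := n) han
  exact path_step H hη1 hP (fun i => p (a + i)) n (fun i hi => hav _ (by omega) (by omega))
    (fun i hi => geo_adj K hg i hi) v v' pr pr' hv hv' h h'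

/-- Lemma 2.1. -/
theorem near_step (H : ConeH d u Y η η1) (hη1 : P + η ≤ η1) (hP : PR P η) (hPu : P ≤ u)
    (K : CO d u Y) {s : S} {a : X ⊕ S} {v y pr : X} (hv : IsBase Y a v)
    (hpr : IsPr d (Y s) v pr) (hy : Sum.inl y ∈ Nb (cd d u Y) (Sum.inr s) a) :
    d y pr ≤ (kl + 8) * (u + P) := by
  obtain ⟨hy1, hy2⟩ := hy
  have hyY : y ∈ Y s := (K.adj _ _).1 hy1
  have hyp : IsPr d (Y s) y y := ⟨hyY, fun z _ => by rw [H.gm.self]; exact Nat.zero_le _⟩
  obtain ⟨p, hp0, hpn, hp⟩ := K.gm.exists_geo a (Sum.inl y)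
  have hdist : ∀ i, i ≤ cd d u Y a (Sum.inl y) →
      cd d u Y (p i) (Sum.inr s) = cd d u Y a (Sum.inl y) + 1 - i := by
    intro i hi
    have e1 := hp 0 i (by omega) hi
    have e2 := hp i _ hi le_rfl
    rw [hp0] at e1
    rw [hpn] at e2
    have e3 := K.gm.tri a (p i) (Sum.inr s)
    have e4 := K.gm.tri (p i) (Sum.inl y) (Sum.inr s)
    omega
  have hav : ∀ i, i ≤ cd d u Y a (Sum.inl y) → p i ≠ Sum.inr s := by
    intro i hi e
    have e1 := hdist i hi
    rw [e, K.gm.self] at e1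
    omega
  generalize hn : cd d u Y a (Sum.inl y) = n at *
  have e0 := H.gm.comm y pr
  by_cases hk : n + 1 ≤ kl + 5
  · have h1 := geo_step H hη1 hP K hp 0 n (by omega) (fun i _ hi => hav i (by omega))
      (by rw [hp0]; exact hv) (by rw [Nat.zero_add, hpn]; exact (rfl : y = y)) hpr hyp
    have h2 : (n + 1) * (u + P) ≤ (kl + 8) * (u + P) := Nat.mul_le_mul_right _ (by omega)
    omega
  · have hk0 : n + 1 - (kl + 5) + (kl + 4) = n := by omega
    obtain ⟨v0, hv0⟩ := base_exists H (p (n + 1 - (kl + 5)))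
    obtain ⟨pr0, hpr0⟩ := exists_pr d (H.ne s) v0
    have h1 := far_step H hP hPu K (s := s) (hp.mono (m := n + 1 - (kl + 5)) (by omega))
      (fun i hi => by rw [hdist i (by omega)]; omega) (v := v) (v' := v0)
      (by rw [hp0]; exact hv) hv0 hpr hpr0
    have h2 := geo_step H hη1 hP K hp (n + 1 - (kl + 5)) (kl + 4) (by omega)
      (fun i _ hi => hav i (by omega)) hv0
      (by rw [hk0, hpn]; exact (rfl : y = y)) hpr0 hyp
    have h3 := H.gm.tri pr pr0 y
    have h4 : (kl + 8) * (u + P) = (kl + 4 + 1) * (u + P) + 3 * (u + P) := by ring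
    omega

/-- Lemma 2.2. -/
theorem bgi_step (H : ConeH d u Y η η1) (hη1 : P + η ≤ η1) (hP : PR P η) (hPu : P ≤ u)
    (K : CO d u Y) {s : S} {a b : X ⊕ S} (hab : cd d u Y a b ≠
      cd d u Y a (Sum.inr s) + cd d u Y (Sum.inr s) b) {va vb pra prb : X}
    (hva : IsBase Y a va) (hvb : IsBase Y b vb) (ha : IsPr d (Y s) va pra)
    (hb : IsPr d (Y s) vb prb) : d pra prb ≤ (2 * kl + 20) * (u + P) := by
  obtain ⟨p, hp0, hpn, hp⟩ := K.gm.exists_geo a b
  generalize hn : cd d u Y a b = n at *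
  have hav : ∀ i, i ≤ n → p i ≠ Sum.inr s := by
    intro i hi e
    have e1 := hp 0 i (by omega) hi
    have e2 := hp i n hi le_rfl
    rw [hp0, e] at e1
    rw [hpn, e] at e2
    omega
  by_cases hall : ∀ i, i ≤ n → kl + 5 ≤ cd d u Y (p i) (Sum.inr s)
  · have h1 := far_step H hP hPu K hp hall (by rw [hp0]; exact hva)
      (by rw [hpn]; exact hvb) ha hb
    have h2 : (2 * kl + 20) * (u + P) = (2 * kl + 19) * (u + P) + (u + P) := by ring
    omega
  · push Not at hall
    classical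
    have hex : ∃ i, i ≤ n ∧ cd d u Y (p i) (Sum.inr s) < kl + 5 := hall
    -- first index
    obtain ⟨hi1, hi1'⟩ := Nat.find_spec hex
    have hmin1 : ∀ i, i < Nat.find hex → i ≤ n → kl + 5 ≤ cd d u Y (p i) (Sum.inr s) := by
      intro i hi hin
      by_contra hc
      exact Nat.find_min hex hi ⟨hin, by omega⟩
    generalize Nat.find hex = i1 at *
    -- last index
    have hex2 : ∃ i, i ≤ n ∧ cd d u Y (p (n - i)) (Sum.inr s) < kl + 5 :=
      ⟨n - i1, by omega, by
        have : n - (n - i1) = i1 := by omega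
        rw [this]
        exact hi1'⟩
    obtain ⟨hi2, hi2'⟩ := Nat.find_spec hex2
    have hmin2 : ∀ i, n - Nat.find hex2 < i → i ≤ n →
        kl + 5 ≤ cd d u Y (p i) (Sum.inr s) := by
      intro i hi hin
      by_contra hc
      refine Nat.find_min hex2 (m := n - i) (by omega) ⟨by omega, ?_⟩
      have : n - (n - i) = i := by omega
      rw [this]
      omega
    generalize Nat.find hex2 = i2' at *
    obtain ⟨i2, hi2e⟩ : ∃ i2, i2 = n - i2' := ⟨_, rfl⟩
    rw [← hi2e] at hi2' hmin2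
    have h12 : i1 ≤ i2 := by
      by_contra hc
      have := hmin1 i2 (by omega) (by omega)
      omega
    have hlen : i2 ≤ i1 + 2 * kl + 8 := by
      have e1 := hp i1 i2 h12 (by omega)
      have e2 := K.gm.tri (p i1) (Sum.inr s) (p i2)
      have e3 := K.gm.comm (p i2) (Sum.inr s)
      omega
    -- cut points
    obtain ⟨j1, hj1⟩ : ∃ j1, j1 = i1 - 1 := ⟨_, rfl⟩
    obtain ⟨j2, hj2⟩ : ∃ j2, j2 = min (i2 + 1) n := ⟨_, rfl⟩
    obtain ⟨v1, hv1⟩ := base_exists H (p j1)
    obtain ⟨pr1, hpr1⟩ := exists_pr d (H.ne s) v1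
    obtain ⟨v2, hv2⟩ := base_exists H (p j2)
    obtain ⟨pr2, hpr2⟩ := exists_pr d (H.ne s) v2
    have hj2n : j2 ≤ n := by rw [hj2]; exact min_le_right _ _
    have hj2i : i2 ≤ j2 := by rw [hj2]; exact le_min (by omega) (by omega)
    have hj2i' : j2 ≤ i2 + 1 := by rw [hj2]; exact min_le_left _ _
    have h1 : d pra pr1 ≤ u + P := by
      by_cases h0 : i1 = 0
      · have e : j1 = 0 := by omega
        rw [e, hp0] at hv1
        have := same_step H hη1 hP (s := s) (a := a)
          (by rw [← hp0]; exact hav 0 (by omega)) hva hv1 ha hpr1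
        exact this
      · have := far_step H hP hPu K (s := s) (hp.mono (m := j1) (by omega))
          (fun i hi => hmin1 i (by omega) (by omega)) (v := va) (v' := v1)
          (by rw [hp0]; exact hva) hv1 ha hpr1
        omega
    have h3 : d pr2 prb ≤ u + P := by
      by_cases h0 : i2 = n
      · have e : j2 = n := by omega
        rw [e, hpn] at hv2
        have := same_step H hη1 hP (s := s) (a := b)
          (by rw [← hpn]; exact hav n le_rfl) hv2 hvb hpr2 hb
        exact this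
      · have hj2' : j2 = i2 + 1 := by rw [hj2]; exact min_eq_left (by omega)
        have := far_step H hP hPu K (s := s) (hp.shift j2 (m := n - j2) (by omega))
          (fun i hi => hmin2 (j2 + i) (by omega) (by omega)) (v := v2) (v' := vb)
          hv2 (by
            have e : j2 + (n - j2) = n := by omega
            show IsBase Y (p (j2 + (n - j2))) vb
            rw [e, hpn]
            exact hvb) hpr2 hb
        omega
    have h2 := geo_step H hη1 hP K hp j1 (j2 - j1) (by omega)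
      (fun i _ hi => hav i (by omega)) hv1
      (by
        have e : j1 + (j2 - j1) = j2 := by omega
        rw [e]
        exact hv2) hpr1 hpr2
    have h4 : (j2 - j1 + 1) * (u + P) ≤ (2 * kl + 12) * (u + P) :=
      Nat.mul_le_mul_right _ (by omega)
    have h5 : (2 * kl + 20) * (u + P) = (2 * kl + 12) * (u + P) + 8 * (u + P) := by ring
    have h6 := H.gm.tri pra pr1 prb
    have h7 := H.gm.tri pr1 pr2 prb
    omega

theorem nb_inl (K : CO d u Y) {s : S} {y : X ⊕ S} (h : cd d u Y y (Sum.inr s) = 1) :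
    ∃ v, y = Sum.inl v ∧ v ∈ Y s := by
  have h' := (K.adj _ _).1 h
  cases y with
  | inl v => exact ⟨v, rfl, h'⟩
  | inr t => exact absurd h' (fun h => h)

end

end CONEPS

open CONEPS in
theorem CONEPS (h1 : Stmt_PROJ) (h2 : Stmt_CONEGM) (h3 : Stmt_CONEA) : Stmt_CONEPS := by
  intro η
  obtain ⟨P, hP⟩ := h1 dl η
  refine ⟨P + η, P + η + 4 * dl + 8 * kl + 100, by omega, ?_⟩
  intro X S d u Y H hu
  have hP' : PR P η := by
    intro V d Y hd hh hq v v' y y' h h'
    have := hP V d Y hd hh hq v v' y y' h h'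
    exact ⟨this.2.1, this.2.2.2.1⟩
  obtain ⟨g1, g2, g3⟩ := h2 X S d u Y H.gm (by omega) H.ne
  obtain ⟨a1, a2⟩ := h3 X S d u η Y H.gm H.hyp H.ne H.qc (by omega) (by omega) (by omega)
  have K : CO d u Y := ⟨g1, g2, g3, fun a b va vb ha hb => (a2 a b va vb ha hb).1⟩
  have hη1 : P + η ≤ P + η := le_rfl
  have hPu : P ≤ u := by omega
  have hb1 : (kl + 8) * (u + P) ≤ (2 * kl + 16) * u := by
    have : (2 * kl + 16) * u = (kl + 8) * (u + u) := by ring
    rw [this]
    exact Nat.mul_le_mul_left _ (by omega)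
  have hb2 : (2 * kl + 20) * (u + P) ≤ (4 * kl + 40) * u := by
    have : (4 * kl + 40) * u = (2 * kl + 20) * (u + u) := by ring
    rw [this]
    exact Nat.mul_le_mul_left _ (by omega)
  have hb3 : (8 * kl + 72) * u ≤ (P + η + 4 * dl + 8 * kl + 100) * u :=
    Nat.mul_le_mul_right _ (by omega)
  have hb4 : (8 * kl + 72) * u = (2 * kl + 16) * u + (2 * kl + 16) * u + (4 * kl + 40) * u := by
    ring
  refine
    { toConeH := H
      hypc := a1
      ps := ?_
      near := ?_
      one_le := by omega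
      le_u := hu
      eta_le := by omega
      dl_le := by omega }
  · refine
      { gm := g1
        nadj := ?_
        cself := ?_
        csymm := ?_
        ctri := ?_
        bgi := ?_ }
    · rintro s ⟨s', rfl⟩ t ⟨t', rfl⟩ e
      exact (g2 _ _).1 e
    · rintro s ⟨s', rfl⟩ y hy
      obtain ⟨v, rfl, _⟩ := nb_inl K hy
      exact H.gm.self v
    · rintro s ⟨s', rfl⟩ y y' hy hy'
      obtain ⟨v, rfl, _⟩ := nb_inl K hy
      obtain ⟨v', rfl, _⟩ := nb_inl K hy'
      exact H.gm.comm v v'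
    · rintro s ⟨s', rfl⟩ y y' y'' hy hy' hy''
      obtain ⟨v, rfl, _⟩ := nb_inl K hy
      obtain ⟨v', rfl, _⟩ := nb_inl K hy'
      obtain ⟨v'', rfl, _⟩ := nb_inl K hy''
      exact H.gm.tri v v' v''
    · rintro s ⟨s', rfl⟩ a b y y' hy hy' hc
      by_contra hcon
      obtain ⟨v, rfl, _⟩ := nb_inl K hy.1
      obtain ⟨v', rfl, _⟩ := nb_inl K hy'.1
      obtain ⟨va, hva⟩ := base_exists H a
      obtain ⟨vb, hvb⟩ := base_exists H b
      obtain ⟨pra, hpra⟩ := exists_pr d (H.ne s') va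
      obtain ⟨prb, hprb⟩ := exists_pr d (H.ne s') vb
      have e1 := near_step H hη1 hP' hPu K hva hpra hy
      have e2 := near_step H hη1 hP' hPu K hvb hprb hy'
      have e3 := bgi_step H hη1 hP' hPu K hcon hva hvb hpra hprb
      have e4 := H.gm.tri v pra v'
      have e5 := H.gm.tri pra prb v'
      have e6 := H.gm.comm prb v'
      have e7 : (P + η + 4 * dl + 8 * kl + 100) * u < d v v' := hc
      omega
  · intro s a v y pr hv hpr hy
    have e1 := near_step H hη1 hP' hPu K hv hpr hy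
    omega

end Pool.Agent.Olsh
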