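import Pool.Agent.Olsh.StmtsP

/-!
# MP_3cdb71_al: commutation is transitive in the quotient (block CSAQ)
-/

set_option autoImplicit false

namespace Pool.Agent.Olsh

namespace CSAQ

/-- `LQ` is monotone in `U`. -/
theorem lq_mono {G G' X S A' : Type} [Group G] [MulAction G X] [MulAction G S]
    [Group G'] [MulAction G' A'] {d : X → X → ℕ} {u L : ℕ} {Y : S → Set X} {η η1 C : ℕ}
    {d' : A' → A' → ℕ} {π : G →* G'} {q : X ⊕ S → A'} {a0 L0 : ℕ} {CP : ℕ → ℕ} {M0 U U' : ℕ}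
    (h : LQ G G' d u L Y η η1 C d' π q a0 L0 CP M0 U) (hU : U' ≤ U) :
    LQ G G' d u L Y η η1 C d' π q a0 L0 CP M0 U' :=
  ⟨h.toConeQ, h.lev, hU.trans h.hu, (Nat.mul_le_mul_right _ hU).trans h.hL, h.heta⟩

end CSAQ

theorem CSAQ (h1 : Stmt_GWA) (h2 : Stmt_LOXQ) (h3 : Stmt_QGM) (h4 : Stmt_QHYP) :
    Stmt_CSAQ := by
  intro η η1 C
  obtain ⟨A, F, hA⟩ := h1 η η1 C
  refine ⟨A, fun a0 L0 CP M0 ha => ?_⟩
  obtain ⟨U1, hU1⟩ := hA a0 L0 CP M0 ha
  obtain ⟨U2, hU2⟩ := h2 η η1 C a0 L0 CP M0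
  refine ⟨max U1 U2, ?_⟩
  intro G G' X S A' _ _ _ _ _ d u L Y d' π q hLQ a b c hb hab hbc
  have hQ1 := CSAQ.lq_mono hLQ (le_max_left U1 U2)
  have hQ2 := CSAQ.lq_mono hLQ (le_max_right U1 U2)
  obtain ⟨hd', hG'⟩ := h3 G (X ⊕ S) G' A' (cd d u Y) (KK G (apx X S)) d' π q
    hLQ.conep.ps.gm hLQ.rotc.isom hLQ.quot
  have hG : IsomAct G' d' := hG'
  have hh : Hyp d' dl := h4 G (X ⊕ S) G' A' (cd d u Y) (apx X S) (cdX d) (C * u) L dl d' π q
    hLQ.rotc hLQ.quot hLQ.conep.hypc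
  obtain ⟨x₀⟩ := hLQ.lev.ne
  have : Nonempty A' := ⟨q (Sum.inl x₀)⟩
  have hlox : 0 < slen d' b := hU2 G G' X S A' d u L Y d' π q hQ2 b hb
  obtain ⟨z, hz⟩ : (AX d' b).Nonempty := IsomAct.Ax_nonempty DD b
  have hDD : 7 * dl + 2 ≤ DD := by
    unfold DD
    omega
  -- the displacement bound
  obtain ⟨na, hna⟩ := exists_nat_ge (slen d' a)
  obtain ⟨nc, hnc⟩ := exists_nat_ge (slen d' c)
  set D := na + nc + 16 * dl with hD
  have hla : ∀ w ∈ AX d' b, d' w (a • w) ≤ D := by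
    intro w hw
    have h5 := hG.ax_dist_le hh hd' hDD hlox (show Commute a b from hab) hw
    have hnc0 : (0 : ℝ) ≤ nc := Nat.cast_nonneg nc
    have h6 : (d' w (a • w) : ℝ) ≤ D := by
      rw [hD]
      push_cast
      linarith
    exact_mod_cast h6
  have hlc : ∀ w ∈ AX d' b, d' w (c • w) ≤ D := by
    intro w hw
    have h5 := hG.ax_dist_le hh hd' hDD hlox (show Commute c b from hbc.symm) hw
    have hna0 : (0 : ℝ) ≤ na := Nat.cast_nonneg na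
    have h6 : (d' w (c • w) : ℝ) ≤ D := by
      rw [hD]
      push_cast
      linarith
    exact_mod_cast h6
  -- far points on the axis
  obtain ⟨j, hj⟩ := exists_nat_ge ((F D : ℝ) / slen d' b)
  have hj' : (F D : ℝ) ≤ j * slen d' b := by
    rwa [div_le_iff₀ hlox] at hj
  have hw : b ^ j • z ∈ AX d' b :=
    (hG.smul_mem_Ax_of_commute DD ((Commute.refl b).pow_left j) z).2 hz
  have hfar : F D ≤ d' z (b ^ j • z) := by
    have h5 := IsomAct.slen_mul_le (d := d') b z j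
    have h6 : (F D : ℝ) ≤ d' z (b ^ j • z) := hj'.trans h5
    exact_mod_cast h6
  exact hU1 G G' X S A' d u L Y d' π q hQ1 D a c z (b ^ j • z) (hla z hz) (hla _ hw) (hlc z hz)
    (hlc _ hw) hfar

end Pool.Agent.Olsh
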