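import Pool.Agent.Olsh.StmtsC

/-!
# MP_3cdb71_al, module OLC_DICH (Lemma 4.8 of `H92.md`): a big apex or a lift with small angles
-/

set_option autoImplicit false

namespace Pool.Agent.Olsh

namespace DICH

/-- A vertex of the quotient outside the apexes has a lift in `X`. -/
theorem lift_inl {G G' X S A' : Type} [Group G] [MulAction G X] [MulAction G S] [Group G']
    [MulAction G' A'] {K : Subgroup G} {d : X ⊕ S → X ⊕ S → ℕ} {d' : A' → A' → ℕ} {π : G →* G'}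
    {q : X ⊕ S → A'} (H : IsQuot K d d' π q) (v : A') (hv : v ∉ q '' apx X S) :
    ∃ x : X, q (Sum.inl x) = v := by
  obtain ⟨a, ha⟩ := H.surj v
  rcases a with x | s
  · exact ⟨x, ha⟩
  · exact absurd ⟨Sum.inr s, ⟨s, rfl⟩, ha⟩ hv

/-- A vertex at distance one of an apex lies in `X`. -/
theorem inl_of_nb {X S : Type} {d : X ⊕ S → X ⊕ S → ℕ} {c : X ⊕ S → X ⊕ S → X ⊕ S → ℕ} {T0 : ℕ}
    (H : IsPS d (apx X S) c T0) (s : S) (y : X ⊕ S) (hy : d y (Sum.inr s) = 1) :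
    ∃ x : X, y = Sum.inl x := by
  rcases y with x | t
  · exact ⟨x, rfl⟩
  · exact absurd hy (H.nadj _ ⟨t, rfl⟩ _ ⟨s, rfl⟩)

end DICH

theorem DICH (h1 : Stmt_PSA) (h2 : Stmt_QPS) (h3 : Stmt_ANGX) (h4 : Stmt_QGM) : Stmt_DICH := by
  classical
  intro η η1 C
  obtain ⟨K, hK⟩ := h3 η η1 C
  refine ⟨K + C, ?_⟩
  intro G G' X S A' _ _ _ _ _ d u L Y d' π q H hCu hCL M v w hv hw
  by_cases hbig : ∃ s ∈ q '' apx X S, M < ang d' (cq (cd d u Y) (cdX d) q) s v w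
  · exact Or.inl hbig
  right
  push Not at hbig
  have hKu : K ≤ u := by omega
  have hX := hK X S d u Y H.conep hKu
  obtain ⟨hgm', -⟩ := h4 G (X ⊕ S) G' A' (cd d u Y) (KK G (apx X S)) d' π q
    H.rotc.gm H.rotc.isom H.quot
  obtain ⟨hps', -, -, -, -, hatt, hdir, -⟩ := h2 G (X ⊕ S) G' A' (cd d u Y) (apx X S) (cdX d)
    (C * u) L d' π q H.rotc H.quot
  have hKK : ∀ k ∈ KK G (apx X S), ∀ a, q (k • a) = q a := by
    intro k hk a
    rw [H.quot.equiv, (H.quot.ker k).2 hk, one_smul]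
  -- lifts exist
  obtain ⟨v₀, hv₀⟩ := DICH.lift_inl H.quot v hv
  obtain ⟨w₀, hw₀⟩ := DICH.lift_inl H.quot w hw
  obtain ⟨k, hk, hkd⟩ := H.quot.ex (Sum.inl v₀) (Sum.inl w₀)
  have hex : ∃ n : ℕ, ∃ v₁ w₁ : X, q (Sum.inl v₁) = v ∧ q (Sum.inl w₁) = w ∧
      cd d u Y (Sum.inl v₁) (Sum.inl w₁) = d' v w ∧ d v₁ w₁ = n := by
    refine ⟨_, v₀, k • w₀, hv₀, ?_, ?_, rfl⟩
    · have := hKK k hk (Sum.inl w₀)
      rw [Sum.smul_inl] at this
      rw [this, hw₀]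
    · rw [Sum.smul_inl, hv₀, hw₀] at hkd
      exact hkd
  obtain ⟨v₁, w₁, hv₁, hw₁, hcd, hn⟩ := Nat.find_spec hex
  have hmin : ∀ v₂ w₂ : X, q (Sum.inl v₂) = v → q (Sum.inl w₂) = w →
      cd d u Y (Sum.inl v₂) (Sum.inl w₂) = d' v w → d v₁ w₁ ≤ d v₂ w₂ := by
    intro v₂ w₂ a b c
    rw [hn]
    exact Nat.find_min' hex ⟨v₂, w₂, a, b, c, rfl⟩
  refine ⟨v₁, w₁, hv₁, hw₁, hcd, ?_⟩
  intro s
  by_contra hlt
  push Not at hlt
  have hs : (Sum.inr s : X ⊕ S) ∈ apx X S := ⟨s, rfl⟩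
  have hT : C * u < ang (cd d u Y) (cdX d) (Sum.inr s) (Sum.inl v₁) (Sum.inl w₁) := by
    have : C * u ≤ (K + C) * u := Nat.mul_le_mul_right _ (by omega)
    omega
  obtain ⟨-, -, hnb, -, -, -, -, hcut, -⟩ := h1 (X ⊕ S) (cd d u Y) (apx X S) (cdX d) (C * u)
    H.conep.ps (Sum.inr s) hs
  obtain ⟨hsum, hne1, hne2⟩ := hcut _ _ hT
  obtain ⟨y, hy, y', hy', hyy⟩ := hnb _ _ hne1 hne2
  obtain ⟨x, rfl⟩ := DICH.inl_of_nb H.conep.ps s y hy.1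
  obtain ⟨x', rfl⟩ := DICH.inl_of_nb H.conep.ps s y' hy'.1
  change d x x' = _ at hyy
  have hfar : K * u < d x x' := by
    have : K * u ≤ (K + C) * u := Nat.mul_le_mul_right _ (by omega)
    omega
  have hX2 := (hX s v₁ w₁).2 x x' hy hy' hfar
  -- directions in the quotient
  have hcomm := H.rotc.gm.comm
  have hcomm' := hgm'.comm
  have e1 := H.quot.le (Sum.inl v₁) (Sum.inr s)
  have e2 := H.quot.le (Sum.inr s) (Sum.inl w₁)
  have e3 := hgm'.tri v (q (Sum.inr s)) w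
  rw [hv₁] at e1
  rw [hw₁] at e2
  have f1 : cd d u Y (Sum.inl v₁) (Sum.inr s) = d' (q (Sum.inl v₁)) (q (Sum.inr s)) := by
    rw [hv₁]; omega
  have f2 : cd d u Y (Sum.inl w₁) (Sum.inr s) = d' (q (Sum.inl w₁)) (q (Sum.inr s)) := by
    rw [hw₁, hcomm, hcomm' w]; omega
  have g1 := hdir (Sum.inr s) hs (Sum.inl v₁) f1 (Sum.inl x) hy
  have g2 := hdir (Sum.inr s) hs (Sum.inl w₁) f2 (Sum.inl x') hy'
  rw [hv₁] at g1
  rw [hw₁] at g2
  obtain ⟨-, hle', -⟩ := h1 A' d' (q '' apx X S) (cq (cd d u Y) (cdX d) q) (C * u) hps'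
    (q (Sum.inr s)) ⟨_, hs, rfl⟩
  have g3 := hle' v w _ _ g1 g2
  have g4 := hbig (q (Sum.inr s)) ⟨_, hs, rfl⟩
  -- the rotation
  obtain ⟨-, r, hr, hrq⟩ := hatt (Sum.inr s) hs (Sum.inl x) (Sum.inl x') hy.1 hy'.1
  rw [Sum.smul_inl] at hrq
  change _ = d x (r • x') at hrq
  have hrK : r ∈ KK G (apx X S) := Subgroup.subset_closure ⟨_, hs, hr⟩
  have i1 : q (Sum.inl (r • w₁)) = w := by
    have := hKK r hrK (Sum.inl w₁)
    rw [Sum.smul_inl] at this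
    rw [this, hw₁]
  have i2 : cd d u Y (Sum.inr s) (Sum.inl (r • w₁)) = cd d u Y (Sum.inr s) (Sum.inl w₁) := by
    have := H.rotc.isom r (Sum.inr s) (Sum.inl w₁)
    rw [hr, Sum.smul_inl] at this
    exact this
  have i3 := H.rotc.gm.tri (Sum.inl v₁) (Sum.inr s) (Sum.inl (r • w₁))
  have i4 := H.quot.le (Sum.inl v₁) (Sum.inl (r • w₁))
  rw [hv₁, i1] at i4
  have i5 : cd d u Y (Sum.inl v₁) (Sum.inl (r • w₁)) = d' v w := by omega
  have i6 := hmin v₁ (r • w₁) hv₁ i1 i5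
  have j1 := H.gm.tri v₁ x (r • w₁)
  have j2 := H.gm.tri x (r • x') (r • w₁)
  have j3 := H.isom r x' w₁
  have j4 : K * u ≤ (K + C) * u := Nat.mul_le_mul_right _ (by omega)
  omega

end Pool.Agent.Olsh
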