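import Pool.Agent.Olsh.StmtsC

/-!
# MP_3cdb71_al: fine displacement (Lemma 4.7 of `H92.md`)
-/

set_option autoImplicit false

namespace Pool.Agent.Olsh

/-- Lemma 4.7: fine displacement bounds angles in the quotient. -/
theorem FINE (h1 : Stmt_PSA) (h2 : Stmt_POLY) (h3 : Stmt_QPS) (h4 : Stmt_ANGX)
    (h5 : Stmt_KFREE) : Stmt_FINE := by
  intro η η1 C
  obtain ⟨C1, hC1⟩ := h4 η η1 C
  refine ⟨2 * C1 + 100 * C + 100, ?_⟩
  intro G G' X S A' _ _ _ _ _ d u L Y d' π q hQ hu hL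
  have hang := hC1 X S d u Y hQ.conep (by omega)
  have hmul : 2 * (C1 * u) + 100 * (C * u) + 100 * u ≤ L := by
    have e : (2 * C1 + 100 * C + 100) * u = 2 * (C1 * u) + 100 * (C * u) + 100 * u := by ring
    omega
  have hle : C1 * u ≤ (2 * C1 + 100 * C + 100) * u := Nat.mul_le_mul_right _ (by omega)
  have hinl : ∀ v : X, (Sum.inl v : X ⊕ S) ∉ apx X S := by
    rintro v ⟨s, hs⟩
    exact absurd hs (by simp)
  refine ⟨?_, ?_⟩
  · rintro v w hvw s' ⟨s, hs, rfl⟩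
    obtain ⟨hps, -, -, -, hback, -, -, -⟩ :=
      h3 G (X ⊕ S) G' A' (cd d u Y) (apx X S) (cdX d) (C * u) L d' π q hQ.rotc hQ.quot
    have hqs : q s ∈ q '' apx X S := ⟨s, hs, rfl⟩
    obtain ⟨-, -, hmax, -⟩ := h1 A' d' (q '' apx X S) (cq (cd d u Y) (cdX d) q) (C * u) hps
      (q s) hqs
    have hv : q (Sum.inl v) ≠ q s := by
      intro h
      exact hinl v (hback _ (by rw [h]; exact hqs))
    have hw : q (Sum.inl w) ≠ q s := by
      intro h
      exact hinl w (hback _ (by rw [h]; exact hqs))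
    obtain ⟨y, hy, y', hy', hyy⟩ := hmax _ _ hv hw
    -- the polygon
    have hgm' : IsGM d' := hps.gm
    obtain ⟨-, hpoly⟩ := h2 G (X ⊕ S) G' A' (cd d u Y) (apx X S) (cdX d) (C * u) L d' π q
      hQ.rotc hQ.quot
    let x : ℕ → A' := fun i => match i with
      | 0 => q (Sum.inl v)
      | 1 => q (Sum.inl w)
      | 2 => y'
      | 3 => q s
      | 4 => y
      | _ => q (Sum.inl v)
    obtain ⟨a, ha0, ha1, haq, had, han⟩ := hpoly 5 (d v w + C1 * u) x (Sum.inl v) (Sum.inl w)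
      (hinl v) (hinl w) (by
        rintro t ⟨t0, rfl⟩
        exact (hang t0 v w).1) rfl rfl (by omega) rfl (by omega)
    have h12 : cd d u Y (a 1) (a 2) = d' (q (Sum.inl w)) y' := had 1 (by omega) (by omega)
    have h23 : cd d u Y (a 2) (a 3) = d' y' (q s) := had 2 (by omega) (by omega)
    have h34 : cd d u Y (a 3) (a 4) = d' (q s) y := had 3 (by omega) (by omega)
    have h45 : cd d u Y (a 4) (a 5) = d' y (q (Sum.inl v)) := had 4 (by omega) (by omega)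
    have q2 : q (a 2) = y' := haq 2 (by omega)
    have q3 : q (a 3) = q s := haq 3 (by omega)
    have q4 : q (a 4) = y := haq 4 (by omega)
    have hgm : IsGM (cd d u Y) := hQ.conep.ps.gm
    obtain ⟨s1, hs1⟩ : a 3 ∈ apx X S := hback _ (by rw [q3]; exact hqs)
    rw [ha1] at h12
    rw [han] at h45
    obtain ⟨hy1, hy2⟩ := hy
    obtain ⟨hy1', hy2'⟩ := hy'
    have c1 := hgm.comm (a 3) (a 4)
    have c2 := hgm.comm (a 4) (Sum.inl v)
    have c3 := hgm'.comm (q s) y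
    have c4 := hgm'.comm y (q (Sum.inl v))
    have l1 := hQ.quot.le (Sum.inl v) (a 3)
    have l2 := hQ.quot.le (Sum.inl w) (a 3)
    rw [q3] at l1 l2
    have t1 := hgm.tri (Sum.inl v) (a 4) (a 3)
    have t2 := hgm.tri (Sum.inl w) (a 2) (a 3)
    have n1 : a 4 ∈ Nb (cd d u Y) (a 3) (Sum.inl v) := ⟨by omega, by omega⟩
    have n2 : a 2 ∈ Nb (cd d u Y) (a 3) (Sum.inl w) := ⟨by omega, by omega⟩
    obtain ⟨-, hleang, -⟩ := h1 (X ⊕ S) (cd d u Y) (apx X S) (cdX d) (C * u) hQ.conep.ps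
      (a 3) ⟨s1, hs1⟩
    have k1 := hleang _ _ _ _ n1 n2
    have k2 := (hang s1 v w).1
    rw [hs1] at k2
    have k3 : cq (cd d u Y) (cdX d) q (q s) y y' ≤ cdX d (a 3) (a 4) (a 2) :=
      Nat.sInf_le ⟨a 3, a 4, a 2, q3, q4, q2, n1.1, n2.1, rfl⟩
    omega
  · intro v g hg hg1
    obtain ⟨-, hk, -⟩ := h5 G (X ⊕ S) (cd d u Y) (apx X S) (cdX d) (C * u) L hQ.rotc
    obtain ⟨t, ⟨t0, rfl⟩, ht⟩ := hk (Sum.inl v) (hinl v) g hg hg1
    have k2 := (hang t0 v (g • v)).1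
    rw [Sum.smul_inl] at ht
    omega

end Pool.Agent.Olsh
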