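import Pool.Agent.Olsh.StmtsP

/-!
# MP_3cdb71_al: Theorem 7.1, the case of a long element `x` (module `OLP_GX`)
-/

set_option autoImplicit false

namespace Pool.Agent.Olsh

namespace GX

variable {G X : Type} [Group G] [MulAction G X] {d : X → X → ℕ}

/-- `Y⁻¹ x Y` in the form of a conjugate. -/
theorem qW_eq (D k : ℕ) (x y : G) :
    qW D k x y = ((yW k y)⁻¹ * x * (yW k y)⁻¹⁻¹) ^ D := by
  rw [conj_pow, inv_inv]
  rfl

/-- An element does not commute with the conjugate of a non-commuting element. -/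
theorem not_comm (h2 : Stmt_MALN) {a0 L0 : ℕ} {CP : ℕ → ℕ} {M0 : ℕ}
    (hL : Lev G d a0 L0 CP M0) {x y : G} (hxy : x * y ≠ y * x) {k : ℕ} (hk : 1 ≤ k) :
    x * ((yW k y)⁻¹ * x * (yW k y)⁻¹⁻¹) ≠ ((yW k y)⁻¹ * x * (yW k y)⁻¹⁻¹) * x := by
  intro h
  obtain ⟨ht, hm⟩ := h2 G X d a0 L0 CP M0 hL
  have hx1 : x ≠ 1 := by
    rintro rfl
    exact hxy (by rw [one_mul, mul_one])
  have hy1 : y ≠ 1 := by
    rintro rfl
    exact hxy (by rw [one_mul, mul_one])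
  have h3 := hm x (yW k y)⁻¹ hx1 h
  have h4 : Commute x (yW k y) := Commute.inv_right_iff.mp h3
  have h5 : yW k y ≠ 1 := fun h6 => hy1 (ht y k hk h6)
  have h6 : yW k y * y = y * yW k y := by
    unfold yW
    rw [← pow_succ, ← pow_succ']
  exact hxy (hL.csa x (yW k y) y h5 h4.eq h6)

end GX

open GX in
theorem GX (h1 : Stmt_OVAX) (h2 : Stmt_MALN) (h3 : Stmt_PROD) : Stmt_GX := by
  obtain ⟨A, hA⟩ := h1
  obtain ⟨r, C, hP⟩ := h3 dl
  obtain ⟨C', hC'⟩ := hA (r + (45 * dl + 4))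
  refine ⟨A, fun V1 a0 L0 ha0 => ?_⟩
  set c : ℕ := 45 * dl + 4 with hc
  set K : ℕ := 4 * L0 + 2 * C' + C + 4 * c + 10 + 37 * dl + 5 with hK
  refine ⟨400 + 20 * V1 * K, fun D k hD hk G X _ _ d CP M0 hL x y hxy hV ρ hρ => ?_⟩
  have hd := hL.gm
  have hh := hL.hyp
  have hG := hL.isom
  have : Nonempty X := hL.ne
  have hx1 : x ≠ 1 := by
    rintro rfl
    exact hxy (by rw [one_mul, mul_one])
  have hs : 0 < slen d x := hL.lox x hx1
  set s : ℝ := slen d x with hsdef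
  set Y := yW k y with hY
  set x' := Y⁻¹ * x * Y⁻¹⁻¹ with hx'
  have hs' : slen d x' = s := hG.slen_conj x Y⁻¹
  have hncomm : x * x' ≠ x' * x := not_comm h2 hL hxy hk
  have hDs : 400 * s + 20 * (K : ℝ) ≤ D * s := by
    have e1 : ((400 + 20 * V1 * K : ℕ) : ℝ) ≤ D := by exact_mod_cast hD
    push_cast at e1
    have e2 : (400 + 20 * (V1 : ℝ) * K) * s ≤ D * s := mul_le_mul_of_nonneg_right e1 hs.le
    have e3 : (K : ℝ) * 1 ≤ K * (V1 * s) := mul_le_mul_of_nonneg_left hV (Nat.cast_nonneg _)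
    nlinarith
  have hKr : (K : ℝ) = 4 * L0 + 2 * C' + C + 4 * c + 10 + 37 * dl + 5 := by
    rw [hK]
    push_cast
    ring
  have hPs : slen d (pW D x) = D * s := hG.slen_pow hd x D
  have hQeq : qW D k x y = x' ^ D := qW_eq D k x y
  have hQs : slen d (qW D k x y)⁻¹ = D * s := by
    rw [hG.slen_inv hd, hQeq, hG.slen_pow hd, hs']
  have hdispP : 37 * dl + 5 ≤ disp d (pW D x) := by
    have e1 := IsomAct.slen_le_disp (d := d) (pW D x)
    rw [hPs] at e1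
    have e2 : ((37 * dl + 5 : ℕ) : ℝ) ≤ disp d (pW D x) := by
      push_cast
      have : (0 : ℝ) ≤ L0 := Nat.cast_nonneg _
      have : (0 : ℝ) ≤ C' := Nat.cast_nonneg _
      have : (0 : ℝ) ≤ C := Nat.cast_nonneg _
      have : (0 : ℝ) ≤ c := Nat.cast_nonneg _
      have : (0 : ℝ) ≤ dl := Nat.cast_nonneg _
      nlinarith
    exact_mod_cast e2
  have hdispQ : 37 * dl + 5 ≤ disp d (qW D k x y)⁻¹ := by
    have e1 := IsomAct.slen_le_disp (d := d) (qW D k x y)⁻¹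
    rw [hQs] at e1
    have e2 : ((37 * dl + 5 : ℕ) : ℝ) ≤ disp d (qW D k x y)⁻¹ := by
      push_cast
      have : (0 : ℝ) ≤ L0 := Nat.cast_nonneg _
      have : (0 : ℝ) ≤ C' := Nat.cast_nonneg _
      have : (0 : ℝ) ≤ C := Nat.cast_nonneg _
      have : (0 : ℝ) ≤ c := Nat.cast_nonneg _
      have : (0 : ℝ) ≤ dl := Nat.cast_nonneg _
      nlinarith
    exact_mod_cast e2
  have hDD : 37 * dl + 5 ≤ DD := by
    unfold DD
    omega
  have hnP : ∀ z ∈ Mn d (pW D x), ∃ w ∈ AX d x, d z w ≤ c := fun z hz =>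
    hG.mn_near_ax hh hd hDD hs (h := pW D x) ((Commute.refl x).pow_left D) (by omega) hz
  have hnQ : ∀ z ∈ Mn d (qW D k x y)⁻¹, ∃ w ∈ AX d x', d z w ≤ c := fun z hz =>
    hG.mn_near_ax hh hd hDD (by rw [hs']; exact hs) (h := (qW D k x y)⁻¹)
      (by rw [hQeq]; exact ((Commute.refl x').pow_left D).inv_left) (by omega) hz
  have hax : ∀ w ∈ AX d x', ∃ w' ∈ AX d x, w = Y⁻¹ • w' := by
    intro w hw
    refine ⟨Y • w, ?_, by rw [inv_smul_smul]⟩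
    have e1 := hG.smul_mem_Ax DD x Y⁻¹ (Y • w)
    rw [inv_smul_smul] at e1
    exact e1.1 hw
  -- the overlap
  set t : ℝ := 8 * s + 2 * L0 + C' with ht
  have ht0 : 0 ≤ t := by positivity
  have hΔ : ∀ p q, p ∈ Nd d r (Mn d (pW D x)) → q ∈ Nd d r (Mn d (pW D x)) →
      p ∈ Nd d r (Mn d (qW D k x y)⁻¹) → q ∈ Nd d r (Mn d (qW D k x y)⁻¹) →
      d p q ≤ ⌈t⌉₊ := by
    intro p q hp hq hp' hq'
    have key : ∀ z, z ∈ Nd d r (Mn d (pW D x)) → z ∈ Nd d (r + c) (AX d x) := by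
      rintro z ⟨a, ha, hza⟩
      obtain ⟨w, hw, haw⟩ := hnP a ha
      refine ⟨w, hw, ?_⟩
      have := hd.tri z a w
      omega
    have key' : ∀ z, z ∈ Nd d r (Mn d (qW D k x y)⁻¹) → z ∈ Nd d (r + c) (AX d x') := by
      rintro z ⟨a, ha, hza⟩
      obtain ⟨w, hw, haw⟩ := hnQ a ha
      refine ⟨w, hw, ?_⟩
      have := hd.tri z a w
      omega
    have e1 := hC' G X d a0 L0 CP M0 hL ha0 x x' p q hncomm (key p hp) (key q hq) (key' p hp')
      (key' q hq')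
    rw [hs', ← hsdef] at e1
    have e2 : (d p q : ℝ) ≤ t := by
      rw [ht]
      linarith
    have e3 := e2.trans (Nat.le_ceil t)
    exact_mod_cast e3
  have hΔt : (⌈t⌉₊ : ℝ) ≤ t + 1 := (Nat.ceil_lt_add_one ht0).le
  have hbig : 2 * ((⌈t⌉₊ : ℕ) : ℝ) + C ≤ D * s := by
    have : (0 : ℝ) ≤ L0 := Nat.cast_nonneg _
    have : (0 : ℝ) ≤ C' := Nat.cast_nonneg _
    have : (0 : ℝ) ≤ C := Nat.cast_nonneg _
    have : (0 : ℝ) ≤ c := Nat.cast_nonneg _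
    have : (0 : ℝ) ≤ dl := Nat.cast_nonneg _
    linarith
  -- the distance of the axes
  have hρ' : ∀ p ∈ Mn d (pW D x), ∀ q ∈ Mn d (qW D k x y)⁻¹, ρ - 2 * c ≤ d p q := by
    intro p hp q hq
    obtain ⟨w, hw, hpw⟩ := hnP p hp
    obtain ⟨v, hv, hqv⟩ := hnQ q hq
    obtain ⟨v', hv', rfl⟩ := hax v hv
    have e1 := hρ w hw v' hv'
    have e2 := hd.tri w p (Y⁻¹ • v')
    have e3 := hd.tri p q (Y⁻¹ • v')
    have e4 := hd.comm w p
    omega
  have hfin := hP G X d hd hh hG this (pW D x) (qW D k x y)⁻¹ ⌈t⌉₊ (ρ - 2 * c) hΔ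
    (by rw [hPs]; exact hbig) (by rw [hQs]; exact hbig) hρ'
  rw [hPs, hQs] at hfin
  have hρc : (ρ : ℝ) ≤ ((ρ - 2 * c : ℕ) : ℝ) + 2 * c := by
    have : ρ ≤ (ρ - 2 * c) + 2 * c := by omega
    exact_mod_cast this
  have : (0 : ℝ) ≤ L0 := Nat.cast_nonneg _
  have : (0 : ℝ) ≤ C' := Nat.cast_nonneg _
  have : (0 : ℝ) ≤ C := Nat.cast_nonneg _
  have : (0 : ℝ) ≤ c := Nat.cast_nonneg _
  have : (0 : ℝ) ≤ dl := Nat.cast_nonneg _
  change 19 / 10 * (D * s) + 2 * ρ ≤ slen d (pW D x * (qW D k x y)⁻¹)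
  linarith

end Pool.Agent.Olsh
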