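import Pool.Agent.Olsh.StmtsP

/-!
# MP_3cdb71_al, 7.1: `y` long
-/

set_option autoImplicit false

namespace Pool.Agent.Olsh

namespace GY

variable {G X : Type} [Group G] [MulAction G X] {d : X → X → ℕ}

theorem mem_Mn_inv (hG : IsomAct G d) (hd : IsGM d) (g : G) (z : X) :
    z ∈ Mn d g⁻¹ ↔ z ∈ Mn d g := by
  show d z (g⁻¹ • z) = disp d g⁻¹ ↔ d z (g • z) = disp d g
  rw [hG.disp_inv hd, hd.comm, hG.inv]

/-- `P Q⁻¹` as a product of a conjugate of `Y⁻¹` and `Y`. -/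
theorem gW_eq (D k : ℕ) (x y : G) :
    gW D k x y = (pW D x * (yW k y)⁻¹ * (pW D x)⁻¹) * yW k y := by
  unfold gW qW
  group

/-- The minimal set of a large power is close to the axis. -/
theorem mn_pow_near (hG : IsomAct G d) (hh : Hyp d dl) (hd : IsGM d) {y : G} {k : ℕ}
    (hy : 0 < slen d y) (hk : 37 * (dl : ℝ) + 5 ≤ k * slen d y) {z : X}
    (hz : z ∈ Mn d (y ^ k)) : ∃ w ∈ AX d y, d z w ≤ 45 * dl + 4 := by
  have : Nonempty X := ⟨z⟩
  have h1 : (37 * dl + 5 : ℝ) ≤ disp d (y ^ k) := by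
    have := IsomAct.slen_le_disp (d := d) (y ^ k)
    rw [hG.slen_pow hd] at this
    linarith
  have h2 : 37 * dl + 5 ≤ disp d (y ^ k) := by exact_mod_cast h1
  exact hG.mn_near_ax hh hd (D := DD) (by unfold DD; omega) hy
    ((Commute.refl y).pow_left k) (by omega) hz

end GY

/-- 7.1, `y` long. -/
theorem GY (h1 : Stmt_OVAX) (h2 : Stmt_MALN) (h3 : Stmt_PROD) : Stmt_GY := by
  obtain ⟨A, hA⟩ := h1
  obtain ⟨r, Cp, hP⟩ := h3 dl
  obtain ⟨Co, hO⟩ := hA (r + 45 * dl + 4)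
  refine ⟨A, ?_⟩
  intro V1 a0 L0 hAa
  refine ⟨10 * (16 + V1 * (4 * L0 + 2 * Co + 2 + Cp + 4 * (45 * dl + 4))), ?_⟩
  intro D k hD hk G X _ _ d CP M0 lev x y hxy hV ρ hρ
  have hd := lev.gm
  have hh := lev.hyp
  have hG := lev.isom
  have hne := lev.ne
  have hy1 : y ≠ 1 := by
    rintro rfl
    exact hxy (by rw [mul_one, one_mul])
  have hx1 : x ≠ 1 := by
    rintro rfl
    exact hxy (by rw [mul_one, one_mul])
  have hy := lev.lox y hy1
  set K : ℝ := 4 * L0 + 2 * Co + 2 + Cp + 4 * (45 * dl + 4) with hK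
  have hK0 : 0 ≤ K := by positivity
  -- the main numerical estimate
  have hmain : 10 * (16 * slen d y + K) ≤ k * slen d y := by
    have e1 : (10 * (16 + V1 * K) : ℝ) ≤ k := by
      rw [hK]
      exact_mod_cast hk
    have e2 : (10 * (16 + V1 * K)) * slen d y ≤ k * slen d y :=
      mul_le_mul_of_nonneg_right e1 hy.le
    have e3 : K ≤ V1 * slen d y * K := le_mul_of_one_le_left hK0 hV
    have e4 : (10 * (16 + V1 * K)) * slen d y = 10 * (16 * slen d y + V1 * slen d y * K) := by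
      ring
    linarith
  have hbig : 37 * (dl : ℝ) + 5 ≤ k * slen d y := by
    have : (0 : ℝ) ≤ dl := by positivity
    have : (0 : ℝ) ≤ L0 := by positivity
    have : (0 : ℝ) ≤ Co := by positivity
    have : (0 : ℝ) ≤ Cp := by positivity
    linarith
  -- `P y P⁻¹` and `y` do not commute
  have hPne : pW D x ≠ 1 := by
    intro h
    exact hx1 ((h2 G X d a0 L0 CP M0 lev).1 x D hD h)
  have hnc : pW D x * y * (pW D x)⁻¹ * y ≠ y * (pW D x * y * (pW D x)⁻¹) := by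
    intro h
    have e1 := (h2 G X d a0 L0 CP M0 lev).2 y (pW D x) hy1 h.symm
    have e2 := lev.csa y (pW D x) x hPne e1 (by unfold pW; rw [← pow_succ, ← pow_succ'])
    exact hxy e2.symm
  set P : G := pW D x with hPdef
  set Y : G := yW k y with hYdef
  have hYk : Y = y ^ k := rfl
  have hsY : slen d Y = k * slen d y := by rw [hYk, hG.slen_pow hd]
  have hsg : slen d (P * Y⁻¹ * P⁻¹) = k * slen d y := by
    rw [hG.slen_conj, hG.slen_inv hd, hsY]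
  -- points near the minimal sets
  have nearY : ∀ z ∈ Mn d Y, ∃ w ∈ AX d y, d z w ≤ 45 * dl + 4 := fun z hz =>
    GY.mn_pow_near hG hh hd hy hbig hz
  have nearG : ∀ z ∈ Mn d (P * Y⁻¹ * P⁻¹), ∃ w ∈ AX d y, d z (P • w) ≤ 45 * dl + 4 := by
    intro z hz
    have e1 : P⁻¹ • z ∈ Mn d Y⁻¹ := by
      rw [← hG.smul_mem_Mn Y⁻¹ P, smul_inv_smul]
      exact hz
    rw [GY.mem_Mn_inv hG hd] at e1
    obtain ⟨w, hw, hw'⟩ := nearY _ e1
    refine ⟨w, hw, ?_⟩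
    rw [hG.inv] at hw'
    exact hw'
  -- overlap
  obtain ⟨Δ, hΔ1, hΔ2⟩ : ∃ Δ : ℕ, 8 * slen d y + 2 * L0 + Co ≤ Δ ∧
      (Δ : ℝ) ≤ 8 * slen d y + 2 * L0 + Co + 1 :=
    ⟨_, Nat.le_ceil _, (Nat.ceil_lt_add_one (by positivity)).le⟩
  have hover : ∀ p q, p ∈ Nd d r (Mn d (P * Y⁻¹ * P⁻¹)) → q ∈ Nd d r (Mn d (P * Y⁻¹ * P⁻¹)) →
      p ∈ Nd d r (Mn d Y) → q ∈ Nd d r (Mn d Y) → d p q ≤ Δ := by
    have c1 : ∀ p, p ∈ Nd d r (Mn d (P * Y⁻¹ * P⁻¹)) →
        p ∈ Nd d (r + 45 * dl + 4) (AX d (P * y * P⁻¹)) := by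
      rintro p ⟨a, ha, hpa⟩
      obtain ⟨w, hw, hw'⟩ := nearG a ha
      refine ⟨P • w, (hG.smul_mem_Ax DD y P w).2 hw, ?_⟩
      have := hd.tri p a (P • w)
      omega
    have c2 : ∀ p, p ∈ Nd d r (Mn d Y) → p ∈ Nd d (r + 45 * dl + 4) (AX d y) := by
      rintro p ⟨a, ha, hpa⟩
      obtain ⟨w, hw, hw'⟩ := nearY a ha
      refine ⟨w, hw, ?_⟩
      have := hd.tri p a w
      omega
    intro p q hp hq hp' hq'
    have := hO G X d a0 L0 CP M0 lev hAa (P * y * P⁻¹) y p q hnc (c1 p hp) (c1 q hq)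
      (c2 p hp') (c2 q hq')
    rw [hG.slen_conj] at this
    have h5 : (d p q : ℝ) ≤ Δ := by linarith
    exact_mod_cast h5
  -- distance
  have hdist : ∀ p ∈ Mn d (P * Y⁻¹ * P⁻¹), ∀ q ∈ Mn d Y, ρ - 2 * (45 * dl + 4) ≤ d p q := by
    intro p hp q hq
    obtain ⟨a, ha, hpa⟩ := nearG p hp
    obtain ⟨b, hb, hqb⟩ := nearY q hq
    have e1 := hρ b hb a ha
    have e2 := hd.tri b q (P • a)
    have e3 := hd.tri q p (P • a)
    have e4 := hd.comm b q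
    have e5 := hd.comm q p
    omega
  have c0 : 2 * (Δ : ℝ) + Cp ≤ k * slen d y := by
    have : (0 : ℝ) ≤ dl := by positivity
    have : (0 : ℝ) ≤ L0 := by positivity
    have : (0 : ℝ) ≤ Co := by positivity
    have : (0 : ℝ) ≤ Cp := by positivity
    linarith
  have key := hP G X d hd hh hG hne (P * Y⁻¹ * P⁻¹) Y Δ (ρ - 2 * (45 * dl + 4)) hover
    (by rw [hsg]; exact c0) (by rw [hsY]; exact c0) hdist
  rw [hsg, hsY, ← GY.gW_eq] at key
  have hρ' : (ρ : ℝ) ≤ ((ρ - 2 * (45 * dl + 4) : ℕ) : ℝ) + 2 * (45 * dl + 4) := by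
    have : ρ ≤ (ρ - 2 * (45 * dl + 4)) + 2 * (45 * dl + 4) := by omega
    exact_mod_cast this
  have : (0 : ℝ) ≤ Co := by positivity
  linarith

end Pool.Agent.Olsh
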