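import Pool.Agent.Olsh.StmtsC

/-!
# MP_3cdb71_al: the windmill and the induction principle (module OLC_IP)
-/

set_option autoImplicit false

namespace Pool.Agent.Olsh

namespace IP

variable {G A : Type} [Group G] [MulAction G A]

/-- The subgroup generated by the elements fixing an apex at distance at most `D` from `w`. -/
def KD (G : Type) {A : Type} [Group G] [MulAction G A] (d : A → A → ℕ) (ap : Set A) (w : A)
    (D : ℕ) : Subgroup G :=
  Subgroup.closure {g | ∃ s ∈ ap, d w s ≤ D ∧ g • s = s}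

/-- The windmill. -/
def InW (G : Type) {A : Type} [Group G] [MulAction G A] (d : A → A → ℕ) (ap : Set A) (w : A)
    (D : ℕ) (a : A) : Prop :=
  ∃ k ∈ KD G d ap w D, d w (k⁻¹ • a) ≤ D

/-- Pairs in a common translate of a ball. -/
def Pr (G : Type) {A : Type} [Group G] [MulAction G A] (d : A → A → ℕ) (ap : Set A) (w : A)
    (D E : ℕ) (a b : A) : Prop :=
  ∃ k ∈ KD G d ap w D, d w (k⁻¹ • a) ≤ E ∧ d w (k⁻¹ • b) ≤ E

/-- Chains. -/
inductive Ch (G : Type) {A : Type} [Group G] [MulAction G A] (d : A → A → ℕ) (ap : Set A)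
    (c : A → A → A → ℕ) (T0 L : ℕ) (w : A) (D E : ℕ) : A → A → Prop
  | base (a b : A) : Pr G d ap w D E a b → Ch G d ap c T0 L w D E a b
  | cons (a p b : A) : p ∈ ap → InW G d ap w D p → Pr G d ap w D E a p →
      Ch G d ap c T0 L w D E p b → L ≤ ang d c p a b + 12 * T0 → Ch G d ap c T0 L w D E a b

variable {d : A → A → ℕ} {ap : Set A} {c : A → A → A → ℕ} {T0 L : ℕ}

theorem nb_smul (hr : IsRot G d ap c T0 L) (g : G) {s a y : A} (h : y ∈ Nb d s a) :
    g • y ∈ Nb d (g • s) (g • a) := by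
  obtain ⟨h1, h2⟩ := h
  refine ⟨?_, ?_⟩
  · rw [hr.isom]; exact h1
  · rw [hr.isom, hr.isom]; exact h2

theorem ang_smul (hr : IsRot G d ap c T0 L) (g : G) {s : A} (hs : s ∈ ap) (a b : A) :
    ang d c (g • s) (g • a) (g • b) = ang d c s a b := by
  have key : {n | ∃ y ∈ Nb d (g • s) (g • a), ∃ y' ∈ Nb d (g • s) (g • b), n = c (g • s) y y'} =
      {n | ∃ y ∈ Nb d s a, ∃ y' ∈ Nb d s b, n = c s y y'} := by
    ext n
    constructor
    · rintro ⟨y, hy, y', hy', rfl⟩
      have h1 := nb_smul hr g⁻¹ hy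
      have h2 := nb_smul hr g⁻¹ hy'
      rw [inv_smul_smul, inv_smul_smul] at h1 h2
      refine ⟨_, h1, _, h2, ?_⟩
      have := hr.c_smul g s hs (g⁻¹ • y) (g⁻¹ • y') h1.1 h2.1
      rw [smul_inv_smul, smul_inv_smul] at this
      exact this
    · rintro ⟨y, hy, y', hy', rfl⟩
      exact ⟨g • y, nb_smul hr g hy, g • y', nb_smul hr g hy',
        (hr.c_smul g s hs y y' hy.1 hy'.1).symm⟩
  unfold ang
  rw [key]

theorem ap_iff (hr : IsRot G d ap c T0 L) (g : G) (s : A) : g • s ∈ ap ↔ s ∈ ap := by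
  constructor
  · intro h
    have := hr.ap_smul g⁻¹ _ h
    rwa [inv_smul_smul] at this
  · exact hr.ap_smul g s

theorem ne_ap {s w : A} (hs : s ∈ ap) (hw : w ∉ ap) : w ≠ s := fun h => hw (h ▸ hs)

theorem rot_ang (h1 : Stmt_PSA) (hr : IsRot G d ap c T0 L) {s : A} (hs : s ∈ ap) {r : G}
    (h : r • s = s) (h' : r ≠ 1) {w al be : A} (hw : w ≠ s) (ha : al ≠ s) (hb : be ≠ s) :
    L ≤ ang d c s al (r • be) + ang d c s w al + ang d c s w be := by
  obtain ⟨p1, p2, p3, p4, p5, -⟩ := h1 A d ap c T0 hr.toIsPS s hs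
  obtain ⟨y, hy⟩ := p1 w hw
  have hy' : r • y ∈ Nb d s (r • w) := by
    have := nb_smul hr r hy
    rwa [h] at this
  have e1 := p2 _ _ _ _ hy hy'
  have e2 := hr.rot s hs r h h' y hy.1
  have e3 := p5 w al (r • w) ha
  have hb' : r • be ≠ s := by
    intro h2
    apply hb
    have : r • be = r • s := by rw [h2, h]
    exact smul_left_cancel r this
  have e4 := p5 al (r • be) (r • w) hb'
  have e5 : ang d c s (r • be) (r • w) = ang d c s be w := by
    have := ang_smul hr r hs be w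
    rwa [h] at this
  have e6 := p4 be w
  omega

theorem KD_mono (w : A) {D D' : ℕ} (h : D ≤ D') : KD G d ap w D ≤ KD G d ap w D' := by
  apply Subgroup.closure_mono
  rintro g ⟨s, hs, h1, h2⟩
  exact ⟨s, hs, h1.trans h, h2⟩

theorem InW_smul {w : A} {D : ℕ} {g : G} (hg : g ∈ KD G d ap w D) {a : A} :
    InW G d ap w D (g • a) ↔ InW G d ap w D a := by
  constructor
  · rintro ⟨k, hk, h⟩
    refine ⟨g⁻¹ * k, mul_mem (inv_mem hg) hk, ?_⟩
    have : (g⁻¹ * k)⁻¹ • a = k⁻¹ • g • a := by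
      rw [mul_inv_rev, inv_inv, mul_smul]
    rwa [this]
  · rintro ⟨k, hk, h⟩
    refine ⟨g * k, mul_mem hg hk, ?_⟩
    have : (g * k)⁻¹ • g • a = k⁻¹ • a := by
      rw [mul_inv_rev, mul_smul, inv_smul_smul]
    rwa [this]

theorem Pr_smul {w : A} {D E : ℕ} {g : G} (hg : g ∈ KD G d ap w D) {a b : A}
    (h : Pr G d ap w D E a b) : Pr G d ap w D E (g • a) (g • b) := by
  obtain ⟨k, hk, h1, h2⟩ := h
  refine ⟨g * k, mul_mem hg hk, ?_, ?_⟩
  · have : (g * k)⁻¹ • g • a = k⁻¹ • a := by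
      rw [mul_inv_rev, mul_smul, inv_smul_smul]
    rwa [this]
  · have : (g * k)⁻¹ • g • b = k⁻¹ • b := by
      rw [mul_inv_rev, mul_smul, inv_smul_smul]
    rwa [this]

theorem Ch_smul (hr : IsRot G d ap c T0 L) {w : A} {D E : ℕ} {g : G}
    (hg : g ∈ KD G d ap w D) {a b : A} (h : Ch G d ap c T0 L w D E a b) :
    Ch G d ap c T0 L w D E (g • a) (g • b) := by
  induction h with
  | base a b h => exact Ch.base _ _ (Pr_smul hg h)
  | cons a p b h1 h2 h3 _ h5 ih =>
    refine Ch.cons _ (g • p) _ (hr.ap_smul g p h1) ((InW_smul hg).2 h2) (Pr_smul hg h3) ih ?_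
    rw [ang_smul hr g h1]
    exact h5

theorem Ch_mono {w : A} {D D' E : ℕ} (hD : D ≤ D') {a b : A}
    (h : Ch G d ap c T0 L w D E a b) : Ch G d ap c T0 L w D' E a b := by
  induction h with
  | base a b h =>
    obtain ⟨k, hk, h1, h2⟩ := h
    exact Ch.base _ _ ⟨k, KD_mono w hD hk, h1, h2⟩
  | cons a p b h1 h2 h3 _ h5 ih =>
    obtain ⟨k, hk, h6, h7⟩ := h3
    obtain ⟨k', hk', h8⟩ := h2
    exact Ch.cons _ p _ h1 ⟨k', KD_mono w hD hk', h8.trans hD⟩
      ⟨k, KD_mono w hD hk, h6, h7⟩ ih h5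

/-- Concatenation of chains. -/
theorem Ch_comp (h1 : Stmt_PSA) (hr : IsRot G d ap c T0 L) {w : A} {D E : ℕ} {a p b : A}
    (h : Ch G d ap c T0 L w D E a p) (hp : p ∈ ap) (hW : InW G d ap w D p)
    (h' : Ch G d ap c T0 L w D E p b) (hang : L ≤ ang d c p a b + 12 * T0) :
    Ch G d ap c T0 L w D E a b := by
  have hbig := hr.big
  have hT := hr.one_le
  induction h with
  | base a p h => exact Ch.cons _ p _ hp hW h h' hang
  | cons a t p h2 h3 h4 _ h6 ih =>
    -- `t` an apex between `a` and `p`, with a large angle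
    obtain ⟨-, -, -, q4, -, -, -, q8, q9, -⟩ := h1 A d ap c T0 hr.toIsPS t h2
    obtain ⟨-, -, -, p4, -, -, -, -, p9, -⟩ := h1 A d ap c T0 hr.toIsPS p hp
    have hne : p ≠ t := (q8 a p (by omega)).2.2
    obtain ⟨-, e1, -⟩ := p9 t h2 hne.symm a (by omega)
    have e2 := e1 b
    have h7 := ih hp hW h' (by omega)
    have e3 := p4 t b
    obtain ⟨-, e4, -⟩ := q9 p hp hne b (by omega)
    have e5 := e4 a
    have e6 := q4 a b
    have e7 := q4 a p
    exact Ch.cons _ t _ h2 h3 h4 h7 (by omega)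

/-- Fact W0. -/
theorem W0 (h1 : Stmt_PSA) (hr : IsRot G d ap c T0 L) {s : A} (hs : s ∈ ap) {w a : A}
    (h : d w a ≤ d w s) : ang d c s w a ≤ T0 := by
  obtain ⟨-, -, -, -, -, -, -, p8, -⟩ := h1 A d ap c T0 hr.toIsPS s hs
  by_contra hcon
  obtain ⟨e1, e2, e3⟩ := p8 w a (by omega)
  have e4 : d s a = 0 := by omega
  exact e3 (hr.gm.eq_of_zero e4).symm

/-- The claim for `D`. -/
def Claim (G : Type) {A : Type} [Group G] [MulAction G A] (d : A → A → ℕ) (ap : Set A)
    (c : A → A → A → ℕ) (T0 L : ℕ) (w : A) (D : ℕ) : Prop :=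
  ∀ E, D ≤ E → ∀ (k k' : G) (z z' : A), k ∈ KD G d ap w D → k' ∈ KD G d ap w D → d w z ≤ E →
    d w z' ≤ E → Ch G d ap c T0 L w D E (k • z) (k' • z')

/-- The consequence. -/
theorem conseq (h1 : Stmt_PSA) (hr : IsRot G d ap c T0 L) {w : A} (hw : w ∉ ap) {D : ℕ}
    {s : A} (hs : s ∈ ap) (hsW : ¬ InW G d ap w D s) {a b : A}
    (h : Ch G d ap c T0 L w D (D + 1) a b) : ang d c s a b ≤ 2 * T0 := by
  have hbig := hr.big
  have hT := hr.one_le
  obtain ⟨p1, p2, p3, p4, p5, p6, p7, p8, p9, -⟩ := h1 A d ap c T0 hr.toIsPS s hs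
  have hbase : ∀ a b : A, Pr G d ap w D (D + 1) a b → ang d c s a b ≤ 2 * T0 := by
    rintro a b ⟨k, hk, ha, hb⟩
    have hs' : k⁻¹ • s ∈ ap := hr.ap_smul _ _ hs
    have hd : D + 1 ≤ d w (k⁻¹ • s) := by
      by_contra hcon
      exact hsW ⟨k, hk, by omega⟩
    have e1 := W0 h1 hr hs' (w := w) (a := k⁻¹ • a) (by omega)
    have e2 := W0 h1 hr hs' (w := w) (a := k⁻¹ • b) (by omega)
    obtain ⟨-, -, -, r4, r5, -⟩ := h1 A d ap c T0 hr.toIsPS (k⁻¹ • s) hs'
    have e3 := r5 (k⁻¹ • a) w (k⁻¹ • b) (ne_ap hs' hw)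
    have e4 := r4 (k⁻¹ • a) w
    have e5 := ang_smul hr k⁻¹ hs a b
    omega
  induction h with
  | base a b h => exact hbase a b h
  | cons a p b h2 h3 h4 _ h6 ih =>
    have hne : p ≠ s := fun h => hsW (h ▸ h3)
    obtain ⟨-, -, -, q4, q5, -⟩ := h1 A d ap c T0 hr.toIsPS p h2
    have e1 := q5 a s b hne.symm
    by_cases h7 : 2 * T0 < ang d c p a s
    · obtain ⟨-, e2, -⟩ := p9 p h2 hne a h7
      rw [e2 b]
      exact ih
    · obtain ⟨-, e2, -⟩ := p9 p h2 hne b (by
        have := q4 s b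
        omega)
      have e3 := e2 a
      have e4 := p4 a b
      have e5 := p4 a p
      have e6 := hbase a p h4
      omega

/-- Boundary apexes. -/
def Bd (G : Type) {A : Type} [Group G] [MulAction G A] (d : A → A → ℕ) (ap : Set A) (w : A)
    (D : ℕ) (s : A) : Prop :=
  s ∈ ap ∧ d w s = D + 1 ∧ ¬ InW G d ap w D s

/-- Words `k₀ r₁ k₁ ⋯ r_m k_m` of length at most `m`. -/
inductive WL (G : Type) {A : Type} [Group G] [MulAction G A] (d : A → A → ℕ) (ap : Set A)
    (w : A) (D : ℕ) : ℕ → G → Prop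
  | base (m : ℕ) (k : G) : k ∈ KD G d ap w D → WL G d ap w D m k
  | step (m : ℕ) (k r g : G) (s : A) : k ∈ KD G d ap w D → Bd G d ap w D s → r • s = s →
      WL G d ap w D m g → WL G d ap w D (m + 1) (k * r * g)

theorem WL_mul {w : A} {D m : ℕ} {g : G} (h : WL G d ap w D m g) {k : G}
    (hk : k ∈ KD G d ap w D) : WL G d ap w D m (k * g) := by
  cases h with
  | base m g h => exact WL.base _ _ (mul_mem hk h)
  | step m k' r g s h1 h2 h3 h4 =>
    have : k * (k' * r * g) = (k * k') * r * g := by group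
    rw [this]
    exact WL.step _ _ _ _ s (mul_mem hk h1) h2 h3 h4

theorem WL_succ {w : A} {D m : ℕ} {g : G} (h : WL G d ap w D m g) :
    WL G d ap w D (m + 1) g := by
  induction h with
  | base m g h => exact WL.base _ _ h
  | step m k' r g s h1 h2 h3 _ ih => exact WL.step _ _ _ _ s h1 h2 h3 ih

theorem mem_succ {w : A} {D m : ℕ} {g : G} (h : WL G d ap w D m g) :
    g ∈ KD G d ap w (D + 1) := by
  induction h with
  | base m g h => exact KD_mono w (Nat.le_succ D) h
  | step m k' r g s h1 h2 h3 _ ih =>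
    refine mul_mem (mul_mem (KD_mono w (Nat.le_succ D) h1) ?_) ih
    exact Subgroup.subset_closure ⟨s, h2.1, h2.2.1.le, h3⟩

/-- Every element of `K_{D+1}` is a word. -/
theorem exists_WL (hr : IsRot G d ap c T0 L) {w : A} {D : ℕ} {g : G}
    (hg : g ∈ KD G d ap w (D + 1)) : ∃ m, WL G d ap w D m g := by
  have hgen : ∀ r : G, ∀ s ∈ ap, d w s ≤ D + 1 → r • s = s → ∀ g, (∃ m, WL G d ap w D m g) →
      ∃ m, WL G d ap w D m (r * g) := by
    rintro r s hs h1 h2 g ⟨m, hm⟩
    by_cases h3 : InW G d ap w D s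
    · obtain ⟨k, hk, h4⟩ := h3
      have h5 : k⁻¹ * r * k ∈ KD G d ap w D := by
        refine Subgroup.subset_closure ⟨k⁻¹ • s, hr.ap_smul _ _ hs, h4, ?_⟩
        rw [mul_smul, mul_smul, smul_inv_smul, h2]
      have h6 : r ∈ KD G d ap w D := by
        have h7 := mul_mem (mul_mem hk h5) (inv_mem hk)
        have : k * (k⁻¹ * r * k) * k⁻¹ = r := by group
        rwa [this] at h7
      exact ⟨m, WL_mul hm h6⟩
    · have h4 : d w s = D + 1 := by
        by_contra hcon
        apply h3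
        refine ⟨1, one_mem _, ?_⟩
        rw [inv_one, one_smul]
        omega
      refine ⟨m + 1, ?_⟩
      have := WL.step m 1 r g s (one_mem _) ⟨hs, h4, h3⟩ h2 hm
      rwa [one_mul] at this
  unfold KD at hg
  induction hg using Subgroup.closure_induction_left with
  | one => exact ⟨0, WL.base _ _ (one_mem _)⟩
  | mul_left x hx y _ ih =>
    obtain ⟨s, hs, h1, h2⟩ := hx
    exact hgen x s hs h1 h2 y ih
  | inv_mul_cancel x hx y _ ih =>
    obtain ⟨s, hs, h1, h2⟩ := hx
    refine hgen x⁻¹ s hs h1 ?_ y ih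
    rw [inv_smul_eq_iff, h2]

/-- Claim (D) in the form of a small angle. -/
theorem small (h1 : Stmt_PSA) (hr : IsRot G d ap c T0 L) {w : A} (hw : w ∉ ap) {D : ℕ}
    (hC : Claim G d ap c T0 L w D) {s : A} (hs : Bd G d ap w D s) {k : G}
    (hk : k ∈ KD G d ap w D) {z : A} (hz : d w z ≤ D + 1) : ang d c s w (k • z) ≤ 2 * T0 := by
  have h := hC (D + 1) (Nat.le_succ D) 1 k w z (one_mem _) hk
    (by rw [hr.gm.self]; exact Nat.zero_le _) hz
  rw [one_smul] at h
  exact conseq h1 hr hw hs.1 hs.2.2 h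

/-- Rotating points behind a boundary apex. -/
theorem far (h1 : Stmt_PSA) (hr : IsRot G d ap c T0 L) {w : A} (hw : w ∉ ap) {D E : ℕ}
    (hC : Claim G d ap c T0 L w D) {s : A} (hs : Bd G d ap w D s) {k : G}
    (hk : k ∈ KD G d ap w D) {z : A} (hz : d w z ≤ E) (ha : 6 * T0 < ang d c s w (k • z))
    {r : G} (h : r • s = s) : d w (r • k • z) ≤ E := by
  obtain ⟨p1, p2, p3, p4, p5, p6, p7, p8, -⟩ := h1 A d ap c T0 hr.toIsPS s hs.1
  have hT := hr.one_le
  have e1 := small h1 hr hw hC hs hk (z := w) (by rw [hr.gm.self]; exact Nat.zero_le _)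
  have hkw : k • w ≠ s := ne_ap hs.1 (fun h => hw ((ap_iff hr k w).1 h))
  have e2 := p5 w (k • w) (k • z) hkw
  obtain ⟨e3, -, -⟩ := p8 (k • w) (k • z) (by omega)
  rw [hr.isom] at e3
  have e4 : D + 1 ≤ d (k • w) s := by
    by_contra hcon
    apply hs.2.2
    refine ⟨k, hk, ?_⟩
    have : d (k • w) s = d w (k⁻¹ • s) := by
      have := hr.isom k w (k⁻¹ • s)
      rwa [smul_inv_smul] at this
    omega
  have e5 : d s (r • k • z) = d s (k • z) := by
    have := hr.isom r s (k • z)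
    rwa [h] at this
  have e6 := hr.gm.tri w s (r • k • z)
  have e7 := hs.2.1
  omega

/-- Lemma R(m). -/
theorem R (h1 : Stmt_PSA) (hr : IsRot G d ap c T0 L) {w : A} (hw : w ∉ ap) {D E : ℕ}
    (hC : Claim G d ap c T0 L w D) (hE : D + 1 ≤ E) {m : ℕ} {g₁ : G}
    (hg : WL G d ap w D m g₁) : ∀ s, Bd G d ap w D s → ∀ z', d w z' ≤ E →
    (Ch G d ap c T0 L w (D + 1) E s (g₁ • z') ∧ g₁ • z' ≠ s ∧ ang d c s w (g₁ • z') ≤ 6 * T0) ∨
    ∀ r : G, r • s = s → ∃ g₂ z'', WL G d ap w D m g₂ ∧ d w z'' ≤ E ∧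
      (r * g₁) • z' = g₂ • z'' := by
  have hbig := hr.big
  have hT := hr.one_le
  induction hg with
  | base m k hk =>
    intro s hs z' hz'
    by_cases h2 : k • z' = s
    · right
      intro r hrs
      refine ⟨1, s, WL.base _ _ (one_mem _), by rw [hs.2.1]; exact hE, ?_⟩
      rw [mul_smul, h2, hrs, one_smul]
    · by_cases h3 : 6 * T0 < ang d c s w (k • z')
      · right
        intro r hrs
        refine ⟨1, r • k • z', WL.base _ _ (one_mem _), far h1 hr hw hC hs hk hz' h3 hrs, ?_⟩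
        rw [mul_smul, one_smul]
      · left
        refine ⟨?_, h2, by omega⟩
        have h4 := hC E (by omega) 1 k s z' (one_mem _) hk (by rw [hs.2.1]; exact hE) hz'
        rw [one_smul] at h4
        exact Ch_mono (Nat.le_succ D) h4
  | step m k₁ r₂ g₂ s₂ hk hs₂ hrs₂ hg₂ ih =>
    intro s hs z' hz'
    rcases ih s₂ hs₂ z' hz' with ⟨i1, i2, i3⟩ | i
    · by_cases h2 : k₁ • s₂ = s
      · right
        intro r hrs
        refine ⟨r * (k₁ * r₂ * g₂), z', ?_, hz', rfl⟩
        have e1 : r * (k₁ * r₂ * g₂) = k₁ * (k₁⁻¹ * r * k₁ * r₂) * g₂ := by group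
        rw [e1]
        refine WL.step _ _ _ _ s₂ hk hs₂ ?_ hg₂
        rw [mul_smul, hrs₂, mul_smul, mul_smul, h2, hrs, ← h2, inv_smul_smul]
      · by_cases h3 : r₂ = 1
        · right
          intro r hrs
          refine ⟨r * (k₁ * r₂ * g₂), z', ?_, hz', rfl⟩
          subst h3
          have e1 : r * (k₁ * 1 * g₂) = 1 * r * (k₁ * g₂) := by group
          rw [e1]
          exact WL.step _ _ _ _ s (one_mem _) hs hrs (WL_mul hg₂ hk)
        · left
          have hp : k₁ • s₂ ∈ ap := hr.ap_smul _ _ hs₂.1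
          have hpW : InW G d ap w (D + 1) (k₁ • s₂) := by
            refine ⟨k₁, KD_mono w (Nat.le_succ D) hk, ?_⟩
            rw [inv_smul_smul, hs₂.2.1]
          have ha : k₁⁻¹ • s ≠ s₂ := by
            intro h4
            apply h2
            rw [← h4, smul_inv_smul]
          have e1 := rot_ang h1 hr hs₂.1 hrs₂ h3 (ne_ap hs₂.1 hw) ha i2
          have e2 := small h1 hr hw hC hs₂ (inv_mem hk) (z := s) (by rw [hs.2.1])
          have e3 : ang d c (k₁ • s₂) s ((k₁ * r₂ * g₂) • z') =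
              ang d c s₂ (k₁⁻¹ • s) (r₂ • g₂ • z') := by
            have := ang_smul hr k₁ hs₂.1 (k₁⁻¹ • s) (r₂ • g₂ • z')
            rw [smul_inv_smul] at this
            rw [← this, mul_smul, mul_smul]
          obtain ⟨-, -, -, q4, -, q6, -⟩ := h1 A d ap c T0 hr.toIsPS (k₁ • s₂) hp
          have e4 : (k₁ * r₂ * g₂) • z' ≠ s := by
            intro h4
            rw [h4] at e3
            have := q6 s
            omega
          have e5 : Ch G d ap c T0 L w (D + 1) E s (k₁ • s₂) := by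
            have := hC E (by omega) 1 k₁ s s₂ (one_mem _) hk (by rw [hs.2.1]; exact hE)
              (by rw [hs₂.2.1]; exact hE)
            rw [one_smul] at this
            exact Ch_mono (Nat.le_succ D) this
          have hkr : k₁ * r₂ ∈ KD G d ap w (D + 1) :=
            mul_mem (KD_mono w (Nat.le_succ D) hk)
              (Subgroup.subset_closure ⟨s₂, hs₂.1, hs₂.2.1.le, hrs₂⟩)
          have e6 : Ch G d ap c T0 L w (D + 1) E (k₁ • s₂) ((k₁ * r₂ * g₂) • z') := by
            have := Ch_smul hr hkr i1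
            rwa [mul_smul, hrs₂, ← mul_smul] at this
          refine ⟨Ch_comp h1 hr e5 hp hpW e6 (by omega), e4, ?_⟩
          obtain ⟨-, -, -, p4, -, -, -, -, p9, -⟩ := h1 A d ap c T0 hr.toIsPS s hs.1
          obtain ⟨-, e7, -⟩ := p9 (k₁ • s₂) hp h2 ((k₁ * r₂ * g₂) • z') (by
            have := q4 s ((k₁ * r₂ * g₂) • z')
            omega)
          have e8 := e7 w
          have e9 := p4 w ((k₁ * r₂ * g₂) • z')
          have e10 := p4 w (k₁ • s₂)
          have e11 := small h1 hr hw hC hs hk (z := s₂) (by rw [hs₂.2.1])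
          omega
    · right
      intro r hrs
      obtain ⟨g₃, z'', j1, j2, j3⟩ := i r₂ hrs₂
      refine ⟨1 * r * (k₁ * g₃), z'', WL.step _ _ _ _ s (one_mem _) hs hrs (WL_mul j1 hk), j2, ?_⟩
      have e1 : r * (k₁ * r₂ * g₂) = (r * k₁) * (r₂ * g₂) := by group
      have e2 : 1 * r * (k₁ * g₃) = (r * k₁) * g₃ := by group
      rw [e1, e2, mul_smul, j3, ← mul_smul]

/-- The main claim for words. -/
theorem main_claim (h1 : Stmt_PSA) (hr : IsRot G d ap c T0 L) {w : A} (hw : w ∉ ap) {D E : ℕ}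
    (hC : Claim G d ap c T0 L w D) (hE : D + 1 ≤ E) (m : ℕ) : ∀ g : G,
    WL G d ap w D m g → ∀ z z', d w z ≤ E → d w z' ≤ E →
    Ch G d ap c T0 L w (D + 1) E z (g • z') := by
  have hbig := hr.big
  have hT := hr.one_le
  have hbase : ∀ g ∈ KD G d ap w D, ∀ z z', d w z ≤ E → d w z' ≤ E →
      Ch G d ap c T0 L w (D + 1) E z (g • z') := by
    intro g hg z z' hz hz'
    have := hC E (by omega) 1 g z z' (one_mem _) hg hz hz'
    rw [one_smul] at this
    exact Ch_mono (Nat.le_succ D) this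
  induction m with
  | zero =>
    intro g hg
    cases hg with
    | base _ _ hk => exact hbase g hk
  | succ m ih =>
    intro g hg
    cases hg with
    | base _ _ hk => exact hbase g hk
    | step _ k₀ r g₁ s hk hs hrs hg₁ =>
      intro z z' hz hz'
      rcases R h1 hr hw hC hE hg₁ s hs z' hz' with ⟨i1, i2, i3⟩ | i
      · have hkr : k₀ * r ∈ KD G d ap w (D + 1) :=
          mul_mem (KD_mono w (Nat.le_succ D) hk)
            (Subgroup.subset_closure ⟨s, hs.1, hs.2.1.le, hrs⟩)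
        have e6 : Ch G d ap c T0 L w (D + 1) E (k₀ • s) ((k₀ * r * g₁) • z') := by
          have := Ch_smul hr hkr i1
          rwa [mul_smul, hrs, ← mul_smul] at this
        by_cases h2 : k₀⁻¹ • z = s
        · have h3 : k₀ • s = z := by rw [← h2, smul_inv_smul]
          rwa [h3] at e6
        · by_cases h3 : 6 * T0 < ang d c s w (k₀⁻¹ • z)
          · have h4 : d w (r⁻¹ • k₀⁻¹ • z) ≤ E :=
              far h1 hr hw hC hs (inv_mem hk) hz h3 (by rw [inv_smul_eq_iff, hrs])
            have h5 := Ch_smul hr hkr (ih g₁ hg₁ _ z' h4 hz')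
            rwa [mul_smul, smul_inv_smul, smul_inv_smul, ← mul_smul] at h5
          · by_cases h4 : r = 1
            · subst h4
              rw [mul_one]
              exact ih _ (WL_mul hg₁ hk) z z' hz hz'
            · have hp : k₀ • s ∈ ap := hr.ap_smul _ _ hs.1
              have hpW : InW G d ap w (D + 1) (k₀ • s) := by
                refine ⟨k₀, KD_mono w (Nat.le_succ D) hk, ?_⟩
                rw [inv_smul_smul, hs.2.1]
              have e1 := rot_ang h1 hr hs.1 hrs h4 (ne_ap hs.1 hw) h2 i2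
              have e3 : ang d c (k₀ • s) z ((k₀ * r * g₁) • z') =
                  ang d c s (k₀⁻¹ • z) (r • g₁ • z') := by
                have := ang_smul hr k₀ hs.1 (k₀⁻¹ • z) (r • g₁ • z')
                rw [smul_inv_smul] at this
                rw [← this, mul_smul, mul_smul]
              exact Ch_comp h1 hr (hbase k₀ hk z s hz (by rw [hs.2.1]; exact hE)) hp hpW e6
                (by omega)
      · obtain ⟨g₂, z'', j1, j2, j3⟩ := i r hrs
        have e1 : (k₀ * r * g₁) • z' = (k₀ * g₂) • z'' := by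
          rw [mul_assoc, mul_smul, j3, ← mul_smul]
        rw [e1]
        exact ih _ (WL_mul j1 hk) z z'' hz j2

theorem KD_zero (hr : IsRot G d ap c T0 L) {w : A} (hw : w ∉ ap) {k : G}
    (hk : k ∈ KD G d ap w 0) : k = 1 := by
  have : {g : G | ∃ s ∈ ap, d w s ≤ 0 ∧ g • s = s} = ∅ := by
    ext g
    simp only [Set.mem_ofPred_eq, Set.mem_empty_iff_false, iff_false]
    rintro ⟨s, hs, h, -⟩
    have := hr.gm.eq_of_zero (Nat.le_zero.1 h)
    exact hw (this ▸ hs)
  unfold KD at hk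
  rw [this, Subgroup.closure_empty] at hk
  exact Subgroup.mem_bot.1 hk

theorem claim (h1 : Stmt_PSA) (hr : IsRot G d ap c T0 L) {w : A} (hw : w ∉ ap) (D : ℕ) :
    Claim G d ap c T0 L w D := by
  induction D with
  | zero =>
    intro E _ k k' z z' hk hk' hz hz'
    have e1 := KD_zero hr hw hk
    have e2 := KD_zero hr hw hk'
    subst e1 e2
    rw [one_smul, one_smul]
    refine Ch.base _ _ ⟨1, one_mem _, ?_, ?_⟩
    · rwa [inv_one, one_smul]
    · rwa [inv_one, one_smul]
  | succ D ih =>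
    intro E hE k k' z z' hk hk' hz hz'
    obtain ⟨m, hm⟩ := exists_WL hr (mul_mem (inv_mem hk) hk')
    have h := Ch_smul hr hk (main_claim h1 hr hw ih hE m _ hm z z' hz hz')
    rwa [← mul_smul k, mul_inv_cancel_left] at h

/-- Lemma R'(m). -/
theorem R' (h1 : Stmt_PSA) (hr : IsRot G d ap c T0 L) {w : A} (hw : w ∉ ap) {D m : ℕ} {g₁ : G}
    (hg : WL G d ap w D m g₁) : ∀ s, Bd G d ap w D s →
    ang d c s w (g₁ • w) ≤ 2 * T0 ∨ ∀ r : G, r • s = s → WL G d ap w D m (r * g₁) := by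
  have hbig := hr.big
  have hT := hr.one_le
  have hC := claim h1 hr hw D
  have hww : d w w ≤ D + 1 := by rw [hr.gm.self]; exact Nat.zero_le _
  induction hg with
  | base m k hk =>
    intro s hs
    exact Or.inl (small h1 hr hw hC hs hk hww)
  | step m k₁ r₂ g₂ s₂ hk hs₂ hrs₂ hg₂ ih =>
    intro s hs
    rcases ih s₂ hs₂ with i | i
    · by_cases h2 : k₁ • s₂ = s
      · right
        intro r hrs
        have e1 : r * (k₁ * r₂ * g₂) = k₁ * (k₁⁻¹ * r * k₁ * r₂) * g₂ := by group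
        rw [e1]
        refine WL.step _ _ _ _ s₂ hk hs₂ ?_ hg₂
        rw [mul_smul, hrs₂, mul_smul, mul_smul, h2, hrs, ← h2, inv_smul_smul]
      · by_cases h3 : r₂ = 1
        · right
          intro r hrs
          subst h3
          have e1 : r * (k₁ * 1 * g₂) = 1 * r * (k₁ * g₂) := by group
          rw [e1]
          exact WL.step _ _ _ _ s (one_mem _) hs hrs (WL_mul hg₂ hk)
        · left
          have hp : k₁ • s₂ ∈ ap := hr.ap_smul _ _ hs₂.1
          have ha : k₁⁻¹ • s ≠ s₂ := by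
            intro h4
            apply h2
            rw [← h4, smul_inv_smul]
          have hgw : g₂ • w ≠ s₂ := ne_ap hs₂.1 (fun h => hw ((ap_iff hr g₂ w).1 h))
          have e1 := rot_ang h1 hr hs₂.1 hrs₂ h3 (ne_ap hs₂.1 hw) ha hgw
          have e2 := small h1 hr hw hC hs₂ (inv_mem hk) (z := s) (by rw [hs.2.1])
          have e3 : ang d c (k₁ • s₂) s ((k₁ * r₂ * g₂) • w) =
              ang d c s₂ (k₁⁻¹ • s) (r₂ • g₂ • w) := by
            have := ang_smul hr k₁ hs₂.1 (k₁⁻¹ • s) (r₂ • g₂ • w)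
            rw [smul_inv_smul] at this
            rw [← this, mul_smul, mul_smul]
          obtain ⟨-, -, -, q4, -, q6, -⟩ := h1 A d ap c T0 hr.toIsPS (k₁ • s₂) hp
          obtain ⟨-, -, -, p4, -, -, -, -, p9, -⟩ := h1 A d ap c T0 hr.toIsPS s hs.1
          obtain ⟨-, e7, -⟩ := p9 (k₁ • s₂) hp h2 ((k₁ * r₂ * g₂) • w) (by
            have := q4 s ((k₁ * r₂ * g₂) • w)
            omega)
          have e8 := e7 w
          have e9 := p4 w ((k₁ * r₂ * g₂) • w)
          have e10 := p4 w (k₁ • s₂)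
          have e11 := small h1 hr hw hC hs hk (z := s₂) (by rw [hs₂.2.1])
          omega
    · right
      intro r hrs
      have e1 : r * (k₁ * r₂ * g₂) = 1 * r * (k₁ * (r₂ * g₂)) := by group
      rw [e1]
      exact WL.step _ _ _ _ s (one_mem _) hs hrs (WL_mul (i r₂ hrs₂) hk)

/-- Every element of `KK` is in some `KD`. -/
theorem exists_KD {w : A} {g : G} (hg : g ∈ KK G ap) : ∃ D, g ∈ KD G d ap w D := by
  unfold KK at hg
  induction hg using Subgroup.closure_induction with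
  | mem x hx =>
    obtain ⟨s, hs, h⟩ := hx
    exact ⟨d w s, Subgroup.subset_closure ⟨s, hs, le_rfl, h⟩⟩
  | one => exact ⟨0, one_mem _⟩
  | mul x y _ _ ihx ihy =>
    obtain ⟨D, hD⟩ := ihx
    obtain ⟨D', hD'⟩ := ihy
    exact ⟨max D D', mul_mem (KD_mono w (le_max_left _ _) hD) (KD_mono w (le_max_right _ _) hD')⟩
  | inv x _ ih =>
    obtain ⟨D, hD⟩ := ih
    exact ⟨D, inv_mem hD⟩

theorem KD_le (w : A) (D : ℕ) : KD G d ap w D ≤ KK G ap := by
  apply Subgroup.closure_mono
  rintro g ⟨s, hs, -, h⟩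
  exact ⟨s, hs, h⟩

end IP

open IP in
theorem IP (h1 : Stmt_PSA) (_h2 : Stmt_CHAIN) : Stmt_IP := by
  intro G A _ _ d ap c T0 L hr w hw P hP1 hP g hg
  have hbig := hr.big
  have hT := hr.one_le
  obtain ⟨D, hD⟩ := exists_KD (d := d) (w := w) hg
  clear hg
  induction D generalizing g with
  | zero =>
    rw [KD_zero hr hw hD]
    exact hP1
  | succ D ihD =>
    obtain ⟨m, hm⟩ := exists_WL hr hD
    clear hD
    have hC := claim h1 hr hw D
    have hww : d w w ≤ D + 1 := by rw [hr.gm.self]; exact Nat.zero_le _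
    induction m generalizing g with
    | zero =>
      cases hm with
      | base _ _ hk => exact ihD g hk
    | succ m ih =>
      cases hm with
      | base _ _ hk => exact ihD g hk
      | step _ k₀ r g₁ s hk hs hrs hg₁ =>
        rcases R' h1 hr hw hg₁ s hs with i | i
        · by_cases h4 : r = 1
          · subst h4
            rw [mul_one]
            exact ih _ (WL_mul hg₁ hk)
          · have hs' : k₀ • s ∈ ap := hr.ap_smul _ _ hs.1
            have hkw : k₀⁻¹ • w ≠ s := ne_ap hs.1 (fun h => hw ((ap_iff hr _ w).1 h))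
            have hgw : g₁ • w ≠ s := ne_ap hs.1 (fun h => hw ((ap_iff hr _ w).1 h))
            have e1 := rot_ang h1 hr hs.1 hrs h4 (ne_ap hs.1 hw) hkw hgw
            have e2 := small h1 hr hw hC hs (inv_mem hk) hww
            have e3 : ang d c (k₀ • s) w ((k₀ * r * g₁) • w) =
                ang d c s (k₀⁻¹ • w) (r • g₁ • w) := by
              have := ang_smul hr k₀ hs.1 (k₀⁻¹ • w) (r • g₁ • w)
              rw [smul_inv_smul] at this
              rw [← this, mul_smul, mul_smul]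
            refine hP (k₀ • s) hs' (k₀ * r⁻¹ * k₀⁻¹) ?_ (k₀ * r * g₁) ?_ (by omega) ?_
            · rw [mul_smul, inv_smul_smul, mul_smul, inv_smul_eq_iff.2 hrs.symm]
            · exact KD_le w (D + 1) (mem_succ (WL.step m k₀ r g₁ s hk hs hrs hg₁))
            · have e4 : k₀ * r⁻¹ * k₀⁻¹ * (k₀ * r * g₁) = k₀ * g₁ := by group
              rw [e4]
              exact ih _ (WL_mul hg₁ hk)
        · have e4 : k₀ * r * g₁ = k₀ * (r * g₁) := mul_assoc _ _ _
          rw [e4]
          exact ih _ (WL_mul (i r hrs) hk)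

end Pool.Agent.Olsh
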