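import Pool.Agent.Olsh.StmtsC

/-!
# MP_3cdb71_al: the quotient map preserves distances when the angles are small (module ISO)
-/

set_option autoImplicit false

namespace Pool.Agent.Olsh

/-- Lemma 4.4 of `Pool/Agent/Olsh/H92.md`. -/
theorem ISO (h1 : Stmt_PSA) (h2 : Stmt_IP) : Stmt_ISO := by
  intro G A G' A' _ _ _ _ d ap c T0 L d' π q hR hQ a b hb hang
  have hd := hR.gm
  -- the key estimate
  have key : ∀ g ∈ KK G ap, d a b ≤ d a (g • b) := by
    refine h2 G A d ap c T0 L hR b hb (fun g => d a b ≤ d a (g • b)) ?_ ?_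
    · show d a b ≤ d a ((1 : G) • b)
      rw [one_smul]
    · intro s hs r hr g _ hL hP
      change d a b ≤ d a ((r * g) • b) at hP
      by_cases hsa : s = a
      · have h3 := hR.isom r a (g • b)
        rw [hsa] at hr
        rw [hr, ← mul_smul] at h3
        omega
      · obtain ⟨_, _, _, hsymm, htri, _, _, hbgi, _, _, _⟩ := h1 A d ap c T0 hR.toIsPS s hs
        have h3 := hang s hs hsa
        have h4 := htri b a (g • b) (Ne.symm hsa)
        have h5 := hsymm b a
        have h6 := hR.one_le
        have h7 := (hbgi a (g • b) (by omega)).1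
        have h8 := hd.tri a s ((r * g) • b)
        have h9 := hR.isom r s (g • b)
        rw [hr, ← mul_smul] at h9
        omega
  obtain ⟨k, hk, hk'⟩ := hQ.ex a b
  have h3 := key k hk
  have h4 := hQ.le a b
  omega

end Pool.Agent.Olsh
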