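import Pool.Agent.Olsh.StmtsC

/-!
# MP_3cdb71_al: module KFREE

`KK G ap` is normal; a nontrivial element of it moves every vertex `w` outside the apexes very far
(some apex sees a large angle between `w` and its image); and two neighbours of an apex `s` in the
same orbit of `KK G ap` are in the same orbit of the stabiliser of `s`.
-/

set_option autoImplicit false

namespace Pool.Agent.Olsh

namespace KFREE

/-- The subgroup generated by the stabilisers of the apexes is normal. -/
theorem normal {G A : Type} [Group G] [MulAction G A] (ap : Set A)
    (hap : ∀ (g : G), ∀ s ∈ ap, g • s ∈ ap) : (KK G ap).Normal := by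
  constructor
  intro n hn g
  unfold KK at hn ⊢
  induction hn using Subgroup.closure_induction with
  | mem x hx =>
    obtain ⟨s, hs, hxs⟩ := hx
    refine Subgroup.subset_closure ⟨g • s, hap g s hs, ?_⟩
    rw [mul_smul, mul_smul, inv_smul_smul, hxs]
  | one =>
    rw [mul_one, mul_inv_cancel]
    exact Subgroup.one_mem _
  | mul x y _ _ ihx ihy =>
    have h : g * (x * y) * g⁻¹ = (g * x * g⁻¹) * (g * y * g⁻¹) := by group
    rw [h]
    exact Subgroup.mul_mem _ ihx ihy
  | inv x _ ih =>
    have h : g * x⁻¹ * g⁻¹ = (g * x * g⁻¹)⁻¹ := by group
    rw [h]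
    exact Subgroup.inv_mem _ ih

end KFREE

theorem KFREE (h1 : Stmt_PSA) (h2 : Stmt_IP) : Stmt_KFREE := by
  intro G A _ _ d ap c T0 L hR
  refine ⟨KFREE.normal ap hR.ap_smul, ?_, ?_⟩
  · intro w hw g hg
    refine h2 G A d ap c T0 L hR w hw
      (fun g => g ≠ 1 → ∃ s ∈ ap, L ≤ ang d c s w (g • w) + 12 * T0) ?_ ?_ g hg
    · exact fun h => absurd rfl h
    · intro s hs r _ g _ hL _ _
      exact ⟨s, hs, hL⟩
  · intro s hs y hy k hk
    have hgm := hR.gm
    have hyap : y ∉ ap := fun h => hR.nadj y h s hs hy
    have hys : y ≠ s := by
      intro h
      exact hyap (h ▸ hs)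
    refine h2 G A d ap c T0 L hR y hyap (fun k => d (k • y) s = 1 → k • s = s) ?_ ?_ k hk
    · exact fun _ => one_smul G s
    · intro t ht r hr g _ hL hP hgy
      by_cases hts : t = s
      · subst hts
        have h3 : d ((r * g) • y) t = 1 := by
          have h4 := hR.isom r (g • y) t
          rw [hr] at h4
          rw [mul_smul, h4]
          exact hgy
        have h5 := hP h3
        rw [mul_smul] at h5
        have h6 : r • (g • t) = r • t := by rw [h5, hr]
        exact (MulAction.injective r) h6
      · exfalso
        obtain ⟨_, _, _, _, htri, _, _, hbig, _, _, _⟩ := h1 A d ap c T0 hR.toIsPS t ht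
        have hst : s ≠ t := fun h => hts h.symm
        have hpos : ∀ a b : A, a ≠ b → 1 ≤ d a b := by
          intro a b hab
          by_contra hlt
          have h0 : d a b = 0 := by omega
          exact hab (hgm.eq_of_zero h0)
        have e1 : ang d c t y s ≤ T0 := by
          by_contra hlt
          obtain ⟨h7, h8, h9⟩ := hbig y s (by omega)
          have := hpos y t h8
          have := hpos t s hts
          omega
        have e2 : ang d c t s (g • y) ≤ T0 := by
          by_contra hlt
          obtain ⟨h7, h8, h9⟩ := hbig s (g • y) (by omega)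
          have := hpos t (g • y) (fun h => h9 h.symm)
          have := hpos s t hst
          have h10 : d s (g • y) = 1 := by
            rw [hgm.comm]
            exact hgy
          omega
        have e3 := htri y s (g • y) hst
        have := hR.big
        omega

end Pool.Agent.Olsh
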