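import Pool.Agent.Olsh.StmtsC

/-!
# MP_3cdb71_al, module LAM: Lemma 4.6, back to `X`
-/

set_option autoImplicit false

namespace Pool.Agent.Olsh

namespace LAM

variable {X S : Type} {d : X → X → ℕ} {u : ℕ} {Y : S → Set X} {η η1 C : ℕ}

theorem exists_pr (Z : Set X) (hZ : Z.Nonempty) (v : X) : ∃ y, IsPr d Z v y := by
  classical
  have hex : ∃ n, ∃ y ∈ Z, d v y = n := by
    obtain ⟨y, hy⟩ := hZ
    exact ⟨_, y, hy, rfl⟩
  obtain ⟨y, hy, hn⟩ := Nat.find_spec hex
  refine ⟨y, hy, fun z hz => ?_⟩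
  rw [hn]
  exact Nat.find_min' hex ⟨z, hz, rfl⟩

/-- The set attached to a vertex of the cone-off. -/
def zset (Y : S → Set X) (b : X ⊕ S) : Set X :=
  match b with
  | Sum.inl v => {v}
  | Sum.inr s => Y s

theorem cover (h3 : Stmt_NGON) (h4 : Stmt_CONEGM) (H : ConeP d u Y η η1 C) (p p' : X) (a : ℕ)
    (ha : cd d u Y (Sum.inl p) (Sum.inl p') ≤ a) :
    ∃ (m : ℕ) (x : ℕ → X ⊕ S), m ≤ a ∧
      ∀ z, Bt d p z p' → ∃ i, i ≤ m ∧ ∃ w ∈ zset Y (x i), d z w ≤ 4 * dl * a + u + η := by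
  obtain ⟨hgm, hadj, -⟩ := h4 X S d u Y H.gm H.one_le H.ne
  obtain ⟨x, hx0, hxm, hx⟩ := hgm.exists_geo (Sum.inl p) (Sum.inl p')
  set m := cd d u Y (Sum.inl p) (Sum.inl p') with hm
  refine ⟨m, x, ha, ?_⟩
  intro z hz
  rcases Nat.eq_zero_or_pos m with h0 | hpos
  · have e1 : (Sum.inl p : X ⊕ S) = Sum.inl p' := by
      apply hgm.eq_of_zero
      omega
    have e2 : p = p' := Sum.inl.inj e1
    subst e2
    refine ⟨0, Nat.zero_le _, p, ?_, ?_⟩
    · rw [hx0]
      exact rfl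
    · have := H.gm.self p
      have := H.gm.comm p z
      unfold Bt at hz
      omega
  · set b : ℕ → X := fun i => Sum.elim (fun v => v) (fun s => (H.ne s).some) (x i) with hb
    have hb0 : b 0 = p := by
      simp [hb, hx0]
    have hbm : b m = p' := by
      simp [hb, hxm]
    have hz' : Bt d (b 0) z (b m) := by
      rw [hb0, hbm]
      exact hz
    obtain ⟨i, hi, z', hz1, hz2⟩ := h3 dl X d H.gm H.hyp m b z hpos hz'
    have hle : 4 * dl * m ≤ 4 * dl * a := Nat.mul_le_mul_left _ ha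
    have hadj' : coneAdj d u Y (x i) (x (i + 1)) := by
      rw [← hadj]
      have := hx i (i + 1) (by omega) (by omega)
      omega
    have hbi : b i = Sum.elim (fun v => v) (fun s => (H.ne s).some) (x i) := rfl
    have hbi' : b (i + 1) = Sum.elim (fun v => v) (fun s => (H.ne s).some) (x (i + 1)) := rfl
    rcases hxi : x i with v | s
    · rcases hxi' : x (i + 1) with w | t
      · rw [hxi, hxi'] at hadj'
        obtain ⟨-, h⟩ := hadj'
        rw [hxi] at hbi
        rw [hxi'] at hbi'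
        simp only [Sum.elim_inl] at hbi hbi'
        rw [hbi, hbi'] at hz1
        refine ⟨i, by omega, v, ?_, ?_⟩
        · rw [hxi]
          exact rfl
        · have h5 := H.gm.tri z z' v
          have h6 := H.gm.comm z' v
          unfold Bt at hz1
          omega
      · rw [hxi, hxi'] at hadj'
        have hv : v ∈ Y t := hadj'
        rw [hxi] at hbi
        rw [hxi'] at hbi'
        simp only [Sum.elim_inl, Sum.elim_inr] at hbi hbi'
        have ht : b (i + 1) ∈ Y t := by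
          rw [hbi']
          exact (H.ne t).some_mem
        obtain ⟨w, hw, hw'⟩ := H.qc t (b i) (by rw [hbi]; exact hv) (b (i + 1)) ht z' hz1
        refine ⟨i + 1, by omega, w, ?_, ?_⟩
        · rw [hxi']
          exact hw
        · have h5 := H.gm.tri z z' w
          omega
    · rcases hxi' : x (i + 1) with w | t
      · rw [hxi, hxi'] at hadj'
        have hv : w ∈ Y s := hadj'
        rw [hxi] at hbi
        rw [hxi'] at hbi'
        simp only [Sum.elim_inl, Sum.elim_inr] at hbi hbi'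
        have ht : b i ∈ Y s := by
          rw [hbi]
          exact (H.ne s).some_mem
        obtain ⟨w₂, hw, hw'⟩ := H.qc s (b i) ht (b (i + 1)) (by rw [hbi']; exact hv) z' hz1
        refine ⟨i, by omega, w₂, ?_, ?_⟩
        · rw [hxi]
          exact hw
        · have h5 := H.gm.tri z z' w₂
          omega
      · rw [hxi, hxi'] at hadj'
        exact absurd hadj' id

/-- Projections of two points to `Y s` are at most angle plus `2 * C * u` apart. -/
theorem proj_le (h1 : Stmt_PSA) (h4 : Stmt_CONEGM) (H : ConeP d u Y η η1 C) (s : S) (p q y y' : X)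
    (hy : IsPr d (Y s) p y) (hy' : IsPr d (Y s) q y') (B : ℕ)
    (hB : ang (cd d u Y) (cdX d) (Sum.inr s) (Sum.inl p) (Sum.inl q) ≤ B) :
    d y y' ≤ B + 2 * (C * u) := by
  obtain ⟨hgm, hadj, -⟩ := h4 X S d u Y H.gm H.one_le H.ne
  obtain ⟨hne, hang, -⟩ := h1 _ _ _ _ _ H.ps (Sum.inr s) ⟨s, rfl⟩
  have key : ∀ r : X, ∃ z : X, Sum.inl z ∈ Nb (cd d u Y) (Sum.inr s) (Sum.inl r) := by
    intro r
    obtain ⟨z, hz⟩ := hne (Sum.inl r) (by simp)
    have hz1 : coneAdj d u Y z (Sum.inr s) := (hadj _ _).1 hz.1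
    rcases z with z | t
    · exact ⟨z, hz⟩
    · exact absurd hz1 id
  obtain ⟨z, hz⟩ := key p
  obtain ⟨z', hz'⟩ := key q
  have e1 := H.near s (Sum.inl p) p z y rfl hy hz
  have e2 := H.near s (Sum.inl q) q z' y' rfl hy' hz'
  have e3 := hang _ _ _ _ hz hz'
  have e4 : cdX d (Sum.inr s) (Sum.inl z) (Sum.inl z') = d z z' := rfl
  have e5 := H.gm.tri y z y'
  have e6 := H.gm.tri z z' y'
  have e7 := H.gm.comm y z
  omega

/-- Points of `I(p,q)` close to the same set of the cover are close to each other. -/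
theorem pair_le (h1 : Stmt_PSA) (h4 : Stmt_CONEGM) (CP : ℕ)
    (hP : ∀ (V : Type) (d : V → V → ℕ) (Y : Set V),
      IsGM d → Hyp d dl → QC d η Y → ∀ v v' y y', IsPr d Y v y → IsPr d Y v' y' →
      ∀ z w z₂ w₂, Bt d v z v' → Bt d v z₂ v' → w ∈ Y → w₂ ∈ Y →
      d z z₂ ≤ d y y' + d z w + d z₂ w₂ + CP)
    (H : ConeP d u Y η η1 C) (p q : X) (B R : ℕ)
    (hB : ∀ s : S, ang (cd d u Y) (cdX d) (Sum.inr s) (Sum.inl p) (Sum.inl q) ≤ B)
    (b : X ⊕ S) (z z₂ w w₂ : X) (hz : Bt d p z q) (hz₂ : Bt d p z₂ q) (hw : w ∈ zset Y b)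
    (hw₂ : w₂ ∈ zset Y b) (h : d z w ≤ R) (h' : d z₂ w₂ ≤ R) :
    d z z₂ ≤ B + 2 * (C * u) + 2 * R + CP := by
  rcases b with v | s
  · have e1 : w = v := hw
    have e2 : w₂ = v := hw₂
    subst e1
    subst e2
    have e3 := H.gm.tri z w₂ z₂
    have e4 := H.gm.comm w₂ z₂
    omega
  · obtain ⟨y, hy⟩ := exists_pr (d := d) (Y s) (H.ne s) p
    obtain ⟨y', hy'⟩ := exists_pr (d := d) (Y s) (H.ne s) q
    have e1 := proj_le h1 h4 H s p q y y' hy hy' B (hB s)
    have e2 := hP X d (Y s) H.gm H.hyp (H.qc s) p q y y' hy hy' z w z₂ w₂ hz hz₂ hw hw₂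
    omega

/-- A pigeonhole principle. -/
theorem pigeon (n m D : ℕ) (j : ℕ → ℕ) (hj : ∀ k, k ≤ n → j k ≤ m)
    (hD : ∀ k l, k ≤ l → l ≤ n → j k = j l → l - k < D) : n < (m + 1) * D := by
  by_contra hcon
  push Not at hcon
  have hc : (Finset.range (m + 1)).card * D < (Finset.range (n + 1)).card := by
    simp only [Finset.card_range]
    omega
  obtain ⟨y, hy, hcard⟩ := Finset.exists_lt_card_fiber_of_mul_lt_card_of_maps_to
    (s := Finset.range (n + 1)) (t := Finset.range (m + 1)) (f := j) (n := D)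
    (fun k hk => by
      have := hj k (by simpa [Nat.lt_succ_iff] using hk)
      simp only [Finset.mem_range]
      omega) hc
  set F := (Finset.range (n + 1)).filter (fun k => j k = y) with hF
  have hne : F.Nonempty := by
    rw [← Finset.card_pos]
    omega
  have hmem : ∀ k, k ∈ F → k ≤ n ∧ j k = y := by
    intro k hk
    rw [hF, Finset.mem_filter, Finset.mem_range] at hk
    exact ⟨by omega, hk.2⟩
  have hmin := hmem _ (F.min'_mem hne)
  have hmax := hmem _ (F.max'_mem hne)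
  have hsub : F ⊆ Finset.Icc (F.min' hne) (F.max' hne) := by
    intro k hk
    rw [Finset.mem_Icc]
    exact ⟨F.min'_le k hk, F.le_max' k hk⟩
  have hle := Finset.card_le_card hsub
  rw [Nat.card_Icc] at hle
  have := hD (F.min' hne) (F.max' hne) (F.min'_le _ (F.max'_mem hne)) hmax.1
    (by rw [hmin.2, hmax.2])
  omega

/-- A point of `I(p,q)` close to `I(p,p')` is near `p`. -/
theorem near_le (h1 : Stmt_PSA) (h3 : Stmt_NGON) (h4 : Stmt_CONEGM) (CP : ℕ)
    (hP : ∀ (V : Type) (d : V → V → ℕ) (Y : Set V),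
      IsGM d → Hyp d dl → QC d η Y → ∀ v v' y y', IsPr d Y v y → IsPr d Y v' y' →
      ∀ z w z₂ w₂, Bt d v z v' → Bt d v z₂ v' → w ∈ Y → w₂ ∈ Y →
      d z z₂ ≤ d y y' + d z w + d z₂ w₂ + CP)
    (H : ConeP d u Y η η1 C) (p q p' : X) (a B : ℕ)
    (hB : ∀ s : S, ang (cd d u Y) (cdX d) (Sum.inr s) (Sum.inl p) (Sum.inl q) ≤ B)
    (ha : cd d u Y (Sum.inl p) (Sum.inl p') ≤ a) (v w : X) (hv : Bt d p v q) (hw : Bt d p w p')
    (hvw : d v w ≤ 20 * dl + 1) :
    d p v < (a + 1) * (B + 2 * (C * u) + 2 * (24 * dl + 1 + (4 * dl * a + u + η)) + CP + 1) := by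
  obtain ⟨m, x, hm, hx⟩ := cover h3 h4 H p p' a ha
  obtain ⟨t, ht0, htn, ht⟩ := H.gm.exists_geo p v
  set R := 24 * dl + 1 + (4 * dl * a + u + η) with hR
  have hclose : ∀ k, k ≤ d p v → ∃ i, i ≤ m ∧ ∃ w' ∈ zset Y (x i), d (t k) w' ≤ R := by
    intro k hk
    have hbt : Bt d p (t k) v := by
      have := ht.bt (Nat.zero_le k) hk le_rfl
      rwa [ht0, htn] at this
    obtain ⟨z, hz, hz'⟩ := H.hyp.slim H.gm p v w (t k) hbt
    have hex : ∃ z₂, Bt d p z₂ p' ∧ d (t k) z₂ ≤ 24 * dl + 1 := by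
      rcases hz with hz | hz
      · exact ⟨z, H.gm.bt_trans hw hz, by omega⟩
      · refine ⟨w, hw, ?_⟩
        have e1 := H.gm.tri (t k) z w
        have e2 := H.gm.comm w z
        have e3 := H.gm.comm w v
        unfold Bt at hz
        omega
    obtain ⟨z₂, hz₂, hz₂'⟩ := hex
    obtain ⟨i, hi, w', hw', hd'⟩ := hx z₂ hz₂
    refine ⟨i, hi, w', hw', ?_⟩
    have := H.gm.tri (t k) z₂ w'
    omega
  have hclose2 : ∀ k, ∃ (i : ℕ) (w' : X), k ≤ d p v → i ≤ m ∧ w' ∈ zset Y (x i) ∧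
      d (t k) w' ≤ R := by
    intro k
    by_cases hk : k ≤ d p v
    · obtain ⟨i, h5, w', h6, h7⟩ := hclose k hk
      exact ⟨i, w', fun _ => ⟨h5, h6, h7⟩⟩
    · exact ⟨0, v, fun h => absurd h hk⟩
  choose j w' hjw using hclose2
  have hpig := pigeon (d p v) m (B + 2 * (C * u) + 2 * R + CP + 1) j
    (fun k hk => (hjw k hk).1) ?_
  · refine lt_of_lt_of_le hpig ?_
    exact Nat.mul_le_mul_right _ (by omega)
  · intro k l hkl hl hjkl
    have hbk : Bt d p (t k) q := by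
      have := ht.bt (Nat.zero_le k) (by omega : k ≤ d p v) le_rfl
      rw [ht0, htn] at this
      exact H.gm.bt_trans hv this
    have hbl : Bt d p (t l) q := by
      have := ht.bt (Nat.zero_le l) hl le_rfl
      rw [ht0, htn] at this
      exact H.gm.bt_trans hv this
    obtain ⟨-, hwk, hdk⟩ := hjw k (by omega)
    obtain ⟨-, hwl, hdl⟩ := hjw l hl
    rw [hjkl] at hwk
    have e1 := pair_le h1 h4 CP hP H p q B R hB (x (j l)) (t k) (t l) (w' k) (w' l) hbk hbl
      hwk hwl hdk hdl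
    have e2 := ht k l hkl hl
    omega

end LAM

open LAM in
theorem LAM (h1 : Stmt_PSA) (h2 : Stmt_PROJ) (h3 : Stmt_NGON) (h4 : Stmt_CONEGM) : Stmt_LAM := by
  intro η η1 C
  obtain ⟨CP, hCP⟩ := h2 dl η
  have hP : ∀ (V : Type) (d : V → V → ℕ) (Y : Set V),
      IsGM d → Hyp d dl → QC d η Y → ∀ v v' y y', IsPr d Y v y → IsPr d Y v' y' →
      ∀ z w z₂ w₂, Bt d v z v' → Bt d v z₂ v' → w ∈ Y → w₂ ∈ Y →
      d z z₂ ≤ d y y' + d z w + d z₂ w₂ + CP := by
    intro V d Y a1 a2 a3 v v' y y' a4 a5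
    exact (hCP V d Y a1 a2 a3 v v' y y' a4 a5).2.2.2.2
  refine ⟨2 * C + 60 * dl + 2 * η + CP + 10, ?_⟩
  set C' := 2 * C + 60 * dl + 2 * η + CP + 10 with hC'
  intro X S d u Y H hu a B lam p q p' q' hlam hB hB' ha ha' v hv hpv hvq
  -- constants
  have hu1 := H.one_le
  have hconst : (a + 1) * (B + 2 * (C * u) + 2 * (24 * dl + 1 + (4 * dl * a + u + η)) + CP + 1) ≤
      lam := by
    rw [hlam]
    apply Nat.mul_le_mul_left
    have e1 : C' * (u + a) = C' * u + C' * a := by ring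
    have e2 : C' * a = 8 * dl * a + (2 * C + 52 * dl + 2 * η + CP + 10) * a := by
      rw [hC']
      ring
    have e3 : C' * u = 2 * (C * u) + 2 * u + (60 * dl + 2 * η + CP + 8) * u := by
      rw [hC']
      ring
    have e4 : 60 * dl + 2 * η + CP + 8 ≤ (60 * dl + 2 * η + CP + 8) * u :=
      Nat.le_mul_of_pos_right _ hu1
    have e5 : 4 * dl * a * 2 = 8 * dl * a := by ring
    omega
  have hlam2 : 60 * dl + 10 ≤ lam := by
    have e3 : 60 * dl + 10 ≤ C' * u := by
      have : C' * 1 ≤ C' * u := Nat.mul_le_mul_left _ hu1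
      omega
    have e4 : C' * u ≤ lam := by
      rw [hlam]
      have e5 : C' * u ≤ B + C' * (u + a) := by
        have : C' * u ≤ C' * (u + a) := Nat.mul_le_mul_left _ (by omega)
        omega
      have e6 : 1 * (B + C' * (u + a)) ≤ (a + 1) * (B + C' * (u + a)) :=
        Nat.mul_le_mul_right _ (by omega)
      omega
    omega
  -- symmetric angles
  have hBs : ∀ s : S, ang (cd d u Y) (cdX d) (Sum.inr s) (Sum.inl q) (Sum.inl p) ≤ B := by
    intro s
    obtain ⟨-, -, -, hsymm, -⟩ := h1 _ _ _ _ _ H.ps (Sum.inr s) ⟨s, rfl⟩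
    rw [hsymm]
    exact hB s
  obtain ⟨hgm, hadj, -⟩ := h4 X S d u Y H.gm H.one_le H.ne
  have ha2 : cd d u Y (Sum.inl p') (Sum.inl p) ≤ a := by
    rw [hgm.comm]
    exact ha
  have slim := H.hyp.slim H.gm
  -- the three uses of the covering lemma
  have A1 : ∀ x w, Bt d p x q → Bt d p w p' → d x w ≤ 20 * dl + 1 → d p x < lam := by
    intro x w hx hw hxw
    have := near_le h1 h3 h4 CP hP H p q p' a B hB ha x w hx hw hxw
    omega
  have A2 : ∀ x w, Bt d q x p → Bt d q w q' → d x w ≤ 20 * dl + 1 → d q x < lam := by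
    intro x w hx hw hxw
    have := near_le h1 h3 h4 CP hP H q p q' a B hBs ha' x w hx hw hxw
    omega
  have A3 : ∀ x w, Bt d p' x q' → Bt d p' w p → d x w ≤ 20 * dl + 1 → d p' x < lam := by
    intro x w hx hw hxw
    have := near_le h1 h3 h4 CP hP H p' q' p a B hB' ha2 x w hx hw hxw
    omega
  -- the quadrilateral
  have hv' : ∃ v', Bt d p' v' q' ∧ d v v' ≤ 8 * dl := by
    obtain ⟨z, hz, hz'⟩ := slim p q p' v hv
    rcases hz with hz | hz
    · have := A1 v z hv hz (by omega)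
      omega
    · obtain ⟨z₂, hz₂, hz₂'⟩ := slim p' q q' z hz
      have e1 := H.gm.tri v z z₂
      rcases hz₂ with hz₂ | hz₂
      · exact ⟨z₂, hz₂, by omega⟩
      · have := A2 v z₂ (H.gm.bt_symm hv) (H.gm.bt_symm hz₂) (by omega)
        have e2 := H.gm.comm v q
        omega
  obtain ⟨v', hv1, hv2⟩ := hv'
  refine ⟨v', hv1, by omega, ?_⟩
  -- the centre of the triangle p, p', v'
  obtain ⟨c, hc, ⟨c1, hc1, hc1'⟩, ⟨c2, hc2, hc2'⟩⟩ := slim.center H.gm p p' v'
  have b2 : d p' c2 < lam := by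
    refine A3 c2 c (H.gm.bt_trans hv1 (H.gm.bt_symm hc2)) (H.gm.bt_symm hc) ?_
    have := H.gm.comm c c2
    omega
  have hc3 : ∃ c3, Bt d p c3 v ∧ d c1 c3 ≤ 12 * dl := by
    obtain ⟨z, hz, hz'⟩ := slim p v' v c1 hc1
    rcases hz with hz | hz
    · exact ⟨z, hz, by omega⟩
    · refine ⟨v, H.gm.bt_right _ _, ?_⟩
      have e1 := H.gm.tri c1 z v
      have e2 := H.gm.comm z v
      unfold Bt at hz
      omega
  obtain ⟨c3, hc3, hc3'⟩ := hc3
  have e1 := H.gm.tri c c1 c3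
  have e2 := H.gm.comm c c3
  have b3 : d p c3 < lam := A1 c3 c (H.gm.bt_trans hv hc3) hc (by omega)
  have f1 := H.gm.tri c3 c c2
  have f2 := H.gm.tri c3 c2 v
  have f3 := H.gm.tri c2 v' v
  have f4 := H.gm.comm v v'
  have f5 := H.gm.comm c3 c2
  have f6 := H.gm.comm p' c2
  have f7 := H.gm.comm c2 v'
  have f8 := H.gm.comm v' p'
  have f9 := H.gm.tri c2 c3 v'
  have f10 := H.gm.tri c3 v v'
  unfold Bt at hc3 hc2
  constructor <;> omega

end Pool.Agent.Olsh
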