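import Pool.Agent.Olsh.StmtsC

/-!
# MP_3cdb71_al, module OLC_LEN: Lemma 4.9 (lengths)
-/

set_option autoImplicit false

namespace Pool.Agent.Olsh

namespace LEN

/-- Walk along a geodesic of the cone-off. -/
theorem walk {X S : Type} {d : X → X → ℕ} {u : ℕ} {Y : S → Set X} (hd : IsGM d)
    (hc : IsGM (cd d u Y)) (hadj : ∀ a b, cd d u Y a b = 1 ↔ coneAdj d u Y a b)
    {B : ℕ} {v w : X}
    (hang : ∀ (s : S) (y y' : X), Sum.inl y ∈ Nb (cd d u Y) (Sum.inr s) (Sum.inl v) →
      Sum.inl y' ∈ Nb (cd d u Y) (Sum.inr s) (Sum.inl w) → d y y' ≤ B)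
    (n : ℕ) (p : ℕ → X ⊕ S) (h0 : p 0 = Sum.inl v) (hn : p n = Sum.inl w)
    (hp : IsGeo (cd d u Y) n p) :
    ∀ k, k ≤ n → ∀ x : X, p k = Sum.inl x → d v x ≤ k * (B + u) := by
  intro k
  induction k using Nat.strong_induction_on with
  | _ k ih =>
    intro hk x hx
    rcases k with _ | k
    · rw [h0] at hx
      have hx' : v = x := Sum.inl.inj hx
      rw [← hx', hd.self]
      exact Nat.zero_le _
    · have e1 : cd d u Y (p k) (p (k + 1)) = 1 := by
        have := hp k (k + 1) (by omega) hk
        omega
      rw [hadj] at e1
      rw [hx] at e1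
      rcases hz : p k with z | t
      · rw [hz] at e1
        have h2 : d z x ≤ u := e1.2
        have h3 := ih k (by omega) (by omega) z hz
        have h4 := hd.tri v z x
        have h5 : (k + 1) * (B + u) = k * (B + u) + (B + u) := by ring
        omega
      · rw [hz] at e1
        have hxt : cd d u Y (Sum.inl x) (Sum.inr t) = 1 := (hadj _ _).2 e1
        rcases k with _ | k
        · rw [h0] at hz
          cases hz
        · have e2 : cd d u Y (p k) (p (k + 1)) = 1 := by
            have := hp k (k + 1) (by omega) (by omega)
            omega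
          rcases hy : p k with y | t'
          · rw [hy, hz] at e2
            have h3 := ih k (by omega) (by omega) y hy
            have h4 := hd.tri v y x
            have g1 : cd d u Y (Sum.inl v) (Sum.inl y) = k := by
              have := hp 0 k (by omega) (by omega)
              rw [h0, hy] at this
              omega
            have g2 : cd d u Y (Sum.inl v) (Sum.inr t) = k + 1 := by
              have := hp 0 (k + 1) (by omega) (by omega)
              rw [h0, hz] at this
              omega
            have g3 : cd d u Y (Sum.inl w) (Sum.inl x) = n - (k + 2) := by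
              have := hp (k + 2) n (by omega) (by omega)
              rw [hn] at this
              rw [show k + 2 = k + 1 + 1 from rfl, hx] at this
              rw [hc.comm]
              omega
            have g4 : cd d u Y (Sum.inl w) (Sum.inr t) = n - (k + 1) := by
              have := hp (k + 1) n (by omega) (by omega)
              rw [hn, hz] at this
              rw [hc.comm]
              omega
            have h6 : d y x ≤ B := hang t y x ⟨e2, by omega⟩ ⟨hxt, by omega⟩
            have h7 : (k + 1 + 1) * (B + u) = k * (B + u) + (B + u) + (B + u) := by ring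
            omega
          · rw [hy, hz] at e2
            exact absurd ((hadj _ _).1 e2) (fun h => h)

end LEN

/-- Lemma 4.9. -/
theorem LEN (h1 : Stmt_PSA) (h2 : Stmt_CONEGM) : Stmt_LEN := by
  intro η η1 C X S d u Y hP B v w hang
  obtain ⟨hc, hadj, -⟩ := h2 X S d u Y hP.gm hP.one_le hP.ne
  obtain ⟨p, h0, hn, hp⟩ := hc.exists_geo (Sum.inl v) (Sum.inl w)
  refine LEN.walk hP.gm hc hadj ?_ _ p h0 hn hp _ le_rfl w hn
  intro s y y' hy hy'
  have h := (h1 (X ⊕ S) (cd d u Y) (apx X S) (cdX d) (C * u) hP.ps (Sum.inr s) ⟨s, rfl⟩).2.1
    (Sum.inl v) (Sum.inl w) (Sum.inl y) (Sum.inl y') hy hy'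
  exact le_trans h (hang s)

end Pool.Agent.Olsh
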