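import Pool.Agent.Olsh.StmtsP

/-!
# MP_3cdb71_al: every nontrivial element of the quotient has positive stable length (LOXQ)
-/

set_option autoImplicit false

namespace Pool.Agent.Olsh

namespace LOXQ

theorem mono {G G' X S A' : Type} [Group G] [MulAction G X] [MulAction G S]
    [Group G'] [MulAction G' A'] {d : X → X → ℕ} {u L : ℕ} {Y : S → Set X} {η η1 C : ℕ}
    {d' : A' → A' → ℕ} {π : G →* G'} {q : X ⊕ S → A'} {a0 L0 : ℕ} {CP : ℕ → ℕ} {M0 U U' : ℕ}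
    (h : LQ G G' d u L Y η η1 C d' π q a0 L0 CP M0 U) (hU : U' ≤ U) :
    LQ G G' d u L Y η η1 C d' π q a0 L0 CP M0 U' :=
  { toConeQ := h.toConeQ
    lev := h.lev
    hu := hU.trans h.hu
    hL := (Nat.mul_le_mul_right u hU).trans h.hL
    heta := h.heta }

end LOXQ

/-- LOXQ: every nontrivial element of the quotient has positive stable length. -/
theorem LOXQ (h1 : Stmt_TYPES) (h2 : Stmt_ALC) (h3 : Stmt_BEAX) (h4 : Stmt_QPS) (h5 : Stmt_QGM)
    (h6 : Stmt_QHYP) : Stmt_LOXQ := by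
  intro η η1 C a0 L0 CP M0
  obtain ⟨E, -, hE⟩ := h1 η η1 C
  obtain ⟨C10, hC10⟩ := h3 η η1 C E
  obtain ⟨U1, hU1⟩ := hE a0 L0 CP M0
  obtain ⟨U2, hU2⟩ := hC10 a0 L0 CP M0
  refine ⟨max U1 U2, ?_⟩
  intro G G' X S A' _ _ _ _ _ d u L Y d' π q hLQ x hx
  have hgm := h5 G (X ⊕ S) G' A' (cd d u Y) (KK G (apx X S)) d' π q hLQ.rotc.gm hLQ.rotc.isom
    hLQ.quot
  rcases hU1 G G' X S A' d u L Y d' π q (LOXQ.mono hLQ (le_max_left _ _)) x hx with
    ⟨t, ht, hang⟩ | ⟨g, o, hg, ho⟩ | hD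
  · obtain ⟨hps, -, hap, hcs, -⟩ := h4 G (X ⊕ S) G' A' (cd d u Y) (apx X S) (cdX d) (C * u) L d' π q
      hLQ.rotc hLQ.quot
    obtain ⟨-, hs, h2', -⟩ := h2 G' A' d' (q '' apx X S) (cq (cd d u Y) (cdX d) q) (C * u) hps
      hgm.2 hap hcs x t ht hang
    rw [hs]
    have : 0 < d' t (x • t) := by omega
    exact_mod_cast this
  · have hg1 : π g ≠ 1 := by rw [hg]; exact hx
    have hb := (hU2 G G' X S A' d u L Y d' π q (LOXQ.mono hLQ (le_max_right _ _)) g o hg1 ho).2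
    rw [hg] at hb
    have hpos : 0 < slen d g := hLQ.lev.lox g fun h0 => hg1 (by rw [h0, map_one])
    by_contra hcon
    have h0 : slen d' x = 0 := le_antisymm (not_lt.mp hcon) (IsomAct.slen_nonneg x)
    rw [h0, mul_zero] at hb
    exact absurd hpos (not_lt.mpr hb)
  · have hhyp : Hyp d' dl := h6 G (X ⊕ S) G' A' (cd d u Y) (apx X S) (cdX d) (C * u) L dl d' π q
      hLQ.rotc hLQ.quot hLQ.conep.hypc
    obtain ⟨v⟩ := hLQ.lev.ne
    have : Nonempty A' := ⟨q (Sum.inl v)⟩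
    have h7 := IsomAct.disp_le_slen (G := G') hgm.2 hhyp hgm.1 x
    have h8 : ((DD : ℕ) : ℝ) < (disp d' x : ℕ) := by exact_mod_cast hD
    have h9 : ((DD : ℕ) : ℝ) = 100 * dl + 100 := by
      unfold DD
      push_cast
      ring
    have h10 : (0 : ℝ) ≤ dl := Nat.cast_nonneg _
    rw [h9] at h8
    linarith

end Pool.Agent.Olsh
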