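import Pool.Agent.Olsh.StmtsC

/-!
# MP_3cdb71_al: the quotient is a metric graph with an isometric action (module `OLC_QGM`)
-/

set_option autoImplicit false

namespace Pool.Agent.Olsh

namespace QGM

variable {G A G' A' : Type} [Group G] [MulAction G A] [Group G'] [MulAction G' A']
  {d : A → A → ℕ} {K : Subgroup G} {d' : A' → A' → ℕ} {π : G →* G'} {q : A → A'}

theorem q_smul (hq : IsQuot K d d' π q) {k : G} (hk : k ∈ K) (a : A) : q (k • a) = q a :=
  ((hq.fib a (k • a)).2 ⟨k, hk, rfl⟩).symm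

/-- Lifting of pairs. -/
theorem lift (hq : IsQuot K d d' π q) (a : A) (y : A') :
    ∃ b, q b = y ∧ d a b = d' (q a) y := by
  obtain ⟨b, rfl⟩ := hq.surj y
  obtain ⟨k, hk, h⟩ := hq.ex a b
  exact ⟨k • b, q_smul hq hk b, h⟩

theorem isGM (hd : IsGM d) (hq : IsQuot K d d' π q) : IsGM d' := by
  have comm_le : ∀ x y : A', d' y x ≤ d' x y := by
    intro x y
    obtain ⟨a, rfl⟩ := hq.surj x
    obtain ⟨b, rfl, hb⟩ := lift hq a y
    have h1 := hq.le b a
    have h2 := hd.comm a b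
    omega
  have tri : ∀ x y z : A', d' x z ≤ d' x y + d' y z := by
    intro x y z
    obtain ⟨a, rfl⟩ := hq.surj x
    obtain ⟨b, rfl, hb⟩ := lift hq a y
    obtain ⟨c, rfl, hc⟩ := lift hq b z
    have h1 := hq.le a c
    have h2 := hd.tri a b c
    omega
  refine ⟨?_, ?_, ?_, tri, ?_⟩
  · intro x y h
    obtain ⟨a, rfl⟩ := hq.surj x
    obtain ⟨b, rfl, hb⟩ := lift hq a y
    rw [h] at hb
    rw [hd.eq_of_zero hb]
  · intro x
    obtain ⟨a, rfl⟩ := hq.surj x
    have h1 := hq.le a a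
    have h2 := hd.self a
    omega
  · intro x y
    exact le_antisymm (comm_le y x) (comm_le x y)
  · intro x y n hn
    obtain ⟨a, rfl⟩ := hq.surj x
    obtain ⟨b, rfl, hb⟩ := lift hq a y
    obtain ⟨z, hz1, hz2⟩ := hd.mid a b n (by omega)
    have h1 := hq.le a z
    have h2 := hq.le z b
    have h3 := tri (q a) (q z) (q b)
    exact ⟨q z, by omega, by omega⟩

theorem isom (hG : Isom G d) (hq : IsQuot K d d' π q) : Isom G' d' := by
  have key : ∀ (g' : G') (x y : A'), d' (g' • x) (g' • y) ≤ d' x y := by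
    intro g' x y
    obtain ⟨g, rfl⟩ := hq.surjG g'
    obtain ⟨a, rfl⟩ := hq.surj x
    obtain ⟨b, rfl, hb⟩ := lift hq a y
    have h1 := hq.le (g • a) (g • b)
    rw [hq.equiv, hq.equiv] at h1
    have h2 := hG g a b
    omega
  intro g' x y
  refine le_antisymm (key g' x y) ?_
  have h := key g'⁻¹ (g' • x) (g' • y)
  rwa [inv_smul_smul, inv_smul_smul] at h

end QGM

theorem QGM : Stmt_QGM := by
  intro G A G' A' _ _ _ _ d K d' π q hd hG hq
  exact ⟨QGM.isGM hd hq, QGM.isom hG hq⟩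

end Pool.Agent.Olsh
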