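import Pool.Agent.Olsh.StmtsC

/-!
# MP_3cdb71_al: Lemma 4.5 of `H92.md`, equivariant lifting of two translations
-/

set_option autoImplicit false

namespace Pool.Agent.Olsh

namespace TR

/-- Directions are preserved by isometries. -/
theorem smul_mem_Nb {G A : Type} [Group G] [MulAction G A] {d : A → A → ℕ} (hI : Isom G d)
    (g : G) {s a y : A} (hy : y ∈ Nb d s a) : g • y ∈ Nb d (g • s) (g • a) := by
  obtain ⟨h1, h2⟩ := hy
  refine ⟨?_, ?_⟩
  · rw [hI]; exact h1
  · rw [hI, hI]; exact h2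

/-- Angles are preserved by the action. -/
theorem ang_smul {G A : Type} [Group G] [MulAction G A] {d : A → A → ℕ} {ap : Set A}
    {c : A → A → A → ℕ} {T0 L : ℕ} (hR : IsRot G d ap c T0 L) (g : G) (s : A) (hs : s ∈ ap)
    (a b : A) : ang d c (g • s) (g • a) (g • b) = ang d c s a b := by
  unfold ang
  congr 1
  ext n
  constructor
  · rintro ⟨y, hy, y', hy', rfl⟩
    have h1 := smul_mem_Nb hR.isom g⁻¹ hy
    have h2 := smul_mem_Nb hR.isom g⁻¹ hy'
    rw [inv_smul_smul, inv_smul_smul] at h1 h2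
    refine ⟨g⁻¹ • y, h1, g⁻¹ • y', h2, ?_⟩
    have h3 := hR.c_smul g s hs (g⁻¹ • y) (g⁻¹ • y') h1.1 h2.1
    rw [smul_inv_smul, smul_inv_smul] at h3
    exact h3
  · rintro ⟨y, hy, y', hy', rfl⟩
    exact ⟨g • y, smul_mem_Nb hR.isom g hy, g • y', smul_mem_Nb hR.isom g hy',
      (hR.c_smul g s hs y y' hy.1 hy'.1).symm⟩

/-- If a geodesic from `a` to `x` passes through `t`, then moving `x` around `t` does not increase
the distance. -/
theorem rotate_le {A : Type} {d : A → A → ℕ} (hd : IsGM d) {a x x' t : A}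
    (h : d a x = d a t + d t x) (h' : d t x' = d t x) : d a x' ≤ d a x := by
  have := hd.tri a t x'
  omega

end TR

theorem TR (h1 : Stmt_PSA) (h2 : Stmt_IP) : Stmt_TR := by
  intro G A G' A' _ _ _ _ d ap c T0 L d' π q hR hQ a b a' b' ha hb ha' hb' hang g'
  have hd : IsGM d := hR.gm
  have hI : Isom G d := hR.isom
  have hps := h1 A d ap c T0 hR.toIsPS
  have hT0 := hR.one_le
  have hbig := hR.big
  have hker : ∀ k ∈ KK G ap, π k = 1 := fun k hk => (hQ.ker k).2 hk
  have hnot : ∀ x : A, x ∉ ap → ∀ s ∈ ap, x ≠ s := by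
    intro x hx s hs h
    rw [h] at hx
    exact hx hs
  -- starting lift
  obtain ⟨g0, hg0⟩ := hQ.surjG g'
  obtain ⟨k0, hk0, hk0'⟩ := hQ.ex a (g0 • a')
  have hπg : π (k0 * g0) = g' := by rw [map_mul, hker k0 hk0, one_mul, hg0]
  have hga : d a ((k0 * g0) • a') = d' (q a) (g' • q a') := by
    rw [mul_smul, hk0', hQ.equiv, hg0]
  obtain ⟨k1, hk1, hk1'⟩ := hQ.ex b ((k0 * g0) • b')
  have hmem : (k0 * g0)⁻¹ * k1 * (k0 * g0) ∈ KK G ap := by
    rw [← hQ.ker, map_mul, map_mul, hker k1 hk1, mul_one, ← map_mul, inv_mul_cancel, map_one]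
  have hgb : d b ((k0 * g0) • ((k0 * g0)⁻¹ * k1 * (k0 * g0)) • b') = d' (q b) (g' • q b') := by
    rw [← mul_smul]
    have : (k0 * g0) * ((k0 * g0)⁻¹ * k1 * (k0 * g0)) = k1 * (k0 * g0) := by group
    rw [this, mul_smul, hk1', hQ.equiv, hπg]
  -- the induction
  have key := h2 G A d ap c T0 L hR b' hb' (fun k => ∀ g : G, k ∈ KK G ap → π g = g' →
    d a (g • a') = d' (q a) (g' • q a') → d b (g • k • b') = d' (q b) (g' • q b') →
    ∃ g : G, π g = g' ∧ d a (g • a') = d' (q a) (g' • q a') ∧
      d b (g • b') = d' (q b) (g' • q b')) ?_ ?_ _ hmem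
  · exact key (k0 * g0) hmem hπg hga hgb
  · intro g _ e1 e2 e3
    rw [one_smul] at e3
    exact ⟨g, e1, e2, e3⟩
  · intro s hs r hr k hk hL hP g hk' e1 e2 e3
    have hrK : r ∈ KK G ap := Subgroup.subset_closure ⟨s, hs, hr⟩
    have hrk : r * k ∈ KK G ap := (KK G ap).mul_mem hrK hk
    have hgs : g • s ∈ ap := hR.ap_smul g s hs
    have hr' : r⁻¹ • s = s := by
      rw [inv_smul_eq_iff]
      exact hr.symm
    obtain ⟨-, -, -, hsymm, htri, -, -, -⟩ := hps s hs
    obtain ⟨-, -, -, hsymm', htri', -, -, hcut, -⟩ := hps (g • s) hgs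
    -- angles
    have q1 : ang d c s b' (k • b') ≤ ang d c s b' a' + ang d c s a' (k • b') :=
      htri b' a' (k • b') (hnot a' ha' s hs)
    have q2 := (hang s hs).2
    have q3 : ang d c s b' a' = ang d c s a' b' := hsymm b' a'
    have q4 := TR.ang_smul hR g s hs a' (k • b')
    have q5 : ang d c (g • s) (g • a') (g • k • b') ≤
        ang d c (g • s) (g • a') a + ang d c (g • s) a (g • k • b') :=
      htri' _ a _ (hnot a ha _ hgs)
    have q6 : ang d c (g • s) a (g • k • b') ≤
        ang d c (g • s) a b + ang d c (g • s) b (g • k • b') :=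
      htri' _ b _ (hnot b hb _ hgs)
    have q7 := (hang (g • s) hgs).1
    have q8 : ang d c (g • s) (g • a') a = ang d c (g • s) a (g • a') := hsymm' _ _
    have hor : T0 < ang d c (g • s) a (g • a') ∨ T0 < ang d c (g • s) b (g • k • b') := by
      omega
    rcases hor with hor | hor
    · -- the first side passes through `g • s`: replace `g` by `g * r⁻¹`
      obtain ⟨f1, -, -⟩ := hcut a (g • a') hor
      have f2 : d (g • s) ((g * r⁻¹) • a') = d (g • s) (g • a') := by
        have f3 : g • s = (g * r⁻¹) • s := by rw [mul_smul, hr']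
        calc d (g • s) ((g * r⁻¹) • a') = d ((g * r⁻¹) • s) ((g * r⁻¹) • a') := by rw [← f3]
          _ = d s a' := hI _ _ _
          _ = d (g • s) (g • a') := (hI _ _ _).symm
      have f4 := TR.rotate_le hd f1 f2
      have f5 : π (g * r⁻¹) = g' := by rw [map_mul, map_inv, hker r hrK, inv_one, mul_one, e1]
      have f6 : d' (q a) (g' • q a') ≤ d a ((g * r⁻¹) • a') := by
        have := hQ.le a ((g * r⁻¹) • a')
        rw [hQ.equiv, f5] at this
        exact this
      refine hP (g * r⁻¹) hrk f5 (by omega) ?_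
      rw [← mul_smul]
      have : g * r⁻¹ * (r * k) = g * k := by group
      rw [this, mul_smul]
      exact e3
    · -- the second side passes through `g • s`
      obtain ⟨f1, -, -⟩ := hcut b (g • k • b') hor
      have f2 : d (g • s) (g • (r * k) • b') = d (g • s) (g • k • b') := by
        rw [hI, hI, mul_smul]
        calc d s (r • k • b') = d (r • s) (r • k • b') := by rw [hr]
          _ = d s (k • b') := hI _ _ _
      have f4 := TR.rotate_le hd f1 f2
      have f6 : d' (q b) (g' • q b') ≤ d b (g • (r * k) • b') := by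
        have := hQ.le b (g • (r * k) • b')
        rw [hQ.equiv, hQ.equiv, hker _ hrk, one_smul, e1] at this
        exact this
      exact hP g hrk e1 e2 (by omega)

end Pool.Agent.Olsh
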