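import Pool.Agent.Olsh.StmtsP
import Pool.Agent.Olsh.TR
import Pool.Agent.Olsh.DICH
import Pool.Agent.Olsh.QGM
import Pool.Agent.Olsh.ANGX

/-!
# MP_3cdb71_al, module OLP_LT: Lemma T (6.5 of `H92.md`)
-/

set_option autoImplicit false

open Filter Topology

namespace Pool.Agent.Olsh

namespace LT

/-- Two points of a geodesic (or of two geodesics with the same end points). -/
theorem two_on {V : Type} {d : V → V → ℕ} {δ : ℕ} (hd : IsGM d) (hh : Hyp d δ) {x y p p' : V}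
    (hp : Bt d x p y) (hp' : Bt d x p' y) {c : ℕ} (h1 : d x p ≤ d x p' + c)
    (h2 : d x p' ≤ d x p + c) : d p p' ≤ c + 2 * δ := by
  have h3 := hh.dist_bt (w := p') hp hd
  have c1 := hd.comm p p'
  have c2 := hd.comm p' x
  unfold Bt at *
  omega

/-- The shift along a geodesic whose end points are moved little. -/
theorem shift {G V : Type} [Group G] [MulAction G V] {d : V → V → ℕ} {δ : ℕ}
    (hG : IsomAct G d) (hh : Hyp d δ) (hd : IsGM d) {g : G} {o z2 z3 : V} {a b : ℕ}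
    (ho : d o (g • o) ≤ a) (h2 : d z2 (g • z2) ≤ b) (hz : Bt d o z3 z2)
    (h3 : 2 * a + 20 * δ < d o z3) (h4 : b + 8 * δ < d z3 z2) :
    2 * d z3 (g • z3) ≤ d z3 (g ^ 2 • z3) + 64 * δ := by
  have key : ∀ p : V, Bt d o p z2 → a + δ < d o p →
      d o (g • p) + d o z2 ≤ d (g⁻¹ • o) z2 + d o p + 2 * δ ∧
      d (g⁻¹ • o) z2 + d o p ≤ d o (g • p) + d o z2 := by
    intro p hp hpa
    have e1 : d (g⁻¹ • o) p = d o (g • p) := hG.inv g o p
    have e2 := hh.dist_bt (w := g⁻¹ • o) hp hd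
    have e3 : d (g⁻¹ • o) o ≤ a := by
      rw [hG.inv]
      exact ho
    have e4 := hd.tri o (g⁻¹ • o) p
    have e5 := hd.comm o (g⁻¹ • o)
    have e6 := hd.tri (g⁻¹ • o) p z2
    unfold Bt at *
    omega
  have b1 : Bt d (g • o) (g • z3) (g • z2) := by
    unfold Bt at *
    rw [hG, hG, hG]
    exact hz
  have c1 := hd.comm (g • o) o
  have c2 := hd.comm (g • z2) z2
  have e1 := hG g o z3
  have e2 := hG g z3 z2
  obtain ⟨z', hz', hzz, ht1, ht2⟩ := hh.quad hd (x := g • o) (y := g • z2) (x' := o) (y' := z2)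
    (a := a) (b := b) (by omega) (by omega) b1 (by omega) (by omega)
  have k1 := key z3 hz (by omega)
  have k2 := key z' hz' (by omega)
  have e3 : g ^ 2 • z3 = g • g • z3 := by rw [pow_two, mul_smul]
  have e4 : d (g ^ 2 • z3) (g • z') = d (g • z3) z' := by rw [e3, hG]
  have t1 := hd.tri o (g • z3) z'
  have t2 := hd.tri o z' (g • z3)
  have c3 := hd.comm (g • z3) z'
  have t3 := hd.tri o (g ^ 2 • z3) (g • z')
  have t4 := hd.tri o (g • z') (g ^ 2 • z3)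
  have c4 := hd.comm (g ^ 2 • z3) (g • z')
  have t5 := hd.tri o z3 (g ^ 2 • z3)
  have t6 := hd.tri o (g ^ 2 • z3) z3
  have c5 := hd.comm (g ^ 2 • z3) z3
  have t7 := hd.tri z3 z' (g • z3)
  rcases Nat.le_total (d o z3) (d o z') with hle | hle
  · have k3 := two_on hd hh hz hz' (c := d o z' - d o z3) (by omega) (by omega)
    omega
  · have k3 := two_on hd hh hz hz' (c := d o z3 - d o z') (by omega) (by omega)
    omega

/-- A point whose orbit does not turn has displacement about the stable length. -/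
theorem disp_slen {G V : Type} [Group G] [MulAction G V] {d : V → V → ℕ} {δ : ℕ}
    (hG : IsomAct G d) (hh : Hyp d δ) (hd : IsGM d) {g : G} {z : V}
    (h : 2 * d z (g • z) ≤ d z (g ^ 2 • z) + 64 * δ) :
    (d z (g • z) : ℝ) ≤ slen d g + (66 * δ + 1) := by
  by_cases hL : 66 * δ + 1 ≤ d z (g • z)
  · have hch : ∀ n, IsChain d n (32 * δ) (d z (g • z)) (fun i => g ^ i • z) := by
      intro n
      constructor
      · intro i h1 _
        obtain ⟨j, rfl⟩ : ∃ j, i = j + 1 := ⟨i - 1, by omega⟩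
        have e1 := hG.dist_pow_pow g z j 1
        have e2 := hG.dist_pow_pow g z (j + 1) 1
        have e3 := hG.dist_pow_pow g z j 2
        rw [pow_one] at e1 e2
        have k3 : j + 1 - 1 = j := by omega
        have k4 : j + 2 = j + 1 + 1 := by omega
        rw [k4] at e3
        unfold GpLe
        show d (g ^ (j + 1 - 1) • z) (g ^ (j + 1) • z) +
          d (g ^ (j + 1) • z) (g ^ (j + 1 + 1) • z) ≤
          d (g ^ (j + 1 - 1) • z) (g ^ (j + 1 + 1) • z) + 2 * (32 * δ)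
        rw [k3]
        omega
      · intro i _ _
        show d z (g • z) ≤ d (g ^ i • z) (g ^ (i + 1) • z)
        have := hG.dist_pow_pow g z i 1
        rw [pow_one] at this
        rw [this]
    have key : ∀ n : ℕ, 1 ≤ n → n * d z (g • z) ≤ d z (g ^ n • z) + (n - 1) * (66 * δ) := by
      intro n hn
      have h1 := (hch n).dist_ge hh hd (by omega) hn
      have h2 : ∀ i, d (g ^ i • z) (g ^ (i + 1) • z) = d z (g • z) := by
        intro i
        have := hG.dist_pow_pow g z i 1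
        rw [pow_one] at this
        exact this
      simp only [h2, Finset.sum_const, Finset.card_range, smul_eq_mul, pow_zero,
        one_smul] at h1
      have e : (n - 1) * (2 * (32 * δ + δ)) = (n - 1) * (66 * δ) := by ring
      omega
    have h1 := hG.tendsto_slen hd g z
    have h2 : (d z (g • z) : ℝ) - 66 * δ ≤ slen d g := by
      apply le_of_tendsto_of_tendsto tendsto_const_nhds h1
      filter_upwards [eventually_ge_atTop 1] with n hn
      have h3 := key n hn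
      have h4 : (0 : ℝ) < n := by exact_mod_cast hn
      rw [le_div_iff₀ h4]
      have h5 : (n : ℝ) * d z (g • z) ≤ d z (g ^ n • z) + ((n - 1 : ℕ) : ℝ) * (66 * δ) := by
        exact_mod_cast h3
      have h6 : ((n - 1 : ℕ) : ℝ) ≤ n := by
        exact_mod_cast Nat.sub_le n 1
      have h7 : ((n - 1 : ℕ) : ℝ) * (66 * δ) ≤ n * (66 * δ) :=
        mul_le_mul_of_nonneg_right h6 (by positivity)
      nlinarith
    linarith
  · push Not at hL
    have h1 := IsomAct.slen_nonneg (d := d) g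
    have h2 : (d z (g • z) : ℝ) ≤ 66 * δ + 1 := by exact_mod_cast hL.le
    linarith

/-- Points of a geodesic fellow travelling with its image are moved little. -/
theorem fellow2 {G V : Type} [Group G] [MulAction G V] {d : V → V → ℕ} {δ : ℕ}
    (hG : IsomAct G d) (hh : Hyp d δ) (hd : IsGM d) {y : G} {o v w : V} {a : ℕ}
    (h0 : d o (y • o) ≤ a) (hw : Bt d o w v)
    (hr : 2 * d o w + d v (y • v) ≤ d o v + d o (y • v)) : d w (y • w) ≤ a + 6 * δ := by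
  have t0 := hd.tri o v (y • v)
  obtain ⟨w', hw', hd'⟩ := hd.exists_bt o (y • v) (d o w) (by
    have := hd.tri o (y • v) v
    have := hd.comm v (y • v)
    omega)
  have k1 := hh.fellow hd hw hw' hd'.symm hr
  have k2 := hh.dist_bt (w := y • w) hw' hd
  have e1 : d (y • o) (y • w) = d o w := hG y o w
  have e2 : d (y • w) (y • v) = d w v := hG y w v
  have e3 : d (y • o) (y • v) = d o v := hG y o v
  have t1 := hd.tri (y • w) (y • o) o
  have t2 := hd.tri (y • o) o (y • v)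
  have c1 := hd.comm (y • w) (y • o)
  have c2 := hd.comm (y • o) o
  have t3 := hd.tri w w' (y • w)
  have c3 := hd.comm w' (y • w)
  unfold Bt at *
  omega

/-- The angles of an initial segment. -/
theorem ang_sub {X S : Type} {d : X → X → ℕ} {u : ℕ} {Y : S → Set X} {η η1 C : ℕ}
    (hPSA : Stmt_PSA) (h : ConeP d u Y η η1 C) (Cp : ℕ)
    (hp : ∀ (s : S) (v v' y y' : X), IsPr d (Y s) v y → IsPr d (Y s) v' y' →
      (Cp < d y y' → (∃ z, Bt d v z v' ∧ d y z ≤ Cp) ∧ ∃ z, Bt d v z v' ∧ d y' z ≤ Cp) ∧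
      ∀ z w z₂ w₂, Bt d v z v' → Bt d v z₂ v' → w ∈ Y s → w₂ ∈ Y s →
        d z z₂ ≤ d y y' + d z w + d z₂ w₂ + Cp)
    (s : S) {o p z : X} (hz : Bt d o z p) :
    ang (cd d u Y) (cdX d) (Sum.inr s) (Sum.inl o) (Sum.inl z) ≤
      ang (cd d u Y) (cdX d) (Sum.inr s) (Sum.inl o) (Sum.inl p) + (4 * C + 5 * Cp) * u := by
  have hgm := h.gm
  have hu := h.one_le
  obtain ⟨hne, hle, hex, -⟩ := hPSA (X ⊕ S) (cd d u Y) (apx X S) (cdX d) (C * u) h.ps
    (Sum.inr s) ⟨s, rfl⟩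
  have hinl : ∀ v : X, (Sum.inl v : X ⊕ S) ≠ Sum.inr s := by
    intro v hv
    exact absurd hv (by simp)
  obtain ⟨po, hpo⟩ := ANGX.exists_pr d (Y s) (h.ne s) o
  obtain ⟨pz, hpz⟩ := ANGX.exists_pr d (Y s) (h.ne s) z
  obtain ⟨pp, hpp⟩ := ANGX.exists_pr d (Y s) (h.ne s) p
  -- the projections
  have k1 : d po pz ≤ d po pp + 5 * Cp := by
    by_cases hbig : Cp < d po pz
    · obtain ⟨⟨a, ha, ha'⟩, ⟨b, hb, hb'⟩⟩ := (hp s o z po pz hpo hpz).1 hbig
      have ha2 : Bt d o a p := hgm.bt_trans hz ha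
      have hb2 : Bt d o b p := hgm.bt_trans hz hb
      have k := (hp s o p po pp hpo hpp).2 a po b pz ha2 hb2 hpo.1 hpz.1
      have t1 := hgm.tri po a b
      have t2 := hgm.tri po b pz
      have c1 := hgm.comm po a
      have c2 := hgm.comm pz b
      omega
    · omega
  -- the angle of the initial segment
  obtain ⟨y, hy, y', hy', hyy⟩ := hex (Sum.inl o) (Sum.inl z) (hinl o) (hinl z)
  obtain ⟨y0, rfl⟩ := DICH.inl_of_nb h.ps s y hy.1
  obtain ⟨y0', rfl⟩ := DICH.inl_of_nb h.ps s y' hy'.1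
  have e1 := h.near s (Sum.inl o) o y0 po rfl hpo hy
  have e2 := h.near s (Sum.inl z) z y0' pz rfl hpz hy'
  have k2 : d y0 y0' = ang (cd d u Y) (cdX d) (Sum.inr s) (Sum.inl o) (Sum.inl z) := hyy
  -- the angle of the whole segment
  obtain ⟨x, hx⟩ := hne (Sum.inl o) (hinl o)
  obtain ⟨x', hx'⟩ := hne (Sum.inl p) (hinl p)
  obtain ⟨x0, rfl⟩ := DICH.inl_of_nb h.ps s x hx.1
  obtain ⟨x0', rfl⟩ := DICH.inl_of_nb h.ps s x' hx'.1
  have e3 := h.near s (Sum.inl o) o x0 po rfl hpo hx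
  have e4 := h.near s (Sum.inl p) p x0' pp rfl hpp hx'
  have k3 : d x0 x0' ≤ ang (cd d u Y) (cdX d) (Sum.inr s) (Sum.inl o) (Sum.inl p) :=
    hle _ _ _ _ hx hx'
  have t1 := hgm.tri y0 po y0'
  have t2 := hgm.tri po pz y0'
  have c1 := hgm.comm pz y0'
  have t3 := hgm.tri po x0 pp
  have t4 := hgm.tri x0 x0' pp
  have c2 := hgm.comm po x0
  have e : (4 * C + 5 * Cp) * u = 4 * (C * u) + 5 * (Cp * u) := by ring
  have e' : Cp ≤ Cp * u := Nat.le_mul_of_pos_right _ hu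
  omega

/-- A power acts on the quotient as the power of the image. -/
theorem q_pow {G G' A A' : Type} [Group G] [MulAction G A] [Group G'] [MulAction G' A']
    {K : Subgroup G} {d : A → A → ℕ} {d' : A' → A' → ℕ} {π : G →* G'} {q : A → A'}
    (H : IsQuot K d d' π q) (g : G) (m : ℕ) (a : A) : q (g ^ m • a) = (π g) ^ m • q a := by
  rw [H.equiv, map_pow]

/-- The fine part of Lemma T: a point of the geodesic from `o` to `p` which is moved little and is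
closer to `p`. -/
theorem fine {G G' X S A' : Type} [Group G] [MulAction G X] [MulAction G S] [Group G']
    [MulAction G' A'] {d : X → X → ℕ} {u L : ℕ} {Y : S → Set X} {η η1 C : ℕ}
    {d' : A' → A' → ℕ} {π : G →* G'} {q : X ⊕ S → A'} {a0 L0 : ℕ} {CP : ℕ → ℕ} {M0 U : ℕ}
    (H : LQ G G' d u L Y η η1 C d' π q a0 L0 CP M0 U) (hgm' : IsGM d')
    (hTR : Stmt_TR) (hCONEA : Stmt_CONEA) (hLEN : Stmt_LEN) (hPSA : Stmt_PSA)
    (hCGM : Stmt_CONEGM) (C' Cp E m a B1 Λ : ℕ)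
    (hLAM : ∀ (a B lam : ℕ) (p q p' q' : X), lam = (a + 1) * (B + C' * (u + a)) →
      (∀ s : S, ang (cd d u Y) (cdX d) (Sum.inr s) (Sum.inl p) (Sum.inl q) ≤ B) →
      (∀ s : S, ang (cd d u Y) (cdX d) (Sum.inr s) (Sum.inl p') (Sum.inl q') ≤ B) →
      cd d u Y (Sum.inl p) (Sum.inl p') ≤ a → cd d u Y (Sum.inl q) (Sum.inl q') ≤ a →
      ∀ v, Bt d p v q → lam < d p v → lam < d v q →
        ∃ v', Bt d p' v' q' ∧ d v v' ≤ C' ∧ d p v ≤ d p' v' + 2 * lam ∧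
          d p' v' ≤ d p v + 2 * lam)
    (hFINE : ∀ (v : X), ∀ g ∈ KK G (apx X S), g ≠ 1 → L ≤ 2 * d v (g • v))
    (hp : ∀ (s : S) (v v' y y' : X), IsPr d (Y s) v y → IsPr d (Y s) v' y' →
      (Cp < d y y' → (∃ z, Bt d v z v' ∧ d y z ≤ Cp) ∧ ∃ z, Bt d v z v' ∧ d y' z ≤ Cp) ∧
      ∀ z w z₂ w₂, Bt d v z v' → Bt d v z₂ v' → w ∈ Y s → w₂ ∈ Y s →
        d z z₂ ≤ d y y' + d z w + d z₂ w₂ + Cp)
    (hm1 : 1 ≤ m) (hmM : m ≤ M0)
    (hΛ1 : (a + 1) * (B1 + 2 * C') ≤ Λ) (hΛ2 : m * (E + 1) + (E + 1) ≤ Λ)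
    (hΛ3 : (B1 + 4 * C + 5 * Cp + 1) * (kl + 3) ≤ Λ)
    (hu1 : a ≤ u) (hu2 : C' + 100 * dl + 100 ≤ u) (hu3 : CP m ≤ u)
    (hL1 : 10 * (B1 * u) ≤ L) (hL2 : 15 * (Λ * u) ≤ L)
    (g : G) (o p : X) (hg : π g ≠ 1) (hs : slen d g ≤ E * u) (ho : d o (g • o) ≤ (E + 1) * u)
    (hop : cd d u Y (Sum.inl o) (Sum.inl p) = d' (q (Sum.inl o)) (q (Sum.inl p)))
    (hang : ∀ s : S, ang (cd d u Y) (cdX d) (Sum.inr s) (Sum.inl o) (Sum.inl p) ≤ B1 * u)
    (hfar : 60 * Λ < cd d u Y (Sum.inl o) (Sum.inl p))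
    (hao : d' (q (Sum.inl o)) ((π g) ^ m • q (Sum.inl o)) ≤ a)
    (hap : d' (q (Sum.inl p)) ((π g) ^ m • q (Sum.inl p)) ≤ a) :
    ∃ z : X, d z (g • z) ≤ (E + 1) * u ∧
      d' (q (Sum.inl z)) (q (Sum.inl p)) < d' (q (Sum.inl o)) (q (Sum.inl p)) := by
  have hd : IsGM d := H.gm
  have hh : Hyp d dl := H.hyp
  have hI : IsomAct G d := H.isom
  have hcd : IsGM (cd d u Y) := H.conep.ps.gm
  obtain ⟨-, -, hc3⟩ := hCGM X S d u Y H.gm H.conep.one_le H.ne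
  have hinl : ∀ v : X, (Sum.inl v : X ⊕ S) ∉ apx X S := by
    rintro v ⟨s, hs⟩
    exact absurd hs (by simp)
  obtain ⟨l, hl⟩ : ∃ l, l = Λ * u := ⟨_, rfl⟩
  rw [← hl] at hL2
  have hΛpos : 1 ≤ Λ := by omega
  have hul : u ≤ l := by
    rw [hl]
    exact Nat.le_mul_of_pos_left u hΛpos
  have hlam : (a + 1) * (B1 * u + C' * (u + a)) ≤ l := by
    have k1 : (a + 1) * (B1 * u + C' * (u + a)) ≤ (a + 1) * (B1 * u + C' * (u + u)) := by
      gcongr
    have k2 : (a + 1) * (B1 * u + C' * (u + u)) = (a + 1) * (B1 + 2 * C') * u := by ring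
    have k3 : (a + 1) * (B1 + 2 * C') * u ≤ Λ * u := Nat.mul_le_mul_right _ hΛ1
    omega
  have hE : (E + 1) * u ≤ l := by
    rw [hl]
    exact Nat.mul_le_mul_right _ (by omega)
  have hmE : m * ((E + 1) * u) ≤ l := by
    rw [hl, ← Nat.mul_assoc]
    exact Nat.mul_le_mul_right _ (by omega)
  -- the lift of the power
  obtain ⟨h, hπ, h1, h2⟩ := hTR G (X ⊕ S) G' A' (cd d u Y) (apx X S) (cdX d) (C * u) L d' π q
    H.rotc H.quot (Sum.inl o) (Sum.inl p) (Sum.inl o) (Sum.inl p) (hinl o) (hinl p) (hinl o)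
    (hinl p) (by
      rintro s ⟨t, rfl⟩
      have := hang t
      omega) ((π g) ^ m)
  rw [Sum.smul_inl] at h1 h2
  have hang2 : ∀ s : S,
      ang (cd d u Y) (cdX d) (Sum.inr s) (Sum.inl (h • o)) (Sum.inl (h • p)) ≤ B1 * u := by
    intro s
    have e := TR.ang_smul H.rotc h (Sum.inr (h⁻¹ • s)) ⟨_, rfl⟩ (Sum.inl o) (Sum.inl p)
    rw [Sum.smul_inr, Sum.smul_inl, Sum.smul_inl, smul_inv_smul] at e
    rw [e]
    exact hang _
  have step6 : ∀ z, Bt d o z p → l < d o z → l < d z p → d z (h • z) ≤ 3 * l := by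
    intro z hz hz1 hz2
    obtain ⟨z', hz', e1, e2, e3⟩ := hLAM a (B1 * u) _ o p (h • o) (h • p) rfl hang hang2
      (by rw [h1]; exact hao) (by rw [h2]; exact hap) z hz (by omega) (by omega)
    have hhz : Bt d (h • o) (h • z) (h • p) := by
      unfold Bt at *
      rw [hI, hI, hI]
      exact hz
    have k1 := two_on hd hh hz' hhz (c := 2 * l) (by rw [hI]; omega) (by rw [hI]; omega)
    have := hd.tri z z' (h • z)
    omega
  have hfar2 : 60 * l < d o p := by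
    by_contra hcon
    push Not at hcon
    have := hc3 (60 * Λ) o p (by rw [Nat.mul_assoc, ← hl]; exact hcon)
    omega
  -- the lift is the power of `g`
  obtain ⟨z1, hz1, hz1'⟩ := hd.exists_bt o p (l + 1) (by omega)
  have k1 := step6 z1 hz1 (by omega) (by unfold Bt at hz1; omega)
  have k2 : d o (h • o) ≤ 6 * l := by
    have t1 := hd.tri o z1 (h • o)
    have t2 := hd.tri z1 (h • z1) (h • o)
    have t3 := hI h z1 o
    have c1 := hd.comm z1 o
    omega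
  have k3 : d o (g ^ m • o) ≤ l := by
    have e1 := hI.pow_le hd g o m
    have e2 : m * d o (g • o) ≤ m * ((E + 1) * u) := Nat.mul_le_mul_left _ ho
    omega
  have hk : h⁻¹ * g ^ m ∈ KK G (apx X S) := by
    rw [← H.quot.ker, map_mul, map_inv, map_pow, hπ, inv_mul_cancel]
  have heq : h⁻¹ * g ^ m = 1 := by
    by_contra hne
    have k4 := hFINE o _ hk hne
    have k5 : d o ((h⁻¹ * g ^ m) • o) = d (h • o) (g ^ m • o) := by
      rw [← hI h o, smul_smul, mul_inv_cancel_left]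
    have t1 := hd.tri (h • o) o (g ^ m • o)
    have c1 := hd.comm (h • o) o
    omega
  have heq2 : h = g ^ m := by rwa [inv_mul_eq_one] at heq
  -- the points `z2` and `z3`
  obtain ⟨z2, hz2, hz2'⟩ := hd.exists_bt o p (40 * l) (by omega)
  have k6 := step6 z2 hz2 (by omega) (by unfold Bt at hz2; omega)
  rw [heq2] at k6
  have hg1 : g ≠ 1 := by
    rintro rfl
    exact hg (map_one π)
  have k7 := H.lev.pm m hm1 hmM g z2 hg1
  obtain ⟨z3, hz3, hz3'⟩ := hd.exists_bt o z2 (20 * l) (by omega)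
  have k8 := shift hI hh hd (g := g) (o := o) (z2 := z2) (z3 := z3) (a := l) (b := 4 * l)
    (by omega) (by omega) hz3 (by omega) (by unfold Bt at hz3; omega)
  have k9 := disp_slen hI hh hd k8
  have k10 : d z3 (g • z3) ≤ (E + 1) * u := by
    have e1 : ((66 * dl + 1 : ℕ) : ℝ) ≤ (u : ℝ) := by
      exact_mod_cast (by omega : 66 * dl + 1 ≤ u)
    push_cast at e1
    have e2 : (d z3 (g • z3) : ℝ) ≤ (((E + 1) * u : ℕ) : ℝ) := by
      push_cast
      nlinarith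
    exact_mod_cast e2
  have hz3p : Bt d o z3 p := hd.bt_trans hz2 hz3
  have hang3 : ∀ s : S, ang (cd d u Y) (cdX d) (Sum.inr s) (Sum.inl o) (Sum.inl z3) ≤
      (B1 + 4 * C + 5 * Cp) * u := by
    intro s
    have e1 := ang_sub hPSA H.conep Cp hp s hz3p
    have e2 := hang s
    have e3 : (B1 + 4 * C + 5 * Cp) * u = B1 * u + (4 * C + 5 * Cp) * u := by ring
    omega
  have k11 := hLEN η η1 C X S d u Y H.conep _ o z3 hang3
  have k12 : 20 * Λ ≤ cd d u Y (Sum.inl o) (Sum.inl z3) * (B1 + 4 * C + 5 * Cp + 1) := by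
    have e1 : 20 * Λ * u ≤
        (cd d u Y (Sum.inl o) (Sum.inl z3) * (B1 + 4 * C + 5 * Cp + 1)) * u := by
      calc 20 * Λ * u = 20 * l := by rw [hl]; ring
        _ = d o z3 := hz3'.symm
        _ ≤ _ := k11
        _ = _ := by ring
    exact Nat.le_of_mul_le_mul_right e1 (by omega)
  have k13 : 20 * (kl + 3) ≤ cd d u Y (Sum.inl o) (Sum.inl z3) := by
    have e1 : (B1 + 4 * C + 5 * Cp + 1) * (20 * (kl + 3)) ≤
        (B1 + 4 * C + 5 * Cp + 1) * cd d u Y (Sum.inl o) (Sum.inl z3) := by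
      calc (B1 + 4 * C + 5 * Cp + 1) * (20 * (kl + 3))
          = 20 * ((B1 + 4 * C + 5 * Cp + 1) * (kl + 3)) := by ring
        _ ≤ 20 * Λ := Nat.mul_le_mul_left _ hΛ3
        _ ≤ _ := k12
        _ = _ := by ring
    exact Nat.le_of_mul_le_mul_left e1 (by omega)
  -- the cone-off geodesic
  obtain ⟨-, hA⟩ := hCONEA X S d u η Y H.gm H.hyp H.ne H.qc H.conep.one_le H.conep.dl_le
    H.conep.eta_le
  obtain ⟨r, hr0, hrn, hr⟩ := hcd.exists_geo (Sum.inl o) (Sum.inl p)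
  obtain ⟨i, hi, hi'⟩ := (hA (Sum.inl o) (Sum.inl p) o p rfl rfl).1 z3 hz3p _ r hr hr0 hrn
  have e1 := hr 0 i (Nat.zero_le _) hi
  rw [hr0] at e1
  have e2 := hr i _ hi le_rfl
  rw [hrn] at e2
  have t1 := hcd.tri (Sum.inl o) (r i) (Sum.inl z3)
  have c1 := hcd.comm (r i) (Sum.inl z3)
  have t2 := hgm'.tri (q (Sum.inl z3)) (q (r i)) (q (Sum.inl p))
  have q1 := H.quot.le (Sum.inl z3) (r i)
  have q2 := H.quot.le (r i) (Sum.inl p)
  exact ⟨z3, k10, by omega⟩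

/-- Lemma T at a fixed exponent. -/
theorem main {G G' X S A' : Type} [Group G] [MulAction G X] [MulAction G S] [Group G']
    [MulAction G' A'] {d : X → X → ℕ} {u L : ℕ} {Y : S → Set X} {η η1 C : ℕ}
    {d' : A' → A' → ℕ} {π : G →* G'} {q : X ⊕ S → A'} {a0 L0 : ℕ} {CP : ℕ → ℕ} {M0 U : ℕ}
    (H : LQ G G' d u L Y η η1 C d' π q a0 L0 CP M0 U)
    (hTR : Stmt_TR) (hCONEA : Stmt_CONEA) (hLEN : Stmt_LEN) (hPSA : Stmt_PSA)
    (hCGM : Stmt_CONEGM) (hQGM : Stmt_QGM) (hQHYP : Stmt_QHYP) (hQPS : Stmt_QPS)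
    (Bm C8 C' Cp E m a Λ : ℕ)
    (hLTB : ∀ (g : G) (o : X) (p w : A'), π g ≠ 1 → d o (g • o) ≤ (E + 1) * u →
      Bt d' (q (Sum.inl o)) p w → d' w ((π g) ^ m • w) < d' p w →
      ∀ s ∈ q '' apx X S, angQ d u Y d' q s (q (Sum.inl o)) p ≤ Bm * u)
    (hDICH : ∀ (M : ℕ) (v w : A'), v ∉ q '' apx X S → w ∉ q '' apx X S →
      (∃ s ∈ q '' apx X S, M < ang d' (cq (cd d u Y) (cdX d) q) s v w) ∨
      ∃ v₁ w₁ : X, q (Sum.inl v₁) = v ∧ q (Sum.inl w₁) = w ∧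
        cd d u Y (Sum.inl v₁) (Sum.inl w₁) = d' v w ∧
        ∀ s : S, ang (cd d u Y) (cdX d) (Sum.inr s) (Sum.inl v₁) (Sum.inl w₁) ≤ M + C8 * u)
    (hLAM : ∀ (a B lam : ℕ) (p q p' q' : X), lam = (a + 1) * (B + C' * (u + a)) →
      (∀ s : S, ang (cd d u Y) (cdX d) (Sum.inr s) (Sum.inl p) (Sum.inl q) ≤ B) →
      (∀ s : S, ang (cd d u Y) (cdX d) (Sum.inr s) (Sum.inl p') (Sum.inl q') ≤ B) →
      cd d u Y (Sum.inl p) (Sum.inl p') ≤ a → cd d u Y (Sum.inl q) (Sum.inl q') ≤ a →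
      ∀ v, Bt d p v q → lam < d p v → lam < d v q →
        ∃ v', Bt d p' v' q' ∧ d v v' ≤ C' ∧ d p v ≤ d p' v' + 2 * lam ∧
          d p' v' ≤ d p v + 2 * lam)
    (hFINE : ∀ (v : X), ∀ g ∈ KK G (apx X S), g ≠ 1 → L ≤ 2 * d v (g • v))
    (hp : ∀ (s : S) (v v' y y' : X), IsPr d (Y s) v y → IsPr d (Y s) v' y' →
      (Cp < d y y' → (∃ z, Bt d v z v' ∧ d y z ≤ Cp) ∧ ∃ z, Bt d v z v' ∧ d y' z ≤ Cp) ∧
      ∀ z w z₂ w₂, Bt d v z v' → Bt d v z₂ v' → w ∈ Y s → w₂ ∈ Y s →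
        d z z₂ ≤ d y y' + d z w + d z₂ w₂ + Cp)
    (hm1 : 1 ≤ m) (hmM : m ≤ M0) (ha : m * (E + 1) + 6 * dl ≤ a)
    (hΛ1 : (a + 1) * ((Bm + C8) + 2 * C') ≤ Λ) (hΛ2 : m * (E + 1) + (E + 1) ≤ Λ)
    (hΛ3 : ((Bm + C8) + 4 * C + 5 * Cp + 1) * (kl + 3) ≤ Λ)
    (hu1 : a ≤ u) (hu2 : C' + 100 * dl + 100 ≤ u) (hu3 : CP m ≤ u)
    (hL1 : 10 * ((Bm + C8) * u) ≤ L) (hL2 : 15 * (Λ * u) ≤ L)
    (x : G') (hx : x ≠ 1) (v o : A') (ho : o ∈ AT d u π q E x)
    (hmin : ∀ o' ∈ AT d u π q E x, d' v o ≤ d' v o') :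
    d' v o + d' o (x ^ m • v) ≤ d' v (x ^ m • v) + 2 * (60 * Λ + a + 3) := by
  have hd : IsGM d := H.gm
  have hh : Hyp d dl := H.hyp
  have hI : IsomAct G d := H.isom
  have hcd : IsGM (cd d u Y) := H.conep.ps.gm
  obtain ⟨-, -, hc3⟩ := hCGM X S d u Y H.gm H.conep.one_le H.ne
  obtain ⟨hgm', hI'⟩ := hQGM G (X ⊕ S) G' A' (cd d u Y) (KK G (apx X S)) d' π q
    H.rotc.gm H.rotc.isom H.quot
  have hh' : Hyp d' dl := hQHYP G (X ⊕ S) G' A' (cd d u Y) (apx X S) (cdX d) (C * u) L dl d' π q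
    H.rotc H.quot H.conep.hypc
  obtain ⟨hps', -, -, -, hback, -⟩ := hQPS G (X ⊕ S) G' A' (cd d u Y) (apx X S) (cdX d)
    (C * u) L d' π q H.rotc H.quot
  have hinl : ∀ v : X, (Sum.inl v : X ⊕ S) ∉ apx X S := by
    rintro v ⟨s, hs⟩
    exact absurd hs (by simp)
  obtain ⟨g, o, rfl, rfl, hs, hd0⟩ := ho
  by_contra hcon
  push Not at hcon
  have c0 := hgm'.comm v (q (Sum.inl o))
  have e0 : d' (q (Sum.inl o)) ((π g) ^ m • q (Sum.inl o)) ≤ m * (E + 1) := by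
    have e1 := hI.pow_le hd g o m
    have e2 : m * d o (g • o) ≤ m * ((E + 1) * u) := Nat.mul_le_mul_left _ hd0
    have e3 := hc3 (m * (E + 1)) o (g ^ m • o) (by rw [Nat.mul_assoc]; omega)
    have e4 := H.quot.le (Sum.inl o) (Sum.inl (g ^ m • o))
    have e5 := q_pow H.quot g m (Sum.inl o)
    rw [Sum.smul_inl] at e5
    rw [e5] at e4
    omega
  have hfel : ∀ w, Bt d' (q (Sum.inl o)) w v → d' (q (Sum.inl o)) w ≤ 60 * Λ + a + 3 →
      d' w ((π g) ^ m • w) ≤ a := by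
    intro w hw hw'
    have := fellow2 hI' hh' hgm' e0 hw (by omega)
    omega
  have t0 := hgm'.tri (q (Sum.inl o)) v ((π g) ^ m • v)
  obtain ⟨w, hw, hw'⟩ := hgm'.exists_bt (q (Sum.inl o)) v (60 * Λ + a + 3) (by omega)
  have hww := hfel w hw (by omega)
  obtain ⟨p1, hp1, hp1'⟩ := hgm'.exists_bt (q (Sum.inl o)) w (60 * Λ + 2) (by omega)
  obtain ⟨p2, hp2, hp2'⟩ := hgm'.exists_bt (q (Sum.inl o)) p1 (60 * Λ + 1) (by omega)
  have hpex : ∃ p, p ∉ q '' apx X S ∧ Bt d' (q (Sum.inl o)) p w ∧ a < d' p w ∧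
      60 * Λ < d' (q (Sum.inl o)) p := by
    by_cases hap : p1 ∈ q '' apx X S
    · refine ⟨p2, ?_, hgm'.bt_trans hp1 hp2, ?_, by omega⟩
      · intro hap2
        refine hps'.nadj p2 hap2 p1 hap ?_
        unfold Bt at hp2
        omega
      · have hb := hgm'.bt_trans hp1 hp2
        unfold Bt at hb
        omega
    · refine ⟨p1, hap, hp1, ?_, by omega⟩
      unfold Bt at hp1
      omega
  obtain ⟨p, hpap, hpb, hpa, hpf⟩ := hpex
  have hpv : Bt d' (q (Sum.inl o)) p v := hgm'.bt_trans hw hpb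
  have hpd := hfel p hpv (by unfold Bt at hpb; omega)
  have hang := hLTB g o p w hx hd0 hpb (by omega)
  have hoap : q (Sum.inl o) ∉ q '' apx X S := fun hq => hinl o (hback _ hq)
  rcases hDICH (Bm * u) (q (Sum.inl o)) p hoap hpap with ⟨s, hs', hs2⟩ | ⟨v₁, w₁, hv₁, hw₁, hcd1, ha1⟩
  · have := hang s hs'
    unfold angQ at this
    omega
  -- translate
  obtain ⟨k, hk, hk'⟩ := (H.quot.fib (Sum.inl o) (Sum.inl v₁)).1 hv₁.symm
  rw [Sum.smul_inl] at hk'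
  have hk2 : k • o = v₁ := Sum.inl.inj hk'
  have hπk : π k = 1 := (H.quot.ker k).2 hk
  have hπ1 : π (k * g * k⁻¹) = π g := by
    rw [map_mul, map_mul, map_inv, hπk, one_mul, inv_one, mul_one]
  have hs1 : slen d (k * g * k⁻¹) ≤ E * u := by
    rw [hI.slen_conj]
    exact hs
  have hd1 : d v₁ ((k * g * k⁻¹) • v₁) ≤ (E + 1) * u := by
    rw [← hk2, hI.conj]
    exact hd0
  subst hw₁
  have hfar1 : 60 * Λ < cd d u Y (Sum.inl v₁) (Sum.inl w₁) := by omega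
  obtain ⟨z, hz1, hz2⟩ := fine H hgm' hTR hCONEA hLEN hPSA hCGM C' Cp E m a (Bm + C8) Λ hLAM
    hFINE hp hm1 hmM hΛ1 hΛ2 hΛ3 hu1 hu2 hu3 hL1 hL2 (k * g * k⁻¹) v₁ w₁ (by rw [hπ1]; exact hx)
    hs1 hd1 (by rw [hcd1, hv₁]) (by
      intro s
      have e1 := ha1 s
      have e2 : (Bm + C8) * u = Bm * u + C8 * u := by ring
      omega) hfar1 (by rw [hπ1, hv₁]; omega) (by rw [hπ1]; exact hpd)
  have hzA : q (Sum.inl z) ∈ AT d u π q E (π g) := ⟨k * g * k⁻¹, z, hπ1, rfl, hs1, hz1⟩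
  have hz3 := hmin _ hzA
  rw [hv₁] at hz2
  have t1 := hgm'.tri v (q (Sum.inl w₁)) (q (Sum.inl z))
  have c1 := hgm'.comm v (q (Sum.inl w₁))
  have c2 := hgm'.comm (q (Sum.inl w₁)) (q (Sum.inl z))
  unfold Bt at hpv
  omega

/-- The set `A_x` is the set `A_{x⁻¹}`. -/
theorem AT_inv {G G' X S A' : Type} [Group G] [MulAction G X] [Group G'] {d : X → X → ℕ} {u : ℕ}
    {π : G →* G'} {q : X ⊕ S → A'} {E : ℕ} {x : G'} (hI : IsomAct G d) (hd : IsGM d) {v : A'}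
    (h : v ∈ AT d u π q E x) : v ∈ AT d u π q E x⁻¹ := by
  obtain ⟨g, o, rfl, rfl, h1, h2⟩ := h
  refine ⟨g⁻¹, o, map_inv π g, rfl, ?_, ?_⟩
  · rw [hI.slen_inv hd]
    exact h1
  · rw [hd.comm, hI.inv]
    exact h2

/-- The constants. -/
noncomputable def Lam (Bm C8 C' C Cp E m : ℕ) : ℕ :=
  (m * (E + 1) + 6 * dl + 1) * ((Bm + C8) + 2 * C') + (m * (E + 1) + (E + 1)) +
    ((Bm + C8) + 4 * C + 5 * Cp + 1) * (kl + 3)

end LT

/-- Lemma T (6.5 of `H92.md`). -/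
theorem LT (h1 : Stmt_LTB) (h2 : Stmt_DICH) (h3 : Stmt_TR) (h4 : Stmt_LAM) (h5 : Stmt_FINE)
    (h6 : Stmt_CONEA) (h7 : Stmt_LEN) (h8 : Stmt_PROJ) (h9 : Stmt_QGM) (h10 : Stmt_QHYP)
    (h11 : Stmt_CONEGM) (h12 : Stmt_QPS) (h13 : Stmt_PSA) : Stmt_LT := by
  intro η η1 C E hE
  obtain ⟨B, hB⟩ := h1 η η1 C E
  obtain ⟨C8, hC8⟩ := h2 η η1 C
  obtain ⟨C', hC'⟩ := h4 η η1 C
  obtain ⟨CF, hCF⟩ := h5 η η1 C
  obtain ⟨Cp, hCp⟩ := h8 dl η
  refine ⟨fun m => 2 * (60 * LT.Lam (B m) C8 C' C Cp E m + (m * (E + 1) + 6 * dl) + 3), ?_⟩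
  intro a0 L0 CP M0
  obtain ⟨U1, hU1⟩ := hB a0 L0 CP M0
  obtain ⟨Z, hZ⟩ : ∃ Z : ℕ → ℕ, Z = fun m => 10 * (B m + C8) + (m * (E + 1) + 6 * dl) +
    15 * LT.Lam (B m) C8 C' C Cp E m + CP m := ⟨_, rfl⟩
  refine ⟨U1 + C8 + C' + CF + 100 * dl + 100 + ∑ m ∈ Finset.range (M0 + 1), Z m, ?_⟩
  intro G G' X S A' _ _ _ _ _ d u L Y d' π q H m hm1 hmM
  have hZm : Z m ≤ ∑ m ∈ Finset.range (M0 + 1), Z m :=
    Finset.single_le_sum (f := Z) (fun _ _ => Nat.zero_le _) (Finset.mem_range.2 (by omega))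
  have hu := H.hu
  have hL := H.hL
  have H1 : LQ G G' d u L Y η η1 C d' π q a0 L0 CP M0 U1 :=
    { toConeQ := H.toConeQ
      lev := H.lev
      hu := by omega
      hL := le_trans (Nat.mul_le_mul_right _ (by omega)) hL
      heta := H.heta }
  have hLe : ∀ n : ℕ, n ≤ U1 + C8 + C' + CF + 100 * dl + 100 +
      ∑ m ∈ Finset.range (M0 + 1), Z m → n * u ≤ L := fun n hn =>
    le_trans (Nat.mul_le_mul_right _ hn) hL
  have hZe : Z m = 10 * (B m + C8) + (m * (E + 1) + 6 * dl) +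
      15 * LT.Lam (B m) C8 C' C Cp E m + CP m := by rw [hZ]
  have hmain := LT.main H1 h3 h6 h7 h13 h11 h9 h10 h12 (B m) C8 C' Cp E m
    (m * (E + 1) + 6 * dl) (LT.Lam (B m) C8 C' C Cp E m)
    (hU1 G G' X S A' d u L Y d' π q H1 m hm1 hmM)
    (hC8 G G' X S A' d u L Y d' π q H.toConeQ (by omega) (hLe _ (by omega)))
    (hC' X S d u Y H.conep (by omega))
    (hCF G G' X S A' d u L Y d' π q H.toConeQ (by omega) (hLe _ (by omega))).2
    (by
      intro s v v' y y' hy hy'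
      obtain ⟨-, -, -, k4, k5⟩ := hCp X d (Y s) H.gm H.hyp (H.qc s) v v' y y' hy hy'
      exact ⟨k4, k5⟩)
    hm1 hmM le_rfl (by unfold LT.Lam; omega) (by unfold LT.Lam; omega)
    (by unfold LT.Lam; omega) (by omega) (by omega) (by omega)
    (by
      rw [← Nat.mul_assoc]
      exact hLe _ (by omega))
    (by
      rw [← Nat.mul_assoc]
      exact hLe _ (by omega))
  intro x hx v o ho hmin
  refine ⟨hmain x hx v o ho hmin, ?_⟩
  have hI : IsomAct G d := H.isom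
  have k := hmain x⁻¹ (inv_ne_one.2 hx) v o (LT.AT_inv hI H.gm ho) (by
    intro o' ho'
    have h := LT.AT_inv hI H.gm ho'
    rw [inv_inv] at h
    exact hmin o' h)
  rw [inv_pow] at k
  exact k

end Pool.Agent.Olsh
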