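import Pool.Agent.Olsh.StmtsP

/-!
# MP_3cdb71_al, 6.5, first half: the angles seen from a point moved little by `x ^ m`
-/

set_option autoImplicit false

namespace Pool.Agent.Olsh

namespace LTB

section

variable {G A : Type} [Group G] [MulAction G A] {d : A → A → ℕ} {ap : Set A}
  {c : A → A → A → ℕ} {T0 : ℕ}

theorem mem_nb_smul (hi : IsomAct G d) (g : G) (s a y : A) :
    y ∈ Nb d (g • s) (g • a) ↔ g⁻¹ • y ∈ Nb d s a := by
  have h1 : d y (g • s) = d (g⁻¹ • y) s := by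
    have := hi g (g⁻¹ • y) s
    rwa [smul_inv_smul] at this
  have h2 : d (g • a) y = d a (g⁻¹ • y) := by
    have := hi g a (g⁻¹ • y)
    rwa [smul_inv_smul] at this
  show d y (g • s) = 1 ∧ d (g • a) y + 1 = d (g • a) (g • s) ↔
    d (g⁻¹ • y) s = 1 ∧ d a (g⁻¹ • y) + 1 = d a s
  rw [h1, h2, hi]

theorem nb_smul_congr (hi : IsomAct G d) (g : G) {s a b : A} (h : Nb d s a = Nb d s b) :
    Nb d (g • s) (g • a) = Nb d (g • s) (g • b) := by
  ext y
  rw [mem_nb_smul hi, mem_nb_smul hi, h]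

theorem ang_congr_left {s a a' : A} (b : A) (h : Nb d s a = Nb d s a') :
    ang d c s a b = ang d c s a' b := by
  unfold ang
  rw [h]

theorem ang_congr_right {s b b' : A} (a : A) (h : Nb d s b = Nb d s b') :
    ang d c s a b = ang d c s a b' := by
  unfold ang
  rw [h]

theorem ang_smul (hi : IsomAct G d) (hc : ∀ (g : G), ∀ s ∈ ap, ∀ y y', d y s = 1 → d y' s = 1 →
    c (g • s) (g • y) (g • y') = c s y y') (g : G) {s : A} (hs : s ∈ ap) (a b : A) :
    ang d c (g • s) (g • a) (g • b) = ang d c s a b := by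
  unfold ang
  congr 1
  ext n
  constructor
  · rintro ⟨y, hy, y', hy', rfl⟩
    rw [mem_nb_smul hi] at hy hy'
    refine ⟨_, hy, _, hy', ?_⟩
    have := hc g s hs _ _ hy.1 hy'.1
    rwa [smul_inv_smul, smul_inv_smul] at this
  · rintro ⟨y, hy, y', hy', rfl⟩
    refine ⟨g • y, ?_, g • y', ?_, (hc g s hs _ _ hy.1 hy'.1).symm⟩
    · rw [mem_nb_smul hi, inv_smul_smul]
      exact hy
    · rw [mem_nb_smul hi, inv_smul_smul]
      exact hy'

/-- Apexes with large angles are linearly ordered. -/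
theorem order (h1 : Stmt_PSA) (P : IsPS d ap c T0) {o w s t : A} (hs : s ∈ ap) (ht : t ∈ ap)
    (hst : s ≠ t) (h2 : 4 * T0 < ang d c s o w) (h3 : 4 * T0 < ang d c t o w) :
    (Nb d s w = Nb d s t ∧ Nb d t o = Nb d t s) ∨ (Nb d t w = Nb d t s ∧ Nb d s o = Nb d s t) := by
  -- the case where `s` comes first
  have key : ∀ s ∈ ap, ∀ t ∈ ap, s ≠ t → 4 * T0 < ang d c s o w → 4 * T0 < ang d c t o w →
      d o t = d o s + d s t → Nb d s w = Nb d s t ∧ Nb d t o = Nb d t s := by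
    intro s hs t ht hst h2 h3 hb
    obtain ⟨-, -, -, s4, s5, -, -, s8, s9, s10, -⟩ := h1 A d ap c T0 P s hs
    obtain ⟨-, -, -, t4, t5, -, -, t8, t9, t10, -⟩ := h1 A d ap c T0 P t ht
    have hw := (t8 o w (by omega)).1
    constructor
    · refine (s9 t ht hst.symm w ?_).1
      have e1 := t5 o s w hst
      have e2 := t10 o s hb.symm hst
      rw [t4 w s]
      omega
    · refine (t9 s hs hst o ?_).1
      have e1 := s5 o t w hst.symm
      have e2 : ang d c s w t ≤ T0 := by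
        refine s10 w t ?_ hst.symm
        have e3 := P.gm.comm w t
        have e4 := P.gm.comm w s
        have e5 := P.gm.comm t s
        have e6 := P.gm.tri o s w
        have e7 := P.gm.tri s t w
        show d w t + d t s = d w s
        omega
      rw [s4 t w] at e1
      omega
  obtain ⟨-, -, -, s4, s5, -, -, s8, s9, s10, -⟩ := h1 A d ap c T0 P s hs
  have hws := (s8 o w (by omega)).1
  obtain ⟨-, -, -, t4, t5, -, -, t8, t9, t10, -⟩ := h1 A d ap c T0 P t ht
  have hwt := (t8 o w (by omega)).1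
  have e1 := s5 o t w hst.symm
  rcases Nat.lt_or_ge T0 (ang d c s o t) with h4 | h4
  · left
    exact key s hs t ht hst h2 h3 (s8 o t h4).1
  · right
    refine key t ht s hs hst.symm h3 h2 ?_
    have h5 := (s8 t w (by omega)).1
    have e2 := P.gm.tri o t s
    have e3 := P.gm.tri o s w
    omega

/-- The orbit of an apex with a large angle under an element which moves the endpoints little. -/
theorem core (h1 : Stmt_PSA) (P : IsPS d ap c T0) (hi : IsomAct G d)
    (hap : ∀ (g : G), ∀ s ∈ ap, g • s ∈ ap)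
    (hc : ∀ (g : G), ∀ s ∈ ap, ∀ y y', d y s = 1 → d y' s = 1 →
      c (g • s) (g • y) (g • y') = c s y y') (e : G) {o w s : A} {f : ℕ} (hs : s ∈ ap)
    (ho : o ∉ ap) (hes : e • s ≠ s) (hf : ∀ t ∈ ap, ang d c t o (e • o) ≤ f)
    (hw : d w (e • w) < d w s) (hN : 2 * f + 10 * T0 < ang d c s o w) :
    ang d c s (e⁻¹ • s) (e • s) = ang d c s o w := by
  have hes' : e⁻¹ • s ≠ s := by
    intro h
    apply hes
    rw [← h, smul_inv_smul, h]
  have hs1 := hap e s hs
  have hs2 := hap e⁻¹ s hs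
  have a1 := h1 A d ap c T0 P (e • s) hs1
  have a2 := h1 A d ap c T0 P (e⁻¹ • s) hs2
  obtain ⟨-, -, -, p4, p5, -, -, -, -, -, p11⟩ := a1
  obtain ⟨-, -, -, n4, n5, -, -, -, -, -, n11⟩ := a2
  have big1' : ang d c (e • s) (e • w) w ≤ T0 := by
    apply p11
    rw [P.gm.comm (e • w) w, hi]
    exact hw
  have big1 : f + 9 * T0 < ang d c (e • s) o w := by
    have e1 := ang_smul hi hc e hs o w
    have e2 := p5 (e • o) o (e • w) (fun h => ho (h ▸ hs1))
    have e3 := p5 o w (e • w) (by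
      intro h
      have := hi e w s
      rw [← h] at this
      rw [← this, P.gm.comm (e • w) w] at hw
      exact lt_irrefl _ hw)
    have e4 := hf (e • s) hs1
    rw [p4 (e • o) o] at e2
    rw [p4 w (e • w)] at e3
    omega
  have big2 : f + 9 * T0 < ang d c (e⁻¹ • s) o w := by
    have hd1 : d (e⁻¹ • w) w = d w (e • w) := by
      have := hi e (e⁻¹ • w) w
      rw [smul_inv_smul] at this
      exact this.symm
    have e1 := ang_smul hi hc e⁻¹ hs o w
    have e2 := n5 (e⁻¹ • o) o (e⁻¹ • w) (fun h => ho (h ▸ hs2))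
    have e3 := n5 o w (e⁻¹ • w) (by
      intro h
      have h2 := hi e⁻¹ w s
      rw [← h, hd1] at h2
      rw [← h2] at hw
      exact lt_irrefl _ hw)
    have e4 : ang d c (e⁻¹ • s) (e⁻¹ • o) o ≤ f := by
      have h2 := ang_smul hi hc e⁻¹ hs o (e • o)
      rw [inv_smul_smul] at h2
      rw [h2]
      exact hf s hs
    have e5 : ang d c (e⁻¹ • s) (e⁻¹ • w) w ≤ T0 := by
      apply n11
      rw [hd1, hi]
      exact hw
    rw [n4 w (e⁻¹ • w)] at e3
    omega
  obtain ⟨-, -, -, s4, -⟩ := h1 A d ap c T0 P s hs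
  rcases order (o := o) (w := w) h1 P hs hs1 hes.symm (by omega) (by omega) with
    ⟨x1, x2⟩ | ⟨x1, x2⟩ <;>
    rcases order (o := o) (w := w) h1 P hs hs2 hes'.symm (by omega) (by omega) with
      ⟨y1, y2⟩ | ⟨y1, y2⟩
  · exfalso
    have z1 := nb_smul_congr hi e y1
    rw [smul_inv_smul, ← x2] at z1
    have z2 := ang_congr_left (c := c) w z1
    omega
  · rw [← ang_congr_left (c := c) (e • s) y2, ← ang_congr_right (c := c) o x1]
  · rw [← ang_congr_left (c := c) (e • s) y1, ← ang_congr_right (c := c) w x2, s4]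
  · exfalso
    have z1 := nb_smul_congr hi e y2
    rw [smul_inv_smul, ← x1] at z1
    have z2 := ang_congr_right (c := c) o z1
    have z3 := hf (e • s) hs1
    omega

/-- The chain of an apex with a large angle, seen from the points of an invariant set. -/
theorem core2 (h1 : Stmt_PSA) (h2 : Stmt_CHAIN) (P : IsPS d ap c T0) (hi : IsomAct G d)
    (hap : ∀ (g : G), ∀ s ∈ ap, g • s ∈ ap)
    (hc : ∀ (g : G), ∀ s ∈ ap, ∀ y y', d y s = 1 → d y' s = 1 →
      c (g • s) (g • y) (g • y') = c s y y') (e : G) {z s : A} (hs : s ∈ ap)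
    (hz : z ∉ ap) (h : 2 * T0 < ang d c s (e⁻¹ • s) (e • s)) :
    ∃ j : ℕ, ang d c s (e⁻¹ • s) (e • s) ≤ ang d c s ((e ^ j)⁻¹ • z) (e ^ j • z) + 2 * T0 := by
  obtain ⟨-, -, -, s4, s5, -, -, s8, -, -, s11⟩ := h1 A d ap c T0 P s hs
  have hne : 1 ≤ d s (e • s) := by
    rcases Nat.eq_zero_or_pos (d s (e • s)) with h0 | h0
    · exfalso
      have h3 := (s8 _ _ (by omega : T0 < ang d c s (e⁻¹ • s) (e • s))).2.2
      exact h3 (P.gm.eq_of_zero h0).symm
    · exact h0
  have hzs : ∀ g : G, g • z ≠ s := by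
    intro g hg
    apply hz
    have := hap g⁻¹ s hs
    rwa [← hg, inv_smul_smul] at this
  -- chains
  have hch : ∀ (k : G) (m : ℕ), ∀ i, i < m → e ^ (i + 1) • k • s ∈ ap := fun k m i _ =>
    hap _ _ (hap _ _ hs)
  have hang : ∀ (k : G), Commute e k → ∀ i : ℕ, ang d c (e ^ (i + 1) • k • s) (e ^ i • k • s)
      (e ^ (i + 2) • k • s) = ang d c s (e⁻¹ • s) (e • s) := by
    intro k hk i
    have e1 : e ^ i • k • s = (e ^ (i + 1) * k) • e⁻¹ • s := by
      rw [smul_smul, smul_smul]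
      congr 1
      have h3 : k * e⁻¹ = e⁻¹ * k := hk.inv_left.symm.eq
      rw [mul_assoc, h3, ← mul_assoc, pow_succ, mul_inv_cancel_right]
    have e2 : e ^ (i + 2) • k • s = (e ^ (i + 1) * k) • e • s := by
      rw [smul_smul, smul_smul]
      congr 1
      have h3 : k * e = e * k := hk.symm.eq
      rw [mul_assoc, h3, ← mul_assoc, ← pow_succ]
    have e3 : e ^ (i + 1) • k • s = (e ^ (i + 1) * k) • s := smul_smul _ _ _
    rw [e1, e2, e3]
    exact ang_smul hi hc _ hs _ _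
  have hdist : ∀ (k : G), Commute e k → ∀ i : ℕ, d (e ^ i • k • s) (e ^ (i + 1) • k • s) =
      d s (e • s) := by
    intro k hk i
    have e2 : e ^ (i + 1) • k • s = (e ^ i * k) • e • s := by
      rw [smul_smul, smul_smul]
      congr 1
      have h3 : k * e = e * k := hk.symm.eq
      rw [mul_assoc, h3, ← mul_assoc, ← pow_succ]
    have e3 : e ^ i • k • s = (e ^ i * k) • s := smul_smul _ _ _
    rw [e2, e3]
    exact hi _ _ _
  -- distances
  have hfar : ∀ j : ℕ, j ≤ d s (e ^ j • s) := by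
    intro j
    rcases j with _ | j
    · exact Nat.zero_le _
    have h3 := (h2 A d ap c T0 P j (fun i => e ^ i • (1 : G) • s) (fun i hij =>
      ⟨hch 1 j i hij, by
        show 2 * T0 < ang d c (e ^ (i + 1) • (1 : G) • s) (e ^ i • (1 : G) • s)
          (e ^ (i + 2) • (1 : G) • s)
        rw [hang 1 (Commute.one_right e) i]; exact h⟩)).2
    have h4 : d (e ^ 0 • (1 : G) • s) (e ^ (j + 1) • (1 : G) • s) =
        ∑ i ∈ Finset.range (j + 1), d (e ^ i • (1 : G) • s) (e ^ (i + 1) • (1 : G) • s) := h3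
    rw [Finset.sum_congr rfl fun i _ => hdist 1 (Commute.one_right e) i, Finset.sum_const,
      Finset.card_range, smul_eq_mul, pow_zero, one_smul, one_smul] at h4
    rw [h4]
    exact Nat.le_mul_of_pos_right _ hne
  refine ⟨d z s + 1, ?_⟩
  generalize hj : d z s + 1 = j
  have hj1 : 1 ≤ j := by omega
  -- the angle of the long chain
  have hlong : ang d c s ((e ^ j)⁻¹ • s) (e ^ j • s) = ang d c s (e⁻¹ • s) (e • s) := by
    have hk : Commute e (e ^ j)⁻¹ := ((Commute.refl e).pow_right j).inv_right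
    have h3 := (h2 A d ap c T0 P (2 * j - 1) (fun i => e ^ i • (e ^ j)⁻¹ • s) (fun i hij =>
      ⟨hch _ _ i hij, by
        show 2 * T0 < ang d c (e ^ (i + 1) • (e ^ j)⁻¹ • s) (e ^ i • (e ^ j)⁻¹ • s)
          (e ^ (i + 2) • (e ^ j)⁻¹ • s)
        rw [hang _ hk i]; exact h⟩)).1 (j - 1) (by omega)
    have h4 := h3.2.2.1
    have e1 : j - 1 + 1 = j := by omega
    have e2 : 2 * j - 1 + 1 = j + j := by omega
    have h5 : ang d c (e ^ (j - 1 + 1) • (e ^ j)⁻¹ • s) (e ^ 0 • (e ^ j)⁻¹ • s)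
        (e ^ (2 * j - 1 + 1) • (e ^ j)⁻¹ • s) = ang d c (e ^ (j - 1 + 1) • (e ^ j)⁻¹ • s)
        (e ^ (j - 1) • (e ^ j)⁻¹ • s) (e ^ (j - 1 + 2) • (e ^ j)⁻¹ • s) := h4
    rw [hang _ hk (j - 1), e1, e2, pow_add, mul_smul, smul_inv_smul, pow_zero, one_smul] at h5
    exact h5
  have hf := hfar j
  have e1 : ang d c s (e ^ j • s) (e ^ j • z) ≤ T0 := by
    apply s11
    rw [hi, P.gm.comm s z, P.gm.comm (e ^ j • s) s]
    omega
  have e2 : ang d c s ((e ^ j)⁻¹ • s) ((e ^ j)⁻¹ • z) ≤ T0 := by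
    apply s11
    have h3 := hi (e ^ j) ((e ^ j)⁻¹ • s) s
    rw [smul_inv_smul] at h3
    rw [hi, P.gm.comm s z, ← h3]
    omega
  have e3 := s5 ((e ^ j)⁻¹ • s) ((e ^ j)⁻¹ • z) (e ^ j • s) (hzs _)
  have e4 := s5 ((e ^ j)⁻¹ • z) (e ^ j • z) (e ^ j • s) (hzs _)
  rw [s4 (e ^ j • z) (e ^ j • s)] at e4
  omega

end

theorem lq_mono {G G' X S A' : Type} [Group G] [MulAction G X] [MulAction G S]
    [Group G'] [MulAction G' A'] {d : X → X → ℕ} {u L : ℕ} {Y : S → Set X} {η η1 C : ℕ}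
    {d' : A' → A' → ℕ} {π : G →* G'} {q : X ⊕ S → A'} {a0 L0 : ℕ} {CP : ℕ → ℕ} {M0 U U' : ℕ}
    (h : LQ G G' d u L Y η η1 C d' π q a0 L0 CP M0 U) (hU : U' ≤ U) :
    LQ G G' d u L Y η η1 C d' π q a0 L0 CP M0 U' :=
  { h with
    hu := hU.trans h.hu
    hL := (Nat.mul_le_mul_right u hU).trans h.hL }

end LTB

open LTB in
/-- 6.5, first half: on the part of a geodesic from `o` on which `x ^ m` displaces little, all
angles seen from `o` are bounded. -/
theorem LTB (h1 : Stmt_PSA) (h2 : Stmt_CHAIN) (h3 : Stmt_QPS) (h4 : Stmt_QGM) (h5 : Stmt_FINE)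
    (h6 : Stmt_BEAX) (h7 : Stmt_LOXQ) : Stmt_LTB := by
  intro η η1 C E
  obtain ⟨C7, h5⟩ := h5 η η1 C
  obtain ⟨C10, h6⟩ := h6 η η1 C (E + 1)
  refine ⟨fun m => 2 * (m * (E + 1) + C7) + C10 + 20 * C, ?_⟩
  intro a0 L0 CP M0
  obtain ⟨U6, h6⟩ := h6 a0 L0 CP M0
  obtain ⟨U7, h7⟩ := h7 η η1 C a0 L0 CP M0
  refine ⟨U6 + U7 + C7 + 4 * (M0 * (E + 1)) + 1, ?_⟩
  intro G G' X S A' _ _ _ _ _ d u L Y d' π q hQ m hm1 hm2 g o p w hg ho hbt hw s hs
  by_contra hcon
  push Not at hcon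
  have hQ6 := lq_mono hQ (by omega : U6 ≤ U6 + U7 + C7 + 4 * (M0 * (E + 1)) + 1)
  have hQ7 := lq_mono hQ (by omega : U7 ≤ U6 + U7 + C7 + 4 * (M0 * (E + 1)) + 1)
  have hu := hQ.hu
  have hL := hQ.hL
  obtain ⟨P, hfree, hap, hc, hqap, -⟩ := h3 G (X ⊕ S) G' A' (cd d u Y) (apx X S) (cdX d) (C * u) L
    d' π q hQ.rotc hQ.quot
  obtain ⟨hgm, hiso⟩ := h4 G (X ⊕ S) G' A' (cd d u Y) (KK G (apx X S)) d' π q hQ.conep.ps.gm
    hQ.rotc.isom hQ.quot
  have hiso' : IsomAct G' d' := hiso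
  have hgX : IsomAct G d := hQ.lev.isom
  have hnap : ∀ v : X, q (Sum.inl v) ∉ q '' apx X S := by
    intro v h
    obtain ⟨t, ht⟩ := hqap _ h
    cases ht
  have hqs : ∀ (k : G) (v : X), π k • q (Sum.inl v) = q (Sum.inl (k • v)) := by
    intro k v
    rw [← hQ.quot.equiv]
    rfl
  -- no torsion
  have hsl := h7 G G' X S A' d u L Y d' π q hQ7 (π g) hg
  have hpow : (π g) ^ m ≠ 1 := by
    intro h
    have e1 := IsomAct.slen_mul_le (d := d') (π g) w m
    rw [h, one_smul, hgm.self, Nat.cast_zero] at e1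
    have e2 : (0 : ℝ) < m * slen d' (π g) := mul_pos (by exact_mod_cast hm1) hsl
    linarith
  have hes : (π g) ^ m • s ≠ s := fun h => hpow (hfree _ _ h)
  -- the fine displacement
  have hdisp : d o (g ^ m • o) ≤ m * (E + 1) * u := by
    have e1 := hgX.pow_le hQ.gm g o m
    have e2 : m * d o (g • o) ≤ m * ((E + 1) * u) := Nat.mul_le_mul_left m ho
    rw [← mul_assoc] at e2
    exact e1.trans e2
  have hf : ∀ t ∈ q '' apx X S, ang d' (cq (cd d u Y) (cdX d) q) t (q (Sum.inl o))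
      ((π g) ^ m • q (Sum.inl o)) ≤ (m * (E + 1) + C7) * u := by
    intro t ht
    have e1 : C7 ≤ u := by omega
    have e2 : C7 * u ≤ L := by
      refine le_trans (Nat.mul_le_mul_right u ?_) hL
      omega
    have e3 : 4 * d o (g ^ m • o) ≤ L := by
      have e4 : m * (E + 1) * u ≤ M0 * (E + 1) * u :=
        Nat.mul_le_mul_right u (Nat.mul_le_mul_right _ hm2)
      have e5 : 4 * (M0 * (E + 1)) * u ≤ (U6 + U7 + C7 + 4 * (M0 * (E + 1)) + 1) * u :=
        Nat.mul_le_mul_right u (by omega)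
      have e6 : 4 * (M0 * (E + 1)) * u = 4 * (M0 * (E + 1) * u) := by ring
      omega
    have e4 := (h5 G G' X S A' d u L Y d' π q hQ.toConeQ e1 e2).1 o (g ^ m • o) e3 t ht
    rw [← map_pow, hqs]
    have e5 : (m * (E + 1) + C7) * u = m * (E + 1) * u + C7 * u := by ring
    omega
  obtain ⟨-, -, -, s4, s5, -, -, s8, -, -, s11⟩ := h1 A' d' _ _ (C * u) P s hs
  have hcon' : (2 * (m * (E + 1) + C7) + C10 + 20 * C) * u <
      ang d' (cq (cd d u Y) (cdX d) q) s (q (Sum.inl o)) p := hcon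
  have hexp : (2 * (m * (E + 1) + C7) + C10 + 20 * C) * u =
      2 * ((m * (E + 1) + C7) * u) + C10 * u + 20 * (C * u) := by ring
  obtain ⟨f1, f2, f3⟩ := s8 (q (Sum.inl o)) p (by omega)
  have hps : 1 ≤ d' p s := by
    rcases Nat.eq_zero_or_pos (d' p s) with h | h
    · exact absurd (hgm.eq_of_zero h) f3
    · exact h
  have hbt' : d' (q (Sum.inl o)) p + d' p w = d' (q (Sum.inl o)) w := hbt
  have hws : d' w s = d' p w + d' p s := by
    have e1 := hgm.tri (q (Sum.inl o)) s w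
    have e2 := hgm.tri w p s
    have e3 := hgm.comm w p
    have e4 := hgm.comm s p
    have e5 := hgm.comm s w
    omega
  have hw' : d' w ((π g) ^ m • w) < d' w s := by omega
  have hsw : w ≠ s := by
    intro h
    rw [h, hgm.self] at hws
    omega
  have hbig : 2 * ((m * (E + 1) + C7) * u) + C10 * u + 19 * (C * u) <
      ang d' (cq (cd d u Y) (cdX d) q) s (q (Sum.inl o)) w := by
    have e1 := s5 (q (Sum.inl o)) w p hsw
    have e2 := s11 w p (by
      have := hgm.comm w p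
      omega)
    omega
  have hcore := core h1 P hiso' hap hc ((π g) ^ m) hs (hnap o) hes hf hw' (by omega)
  -- the axis
  have hne : Nonempty X := hQ.lev.ne
  obtain ⟨z, hz⟩ := IsomAct.Ax_nonempty (d := d) DD g
  obtain ⟨j, hj⟩ := core2 h1 h2 P hiso' hap hc ((π g) ^ m) hs (hnap z) (by rw [hcore]; omega)
  rw [hcore, ← map_pow, ← map_pow, ← map_inv, hqs, hqs] at hj
  have hmem : ∀ k : G, Commute k g → k • z ∈ AX d g := fun k hk =>
    (hgX.smul_mem_Ax_of_commute DD hk z).mpr hz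
  have hc1 : Commute ((g ^ m) ^ j) g := ((Commute.refl g).pow_left m).pow_left j
  have hbe := ((h6 G G' X S A' d u L Y d' π q hQ6 g o hg ho).1 _ _ (hmem _ hc1.inv_left)
    (hmem _ hc1)).2.2 s hs
  have hbe' : ang d' (cq (cd d u Y) (cdX d) q) s (q (Sum.inl (((g ^ m) ^ j)⁻¹ • z)))
      (q (Sum.inl ((g ^ m) ^ j • z))) ≤ C10 * u := hbe
  omega

end Pool.Agent.Olsh
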