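import Pool.Agent.Olsh.StmtsC

/-!
# MP_3cdb71_al: geodesic polygons are thin (block NGON)
-/

set_option autoImplicit false

namespace Pool.Agent.Olsh

theorem NGON : Stmt_NGON := by
  intro δ V d hd hh n x z hn
  have hs := hh.slim hd
  induction n, hn using Nat.le_induction generalizing z with
  | base =>
    intro hz
    refine ⟨0, by omega, z, ?_, ?_⟩
    · simpa using hz
    · rw [hd.self]
      omega
  | succ n hn ih =>
    intro hz
    obtain ⟨q, hq, hq'⟩ := hs (x 0) (x (n + 1)) (x n) z hz
    rcases hq with hq | hq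
    · obtain ⟨i, hi, z', hz', hd'⟩ := ih q hq
      refine ⟨i, by omega, z', hz', ?_⟩
      have h1 := hd.tri z q z'
      have h2 : 4 * δ * (n + 1) = 4 * δ * n + 4 * δ := by ring
      omega
    · refine ⟨n, by omega, q, hq, ?_⟩
      have h2 : 4 * δ * (n + 1) = 4 * δ * n + 4 * δ := by ring
      have h3 : 0 ≤ 4 * δ * n := Nat.zero_le _
      omega

end Pool.Agent.Olsh
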