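import Pool.Agent.Olsh.StmtsP

/-!
# MP_3cdb71_al: NU1, elements of small stable length of the quotient
-/

set_option autoImplicit false

namespace Pool.Agent.Olsh

namespace NU1

/-- The complete situation with a smaller bound. -/
theorem lq_mono {G G' X S A' : Type} [Group G] [MulAction G X] [MulAction G S]
    [Group G'] [MulAction G' A'] {d : X → X → ℕ} {u L : ℕ} {Y : S → Set X} {η η1 C : ℕ}
    {d' : A' → A' → ℕ} {π : G →* G'} {q : X ⊕ S → A'} {a0 L0 : ℕ} {CP : ℕ → ℕ} {M0 U U' : ℕ}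
    (h : LQ G G' d u L Y η η1 C d' π q a0 L0 CP M0 U) (hU : U' ≤ U) :
    LQ G G' d u L Y η η1 C d' π q a0 L0 CP M0 U' :=
  { toConeQ := h.toConeQ
    lev := h.lev
    hu := hU.trans h.hu
    hL := (Nat.mul_le_mul_right u hU).trans h.hL
    heta := h.heta }

end NU1

theorem NU1 (h1 : Stmt_TYPES) (h2 : Stmt_ALC) (h3 : Stmt_BEAX) (h4 : Stmt_QPS) (h5 : Stmt_QGM)
    (h6 : Stmt_QHYP) : Stmt_NU1 := by
  intro η η1 C
  obtain ⟨E, hE, h1⟩ := h1 η η1 C
  obtain ⟨C10, h3⟩ := h3 η η1 C E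
  refine ⟨2 * C10 + 1, by omega, ?_⟩
  intro a0 L0 CP M0
  obtain ⟨U1, h1⟩ := h1 a0 L0 CP M0
  obtain ⟨U2, h3⟩ := h3 a0 L0 CP M0
  refine ⟨max (max U1 U2) (12 * dl + 4), ?_⟩
  intro G G' X S A' _ _ _ _ _ d u L Y d' π q hq x hx
  have hq1 := NU1.lq_mono hq (U' := U1) ((le_max_left _ _).trans (le_max_left _ _))
  have hq2 := NU1.lq_mono hq (U' := U2) ((le_max_right _ _).trans (le_max_left _ _))
  have hu : 12 * dl + 4 ≤ u := (le_max_right _ _).trans hq.hu
  have hV : (((2 * C10 + 1 : ℕ)) : ℝ) = 2 * C10 + 1 := by push_cast; ring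
  have hC10 : (0 : ℝ) ≤ C10 := by positivity
  have hsl := IsomAct.slen_nonneg (d := d') x
  obtain ⟨hgm', his'⟩ := h5 G (X ⊕ S) G' A' (cd d u Y) (KK G (apx X S)) d' π q hq.rotc.gm
    hq.rotc.isom hq.quot
  have hhyp' : Hyp d' dl := h6 G (X ⊕ S) G' A' (cd d u Y) (apx X S) (cdX d) (C * u) L dl d' π q
    hq.rotc hq.quot hq.conep.hypc
  obtain ⟨hps, -, hap, hcs, -⟩ := h4 G (X ⊕ S) G' A' (cd d u Y) (apx X S) (cdX d) (C * u) L d' π q
    hq.rotc hq.quot
  have : Nonempty X := hq.lev.ne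
  have : Nonempty A' := ⟨q (Sum.inl (Classical.arbitrary X))⟩
  rcases h1 G G' X S A' d u L Y d' π q hq1 x hx with ⟨t, ht, hang⟩ | ⟨g, o, hg, ho⟩ | hga
  · left
    obtain ⟨-, hs, h22, -⟩ := h2 G' A' d' (q '' apx X S) (cq (cd d u Y) (cdX d) q) (C * u) hps
      his' hap hcs x t ht hang
    have h22' : (2 : ℝ) ≤ slen d' x := by rw [hs]; exact_mod_cast h22
    rw [hV]
    nlinarith
  · by_cases hd : disp d g ≤ u
    · right
      obtain ⟨v, hv⟩ := Mn_nonempty (d := d) g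
      exact ⟨g, v, hg, by rw [one_mul]; exact (le_of_eq hv).trans hd⟩
    · left
      push Not at hd
      have e1 : (disp d g : ℝ) ≤ slen d g + (6 * dl + 2) :=
        IsomAct.disp_le_slen hq.lev.isom hq.lev.hyp hq.lev.gm g
      have e2 := (h3 G G' X S A' d u L Y d' π q hq2 g o (by rw [hg]; exact hx) ho).2
      rw [hg] at e2
      have e3 : (u : ℝ) ≤ disp d g := by exact_mod_cast hd.le
      have e4 : (12 : ℝ) * dl + 4 ≤ u := by exact_mod_cast hu
      have hu0 : (0 : ℝ) < u := by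
        have : (0 : ℝ) ≤ dl := by positivity
        linarith
      have e5 : (u : ℝ) ≤ u * (2 * C10 * slen d' x) := by nlinarith
      have e6 : (1 : ℝ) ≤ 2 * C10 * slen d' x := by
        by_contra hc
        push Not at hc
        have := mul_lt_mul_of_pos_left hc hu0
        linarith
      rw [hV]
      nlinarith
  · left
    have e1 : (disp d' x : ℝ) ≤ slen d' x + (6 * dl + 2) :=
      IsomAct.disp_le_slen his' hhyp' hgm' x
    have e2 : ((100 * dl + 100 : ℕ) : ℝ) < disp d' x := by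
      have : 100 * dl + 100 < disp d' x := hga
      exact_mod_cast this
    push_cast at e2
    have e3 : (0 : ℝ) ≤ dl := by positivity
    have e4 : (1 : ℝ) ≤ slen d' x := by linarith
    rw [hV]
    nlinarith

end Pool.Agent.Olsh
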