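import Pool.Agent.Olsh.StmtsP
import Pool.Agent.Olsh.CONEGM

/-!
# MP_3cdb71_al: 6.6, PM for the quotient
-/

set_option autoImplicit false

namespace Pool.Agent.Olsh

namespace PMQ

theorem LQ_mono {G G' X S A' : Type} [Group G] [MulAction G X] [MulAction G S]
    [Group G'] [MulAction G' A'] {d : X → X → ℕ} {u L : ℕ} {Y : S → Set X} {η η1 C : ℕ}
    {d' : A' → A' → ℕ} {π : G →* G'} {q : X ⊕ S → A'} {a0 L0 : ℕ} {CP : ℕ → ℕ} {M0 U U' : ℕ}
    (h : LQ G G' d u L Y η η1 C d' π q a0 L0 CP M0 U) (hU : U' ≤ U) :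
    LQ G G' d u L Y η η1 C d' π q a0 L0 CP M0 U' :=
  { h with
    hu := hU.trans h.hu
    hL := (Nat.mul_le_mul_right u hU).trans h.hL }

section

variable {V : Type} {d : V → V → ℕ} {δ : ℕ} {G : Type} [Group G] [MulAction G V]

/-- Case (al). -/
theorem caseA (hd : IsGM d) (hG : IsomAct G d) {x : G} {v t : V} {m : ℕ} {j : ℤ}
    (h : d v (x ^ j • t) + d (x ^ j • t) (x ^ m • v) = d v (x ^ m • v)) :
    d v (x • v) ≤ d v (x ^ m • v) + d t (x • t) := by
  have key : ∀ i : ℤ, d v (x • v) ≤ 2 * d v (x ^ i • t) + d t (x • t) := by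
    intro i
    have h1 := hG.dist_base hd x v (x ^ i • t)
    have h2 : d (x ^ i • t) (x • (x ^ i • t)) = d t (x • t) := by
      have h3 : x • (x ^ i • t) = x ^ i • (x • t) := by
        rw [smul_smul, smul_smul, ← zpow_one_add, ← zpow_add_one, add_comm]
      rw [h3, hG]
    omega
  have h1 : d (x ^ j • t) (x ^ m • v) = d v (x ^ (j - m) • t) := by
    have h2 : x ^ j • t = x ^ m • (x ^ (j - m) • t) := by
      rw [smul_smul, ← zpow_natCast x m, ← zpow_add]
      congr 2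
      ring
    rw [h2, hG, hd.comm]
  have h2 := key j
  have h3 := key (j - m)
  omega

/-- Case (ga). -/
theorem caseC (hd : IsGM d) (hh : Hyp d δ) (hG : IsomAct G d) {x : G} (v : V) {m : ℕ}
    (hm : 1 ≤ m) (hx : 100 * δ + 100 < disp d x) :
    d v (x • v) ≤ d v (x ^ m • v) + (170 * δ + 18) := by
  have : Nonempty V := ⟨v⟩
  have h1 := hG.disp_le_slen hh hd x
  have h2 := IsomAct.slen_le_disp (d := d) (x ^ m)
  rw [hG.slen_pow hd] at h2
  have h3 := IsomAct.slen_nonneg (d := d) x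
  have h4 : (1 : ℝ) ≤ m := by exact_mod_cast hm
  have h5 : slen d x ≤ m * slen d x := by nlinarith
  have h6 : disp d x ≤ disp d (x ^ m) + (6 * δ + 2) := by
    have : (disp d x : ℝ) ≤ disp d (x ^ m) + (6 * δ + 2) := by linarith
    exact_mod_cast this
  obtain ⟨y, hy, hy'⟩ := hG.near_mn hh hd (g := x ^ m) (by omega) v
  obtain ⟨z, hz, hz'⟩ := hG.comm_mn_near hh hd (g := x) (h := x ^ m)
    (Commute.refl x |>.pow_right m) hy (by omega) (by omega)
  have h7 := hG.dist_base hd x v z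
  have h8 : d z (x • z) = disp d x := hz
  have h9 := hd.tri v y z
  omega

end

end PMQ

open PMQ in
theorem PMQ (h1 : Stmt_TYPES) (h2 : Stmt_ALC) (h3 : Stmt_LT) (h4 : Stmt_QPS) (h5 : Stmt_QGM)
    (h6 : Stmt_QHYP) : Stmt_PMQ := by
  intro η η1 C
  obtain ⟨E, hE, hT⟩ := h1 η η1 C
  obtain ⟨R, hR⟩ := h3 η η1 C E hE
  refine ⟨fun m => R m + (m + 1) * (E + 1) + DD + (170 * dl + 18), ?_⟩
  intro a0 L0 CP M0
  obtain ⟨U1, hU1⟩ := hT a0 L0 CP M0
  obtain ⟨U2, hU2⟩ := hR a0 L0 CP M0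
  refine ⟨max U1 U2, ?_⟩
  intro G G' X S A' _ _ _ _ _ d u L Y d' π q hq m hm hmM x v hx
  have hq1 := LQ_mono hq (le_max_left U1 U2)
  have hq2 := LQ_mono hq (le_max_right U1 U2)
  have hrot := hq.rotc
  have hquot := hq.quot
  obtain ⟨hgm, hiso⟩ := h5 G (X ⊕ S) G' A' (cd d u Y) (KK G (apx X S)) d' π q hrot.gm hrot.isom
    hquot
  have hG : IsomAct G' d' := hiso
  have hhyp : Hyp d' dl := h6 G (X ⊕ S) G' A' (cd d u Y) (apx X S) (cdX d) (C * u) L dl d' π q
    hrot hquot hq.conep.hypc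
  have hne : Nonempty A' := ⟨v⟩
  show d' v (x • v) ≤ d' v (x ^ m • v) + (R m + (m + 1) * (E + 1) + DD + (170 * dl + 18))
  by_cases hdisp : DD < disp d' x
  · have h7 := caseC hgm hhyp hG v hm (show 100 * dl + 100 < disp d' x from hdisp)
    omega
  rcases hU1 G G' X S A' d u L Y d' π q hq1 x hx with h7 | h7 | h7
  · obtain ⟨t, ht, hang⟩ := h7
    obtain ⟨hps, -, hap, hcs, -⟩ := h4 G (X ⊕ S) G' A' (cd d u Y) (apx X S) (cdX d) (C * u) L d' π
      q hrot hquot
    obtain ⟨-, hsl, -, hex⟩ := h2 G' A' d' (q '' apx X S) (cq (cd d u Y) (cdX d) q) (C * u) hps hG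
      hap hcs x t ht hang
    have h8 : d' t (x • t) ≤ disp d' x := by
      have := IsomAct.slen_le_disp (d := d') x
      rw [hsl] at this
      exact_mod_cast this
    rcases Nat.eq_or_lt_of_le hm with hm1 | hm1
    · rw [← hm1, pow_one]
      omega
    · obtain ⟨j, hj⟩ := hex m hm1 v
      have h9 := caseA hgm hG hj
      omega
  · obtain ⟨g, o, hg, ho⟩ := h7
    have hmem : q (Sum.inl o) ∈ AT d u π q E x := by
      refine ⟨g, o, hg, rfl, ?_, ?_⟩
      · have h8 := IsomAct.slen_mul_le (d := d) g o 1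
        rw [pow_one, Nat.cast_one, one_mul] at h8
        have h9 : (d o (g • o) : ℝ) ≤ E * u := by exact_mod_cast ho
        linarith
      · exact ho.trans (Nat.mul_le_mul_right u (Nat.le_succ E))
    obtain ⟨o', ho', hmin⟩ := exists_proj (d := d') (Y := AT d u π q E x) ⟨_, hmem⟩ v
    have h8 := (hU2 G G' X S A' d u L Y d' π q hq2 m hm hmM x hx v o' ho' hmin).1
    obtain ⟨g1, o1, hg1, ho1, -, hd1⟩ := ho'
    have h9 : d' o' (x • o') ≤ E + 1 := by
      have h10 := hquot.le (Sum.inl o1) (g1 • Sum.inl o1)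
      rw [hquot.equiv, hg1, ho1] at h10
      have h11 := (CONEGM X S d u Y hq.gm hq.conep.one_le hq.ne).2.2 (E + 1) o1 (g1 • o1) hd1
      exact h10.trans h11
    have h10 := hG.pow_le hgm x o' m
    have h11 : m * d' o' (x • o') ≤ m * (E + 1) := Nat.mul_le_mul_left m h9
    have h12 := hG.dist_base hgm x v o'
    have h13 := hgm.tri (x ^ m • v) o' (x ^ m • o')
    have h14 := hG (x ^ m) v o'
    have h15 := hgm.comm o' (x ^ m • v)
    have e : (m + 1) * (E + 1) = m * (E + 1) + (E + 1) := by ring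
    omega
  · exact absurd h7 hdisp

end Pool.Agent.Olsh
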