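import Pool.Agent.Olsh.StmtsC

/-!
# MP_3cdb71_al, module POLY: closed polygons lift to closed polygons
(Lemma 4.1 of `Pool/Agent/Olsh/H92.md`)
-/

set_option autoImplicit false

namespace Pool.Agent.Olsh

namespace POLY

section

variable {G A G' A' : Type} [Group G] [MulAction G A] [Group G'] [MulAction G' A']
  {d : A → A → ℕ} {ap : Set A} {c : A → A → A → ℕ} {T0 L : ℕ}
  {d' : A' → A' → ℕ} {π : G →* G'} {q : A → A'}

/-- Open polygons: lifts of `x 0, ..., x n`, with the right lengths of the sides from the index `m`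
on. -/
def Opn (d : A → A → ℕ) (d' : A' → A' → ℕ) (q : A → A') (m n : ℕ) (x : ℕ → A') (a : ℕ → A) :
    Prop :=
  (∀ i, i ≤ n → q (a i) = x i) ∧
    ∀ i, m ≤ i → i < n → d (a i) (a (i + 1)) = d' (x i) (x (i + 1))

theorem q_smul (hq : IsQuot (KK G ap) d d' π q) {k : G} (hk : k ∈ KK G ap) (b : A) :
    q (k • b) = q b := by
  rw [hq.equiv, (hq.ker k).2 hk, one_smul]

theorem mem_KK {s : A} (hs : s ∈ ap) {r : G} (hr : r • s = s) : r ∈ KK G ap :=
  Subgroup.subset_closure ⟨s, hs, hr⟩

/-- Rotating the part of a polygon after the index `i`. -/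
def mdf (i : ℕ) (r : G) (a : ℕ → A) : ℕ → A := fun j => if j ≤ i then a j else r • a j

theorem mdf_le {i j : ℕ} (h : j ≤ i) (r : G) (a : ℕ → A) : mdf i r a j = a j := if_pos h

theorem mdf_gt {i j : ℕ} (h : i < j) (r : G) (a : ℕ → A) : mdf i r a j = r • a j :=
  if_neg (by omega)

theorem opn_mdf (hr : IsRot G d ap c T0 L) (hq : IsQuot (KK G ap) d d' π q) {m n : ℕ}
    {x : ℕ → A'} {a : ℕ → A} (ha : Opn d d' q m n x a) {s : A} (hs : s ∈ ap) {r : G}
    (hrs : r • s = s) {i : ℕ} (hi : i ≤ n)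
    (h : a i = s ∨ i < n ∧ d (a i) (a (i + 1)) = d (a i) s + d s (a (i + 1))) :
    Opn d d' q m n x (mdf i r a) ∧ mdf i r a n = r • a n := by
  have hrK : r ∈ KK G ap := mem_KK hs hrs
  refine ⟨⟨?_, ?_⟩, ?_⟩
  · intro j hj
    rcases Nat.lt_or_ge i j with hij | hij
    · rw [mdf_gt hij, q_smul hq hrK]
      exact ha.1 j hj
    · rw [mdf_le hij]
      exact ha.1 j hj
  · intro j hmj hj
    rcases Nat.lt_trichotomy i j with hij | hij | hij
    · rw [mdf_gt hij, mdf_gt (by omega : i < j + 1), hr.isom]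
      exact ha.2 j hmj hj
    · subst hij
      rw [mdf_le le_rfl, mdf_gt (by omega : i < i + 1)]
      rcases h with h | ⟨_, h⟩
      · have h2 : a i = r • a i := by rw [h, hrs]
        rw [h2, hr.isom]
        exact ha.2 i hmj hj
      · apply le_antisymm
        · have h3 := hr.gm.tri (a i) s (r • a (i + 1))
          have h4 : d s (r • a (i + 1)) = d s (a (i + 1)) := by
            conv_lhs => rw [← hrs]
            exact hr.isom r s (a (i + 1))
          have h5 := ha.2 i hmj hj
          omega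
        · have h3 := hq.le (a i) (r • a (i + 1))
          rw [q_smul hq hrK, ha.1 i (by omega), ha.1 (i + 1) (by omega)] at h3
          exact h3
    · rw [mdf_le (by omega : j ≤ i), mdf_le (by omega : j + 1 ≤ i)]
      exact ha.2 j hmj hj
  · rcases Nat.lt_or_ge i n with hin | hin
    · exact mdf_gt hin r a
    · have h6 : i = n := by omega
      subst h6
      rw [mdf_le le_rfl]
      rcases h with h | ⟨h, _⟩
      · rw [h, hrs]
      · omega

/-- A bound of the angle by a sum. -/
theorem ang_sum {s : A} (htri : ∀ a b x, b ≠ s → ang d c s a x ≤ ang d c s a b + ang d c s b x)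
    (hself : ∀ a, ang d c s a a ≤ T0) {m : ℕ} {a : ℕ → A} (k : ℕ)
    (hne : ∀ i, m ≤ i → i ≤ m + k → a i ≠ s)
    (hle : ∀ i, m ≤ i → i < m + k → ang d c s (a i) (a (i + 1)) ≤ T0) :
    ang d c s (a m) (a (m + k)) ≤ (k + 1) * T0 := by
  induction k with
  | zero =>
    have := hself (a m)
    simpa using this
  | succ k ih =>
    have h1 := ih (fun i h h' => hne i h (by omega)) (fun i h h' => hle i h (by omega))
    have h2 := htri (a m) (a (m + k)) (a (m + k + 1)) (hne (m + k) (by omega) (by omega))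
    have h3 := hle (m + k) (by omega) (by omega)
    have h4 : (k + 1 + 1) * T0 = (k + 1) * T0 + T0 := by ring
    rw [h4, show m + (k + 1) = m + k + 1 by omega]
    omega

/-- The successive lift of a polygon. -/
theorem exists_lift (hq : IsQuot (KK G ap) d d' π q) (n : ℕ) (x : ℕ → A') (a₀ a₁ : A) (m : ℕ)
    (_hm : m ≤ 1) (h0 : q a₀ = x 0) (h1 : m = 1 → q a₁ = x 1) :
    ∃ a : ℕ → A, a 0 = a₀ ∧ (m = 1 → a 1 = a₁) ∧ Opn d d' q m n x a := by
  have hstep : ∀ (b : A) (z : A'), ∃ b' : A, q b' = z ∧ d b b' = d' (q b) z := by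
    intro b z
    obtain ⟨e, he⟩ := hq.surj z
    obtain ⟨k, hk, hk'⟩ := hq.ex b e
    exact ⟨k • e, by rw [q_smul hq hk, he], by rw [hk', he]⟩
  choose f hf1 hf2 using hstep
  -- the lift, with a special value at the index 1
  let g : ℕ → A := fun i => Nat.rec a₀ (fun j b => if m = 1 ∧ j = 0 then a₁ else f b (x (j + 1))) i
  have hg0 : g 0 = a₀ := rfl
  have hgs : ∀ j, g (j + 1) = if m = 1 ∧ j = 0 then a₁ else f (g j) (x (j + 1)) := fun j => rfl
  have hq' : ∀ i, q (g i) = x i := by
    intro i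
    cases i with
    | zero => exact h0
    | succ j =>
      rw [hgs]
      split_ifs with hc
      · rw [hc.2]
        exact h1 hc.1
      · exact hf1 _ _
  refine ⟨g, hg0, ?_, fun i _ => hq' i, ?_⟩
  · intro hm1
    have h5 := hgs 0
    rw [if_pos ⟨hm1, rfl⟩] at h5
    exact h5
  · intro i hmi hin
    rw [hgs i, if_neg (by omega), hf2, hq' i]

end

end POLY

open POLY in
/-- Lemma 4.1. -/
theorem POLY (h1 : Stmt_PSA) (h2 : Stmt_IP) (_h3 : Stmt_QGM) : Stmt_POLY := by
  intro G A G' A' _ _ _ _ d ap c T0 L d' π q hr hq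
  have hT0 := hr.one_le
  have hnap : ∀ (g : G) (a : A), a ∉ ap → g • a ∉ ap := by
    intro g a ha hga
    apply ha
    have := hr.ap_smul g⁻¹ _ hga
    rwa [inv_smul_smul] at this
  -- a side of length one has small angles
  have hside : ∀ s ∈ ap, ∀ a b, a ≠ s → b ≠ s → d a b = 1 → ang d c s a b ≤ T0 := by
    intro s hs a b has hbs hab
    by_contra hcon
    push Not at hcon
    obtain ⟨_, _, _, _, _, _, _, hbig, _⟩ := h1 A d ap c T0 hr.toIsPS s hs
    obtain ⟨h, _, _⟩ := hbig a b hcon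
    have h4 : d a s ≠ 0 := fun h => has (hr.gm.eq_of_zero h)
    have h5 : d s b ≠ 0 := fun h => hbs (hr.gm.eq_of_zero h).symm
    omega
  constructor
  · intro n x hL hx
    obtain ⟨a₀, ha₀⟩ := hq.surj (x 0)
    obtain ⟨a, ha0, -, ha⟩ := exists_lift hq n x a₀ a₀ 0 (by omega) ha₀
      (fun h => absurd h (by omega))
    -- the base vertex
    obtain ⟨w, hw, hwa⟩ : ∃ w, w ∉ ap ∧ (w = a₀ ∨ d w a₀ = 1) := by
      by_cases h : a₀ ∈ ap
      · obtain ⟨y, hy⟩ := hr.nbr a₀ h
        exact ⟨y, fun hyap => hr.nadj y hyap a₀ h hy, Or.inr hy⟩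
      · exact ⟨a₀, h, Or.inl rfl⟩
    have key : ∀ g ∈ KK G ap, ∀ a : ℕ → A, a 0 = a₀ → a n = g • a₀ → Opn d d' q 0 n x a →
        ∃ b : ℕ → A, Opn d d' q 0 n x b ∧ b n = b 0 := by
      refine h2 G A d ap c T0 L hr w hw (fun g => ∀ a : ℕ → A, a 0 = a₀ → a n = g • a₀ →
        Opn d d' q 0 n x a → ∃ b : ℕ → A, Opn d d' q 0 n x b ∧ b n = b 0) ?_ ?_
      · intro a h0 hn ha
        exact ⟨a, ha, by rw [hn, h0, one_smul]⟩
      · intro s hs r hrs g hg hang hP a h0 hn ha
        obtain ⟨_, _, _, hsym, htri, hself, _, hbig, _⟩ := h1 A d ap c T0 hr.toIsPS s hs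
        have hfind : ∃ i, i ≤ n ∧
            (a i = s ∨ i < n ∧ d (a i) (a (i + 1)) = d (a i) s + d s (a (i + 1))) := by
          by_contra hcon
          push Not at hcon
          have hne : ∀ i, i ≤ n → a i ≠ s := fun i hi => (hcon i hi).1
          have hle : ∀ i, i < n → ang d c s (a i) (a (i + 1)) ≤ T0 := by
            intro i hi
            by_contra hc
            push Not at hc
            exact (hcon i hi.le).2 hi (hbig _ _ hc).1
          have hsum := ang_sum (T0 := T0) htri hself (m := 0) (a := a) n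
            (fun i _ hi => hne i (by omega)) (fun i _ hi => hle i (by omega))
          rw [Nat.zero_add] at hsum
          have hws : w ≠ s := fun h => hw (h ▸ hs)
          have hgws : g • w ≠ s := fun h => hnap g w hw (h ▸ hs)
          have e1 : ang d c s w (a 0) ≤ T0 := by
            rcases hwa with hwa | hwa
            · rw [h0, hwa]
              exact hself _
            · apply hside s hs _ _ hws (hne 0 (by omega))
              rw [h0]
              exact hwa
          have e2 : ang d c s (a n) (g • w) ≤ T0 := by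
            rcases hwa with hwa | hwa
            · rw [hn, hwa]
              exact hself _
            · apply hside s hs _ _ (hne n le_rfl) hgws
              rw [hn, hr.isom, hr.gm.comm]
              exact hwa
          have t1 := htri w (a 0) (g • w) (hne 0 (by omega))
          have t2 := htri (a 0) (a n) (g • w) (hne n le_rfl)
          have t3 : (n + 20) * T0 = (n + 1) * T0 + 19 * T0 := by ring
          rw [t3] at hL
          omega
        obtain ⟨i, hi, hi'⟩ := hfind
        obtain ⟨ho, hend⟩ := opn_mdf hr hq ha hs hrs hi hi'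
        refine hP (mdf i r a) ?_ ?_ ho
        · rw [mdf_le (Nat.zero_le i)]
          exact h0
        · rw [hend, hn, mul_smul]
    have hqn : q a₀ = q (a n) := by
      rw [ha.1 n le_rfl, hx, ha₀]
    obtain ⟨k, hk, hk'⟩ := (hq.fib a₀ (a n)).1 hqn
    obtain ⟨b, hb, hbn⟩ := key k hk a ha0 hk'.symm ha
    exact ⟨b, hb.1, fun i hi => hb.2 i (Nat.zero_le i) hi, hbn⟩
  · intro n R x a₀ a₁ hap0 hap1 hR hx0 hx1 hn1 hx hL
    obtain ⟨a, ha0, ha1, ha⟩ := exists_lift hq n x a₀ a₁ 1 le_rfl hx0 (fun _ => hx1)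
    have ha1' := ha1 rfl
    have key : ∀ g ∈ KK G ap, ∀ a : ℕ → A, a 0 = a₀ → a 1 = a₁ → a n = g • a₀ →
        Opn d d' q 1 n x a →
        ∃ b : ℕ → A, b 0 = a₀ ∧ b 1 = a₁ ∧ Opn d d' q 1 n x b ∧ b n = a₀ := by
      refine h2 G A d ap c T0 L hr a₀ hap0 (fun g => ∀ a : ℕ → A, a 0 = a₀ → a 1 = a₁ →
        a n = g • a₀ → Opn d d' q 1 n x a →
        ∃ b : ℕ → A, b 0 = a₀ ∧ b 1 = a₁ ∧ Opn d d' q 1 n x b ∧ b n = a₀) ?_ ?_
      · intro a h0 h1' hn ha
        exact ⟨a, h0, h1', ha, by rw [hn, one_smul]⟩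
      · intro s hs r hrs g hg hang hP a h0 h1' hn ha
        obtain ⟨_, _, _, hsym, htri, hself, _, hbig, _⟩ := h1 A d ap c T0 hr.toIsPS s hs
        have hfind : ∃ i, 1 ≤ i ∧ i ≤ n ∧
            (a i = s ∨ i < n ∧ d (a i) (a (i + 1)) = d (a i) s + d s (a (i + 1))) := by
          by_contra hcon
          push Not at hcon
          have hne : ∀ i, 1 ≤ i → i ≤ n → a i ≠ s := fun i hi hi' => (hcon i hi hi').1
          have hle : ∀ i, 1 ≤ i → i < n → ang d c s (a i) (a (i + 1)) ≤ T0 := by
            intro i hi hi'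
            by_contra hc
            push Not at hc
            exact (hcon i hi hi'.le).2 hi' (hbig _ _ hc).1
          obtain ⟨k, rfl⟩ : ∃ k, n = 1 + k := ⟨n - 1, by omega⟩
          have hsum := ang_sum (T0 := T0) htri hself (m := 1) (a := a) k
            (fun i hi hi' => hne i hi hi') (fun i hi hi' => hle i hi hi')
          have t1 := htri (a 0) (a 1) (a (1 + k)) (hne 1 le_rfl (by omega))
          have t2 := hR s hs
          rw [← h0, ← h1'] at t2
          rw [← hn, ← h0] at hang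
          have t3 : (1 + k + 20) * T0 = (k + 1) * T0 + 20 * T0 := by ring
          rw [t3] at hL
          omega
        obtain ⟨i, hi1, hi, hi'⟩ := hfind
        obtain ⟨ho, hend⟩ := opn_mdf hr hq ha hs hrs hi hi'
        refine hP (mdf i r a) ?_ ?_ ?_ ho
        · rw [mdf_le (Nat.zero_le i)]
          exact h0
        · rw [mdf_le hi1]
          exact h1'
        · rw [hend, hn, mul_smul]
    have hqn : q a₀ = q (a n) := by
      rw [ha.1 n le_rfl, hx, hx0]
    obtain ⟨k, hk, hk'⟩ := (hq.fib a₀ (a n)).1 hqn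
    obtain ⟨b, hb0, hb1, hb, hbn⟩ := key k hk a ha0 ha1' hk'.symm ha
    exact ⟨b, hb0, hb1, hb.1, fun i hi hi' => hb.2 i hi hi', hbn⟩

end Pool.Agent.Olsh
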