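import Pool.Agent.Olsh.StmtsP

/-!
# PROD: the product of two isometries with axes of small overlap
-/

set_option autoImplicit false

open Filter Topology

namespace Pool.Agent.Olsh

namespace PROD

variable {V : Type} {d : V → V → ℕ} {δ : ℕ} {G : Type} [Group G] [MulAction G V]

/-- A lower bound for the stable length. -/
theorem le_slen (hG : IsomAct G d) (hd : IsGM d) (f : G) (v : V) (K : ℝ)
    (h : ∀ n : ℕ, 1 ≤ n → n * K ≤ (d v (f ^ n • v) : ℝ)) : K ≤ slen d f := by
  have h1 := hG.tendsto_slen hd f v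
  refine ge_of_tendsto h1 ?_
  filter_upwards [eventually_ge_atTop 1] with n hn
  have h4 : (0 : ℝ) < n := by exact_mod_cast hn
  rw [le_div_iff₀ h4]
  have := h n hn
  linarith

/-- A periodic chain: the stable length is at least the length of a period up to the errors at the
corners. -/
theorem per (hG : IsomAct G d) (hh : Hyp d δ) (hd : IsGM d) (f : G) (x : ℕ → V) (m a b : ℕ)
    (hm : 1 ≤ m) (hx : ∀ i, x (i + m) = f • x i)
    (hgp : ∀ i, i < m → GpLe d a (x i) (x (i + 1)) (x (i + 2)))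
    (hlen : ∀ i, i < m → b ≤ d (x i) (x (i + 1))) (hb : 2 * a + 2 * δ + 1 ≤ b) :
    ((∑ i ∈ Finset.range m, d (x i) (x (i + 1)) : ℕ) : ℝ) ≤ slen d f + m * (2 * (a + δ)) := by
  have hper : ∀ k i, x (i + k * m) = f ^ k • x i := by
    intro k
    induction k with
    | zero => intro i; simp
    | succ k ih =>
      intro i
      have e : i + (k + 1) * m = (i + k * m) + m := by ring
      rw [e, hx, ih, pow_succ', mul_smul]
  have hdist : ∀ k i j, d (x (i + k * m)) (x (j + k * m)) = d (x i) (x j) := by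
    intro k i j
    rw [hper, hper, hG]
  have hdiv : ∀ i, ∃ k j, j < m ∧ i = j + k * m := fun i =>
    ⟨i / m, i % m, Nat.mod_lt _ (by omega), by
      have := Nat.mod_add_div i m
      rw [mul_comm (i / m) m]
      omega⟩
  have hgp' : ∀ i, GpLe d a (x i) (x (i + 1)) (x (i + 2)) := by
    intro i
    obtain ⟨k, j, hj, rfl⟩ := hdiv i
    have h1 := hgp j hj
    have e1 : j + k * m + 1 = (j + 1) + k * m := by ring
    have e2 : j + k * m + 2 = (j + 2) + k * m := by ring
    unfold GpLe at *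
    rw [e1, e2, hdist, hdist, hdist]
    exact h1
  have hlen' : ∀ i, b ≤ d (x i) (x (i + 1)) := by
    intro i
    obtain ⟨k, j, hj, rfl⟩ := hdiv i
    have e1 : j + k * m + 1 = (j + 1) + k * m := by ring
    rw [e1, hdist]
    exact hlen j hj
  have hsum : ∀ n, ∑ i ∈ Finset.range (n * m), d (x i) (x (i + 1)) =
      n * ∑ i ∈ Finset.range m, d (x i) (x (i + 1)) := by
    intro n
    induction n with
    | zero => simp
    | succ n ih =>
      have e : (n + 1) * m = n * m + m := by ring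
      rw [e, Finset.sum_range_add, ih, add_mul, one_mul]
      congr 1
      refine Finset.sum_congr rfl fun i _ => ?_
      have e1 : n * m + i = i + n * m := by ring
      have e2 : n * m + i + 1 = (i + 1) + n * m := by ring
      rw [e2, e1, hdist]
  have key : ((∑ i ∈ Finset.range m, d (x i) (x (i + 1)) : ℕ) : ℝ) - m * (2 * (a + δ)) ≤
      slen d f := by
    refine le_slen hG hd f (x 0) _ fun n hn => ?_
    have hch : IsChain d (n * m) a b x := by
      refine ⟨fun i h1 _ => ?_, fun i _ _ => hlen' i⟩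
      obtain ⟨j, rfl⟩ : ∃ j, i = j + 1 := ⟨i - 1, by omega⟩
      exact hgp' j
    have hnm : 1 ≤ n * m := Nat.mul_pos hn hm
    have h1 := hch.dist_ge hh hd hb hnm
    rw [hsum] at h1
    have h2 : x (n * m) = f ^ n • x 0 := by
      have := hper n 0
      rwa [Nat.zero_add] at this
    rw [h2] at h1
    have h3 : (n * m - 1) * (2 * (a + δ)) ≤ n * m * (2 * (a + δ)) :=
      Nat.mul_le_mul_right _ (by omega)
    have h4 : n * ∑ i ∈ Finset.range m, d (x i) (x (i + 1)) ≤
        d (x 0) (f ^ n • x 0) + n * m * (2 * (a + δ)) := by omega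
    have h5 : ((n * ∑ i ∈ Finset.range m, d (x i) (x (i + 1)) : ℕ) : ℝ) ≤
        ((d (x 0) (f ^ n • x 0) + n * m * (2 * (a + δ)) : ℕ) : ℝ) := by exact_mod_cast h4
    push_cast at h5 ⊢
    nlinarith
  linarith

/-- A point of the axis of `g` near the axis of `h`. -/
theorem pt (hh : Hyp d δ) (hd : IsGM d) {η C1 : ℕ} {Yg Yh : Set V} (hq : QConv d η Yh)
    {a b a1 a2 b2 : V} (h1 : ∀ z, Bt d a z a1 → z ∈ Yg) (hb : b ∈ Yh) (hb2 : b2 ∈ Yh)
    (hab : d a b ≤ C1) (hab2 : d a2 b2 ≤ C1) (t : ℕ)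
    (ht : 2 * t + d a1 a2 ≤ d a a1 + d a a2) :
    ∃ z ∈ Yg, Bt d a z a1 ∧ d a z = t ∧ ∃ y ∈ Yh, d z y ≤ C1 + η + 12 * δ := by
  have t1 := hd.tri a a1 a2
  have t2 := hd.tri a a2 a1
  have c1 := hd.comm a1 a2
  obtain ⟨z, hz, hz1⟩ := hd.exists_bt a a1 t (by omega)
  obtain ⟨z', hz', hz1'⟩ := hd.exists_bt a a2 t (by omega)
  have h2 := hh.fellow hd hz hz' (by omega) (by omega)
  obtain ⟨w, ⟨y, hy, hwy⟩, hw⟩ := hq.nbhd hh hd C1 a ⟨b, hb, hab⟩ a2 ⟨b2, hb2, hab2⟩ z' hz'
  refine ⟨z, h1 z hz, hz, hz1, y, hy, ?_⟩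
  have t3 := hd.tri z z' y
  have t4 := hd.tri z' w y
  omega

end PROD

open PROD in
theorem PROD : Stmt_PROD := by
  intro δ
  refine ⟨200 * δ + 20, 1000 * δ + 100, ?_⟩
  intro G X _ _ d hd hh hG hne g h Δ ρ hΔ hg hh' hρ
  have := hne
  -- displacements
  have hg1 : slen d g ≤ disp d g := IsomAct.slen_le_disp g
  have hh1 : slen d h ≤ disp d h := IsomAct.slen_le_disp h
  have hgD : 2 * Δ + (1000 * δ + 100) ≤ disp d g := by
    have : (2 * (Δ : ℝ) + ((1000 * δ + 100 : ℕ) : ℝ)) ≤ disp d g := by linarith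
    exact_mod_cast this
  have hhD : 2 * Δ + (1000 * δ + 100) ≤ disp d h := by
    have : (2 * (Δ : ℝ) + ((1000 * δ + 100 : ℕ) : ℝ)) ≤ disp d h := by linarith
    exact_mod_cast this
  have hqg := hG.mn_qconv hh hd (g := g) (by omega)
  have hqh := hG.mn_qconv hh hd (g := h) (by omega)
  -- the nearest pair
  obtain ⟨a, b, ha, hb, hmin⟩ : ∃ a b, a ∈ Mn d g ∧ b ∈ Mn d h ∧
      ∀ a' ∈ Mn d g, ∀ b' ∈ Mn d h, d a b ≤ d a' b' := by
    classical
    have hex : ∃ n, ∃ a b, a ∈ Mn d g ∧ b ∈ Mn d h ∧ d a b = n := by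
      obtain ⟨a, ha⟩ := Mn_nonempty (d := d) g
      obtain ⟨b, hb⟩ := Mn_nonempty (d := d) h
      exact ⟨_, a, b, ha, hb, rfl⟩
    obtain ⟨a, b, ha, hb, hab⟩ := Nat.find_spec hex
    refine ⟨a, b, ha, hb, fun a' ha' b' hb' => ?_⟩
    rw [hab]
    exact Nat.find_min' hex ⟨a', b', ha', hb', rfl⟩
  have hga : g • a ∈ Mn d g := (hG.smul_mem_Mn_of_commute (Commute.refl g) a).2 ha
  have hhb : h • b ∈ Mn d h := (hG.smul_mem_Mn_of_commute (Commute.refl h) b).2 hb
  have ea : d a (g • a) = disp d g := ha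
  have eb : d b (h • b) = disp d h := hb
  have hρ' := hρ a ha b hb
  rcases Nat.lt_or_ge (d a b) (128 * δ + 13) with hlt | hge
  · -- the axes are close
    have ea' : d (g⁻¹ • a) a = disp d g := by
      rw [hG.inv]
      exact ea
    have ea'' : d a (g⁻¹ • a) = disp d g := by
      rw [hd.comm]
      exact ea'
    have hga' : g⁻¹ • a ∈ Mn d g :=
      (hG.smul_mem_Mn_of_commute (Commute.refl g).inv_left a).2 ha
    have hhb' : h⁻¹ • b ∈ Mn d h :=
      (hG.smul_mem_Mn_of_commute (Commute.refl h).inv_left b).2 hb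
    have em : d a (h⁻¹ • a) = d a (h • a) := by
      rw [hd.comm, hG.inv]
    have eM1 : disp d h ≤ d a (h • a) := disp_le h a
    -- `p1` and `p2`
    have t1 := hd.tri (g⁻¹ • a) a (h • a)
    have t2 := hd.tri (h⁻¹ • a) a (g • a)
    have c1 := hd.comm (h⁻¹ • a) a
    have c2 := hd.comm (h⁻¹ • a) (g • a)
    obtain ⟨p1, hp1⟩ : ∃ p1, d (g⁻¹ • a) (h • a) + p1 = disp d g + d a (h • a) :=
      ⟨disp d g + d a (h • a) - d (g⁻¹ • a) (h • a), by omega⟩
    obtain ⟨p2, hp2⟩ : ∃ p2, d (g • a) (h⁻¹ • a) + p2 = disp d g + d a (h • a) :=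
      ⟨disp d g + d a (h • a) - d (g • a) (h⁻¹ • a), by omega⟩
    have hbt1 : ∀ z, Bt d a z (g⁻¹ • a) → z ∈ Mn d g := by
      intro z hz
      have h1 : Bt d a (g • z) (g • a) := by
        have h2 := hG.bt_smul g (x := a) (y := z) (z := g⁻¹ • a)
        rw [smul_inv_smul] at h2
        exact hd.bt_symm (h2.2 hz)
      have h3 := hG.mem_Mn_of_bt hd ha h1
      exact (hG.smul_mem_Mn_of_commute (Commute.refl g) z).1 h3
    have hbt2 : ∀ z, Bt d a z (g • a) → z ∈ Mn d g := fun z hz => hG.mem_Mn_of_bt hd ha hz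
    have hab2 : d (h • a) (h • b) ≤ 128 * δ + 13 := by
      rw [hG]
      omega
    have hab2' : d (h⁻¹ • a) (h⁻¹ • b) ≤ 128 * δ + 13 := by
      rw [hG]
      omega
    have key : ∀ s1 s2 : ℕ, 2 * s1 ≤ p1 → 2 * s2 ≤ p2 → s1 + s2 ≤ Δ + 4 * δ := by
      intro s1 s2 hs1 hs2
      obtain ⟨z1, hz1, hz1a, hz1b, y1, hy1, hzy1⟩ := pt hh hd hqh hbt1 hb hhb (by omega) hab2 s1
        (by omega)
      obtain ⟨z2, hz2, hz2a, hz2b, y2, hy2, hzy2⟩ := pt hh hd hqh hbt2 hb hhb' (by omega) hab2' s2
        (by omega)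
      have h1 := hΔ z1 z2 ⟨z1, hz1, by rw [hd.self]; omega⟩ ⟨z2, hz2, by rw [hd.self]; omega⟩
        ⟨y1, hy1, by omega⟩ ⟨y2, hy2, by omega⟩
      have h2 := hG.gp_of_disp hh hd hga' (by omega)
      have h3 : g ^ 2 • g⁻¹ • a = g • a := by
        rw [smul_smul]
        congr 1
        group
      rw [smul_inv_smul, h3] at h2
      have h4 := hd.tri (g⁻¹ • a) z1 (g • a)
      have h5 := hd.tri z1 z2 (g • a)
      have h6 := hd.comm (g⁻¹ • a) z1
      unfold GpLe at h2
      unfold Bt at hz1a hz2a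
      omega
    have hp : p1 + p2 ≤ 2 * Δ + 8 * δ + 2 := by
      have := key (p1 / 2) (p2 / 2) (by omega) (by omega)
      omega
    -- the orbit of `a`
    set f := g * h with hf
    have e1 : d a (f • a) = d (g⁻¹ • a) (h • a) := by
      rw [hf, mul_smul, hG.inv]
    have e2 : d (g • a) (f • a) = d a (h • a) := by
      rw [hf, mul_smul, hG]
    have e3 : d (f • a) (f • g • a) = disp d g := by
      rw [hG]
      exact ea
    have e4 : d (g • a) (f • g • a) = d (g • a) (h⁻¹ • a) := by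
      have h1 : d (g • a) (f • g • a) = d a (h • g • a) := by
        rw [hf, mul_smul, hG]
      have h2 : d a (h • g • a) = d (h⁻¹ • a) (g • a) := by
        rw [hG.inv]
      rw [h1, h2, hd.comm]
    have e5 : d (f • a) (f • f • a) = d a (f • a) := hG f a (f • a)
    have e6 : d (f • g • a) (f • f • a) = d (g • a) (f • a) := hG f (g • a) (f • a)
    have k1 := hh (f • a) (g • a) a (f • g • a)
    have k2 := hh (f • a) a (f • f • a) (f • g • a)
    have c3 := hd.comm (f • a) a
    have c4 := hd.comm (f • a) (g • a)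
    have c5 := hd.comm (g • a) a
    have c6 := hd.comm (f • f • a) (f • g • a)
    have hgp : GpLe d ((p2 + 1) / 2 + 2 * δ) a (f • a) (f • f • a) := by
      unfold GpLe
      omega
    have h7 := per hG hh hd f (fun i => f ^ i • a) 1 ((p2 + 1) / 2 + 2 * δ) (d a (f • a)) le_rfl
      (fun i => by
        show f ^ (i + 1) • a = f • f ^ i • a
        rw [pow_succ', mul_smul])
      (fun i hi => by
        have hi0 : i = 0 := by omega
        subst hi0
        show GpLe d _ (f ^ 0 • a) (f ^ (0 + 1) • a) (f ^ (0 + 2) • a)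
        have e7 : f ^ (0 + 2) • a = f • f • a := by
          rw [Nat.zero_add, pow_two, mul_smul]
        rw [e7, pow_zero, one_smul, Nat.zero_add, pow_one]
        exact hgp)
      (fun i hi => by
        have hi0 : i = 0 := by omega
        subst hi0
        show d a (f • a) ≤ d (f ^ 0 • a) (f ^ (0 + 1) • a)
        rw [pow_zero, one_smul, Nat.zero_add, pow_one])
      (by omega)
    rw [Finset.sum_range_one, pow_zero, one_smul, Nat.zero_add, pow_one] at h7
    have h8 : disp d g + disp d h ≤ d a (f • a) + p1 := by omega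
    have h9 : 2 * (((p2 + 1) / 2 + 2 * δ) + δ) ≤ p2 + 1 + 6 * δ := by omega
    have h8' : (disp d g : ℝ) + disp d h ≤ d a (f • a) + p1 := by exact_mod_cast h8
    have h9' : (2 : ℝ) * (((p2 + 1) / 2 + 2 * δ : ℕ) + δ) ≤ p2 + 1 + 6 * δ := by exact_mod_cast h9
    have hp' : (p1 : ℝ) + p2 ≤ 2 * Δ + 8 * δ + 2 := by exact_mod_cast hp
    have hρ'' : (ρ : ℝ) ≤ 128 * δ + 13 := by
      have : ρ ≤ 128 * δ + 13 := by omega
      exact_mod_cast this
    have hδ : (0 : ℝ) ≤ δ := Nat.cast_nonneg δ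
    push_cast at h7 h9' ⊢
    nlinarith
  · -- the axes are far from each other
    have q1 : IsProj d (Mn d h) a b := ⟨hb, fun b' hb' => hmin a ha b' hb'⟩
    have q2 : IsProj d (Mn d g) b a := ⟨ha, fun a' ha' => by
      rw [hd.comm b a, hd.comm b a']
      exact hmin a' ha' b hb⟩
    have g1 := q1.gp hh hd hqh hhb
    have g2 := q2.gp hh hd hqg hga
    -- the products at `h b` and `g a`
    have hhinv : h⁻¹ • b ∈ Mn d h :=
      (hG.smul_mem_Mn_of_commute (Commute.refl h).inv_left b).2 hb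
    have hginv : g⁻¹ • a ∈ Mn d g :=
      (hG.smul_mem_Mn_of_commute (Commute.refl g).inv_left a).2 ha
    have g3 := q1.gp hh hd hqh hhinv
    have g4 := q2.gp hh hd hqg hginv
    set f := g * h with hf
    set x : ℕ → X := fun i => f ^ (i / 4) • (if i % 4 = 0 then a else if i % 4 = 1 then g • a
      else if i % 4 = 2 then g • b else g • h • b) with hx
    have x0 : x 0 = a := by simp [hx]
    have x1 : x 1 = g • a := by simp [hx]
    have x2 : x 2 = g • b := by simp [hx]
    have x3 : x 3 = g • h • b := by simp [hx]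
    have hper : ∀ i, x (i + 4) = f • x i := by
      intro i
      simp only [hx]
      have h1 : (i + 4) / 4 = i / 4 + 1 := by omega
      have h2 : (i + 4) % 4 = i % 4 := by omega
      rw [h1, h2, pow_succ', mul_smul]
    have x4 : x 4 = f • a := by
      have := hper 0
      rw [x0] at this
      exact this
    have x5 : x 5 = f • g • a := by
      have := hper 1
      rw [x1] at this
      exact this
    have d01 : d (x 0) (x 1) = disp d g := by rw [x0, x1]; exact ea
    have d12 : d (x 1) (x 2) = d a b := by rw [x1, x2, hG]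
    have d23 : d (x 2) (x 3) = disp d h := by rw [x2, x3, hG]; exact eb
    have d34 : d (x 3) (x 4) = d a b := by
      rw [x3, x4, hf, mul_smul, hG, hG, hd.comm]
    have h7 := per hG hh hd f x 4 (63 * δ + 6) (128 * δ + 13) (by omega) hper
      (fun i hi => by
        have hi4 : i = 0 ∨ i = 1 ∨ i = 2 ∨ i = 3 := by omega
        unfold GpLe at *
        rcases hi4 with rfl | rfl | rfl | rfl
        · rw [Nat.zero_add, Nat.zero_add, x0, x1, x2]
          -- `(g⁻¹ a | b)_a`
          have s1 : d a (g • a) = d (g⁻¹ • a) a := by rw [hG.inv]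
          have s2 : d (g • a) (g • b) = d b a := by rw [hG, hd.comm]
          have s3 : d a (g • b) = d b (g⁻¹ • a) := by
            rw [hd.comm b, hG.inv]
          have s4 := hd.comm (g⁻¹ • a) a
          rw [s2, s3]
          omega
        · show d (x 1) (x 2) + d (x 2) (x 3) ≤ d (x 1) (x 3) + _
          rw [x1, x2, x3, hG, hG, hG]
          omega
        · show d (x 2) (x 3) + d (x 3) (x 4) ≤ d (x 2) (x 4) + _
          have s1 : d (x 2) (x 3) = d (h⁻¹ • b) b := by
            rw [x2, x3, hG, hG.inv]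
          have s2 : d (x 3) (x 4) = d a b := d34
          have s3 : d (x 2) (x 4) = d a (h⁻¹ • b) := by
            rw [x2, x4, hf, mul_smul, hG, hd.comm a, hG.inv]
          have s4 := hd.comm (h⁻¹ • b) b
          rw [s1, s2, s3]
          omega
        · show d (x 3) (x 4) + d (x 4) (x 5) ≤ d (x 3) (x 5) + _
          have s1 : d (x 3) (x 4) = d b a := by rw [d34, hd.comm]
          have s2 : d (x 4) (x 5) = d a (g • a) := by rw [x4, x5, hG]
          have s3 : d (x 3) (x 5) = d b (g • a) := by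
            rw [x3, x5, hf, mul_smul, hG, hG]
          rw [s1, s2, s3]
          omega)
      (fun i hi => by
        have hi4 : i = 0 ∨ i = 1 ∨ i = 2 ∨ i = 3 := by omega
        rcases hi4 with rfl | rfl | rfl | rfl
        · show _ ≤ d (x 0) (x 1)
          omega
        · show _ ≤ d (x 1) (x 2)
          omega
        · show _ ≤ d (x 2) (x 3)
          omega
        · show _ ≤ d (x 3) (x 4)
          omega)
      (by omega)
    have hsum : ∑ i ∈ Finset.range 4, d (x i) (x (i + 1)) = disp d g + d a b + disp d h + d a b := by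
      simp only [Finset.sum_range_succ, Finset.sum_range_zero, Nat.zero_add]
      show d (x 0) (x 1) + d (x 1) (x 2) + d (x 2) (x 3) + d (x 3) (x 4) = _
      rw [d01, d12, d23, d34]
    rw [hsum] at h7
    have hρ'' : (ρ : ℝ) ≤ d a b := by exact_mod_cast hρ'
    have hδ : (0 : ℝ) ≤ δ := Nat.cast_nonneg δ
    have hΔ0 : (0 : ℝ) ≤ Δ := Nat.cast_nonneg Δ
    push_cast at h7 ⊢
    nlinarith

end Pool.Agent.Olsh
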