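import Pool.Agent.Olsh.StmtsC
import Pool.Agent.Olsh.Proj

/-!
# PROJ: nearest point projections to quasi-convex sets
-/

set_option autoImplicit false

namespace Pool.Agent.Olsh

namespace PROJ

variable {V : Type} {d : V → V → ℕ} {δ : ℕ}

theorem isProj {Y : Set V} {v y : V} (h : IsPr d Y v y) : IsProj d Y v y := h

/-- The projection of a point of `[v, v']` is coarsely between the projections of `v`, `v'`. -/
theorem between (hh : Hyp d δ) (hd : IsGM d) {η : ℕ} {Y : Set V} (hY : QConv d η Y)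
    {v y v' y' z p : V} (hy : IsProj d Y v y) (hy' : IsProj d Y v' y') (hp : IsProj d Y z p)
    (hz : Bt d v z v') :
    d y p + d p y' ≤ d y y' + 8 * (4 * δ + η + 1) + 4 * δ := by
  have t1 := hd.tri y y' p
  have t2 := hd.tri p y y'
  have t3 := hd.comm p y'
  have t4 := hd.comm p y
  by_cases h1 : 2 * (4 * δ + η + 1) + δ < d y p
  · by_cases h2 : 2 * (4 * δ + η + 1) + δ < d p y'
    · have h3 := hy.dist_ge hh hd hY hp h1
      have h4 := hp.dist_ge hh hd hY hy' h2
      have h5 := hd.tri v y v'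
      have h6 := hd.tri y y' v'
      unfold Bt at hz
      omega
    · omega
  · omega

end PROJ

open PROJ in
theorem PROJ : Stmt_PROJ := by
  intro δ η
  refine ⟨100 * δ + 20 * η + 100, ?_⟩
  intro V d Y hd hh hY v v' y y' hy hy'
  have hY' : QConv d η Y := hY
  have hyp : IsProj d Y v y := hy
  have hyp' : IsProj d Y v' y' := hy'
  refine ⟨?_, ?_, ?_, ?_, ?_⟩
  · intro z hz
    have h1 := hyp.gp hh hd hY' hz
    unfold GpLe at h1
    omega
  · have h1 := hyp.lip hh hd hY' hyp'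
    omega
  · intro h
    have h1 := hyp.dist_ge hh hd hY' hyp' (by omega)
    omega
  · intro h
    obtain ⟨⟨q, hq, hq'⟩, ⟨q2, hq2, hq2'⟩⟩ := hyp.near hh hd hY' hyp' (by omega)
    exact ⟨⟨q, hq, by omega⟩, ⟨q2, hq2, by omega⟩⟩
  · intro z w z₂ w₂ hz hz₂ hw hw₂
    obtain ⟨p, hp⟩ := exists_proj (d := d) ⟨w, hw⟩ z
    obtain ⟨p₂, hp₂⟩ := exists_proj (d := d) ⟨w, hw⟩ z₂
    have h1 := between hh hd hY' hyp hyp' hp hz
    have h2 := between hh hd hY' hyp hyp' hp₂ hz₂
    have h3 := hp.2 w hw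
    have h4 := hp₂.2 w₂ hw₂
    have h5 := hd.tri z p z₂
    have h6 := hd.tri p p₂ z₂
    have h7 := hd.comm p₂ z₂
    have h8 := hd.tri p y p₂
    have h9 := hd.tri p y' p₂
    have h10 := hd.comm p y
    have h11 := hd.comm p₂ y'
    omega

end Pool.Agent.Olsh
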