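import Pool.Agent.Olsh.StmtsC

set_option autoImplicit false

namespace Pool.Agent.Olsh

namespace QEX

variable {G A : Type} [Group G] [MulAction G A]

/-- The orbit relation of a subgroup. -/
def orb (K : Subgroup G) (A : Type) [MulAction G A] : Setoid A where
  r a b := ∃ k ∈ K, k • a = b
  iseqv :=
    { refl := fun a => ⟨1, K.one_mem, one_smul _ _⟩
      symm := by
        rintro a b ⟨k, hk, rfl⟩
        exact ⟨k⁻¹, K.inv_mem hk, by rw [inv_smul_smul]⟩
      trans := by
        rintro a b c ⟨k, hk, rfl⟩ ⟨l, hl, rfl⟩
        exact ⟨l * k, K.mul_mem hl hk, by rw [mul_smul]⟩ }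

/-- The action of one element on the quotient. -/
def act (K : Subgroup G) [hK : K.Normal] (A : Type) [MulAction G A] (g : G) :
    Quotient (orb K A) → Quotient (orb K A) :=
  Quotient.map' (fun a => g • a) (by
    rintro a b ⟨k, hk, rfl⟩
    refine ⟨g * k * g⁻¹, hK.conj_mem k hk g, ?_⟩
    show (g * k * g⁻¹) • g • a = g • k • a
    rw [← mul_smul, ← mul_smul]
    congr 1
    group)

theorem act_mk (K : Subgroup G) [hK : K.Normal] (g : G) (a : A) :
    act K A g (Quotient.mk (orb K A) a) = Quotient.mk (orb K A) (g • a) := rfl

/-- The homomorphism to permutations of the quotient. -/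
def hom (K : Subgroup G) [hK : K.Normal] (A : Type) [MulAction G A] :
    G →* Equiv.Perm (Quotient (orb K A)) where
  toFun g :=
    { toFun := act K A g
      invFun := act K A g⁻¹
      left_inv := by
        intro x
        induction x using Quotient.inductionOn with
        | h a => rw [act_mk, act_mk, inv_smul_smul]
      right_inv := by
        intro x
        induction x using Quotient.inductionOn with
        | h a => rw [act_mk, act_mk, smul_inv_smul] }
  map_one' := by
    ext x
    induction x using Quotient.inductionOn with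
    | h a =>
      exact (act_mk K 1 a).trans (by rw [one_smul]; rfl)
  map_mul' := by
    intro g h
    ext x
    induction x using Quotient.inductionOn with
    | h a =>
      exact (act_mk K (g * h) a).trans (by rw [mul_smul]; rfl)

theorem hom_ker (K : Subgroup G) [hK : K.Normal] (A : Type) [MulAction G A] (k : G)
    (hk : k ∈ K) : hom K A k = 1 := by
  ext x
  induction x using Quotient.inductionOn with
  | h a =>
    exact (Quotient.sound (s := orb K A) ⟨k, hk, rfl⟩ :
      Quotient.mk (orb K A) a = Quotient.mk (orb K A) (k • a)).symm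

/-- The action of the quotient group. -/
noncomputable def homQ (K : Subgroup G) [hK : K.Normal] (A : Type) [MulAction G A] :
    G ⧸ K →* Equiv.Perm (Quotient (orb K A)) :=
  QuotientGroup.lift K (hom K A) (fun k hk => hom_ker K A k hk)

theorem homQ_mk (K : Subgroup G) [hK : K.Normal] (g : G) (a : A) :
    homQ K A (QuotientGroup.mk' K g) (Quotient.mk (orb K A) a)
      = Quotient.mk (orb K A) (g • a) := rfl

/-- The quotient distance. -/
noncomputable def dq (K : Subgroup G) (d : A → A → ℕ) (x y : Quotient (orb K A)) : ℕ :=
  sInf {n | ∃ a b, Quotient.mk (orb K A) a = x ∧ Quotient.mk (orb K A) b = y ∧ n = d a b}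

end QEX

open QEX in
theorem QEX : Stmt_QEX := by
  intro G A _ _ d K hK _ hI
  refine ⟨G ⧸ K, Quotient (orb K A), inferInstance,
    MulAction.compHom (Quotient (orb K A)) (homQ K A), dq K d, QuotientGroup.mk' K,
    Quotient.mk (orb K A), ?_⟩
  letI : MulAction (G ⧸ K) (Quotient (orb K A)) :=
    MulAction.compHom (Quotient (orb K A)) (homQ K A)
  have hfib : ∀ a b : A, Quotient.mk (orb K A) a = Quotient.mk (orb K A) b ↔
      ∃ k ∈ K, k • a = b := fun a b => Quotient.eq (r := orb K A)
  exact
    { surjG := QuotientGroup.mk'_surjective K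
      ker := fun g => by
        rw [← MonoidHom.mem_ker, QuotientGroup.ker_mk']
      surj := Quotient.mk_surjective
      equiv := fun g a => (homQ_mk K g a).symm
      fib := hfib
      le := fun a b => Nat.sInf_le ⟨a, b, rfl, rfl, rfl⟩
      ex := fun a b => by
        have hne : {n | ∃ a' b', Quotient.mk (orb K A) a' = Quotient.mk (orb K A) a ∧
            Quotient.mk (orb K A) b' = Quotient.mk (orb K A) b ∧ n = d a' b'}.Nonempty :=
          ⟨_, a, b, rfl, rfl, rfl⟩
        obtain ⟨a', b', ha, hb, hn⟩ := Nat.sInf_mem hne
        obtain ⟨k, hk, rfl⟩ := (hfib _ _).1 ha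
        obtain ⟨l, hl, rfl⟩ := (hfib _ _).1 hb.symm
        refine ⟨k * l, K.mul_mem hk hl, ?_⟩
        rw [mul_smul, hI]
        exact hn.symm }

end Pool.Agent.Olsh
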