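import Pool.Agent.Olsh.StmtsC

/-!
# MP_3cdb71_al, Theorem 4.2: the quotient has the same hyperbolicity constant
-/

set_option autoImplicit false

namespace Pool.Agent.Olsh

theorem QHYP (h1 : Stmt_POLY) (h2 : Stmt_QGM) : Stmt_QHYP := by
  intro G A G' A' _ _ _ _ d ap c T0 L δ d' π q hrot hq hyp w x y z
  obtain ⟨hgm', -⟩ := h2 G A G' A' d (KK G ap) d' π q hrot.gm hrot.isom hq
  have hbig := hrot.big
  obtain ⟨a, ha, hd, hcl⟩ := (h1 G A G' A' d ap c T0 L d' π q hrot hq).1 4
    (fun i => if i = 1 then x else if i = 2 then y else if i = 3 then z else w) (by omega)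
    (by simp)
  have q0 : q (a 0) = w := by simpa using ha 0 (by omega)
  have q1 : q (a 1) = x := by simpa using ha 1 (by omega)
  have q2 : q (a 2) = y := by simpa using ha 2 (by omega)
  have q3 : q (a 3) = z := by simpa using ha 3 (by omega)
  have d0 : d (a 0) (a 1) = d' w x := by simpa using hd 0 (by omega)
  have d1 : d (a 1) (a 2) = d' x y := by simpa using hd 1 (by omega)
  have d2 : d (a 2) (a 3) = d' y z := by simpa using hd 2 (by omega)
  have d3 : d (a 3) (a 4) = d' z w := by simpa using hd 3 (by omega)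
  have h := hyp (a 0) (a 1) (a 2) (a 3)
  have e1 := hq.le (a 0) (a 2)
  have e2 := hq.le (a 1) (a 3)
  have e3 := hrot.gm.comm (a 0) (a 3)
  have e4 := hgm'.comm z w
  rw [q0, q2] at e1
  rw [q1, q3] at e2
  rw [hcl] at d3
  rw [d0, d2, e3, d3, d1, e4] at h
  rcases h with h | h
  · left
    omega
  · right
    omega

end Pool.Agent.Olsh
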