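import Pool.Agent.Olsh.StmtsC

/-!
# MP_3cdb71_al: the quotient of a rotating family is a projection structure (Lemma 4.3)
-/

set_option autoImplicit false

namespace Pool.Agent.Olsh

namespace QPS

variable {G A G' A' : Type} [Group G] [MulAction G A] [Group G'] [MulAction G' A']
  {d : A → A → ℕ} {ap : Set A} {c : A → A → A → ℕ} {T0 L : ℕ}
  {d' : A' → A' → ℕ} {π : G →* G'} {q : A → A'}

/-- Stabilisers of apexes are contained in `KK`. -/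
theorem mem_KK {s : A} (hs : s ∈ ap) {k : G} (hk : k • s = s) : k ∈ KK G ap :=
  Subgroup.subset_closure ⟨s, hs, hk⟩

theorem q_smul (Q : IsQuot (KK G ap) d d' π q) {k : G} (hk : k ∈ KK G ap) (a : A) :
    q (k • a) = q a :=
  ((Q.fib a (k • a)).2 ⟨k, hk, rfl⟩).symm

theorem mem_ap (R : IsRot G d ap c T0 L) (Q : IsQuot (KK G ap) d d' π q) {a : A}
    (h : q a ∈ q '' ap) : a ∈ ap := by
  obtain ⟨s, hs, hsa⟩ := h
  obtain ⟨k, -, hk⟩ := (Q.fib s a).1 hsa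
  rw [← hk]
  exact R.ap_smul k s hs

/-- Lifts at minimal distance. -/
theorem lift (Q : IsQuot (KK G ap) d d' π q) (a : A) (b' : A') :
    ∃ b, q b = b' ∧ d a b = d' (q a) b' := by
  obtain ⟨b, hb⟩ := Q.surj b'
  obtain ⟨k, hk, h⟩ := Q.ex a b
  exact ⟨k • b, (q_smul Q hk b).trans hb, by rw [h, hb]⟩

theorem lift_nb (R : IsRot G d ap c T0 L) (hd' : IsGM d')
    (Q : IsQuot (KK G ap) d d' π q) (s : A) (y' : A') (h : d' y' (q s) = 1) :
    ∃ y, q y = y' ∧ d y s = 1 := by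
  obtain ⟨y, hy, hd⟩ := lift Q s y'
  refine ⟨y, hy, ?_⟩
  rw [R.gm.comm, hd, hd'.comm, h]

/-- The injectivity: adjacent pairs at an apex. -/
theorem fixes (R : IsRot G d ap c T0 L) (h2 : Stmt_KFREE) {s : A} (hs : s ∈ ap) {y : A}
    (hy : d y s = 1) {k : G} (hk : k ∈ KK G ap) (h : d (k • y) s = 1) : k • s = s :=
  (h2 G A d ap c T0 L R).2.2 s hs y hy k hk h

/-- All lifts of a triple are translates, up to a rotation. -/
theorem lifts (R : IsRot G d ap c T0 L) (h2 : Stmt_KFREE) (Q : IsQuot (KK G ap) d d' π q)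
    {s : A} (hs : s ∈ ap) {y z : A} (hy : d y s = 1) (hz : d z s = 1) {s1 y1 z1 : A}
    (qs : q s1 = q s) (qy : q y1 = q y) (qz : q z1 = q z) (hy1 : d y1 s1 = 1)
    (hz1 : d z1 s1 = 1) : ∃ r : G, r • s = s ∧ c s1 y1 z1 = c s y (r • z) := by
  obtain ⟨k, hk, hky⟩ := (Q.fib y y1).1 qy.symm
  have e1 : d y (k⁻¹ • s1) = 1 := by
    have := R.isom k y (k⁻¹ • s1)
    rw [smul_inv_smul, hky, hy1] at this
    exact this.symm
  have qs2 : q (k⁻¹ • s1) = q s := (q_smul Q (inv_mem hk) s1).trans qs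
  obtain ⟨m, hm, hms⟩ := (Q.fib s (k⁻¹ • s1)).1 qs2.symm
  have e2 : d (m⁻¹ • y) s = 1 := by
    have := R.isom m⁻¹ y (k⁻¹ • s1)
    rw [← hms, inv_smul_smul, hms, e1] at this
    exact this
  have e3 : m⁻¹ • s = s := fixes R h2 hs hy (inv_mem hm) e2
  have e4 : k⁻¹ • s1 = s := by
    rw [← hms]
    rw [inv_smul_eq_iff] at e3
    exact e3.symm
  have e5 : k • s = s1 := by
    rw [← e4, smul_inv_smul]
  have e6 : d (k⁻¹ • z1) s = 1 := by
    have := R.isom k⁻¹ z1 s1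
    rw [e4, hz1] at this
    exact this
  have qz2 : q (k⁻¹ • z1) = q z := (q_smul Q (inv_mem hk) z1).trans qz
  obtain ⟨r, hr, hrz⟩ := (Q.fib z (k⁻¹ • z1)).1 qz2.symm
  rw [← hrz] at e6
  refine ⟨r, fixes R h2 hs hz hr e6, ?_⟩
  have := R.c_smul k s hs y (r • z) hy e6
  rw [e5, hky, hrz, smul_inv_smul] at this
  rw [this, hrz]

theorem cq_le {s y z : A} (hy : d y s = 1) (hz : d z s = 1) :
    cq d c q (q s) (q y) (q z) ≤ c s y z :=
  Nat.sInf_le ⟨s, y, z, rfl, rfl, rfl, hy, hz, rfl⟩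

theorem cq_le' {s' y' z' : A'} {s y z : A} (qs : q s = s') (qy : q y = y') (qz : q z = z')
    (hy : d y s = 1) (hz : d z s = 1) : cq d c q s' y' z' ≤ c s y z :=
  Nat.sInf_le ⟨s, y, z, qs, qy, qz, hy, hz, rfl⟩

theorem cq_att (R : IsRot G d ap c T0 L) (h2 : Stmt_KFREE) (Q : IsQuot (KK G ap) d d' π q)
    {s : A} (hs : s ∈ ap) {y z : A} (hy : d y s = 1) (hz : d z s = 1) :
    ∃ r : G, r • s = s ∧ cq d c q (q s) (q y) (q z) = c s y (r • z) := by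
  have hne : {n | ∃ s1 y1 z1, q s1 = q s ∧ q y1 = q y ∧ q z1 = q z ∧ d y1 s1 = 1 ∧ d z1 s1 = 1 ∧
      n = c s1 y1 z1}.Nonempty := ⟨_, s, y, z, rfl, rfl, rfl, hy, hz, rfl⟩
  obtain ⟨s1, y1, z1, qs, qy, qz, hy1, hz1, he⟩ := Nat.sInf_mem hne
  obtain ⟨r, hr, h⟩ := lifts R h2 Q hs hy hz qs qy qz hy1 hz1
  exact ⟨r, hr, he.trans h⟩

theorem d_rot (R : IsRot G d ap c T0 L) {s z : A} (hz : d z s = 1) {r : G} (hr : r • s = s) :
    d (r • z) s = 1 := by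
  have := R.isom r z s
  rw [hr, hz] at this
  exact this

theorem csymm_le (R : IsRot G d ap c T0 L) (h2 : Stmt_KFREE) (Q : IsQuot (KK G ap) d d' π q)
    {s : A} (hs : s ∈ ap) {y z : A} (hy : d y s = 1) (hz : d z s = 1) :
    cq d c q (q s) (q z) (q y) ≤ cq d c q (q s) (q y) (q z) := by
  obtain ⟨r, hr, h⟩ := cq_att (c := c) R h2 Q hs hy hz
  rw [h]
  have e1 := d_rot R hz hr
  rw [R.csymm s hs y (r • z) hy e1]
  exact cq_le' rfl (q_smul Q (mem_KK hs hr) z) rfl e1 hy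

theorem ctri (R : IsRot G d ap c T0 L) (h2 : Stmt_KFREE) (Q : IsQuot (KK G ap) d d' π q)
    {s : A} (hs : s ∈ ap) {y z w : A} (hy : d y s = 1) (hz : d z s = 1) (hw : d w s = 1) :
    cq d c q (q s) (q y) (q w) ≤ cq d c q (q s) (q y) (q z) + cq d c q (q s) (q z) (q w) := by
  obtain ⟨r, hr, h⟩ := cq_att (c := c) R h2 Q hs hy hz
  obtain ⟨t, ht, h'⟩ := cq_att (c := c) R h2 Q hs hz hw
  have e1 := d_rot R hz hr
  have e2 := d_rot R hw ht
  have e3 := d_rot R e2 hr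
  have e4 := R.ctri s hs y (r • z) (r • t • w) hy e1 e3
  have e5 := R.c_smul r s hs z (t • w) hz e2
  rw [hr] at e5
  have e6 : cq d c q (q s) (q y) (q w) ≤ c s y (r • t • w) :=
    cq_le' rfl rfl ((q_smul Q (mem_KK hs hr) _).trans (q_smul Q (mem_KK hs ht) w)) hy e3
  omega

theorem cq_smul_le (R : IsRot G d ap c T0 L) (h2 : Stmt_KFREE) (Q : IsQuot (KK G ap) d d' π q)
    {s : A} (hs : s ∈ ap) {y z : A} (hy : d y s = 1) (hz : d z s = 1) (g' : G') :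
    cq d c q (g' • q s) (g' • q y) (g' • q z) ≤ cq d c q (q s) (q y) (q z) := by
  obtain ⟨r, hr, h⟩ := cq_att (c := c) R h2 Q hs hy hz
  obtain ⟨g, rfl⟩ := Q.surjG g'
  have e1 := d_rot R hz hr
  rw [h, ← R.c_smul g s hs y (r • z) hy e1]
  refine cq_le' (Q.equiv g s) (Q.equiv g y) ?_ ?_ ?_
  · rw [Q.equiv, q_smul Q (mem_KK hs hr)]
  · rw [R.isom, hy]
  · rw [R.isom, e1]

theorem free' (R : IsRot G d ap c T0 L) (Q : IsQuot (KK G ap) d d' π q) (g' : G') (v' : A')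
    (h : g' • v' = v') : g' = 1 := by
  obtain ⟨g, rfl⟩ := Q.surjG g'
  obtain ⟨a, rfl⟩ := Q.surj v'
  rw [← Q.equiv] at h
  obtain ⟨k, hk, e⟩ := (Q.fib a (g • a)).1 h.symm
  have e1 : (k⁻¹ * g) • a = a := by
    rw [mul_smul, ← e, inv_smul_smul]
  rw [Q.ker]
  by_cases ha : a ∈ ap
  · have e2 := mem_KK ha e1
    have e3 := mul_mem hk e2
    rwa [mul_inv_cancel_left] at e3
  · have e2 := R.free _ a ha e1
    have e3 : g = k := by
      rw [inv_mul_eq_one] at e2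
      exact e2.symm
    rw [e3]
    exact hk

theorem bgi (R : IsRot G d ap c T0 L) (h3 : Stmt_POLY) (hd' : IsGM d')
    (Q : IsQuot (KK G ap) d d' π q) {s' : A'} (hs' : s' ∈ q '' ap) (a' b' y' z' : A')
    (hy' : y' ∈ Nb d' s' a') (hz' : z' ∈ Nb d' s' b') (h : T0 < cq d c q s' y' z') :
    d' a' b' = d' a' s' + d' s' b' := by
  have hbig := R.big
  let x : ℕ → A' := fun i => match i with
    | 0 => y'
    | 1 => a'
    | 2 => b'
    | 3 => z'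
    | 4 => s'
    | _ => y'
  obtain ⟨α, hq, hd, hc⟩ := (h3 G A G' A' d ap c T0 L d' π q R Q).1 5 x (by omega) rfl
  have q0 : q (α 0) = y' := hq 0 (by norm_num)
  have q1 : q (α 1) = a' := hq 1 (by norm_num)
  have q2 : q (α 2) = b' := hq 2 (by norm_num)
  have q3 : q (α 3) = z' := hq 3 (by norm_num)
  have q4 : q (α 4) = s' := hq 4 (by norm_num)
  have d0 : d (α 0) (α 1) = d' y' a' := hd 0 (by norm_num)
  have d1 : d (α 1) (α 2) = d' a' b' := hd 1 (by norm_num)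
  have d2 : d (α 2) (α 3) = d' b' z' := hd 2 (by norm_num)
  have d3 : d (α 3) (α 4) = d' z' s' := hd 3 (by norm_num)
  have d4 : d (α 4) (α 5) = d' s' y' := hd 4 (by norm_num)
  rw [hc] at d4
  have hs : α 4 ∈ ap := mem_ap R Q (by rw [q4]; exact hs')
  obtain ⟨hy1, hy2⟩ := hy'
  obtain ⟨hz1, hz2⟩ := hz'
  have l1 := Q.le (α 1) (α 4)
  have l2 := Q.le (α 2) (α 4)
  have l3 := Q.le (α 4) (α 2)
  rw [q1, q4] at l1
  rw [q2, q4] at l2
  rw [q4, q2] at l3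
  have c1 := hd'.comm y' a'
  have c2 := hd'.comm s' y'
  have c3 := R.gm.comm (α 0) (α 1)
  have c4 := R.gm.comm (α 4) (α 0)
  have t1 := R.gm.tri (α 1) (α 0) (α 4)
  have t2 := R.gm.tri (α 2) (α 3) (α 4)
  have hy : α 0 ∈ Nb d (α 4) (α 1) := ⟨by omega, by omega⟩
  have hz : α 3 ∈ Nb d (α 4) (α 2) := ⟨by omega, by omega⟩
  have hcq : cq d c q s' y' z' ≤ c (α 4) (α 0) (α 3) := cq_le' q4 q0 q3 hy.1 hz.1
  have hb := R.bgi (α 4) hs (α 1) (α 2) (α 0) (α 3) hy hz (by omega)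
  have t3 := hd'.tri a' s' b'
  omega

theorem isPS (R : IsRot G d ap c T0 L) (h2 : Stmt_KFREE) (h3 : Stmt_POLY) (hd' : IsGM d')
    (Q : IsQuot (KK G ap) d d' π q) : IsPS d' (q '' ap) (cq d c q) T0 where
  gm := hd'
  nadj := by
    rintro _ ⟨s, hs, rfl⟩ _ ⟨t, ht, rfl⟩ h
    obtain ⟨k, hk, e⟩ := Q.ex s t
    exact R.nadj s hs (k • t) (R.ap_smul k t ht) (e.trans h)
  cself := by
    rintro _ ⟨s, hs, rfl⟩ y' hy'
    obtain ⟨y, rfl, hy⟩ := lift_nb R hd' Q s y' hy'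
    have h1 : cq d c q (q s) (q y) (q y) ≤ c s y y := cq_le hy hy
    have h2 := R.cself s hs y hy
    omega
  csymm := by
    rintro _ ⟨s, hs, rfl⟩ y' z' hy' hz'
    obtain ⟨y, rfl, hy⟩ := lift_nb R hd' Q s y' hy'
    obtain ⟨z, rfl, hz⟩ := lift_nb R hd' Q s z' hz'
    exact le_antisymm (csymm_le R h2 Q hs hz hy) (csymm_le R h2 Q hs hy hz)
  ctri := by
    rintro _ ⟨s, hs, rfl⟩ y' z' w' hy' hz' hw'
    obtain ⟨y, rfl, hy⟩ := lift_nb R hd' Q s y' hy'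
    obtain ⟨z, rfl, hz⟩ := lift_nb R hd' Q s z' hz'
    obtain ⟨w, rfl, hw⟩ := lift_nb R hd' Q s w' hw'
    exact ctri R h2 Q hs hy hz hw
  bgi := fun s' hs' a' b' y' z' hy' hz' h => bgi R h3 hd' Q hs' a' b' y' z' hy' hz' h

theorem nb_dir (hd' : IsGM d') (Q : IsQuot (KK G ap) d d' π q) {s a : A}
    (h : d a s = d' (q a) (q s)) {y : A} (hy : y ∈ Nb d s a) : q y ∈ Nb d' (q s) (q a) := by
  obtain ⟨h1, h2⟩ := hy
  have l1 := Q.le y s
  have l2 := Q.le a y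
  have t := hd'.tri (q a) (q y) (q s)
  exact ⟨by omega, by omega⟩

theorem ang_le (R : IsRot G d ap c T0 L) (h1 : Stmt_PSA) (h2 : Stmt_KFREE) (h3 : Stmt_POLY)
    (hd' : IsGM d') (Q : IsQuot (KK G ap) d d' π q) {s : A} (hs : s ∈ ap) {a b : A}
    (ha : d a s = d' (q a) (q s)) (hb : d b s = d' (q b) (q s)) :
    ang d' (cq d c q) (q s) (q a) (q b) ≤ ang d c s a b + 2 * T0 := by
  have P := isPS R h2 h3 hd' Q
  have hs' : q s ∈ q '' ap := ⟨s, hs, rfl⟩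
  obtain ⟨u1, u2, -⟩ := h1 A d ap c T0 R.toIsPS s hs
  obtain ⟨-, v2, v3, -, -, v6, v7, -⟩ := h1 A' d' (q '' ap) (cq d c q) T0 P (q s) hs'
  by_cases has : a = s
  · rw [has, (v7 (q b)).1]
    exact Nat.zero_le _
  by_cases hbs : b = s
  · rw [hbs, (v7 (q a)).2]
    exact Nat.zero_le _
  have ha' : q a ≠ q s := by
    intro e
    rw [e, hd'.self] at ha
    exact has (R.gm.eq_of_zero ha)
  have hb' : q b ≠ q s := by
    intro e
    rw [e, hd'.self] at hb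
    exact hbs (R.gm.eq_of_zero hb)
  obtain ⟨y', hy', z', hz', he⟩ := v3 (q a) (q b) ha' hb'
  obtain ⟨y, hy⟩ := u1 a has
  obtain ⟨z, hz⟩ := u1 b hbs
  have qy := nb_dir hd' Q ha hy
  have qz := nb_dir hd' Q hb hz
  have e1 := v2 (q a) (q a) y' (q y) hy' qy
  have e2 := v6 (q a)
  have e3 := v2 (q b) (q b) (q z) z' qz hz'
  have e4 := v6 (q b)
  have e5 := u2 a b y z hy hz
  have e6 : cq d c q (q s) (q y) (q z) ≤ c s y z := cq_le hy.1 hz.1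
  have e7 := P.ctri (q s) hs' y' (q y) z' hy'.1 qy.1 hz'.1
  have e8 := P.ctri (q s) hs' (q y) (q z) z' qy.1 qz.1 hz'.1
  omega

end QPS

/-- Lemma 4.3. -/
theorem QPS (h1 : Stmt_PSA) (h2 : Stmt_KFREE) (h3 : Stmt_POLY) (h4 : Stmt_QGM) : Stmt_QPS := by
  intro G A G' A' _ _ _ _ d ap c T0 L d' π q R Q
  obtain ⟨hd', hiso'⟩ := h4 G A G' A' d (KK G ap) d' π q R.gm R.isom Q
  refine ⟨QPS.isPS R h2 h3 hd' Q, fun g v h => QPS.free' R Q g v h, ?_, ?_,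
    fun a h => QPS.mem_ap R Q h, ?_, ?_, ?_⟩
  · rintro g' _ ⟨s, hs, rfl⟩
    obtain ⟨g, rfl⟩ := Q.surjG g'
    exact ⟨g • s, R.ap_smul g s hs, Q.equiv g s⟩
  · rintro g' _ ⟨s, hs, rfl⟩ y' z' hy' hz'
    obtain ⟨y, rfl, hy⟩ := QPS.lift_nb R hd' Q s y' hy'
    obtain ⟨z, rfl, hz⟩ := QPS.lift_nb R hd' Q s z' hz'
    refine le_antisymm (QPS.cq_smul_le R h2 Q hs hy hz g') ?_
    obtain ⟨g, rfl⟩ := Q.surjG g'
    have hy2 : d (g • y) (g • s) = 1 := by rw [R.isom, hy]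
    have hz2 : d (g • z) (g • s) = 1 := by rw [R.isom, hz]
    have := QPS.cq_smul_le (c := c) R h2 Q (R.ap_smul g s hs) hy2 hz2 (π g)⁻¹
    rw [Q.equiv, Q.equiv, Q.equiv, inv_smul_smul, inv_smul_smul, inv_smul_smul] at this
    exact this
  · intro s hs y y' hy hy'
    exact ⟨QPS.cq_le hy hy', QPS.cq_att R h2 Q hs hy hy'⟩
  · intro s hs a ha y hy
    exact QPS.nb_dir hd' Q ha hy
  · intro s hs a b ha hb
    exact QPS.ang_le R h1 h2 h3 hd' Q hs ha hb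

end Pool.Agent.Olsh
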