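import Pool.Agent.Olsh.StmtsP

/-!
# MP_3cdb71_al, module TRANSFER: the invariants pass to the quotient with the same constants
-/

set_option autoImplicit false

namespace Pool.Agent.Olsh

namespace TRANSFER

/-- The complete situation is monotone in the lower bound of the scale. -/
theorem lq_mono {G G' X S A' : Type} [Group G] [MulAction G X] [MulAction G S]
    [Group G'] [MulAction G' A'] {d : X → X → ℕ} {u L : ℕ} {Y : S → Set X} {η η1 C : ℕ}
    {d' : A' → A' → ℕ} {π : G →* G'} {q : X ⊕ S → A'} {a0 L0 : ℕ} {CP : ℕ → ℕ} {M0 U U' : ℕ}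
    (h : LQ G G' d u L Y η η1 C d' π q a0 L0 CP M0 U) (hU : U' ≤ U) :
    LQ G G' d u L Y η η1 C d' π q a0 L0 CP M0 U' where
  toConeQ := h.toConeQ
  lev := h.lev
  hu := hU.trans h.hu
  hL := (Nat.mul_le_mul_right u hU).trans h.hL
  heta := h.heta

end TRANSFER

open TRANSFER in
theorem TRANSFER (h1 : Stmt_QGM) (h2 : Stmt_QHYP) (h3 : Stmt_QPS) (h4 : Stmt_LOXQ)
    (h5 : Stmt_GWA) (h6 : Stmt_CSAQ) (h7 : Stmt_PMQ) : Stmt_TRANSFER := by
  intro η η1 C
  obtain ⟨A1, F, hF⟩ := h5 η η1 C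
  obtain ⟨A2, hA2⟩ := h6 η η1 C
  obtain ⟨CQ, hCQ⟩ := h7 η η1 C
  refine ⟨max A1 A2, F, CQ, ?_⟩
  intro a0 L0 hA hFL M0
  obtain ⟨U1, hU1⟩ := h4 η η1 C a0 L0 CQ M0
  obtain ⟨U2, hU2⟩ := hF a0 L0 CQ M0 ((le_max_left _ _).trans hA)
  obtain ⟨U3, hU3⟩ := hA2 a0 L0 CQ M0 ((le_max_right _ _).trans hA)
  obtain ⟨U4, hU4⟩ := hCQ a0 L0 CQ M0
  refine ⟨U1 + U2 + U3 + U4, ?_⟩
  intro G G' X S A' _ _ _ _ _ d u L Y d' π q hq
  have k1 := lq_mono hq (U' := U1) (by omega)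
  have k2 := lq_mono hq (U' := U2) (by omega)
  have k3 := lq_mono hq (U' := U3) (by omega)
  have k4 := lq_mono hq (U' := U4) (by omega)
  have hrot := hq.rotc
  have hquot := hq.quot
  have hgm := h1 G (X ⊕ S) G' A' (cd d u Y) (KK G (apx X S)) d' π q hrot.gm hrot.isom hquot
  have hps := h3 G (X ⊕ S) G' A' (cd d u Y) (apx X S) (cdX d) (C * u) L d' π q hrot hquot
  exact
    { gm := hgm.1
      hyp := h2 G (X ⊕ S) G' A' (cd d u Y) (apx X S) (cdX d) (C * u) L dl d' π q hrot hquot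
        hq.conep.hypc
      isom := hgm.2
      free := hps.2.1
      ne := hq.lev.ne.map fun x => q (Sum.inl x)
      lox := hU1 G G' X S A' d u L Y d' π q k1
      wa := fun g h p r e1 e2 e3 e4 e5 =>
        hU2 G G' X S A' d u L Y d' π q k2 a0 g h p r e1 e2 e3 e4 (hFL.trans e5)
      csa := hU3 G G' X S A' d u L Y d' π q k3
      pm := fun m hm1 hm2 x v hx => hU4 G G' X S A' d u L Y d' π q k4 m hm1 hm2 x v hx }

end Pool.Agent.Olsh
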