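import Pool.Agent.Olsh.ALC
import Pool.Agent.Olsh.ANGX
import Pool.Agent.Olsh.BEAX
import Pool.Agent.Olsh.CHAIN
import Pool.Agent.Olsh.CLASS
import Pool.Agent.Olsh.CLLL
import Pool.Agent.Olsh.CLLS
import Pool.Agent.Olsh.CLSL
import Pool.Agent.Olsh.CLSS
import Pool.Agent.Olsh.CONEA
import Pool.Agent.Olsh.CONEGM
import Pool.Agent.Olsh.CONEISO
import Pool.Agent.Olsh.CONEPS
import Pool.Agent.Olsh.CONEROT
import Pool.Agent.Olsh.CSAQ
import Pool.Agent.Olsh.ConeAll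
import Pool.Agent.Olsh.DICH
import Pool.Agent.Olsh.FINE
import Pool.Agent.Olsh.GWA
import Pool.Agent.Olsh.GX
import Pool.Agent.Olsh.GY
import Pool.Agent.Olsh.IP
import Pool.Agent.Olsh.ISO
import Pool.Agent.Olsh.KFREE
import Pool.Agent.Olsh.LAM
import Pool.Agent.Olsh.LEN
import Pool.Agent.Olsh.LOXQ
import Pool.Agent.Olsh.LT
import Pool.Agent.Olsh.LTB
import Pool.Agent.Olsh.MALN
import Pool.Agent.Olsh.NGON
import Pool.Agent.Olsh.NU1
import Pool.Agent.Olsh.OV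
import Pool.Agent.Olsh.OVAX
import Pool.Agent.Olsh.PMQ
import Pool.Agent.Olsh.POLY
import Pool.Agent.Olsh.PROD
import Pool.Agent.Olsh.PROJ
import Pool.Agent.Olsh.PSA
import Pool.Agent.Olsh.QEX
import Pool.Agent.Olsh.QGM
import Pool.Agent.Olsh.QHYP
import Pool.Agent.Olsh.QPS
import Pool.Agent.Olsh.TADD
import Pool.Agent.Olsh.TR
import Pool.Agent.Olsh.TRANSFER
import Pool.Agent.Olsh.TYPES

/-! Closed forms of the modules of MP_3cdb71_al (sections 1-8).  Generated by helper92. -/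

set_option autoImplicit false

namespace Pool.Agent.Olsh.Closed

open Pool.Agent.Olsh

theorem cPSA : Stmt_PSA := PSA 

theorem cCHAIN : Stmt_CHAIN := CHAIN cPSA

theorem cALC : Stmt_ALC := ALC cPSA cCHAIN

theorem cPROJ : Stmt_PROJ := PROJ 

theorem cANGX : Stmt_ANGX := ANGX cPSA cPROJ

theorem cIP : Stmt_IP := IP cPSA cCHAIN

theorem cKFREE : Stmt_KFREE := KFREE cPSA cIP

theorem cQGM : Stmt_QGM := QGM 

theorem cPOLY : Stmt_POLY := POLY cPSA cIP cQGM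

theorem cQPS : Stmt_QPS := QPS cPSA cKFREE cPOLY cQGM

theorem cISO : Stmt_ISO := ISO cPSA cIP

theorem cCONEGM : Stmt_CONEGM := CONEGM 

theorem cLEN : Stmt_LEN := LEN cPSA cCONEGM

theorem cBEAX : Stmt_BEAX := BEAX cPSA cQPS cISO cPOLY cPROJ cLEN cCONEGM cQGM

theorem cDICH : Stmt_DICH := DICH cPSA cQPS cANGX cQGM

theorem cTYPES : Stmt_TYPES := TYPES cPSA cQPS cQGM cDICH cLEN

theorem cQHYP : Stmt_QHYP := QHYP cPOLY cQGM

theorem cNU1 : Stmt_NU1 := NU1 cTYPES cALC cBEAX cQPS cQGM cQHYP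

theorem cTADD : Stmt_TADD := TADD 

theorem cMALN : Stmt_MALN := MALN cTADD

theorem cOV : Stmt_OV := OVmain cMALN

theorem cOVAX : Stmt_OVAX := OVAX cOV

theorem cPROD : Stmt_PROD := PROD 

theorem cGX : Stmt_GX := GX cOVAX cMALN cPROD

theorem cGY : Stmt_GY := GY cOVAX cMALN cPROD

theorem cCLLL : Stmt_CLLL := CLLL cGX cGY

theorem cFINE : Stmt_FINE := FINE cPSA cPOLY cQPS cANGX cKFREE

theorem cLOXQ : Stmt_LOXQ := LOXQ cTYPES cALC cBEAX cQPS cQGM cQHYP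

theorem cLTB : Stmt_LTB := LTB cPSA cCHAIN cQPS cQGM cFINE cBEAX cLOXQ

theorem cTR : Stmt_TR := TR cPSA cIP

theorem cNGON : Stmt_NGON := NGON 

theorem cLAM : Stmt_LAM := LAM cPSA cPROJ cNGON cCONEGM

theorem cCONEA : Stmt_CONEA := CONEA cCONEGM

theorem cLT : Stmt_LT := LT cLTB cDICH cTR cLAM cFINE cCONEA cLEN cPROJ cQGM cQHYP cCONEGM cQPS cPSA

theorem cCLLS : Stmt_CLLS := CLLS cGX cLT cCONEGM

theorem cCLSL : Stmt_CLSL := CLSL cGY cLT cCONEGM cQGM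

theorem cCLSS : Stmt_CLSS := CLSS cPSA cCHAIN cLT cFINE cDICH cLEN cQPS cQGM cCONEGM

theorem cCLASS : Stmt_CLASS := CLASS cNU1 cCLLL cCLLS cCLSL cCLSS

theorem cCONEISO : Stmt_CONEISO := CONEISO 

theorem cCONEPS : Stmt_CONEPS := CONEPS cPROJ cCONEGM cCONEA

theorem cCONEQ : Stmt_CONEQ := CONEQ cCONEA cKFREE

theorem cCONEROT : Stmt_CONEROT := CONEROT cCONEISO cCONEGM

theorem cGWA : Stmt_GWA := GWA cPSA cQPS cQGM cQHYP cDICH cTR cLAM cOV cCONEGM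

theorem cCSAQ : Stmt_CSAQ := CSAQ cGWA cLOXQ cQGM cQHYP

theorem cPMQ : Stmt_PMQ := PMQ cTYPES cALC cLT cQPS cQGM cQHYP

theorem cQEX : Stmt_QEX := QEX 

theorem cTRANSFER : Stmt_TRANSFER := TRANSFER cQGM cQHYP cQPS cLOXQ cGWA cCSAQ cPMQ

end Pool.Agent.Olsh.Closed
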