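import Pool.Agent.Olsh.StmtsP

/-!
# MP_3cdb71_al, module ALC: apexes with large angles (6.6 (al) of `H92.md`)
-/

set_option autoImplicit false
set_option maxHeartbeats 200000

open Filter Topology

namespace Pool.Agent.Olsh

namespace ALC

variable {G A : Type} [Group G] [MulAction G A] {d : A → A → ℕ} {ap : Set A}
  {c : A → A → A → ℕ}

theorem smul_mem_Nb (hI : IsomAct G d) (g : G) {s a y : A} (hy : y ∈ Nb d s a) :
    g • y ∈ Nb d (g • s) (g • a) := by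
  obtain ⟨h1, h2⟩ := hy
  exact ⟨by rw [hI]; exact h1, by rw [hI, hI]; exact h2⟩

theorem smul_mem_Nb_iff (hI : IsomAct G d) (g : G) {s a y : A} :
    y ∈ Nb d (g • s) (g • a) ↔ ∃ y' ∈ Nb d s a, y = g • y' := by
  constructor
  · intro hy
    refine ⟨g⁻¹ • y, ?_, (smul_inv_smul g y).symm⟩
    have := smul_mem_Nb hI g⁻¹ hy
    rwa [inv_smul_smul, inv_smul_smul] at this
  · rintro ⟨y', hy', rfl⟩
    exact smul_mem_Nb hI g hy'

theorem ang_smul (hI : IsomAct G d)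
    (hc : ∀ (g : G), ∀ s ∈ ap, ∀ y y', d y s = 1 → d y' s = 1 →
      c (g • s) (g • y) (g • y') = c s y y') (g : G) {s : A} (hs : s ∈ ap) (a b : A) :
    ang d c (g • s) (g • a) (g • b) = ang d c s a b := by
  unfold ang
  congr 1
  ext n
  constructor
  · rintro ⟨y, hy, y', hy', rfl⟩
    obtain ⟨z, hz, rfl⟩ := (smul_mem_Nb_iff hI g).1 hy
    obtain ⟨z', hz', rfl⟩ := (smul_mem_Nb_iff hI g).1 hy'
    exact ⟨z, hz, z', hz', hc g s hs z z' hz.1 hz'.1⟩
  · rintro ⟨y, hy, y', hy', rfl⟩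
    exact ⟨g • y, smul_mem_Nb hI g hy, g • y', smul_mem_Nb hI g hy',
      (hc g s hs y y' hy.1 hy'.1).symm⟩

end ALC

open ALC in
theorem ALC (h1 : Stmt_PSA) (h2 : Stmt_CHAIN) : Stmt_ALC := by
  intro G A _ _ d ap c T0 hPS hI hap hc x t ht hbig
  have H := h1 A d ap c T0 hPS
  have hta : ∀ j : ℤ, x ^ j • t ∈ ap := fun j => hap _ t ht
  have step : ∀ j : ℤ, 20 * T0 < ang d c (x ^ j • t) (x ^ (j - 1) • t) (x ^ (j + 1) • t) := by
    intro j
    have e := ang_smul hI hc (x ^ j) ht (x⁻¹ • t) (x • t)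
    rw [smul_smul, smul_smul] at e
    have e1 : x ^ j * x⁻¹ = x ^ (j - 1) := by rw [zpow_sub_one]
    have e2 : x ^ j * x = x ^ (j + 1) := by rw [zpow_add_one]
    rw [e1, e2] at e
    rw [e]
    exact hbig
  have dstep : ∀ j : ℤ, d (x ^ j • t) (x ^ (j + 1) • t) = d t (x • t) := by
    intro j
    rw [zpow_add_one, mul_smul, hI]
  -- chains
  have chain : ∀ (i0 : ℤ) (m : ℕ), (∀ i : ℕ, i < m →
      Nb d (x ^ (i0 + (i + 1 : ℕ)) • t) (x ^ (i0 + (m + 1 : ℕ)) • t) =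
        Nb d (x ^ (i0 + (i + 1 : ℕ)) • t) (x ^ (i0 + (i + 2 : ℕ)) • t) ∧
      Nb d (x ^ (i0 + (i + 1 : ℕ)) • t) (x ^ (i0 + (0 : ℕ)) • t) =
        Nb d (x ^ (i0 + (i + 1 : ℕ)) • t) (x ^ (i0 + (i : ℕ)) • t)) ∧
      d (x ^ (i0 + (0 : ℕ)) • t) (x ^ (i0 + (m + 1 : ℕ)) • t) = (m + 1) * d t (x • t) := by
    intro i0 m
    have := h2 A d ap c T0 hPS m (fun k => x ^ (i0 + (k : ℕ)) • t) (by
      intro i hi
      refine ⟨hta _, ?_⟩
      have h := step (i0 + (i + 1 : ℕ))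
      have e1 : i0 + ((i + 1 : ℕ) : ℤ) - 1 = i0 + (i : ℕ) := by push_cast; ring
      have e2 : i0 + ((i + 1 : ℕ) : ℤ) + 1 = i0 + (i + 2 : ℕ) := by push_cast; ring
      rw [e1, e2] at h
      show 2 * T0 < ang d c (x ^ (i0 + ((i + 1 : ℕ) : ℤ)) • t) (x ^ (i0 + ((i : ℕ) : ℤ)) • t)
        (x ^ (i0 + ((i + 2 : ℕ) : ℤ)) • t)
      omega)
    obtain ⟨hA, hB⟩ := this
    refine ⟨fun i hi => ⟨(hA i hi).1, (hA i hi).2.1⟩, ?_⟩
    have hB' : d (x ^ (i0 + (0 : ℕ)) • t) (x ^ (i0 + (m + 1 : ℕ)) • t) =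
      ∑ i ∈ Finset.range (m + 1), d (x ^ (i0 + (i : ℕ)) • t) (x ^ (i0 + (i + 1 : ℕ)) • t) := hB
    rw [hB', Finset.sum_congr rfl (fun i _ => (by
      have e : i0 + ((i + 1 : ℕ) : ℤ) = i0 + (i : ℕ) + 1 := by push_cast; ring
      rw [e, dstep] :
        d (x ^ (i0 + (i : ℕ)) • t) (x ^ (i0 + (i + 1 : ℕ)) • t) = d t (x • t)))]
    rw [Finset.sum_const, Finset.card_range, smul_eq_mul]
  have dist1 : ∀ n : ℕ, d t (x ^ n • t) = n * d t (x • t) := by
    intro n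
    rcases n with _ | n
    · rw [pow_zero, one_smul, hPS.gm.self, zero_mul]
    · have := (chain 0 n).2
      rw [zero_add, zero_add] at this
      have e0 : x ^ (((0 : ℕ) : ℤ)) • t = t := by simp
      have e1 : x ^ (((n + 1 : ℕ) : ℤ)) • t = x ^ (n + 1) • t := by rw [zpow_natCast]
      rw [e0, e1] at this
      rw [this]
  have D2 : 2 ≤ d t (x • t) := by
    obtain ⟨-, -, -, -, -, -, -, h8, -, -, -⟩ := H t ht
    have hne := (h8 _ _ (by omega : T0 < ang d c t (x⁻¹ • t) (x • t))).2.2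
    have h0 : d t (x • t) ≠ 0 := fun h => hne (hPS.gm.eq_of_zero h).symm
    have h1' := hPS.nadj t ht (x • t) (hap x t ht)
    omega
  have hslen : slen d x = d t (x • t) := by
    have hl := hI.tendsto_slen hPS.gm x t
    have hc' : Tendsto (fun n : ℕ => (d t (x ^ n • t) : ℝ) / n) atTop (𝓝 ((d t (x • t) : ℕ) : ℝ)) := by
      refine Tendsto.congr' ?_ tendsto_const_nhds
      filter_upwards [eventually_ge_atTop 1] with n hn
      rw [dist1 n]
      have : (n : ℝ) ≠ 0 := by positivity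
      push_cast
      field_simp
    exact tendsto_nhds_unique hl hc'
  refine ⟨dist1, hslen, D2, ?_⟩
  intro m hm v
  -- the set J
  set J : Set ℤ := {j : ℤ | 8 * T0 < ang d c (x ^ j • t) v (x ^ (j + 1) • t)} with hJ
  have hstep : ∀ j : ℤ, j ∈ J → 20 * T0 < ang d c (x ^ (j + 1) • t) v (x ^ (j + 1 + 1) • t) := by
    intro j hj
    have hj' : 8 * T0 < ang d c (x ^ j • t) v (x ^ (j + 1) • t) := hj
    obtain ⟨-, -, -, -, -, -, -, h8, -, -, -⟩ := H _ (hta j)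
    obtain ⟨-, -, -, -, -, -, -, -, h9, -, -⟩ := H _ (hta (j + 1))
    have hne := (h8 _ _ (by omega : T0 < ang d c (x ^ j • t) v (x ^ (j + 1) • t))).2.2
    have := (h9 _ (hta j) hne.symm v (by omega)).2.1 (x ^ (j + 1 + 1) • t)
    rw [this]
    have h := step (j + 1)
    rwa [add_sub_cancel_right] at h
  -- nonempty
  have hne : ∃ j, j ∈ J := by
    set n : ℕ := d t v with hn
    refine ⟨((n + 1 : ℕ) : ℤ), ?_⟩
    have hc0 := (chain 0 (n + 1)).1 n (by omega)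
    have hd0 := dist1 (n + 1)
    rw [zero_add, zero_add, zero_add, zero_add] at hc0
    have e0 : x ^ (((0 : ℕ) : ℤ)) • t = t := by simp
    rw [e0] at hc0
    have hlt : d t v < d t (x ^ ((n + 1 : ℕ) : ℤ) • t) := by
      rw [zpow_natCast, hd0]
      nlinarith
    obtain ⟨-, -, -, h4, h5, -, -, -, -, -, h11⟩ := H _ (hta ((n + 1 : ℕ) : ℤ))
    have ha := h11 t v hlt
    have hcong : ang d c (x ^ ((n + 1 : ℕ) : ℤ) • t) t v =
        ang d c (x ^ ((n + 1 : ℕ) : ℤ) • t) (x ^ ((n : ℕ) : ℤ) • t) v := by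
      unfold ang
      rw [hc0.2]
    rw [hcong] at ha
    have hvne : v ≠ x ^ ((n + 1 : ℕ) : ℤ) • t := by
      intro h
      rw [← h] at hlt
      exact lt_irrefl _ hlt
    have htri := h5 (x ^ ((n : ℕ) : ℤ) • t) v (x ^ (((n + 1 : ℕ) : ℤ) + 1) • t) hvne
    have hst := step ((n + 1 : ℕ) : ℤ)
    have e3 : (((n + 1 : ℕ) : ℤ) - 1) = ((n : ℕ) : ℤ) := by push_cast; ring
    rw [e3] at hst
    show 8 * T0 < ang d c (x ^ ((n + 1 : ℕ) : ℤ) • t) v (x ^ (((n + 1 : ℕ) : ℤ) + 1) • t)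
    omega
  -- bounded below
  have hbd : ∀ j : ℤ, j ∈ J → -((d t v : ℤ) + 2) ≤ j := by
    intro j hj
    by_contra hlt
    push Not at hlt
    obtain ⟨k, hk⟩ : ∃ k : ℕ, j + 1 + (k + 1 : ℕ) = 0 := by
      refine ⟨(-j - 2).toNat, ?_⟩
      have : (((-j - 2).toNat : ℕ) : ℤ) = -j - 2 := Int.toNat_of_nonneg (by omega)
      push_cast
      rw [this]
      ring
    -- chain starting from j - 1, p 1 = t_j, p (k + 3) = t_0
    have hc0 := (chain (j - 1) (k + 2)).1 0 (by omega)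
    have e1 : j - 1 + ((0 + 1 : ℕ) : ℤ) = j := by push_cast; ring
    have e2 : j - 1 + ((k + 2 + 1 : ℕ) : ℤ) = 0 := by push_cast at hk ⊢; linarith
    have e3 : j - 1 + ((0 + 2 : ℕ) : ℤ) = j + 1 := by push_cast; ring
    rw [e1, e2, e3, zpow_zero, one_smul] at hc0
    have hd0 := (chain j (k + 1)).2
    have e4 : j + ((0 : ℕ) : ℤ) = j := by simp
    have e5 : j + ((k + 1 + 1 : ℕ) : ℤ) = 0 := by push_cast at hk ⊢; linarith
    rw [e4, e5, zpow_zero, one_smul] at hd0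
    have hlt2 : d t v < d t (x ^ j • t) := by
      rw [hPS.gm.comm t (x ^ j • t), hd0]
      have : (d t v : ℤ) < k + 1 := by push_cast at hk; linarith
      have : d t v < k + 1 := by exact_mod_cast this
      push_cast
      nlinarith
    obtain ⟨-, -, -, h4, -, -, -, -, -, -, h11⟩ := H _ (hta j)
    have ha := h11 t v hlt2
    have hcong : ang d c (x ^ j • t) t v = ang d c (x ^ j • t) (x ^ (j + 1) • t) v := by
      unfold ang
      rw [hc0.1]
    rw [hcong, h4] at ha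
    have hj' : 8 * T0 < ang d c (x ^ j • t) v (x ^ (j + 1) • t) := hj
    omega
  -- the minimum
  obtain ⟨j0, hj0, hmin⟩ : ∃ j0 ∈ J, ∀ j ∈ J, j0 ≤ j := by
    obtain ⟨j0, h1, h2⟩ := Int.exists_least_of_bdd (P := fun j => j ∈ J) ⟨_, hbd⟩ hne
    exact ⟨j0, h1, h2⟩
  have hup : ∀ k : ℕ, j0 + k ∈ J := by
    intro k
    induction k with
    | zero => simpa using hj0
    | succ k ih =>
      have := hstep _ ih
      show 8 * T0 < ang d c (x ^ (j0 + ((k + 1 : ℕ) : ℤ)) • t) v (x ^ (j0 + ((k + 1 : ℕ) : ℤ) + 1) • t)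
      have e : j0 + ((k + 1 : ℕ) : ℤ) = j0 + k + 1 := by push_cast; ring
      rw [e]
      omega
  obtain ⟨m', rfl⟩ : ∃ m', m = m' + 2 := ⟨m - 2, by omega⟩
  have hA := hstep _ (hup m')
  have hB : ang d c (x ^ (j0 + m' + 1) • t) (x ^ (m' + 2) • v) (x ^ (j0 + m' + 1 + 1) • t) ≤ 8 * T0 := by
    by_contra hcon
    push Not at hcon
    have e := ang_smul hI hc (x ^ (m' + 2)) (hta (j0 - 1)) v (x ^ (j0 - 1 + 1) • t)
    have e1 : x ^ (m' + 2) • x ^ (j0 - 1) • t = x ^ (j0 + m' + 1) • t := by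
      rw [smul_smul, ← zpow_natCast, ← zpow_add]
      congr 2
      push_cast
      ring
    have e2 : x ^ (m' + 2) • x ^ (j0 - 1 + 1) • t = x ^ (j0 + m' + 1 + 1) • t := by
      rw [smul_smul, ← zpow_natCast, ← zpow_add]
      congr 2
      push_cast
      ring
    rw [e1, e2] at e
    rw [e] at hcon
    have : j0 - 1 ∈ J := hcon
    have := hmin _ this
    omega
  refine ⟨j0 + m' + 1, ?_⟩
  obtain ⟨-, -, -, h4, h5, -, -, h8, -, -, -⟩ := H _ (hta (j0 + m' + 1))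
  by_cases hv : x ^ (m' + 2) • v = x ^ (j0 + m' + 1) • t
  · rw [← hv, hPS.gm.self, add_zero]
  · have htri := h5 v (x ^ (m' + 2) • v) (x ^ (j0 + m' + 1 + 1) • t) hv
    exact (h8 v (x ^ (m' + 2) • v) (by omega)).1.symm

end Pool.Agent.Olsh
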