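import Pool.Agent.Olsh.Iso

/-!
# Axes of isometries of large displacement (T5)
-/

set_option autoImplicit false

open Filter Topology

namespace Pool.Agent.Olsh

variable {V : Type} {d : V → V → ℕ} {δ : ℕ}

/-- A point with small Gromov product is near every geodesic, with the same parameter. -/
theorem Hyp.near_of_gp' (hh : Hyp d δ) (hd : IsGM d) {x y z : V} {a : ℕ} (h : GpLe d a x y z) :
    ∃ k, k ≤ d x z ∧ ∀ q, Bt d x q z → d x q = k → d y q ≤ a + 2 * δ + 1 := by
  obtain ⟨k, hk1, hk2⟩ : ∃ k, k ≤ d x z ∧ (2 * k + d y z = d x z + d x y ∨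
      2 * k + d y z + 1 = d x z + d x y) := by
    have h1 := hd.tri x z y
    have h2 := hd.comm y z
    have h3 := hd.tri y x z
    have h4 := hd.comm x y
    exact ⟨(d x z + d x y - d y z) / 2, by omega, by omega⟩
  refine ⟨k, hk1, fun q hq hq' => ?_⟩
  have h1 := hh.dist_bt (w := y) hq hd
  have h2 := hd.comm x y
  unfold GpLe at h
  unfold Bt at hq
  omega

/-- CHAIN (5): the points of the geodesic are near the edges of the chain. -/
theorem IsChain.cover (hh : Hyp d δ) (hd : IsGM d) {n a b : ℕ} {x : ℕ → V}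
    (h : IsChain d n a b x) (hb : 2 * a + 3 * δ + 1 ≤ b) (hn : 1 ≤ n) {z : V}
    (hz : Bt d (x 0) z (x n)) :
    ∃ i, i < n ∧ ∃ z', Bt d (x i) z' (x (i + 1)) ∧ d z z' ≤ a + 12 * δ + 1 := by
  have hs := hh.slim hd
  obtain ⟨p, hp0, hpn, hp, hpz⟩ := hd.exists_geo_through hz
  have hsD : d (x 0) z ≤ d (x 0) (x n) := by
    unfold Bt at hz
    omega
  have hnear : ∀ i, i ≤ n → ∃ k, k ≤ d (x 0) (x n) ∧ d (x i) (p k) ≤ a + 4 * δ + 1 := by
    intro i hi
    obtain ⟨k, hk, hk'⟩ := hh.near_of_gp' hd (h.gp_ends hh hd hb i hi)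
    refine ⟨k, hk, ?_⟩
    have h1 := hp.bt (Nat.zero_le k) hk le_rfl
    rw [hp0, hpn] at h1
    have h2 := hp 0 k (Nat.zero_le _) hk
    rw [hp0] at h2
    have := hk' (p k) h1 (by omega)
    omega
  by_cases hP : ∃ k, k ≤ d (x 0) z ∧ d (x n) (p k) ≤ a + 4 * δ + 1
  · obtain ⟨k, hk, hk'⟩ := hP
    refine ⟨n - 1, by omega, x n, ?_, ?_⟩
    · have e : n - 1 + 1 = n := by omega
      rw [e]
      exact hd.bt_right _ _
    · have h1 := hp k (d (x 0) (x n)) (by omega) le_rfl
      rw [hpn] at h1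
      have h2 := hd.comm (x n) (p k)
      unfold Bt at hz
      omega
  · obtain ⟨i, hi, ⟨k, hk, hk'⟩, hi2⟩ := exists_switch n
      (fun i => ∃ k, k ≤ d (x 0) z ∧ d (x i) (p k) ≤ a + 4 * δ + 1)
      ⟨0, Nat.zero_le _, by rw [hp0, hd.self]; omega⟩ hP
    obtain ⟨k2, hk2, hk2'⟩ := hnear (i + 1) (by omega)
    have hlt : d (x 0) z < k2 := by
      by_contra hcon
      exact hi2 ⟨k2, by omega, hk2'⟩
    have hbt : Bt d (p k) z (p k2) := by
      have := hp.bt hk hlt.le hk2
      rwa [hpz] at this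
    refine ⟨i, hi, ?_⟩
    obtain ⟨u, hu, hzu⟩ := hs _ _ (x i) z hbt
    have c1 := hd.comm (x i) (p k)
    have c2 := hd.comm (x (i + 1)) (p k2)
    rcases hu with hu | hu
    · refine ⟨x i, hd.bt_left _ _, ?_⟩
      have := hd.tri z u (x i)
      unfold Bt at hu
      omega
    · obtain ⟨v, hv, huv⟩ := hs _ _ (x (i + 1)) u hu
      have h3 := hd.tri z u v
      rcases hv with hv | hv
      · exact ⟨v, hv, by omega⟩
      · refine ⟨x (i + 1), hd.bt_right _ _, ?_⟩
        have h4 := hd.tri z v (x (i + 1))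
        have h5 := hd.comm (x (i + 1)) v
        unfold Bt at hv
        omega

variable {G : Type} [Group G] [MulAction G V]

/-- The orbit axis: the union of the geodesics between consecutive points of the orbit of `v`. -/
def OAx (d : V → V → ℕ) (g : G) (v : V) : Set V :=
  {z | ∃ i : ℤ, Bt d (g ^ i • v) z (g ^ (i + 1) • v)}

namespace IsomAct

theorem bt_smul (hG : IsomAct G d) (g : G) {x y z : V} :
    Bt d (g • x) (g • y) (g • z) ↔ Bt d x y z := by
  unfold Bt
  rw [hG, hG, hG]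

theorem dist_zpow (hG : IsomAct G d) (g : G) (v : V) (i j : ℤ) :
    d (g ^ i • v) (g ^ (i + j) • v) = d v (g ^ j • v) := by
  rw [zpow_add, mul_smul, hG]

theorem smul_mem_OAx (hG : IsomAct G d) (g : G) (v z : V) : g • z ∈ OAx d g v ↔ z ∈ OAx d g v := by
  constructor
  · rintro ⟨i, hi⟩
    refine ⟨i - 1, ?_⟩
    have e1 : g ^ i • v = g • g ^ (i - 1) • v := by
      rw [smul_smul, ← zpow_one_add]
      congr 2
      ring
    have e2 : g ^ (i + 1) • v = g • g ^ (i - 1 + 1) • v := by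
      rw [smul_smul, ← zpow_one_add]
      congr 2
      ring
    rw [e1, e2, hG.bt_smul] at hi
    exact hi
  · rintro ⟨i, hi⟩
    refine ⟨i + 1, ?_⟩
    have e1 : g ^ (i + 1) • v = g • g ^ i • v := by
      rw [smul_smul, ← zpow_one_add]
      congr 2
      ring
    have e2 : g ^ (i + 1 + 1) • v = g • g ^ (i + 1) • v := by
      rw [smul_smul, ← zpow_one_add]
      congr 2
      ring
    rw [e2, e1, hG.bt_smul, ← e1]
    exact hi

theorem pow_mem_Mn (hG : IsomAct G d) {g : G} {v : V} (hv : v ∈ Mn d g) (i : ℤ) :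
    g ^ i • v ∈ Mn d g :=
  (hG.smul_mem_Mn_of_commute ((Commute.refl g).zpow_left i) v).2 hv

theorem OAx_subset_Mn (hG : IsomAct G d) (hd : IsGM d) {g : G} {v : V} (hv : v ∈ Mn d g) :
    OAx d g v ⊆ Mn d g := by
  rintro z ⟨i, hi⟩
  refine hG.mem_Mn_of_bt hd (hG.pow_mem_Mn hv i) ?_
  rw [smul_smul, ← zpow_one_add, add_comm 1 i]
  exact hi

theorem self_mem_OAx (hd : IsGM d) (g : G) (v : V) : v ∈ OAx d g v := by
  refine ⟨0, ?_⟩
  rw [zpow_zero, one_smul]
  exact hd.bt_left _ _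

/-- Half of the quasi-convexity of the orbit axis. -/
theorem oax_qconv_aux (hG : IsomAct G d) (hh : Hyp d δ) (hd : IsGM d) {g : G} {v : V}
    (hv : v ∈ Mn d g) (hL : 7 * δ + 2 ≤ disp d g) {y y' z : V} {i j : ℤ} (hij : i ≤ j)
    (hy : Bt d (g ^ i • v) y (g ^ (i + 1) • v)) (hy' : Bt d (g ^ j • v) y' (g ^ (j + 1) • v))
    (hz : Bt d y z y') : ∃ y'' ∈ OAx d g v, d z y'' ≤ 14 * δ + 1 := by
  rcases eq_or_lt_of_le hij with h0 | h0
  · -- the same edge
    subst h0
    obtain ⟨u, hu, hzu⟩ := hh.slim hd _ _ (g ^ i • v) z hz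
    refine ⟨u, ⟨i, ?_⟩, by omega⟩
    rcases hu with hu | hu
    · exact hd.bt_trans hy (hd.bt_symm hu)
    · exact hd.bt_trans hy' hu
  · obtain ⟨m, rfl⟩ : ∃ m : ℕ, j = i + (m + 1) := ⟨(j - i - 1).toNat, by omega⟩
    -- the chain `y, g^(i+1) v, ..., g^j v, y'`
    let x : ℕ → V := fun k => if k = 0 then y else if k = m + 2 then y' else g ^ (i + k) • v
    have hx0 : x 0 = y := by simp [x]
    have hxl : x (m + 2) = y' := by simp [x]
    have hxk : ∀ k, 1 ≤ k → k ≤ m + 1 → x k = g ^ (i + k) • v := by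
      intro k h1 h2
      simp only [x]
      rw [if_neg (by omega), if_neg (by omega)]
    -- Gromov products along the orbit
    have horb : ∀ k : ℤ, GpLe d (2 * δ) (g ^ k • v) (g ^ (k + 1) • v) (g ^ (k + 2) • v) := by
      intro k
      have h1 := hG.gp_of_disp hh hd hv (by omega)
      have e1 := hG (g ^ k) v (g • v)
      have e2 := hG (g ^ k) (g • v) (g ^ 2 • v)
      have e3 := hG (g ^ k) v (g ^ 2 • v)
      have k1 : g ^ k • g • v = g ^ (k + 1) • v := by rw [smul_smul, ← zpow_add_one]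
      have k2 : g ^ k • g ^ 2 • v = g ^ (k + 2) • v := by
        rw [smul_smul, zpow_add, zpow_ofNat]
      rw [k1] at e1 e2
      rw [k2] at e2 e3
      unfold GpLe at *
      omega
    have hchain : IsChain d (m + 2) (2 * δ) (disp d g) x := by
      constructor
      · intro k h1 h2
        have hk := horb (i + (k : ℤ) - 1)
        have e1 : i + (k : ℤ) - 1 + 1 = i + k := by ring
        have e2 : i + (k : ℤ) - 1 + 2 = i + k + 1 := by ring
        rw [e1, e2] at hk
        rw [hxk k h1 (by omega)]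
        -- left neighbour
        have hl : ∃ l, Bt d (g ^ (i + (k : ℤ) - 1) • v) l (g ^ (i + (k : ℤ)) • v) ∧
            x (k - 1) = l := by
          rcases Nat.eq_or_lt_of_le h1 with h3 | h3
          · subst h3
            refine ⟨y, ?_, by simpa using hx0⟩
            have e3 : i + ((1 : ℕ) : ℤ) - 1 = i := by push_cast; ring
            have e4 : i + ((1 : ℕ) : ℤ) = i + 1 := by push_cast; ring
            rw [e3, e4]
            exact hy
          · refine ⟨_, hd.bt_left _ _, ?_⟩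
            rw [hxk (k - 1) (by omega) (by omega)]
            have e3 : i + ((k - 1 : ℕ) : ℤ) = i + k - 1 := by
              have : ((k - 1 : ℕ) : ℤ) = (k : ℤ) - 1 := by
                rw [Nat.cast_sub h1]
                simp
              rw [this]
              ring
            rw [e3]
        have hr : ∃ r, Bt d (g ^ (i + (k : ℤ)) • v) r (g ^ (i + (k : ℤ) + 1) • v) ∧
            x (k + 1) = r := by
          rcases Nat.eq_or_lt_of_le (show k + 1 ≤ m + 2 by omega) with h3 | h3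
          · have h4 : k = m + 1 := by omega
            subst h4
            refine ⟨y', ?_, by simpa using hxl⟩
            have e3 : i + ((m + 1 : ℕ) : ℤ) = i + ((m : ℤ) + 1) := by push_cast; ring
            rw [e3]
            exact hy'
          · refine ⟨_, hd.bt_right _ _, ?_⟩
            rw [hxk (k + 1) (by omega) (by omega)]
            have e3 : i + ((k + 1 : ℕ) : ℤ) = i + k + 1 := by push_cast; ring
            rw [e3]
        obtain ⟨l, hl1, hl2⟩ := hl
        obtain ⟨r, hr1, hr2⟩ := hr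
        rw [hl2, hr2]
        have t1 := hd.tri (g ^ (i + (k : ℤ) - 1) • v) l r
        have t2 := hd.tri (g ^ (i + (k : ℤ) - 1) • v) r (g ^ (i + (k : ℤ) + 1) • v)
        unfold GpLe Bt at *
        omega
      · intro k h1 h2
        rw [hxk k h1 (by omega), hxk (k + 1) (by omega) (by omega)]
        have e3 : i + ((k + 1 : ℕ) : ℤ) = i + k + 1 := by push_cast; ring
        rw [e3, hG.dist_zpow, zpow_one]
        exact disp_le g v
    have hz' : Bt d (x 0) z (x (m + 2)) := by rw [hx0, hxl]; exact hz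
    obtain ⟨k, hk, z', hz1, hz2⟩ := hchain.cover hh hd (by omega) (by omega) hz'
    refine ⟨z', ⟨i + k, ?_⟩, by omega⟩
    rcases Nat.eq_zero_or_pos k with h3 | h3
    · subst h3
      rw [hx0, hxk (0 + 1) (by omega) (by omega)] at hz1
      have e3 : i + ((0 + 1 : ℕ) : ℤ) = i + 1 := by push_cast; ring
      rw [e3] at hz1
      have e4 : i + ((0 : ℕ) : ℤ) = i := by push_cast; ring
      rw [e4]
      exact hd.bt_symm (hd.bt_trans (hd.bt_symm hy) (hd.bt_symm hz1))
    · rw [hxk k h3 (by omega)] at hz1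
      rcases Nat.eq_or_lt_of_le (show k + 1 ≤ m + 2 by omega) with h4 | h4
      · rw [h4, hxl] at hz1
        have h5 : k = m + 1 := by omega
        subst h5
        have e3 : i + ((m + 1 : ℕ) : ℤ) = i + ((m : ℤ) + 1) := by push_cast; ring
        rw [e3] at hz1 ⊢
        exact hd.bt_trans hy' hz1
      · rw [hxk (k + 1) (by omega) (by omega)] at hz1
        have e3 : i + ((k + 1 : ℕ) : ℤ) = i + k + 1 := by push_cast; ring
        rw [e3] at hz1
        exact hz1

/-- T5 (4): the orbit axis is quasi-convex. -/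
theorem oax_qconv (hG : IsomAct G d) (hh : Hyp d δ) (hd : IsGM d) {g : G} {v : V}
    (hv : v ∈ Mn d g) (hL : 7 * δ + 2 ≤ disp d g) : QConv d (14 * δ + 1) (OAx d g v) := by
  rintro y ⟨i, hi⟩ y' ⟨j, hj⟩ z hz
  rcases le_total i j with h | h
  · exact hG.oax_qconv_aux hh hd hv hL h hi hj hz
  · exact hG.oax_qconv_aux hh hd hv hL h hj hi (hd.bt_symm hz)

theorem isProj_smul (hG : IsomAct G d) {g : G} {Y : Set V} (hY : ∀ z, g • z ∈ Y ↔ z ∈ Y) {z y : V}
    (hy : IsProj d Y z y) : IsProj d Y (g • z) (g • y) := by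
  refine ⟨(hY y).2 hy.1, fun y' hy' => ?_⟩
  rw [hG]
  have h1 : g⁻¹ • y' ∈ Y := by
    rw [← hY, smul_inv_smul]
    exact hy'
  have h2 := hy.2 _ h1
  have h3 := hG g z (g⁻¹ • y')
  rw [smul_inv_smul] at h3
  omega

/-- T5 (5): displacement of the points far from the axis. -/
theorem dist_ge_of_proj (hG : IsomAct G d) (hh : Hyp d δ) (hd : IsGM d) {g : G} {v z y : V}
    (hv : v ∈ Mn d g) (hL : 37 * δ + 5 ≤ disp d g) (hy : IsProj d (OAx d g v) z y) :
    2 * d z y + disp d g ≤ d z (g • z) + (74 * δ + 8) := by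
  have hq := hG.oax_qconv hh hd hv (by omega)
  have h1 : d y (g • y) = disp d g := hG.OAx_subset_Mn hd hv hy.1
  have hgy : IsProj d (OAx d g v) (g • z) (g • y) :=
    hG.isProj_smul (fun z => hG.smul_mem_OAx g v z) hy
  have h2 := hy.dist_ge hh hd hq hgy (by omega)
  have h3 := hG g y z
  have h4 := hd.comm z y
  omega

/-- T5 (6): points of almost minimal displacement are near the axis. -/
theorem near_oax (hG : IsomAct G d) (hh : Hyp d δ) (hd : IsGM d) {g : G} {v : V}
    (hv : v ∈ Mn d g) (hL : 37 * δ + 5 ≤ disp d g) (z : V) :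
    ∃ y ∈ OAx d g v, 2 * d z y + disp d g ≤ d z (g • z) + (74 * δ + 8) := by
  obtain ⟨y, hy⟩ := exists_proj (d := d) (Y := OAx d g v) ⟨v, self_mem_OAx hd g v⟩ z
  exact ⟨y, hy.1, hG.dist_ge_of_proj hh hd hv hL hy⟩

/-- T5 (7): the minimal set is quasi-convex. -/
theorem mn_qconv (hG : IsomAct G d) (hh : Hyp d δ) (hd : IsGM d) {g : G}
    (hL : 37 * δ + 5 ≤ disp d g) : QConv d (59 * δ + 5) (Mn d g) := by
  intro y hy y' hy' z hz
  have hq := (hG.oax_qconv hh hd hy (by omega)).nbhd hh hd (37 * δ + 4)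
  have key : ∀ w ∈ Mn d g, w ∈ {x | ∃ u ∈ OAx d g y, d x u ≤ 37 * δ + 4} := by
    intro w hw
    obtain ⟨u, hu, hu'⟩ := hG.near_oax hh hd hy hL w
    have h1 : d w (g • w) = disp d g := hw
    exact ⟨u, hu, by omega⟩
  obtain ⟨u, ⟨u', hu', hu''⟩, hzu⟩ := hq y (key y hy) y' (key y' hy') z hz
  refine ⟨u', hG.OAx_subset_Mn hd hy hu', ?_⟩
  have := hd.tri z u u'
  omega

/-- T5 (8): displacement in terms of the distance to the minimal set. -/
theorem near_mn (hG : IsomAct G d) (hh : Hyp d δ) (hd : IsGM d) {g : G} [Nonempty V]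
    (hL : 37 * δ + 5 ≤ disp d g) (z : V) :
    ∃ y ∈ Mn d g, 2 * d z y + disp d g ≤ d z (g • z) + (74 * δ + 8) := by
  obtain ⟨v, hv⟩ := Mn_nonempty (d := d) g
  obtain ⟨y, hy, hy'⟩ := hG.near_oax hh hd hv hL z
  exact ⟨y, hG.OAx_subset_Mn hd hv hy, hy'⟩

end IsomAct

end Pool.Agent.Olsh
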