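import Pool.Agent.Olsh.StmtsG
import Pool.Agent.Olsh.Axis

/-!
# MP_3cdb71_al: module ANGO
-/

set_option autoImplicit false

namespace Pool.Agent.Olsh

theorem ANGO (h1 : Stmt_PROJ) (h2 : Stmt_PSA) (h3 : Stmt_CONEGM) : Stmt_ANGO := by
  intro η η1 C
  obtain ⟨CP, hCP⟩ := h1 dl η
  refine ⟨CP + 59 * dl + 5, 2 * C + CP, ?_⟩
  intro X S d u Y hP M hM s E hE v hv w hw
  have hd : IsGM d := hP.gm
  have hone : 1 ≤ u := hP.one_le
  obtain ⟨-, hadj, -⟩ := h3 X S d u Y hd hone hP.ne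
  obtain ⟨-, -, hang, -⟩ := h2 _ _ _ _ _ hP.ps (Sum.inr s) ⟨s, rfl⟩
  obtain ⟨y, hy, y', hy', he⟩ := hang (Sum.inl v) (Sum.inl w) (by simp) (by simp)
  have hea : angC d u Y s v w = cdX d (Sum.inr s) y y' := he.symm
  rw [hea]
  have hya : coneAdj d u Y y (Sum.inr s) := (hadj _ _).1 hy.1
  have hya' : coneAdj d u Y y' (Sum.inr s) := (hadj _ _).1 hy'.1
  match y, y', hy, hy', hya, hya' with
  | Sum.inr _, _, _, _, h, _ => exact absurd h (by simp [coneAdj])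
  | _, Sum.inr _, _, _, _, h => exact absurd h (by simp [coneAdj])
  | Sum.inl y0, Sum.inl y0', hy, hy', hya, hya' =>
    change d y0 y0' ≤ _
    obtain ⟨pr, hpr⟩ := exists_proj (d := d) (hP.ne s) v
    obtain ⟨pr', hpr'⟩ := exists_proj (d := d) (hP.ne s) w
    have hn1 : d y0 pr ≤ C * u := hP.near s (Sum.inl v) v y0 pr rfl hpr hy
    have hn2 : d y0' pr' ≤ C * u := hP.near s (Sum.inl w) w y0' pr' rfl hpr' hy'
    have hkey : d pr pr' ≤ E + CP := by
      by_contra hcon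
      obtain ⟨-, -, -, hcl, -⟩ := hCP X d (Y s) hd hP.hyp (hP.qc s) v w pr pr' hpr hpr'
      obtain ⟨⟨z, hz, hz1⟩, z', hz', hz1'⟩ := hcl (by omega)
      obtain ⟨m, hm, hm1⟩ := hM v hv w hw z hz
      obtain ⟨m', hm', hm1'⟩ := hM v hv w hw z' hz'
      have t1 := hd.tri pr z m
      have t2 := hd.tri pr' z' m'
      have hs1 : d pr pr = 0 := hd.self pr
      have hs2 : d pr' pr' = 0 := hd.self pr'
      have := hE pr pr' ⟨m, hm, by omega⟩ ⟨m', hm', by omega⟩ ⟨pr, hpr.1, by omega⟩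
        ⟨pr', hpr'.1, by omega⟩
      omega
    have t1 := hd.tri y0 pr y0'
    have t2 := hd.tri pr pr' y0'
    have t3 := hd.comm y0' pr'
    have h5 : CP ≤ CP * u := Nat.le_mul_of_pos_right _ hone
    have h6 : (2 * C + CP) * u = C * u + C * u + CP * u := by ring
    omega

end Pool.Agent.Olsh
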