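import Pool.Agent.Olsh.DefsE

/-!
# MP_3cdb71_al: statements of the modules for section 8 of `H92.md` (direct analysis)
-/

set_option autoImplicit false

namespace Pool.Agent.Olsh

/-! ### Exponents -/

/-- ESEQ: existence of the exponent sequence. -/
def Stmt_ESEQ : Prop := ∀ C : ℕ, ∃ N : ℕ, ∀ n0, N ≤ n0 → ∀ h, 12 ∣ h → 12 ≤ h → h ≤ C * n0 →
  ∃ nn : ℕ → ℕ, IsExp h n0 nn

/-! ### Geometry of one block system -/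

/-- EDISP: the block generator `s_k c s_k⁻¹` moves all points of the edge `[s_k o, s_(k+1) o]` by
at most `1.3 |c|`. -/
def Stmt_EDISP : Prop := ∀ (δ : ℕ) (G X : Type) [Group G] [MulAction G X] (d : X → X → ℕ) (h : ℕ)
  (c : G) (t : ℕ → G) (o : X) (nn : ℕ → ℕ), IsGM d → Hyp d δ → IsomAct G d →
  IsBS G d (1000 * (δ + 1)) h c t o → ∀ (k : ℕ) (z : X),
  Bt d (bs c t nn k • o) z (bs c t nn (k + 1) • o) → 10 * d z (bc c t nn k • z) ≤ 13 * disp d c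

/-- EGP: the Gromov products of the chain `s_k o` are at most `11 |c|`, consecutive block
generators do not commute. -/
def Stmt_EGP : Prop := ∀ (δ L1 : ℕ) (G X : Type) [Group G] [MulAction G X] (d : X → X → ℕ)
  (h n0 : ℕ) (c : G) (t : ℕ → G) (o : X) (nn : ℕ → ℕ), IsGM d → Hyp d δ → IsomAct G d →
  IsCSA G → OV G d L1 → IsBS G d (1000 * (δ + L1 + 1)) h c t o → 1000 ≤ n0 →
  (∀ i, n0 ≤ nn i) → ∀ k : ℕ,
    GpLe d (11 * disp d c) (bs c t nn k • o) (bs c t nn (k + 1) • o) (bs c t nn (k + 2) • o) ∧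
    ¬ Commute (bc c t nn k) (bc c t nn (k + 1)) ∧ bc c t nn k ≠ 1

/-- ELEN: lengths of the edges. -/
def Stmt_ELEN : Prop := ∀ (δ : ℕ) (G X : Type) [Group G] [MulAction G X] (d : X → X → ℕ) (h : ℕ)
  (c : G) (t : ℕ → G) (o : X) (nn : ℕ → ℕ), IsGM d → Hyp d δ → IsomAct G d →
  IsBS G d (1000 * (δ + 1)) h c t o → (100 * (disp d c : ℝ) ≤ 101 * slen d c) ∧ ∀ k : ℕ,
  (nn k : ℝ) * slen d c ≤ d (bs c t nn k • o) (bs c t nn (k + 1) • o) + (disp d c : ℝ) / 5 ∧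
  (d (bs c t nn k • o) (bs c t nn (k + 1) • o) : ℝ) ≤ nn k * slen d c + (disp d c : ℝ) / 5

/-- EPER: the partial products and the relator. -/
def Stmt_EPER : Prop := ∀ (G : Type) [Group G] (h : ℕ) (c : G) (t : ℕ → G) (nn : ℕ → ℕ),
  (∀ i, t (i + (h + 1)) = t i) → (∀ i, nn (i + (h + 1)) = nn i) → ∀ k m : ℕ,
    bs c t nn (k + m * (h + 1)) = rel c t nn h ^ m * bs c t nn k

/-- EREL: the relator `R` is loxodromic with long stable length; the path and the minimal set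
of `R` are close to each other. -/
def Stmt_EREL : Prop := ∀ (δ L1 : ℕ) (G X : Type) [Group G] [MulAction G X] (d : X → X → ℕ)
  (h n0 : ℕ) (c : G) (t : ℕ → G) (o : X) (nn : ℕ → ℕ), IsGM d → Hyp d δ → IsomAct G d →
  IsCSA G → OV G d L1 → IsBS G d (1000 * (δ + L1 + 1)) h c t o → 1000 ≤ n0 → 12 ≤ h →
  IsExp h n0 nn →
  ((h + 1 : ℝ) * (n0 * slen d c - 24 * disp d c) ≤ slen d (rel c t nn h)) ∧
  (∀ z ∈ Mn d (rel c t nn h), ∃ (r k : ℕ) (z' : X),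
    Bt d (bs c t nn k • o) z' (bs c t nn (k + 1) • o) ∧
    d (rel c t nn h ^ r • z) z' ≤ 12 * disp d c) ∧
  (∀ (k : ℕ) (z : X), Bt d (bs c t nn k • o) z (bs c t nn (k + 1) • o) →
    ∃ y ∈ Mn d (rel c t nn h), d z y ≤ 13 * disp d c)

/-! ### Tracks -/

/-- ETRK: positions of the vertices of a chain on a geodesic. -/
def Stmt_ETRK : Prop := ∀ (δ : ℕ) (X : Type) (d : X → X → ℕ) (m A b D : ℕ) (v P : ℕ → X),
  IsGM d → Hyp d δ → 1 ≤ m → IsChain d m A b v → 4 * A + 20 * δ + 10 ≤ b → IsGeo d D P →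
  P 0 = v 0 → P D = v m → ∃ x : ℕ → ℕ, x 0 = 0 ∧ x m = D ∧ (∀ i, i ≤ m → x i ≤ D) ∧
    (∀ i, i < m → x i ≤ x (i + 1)) ∧ (∀ i, i ≤ m → d (v i) (P (x i)) ≤ A + 4 * δ + 1) ∧
    (∀ i, 1 ≤ i → i + 1 < m → d (v i) (v (i + 1)) ≤ (x (i + 1) - x i) + 2 * (A + 4 * δ + 1) ∧
      (x (i + 1) - x i) ≤ d (v i) (v (i + 1)) + 2 * (A + 4 * δ + 1)) ∧
    ∀ i, i < m → ∀ s, x i + (A + 12 * δ + 2) ≤ s → s + (A + 12 * δ + 2) ≤ x (i + 1) →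
      ∃ z', Bt d (v i) z' (v (i + 1)) ∧ d (P s) z' ≤ 8 * δ

/-- ETRA: the track of a block system on a geodesic whose end points are near the path, in the
increasing direction. -/
def Stmt_ETRA : Prop := ∀ (δ L1 : ℕ) (G X : Type) [Group G] [MulAction G X] (d : X → X → ℕ)
  (h n0 : ℕ) (c : G) (t : ℕ → G) (o : X) (nn : ℕ → ℕ), IsGM d → Hyp d δ → IsomAct G d →
  IsCSA G → OV G d L1 → IsBS G d (1000 * (δ + L1 + 1)) h c t o → 1000 ≤ n0 →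
  (∀ i, n0 ≤ nn i) → (∀ i, nn i ≤ 2 * n0) → ∀ (P : ℕ → X) (D k1 k2 : ℕ) (z1 z2 : X),
  IsGeo d D P → Bt d (bs c t nn k1 • o) z1 (bs c t nn (k1 + 1) • o) →
  Bt d (bs c t nn k2 • o) z2 (bs c t nn (k2 + 1) • o) → d (P 0) z1 ≤ 13 * disp d c →
  d (P D) z2 ≤ 13 * disp d c → 10 * (n0 * disp d c) ≤ D → k1 ≤ k2 →
  k1 + 2 ≤ k2 ∧ ∃ x : ℕ → ℕ,
    IsTrack d P D (k2 - (k1 + 1)) (disp d c) x (fun i => bc c t nn (k1 + 1 + i)) ∧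
    x 0 ≤ 3 * (n0 * disp d c) ∧ D ≤ x (k2 - (k1 + 1)) + 3 * (n0 * disp d c) ∧
    (∀ i, i ≤ k2 - (k1 + 1) → d (P (x i)) (bs c t nn (k1 + 1 + i) • o) ≤ 25 * disp d c) ∧
    (∀ i, i < k2 - (k1 + 1) →
      (nn (k1 + 1 + i) : ℝ) * slen d c ≤ (x (i + 1) : ℝ) - x i + 49 * disp d c ∧
      (x (i + 1) : ℝ) - x i ≤ nn (k1 + 1 + i) * slen d c + 49 * disp d c) ∧
    ∀ i, i < k2 - (k1 + 1) → ∀ s, x i + 25 * disp d c ≤ s → s + 25 * disp d c ≤ x (i + 1) →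
      ∃ z', Bt d (bs c t nn (k1 + 1 + i) • o) z' (bs c t nn (k1 + 1 + i + 1) • o) ∧
        d (P s) z' ≤ 8 * δ

/-- ETRB: the same in the decreasing direction. -/
def Stmt_ETRB : Prop := ∀ (δ L1 : ℕ) (G X : Type) [Group G] [MulAction G X] (d : X → X → ℕ)
  (h n0 : ℕ) (c : G) (t : ℕ → G) (o : X) (nn : ℕ → ℕ), IsGM d → Hyp d δ → IsomAct G d →
  IsCSA G → OV G d L1 → IsBS G d (1000 * (δ + L1 + 1)) h c t o → 1000 ≤ n0 →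
  (∀ i, n0 ≤ nn i) → (∀ i, nn i ≤ 2 * n0) → ∀ (P : ℕ → X) (D k1 k2 : ℕ) (z1 z2 : X),
  IsGeo d D P → Bt d (bs c t nn k1 • o) z1 (bs c t nn (k1 + 1) • o) →
  Bt d (bs c t nn k2 • o) z2 (bs c t nn (k2 + 1) • o) → d (P 0) z1 ≤ 13 * disp d c →
  d (P D) z2 ≤ 13 * disp d c → 10 * (n0 * disp d c) ≤ D → k2 ≤ k1 →
  k2 + 2 ≤ k1 ∧ ∃ x : ℕ → ℕ,
    IsTrack d P D (k1 - (k2 + 1)) (disp d c) x (fun i => bc c t nn (k1 - (1 + i))) ∧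
    x 0 ≤ 3 * (n0 * disp d c) ∧ D ≤ x (k1 - (k2 + 1)) + 3 * (n0 * disp d c) ∧
    (∀ i, i < k1 - (k2 + 1) →
      (nn (k1 - (1 + i)) : ℝ) * slen d c ≤ (x (i + 1) : ℝ) - x i + 49 * disp d c ∧
      (x (i + 1) : ℝ) - x i ≤ nn (k1 - (1 + i)) * slen d c + 49 * disp d c)

/-- ECOM: intervals with a large overlap have commuting generators. -/
def Stmt_ECOM : Prop := ∀ (L1 : ℕ) (G X : Type) [Group G] [MulAction G X] (d : X → X → ℕ)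
  (P : ℕ → X) (D m m' lam lam' : ℕ) (x x' : ℕ → ℕ) (e e' : ℕ → G), IsomAct G d → OV G d L1 →
  IsTrack d P D m lam x e → IsTrack d P D m' lam' x' e' → L1 ≤ lam + lam' →
  ∀ i j, i < m → j < m' → Ovl x x' i j (60 * (lam + lam')) → Commute (e i) (e' j)

/-- EPAR: propagation of parallel intervals. -/
def Stmt_EPAR : Prop := ∀ (L1 : ℕ) (G X : Type) [Group G] [MulAction G X] (d : X → X → ℕ)
  (P : ℕ → X) (D m m' lam lam' : ℕ) (x x' : ℕ → ℕ) (e e' : ℕ → G), IsCSA G → IsomAct G d →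
  OV G d L1 → IsTrack d P D m lam x e → IsTrack d P D m' lam' x' e' → L1 ≤ lam + lam' →
  (∀ i, i < m → x i + 200 * (lam + lam') ≤ x (i + 1)) →
  (∀ i, i < m' → x' i + 200 * (lam + lam') ≤ x' (i + 1)) →
  ∀ i j, Ovl x x' i j (60 * (lam + lam')) → ∀ r, i + r < m → j + r < m' →
    Ovl x x' (i + r) (j + r) (60 * (lam + lam')) ∧ Commute (e (i + r)) (e' (j + r)) ∧
    (i + r + 1 < m → j + r + 1 < m' →
      x (i + r + 1) ≤ x' (j + r + 1) + 60 * (lam + lam') ∧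
      x' (j + r + 1) ≤ x (i + r + 1) + 60 * (lam + lam'))

/-- EFIND: among intervals of comparable lengths there is a pair with a large overlap, near the
beginning of the geodesic. -/
def Stmt_EFIND : Prop := ∀ (m m' Lam B : ℕ) (x x' : ℕ → ℕ), 1 ≤ Lam → 1 ≤ B →
  (∀ i, i < m → x i + 2 * Lam ≤ x (i + 1)) → (∀ i, i < m' → x' i + 2 * Lam ≤ x' (i + 1)) →
  (∀ i, i < m → x (i + 1) ≤ x i + B) → (∀ i, i < m' → x' (i + 1) ≤ x' i + B) →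
  x 0 ≤ B → x' 0 ≤ B → 4 * B ≤ x m → 4 * B ≤ x' m' →
  ∃ i j, i < m ∧ j < m' ∧ Ovl x x' i j Lam ∧ x i ≤ 3 * B ∧ x' j ≤ 3 * B

/-! ### Algebra -/

/-- EALG1: commuting conjugates of the two generators. -/
def Stmt_EALG1 : Prop := ∀ (G : Type) [Group G] (c c' b : G),
  (∀ a, Commute a c → ∃ m : ℤ, a = c ^ m) → (∀ a, Commute a c' → ∃ m : ℤ, a = c' ^ m) →
  (∀ m : ℤ, c ^ m = 1 → m = 0) → Commute c (b * c' * b⁻¹) →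
  b * c' * b⁻¹ = c ∨ b * c' * b⁻¹ = c⁻¹

/-- EALG2: the algebra of 8.5.  The letters `t i`, `i % (h+1) ≠ 0`, are the letters of the
word `u_0 u_0 u_1 u_1 ... u_5 u_5`, repeated. -/
def Stmt_EALG2 : Prop := ∀ (G : Type) [Group G] (h : ℕ) (c c' q : G) (t t' : ℕ → G)
  (u u' : ℕ → G) (nn : ℕ → ℕ), IsCSA G → 12 ∣ h → 48 ≤ h →
  (∀ i, t (i + (h + 1)) = t i) → (∀ i, t' (i + (h + 1)) = t' i) →
  (∀ i, i % (h + 1) ≠ 0 → t i = u (((i % (h + 1) - 1) % 12) / 2)) →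
  (∀ i, i % (h + 1) ≠ 0 → t' i = u' (((i % (h + 1) - 1) % 12) / 2)) →
  (∀ i, nn (i + (h + 1)) = nn i) →
  (∀ a, Commute a c → ∃ m : ℤ, a = c ^ m) → (∀ i, ¬ Commute (t i) c) →
  (∀ m : ℤ, c ^ m = 1 → m = 0) →
  ∀ k l : ℕ, k % (h + 1) = l % (h + 1) →
  (∀ j, j ≤ 26 → ((bs c t nn (k + j))⁻¹ * q * bs c' t' nn (l + j)) * c' *
    ((bs c t nn (k + j))⁻¹ * q * bs c' t' nn (l + j))⁻¹ = c) →
  ∃ (b : G) (k1 l1 : ℕ), k1 % (h + 1) = l1 % (h + 1) ∧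
    q = bs c t nn k1 * b * (bs c' t' nn l1)⁻¹ ∧ b * c' * b⁻¹ = c ∧
    ∀ r, r < 6 → b * u' r * b⁻¹ = u r

/-! ### The overlap theorem for block systems -/

/-- EGEO: comparable block systems: parallel blocks. -/
def Stmt_EGEO : Prop := ∀ (δ L1 ρ : ℕ) (G X : Type) [Group G] [MulAction G X] (d : X → X → ℕ)
  (h n0 : ℕ) (c c' : G) (t t' : ℕ → G) (o o' : X) (nn : ℕ → ℕ), IsGM d → Hyp d δ →
  IsomAct G d → IsCSA G → OV G d L1 → IsBS G d (1000 * (δ + L1 + ρ + 1)) h c t o →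
  IsBS G d (1000 * (δ + L1 + ρ + 1)) h c' t' o' → 40000 ≤ n0 → 12 ≤ h → IsExp h n0 nn →
  disp d c ≤ 120 * disp d c' → disp d c' ≤ 120 * disp d c → ∀ (q : G) (p1 p2 : X),
  (∃ y ∈ Mn d (rel c t nn h), d p1 y ≤ ρ) → (∃ y ∈ Mn d (rel c t nn h), d p2 y ≤ ρ) →
  (∃ y ∈ Mn d (rel c' t' nn h), d p1 (q • y) ≤ ρ) →
  (∃ y ∈ Mn d (rel c' t' nn h), d p2 (q • y) ≤ ρ) →
  100 * (n0 * max (disp d c) (disp d c')) ≤ d p1 p2 →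
  ∃ (r r' : ℤ) (k l : ℕ), k % (h + 1) = l % (h + 1) ∧ ∀ j, j ≤ 26 →
    ((bs c t nn (k + j))⁻¹ * (rel c t nn h ^ r * q * rel c' t' nn h ^ r') *
      bs c' t' nn (l + j)) * c' * ((bs c t nn (k + j))⁻¹ *
      (rel c t nn h ^ r * q * rel c' t' nn h ^ r') * bs c' t' nn (l + j))⁻¹ = c

/-- ESHIFT: if `|c|` is much larger than `|c'|`, the shift by a block generator gives a self
overlap of `R'`, for two consecutive blocks. -/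
def Stmt_ESHIFT : Prop := ∀ (δ L1 ρ : ℕ) (G X : Type) [Group G] [MulAction G X] (d : X → X → ℕ)
  (h n0 : ℕ) (c : G) (t : ℕ → G) (o : X) (nn : ℕ → ℕ) (Y' : Set X) (T : ℕ), IsGM d → Hyp d δ →
  IsomAct G d → IsCSA G → OV G d L1 → IsBS G d (1000 * (δ + L1 + ρ + 1)) h c t o →
  40000 ≤ n0 → 12 ≤ h → IsExp h n0 nn → QConv d (59 * δ + 5) Y' → ∀ (q : G) (p1 p2 : X),
  (∃ y ∈ Mn d (rel c t nn h), d p1 y ≤ ρ) → (∃ y ∈ Mn d (rel c t nn h), d p2 y ≤ ρ) →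
  (∃ y ∈ Y', d p1 (q • y) ≤ ρ) → (∃ y ∈ Y', d p2 (q • y) ≤ ρ) →
  10 * (n0 * disp d c) ≤ d p1 p2 → 10 * T ≤ 9 * (n0 * disp d c) →
  ∃ r k : ℕ, ∀ i, i < 2 → ∃ w1 w2 : X, T ≤ d w1 w2 ∧
    (∃ y ∈ Y', d w1 y ≤ 200 * (δ + ρ + 1)) ∧ (∃ y ∈ Y', d w2 y ≤ 200 * (δ + ρ + 1)) ∧
    (∃ y ∈ Y', d w1 (((rel c t nn h ^ r * q)⁻¹ * bc c t nn (k + i) *
      (rel c t nn h ^ r * q)) • y) ≤ 200 * (δ + ρ + 1)) ∧
    (∃ y ∈ Y', d w2 (((rel c t nn h ^ r * q)⁻¹ * bc c t nn (k + i) *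
      (rel c t nn h ^ r * q)) • y) ≤ 200 * (δ + ρ + 1))

/-- ESELF: the self overlap theorem for block systems. -/
def Stmt_ESELF : Prop := ∀ (δ L1 ρ : ℕ) (G X : Type) [Group G] [MulAction G X] (d : X → X → ℕ)
  (h n0 : ℕ) (c : G) (t : ℕ → G) (u : ℕ → G) (o : X) (nn : ℕ → ℕ), IsGM d →
  Hyp d δ → IsomAct G d → IsCSA G → OV G d L1 → IsBS G d (1000 * (δ + L1 + ρ + 1)) h c t o →
  40000 ≤ n0 → 12 ∣ h → 48 ≤ h →
  (∀ i, i % (h + 1) ≠ 0 → t i = u (((i % (h + 1) - 1) % 12) / 2)) →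
  IsExp h n0 nn → ∀ (q : G) (p1 p2 : X),
  (∃ y ∈ Mn d (rel c t nn h), d p1 y ≤ ρ) → (∃ y ∈ Mn d (rel c t nn h), d p2 y ≤ ρ) →
  (∃ y ∈ Mn d (rel c t nn h), d p1 (q • y) ≤ ρ) →
  (∃ y ∈ Mn d (rel c t nn h), d p2 (q • y) ≤ ρ) →
  100 * (n0 * disp d c) ≤ d p1 p2 → ∃ m : ℤ, q = rel c t nn h ^ m

/-- EMAIN: the overlap theorem 8.5 for block systems. -/
def Stmt_EMAIN : Prop := ∀ (δ L1 ρ : ℕ) (G X : Type) [Group G] [MulAction G X] (d : X → X → ℕ)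
  (h n0 : ℕ) (c c' : G) (t t' : ℕ → G) (u u' : ℕ → G) (o o' : X) (nn : ℕ → ℕ), IsGM d →
  Hyp d δ → IsomAct G d → IsCSA G → OV G d L1 →
  IsBS G d (1000000 * (δ + L1 + ρ + 1)) h c t o →
  IsBS G d (1000000 * (δ + L1 + ρ + 1)) h c' t' o' → 40000 ≤ n0 → 12 ∣ h → 48 ≤ h →
  (∀ i, i % (h + 1) ≠ 0 → t i = u (((i % (h + 1) - 1) % 12) / 2)) →
  (∀ i, i % (h + 1) ≠ 0 → t' i = u' (((i % (h + 1) - 1) % 12) / 2)) →
  IsExp h n0 nn → ∀ (q : G) (p1 p2 : X),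
  (∃ y ∈ Mn d (rel c t nn h), d p1 y ≤ ρ) → (∃ y ∈ Mn d (rel c t nn h), d p2 y ≤ ρ) →
  (∃ y ∈ Mn d (rel c' t' nn h), d p1 (q • y) ≤ ρ) →
  (∃ y ∈ Mn d (rel c' t' nn h), d p2 (q • y) ≤ ρ) →
  100 * (n0 * max (disp d c) (disp d c')) ≤ d p1 p2 →
  ∃ (r r' : ℤ) (b : G) (k l : ℕ), k % (h + 1) = l % (h + 1) ∧
    rel c t nn h ^ r * q * rel c' t' nn h ^ r' = bs c t nn k * b * (bs c' t' nn l)⁻¹ ∧
    b * c' * b⁻¹ = c ∧ ∀ i, i < 6 → b * u' i * b⁻¹ = u i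

/-! ### Pairs -/

/-- EW1: elementary facts about the words of a non-commuting pair. -/
def Stmt_EW1 : Prop := ∀ (D k : ℕ) (G : Type) [Group G], IsCSA G →
  (∀ (g : G) (n : ℕ), 1 ≤ n → g ^ n = 1 → g = 1) → 1 ≤ D → 1 ≤ k →
  ∀ x y : G, x * y ≠ y * x → gW D k x y ≠ 1 ∧ ¬ Commute (teW D k x y) (gW D k x y) ∧
    (∀ N, cW D k N x y ≠ 1) ∧ xW k 3 x y * (xW k 0 x y)⁻¹ ≠ 1 ∧
    ¬ Commute (xW k 0 x y) (xW k 1 x y) ∧ x ≠ 1 ∧ yW k y ≠ 1 ∧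
    teW D k x y = (qW D k x y)⁻¹ * (gW D k x y)⁻¹ * qW D k x y ∧
    gW D k x y = (pW D x * (yW k y)⁻¹ * (pW D x)⁻¹) * yW k y

/-- EPAIR: a direct pair gives a block system (8.1 to 8.3). -/
def Stmt_EPAIR : Prop := ∀ L1 D k V B K : ℕ, ∃ N0 : ℕ, ∀ N, N0 ≤ N → ∀ (a0 L0 : ℕ) (CP : ℕ → ℕ)
  (M0 : ℕ) (G X : Type) [Group G] [MulAction G X] (d : X → X → ℕ), Lev G d a0 L0 CP M0 →
  IsCSA G → OV G d L1 → ∀ x y : G, GPair d D k V B x y → ∀ h, 12 ∣ h → 12 ≤ h →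
  (∃ o : X, IsBS G d K h (cW D k N x y) (lW k h x y) o) ∧
  49 * (N * slen d (gW D k x y)) ≤ 50 * slen d (cW D k N x y) ∧
  50 * slen d (cW D k N x y) ≤ 51 * (N * slen d (gW D k x y))

/-- EPALG: the pair is determined by the letters. -/
def Stmt_EPALG : Prop := ∀ (D k N h : ℕ) (nn : ℕ → ℕ) (G : Type) [Group G], IsCSA G →
  (∀ (g : G) (n : ℕ), 1 ≤ n → g ^ n = 1 → g = 1) → 1 ≤ D → 1 ≤ k →
  (∀ i, nn (i + (h + 1)) = nn i) → ∀ (x y x' y' : G), x * y ≠ y * x → x' * y' ≠ y' * x' →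
  ∀ b : G, (∀ i, i < 6 → b * uW k x' y' i * b⁻¹ = uW k x y i) →
  b * x' * b⁻¹ = x ∧ b * yW k y' * b⁻¹ = yW k y ∧
  b * cW D k N x' y' * b⁻¹ = cW D k N x y ∧
  (∀ j, b * bs (cW D k N x' y') (lW k h x' y') nn j * b⁻¹ =
    bs (cW D k N x y) (lW k h x y) nn j) ∧
  b * lawW D k N h nn x' y' * b⁻¹ = lawW D k N h nn x y ∧
  ((x = x' ∧ y = y') → b = 1)

/-- E85: Theorem 8.5 for direct pairs. -/
def Stmt_E85 : Prop := ∀ L1 ρ D k V B : ℕ, ∃ N0 : ℕ, ∀ N, N0 ≤ N → ∀ (a0 L0 : ℕ) (CP : ℕ → ℕ)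
  (M0 : ℕ) (G X : Type) [Group G] [MulAction G X] (d : X → X → ℕ), Lev G d a0 L0 CP M0 →
  IsCSA G → OV G d L1 → ∀ x y x' y' : G, GPair d D k V B x y → GPair d D k V B x' y' →
  ∀ (h n0 : ℕ) (nn : ℕ → ℕ), 12 ∣ h → 48 ≤ h → 40000 ≤ n0 → IsExp h n0 nn →
  ∀ (q : G) (p1 p2 : X),
  (∃ z ∈ Mn d (lawW D k N h nn x y), d p1 z ≤ ρ) →
  (∃ z ∈ Mn d (lawW D k N h nn x y), d p2 z ≤ ρ) →
  (∃ z ∈ Mn d (lawW D k N h nn x' y'), d p1 (q • z) ≤ ρ) →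
  (∃ z ∈ Mn d (lawW D k N h nn x' y'), d p2 (q • z) ≤ ρ) →
  100 * (n0 * max (disp d (cW D k N x y)) (disp d (cW D k N x' y'))) ≤ d p1 p2 →
  ∃ (b : G) (r : ℤ), b * x' * b⁻¹ = x ∧ b * yW k y' * b⁻¹ = yW k y ∧
    b * lawW D k N h nn x' y' * b⁻¹ = lawW D k N h nn x y ∧
    q = b * lawW D k N h nn x' y' ^ r ∧ ((x = x' ∧ y = y') → b = 1)

end Pool.Agent.Olsh
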