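import Pool.Agent.Olsh.StmtsG
import Pool.Agent.Olsh.StmtsE
import Pool.Agent.Olsh.Axis

/-!
# MP_3cdb71_al, module OLG_ANGS (9.1 of `H92.md`): lifts of S-pairs have all properties of `Lft`
-/

set_option autoImplicit false

namespace Pool.Agent.Olsh

namespace ANGS

/-- F0: an element which fixes an apex is killed by `π`. -/
theorem pi_fix {G G' X S A' : Type} [Group G] [MulAction G X] [MulAction G S] [Group G']
    [MulAction G' A'] {dc : X ⊕ S → X ⊕ S → ℕ} {d' : A' → A' → ℕ} {π : G →* G'}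
    {q : X ⊕ S → A'} (H : IsQuot (KK G (apx X S)) dc d' π q) (s : S) (g : G) (hg : g • s = s) :
    π g = 1 := by
  refine (H.ker g).2 (Subgroup.subset_closure ⟨Sum.inr s, ⟨s, rfl⟩, ?_⟩)
  rw [Sum.smul_inr, hg]

/-- An element of `KS` fixes itself. -/
theorem fix_self {G X : Type} [Group G] [MulAction G X] {D : LD} {d : X → X → ℕ} {T : ℕ}
    (s : KS (G := G) D d T) : s.1 • s = s := by
  apply Subtype.ext
  rw [KS.smul_val]
  group

/-- Naturality of `cW`. -/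
theorem map_cW {G H : Type} [Group G] [Group H] (φ : G →* H) (D k N : ℕ) (x y : G) :
    φ (cW D k N x y) = cW D k N (φ x) (φ y) := by
  simp only [cW, gW, teW, qW, pW, yW, map_mul, map_pow, map_inv]

end ANGS

open ANGS in
theorem ANGS (h1 : Stmt_ANGO) (h2 : Stmt_OVS) (h3 : Stmt_OVB) (h4 : Stmt_KLC) (h5 : Stmt_RLEN)
    (h6 : Stmt_EW1) : Stmt_ANGS := by
  intro η1 C
  obtain ⟨r0, C2, hA⟩ := h1 (59 * dl + 5) η1 C
  refine ⟨r0, C2, ?_⟩
  intro D c u ρ L1 C13 hr0 hrr hLS hu hHN G G' X A' _ _ _ _ d SP d' π q H x₁ y₁ hnc hw hele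
  have hker := fun (s : KS (G := G) D d c.T) (g : G) (hg : g • s = s) => pi_fix H.cq.quot s g hg
  have hself : ∀ s : KS (G := G) D d c.T, π s.1 = 1 := fun s => hker s s.1 (fix_self s)
  have hnc1 : x₁ * y₁ ≠ y₁ * x₁ := by
    intro h
    apply hnc
    rw [← map_mul, ← map_mul, h]
  have hw1 : lw D x₁ y₁ ≠ 1 := by
    intro h
    apply hw
    rw [h, map_one]
  -- `gp`
  have hgp : GPair d D.d D.k 1 c.C12 x₁ y₁ := by
    rcases H.st.cls x₁ y₁ hnc1 hw1 with h | h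
    · exact h
    · exfalso
      have he := H.st.spe x₁ y₁ h
      exact hw (hself ⟨lw D x₁ y₁, 1, x₁, y₁, ⟨hnc1, hw1, he⟩, by group⟩)
  refine ⟨hnc, hw, hgp, hele, ?_⟩
  obtain ⟨g1, g2, o, g3, g4⟩ := hgp
  have hgpV : GPair d D.d D.k c.V c.B x₁ y₁ := by
    have hs : 1 ≤ slen d (gW D.d D.k x₁ y₁) := by simpa using g2
    have hV : (1 : ℝ) ≤ c.V := by exact_mod_cast H.V1
    have hB : (c.C12 : ℝ) ≤ c.B := by exact_mod_cast H.B1
    refine ⟨g1, by nlinarith, o, g3.trans ?_, g4.trans ?_⟩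
    · exact mul_le_mul_of_nonneg_right hB (by linarith)
    · exact mul_le_mul_of_nonneg_right hB (by linarith)
  have hs1 : 1 ≤ slen d (gW D.d D.k x₁ y₁) := by simpa using g2
  have hlen := h5 D c.n0 c.V c.B ρ L1 H.ok G X d H.dir x₁ y₁ hgpV hs1
  have hdisp : 37 * dl + 5 ≤ disp d (lw D x₁ y₁) := by omega
  have hqc : QConv d (59 * dl + 5) (Mn d (lw D x₁ y₁)) :=
    H.dir.isom.mn_qconv H.dir.hyp H.dir.gm hdisp
  have hc1 : disp d (cw D x₁ y₁) ≤ CE D * (C13 * u) :=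
    (h4 D G X d H.dir.gm H.dir.isom (C13 * u) x₁ y₁ hele).2.2
  obtain ⟨o1, hbs⟩ := H.dir.bs x₁ y₁ hgpV
  intro v hv w hw' s
  have key : ∀ p1 p2 : X, (∃ z ∈ Mn d (lw D x₁ y₁), d p1 z ≤ r0) →
      (∃ z ∈ Mn d (lw D x₁ y₁), d p2 z ≤ r0) → (∃ z ∈ KY D d c.T s, d p1 z ≤ r0) →
      (∃ z ∈ KY D d c.T s, d p2 z ≤ r0) →
      d p1 p2 ≤ 404 * (1 + 100 * (CE D * C13)) * u := by
    rintro p1 p2 a1 a2 ⟨z3, b3, b3'⟩ ⟨z4, b4, b4'⟩
    have hov : Ovp d r0 (Mn d (lw D x₁ y₁)) (KY D d c.T s) (1 : G) (d p1 p2) :=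
      ⟨p1, p2, a1, a2, ⟨z3, b3, by rwa [one_smul]⟩, ⟨z4, b4, by rwa [one_smul]⟩, le_rfl⟩
    have hE : 404 * (u + 100 * (CE D * (C13 * u))) = 404 * (1 + 100 * (CE D * C13)) * u := by
      ring
    rcases Nat.lt_or_ge (d p1 p2) (100 * (c.n0 * (disp d (cw D x₁ y₁) + CE D * c.T))) with hl | hl
    swap
    · exfalso
      have hh := h2 D c r0 ρ L1 H.ok hr0 hrr H.V1 H.B1 hLS G X d SP H.st H.dir x₁ y₁
        ⟨g1, g2, o, g3, g4⟩ s (d p1 p2) hov hl
      apply hw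
      rw [hh]
      exact hself s
    rcases Nat.lt_or_ge (disp d (cw D x₁ y₁)) (CE D * c.T) with hd | hd
    · have e1 : c.n0 * (disp d (cw D x₁ y₁) + CE D * c.T) ≤ c.n0 * (2 * (CE D * c.T)) :=
        Nat.mul_le_mul_left _ (by omega)
      have e2 : c.n0 * (2 * (CE D * c.T)) = 2 * (c.n0 * (CE D * c.T)) := by ring
      have e3 : 0 ≤ CE D * (C13 * u) := Nat.zero_le _
      rw [← hE]
      omega
    · have e1 : c.n0 * (disp d (cw D x₁ y₁) + CE D * c.T) ≤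
          c.n0 * (2 * disp d (cw D x₁ y₁)) := Nat.mul_le_mul_left _ (by omega)
      have e2 : c.n0 * (2 * disp d (cw D x₁ y₁)) = 2 * (c.n0 * disp d (cw D x₁ y₁)) := by ring
      have hbs' : IsBS G d (1000 * (dl + L1 + r0 + 1)) (D.H - 1) (cW D.d D.k D.N x₁ y₁)
          (lW D.k (D.H - 1) x₁ y₁) o1 :=
        ⟨hbs.o_mem, le_trans (by omega) hbs.big, hbs.tper, hbs.move, hbs.ncomm, hbs.cent⟩
      have hn0 := H.ok.n0l
      have h48 := H.ok.h48
      have hfin := h3 dl L1 r0 G X d (D.H - 1) c.n0 (cW D.d D.k D.N x₁ y₁)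
        (lW D.k (D.H - 1) x₁ y₁) o1 D.nn H.dir.gm H.dir.hyp H.dir.isom H.dir.csa H.dir.ov hbs'
        (by omega) (by omega) H.ok.exp (KY D d c.T s) (H.cq.qc s) u 200 (d p1 p2) ?_ hov
        (by
          have : c.n0 * disp d (cW D.d D.k D.N x₁ y₁) = c.n0 * disp d (cw D x₁ y₁) := rfl
          omega)
      · have e4 : disp d (cW D.d D.k D.N x₁ y₁) = disp d (cw D x₁ y₁) := rfl
        rw [e4] at hfin
        rw [← hE]
        omega
      · -- the shift condition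
        intro r k l' hsh
        set R := rel (cW D.d D.k D.N x₁ y₁) (lW D.k (D.H - 1) x₁ y₁) D.nn (D.H - 1) with hR
        set γ := (R ^ r)⁻¹ * bc (cW D.d D.k D.N x₁ y₁) (lW D.k (D.H - 1) x₁ y₁) D.nn k * R ^ r
          with hγ
        by_cases hfx : γ • s = s
        · exfalso
          have hγ1 := hker s γ hfx
          have hconj : γ = ((R ^ r)⁻¹ * bs (cW D.d D.k D.N x₁ y₁) (lW D.k (D.H - 1) x₁ y₁) D.nn k)
              * cW D.d D.k D.N x₁ y₁ *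
              ((R ^ r)⁻¹ * bs (cW D.d D.k D.N x₁ y₁) (lW D.k (D.H - 1) x₁ y₁) D.nn k)⁻¹ := by
            rw [hγ]
            unfold bc
            group
          have hc0 : π (cW D.d D.k D.N x₁ y₁) = 1 := by
            rw [hconj, map_mul, map_mul, map_inv] at hγ1
            exact conj_eq_one_iff.1 hγ1
          rw [map_cW] at hc0
          exact (h6 D.d D.k G' H.csa' H.tf' H.ok.d1 H.ok.k1 (π x₁) (π y₁) hnc).2.2.1 D.N hc0
        · obtain ⟨q1, q2, ⟨z1, c1, c1'⟩, ⟨z2, c2, c2'⟩, ⟨z5, c3, c3'⟩, ⟨z6, c4, c4'⟩, hl'⟩ := hsh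
          have heta := H.heta
          have hfar := H.cq.ov s (γ • s) (Ne.symm hfx) q1 q2 ⟨z1, c1, by omega⟩
            ⟨γ • z5, H.cq.Ysmul γ s z5 c3, by omega⟩ ⟨z2, c2, by omega⟩
            ⟨γ • z6, H.cq.Ysmul γ s z6 c4, by omega⟩
          omega
  exact (hA X (KS (G := G) D d c.T) d u (KY D d c.T) H.cq.conep (Mn d (lw D x₁ y₁)) hqc s
    (404 * (1 + 100 * (CE D * C13)) * u) key v hv w hw').trans (by
      have : 404 * (1 + 100 * (CE D * C13)) * u + C2 * u =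
        (404 * (1 + 100 * (CE D * C13)) + C2) * u := by ring
      omega)

end Pool.Agent.Olsh
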