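import Pool.Agent.Olsh.StmtsG
import Pool.Agent.Olsh.Axis

/-!
# MP_3cdb71_al, module OLG_AXQ

The axis of an element with small angles on its axis embeds into the quotient.
-/

set_option autoImplicit false

namespace Pool.Agent.Olsh

namespace AXQ

section General

variable {V : Type} {d : V → V → ℕ} {δ : ℕ} {G : Type} [Group G] [MulAction G V]

/-- Orbits with small Gromov products are chains. -/
theorem chain_of_gp (hG : IsomAct G d) {g : G} {v : V} {a b : ℕ}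
    (h : GpLe d a v (g • v) (g ^ 2 • v)) (hb : b ≤ d v (g • v)) (n : ℕ) :
    IsChain d n a b (fun i => g ^ i • v) := by
  constructor
  · intro i h1 _
    obtain ⟨j, rfl⟩ : ∃ j, i = j + 1 := ⟨i - 1, by omega⟩
    have e1 := hG (g ^ j) v (g • v)
    have e2 := hG (g ^ j) (g • v) (g ^ 2 • v)
    have e3 := hG (g ^ j) v (g ^ 2 • v)
    have k1 : g ^ j • g • v = g ^ (j + 1) • v := by rw [pow_succ, mul_smul]
    have k2 : g ^ j • g ^ 2 • v = g ^ (j + 1 + 1) • v := by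
      rw [smul_smul, ← pow_add]
    rw [k1] at e1 e2
    rw [k2] at e2 e3
    unfold GpLe at *
    show d (g ^ (j + 1 - 1) • v) (g ^ (j + 1) • v) + d (g ^ (j + 1) • v) (g ^ (j + 1 + 1) • v) ≤
      d (g ^ (j + 1 - 1) • v) (g ^ (j + 1 + 1) • v) + 2 * a
    have k3 : j + 1 - 1 = j := by omega
    rw [k3]
    omega
  · intro i _ _
    show b ≤ d (g ^ i • v) (g ^ (i + 1) • v)
    have := hG.dist_pow_pow g v i 1
    rw [pow_one] at this
    rw [this]
    exact hb

/-- A point with small Gromov product along its orbit has almost minimal displacement. -/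
theorem disp_ge (hG : IsomAct G d) (hh : Hyp d δ) (hd : IsGM d) {g : G} {v : V} {a : ℕ}
    (h : GpLe d a v (g • v) (g ^ 2 • v)) (hb : 2 * a + 2 * δ + 1 ≤ d v (g • v)) :
    d v (g • v) ≤ disp d g + 2 * (a + δ) := by
  haveI : Nonempty V := ⟨v⟩
  obtain ⟨z, hz⟩ := Mn_nonempty (d := d) g
  have hz' : d z (g • z) = disp d g := hz
  by_contra hcon
  have hcon' : disp d g + 2 * (a + δ) + 1 ≤ d v (g • v) := by omega
  obtain ⟨n, hn⟩ : ∃ n, n = 2 * d v z + 1 := ⟨_, rfl⟩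
  have h1 := (chain_of_gp hG h (le_refl _) n).dist_ge hh hd hb (by omega)
  have h2 : ∀ i, d (g ^ i • v) (g ^ (i + 1) • v) = d v (g • v) := by
    intro i
    have := hG.dist_pow_pow g v i 1
    rw [pow_one] at this
    exact this
  simp only [h2, Finset.sum_const, Finset.card_range, smul_eq_mul, pow_zero, one_smul] at h1
  have h3 := hG.pow_le hd g z n
  have h4 := hG.dist_base hd (g ^ n) v z
  have h5 : n * (disp d g + 2 * (a + δ) + 1) ≤ n * d v (g • v) := Nat.mul_le_mul_left _ hcon'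
  have h6 : (n - 1) * (2 * (a + δ)) ≤ n * (2 * (a + δ)) := Nat.mul_le_mul_right _ (by omega)
  rw [hz'] at h3
  have h7 : n * (disp d g + 2 * (a + δ) + 1) = n * disp d g + n * (2 * (a + δ)) + n := by ring
  omega

end General

end AXQ

open AXQ in
theorem AXQ (h1 : Stmt_ISO) (h2 : Stmt_LEN) (h3 : Stmt_CONEA) (h4 : Stmt_QHYP) (h5 : Stmt_QGM)
    (h6 : Stmt_CONEGM) : Stmt_AXQ := by
  intro η η1 C
  refine ⟨200 * dl + 10 * kl + 100, fun B => ⟨B + 20 * C + 59 * dl + 6, ?_⟩⟩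
  intro G G' X S A' _ _ _ _ _ d u L Y d' π q hq hu hL R hang hK
  have hgm : IsGM d := hq.gm
  have hG : IsomAct G d := hq.isom
  have hh : Hyp d dl := hq.hyp
  have hu1 : 1 ≤ u := hq.conep.one_le
  have hgmc : IsGM (cd d u Y) := hq.rotc.gm
  obtain ⟨hgm', hG'⟩ := h5 G (X ⊕ S) G' A' (cd d u Y) (KK G (apx X S)) d' π q hgmc
    hq.rotc.isom hq.quot
  have hG' : IsomAct G' d' := hG'
  have hh' : Hyp d' dl := h4 G (X ⊕ S) G' A' (cd d u Y) (apx X S) (cdX d) (C * u) L dl d' π q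
    hq.rotc hq.quot hq.conep.hypc
  -- `X` is not empty, the displacement is large
  have hN : 1 ≤ (B + 1) * u := Nat.one_le_iff_ne_zero.2 (by positivity)
  have hdisp : 200 * dl + 10 * kl + 100 ≤ disp d R :=
    le_trans (Nat.le_mul_of_pos_right _ hN) hK
  haveI hne : Nonempty X := by
    by_contra hcon
    rw [not_nonempty_iff] at hcon
    have h0 : disp d R = 0 := by
      unfold disp
      rw [Set.range_eq_empty]
      exact Nat.sInf_empty
    omega
  -- equivariance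
  have hfz : ∀ (i : ℤ) (v : X), q (Sum.inl (R ^ i • v)) = (π R) ^ i • q (Sum.inl v) := by
    intro i v
    have := hq.quot.equiv (R ^ i) (Sum.inl v)
    rw [map_zpow] at this
    exact this
  have hf1 : ∀ v : X, q (Sum.inl (R • v)) = π R • q (Sum.inl v) := by
    intro v
    have := hfz 1 v
    simpa using this
  have hf2 : ∀ v : X, q (Sum.inl (R ^ 2 • v)) = (π R) ^ 2 • q (Sum.inl v) := by
    intro v
    have := hq.quot.equiv (R ^ 2) (Sum.inl v)
    rw [map_pow] at this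
    exact this
  have hR1 : ∀ v ∈ Mn d R, R • v ∈ Mn d R := by
    intro v hv
    have := hG.pow_mem_Mn hv 1
    simpa using this
  have hR2 : ∀ v ∈ Mn d R, R ^ 2 • v ∈ Mn d R := by
    intro v hv
    have := hG.pow_mem_Mn hv 2
    exact_mod_cast this
  -- (1)
  have hC1 : ∀ v ∈ Mn d R, ∀ w ∈ Mn d R,
      d' (q (Sum.inl v)) (q (Sum.inl w)) = cd d u Y (Sum.inl v) (Sum.inl w) ∧
      d v w ≤ (B + 1) * u * d' (q (Sum.inl v)) (q (Sum.inl w)) := by
    intro v hv w hw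
    have hang' := hang v hv w hw
    have e := h1 G (X ⊕ S) G' A' (cd d u Y) (apx X S) (cdX d) (C * u) L d' π q hq.rotc hq.quot
      (Sum.inl v) (Sum.inl w) (by rintro ⟨s, hs⟩; cases hs) (by
        rintro s ⟨t, rfl⟩ _
        have h7 : ang (cd d u Y) (cdX d) (Sum.inr t) (Sum.inl v) (Sum.inl w) ≤ B * u := hang' t
        have h8 : (B + 20 * C) * u ≤ (B + 20 * C + 59 * dl + 6) * u :=
          Nat.mul_le_mul_right _ (by omega)
        have h9 : (B + 20 * C) * u = B * u + 20 * (C * u) := by ring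
        omega)
    refine ⟨e, ?_⟩
    have h7 := h2 η η1 C X S d u Y hq.conep (B * u) v w (fun s => hang' s)
    rw [e]
    calc d v w ≤ cd d u Y (Sum.inl v) (Sum.inl w) * (B * u + u) := h7
      _ = (B + 1) * u * cd d u Y (Sum.inl v) (Sum.inl w) := by ring
  -- theorem A
  obtain ⟨-, hA⟩ := h3 X S d u η Y hgm hh hq.ne hq.qc hu1 hq.conep.dl_le hq.conep.eta_le
  obtain ⟨-, -, hcd⟩ := h6 X S d u Y hgm hu1 hq.ne
  have hcd1 : ∀ v w : X, d v w ≤ u → cd d u Y (Sum.inl v) (Sum.inl w) ≤ 1 := by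
    intro v w hvw
    exact hcd 1 v w (by omega)
  -- images of points of geodesics
  have himg : ∀ v ∈ Mn d R, ∀ w ∈ Mn d R, ∀ b, Bt (cd d u Y) (Sum.inl v) b (Sum.inl w) →
      Bt d' (q (Sum.inl v)) (q b) (q (Sum.inl w)) ∧
      d' (q (Sum.inl v)) (q b) = cd d u Y (Sum.inl v) b := by
    intro v hv w hw b hb
    have e := (hC1 v hv w hw).1
    have e1 := hq.quot.le (Sum.inl v) b
    have e2 := hq.quot.le b (Sum.inl w)
    have e3 := hgm'.tri (q (Sum.inl v)) (q b) (q (Sum.inl w))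
    unfold Bt at *
    constructor <;> omega
  -- (3)
  have hmnq := hG.mn_qconv hh hgm (g := R) (by omega)
  have hS3 : ∀ v ∈ Mn d R, ∀ w ∈ Mn d R, ∀ z', Bt d' (q (Sum.inl v)) z' (q (Sum.inl w)) →
      ∃ z2 ∈ Mn d R, d' z' (q (Sum.inl z2)) ≤ 4 * dl + kl + 3 := by
    intro v hv w hw z' hz'
    have e := (hC1 v hv w hw).1
    obtain ⟨b, hb, hb'⟩ := hgmc.exists_bt (Sum.inl v) (Sum.inl w) (d' (q (Sum.inl v)) z') (by
      unfold Bt at hz'
      omega)
    obtain ⟨hb1, hb2⟩ := himg v hv w hw b hb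
    have hfe := hh'.fellow hgm' hz' hb1 (by omega) (by
      rw [hgm'.self]
      unfold Bt at hz'
      omega)
    obtain ⟨z, hz1, hz2⟩ := (hA (Sum.inl v) (Sum.inl w) v w rfl rfl).2 b hb
    obtain ⟨z2, hz3, hz4⟩ := hmnq v hv w hw z hz1
    refine ⟨z2, hz3, ?_⟩
    have k1 := hcd1 z z2 (by omega)
    have k2 := hq.quot.le b (Sum.inl z2)
    have k3 := hgmc.tri b (Sum.inl z) (Sum.inl z2)
    have k4 := hgm'.tri z' (q b) (q (Sum.inl z2))
    omega
  -- (4) Gromov products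
  have hGP : ∀ v ∈ Mn d R, GpLe d' (kl + 3) (q (Sum.inl v)) (π R • q (Sum.inl v))
      ((π R) ^ 2 • q (Sum.inl v)) := by
    intro v hv
    have g1 := hG.gp_of_disp hh hgm hv (by omega)
    obtain ⟨p, hp1, hp2⟩ := hh.near_of_gp hgm g1
    obtain ⟨P, hP0, hP1, hP⟩ := hgmc.exists_geo (Sum.inl v : X ⊕ S) (Sum.inl (R ^ 2 • v))
    obtain ⟨i, hi, hi'⟩ := (hA (Sum.inl v) (Sum.inl (R ^ 2 • v)) v (R ^ 2 • v) rfl rfl).1 p hp1
      _ P hP hP0 hP1
    have k1 := hcd1 (R • v) p (by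
      have := hq.conep.dl_le
      omega)
    have k2 := hP.bt (Nat.zero_le i) hi le_rfl
    rw [hP0, hP1] at k2
    have k3 := hgmc.tri (Sum.inl (R • v)) (Sum.inl p) (P i)
    have k4 := hgmc.tri (Sum.inl v) (P i) (Sum.inl (R • v))
    have k5 := hgmc.tri (Sum.inl (R • v)) (P i) (Sum.inl (R ^ 2 • v))
    have k6 := hgmc.comm (P i) (Sum.inl (R • v))
    have e1 := (hC1 v hv _ (hR1 v hv)).1
    have e2 := (hC1 _ (hR1 v hv) _ (hR2 v hv)).1
    have e3 := (hC1 v hv _ (hR2 v hv)).1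
    rw [← hf1, ← hf2]
    unfold GpLe
    unfold Bt at k2
    omega
  -- displacement of the points `q v`
  have hDl : ∀ v ∈ Mn d R, 200 * dl + 10 * kl + 100 ≤ d' (q (Sum.inl v)) (π R • q (Sum.inl v)) ∧
      disp d R ≤ (B + 1) * u * d' (q (Sum.inl v)) (π R • q (Sum.inl v)) := by
    intro v hv
    have e := (hC1 v hv _ (hR1 v hv)).2
    have hv' : d v (R • v) = disp d R := hv
    rw [hf1, hv'] at e
    refine ⟨?_, e⟩
    have h7 : (B + 1) * u * (200 * dl + 10 * kl + 100) ≤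
        (B + 1) * u * d' (q (Sum.inl v)) (π R • q (Sum.inl v)) := by
      calc (B + 1) * u * (200 * dl + 10 * kl + 100) = (200 * dl + 10 * kl + 100) * ((B + 1) * u) := by
            ring
        _ ≤ disp d R := hK
        _ ≤ _ := e
    exact Nat.le_of_mul_le_mul_left h7 hN
  have hDu : ∀ v ∈ Mn d R, d' (q (Sum.inl v)) (π R • q (Sum.inl v)) ≤
      disp d' (π R) + 2 * (kl + 3 + dl) := by
    intro v hv
    have := (hDl v hv).1
    exact disp_ge hG' hh' hgm' (hGP v hv) (by omega)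
  obtain ⟨v0, hv0⟩ := Mn_nonempty (d := d) R
  have hdisp' : 37 * dl + 5 ≤ disp d' (π R) := by
    have k1 := (hDl v0 hv0).1
    have k2 := hDu v0 hv0
    omega
  haveI : Nonempty A' := ⟨q (Sum.inl v0)⟩
  -- (C4)
  have hC4 : ∀ v ∈ Mn d R, ∃ z ∈ Mn d' (π R), d' (q (Sum.inl v)) z ≤ kl + 38 * dl + 7 := by
    intro v hv
    obtain ⟨y, hy, hy'⟩ := hG'.near_mn hh' hgm' hdisp' (q (Sum.inl v))
    refine ⟨y, hy, ?_⟩
    have := hDu v hv
    omega
  refine ⟨hC1, ?_, ?_, ?_⟩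
  · -- (C2)
    refine le_trans (hDl v0 hv0).2 (Nat.mul_le_mul_left _ ?_)
    have := hDu v0 hv0
    omega
  · -- (C3)
    intro z hz
    obtain ⟨y0, hy0, hy0'⟩ := hC4 v0 hv0
    obtain ⟨y, ⟨i, hi⟩, hy'⟩ := hG'.near_oax hh' hgm' hy0 hdisp' z
    have hz' : d' z (π R • z) = disp d' (π R) := hz
    have hs := hh'.slim hgm'
    have hi0 := hG.pow_mem_Mn hv0 i
    have hi1 := hG.pow_mem_Mn hv0 (i + 1)
    have c0 : d' ((π R) ^ i • y0) (q (Sum.inl (R ^ i • v0))) ≤ kl + 38 * dl + 7 := by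
      rw [hfz, hG', hgm'.comm]
      exact hy0'
    have c1 : d' ((π R) ^ (i + 1) • y0) (q (Sum.inl (R ^ (i + 1) • v0))) ≤ kl + 38 * dl + 7 := by
      rw [hfz, hG', hgm'.comm]
      exact hy0'
    obtain ⟨w, hw, hyw⟩ := hs _ _ (q (Sum.inl (R ^ i • v0))) y hi
    rcases hw with hw | hw
    · refine ⟨_, hi0, ?_⟩
      have k1 := hgm'.tri z y (q (Sum.inl (R ^ i • v0)))
      have k2 := hgm'.tri y w (q (Sum.inl (R ^ i • v0)))
      unfold Bt at hw
      omega
    · obtain ⟨w2, hw2, hww⟩ := hs _ _ (q (Sum.inl (R ^ (i + 1) • v0))) w hw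
      rcases hw2 with hw2 | hw2
      · obtain ⟨z2, hz2, hz3⟩ := hS3 _ hi0 _ hi1 w2 hw2
        refine ⟨z2, hz2, ?_⟩
        have k1 := hgm'.tri z y (q (Sum.inl z2))
        have k2 := hgm'.tri y w (q (Sum.inl z2))
        have k3 := hgm'.tri w w2 (q (Sum.inl z2))
        omega
      · refine ⟨_, hi1, ?_⟩
        have k1 := hgm'.tri z y (q (Sum.inl (R ^ (i + 1) • v0)))
        have k2 := hgm'.tri y w (q (Sum.inl (R ^ (i + 1) • v0)))
        have k3 := hgm'.tri w w2 (q (Sum.inl (R ^ (i + 1) • v0)))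
        have k4 := hgm'.comm ((π R) ^ (i + 1) • y0) (q (Sum.inl (R ^ (i + 1) • v0)))
        have k5 := hgm'.comm w2 (q (Sum.inl (R ^ (i + 1) • v0)))
        unfold Bt at hw2
        omega
  · intro v hv
    obtain ⟨z, hz, hz'⟩ := hC4 v hv
    exact ⟨z, hz, by omega⟩

end Pool.Agent.Olsh
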