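import Pool.Agent.Olsh.StmtsE

/-!
# E85: Theorem 8.5 for direct pairs
-/

set_option autoImplicit false

namespace Pool.Agent.Olsh

namespace E85

theorem slen_eq_zero {G X : Type} [Group G] [MulAction G X] {d : X → X → ℕ} (hd : IsGM d)
    (hne : Nonempty X) {g : G} {n : ℕ} (hn : 1 ≤ n) (h : g ^ n = 1) : slen d g ≤ 0 := by
  obtain ⟨v⟩ := hne
  refine csInf_le ⟨0, ?_⟩ ⟨v, n, hn, ?_⟩
  · rintro r ⟨w, m, _, rfl⟩
    positivity
  · rw [h, one_smul, hd.self]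
    simp

theorem tf {G X : Type} [Group G] [MulAction G X] {d : X → X → ℕ} {a0 L0 : ℕ} {CP : ℕ → ℕ}
    {M0 : ℕ} (hL : Lev G d a0 L0 CP M0) (g : G) (n : ℕ) (hn : 1 ≤ n) (h : g ^ n = 1) : g = 1 := by
  by_contra hg
  have h1 := hL.lox g hg
  have h2 := slen_eq_zero hL.gm hL.ne hn h
  linarith

theorem gW_ne_one {G X : Type} [Group G] [MulAction G X] {d : X → X → ℕ} {a0 L0 : ℕ}
    {CP : ℕ → ℕ} {M0 D k V B : ℕ} (hL : Lev G d a0 L0 CP M0) {x y : G}
    (hp : GPair d D k V B x y) : gW D k x y ≠ 1 := by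
  intro h
  have h1 := hp.2.1
  have h2 : slen d (gW D k x y) ≤ 0 :=
    slen_eq_zero hL.gm hL.ne le_rfl (by rw [h, pow_one])
  have h3 : (V : ℝ) * slen d (gW D k x y) ≤ 0 :=
    mul_nonpos_of_nonneg_of_nonpos (Nat.cast_nonneg V) h2
  linarith

theorem one_le_D {G X : Type} [Group G] [MulAction G X] {d : X → X → ℕ} {a0 L0 : ℕ}
    {CP : ℕ → ℕ} {M0 D k V B : ℕ} (hL : Lev G d a0 L0 CP M0) {x y : G}
    (hp : GPair d D k V B x y) : 1 ≤ D := by
  rcases Nat.eq_zero_or_pos D with h | h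
  · exfalso
    apply gW_ne_one hL hp
    subst h
    simp [gW, pW, qW]
  · exact h

theorem one_le_k {G X : Type} [Group G] [MulAction G X] {d : X → X → ℕ} {a0 L0 : ℕ}
    {CP : ℕ → ℕ} {M0 D k V B : ℕ} (hL : Lev G d a0 L0 CP M0) {x y : G}
    (hp : GPair d D k V B x y) : 1 ≤ k := by
  rcases Nat.eq_zero_or_pos k with h | h
  · exfalso
    apply gW_ne_one hL hp
    subst h
    simp [gW, qW, yW]
  · exact h

theorem letters {G : Type} [Group G] (k h : ℕ) (x y : G) (i : ℕ) (hi : i % (h + 1) ≠ 0) :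
    lW k h x y i = uW k x y (((i % (h + 1) - 1) % 12) / 2) := by
  unfold lW
  rw [if_neg hi]

end E85

theorem E85 (h1 : Stmt_EMAIN) (h2 : Stmt_EPAIR) (h3 : Stmt_EPALG) (h4 : Stmt_EPER) :
    Stmt_E85 := by
  intro L1 ρ D k V B
  obtain ⟨N0, hN0⟩ := h2 L1 D k V B (1000000 * (dl + L1 + ρ + 1))
  refine ⟨N0, fun N hN a0 L0 CP M0 G X _ _ d hL hcsa hov x y x' y' hp hp' h n0 nn h12 h48 hn0 he
    q p1 p2 hp1 hp2 hp1' hp2' hfar => ?_⟩
  have hD := E85.one_le_D hL hp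
  have hk := E85.one_le_k hL hp
  obtain ⟨⟨o, ho⟩, -⟩ := hN0 N hN a0 L0 CP M0 G X d hL hcsa hov x y hp h h12 (by omega)
  obtain ⟨⟨o', ho'⟩, -⟩ := hN0 N hN a0 L0 CP M0 G X d hL hcsa hov x' y' hp' h h12 (by omega)
  obtain ⟨r, r', b, k0, l0, hkl, hq, hc, hu⟩ := h1 dl L1 ρ G X d h n0 (cW D k N x y)
    (cW D k N x' y') (lW k h x y) (lW k h x' y') (uW k x y) (uW k x' y') o o' nn hL.gm hL.hyp
    hL.isom hcsa hov ho ho' hn0 h12 h48 (E85.letters k h x y) (E85.letters k h x' y') he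
    q p1 p2 hp1 hp2 hp1' hp2' hfar
  obtain ⟨e1, e2, e3, e4, e5, e6⟩ := h3 D k N h nn G hcsa (E85.tf hL) hD hk he.per x y x' y' hp.1
    hp'.1 b hu
  -- the blocks modulo the relator
  have hper : ∀ i j : ℕ, i % (h + 1) = j % (h + 1) → ∃ m : ℤ,
      bs (cW D k N x' y') (lW k h x' y') nn i * (bs (cW D k N x' y') (lW k h x' y') nn j)⁻¹ =
        lawW D k N h nn x' y' ^ m := by
    intro i j hij
    have hi := h4 G h (cW D k N x' y') (lW k h x' y') nn ho'.tper he.per (i % (h + 1))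
      (i / (h + 1))
    have hj := h4 G h (cW D k N x' y') (lW k h x' y') nn ho'.tper he.per (j % (h + 1))
      (j / (h + 1))
    have ei : i % (h + 1) + i / (h + 1) * (h + 1) = i := by
      rw [mul_comm]; exact Nat.mod_add_div i (h + 1)
    have ej : j % (h + 1) + j / (h + 1) * (h + 1) = j := by
      rw [mul_comm]; exact Nat.mod_add_div j (h + 1)
    rw [ei] at hi
    rw [ej] at hj
    refine ⟨(i / (h + 1) : ℕ) - (j / (h + 1) : ℕ), ?_⟩
    rw [hi, hj, hij, zpow_sub, zpow_natCast, zpow_natCast]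
    unfold lawW
    group
  obtain ⟨m, hm⟩ := hper k0 l0 hkl
  have hR : ∀ s : ℤ, lawW D k N h nn x y ^ s = b * lawW D k N h nn x' y' ^ s * b⁻¹ := by
    intro s
    rw [← e5, conj_zpow]
  refine ⟨b, -r + m - r', e1, e2, e5, ?_, e6⟩
  have hq2 : q = lawW D k N h nn x y ^ (-r) *
      (bs (cW D k N x y) (lW k h x y) nn k0 * b *
        (bs (cW D k N x' y') (lW k h x' y') nn l0)⁻¹) * lawW D k N h nn x' y' ^ (-r') := by
    have : lawW D k N h nn x y ^ r * q * lawW D k N h nn x' y' ^ r' =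
        bs (cW D k N x y) (lW k h x y) nn k0 * b *
          (bs (cW D k N x' y') (lW k h x' y') nn l0)⁻¹ := hq
    rw [← this, zpow_neg, zpow_neg]
    group
  have hq3 : bs (cW D k N x y) (lW k h x y) nn k0 * b *
      (bs (cW D k N x' y') (lW k h x' y') nn l0)⁻¹ = b * lawW D k N h nn x' y' ^ m := by
    rw [← hm, ← e4 k0]
    group
  rw [hq2, hq3, hR (-r), zpow_sub, zpow_add, zpow_neg, zpow_neg]
  group

end Pool.Agent.Olsh
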