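import Pool.Agent.Olsh.StmtsE

/-!
# MP_3cdb71_al: commuting conjugates of the two generators (module OLE_EALG1)
-/

set_option autoImplicit false

namespace Pool.Agent.Olsh

theorem EALG1 : Stmt_EALG1 := by
  intro G _ c c' b h1 h2 h3 h4
  obtain ⟨m, hm⟩ := h1 _ h4.symm
  have h5 : Commute (b⁻¹ * c * b) c' := by
    have h6 : c * (b * c' * b⁻¹) = b * c' * b⁻¹ * c := h4.eq
    have h7 : b⁻¹ * (c * (b * c' * b⁻¹)) * b = b⁻¹ * (b * c' * b⁻¹ * c) * b := by rw [h6]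
    have h8 : b⁻¹ * (c * (b * c' * b⁻¹)) * b = b⁻¹ * c * b * c' := by group
    have h9 : b⁻¹ * (b * c' * b⁻¹ * c) * b = c' * (b⁻¹ * c * b) := by group
    rw [h8, h9] at h7
    exact h7
  obtain ⟨k, hk⟩ := h2 _ h5
  have h6 : c ^ (m * k) = c := by
    have h7 : b * (b⁻¹ * c * b) * b⁻¹ = c := by group
    have h8 : (b * c' * b⁻¹) ^ k = b * c' ^ k * b⁻¹ := conj_zpow
    rw [zpow_mul, ← hm, h8, ← hk, h7]
  have h7 : m * k = 1 := by
    have h8 : c ^ (m * k - 1) = 1 := by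
      rw [zpow_sub, zpow_one, h6, mul_inv_cancel]
    have := h3 _ h8
    omega
  rcases Int.eq_one_or_neg_one_of_mul_eq_one h7 with h8 | h8
  · left
    rw [hm, h8, zpow_one]
  · right
    rw [hm, h8, zpow_neg, zpow_one]

end Pool.Agent.Olsh
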