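import Pool.Agent.Olsh.StmtsE

/-!
# MP_3cdb71_al: EALG2, the algebra of 8.5
-/

set_option autoImplicit false

namespace Pool.Agent.Olsh

namespace EALG2

/-- An aligned position. -/
theorem align (h k : ℕ) (h12 : 12 ∣ h) (h48 : 48 ≤ h) :
    ∃ j0 r0 : ℕ, j0 ≤ 14 ∧ 12 ∣ r0 ∧ r0 + 12 ≤ h ∧ (k + j0) % (h + 1) = r0 := by
  obtain ⟨H, rfl⟩ := h12
  have hlt := Nat.mod_lt k (show 0 < 12 * H + 1 by omega)
  have hdm := Nat.div_add_mod k (12 * H + 1)
  generalize hρ : k % (12 * H + 1) = ρ at *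
  generalize hq : k / (12 * H + 1) = Q at *
  by_cases hc : ρ + 12 ≤ 12 * H
  · refine ⟨(ρ + 11) / 12 * 12 - ρ, (ρ + 11) / 12 * 12, by omega, Dvd.intro_left _ rfl, by omega, ?_⟩
    have e : k + ((ρ + 11) / 12 * 12 - ρ) = (ρ + 11) / 12 * 12 + (12 * H + 1) * Q := by omega
    rw [e, Nat.add_mul_mod_self_left]
    exact Nat.mod_eq_of_lt (by omega)
  · refine ⟨12 * H + 1 - ρ, 0, by omega, dvd_zero _, by omega, ?_⟩
    have e : k + (12 * H + 1 - ρ) = (12 * H + 1) * (Q + 1) := by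
      rw [mul_add, mul_one]; omega
    rw [e]
    exact Nat.mul_mod_right _ _

/-- Equal residues stay equal. -/
theorem res_add {h k l : ℕ} (hkl : k % (h + 1) = l % (h + 1)) (j : ℕ) :
    (k + j) % (h + 1) = (l + j) % (h + 1) := Nat.ModEq.add_right j hkl

/-- Residues after the aligned position. -/
theorem res_succ {h k r0 i : ℕ} (hk : k % (h + 1) = r0) (hi : r0 + i ≤ h) :
    (k + i) % (h + 1) = r0 + i := by
  have h1 := Nat.mod_add_mod k (h + 1) i
  rw [hk, Nat.mod_eq_of_lt (by omega)] at h1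
  exact h1.symm

/-- Two elements conjugating `c'` to `c`. -/
theorem comm_div {G : Type} [Group G] {c c' a b : G} (ha : a * c' * a⁻¹ = c)
    (hb : b * c' * b⁻¹ = c) : Commute (b * a⁻¹) c := by
  have h1 : a * c' = c * a := by rw [← ha]; group
  have h2 : b * c' = c * b := by rw [← hb]; group
  have h3 : a⁻¹ * c = c' * a⁻¹ := by
    rw [inv_mul_eq_iff_eq_mul, ← mul_assoc, h1, mul_assoc, mul_inv_cancel, mul_one]
  show b * a⁻¹ * c = c * (b * a⁻¹)
  rw [mul_assoc, h3, ← mul_assoc, h2, mul_assoc]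

end EALG2

open EALG2 in
theorem EALG2 : Stmt_EALG2 := by
  intro G _ h c c' q t t' u u' nn hcsa h12 h48 htp htp' hu hu' hnp _ hnc _ k l hkl hB
  obtain ⟨j0, r0, hj0, hr12, hr0, hk0⟩ := align h k h12 h48
  -- periodicity of the exponents
  have hnn : ∀ i, nn i = nn (i % (h + 1)) := by
    intro i
    have hper : Function.Periodic nn (h + 1) := hnp
    exact (hper.map_mod_nat i).symm
  set B : ℕ → G := fun j => (bs c t nn (k + j))⁻¹ * q * bs c' t' nn (l + j) with hBd
  have hB' : ∀ j, j ≤ 26 → B j * c' * (B j)⁻¹ = c := hB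
  have hc1 : c ≠ 1 := by
    intro hc
    exact hnc 0 (by rw [hc]; exact Commute.one_right _)
  -- the recursion
  have hrec : ∀ j, j ≤ 25 → B (j + 1) = (t (k + j + 1))⁻¹ * B j * t' (l + j + 1) := by
    intro j hj
    have e1 : nn (l + j) = nn (k + j) := by
      rw [hnn (l + j), hnn (k + j), res_add hkl j]
    have e2 : B j * c' ^ nn (k + j) = c ^ nn (k + j) * B j := by
      have h1 := hB' j (by omega)
      have h2 : c ^ nn (k + j) = B j * c' ^ nn (k + j) * (B j)⁻¹ := by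
        rw [← h1, conj_pow]
      rw [h2]; group
    have e3 : bs c t nn (k + (j + 1)) = bs c t nn (k + j) * c ^ nn (k + j) * t (k + j + 1) := rfl
    have e4 : bs c' t' nn (l + (j + 1)) =
        bs c' t' nn (l + j) * c' ^ nn (l + j) * t' (l + j + 1) := rfl
    show (bs c t nn (k + (j + 1)))⁻¹ * q * bs c' t' nn (l + (j + 1)) = _
    rw [e3, e4, e1]
    have e5 : (bs c t nn (k + j) * c ^ nn (k + j) * t (k + j + 1))⁻¹ * q *
        (bs c' t' nn (l + j) * c' ^ nn (k + j) * t' (l + j + 1)) =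
        (t (k + j + 1))⁻¹ * (c ^ nn (k + j))⁻¹ * (B j * c' ^ nn (k + j)) * t' (l + j + 1) := by
      show _ = (t (k + j + 1))⁻¹ * (c ^ nn (k + j))⁻¹ *
        (((bs c t nn (k + j))⁻¹ * q * bs c' t' nn (l + j)) * c' ^ nn (k + j)) * t' (l + j + 1)
      group
    rw [e5, e2]
    group
  -- letters
  have hlet : ∀ i, 1 ≤ i → i ≤ 12 → t (k + j0 + i) = u ((i - 1) / 2) ∧
      t' (l + j0 + i) = u' ((i - 1) / 2) := by
    intro i hi1 hi2
    have h1 : (k + j0 + i) % (h + 1) = r0 + i := res_succ hk0 (by omega)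
    have h2 : (l + j0 + i) % (h + 1) = r0 + i :=
      res_succ ((res_add hkl j0).symm.trans hk0) (by omega)
    have h3 : (r0 + i - 1) % 12 = i - 1 := by
      obtain ⟨s, rfl⟩ := hr12
      omega
    constructor
    · rw [hu _ (by rw [h1]; omega), h1, h3]
    · rw [hu' _ (by rw [h2]; omega), h2, h3]
  -- equal letters
  have hstep : ∀ r, r < 6 → B (j0 + 2 * r + 1) = B (j0 + 2 * r) ∧
      B (j0 + 2 * r + 2) = B (j0 + 2 * r + 1) := by
    intro r hr
    have f1 := hrec (j0 + 2 * r) (by omega)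
    have f2 := hrec (j0 + 2 * r + 1) (by omega)
    obtain ⟨g1, g1'⟩ := hlet (2 * r + 1) (by omega) (by omega)
    obtain ⟨g2, g2'⟩ := hlet (2 * r + 2) (by omega) (by omega)
    have k1 : (2 * r + 1 - 1) / 2 = r := by omega
    have k2 : (2 * r + 2 - 1) / 2 = r := by omega
    rw [k1] at g1 g1'
    rw [k2] at g2 g2'
    have i1 : k + (j0 + 2 * r) + 1 = k + j0 + (2 * r + 1) := by omega
    have i2 : l + (j0 + 2 * r) + 1 = l + j0 + (2 * r + 1) := by omega
    have i3 : k + (j0 + 2 * r + 1) + 1 = k + j0 + (2 * r + 2) := by omega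
    have i4 : l + (j0 + 2 * r + 1) + 1 = l + j0 + (2 * r + 2) := by omega
    rw [i1, i2, g1, g1'] at f1
    rw [i3, i4, g2, g2'] at f2
    have f2' : B (j0 + 2 * r + 2) = (u r)⁻¹ * B (j0 + 2 * r + 1) * u' r := f2
    have hA1 : Commute (B (j0 + 2 * r + 1) * (B (j0 + 2 * r))⁻¹) c :=
      comm_div (hB' _ (by omega)) (hB' _ (by omega))
    have hA2 : Commute (B (j0 + 2 * r + 2) * (B (j0 + 2 * r + 1))⁻¹) c :=
      comm_div (hB' _ (by omega)) (hB' _ (by omega))
    have hA3 : B (j0 + 2 * r + 2) * (B (j0 + 2 * r + 1))⁻¹ =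
        (u r)⁻¹ * (B (j0 + 2 * r + 1) * (B (j0 + 2 * r))⁻¹) * ((u r)⁻¹)⁻¹ := by
      rw [f2']
      nth_rewrite 2 [f1]
      group
    have hA0 : B (j0 + 2 * r + 1) * (B (j0 + 2 * r))⁻¹ = 1 := by
      by_contra hne
      have h1 : Commute (B (j0 + 2 * r + 1) * (B (j0 + 2 * r))⁻¹)
          ((u r)⁻¹ * (B (j0 + 2 * r + 1) * (B (j0 + 2 * r))⁻¹) * ((u r)⁻¹)⁻¹) := by
        rw [← hA3]
        exact hcsa.trans _ _ _ hc1 hA1 hA2.symm
      have h2 := hcsa.maln _ _ hne h1
      have h3 : Commute (u r) (B (j0 + 2 * r + 1) * (B (j0 + 2 * r))⁻¹) := by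
        have := h2.symm.inv_left
        rwa [inv_inv] at this
      have h4 := hcsa.trans _ _ _ hne h3 hA1
      rw [← g1] at h4
      exact hnc _ h4
    constructor
    · exact mul_inv_eq_one.mp hA0
    · rw [hA0] at hA3
      have : (u r)⁻¹ * 1 * ((u r)⁻¹)⁻¹ = 1 := by group
      rw [this] at hA3
      exact mul_inv_eq_one.mp hA3
  have hall : ∀ r, r ≤ 6 → B (j0 + 2 * r) = B j0 := by
    intro r
    induction r with
    | zero => intro _; rfl
    | succ r ih =>
      intro hr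
      have h1 := ih (by omega)
      obtain ⟨h2, h3⟩ := hstep r (by omega)
      have h4 : j0 + 2 * (r + 1) = j0 + 2 * r + 2 := by omega
      rw [h4, h3, h2, h1]
  refine ⟨B j0, k + j0, l + j0, res_add hkl j0, ?_, hB' j0 (by omega), ?_⟩
  · show q = bs c t nn (k + j0) * ((bs c t nn (k + j0))⁻¹ * q * bs c' t' nn (l + j0)) *
      (bs c' t' nn (l + j0))⁻¹
    group
  · intro r hr
    have f1 := hrec (j0 + 2 * r) (by omega)
    obtain ⟨g1, g1'⟩ := hlet (2 * r + 1) (by omega) (by omega)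
    have k1 : (2 * r + 1 - 1) / 2 = r := by omega
    rw [k1] at g1 g1'
    have i1 : k + (j0 + 2 * r) + 1 = k + j0 + (2 * r + 1) := by omega
    have i2 : l + (j0 + 2 * r) + 1 = l + j0 + (2 * r + 1) := by omega
    rw [i1, i2, g1, g1', (hstep r hr).1, hall r (by omega)] at f1
    have f2 : u r * B j0 = B j0 * u' r := by
      nth_rewrite 1 [f1]
      group
    rw [← f2]
    group

end Pool.Agent.Olsh
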