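import Pool.Agent.Olsh.StmtsE

/-!
# MP_3cdb71_al: intervals with a large overlap have commuting generators
-/

set_option autoImplicit false

namespace Pool.Agent.Olsh

theorem ECOM : Stmt_ECOM := by
  intro L1 G X _ _ d P D m m' lam lam' x x' e e' _ hov ht ht' hL i j hi hj ho
  unfold Ovl at ho
  have h1 : x i ≤ max (x i) (x' j) := le_max_left _ _
  have h2 : x' j ≤ max (x i) (x' j) := le_max_right _ _
  have h3 : min (x (i + 1)) (x' (j + 1)) ≤ x (i + 1) := min_le_left _ _
  have h4 : min (x (i + 1)) (x' (j + 1)) ≤ x' (j + 1) := min_le_right _ _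
  have h5 : x (i + 1) ≤ D := ht.le (i + 1) (by omega)
  set a := max (x i) (x' j) with ha
  set b := min (x (i + 1)) (x' (j + 1)) with hb
  obtain ⟨c, hc⟩ : ∃ c, b = a + 60 * (lam + lam') + c := ⟨b - (a + 60 * (lam + lam')), by omega⟩
  have e1 := ht.disp i hi (a + 25 * (lam + lam')) (by omega) (by omega)
  have e2 := ht.disp i hi (a + 35 * (lam + lam')) (by omega) (by omega)
  have e3 := ht'.disp j hj (a + 25 * (lam + lam')) (by omega) (by omega)
  have e4 := ht'.disp j hj (a + 35 * (lam + lam')) (by omega) (by omega)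
  have hd := ht.geo (a + 25 * (lam + lam')) (a + 35 * (lam + lam')) (by omega) (by omega)
  exact hov (e i) (e' j) (P (a + 25 * (lam + lam'))) (P (a + 35 * (lam + lam')))
    (14 * lam / 10) (14 * lam' / 10) (by omega) (by omega) (by omega) (by omega) (by omega)

end Pool.Agent.Olsh
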