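import Pool.Agent.Olsh.StmtsE
import Pool.Agent.Olsh.Axis

/-!
# EDISP: the block generator moves the points of its edge by at most `1.3 |c|`
-/

set_option autoImplicit false

namespace Pool.Agent.Olsh

namespace EDISP

variable {G X : Type} [Group G] [MulAction G X] {d : X → X → ℕ} {δ : ℕ}

/-- The displacement of `c` at the points of a geodesic from `o` to `c^n t o`. -/
theorem base (hd : IsGM d) (hh : Hyp d δ) (hG : IsomAct G d) {c t : G} {o : X} (n : ℕ)
    (ho : o ∈ Mn d c) (hL : 1000 * (δ + 1) ≤ disp d c) (ht : 10 * d o (t • o) ≤ disp d c)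
    {w : X} (hw : Bt d o w ((c ^ n * t) • o)) : 10 * d w (c • w) ≤ 13 * disp d c := by
  have hs := hh.slim hd
  have he : d (c ^ n • o) ((c ^ n * t) • o) = d o (t • o) := by
    rw [mul_smul, hG]
  have hce : d (c ^ n • o) (c • c ^ n • o) = disp d c := by
    have h1 := hG.pow_mem_Mn ho (n : ℤ)
    rw [zpow_natCast] at h1
    exact h1
  have hoo : d o (c • o) = disp d c := ho
  obtain ⟨u, hu, hwu⟩ := hs _ _ (c ^ n • o) w hw
  rcases hu with hu | hu
  · rcases Nat.eq_zero_or_pos n with h0 | h0
    · subst h0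
      rw [pow_zero, one_smul] at hu
      have h1 := hd.self o
      have h2 := hG.dist_base hd c w o
      have h3 := hd.tri w u o
      have h4 := hd.comm o u
      unfold Bt at hu
      omega
    · have hch := hG.isChain_orbit hh hd ho (by omega) n
      have hu' : Bt d ((fun i => c ^ i • o) 0) u ((fun i => c ^ i • o) n) := by
        simpa using hu
      obtain ⟨i, hi, z', hz', hz2⟩ := hch.cover hh hd (by omega) h0 hu'
      have hm : z' ∈ Mn d c := by
        have h1 := hG.pow_mem_Mn ho (i : ℤ)
        rw [zpow_natCast] at h1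
        refine hG.mem_Mn_of_bt hd h1 ?_
        have h2 : c • c ^ i • o = c ^ (i + 1) • o := by rw [smul_smul, ← pow_succ']
        rw [h2]
        exact hz'
      have h3 : d z' (c • z') = disp d c := hm
      have h4 := hG.dist_base hd c w z'
      have h5 := hd.tri w u z'
      omega
  · have h1 := hG.dist_base hd c w (c ^ n • o)
    have h2 := hd.tri w u (c ^ n • o)
    have h3 := hd.comm u (c ^ n • o)
    have h4 := hd.comm ((c ^ n * t) • o) u
    have h5 := hd.comm ((c ^ n * t) • o) (c ^ n • o)
    unfold Bt at hu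
    omega

end EDISP

/-- Module EDISP. -/
theorem EDISP : Stmt_EDISP := by
  intro δ G X _ _ d h c t o nn hd hh hG hB k z hz
  obtain ⟨s, hs⟩ : ∃ s : G, s = bs c t nn k := ⟨_, rfl⟩
  have h1 : bs c t nn (k + 1) = s * (c ^ nn k * t (k + 1)) := by
    rw [hs]
    exact mul_assoc _ _ _
  rw [h1, ← hs] at hz
  have h2 : Bt d o (s⁻¹ • z) ((c ^ nn k * t (k + 1)) • o) := by
    rw [← hG.bt_smul s, smul_inv_smul, smul_smul]
    exact hz
  have h3 := EDISP.base hd hh hG (nn k) hB.o_mem hB.big (hB.move (k + 1)) h2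
  have h4 : d z (bc c t nn k • z) = d (s⁻¹ • z) (c • s⁻¹ • z) := by
    have h5 := hG.conj c s (s⁻¹ • z)
    rw [smul_inv_smul] at h5
    unfold bc
    rw [← hs]
    exact h5
  rw [h4]
  exact h3

end Pool.Agent.Olsh
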