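import Pool.Agent.Olsh.StmtsE

/-!
# MP_3cdb71_al, module EFIND: a pair of intervals with a large overlap
-/

set_option autoImplicit false

namespace Pool.Agent.Olsh

namespace EFIND

theorem mono {x : ℕ → ℕ} {m Lam : ℕ} (h : ∀ i, i < m → x i + 2 * Lam ≤ x (i + 1)) :
    ∀ i j, i ≤ j → j ≤ m → x i ≤ x j := by
  intro i j hij
  induction j, hij using Nat.le_induction with
  | base => intro _; exact le_rfl
  | succ j hij ih =>
    intro hj
    have h1 := ih (by omega)
    have h2 := h j (by omega)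
    omega

/-- The interval which contains a value. -/
theorem locate {x : ℕ → ℕ} {m v : ℕ} (h0 : x 0 ≤ v) (hm : v < x m) :
    ∃ j, j < m ∧ x j ≤ v ∧ v < x (j + 1) := by
  classical
  have hex : ∃ n, v < x n := ⟨m, hm⟩
  have h1 := Nat.find_spec hex
  have h2 : Nat.find hex ≠ 0 := by
    intro e
    rw [e] at h1
    omega
  obtain ⟨j, hj⟩ := Nat.exists_eq_succ_of_ne_zero h2
  have h3 : ¬ v < x j := Nat.find_min hex (by omega)
  have h4 : Nat.find hex ≤ m := Nat.find_min' hex hm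
  refine ⟨j, by omega, by omega, ?_⟩
  rw [hj] at h1
  exact h1

theorem main (m m' Lam B : ℕ) (x x' : ℕ → ℕ) (hL : 1 ≤ Lam) (hB : 1 ≤ B)
    (h1 : ∀ i, i < m → x i + 2 * Lam ≤ x (i + 1)) (h2 : ∀ i, i < m' → x' i + 2 * Lam ≤ x' (i + 1))
    (h3 : ∀ i, i < m → x (i + 1) ≤ x i + B) (h4 : ∀ i, i < m' → x' (i + 1) ≤ x' i + B)
    (h5 : x 0 ≤ B) (h6 : x' 0 ≤ B) (h7 : 4 * B ≤ x m) (h8 : 4 * B ≤ x' m') :
    ∃ i j, i < m ∧ j < m' ∧ Ovl x x' i j Lam ∧ x i ≤ 3 * B ∧ x' j ≤ 3 * B := by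
  -- an index `i` with `x i` between `B` and `2 B`
  obtain ⟨i, hi1, hi2, hi3⟩ := locate (x := x) (m := m) (v := B) h5 (by omega)
  have hi4 := h3 i hi1
  -- now `B < x (i + 1) ≤ 2 B`
  have him : i + 1 < m := by
    rcases Nat.lt_or_ge (i + 1) m with h | h
    · exact h
    · have : i + 1 = m := by omega
      rw [this] at hi3 hi4
      omega
  obtain ⟨j, hj1, hj2, hj3⟩ := locate (x := x') (m := m') (v := x (i + 1)) (by omega) (by omega)
  have e1 := h1 (i + 1) him
  have e2 := h2 j hj1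
  have e3 := h3 (i + 1) him
  have e4 := h4 j hj1
  by_cases hc : x (i + 1) + Lam ≤ x' (j + 1)
  · refine ⟨i + 1, j, him, hj1, ?_, by omega, by omega⟩
    unfold Ovl
    omega
  · have hjm : j + 1 < m' := by
      rcases Nat.lt_or_ge (j + 1) m' with h | h
      · exact h
      · have : j + 1 = m' := by omega
        rw [this] at hc e4
        omega
    have e5 := h2 (j + 1) hjm
    refine ⟨i + 1, j + 1, him, hjm, ?_, by omega, by omega⟩
    unfold Ovl
    omega

end EFIND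

theorem EFIND : Stmt_EFIND :=
  fun m m' Lam B x x' hL hB h1 h2 h3 h4 h5 h6 h7 h8 =>
    EFIND.main m m' Lam B x x' hL hB h1 h2 h3 h4 h5 h6 h7 h8

end Pool.Agent.Olsh
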