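import Pool.Agent.Olsh.StmtsE
import Pool.Agent.Olsh.Iso

/-!
# MP_3cdb71_al: EGEO, comparable block systems have parallel blocks (`H92.md`, 8.5)
-/

set_option autoImplicit false

namespace Pool.Agent.Olsh

namespace EGEO

variable {G X : Type} [Group G] [MulAction G X] {d : X → X → ℕ} {δ : ℕ}

theorem slen_ge (hG : IsomAct G d) (hh : Hyp d δ) (hd : IsGM d) [Nonempty X] {c : G}
    (h : 1000 * (δ + 1) ≤ disp d c) : 99 * (disp d c : ℝ) ≤ 100 * slen d c := by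
  have h1 := hG.disp_le_slen hh hd c
  have h2 : (1000 : ℝ) * (δ + 1) ≤ disp d c := by exact_mod_cast h
  have h3 : (0 : ℝ) ≤ δ := Nat.cast_nonneg δ
  linarith

theorem bs_mono {K K' h : ℕ} {c : G} {t : ℕ → G} {o : X} (hb : IsBS G d K h c t o)
    (hK : K' ≤ K) : IsBS G d K' h c t o :=
  ⟨hb.o_mem, hK.trans hb.big, hb.tper, hb.move, hb.ncomm, hb.cent⟩

/-- Transport of a track. -/
theorem transport (hG : IsomAct G d) {P : ℕ → X} {D m lam : ℕ} {x : ℕ → ℕ} {e : ℕ → G} {q : G}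
    (T : IsTrack d (fun s => q⁻¹ • P s) D m lam x e) :
    IsTrack d P D m lam x (fun i => q * e i * q⁻¹) := by
  constructor
  · intro i j hij hj
    have h1 : d (q⁻¹ • P i) (q⁻¹ • P j) = j - i := T.geo i j hij hj
    rwa [hG] at h1
  · exact T.le
  · exact T.mono
  · intro i hi s h1 h2
    have := T.disp i hi s h1 h2
    have e1 : d (P s) ((q * e i * q⁻¹) • P s) = d (q⁻¹ • P s) (e i • q⁻¹ • P s) := by
      rw [mul_smul, mul_smul, ← hG q (q⁻¹ • P s), smul_inv_smul]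
    rw [e1]
    exact this
  · intro i hi h1
    apply T.ne i hi
    have h2 : e i = q⁻¹ * (q * e i * q⁻¹) * q := by group
    rw [h2, h1]
    group
  · intro i hi h1
    apply T.ncomm i hi
    have h2 : ∀ a : G, a = q⁻¹ * (q * a * q⁻¹) * q := by
      intro a
      group
    have h3 : q * e i * q⁻¹ * (q * e (i + 1) * q⁻¹) = q * e (i + 1) * q⁻¹ * (q * e i * q⁻¹) := h1
    show e i * e (i + 1) = e (i + 1) * e i
    have h4 : e i * e (i + 1) = q⁻¹ * (q * e i * q⁻¹ * (q * e (i + 1) * q⁻¹)) * q := by group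
    have h5 : e (i + 1) * e i = q⁻¹ * (q * e (i + 1) * q⁻¹ * (q * e i * q⁻¹)) * q := by group
    rw [h4, h5, h3]

/-- Bound of the positions. -/
theorem pos_le {m B : ℕ} {x : ℕ → ℕ} (h : ∀ i, i < m → x (i + 1) ≤ x i + B) (i r : ℕ)
    (hr : i + r ≤ m) : x (i + r) ≤ x i + r * B := by
  induction r with
  | zero => simp
  | succ r ih =>
    have h1 := ih (by omega)
    have h2 := h (i + r) (by omega)
    have e : i + (r + 1) = i + r + 1 := by omega
    rw [e]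
    have e2 : (r + 1) * B = r * B + B := by ring
    omega

/-- Two tracks with comparable intervals on the same geodesic are parallel on 30 intervals. -/
theorem par (h6 : Stmt_EPAR) (h7 : Stmt_EFIND) {L1 : ℕ} (hG : IsomAct G d)
    (hc : IsCSA G) (hov : OV G d L1) {P : ℕ → X} {D m m' lam lam' : ℕ} {x x' : ℕ → ℕ}
    {e e' : ℕ → G} (T1 : IsTrack d P D m lam x e) (T2 : IsTrack d P D m' lam' x' e')
    (hL : L1 ≤ lam + lam') (hpos : 1 ≤ lam) {n0 : ℕ} (hn : 40000 ≤ n0) (hr : lam ≤ 120 * lam')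
    (hr' : lam' ≤ 120 * lam)
    (hlo : ∀ i, i < m → x i + 39000 * lam ≤ x (i + 1))
    (hlo' : ∀ i, i < m' → x' i + 39000 * lam' ≤ x' (i + 1))
    (hhi : ∀ i, i < m → x (i + 1) ≤ x i + (2 * (n0 * lam) + 49 * lam))
    (hhi' : ∀ i, i < m' → x' (i + 1) ≤ x' i + (2 * (n0 * lam') + 49 * lam'))
    (hx0 : x 0 ≤ 3 * (n0 * lam)) (hx0' : x' 0 ≤ 3 * (n0 * lam'))
    (hxm : D ≤ x m + 3 * (n0 * lam)) (hxm' : D ≤ x' m' + 3 * (n0 * lam'))
    (hD : 100 * (n0 * max lam lam') ≤ D) :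
    ∃ i j, i + 30 < m ∧ j + 30 < m' ∧ ∀ r, r ≤ 30 → Commute (e (i + r)) (e' (j + r)) ∧
      (r < 30 → x (i + r + 1) ≤ x' (j + r + 1) + 60 * (lam + lam') ∧
        x' (j + r + 1) ≤ x (i + r + 1) + 60 * (lam + lam')) := by
  obtain ⟨M, hM⟩ : ∃ M, M = max lam lam' := ⟨_, rfl⟩
  have hM1 : lam ≤ M := by omega
  have hM2 : lam' ≤ M := by omega
  have a1 : n0 * lam ≤ n0 * M := Nat.mul_le_mul_left _ hM1
  have a2 : n0 * lam' ≤ n0 * M := Nat.mul_le_mul_left _ hM2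
  have a3 : 40000 * M ≤ n0 * M := Nat.mul_le_mul_right _ hn
  rw [← hM] at hD
  obtain ⟨A, hA⟩ : ∃ A, A = n0 * M := ⟨_, rfl⟩
  rw [← hA] at a1 a2 a3 hD
  obtain ⟨a, ha⟩ : ∃ a, a = n0 * lam := ⟨_, rfl⟩
  obtain ⟨b, hb⟩ : ∃ b, b = n0 * lam' := ⟨_, rfl⟩
  rw [← ha] at a1 hhi hx0 hxm
  rw [← hb] at a2 hhi' hx0' hxm'
  have hhiA : ∀ i, i < m → x (i + 1) ≤ x i + (2 * A + 49 * M) := by
    intro i hi
    have := hhi i hi
    omega
  have hhiA' : ∀ i, i < m' → x' (i + 1) ≤ x' i + (2 * A + 49 * M) := by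
    intro i hi
    have := hhi' i hi
    omega
  obtain ⟨i, j, hi, hj, hov2, hxi, hxj⟩ := h7 m m' (60 * (lam + lam')) (3 * A) x x' (by omega) (by omega)
    (fun i hi => by have := hlo i hi; omega) (fun i hi => by have := hlo' i hi; omega)
    (fun i hi => by have := hhiA i hi; omega) (fun i hi => by have := hhiA' i hi; omega)
    (by omega) (by omega) (by omega) (by omega)
  have hm : i + 30 < m := by
    by_contra hcon
    have h1 := pos_le hhiA i (m - i) (by omega)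
    have e1 : i + (m - i) = m := by omega
    rw [e1] at h1
    have h2 : (m - i) * (2 * A + 49 * M) ≤ 30 * (2 * A + 49 * M) :=
      Nat.mul_le_mul_right _ (by omega)
    omega
  have hm' : j + 30 < m' := by
    by_contra hcon
    have h1 := pos_le hhiA' j (m' - j) (by omega)
    have e1 : j + (m' - j) = m' := by omega
    rw [e1] at h1
    have h2 : (m' - j) * (2 * A + 49 * M) ≤ 30 * (2 * A + 49 * M) :=
      Nat.mul_le_mul_right _ (by omega)
    omega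
  refine ⟨i, j, hm, hm', fun r hr => ?_⟩
  obtain ⟨-, h2, h3⟩ := h6 L1 G X d P D m m' lam lam' x x' e e' hc hG hov T1 T2 hL
    (fun i hi => by have := hlo i hi; omega) (fun i hi => by have := hlo' i hi; omega) i j hov2 r
    (by omega) (by omega)
  exact ⟨h2, fun h4 => h3 (by omega) (by omega)⟩

/-- Lengths of the intervals in natural numbers. -/
theorem len_nat {lam n0 n a b : ℕ} {s : ℝ} (hn : 40000 ≤ n0) (h1 : n0 ≤ n) (h2 : n ≤ 2 * n0)
    (hs : 99 * (lam : ℝ) ≤ 100 * s) (hs' : s ≤ lam) (h3 : (n : ℝ) * s ≤ (b : ℝ) - a + 49 * lam)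
    (h4 : (b : ℝ) - a ≤ n * s + 49 * lam) :
    a + 39000 * lam ≤ b ∧ b ≤ a + (2 * (n0 * lam) + 49 * lam) := by
  have hl : (0 : ℝ) ≤ lam := Nat.cast_nonneg _
  have hs0 : 0 ≤ s := by linarith
  have e1 : (40000 : ℝ) ≤ n := by exact_mod_cast hn.trans h1
  have e2 : (n : ℝ) ≤ 2 * n0 := by exact_mod_cast h2
  constructor
  · have h5 : (40000 : ℝ) * s ≤ n * s := mul_le_mul_of_nonneg_right e1 hs0
    have h6 : (a : ℝ) + 39000 * lam ≤ b := by linarith
    exact_mod_cast h6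
  · have h5 : (n : ℝ) * s ≤ 2 * n0 * lam := mul_le_mul e2 hs' hs0 (by positivity)
    have h6 : (b : ℝ) ≤ a + (2 * (n0 * lam) + 49 * lam) := by linarith
    exact_mod_cast h6

/-- The exponents of parallel blocks are equal. -/
theorem exp_eq {h n0 : ℕ} {nn : ℕ → ℕ} (hE : IsExp h n0 nn) {lam : ℕ} {s : ℝ} (hl : 1 ≤ lam)
    (hs : 99 * (lam : ℝ) ≤ 100 * s) {k l a b a' b' : ℕ}
    (h1 : (nn k : ℝ) * s ≤ (b : ℝ) - a + 49 * lam) (h2 : (b : ℝ) - a ≤ nn k * s + 49 * lam)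
    (h1' : (nn l : ℝ) * s ≤ (b' : ℝ) - a' + 49 * lam)
    (h2' : (b' : ℝ) - a' ≤ nn l * s + 49 * lam) (ha : a ≤ a' + 120 * lam)
    (ha' : a' ≤ a + 120 * lam) (hb : b ≤ b' + 120 * lam) (hb' : b' ≤ b + 120 * lam) :
    nn k = nn l := by
  by_contra hcon
  have hl' : (1 : ℝ) ≤ lam := by exact_mod_cast hl
  have e1 : (a : ℝ) ≤ a' + 120 * lam := by exact_mod_cast ha
  have e2 : (a' : ℝ) ≤ a + 120 * lam := by exact_mod_cast ha'
  have e3 : (b : ℝ) ≤ b' + 120 * lam := by exact_mod_cast hb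
  have e4 : (b' : ℝ) ≤ b + 120 * lam := by exact_mod_cast hb'
  have hs0 : 0 < s := by linarith
  rcases hE.sep k l hcon with h3 | h3
  · have h4 : (nn k : ℝ) + 1000 ≤ nn l := by exact_mod_cast h3
    have h5 : ((nn k : ℝ) + 1000) * s ≤ nn l * s := mul_le_mul_of_nonneg_right h4 hs0.le
    linarith
  · have h4 : (nn l : ℝ) + 1000 ≤ nn k := by exact_mod_cast h3
    have h5 : ((nn l : ℝ) + 1000) * s ≤ nn k * s := mul_le_mul_of_nonneg_right h4 hs0.le
    linarith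

/-- Commuting conjugates. -/
theorem comm_conj {c c' s s' q : G} (h : Commute (s * c * s⁻¹) (q * (s' * c' * s'⁻¹) * q⁻¹)) :
    Commute c ((s⁻¹ * q * s') * c' * (s⁻¹ * q * s')⁻¹) := by
  have h1 : s * c * s⁻¹ * (q * (s' * c' * s'⁻¹) * q⁻¹) =
    q * (s' * c' * s'⁻¹) * q⁻¹ * (s * c * s⁻¹) := h
  show c * ((s⁻¹ * q * s') * c' * (s⁻¹ * q * s')⁻¹) = (s⁻¹ * q * s') * c' * (s⁻¹ * q * s')⁻¹ * c
  have e1 : c * ((s⁻¹ * q * s') * c' * (s⁻¹ * q * s')⁻¹) =
    s⁻¹ * (s * c * s⁻¹ * (q * (s' * c' * s'⁻¹) * q⁻¹)) * s := by group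
  have e2 : (s⁻¹ * q * s') * c' * (s⁻¹ * q * s')⁻¹ * c =
    s⁻¹ * (q * (s' * c' * s'⁻¹) * q⁻¹ * (s * c * s⁻¹)) * s := by group
  rw [e1, e2, h1]

/-- No torsion. -/
theorem zpow_eq_one (hG : IsomAct G d) (hh : Hyp d δ) (hd : IsGM d) [Nonempty X] {c : G}
    (h : 1000 * (δ + 1) ≤ disp d c) (m : ℤ) (hm : c ^ m = 1) : m = 0 := by
  have key : ∀ n : ℕ, c ^ n = 1 → n = 0 := by
    intro n hn
    by_contra h0
    obtain ⟨v⟩ := ‹Nonempty X›
    have h1 := IsomAct.slen_mul_le (d := d) c v n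
    have h3 := slen_ge hG hh hd h
    rw [hn, one_smul, hd.self] at h1
    have h4 : (1 : ℝ) ≤ n := by exact_mod_cast Nat.one_le_iff_ne_zero.2 h0
    have h5 : (1000 : ℝ) * (δ + 1) ≤ disp d c := by exact_mod_cast h
    have h6 : (0 : ℝ) ≤ δ := Nat.cast_nonneg δ
    have h7 : 0 < slen d c := by linarith
    have h8 : 0 < (n : ℝ) * slen d c := mul_pos (by linarith) h7
    have h9 : (n : ℝ) * slen d c ≤ 0 := by simpa using h1
    linarith
  rcases Int.natAbs_eq m with h1 | h1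
  · rw [h1, zpow_natCast] at hm
    have := key _ hm
    omega
  · rw [h1, zpow_neg, zpow_natCast, inv_eq_one] at hm
    have := key _ hm
    omega

/-- The sign. -/
theorem sign_pos (hG : IsomAct G d) (hd : IsGM d) {c c' b : G} {o o' : X}
    {n lam : ℕ} (hl : 1 ≤ lam) (hs : 99 * (lam : ℝ) ≤ 100 * slen d c) (hn : 1000 ≤ n)
    (h1 : d o (b • o') ≤ 171 * lam) (h2 : d (c ^ n • o) (b • c' ^ n • o') ≤ 171 * lam) :
    b * c' * b⁻¹ ≠ c⁻¹ := by
  intro hb
  have e1 : b * c' ^ n = (c ^ n)⁻¹ * b := by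
    have : (b * c' * b⁻¹) ^ n = (c⁻¹) ^ n := by rw [hb]
    rw [conj_pow, inv_pow] at this
    rw [← this]
    group
  have e2 : b • c' ^ n • o' = (c ^ n)⁻¹ • b • o' := by
    rw [smul_smul, e1, mul_smul]
  rw [e2] at h2
  have h3 : d ((c ^ n)⁻¹ • o) ((c ^ n)⁻¹ • b • o') = d o (b • o') := hG _ _ _
  have h4 := hd.tri (c ^ n • o) ((c ^ n)⁻¹ • b • o') ((c ^ n)⁻¹ • o)
  have h5 := hd.comm ((c ^ n)⁻¹ • o) ((c ^ n)⁻¹ • b • o')
  have h6 : d (c ^ n • o) ((c ^ n)⁻¹ • o) = d o (c ^ (n + n) • o) := by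
    rw [hd.comm, hG.inv, pow_add, mul_smul]
  have h7 : d o (c ^ (n + n) • o) ≤ 342 * lam := by omega
  have h8 := IsomAct.slen_mul_le (d := d) c o (n + n)
  have h9 : (d o (c ^ (n + n) • o) : ℝ) ≤ 342 * lam := by exact_mod_cast h7
  have h10 : (2000 : ℝ) ≤ ((n + n : ℕ) : ℝ) := by exact_mod_cast (by omega : 2000 ≤ n + n)
  have h11 : (1 : ℝ) ≤ lam := by exact_mod_cast hl
  have h12 : (0 : ℝ) ≤ slen d c := by linarith
  have h13 : (2000 : ℝ) * slen d c ≤ ((n + n : ℕ) : ℝ) * slen d c :=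
    mul_le_mul_of_nonneg_right h10 h12
  linarith

/-- Parallel blocks with indices `K`, `K'` have equal exponents. -/
theorem exps {h n0 : ℕ} {nn : ℕ → ℕ} (hE : IsExp h n0 nn) {lam : ℕ} {s : ℝ} (hl : 1 ≤ lam)
    (hs : 99 * (lam : ℝ) ≤ 100 * s) {K K' x x' : ℕ → ℕ} {m m' i j : ℕ} (hi : i + 30 < m)
    (hj : j + 30 < m')
    (hlen : ∀ i, i < m → (nn (K i) : ℝ) * s ≤ (x (i + 1) : ℝ) - x i + 49 * lam ∧
      (x (i + 1) : ℝ) - x i ≤ nn (K i) * s + 49 * lam)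
    (hlen' : ∀ i, i < m' → (nn (K' i) : ℝ) * s ≤ (x' (i + 1) : ℝ) - x' i + 49 * lam ∧
      (x' (i + 1) : ℝ) - x' i ≤ nn (K' i) * s + 49 * lam)
    (hx : ∀ r, r < 30 → x (i + r + 1) ≤ x' (j + r + 1) + 120 * lam ∧
      x' (j + r + 1) ≤ x (i + r + 1) + 120 * lam) :
    ∀ r, 1 ≤ r → r < 30 → nn (K (i + r)) = nn (K' (j + r)) := by
  intro r h1 h2
  obtain ⟨a1, a2⟩ := hlen (i + r) (by omega)
  obtain ⟨b1, b2⟩ := hlen' (j + r) (by omega)
  obtain ⟨c1, c2⟩ := hx (r - 1) (by omega)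
  obtain ⟨d1, d2⟩ := hx r h2
  have e1 : i + (r - 1) + 1 = i + r := by omega
  have e2 : j + (r - 1) + 1 = j + r := by omega
  rw [e1, e2] at c1 c2
  exact exp_eq hE hl hs a1 a2 b1 b2 c1 c2 d1 d2

theorem geo_dist (hd : IsGM d) {P : ℕ → X} {D a b K : ℕ} (hP : IsGeo d D P) (ha : a ≤ D)
    (hb : b ≤ D) (h1 : a ≤ b + K) (h2 : b ≤ a + K) : d (P a) (P b) ≤ K := by
  rcases le_total a b with h | h
  · have := hP a b h hb
    omega
  · have h3 := hP b a h ha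
    have h4 := hd.comm (P a) (P b)
    omega

/-- Equal lengths of the generators, and the sign alternative. -/
theorem alg (h8 : Stmt_EALG1) (hd : IsGM d) (hh : Hyp d δ) (hG : IsomAct G d) {L1 h : ℕ}
    {c c' : G} {t t' : ℕ → G} {o o' : X} (hb : IsBS G d (1000 * (δ + L1 + 1)) h c t o)
    (hb' : IsBS G d (1000 * (δ + L1 + 1)) h c' t' o') {s s' q : G}
    (hc : Commute (s * c * s⁻¹) (q * (s' * c' * s'⁻¹) * q⁻¹)) :
    ((s⁻¹ * q * s') * c' * (s⁻¹ * q * s')⁻¹ = c ∨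
      (s⁻¹ * q * s') * c' * (s⁻¹ * q * s')⁻¹ = c⁻¹) ∧ disp d c' = disp d c ∧
      slen d c' = slen d c := by
  have : Nonempty X := ⟨o⟩
  have hbig := hb.big
  have h1 := h8 G c c' (s⁻¹ * q * s') hb.cent hb'.cent
    (zpow_eq_one hG hh hd (le_trans (by omega) hbig)) (comm_conj hc)
  refine ⟨h1, ?_, ?_⟩
  · rw [← hG.disp_conj c' (s⁻¹ * q * s')]
    rcases h1 with h1 | h1
    · rw [h1]
    · rw [h1, hG.disp_inv hd]
  · rw [← hG.slen_conj c' (s⁻¹ * q * s')]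
    rcases h1 with h1 | h1
    · rw [h1]
    · rw [h1, hG.slen_inv hd]

/-- The sign is positive for parallel blocks in the same direction. -/
theorem sign (hd : IsGM d) (hG : IsomAct G d) {K h : ℕ} {c c' : G} {t t' : ℕ → G} {o o' : X}
    (hb : IsBS G d K h c t o) (hb' : IsBS G d K h c' t' o') (hl : 1 ≤ disp d c)
    (hs : 99 * (disp d c : ℝ) ≤ 100 * slen d c) (hdisp : disp d c' = disp d c) {nn : ℕ → ℕ}
    {k l : ℕ} {q : G} (hn : 1000 ≤ nn k) (hkl : nn k = nn l)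
    (h1 : d (bs c t nn k • o) (q • bs c' t' nn l • o') ≤ 170 * disp d c)
    (h2 : d (bs c t nn (k + 1) • o) (q • bs c' t' nn (l + 1) • o') ≤ 170 * disp d c) :
    ((bs c t nn k)⁻¹ * q * bs c' t' nn l) * c' * ((bs c t nn k)⁻¹ * q * bs c' t' nn l)⁻¹ ≠ c⁻¹ := by
  have hm := hb.move (k + 1)
  have hm' := hb'.move (l + 1)
  refine sign_pos (o := o) (o' := o') (n := nn k) hG hd hl hs hn ?_ ?_
  · rw [mul_smul, mul_smul]
    have h3 := hG.inv (bs c t nn k) (q • bs c' t' nn l • o') o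
    have h4 := hd.comm o ((bs c t nn k)⁻¹ • q • bs c' t' nn l • o')
    have h5 := hd.comm (bs c t nn k • o) (q • bs c' t' nn l • o')
    omega
  · rw [mul_smul, mul_smul]
    have e1 : bs c t nn (k + 1) • o = bs c t nn k • c ^ nn k • t (k + 1) • o := by
      show (bs c t nn k * c ^ nn k * t (k + 1)) • o = _
      rw [mul_smul, mul_smul]
    have e2 : bs c' t' nn (l + 1) • o' = bs c' t' nn l • c' ^ nn k • t' (l + 1) • o' := by
      show (bs c' t' nn l * c' ^ nn l * t' (l + 1)) • o' = _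
      rw [mul_smul, mul_smul, hkl]
    rw [e1, e2] at h2
    have a1 : d (bs c t nn k • c ^ nn k • o) (bs c t nn k • c ^ nn k • t (k + 1) • o) =
      d o (t (k + 1) • o) := by rw [hG, hG]
    have a2 : d (q • bs c' t' nn l • c' ^ nn k • t' (l + 1) • o')
      (q • bs c' t' nn l • c' ^ nn k • o') = d o' (t' (l + 1) • o') := by
      rw [hG, hG, hG, hd.comm]
    have a3 := hd.tri (bs c t nn k • c ^ nn k • o) (bs c t nn k • c ^ nn k • t (k + 1) • o)
      (q • bs c' t' nn l • c' ^ nn k • o')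
    have a4 := hd.tri (bs c t nn k • c ^ nn k • t (k + 1) • o)
      (q • bs c' t' nn l • c' ^ nn k • t' (l + 1) • o') (q • bs c' t' nn l • c' ^ nn k • o')
    have a5 : d (c ^ nn k • o) ((bs c t nn k)⁻¹ • q • bs c' t' nn l • c' ^ nn k • o') =
      d (bs c t nn k • c ^ nn k • o) (q • bs c' t' nn l • c' ^ nn k • o') := by
      rw [← hG (bs c t nn k) (c ^ nn k • o), smul_inv_smul]
    omega

/-- The theorem for `k1 ≤ k2` and points on the edges. -/
theorem core (h3 : Stmt_ETRA) (h4 : Stmt_ETRB) (h6 : Stmt_EPAR) (h7 : Stmt_EFIND)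
    (h8 : Stmt_EALG1) {L1 h n0 : ℕ} {c c' : G} {t t' : ℕ → G} {o o' : X} {nn : ℕ → ℕ}
    (hd : IsGM d) (hh : Hyp d δ) (hG : IsomAct G d) (hcsa : IsCSA G) (hov : OV G d L1)
    (hb : IsBS G d (1000 * (δ + L1 + 1)) h c t o) (hb' : IsBS G d (1000 * (δ + L1 + 1)) h c' t' o')
    (hn : 40000 ≤ n0) (hE : IsExp h n0 nn) (hr : disp d c ≤ 120 * disp d c')
    (hr' : disp d c' ≤ 120 * disp d c) {q : G} {P : ℕ → X} {D k1 k2 l1 l2 : ℕ}
    {z1 z2 z1' z2' : X} (hP : IsGeo d D P)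
    (hz1 : Bt d (bs c t nn k1 • o) z1 (bs c t nn (k1 + 1) • o))
    (hz2 : Bt d (bs c t nn k2 • o) z2 (bs c t nn (k2 + 1) • o))
    (hz1' : Bt d (bs c' t' nn l1 • o') z1' (bs c' t' nn (l1 + 1) • o'))
    (hz2' : Bt d (bs c' t' nn l2 • o') z2' (bs c' t' nn (l2 + 1) • o'))
    (hd1 : d (P 0) z1 ≤ 13 * disp d c) (hd2 : d (P D) z2 ≤ 13 * disp d c)
    (hd1' : d (q⁻¹ • P 0) z1' ≤ 13 * disp d c') (hd2' : d (q⁻¹ • P D) z2' ≤ 13 * disp d c')
    (hD : 100 * (n0 * max (disp d c) (disp d c')) ≤ D) (hk : k1 ≤ k2) :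
    ∃ k l, k % (h + 1) = l % (h + 1) ∧ ∀ j, j ≤ 26 →
      ((bs c t nn (k + j))⁻¹ * q * bs c' t' nn (l + j)) * c' *
        ((bs c t nn (k + j))⁻¹ * q * bs c' t' nn (l + j))⁻¹ = c := by
  have : Nonempty X := ⟨o⟩
  have hbig := hb.big
  have hbig' := hb'.big
  have hs := slen_ge hG hh hd (c := c) (le_trans (by omega) hbig)
  have hs' := slen_ge hG hh hd (c := c') (le_trans (by omega) hbig')
  have hsl := IsomAct.slen_le_disp (d := d) c
  have hsl' := IsomAct.slen_le_disp (d := d) c'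
  have m1 : n0 * disp d c ≤ n0 * max (disp d c) (disp d c') :=
    Nat.mul_le_mul_left _ (le_max_left _ _)
  have m2 : n0 * disp d c' ≤ n0 * max (disp d c) (disp d c') :=
    Nat.mul_le_mul_left _ (le_max_right _ _)
  obtain ⟨hk12, x, T1, hx0, hxm, hpos, hlen, -⟩ := h3 δ L1 G X d h n0 c t o nn hd hh hG hcsa hov hb
    (by omega) hE.low hE.up P D k1 k2 z1 z2 hP hz1 hz2 hd1 hd2 (by omega) hk
  have hP' : IsGeo d D (fun s => q⁻¹ • P s) := by
    intro i j hij hj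
    show d (q⁻¹ • P i) (q⁻¹ • P j) = j - i
    rw [hG]
    exact hP i j hij hj
  have hlo : ∀ i, i < k2 - (k1 + 1) → x i + 39000 * disp d c ≤ x (i + 1) ∧
      x (i + 1) ≤ x i + (2 * (n0 * disp d c) + 49 * disp d c) := fun i hi =>
    len_nat hn (hE.low _) (hE.up _) hs hsl (hlen i hi).1 (hlen i hi).2
  rcases le_total l1 l2 with hl | hl
  · -- the same direction
    obtain ⟨hl12, x', T2, hx0', hxm', hpos', hlen', -⟩ := h3 δ L1 G X d h n0 c' t' o' nn hd hh hG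
      hcsa hov hb' (by omega) hE.low hE.up (fun s => q⁻¹ • P s) D l1 l2 z1' z2' hP' hz1' hz2' hd1'
      hd2' (by omega) hl
    have hlo' : ∀ i, i < l2 - (l1 + 1) → x' i + 39000 * disp d c' ≤ x' (i + 1) ∧
        x' (i + 1) ≤ x' i + (2 * (n0 * disp d c') + 49 * disp d c') := fun i hi =>
      len_nat hn (hE.low _) (hE.up _) hs' hsl' (hlen' i hi).1 (hlen' i hi).2
    have T2' := transport hG T2
    obtain ⟨i, j, hi, hj, hpar⟩ := par h6 h7 hG hcsa hov T1 T2' (by omega) (by omega) hn hr hr'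
      (fun i hi => (hlo i hi).1) (fun i hi => (hlo' i hi).1) (fun i hi => (hlo i hi).2)
      (fun i hi => (hlo' i hi).2) hx0 hx0' hxm hxm' hD
    have halg : ∀ r, r ≤ 30 → _ := fun r hr => alg h8 hd hh hG hb hb' (hpar r hr).1
    obtain ⟨-, hdisp, hslen⟩ := halg 0 (by omega)
    rw [hdisp] at hpar hlen' hpos'
    rw [hslen] at hlen'
    have hx : ∀ r, r < 30 → x (i + r + 1) ≤ x' (j + r + 1) + 120 * disp d c ∧
        x' (j + r + 1) ≤ x (i + r + 1) + 120 * disp d c := by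
      intro r hr
      have := (hpar r (by omega)).2 hr
      omega
    have hex := exps (K := fun i => k1 + 1 + i) (K' := fun j => l1 + 1 + j) hE (lam := disp d c)
      (by omega) hs hi hj hlen hlen' hx
    have hu := hE.uniq (k1 + 1 + (i + 1)) (l1 + 1 + (j + 1)) (by
      intro r hr
      have := hex (r + 1) (by omega) (by omega)
      have e1 : k1 + 1 + (i + 1) + r = k1 + 1 + (i + (r + 1)) := by omega
      have e2 : l1 + 1 + (j + 1) + r = l1 + 1 + (j + (r + 1)) := by omega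
      rw [e1, e2]
      exact this)
    refine ⟨k1 + 1 + (i + 1), l1 + 1 + (j + 1), hu, fun j0 hj0 => ?_⟩
    have hclose : ∀ r, 1 ≤ r → r ≤ 30 → d (bs c t nn (k1 + 1 + (i + r)) • o)
        (q • bs c' t' nn (l1 + 1 + (j + r)) • o') ≤ 170 * disp d c := by
      intro r h1 h2
      have a1 := hpos (i + r) (by omega)
      have a2 := hpos' (j + r) (by omega)
      have a3 : d (P (x' (j + r))) (q • bs c' t' nn (l1 + 1 + (j + r)) • o') ≤ 25 * disp d c := by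
        rw [← hG q⁻¹, inv_smul_smul]
        exact a2
      obtain ⟨c1, c2⟩ := hx (r - 1) (by omega)
      have e1 : i + (r - 1) + 1 = i + r := by omega
      have e2 : j + (r - 1) + 1 = j + r := by omega
      rw [e1, e2] at c1 c2
      have a4 := geo_dist hd hP (T1.le (i + r) (by omega)) (T2.le (j + r) (by omega)) c1 c2
      have a5 := hd.tri' (bs c t nn (k1 + 1 + (i + r)) • o) (P (x (i + r)))
        (q • bs c' t' nn (l1 + 1 + (j + r)) • o')
      have a6 := hd.tri (P (x (i + r))) (P (x' (j + r)))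
        (q • bs c' t' nn (l1 + 1 + (j + r)) • o')
      omega
    have e1 : k1 + 1 + (i + 1) + j0 = k1 + 1 + (i + (j0 + 1)) := by omega
    have e2 : l1 + 1 + (j + 1) + j0 = l1 + 1 + (j + (j0 + 1)) := by omega
    rw [e1, e2]
    have hsign := sign hd hG hb hb' (by omega) hs hdisp (k := k1 + 1 + (i + (j0 + 1)))
      (l := l1 + 1 + (j + (j0 + 1))) (q := q) (by
        have := hE.low (k1 + 1 + (i + (j0 + 1)))
        omega) (hex (j0 + 1) (by omega) (by omega)) (hclose (j0 + 1) (by omega) (by omega))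
        (hclose (j0 + 2) (by omega) (by omega))
    rcases (halg (j0 + 1) (by omega)).1 with h1 | h1
    · exact h1
    · exact absurd h1 hsign
  · -- opposite directions
    obtain ⟨hl12, x', T2, hx0', hxm', hlen'⟩ := h4 δ L1 G X d h n0 c' t' o' nn hd hh hG
      hcsa hov hb' (by omega) hE.low hE.up (fun s => q⁻¹ • P s) D l1 l2 z1' z2' hP' hz1' hz2' hd1'
      hd2' (by omega) hl
    have hlo' : ∀ i, i < l1 - (l2 + 1) → x' i + 39000 * disp d c' ≤ x' (i + 1) ∧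
        x' (i + 1) ≤ x' i + (2 * (n0 * disp d c') + 49 * disp d c') := fun i hi =>
      len_nat hn (hE.low _) (hE.up _) hs' hsl' (hlen' i hi).1 (hlen' i hi).2
    have T2' := transport hG T2
    obtain ⟨i, j, hi, hj, hpar⟩ := par h6 h7 hG hcsa hov T1 T2' (by omega) (by omega) hn hr hr'
      (fun i hi => (hlo i hi).1) (fun i hi => (hlo' i hi).1) (fun i hi => (hlo i hi).2)
      (fun i hi => (hlo' i hi).2) hx0 hx0' hxm hxm' hD
    obtain ⟨-, hdisp, hslen⟩ := alg h8 hd hh hG hb hb' (hpar 0 (by omega)).1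
    rw [hdisp] at hpar hlen'
    rw [hslen] at hlen'
    have hx : ∀ r, r < 30 → x (i + r + 1) ≤ x' (j + r + 1) + 120 * disp d c ∧
        x' (j + r + 1) ≤ x (i + r + 1) + 120 * disp d c := by
      intro r hr
      have := (hpar r (by omega)).2 hr
      omega
    have hex := exps (K := fun i => k1 + 1 + i) (K' := fun j => l1 - (1 + j)) hE (lam := disp d c)
      (by omega) hs hi hj hlen hlen' hx
    exfalso
    apply hE.norev (k1 + 1 + (i + 1)) (l1 - (1 + (j + 1))) (by omega)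
    intro r hr
    have := hex (r + 1) (by omega) (by omega)
    have e1 : k1 + 1 + (i + 1) + r = k1 + 1 + (i + (r + 1)) := by omega
    have e2 : l1 - (1 + (j + 1)) - r = l1 - (1 + (j + (r + 1))) := by omega
    rw [e1, e2]
    exact this

/-- The points of the edges under powers of the relator. -/
theorem bt_rel (h2 : Stmt_EPER) (hG : IsomAct G d) {h : ℕ} {c : G} {t : ℕ → G} {o : X}
    {nn : ℕ → ℕ} (ht : ∀ i, t (i + (h + 1)) = t i) (hn : ∀ i, nn (i + (h + 1)) = nn i) {k : ℕ}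
    {z : X} (hz : Bt d (bs c t nn k • o) z (bs c t nn (k + 1) • o)) (m : ℕ) :
    Bt d (bs c t nn (k + m * (h + 1)) • o) (rel c t nn h ^ m • z)
      (bs c t nn (k + m * (h + 1) + 1) • o) := by
  have e1 := h2 G h c t nn ht hn k m
  have e2 := h2 G h c t nn ht hn (k + 1) m
  have e3 : k + 1 + m * (h + 1) = k + m * (h + 1) + 1 := by omega
  rw [e3] at e2
  rw [e1, e2, mul_smul, mul_smul]
  unfold Bt at *
  rw [hG, hG, hG]
  exact hz

/-- A common power of the relator moves two points near the minimal set close to edges. -/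
theorem two_points (h1 : Stmt_EREL) (h2 : Stmt_EPER) {L1 ρ h n0 : ℕ} {c : G} {t : ℕ → G}
    {o : X} {nn : ℕ → ℕ} (hd : IsGM d) (hh : Hyp d δ) (hG : IsomAct G d) (hcsa : IsCSA G)
    (hov : OV G d L1) (hb : IsBS G d (1000 * (δ + L1 + ρ + 1)) h c t o) (hn : 1000 ≤ n0)
    (h12 : 12 ≤ h) (hE : IsExp h n0 nn) {p1 p2 : X}
    (hp1 : ∃ y ∈ Mn d (rel c t nn h), d p1 y ≤ ρ) (hp2 : ∃ y ∈ Mn d (rel c t nn h), d p2 y ≤ ρ) :
    ∃ (r k1 k2 : ℕ) (z1 z2 : X), Bt d (bs c t nn k1 • o) z1 (bs c t nn (k1 + 1) • o) ∧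
      Bt d (bs c t nn k2 • o) z2 (bs c t nn (k2 + 1) • o) ∧
      d (rel c t nn h ^ r • p1) z1 ≤ 13 * disp d c ∧
      d (rel c t nn h ^ r • p2) z2 ≤ 13 * disp d c := by
  have hbig := hb.big
  obtain ⟨-, hrel, -⟩ := h1 δ L1 G X d h n0 c t o nn hd hh hG hcsa hov (bs_mono hb (by omega)) hn
    h12 hE
  obtain ⟨y1, hy1, hy1'⟩ := hp1
  obtain ⟨y2, hy2, hy2'⟩ := hp2
  obtain ⟨r1, k1, z1, hz1, hz1'⟩ := hrel y1 hy1
  obtain ⟨r2, k2, z2, hz2, hz2'⟩ := hrel y2 hy2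
  refine ⟨r1 + r2, k1 + r2 * (h + 1), k2 + r1 * (h + 1), rel c t nn h ^ r2 • z1,
    rel c t nn h ^ r1 • z2, bt_rel h2 hG hb.tper hE.per hz1 r2, bt_rel h2 hG hb.tper hE.per hz2 r1,
    ?_, ?_⟩
  · rw [add_comm r1 r2, pow_add, mul_smul, hG]
    have a1 := hd.tri (rel c t nn h ^ r1 • p1) (rel c t nn h ^ r1 • y1) z1
    rw [hG] at a1
    omega
  · rw [pow_add, mul_smul, hG]
    have a1 := hd.tri (rel c t nn h ^ r2 • p2) (rel c t nn h ^ r2 • y2) z2
    rw [hG] at a1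
    omega

end EGEO

theorem EGEO (h1 : Stmt_EREL) (h2 : Stmt_EPER) (h3 : Stmt_ETRA) (h4 : Stmt_ETRB)
    (_h5 : Stmt_ECOM) (h6 : Stmt_EPAR) (h7 : Stmt_EFIND) (h8 : Stmt_EALG1) : Stmt_EGEO := by
  intro δ L1 ρ G X _ _ d h n0 c c' t t' o o' nn hd hh hG hcsa hov hb hb' hn h12 hE hr hr' q p1 p2
    hp1 hp2 hp1' hp2' hD
  have hq : ∀ p : X, (∃ y ∈ Mn d (rel c' t' nn h), d p (q • y) ≤ ρ) →
      ∃ y ∈ Mn d (rel c' t' nn h), d (q⁻¹ • p) y ≤ ρ := by
    rintro p ⟨y, hy, hy'⟩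
    exact ⟨y, hy, by rw [hG.inv]; exact hy'⟩
  obtain ⟨r, k1, k2, z1, z2, hz1, hz2, hd1, hd2⟩ := EGEO.two_points h1 h2 hd hh hG hcsa hov hb
    (by omega) h12 hE hp1 hp2
  obtain ⟨r', l1, l2, z1', z2', hz1', hz2', hd1', hd2'⟩ := EGEO.two_points h1 h2 hd hh hG hcsa hov
    hb' (by omega) h12 hE (hq _ hp1') (hq _ hp2')
  have e1 : ∀ p : X, (rel c t nn h ^ r * q * (rel c' t' nn h ^ r')⁻¹)⁻¹ • rel c t nn h ^ r • p =
      rel c' t' nn h ^ r' • q⁻¹ • p := by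
    intro p
    rw [smul_smul, smul_smul]
    congr 1
    group
  have key : ∃ k l, k % (h + 1) = l % (h + 1) ∧ ∀ j, j ≤ 26 →
      ((bs c t nn (k + j))⁻¹ * (rel c t nn h ^ r * q * (rel c' t' nn h ^ r')⁻¹) *
        bs c' t' nn (l + j)) * c' * ((bs c t nn (k + j))⁻¹ *
        (rel c t nn h ^ r * q * (rel c' t' nn h ^ r')⁻¹) * bs c' t' nn (l + j))⁻¹ = c := by
    rcases le_total k1 k2 with hk | hk
    · obtain ⟨P, hP0, hPD, hP⟩ := hd.exists_geo (rel c t nn h ^ r • p1) (rel c t nn h ^ r • p2)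
      have e2 : d (rel c t nn h ^ r • p1) (rel c t nn h ^ r • p2) = d p1 p2 := hG _ _ _
      refine EGEO.core h3 h4 h6 h7 h8 hd hh hG hcsa hov (EGEO.bs_mono hb (by omega))
        (EGEO.bs_mono hb' (by omega)) hn hE hr hr' hP hz1 hz2 hz1' hz2' ?_ ?_ ?_ ?_ ?_ hk
      · rw [hP0]
        exact hd1
      · rw [hPD]
        exact hd2
      · rw [hP0, e1]
        exact hd1'
      · rw [hPD, e1]
        exact hd2'
      · rw [e2]
        exact hD
    · obtain ⟨P, hP0, hPD, hP⟩ := hd.exists_geo (rel c t nn h ^ r • p2) (rel c t nn h ^ r • p1)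
      have e2 : d (rel c t nn h ^ r • p2) (rel c t nn h ^ r • p1) = d p1 p2 := by
        rw [hG, hd.comm]
      refine EGEO.core h3 h4 h6 h7 h8 hd hh hG hcsa hov (EGEO.bs_mono hb (by omega))
        (EGEO.bs_mono hb' (by omega)) hn hE hr hr' hP hz2 hz1 hz2' hz1' ?_ ?_ ?_ ?_ ?_ hk
      · rw [hP0]
        exact hd2
      · rw [hPD]
        exact hd1
      · rw [hP0, e1]
        exact hd2'
      · rw [hPD, e1]
        exact hd1'
      · rw [e2]
        exact hD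
  obtain ⟨k, l, hkl, hj⟩ := key
  refine ⟨(r : ℤ), -(r' : ℤ), k, l, hkl, ?_⟩
  rw [zpow_neg, zpow_natCast, zpow_natCast]
  exact hj

end Pool.Agent.Olsh
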