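import Pool.Agent.Olsh.StmtsE

/-!
# MP_3cdb71_al, module EGP: small Gromov products of the chain `s_k o`
-/

set_option autoImplicit false

namespace Pool.Agent.Olsh

namespace EGP

variable {G X : Type} [Group G] [MulAction G X] {d : X → X → ℕ}

theorem bs_mono {K K' h : ℕ} {c : G} {t : ℕ → G} {o : X} (H : IsBS G d K h c t o)
    (hK : K' ≤ K) : IsBS G d K' h c t o :=
  ⟨H.o_mem, hK.trans H.big, H.tper, H.move, H.ncomm, H.cent⟩

theorem ne_one {K h : ℕ} {c : G} {t : ℕ → G} {o : X} (hd : IsGM d) (H : IsBS G d K h c t o)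
    (hK : 1 ≤ K) : c ≠ 1 := by
  rintro rfl
  have h1 := disp_le (d := d) (1 : G) o
  have h2 := H.big
  rw [one_smul, hd.self] at h1
  omega

theorem not_commute (hcsa : IsCSA G) {c : G} (hc : c ≠ 1) (t : ℕ → G) (nn : ℕ → ℕ)
    (hn : ∀ i, ¬ Commute (t i) c) (k : ℕ) : ¬ Commute (bc c t nn k) (bc c t nn (k + 1)) := by
  intro hcom
  have e1 : Commute c ((c ^ nn k * t (k + 1)) * c * (c ^ nn k * t (k + 1))⁻¹) := by
    have h1 : (bs c t nn k)⁻¹ * bc c t nn k * bs c t nn k = c := by
      unfold bc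
      group
    have h2 : (bs c t nn k)⁻¹ * bc c t nn (k + 1) * bs c t nn k =
        (c ^ nn k * t (k + 1)) * c * (c ^ nn k * t (k + 1))⁻¹ := by
      unfold bc
      show (bs c t nn k)⁻¹ * (bs c t nn k * c ^ nn k * t (k + 1) * c *
        (bs c t nn k * c ^ nn k * t (k + 1))⁻¹) * bs c t nn k = _
      group
    have h3 := hcom.eq
    have h4 : (bs c t nn k)⁻¹ * bc c t nn k * bs c t nn k *
        ((bs c t nn k)⁻¹ * bc c t nn (k + 1) * bs c t nn k) =
        (bs c t nn k)⁻¹ * bc c t nn (k + 1) * bs c t nn k *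
        ((bs c t nn k)⁻¹ * bc c t nn k * bs c t nn k) := by
      have e : ∀ s a b : G, s⁻¹ * a * s * (s⁻¹ * b * s) = s⁻¹ * (a * b) * s := by
        intro s a b
        group
      rw [e, e, h3]
    rw [h1, h2] at h4
    exact h4
  have e2 : Commute c (t (k + 1) * c * (t (k + 1))⁻¹) := by
    have h1 : (c ^ nn k)⁻¹ * ((c ^ nn k * t (k + 1)) * c * (c ^ nn k * t (k + 1))⁻¹) * c ^ nn k =
        t (k + 1) * c * (t (k + 1))⁻¹ := by
      group
    rw [← h1]
    have h2 : Commute c (c ^ nn k) := Commute.self_pow c _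
    exact (h2.inv_right.mul_right e1).mul_right h2
  exact hn (k + 1) (hcsa.maln c (t (k + 1)) hc e2).symm

end EGP

open EGP in
theorem EGP (h1 : Stmt_EDISP) : Stmt_EGP := by
  intro δ L1 G X _ _ d h n0 c t o nn hd hh hG hcsa hov H hn0 hnn k
  have hbig := H.big
  have hc := ne_one hd H (by omega)
  have hnc := not_commute hcsa hc t nn H.ncomm
  refine ⟨?_, hnc k, ?_⟩
  · by_contra hcon
    have H' := bs_mono H (show 1000 * (δ + 1) ≤ 1000 * (δ + L1 + 1) by omega)
    have D := h1 δ G X d h c t o nn hd hh hG H'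
    -- the edges are long
    have hlong : ∀ j, 12 * disp d c ≤ d (bs c t nn j • o) (bs c t nn (j + 1) • o) := by
      intro j
      have e1 : d (bs c t nn j • o) (bs c t nn (j + 1) • o) = d o ((c ^ nn j * t (j + 1)) • o) := by
        show d (bs c t nn j • o) ((bs c t nn j * c ^ nn j * t (j + 1)) • o) = _
        rw [mul_assoc, mul_smul, hG]
      have e2 := hd.tri o ((c ^ nn j * t (j + 1)) • o) (c ^ nn j • o)
      have e3 : d ((c ^ nn j * t (j + 1)) • o) (c ^ nn j • o) = d (t (j + 1) • o) o := by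
        rw [mul_smul, hG]
      have e4 := H.move (j + 1)
      have e5 := hd.comm o (t (j + 1) • o)
      have e6 : 13 * disp d c ≤ d o (c ^ nn j • o) := by
        have f1 := hG.dist_pow_ge hh hd H.o_mem (by omega) (nn j)
        obtain ⟨m, hm⟩ : ∃ m, disp d c = 6 * δ + m := ⟨disp d c - 6 * δ, by omega⟩
        have f2 : (nn j - 1) * (6 * δ) ≤ nn j * (6 * δ) := Nat.mul_le_mul_right _ (by omega)
        have f3 : nn j * disp d c = nn j * (6 * δ) + nn j * m := by
          rw [hm]
          ring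
        have f4 : 1000 * m ≤ nn j * m := Nat.mul_le_mul_right _ (hn0.trans (hnn j))
        omega
      omega
    set a := bs c t nn k • o with ha
    set b := bs c t nn (k + 1) • o with hb
    set z := bs c t nn (k + 2) • o with hz
    have l1 : 12 * disp d c ≤ d a b := hlong k
    have l2 : 12 * disp d c ≤ d b z := hlong (k + 1)
    have c1 := hd.comm a b
    obtain ⟨p, hp, hp'⟩ := hd.exists_bt b a (11 * disp d c) (by omega)
    obtain ⟨p', hq, hq'⟩ := hd.exists_bt b z (11 * disp d c) (by omega)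
    have hf : d p p' ≤ 4 * δ := by
      refine hh.fellow hd hp hq (by omega) ?_
      unfold GpLe at hcon
      omega
    have d1 := D k b (hd.bt_right a b)
    have d2 := D k p (hd.bt_symm hp)
    have d3 := D (k + 1) b (hd.bt_left b z)
    have d4 := D (k + 1) p' hq
    have d5 := hG (bc c t nn (k + 1)) p' p
    have d6 := hd.tri p p' (bc c t nn (k + 1) • p)
    have d7 := hd.tri p' (bc c t nn (k + 1) • p') (bc c t nn (k + 1) • p)
    have d8 := hd.comm p' p
    refine hnc k (hov (bc c t nn k) (bc c t nn (k + 1)) b p (13 * disp d c / 10)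
      (13 * disp d c / 10 + 8 * δ) ?_ ?_ ?_ ?_ ?_)
    · omega
    · omega
    · omega
    · omega
    · omega
  · intro hone
    apply hc
    have : bs c t nn k * c = bs c t nn k := by
      have h2 := congrArg (fun x => x * bs c t nn k) hone
      simpa [bc] using h2
    exact mul_eq_left.mp this

end Pool.Agent.Olsh
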