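import Pool.Agent.Olsh.StmtsE

/-!
# MP_3cdb71_al: ELEN, lengths of the edges of a block system
-/

set_option autoImplicit false

namespace Pool.Agent.Olsh

theorem ELEN : Stmt_ELEN := by
  intro δ G X _ _ d h c t o nn hd hh hG hB
  have hne : Nonempty X := ⟨o⟩
  have hbig := hB.big
  have hbigR : 1000 * ((δ : ℝ) + 1) ≤ (disp d c : ℝ) := by exact_mod_cast hbig
  have hδ : (0 : ℝ) ≤ δ := Nat.cast_nonneg δ
  have h1 := hG.disp_le_slen hh hd c
  refine ⟨by linarith, fun k => ?_⟩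
  have e1 : d (bs c t nn k • o) (bs c t nn (k + 1) • o) = d o (c ^ nn k • t (k + 1) • o) := by
    show d (bs c t nn k • o) ((bs c t nn k * c ^ nn k * t (k + 1)) • o) = _
    rw [mul_smul, mul_smul, hG]
  have e2 : d (c ^ nn k • o) (c ^ nn k • t (k + 1) • o) = d o (t (k + 1) • o) := hG _ _ _
  have h2 := hB.move (k + 1)
  have h2R : 10 * (d o (t (k + 1) • o) : ℝ) ≤ disp d c := by exact_mod_cast h2
  have h3 := hd.tri o (c ^ nn k • t (k + 1) • o) (c ^ nn k • o)
  have h4 := hd.tri o (c ^ nn k • o) (c ^ nn k • t (k + 1) • o)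
  rw [hd.comm (c ^ nn k • t (k + 1) • o) (c ^ nn k • o)] at h3
  rw [e2] at h3 h4
  have h3R : (d o (c ^ nn k • o) : ℝ) ≤ d o (c ^ nn k • t (k + 1) • o) + d o (t (k + 1) • o) := by
    exact_mod_cast h3
  have h4R : (d o (c ^ nn k • t (k + 1) • o) : ℝ) ≤ d o (c ^ nn k • o) + d o (t (k + 1) • o) := by
    exact_mod_cast h4
  have h5 := IsomAct.slen_mul_le (d := d) c o (nn k)
  have h6 := hG.comm_dist_le_slen hh hd ((Commute.refl c).pow_left (nn k)) hB.o_mem (by omega)
  rw [hG.slen_pow hd] at h6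
  rw [e1]
  constructor
  · linarith
  · linarith

end Pool.Agent.Olsh
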