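import Pool.Agent.Olsh.StmtsE

/-!
# OLE_EMAIN: the overlap theorem 8.5 for block systems
-/

set_option autoImplicit false

namespace Pool.Agent.Olsh

namespace EMAIN

variable {G X : Type} [Group G] [MulAction G X] {d : X → X → ℕ}

theorem mono {K K' h : ℕ} {c : G} {t : ℕ → G} {o : X} (hb : IsBS G d K h c t o) (hK : K' ≤ K) :
    IsBS G d K' h c t o :=
  ⟨hb.o_mem, le_trans hK hb.big, hb.tper, hb.move, hb.ncomm, hb.cent⟩

theorem commute_of_conj {a b x : G} (h : Commute (x⁻¹ * a * x) (x⁻¹ * b * x)) : Commute a b := by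
  have e1 : x * (x⁻¹ * a * x) * x⁻¹ = a := by group
  have e2 : x * (x⁻¹ * b * x) * x⁻¹ = b := by group
  have h2 : (x * (x⁻¹ * a * x) * x⁻¹) * (x * (x⁻¹ * b * x) * x⁻¹) =
      (x * (x⁻¹ * b * x) * x⁻¹) * (x * (x⁻¹ * a * x) * x⁻¹) := by
    have e3 : ∀ p q : G, (x * p * x⁻¹) * (x * q * x⁻¹) = x * (p * q) * x⁻¹ := by
      intro p q
      group
    rw [e3, e3, h.eq]
  rw [e1, e2] at h2
  exact h2

/-- The stable length of the generator is comparable with its displacement. -/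
theorem slen_ge {δ h K : ℕ} {c : G} {t : ℕ → G} {o : X} (hd : IsGM d) (hh : Hyp d δ)
    (hG : IsomAct G d) (hb : IsBS G d K h c t o) (hK : 1000 * (δ + 1) ≤ K) :
    (9 / 10 : ℝ) * disp d c ≤ slen d c ∧ 0 < slen d c := by
  have : Nonempty X := ⟨o⟩
  have h1 := hG.disp_le_slen hh hd c
  have h2 : 1000 * (δ + 1) ≤ disp d c := le_trans hK hb.big
  have h3 : (1000 : ℝ) * (δ + 1) ≤ disp d c := by exact_mod_cast h2
  have h4 : (0 : ℝ) ≤ δ := Nat.cast_nonneg _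
  constructor <;> linarith

theorem zpow_inj {c : G} (o : X) (hd : IsGM d) (hs : 0 < slen d c) (m : ℤ) (hm : c ^ m = 1) :
    m = 0 := by
  by_contra hne
  have h1 : c ^ m.natAbs = 1 := by
    rcases Int.natAbs_eq m with h | h
    · rw [h, zpow_natCast] at hm
      exact hm
    · rw [h, zpow_neg, zpow_natCast, inv_eq_one] at hm
      exact hm
  have h2 := IsomAct.slen_mul_le (d := d) c o m.natAbs
  rw [h1, one_smul, hd.self] at h2
  have h3 : 1 ≤ m.natAbs := Nat.one_le_iff_ne_zero.2 (Int.natAbs_ne_zero.2 hne)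
  have h4 : (1 : ℝ) ≤ m.natAbs := by exact_mod_cast h3
  push_cast at h2
  nlinarith

/-- The case of generators of very different size does not occur. -/
theorem no_shift (h3 : Stmt_ESHIFT) (h4 : Stmt_ESELF) (h5 : Stmt_EGP) (h6 : Stmt_EREL)
    {δ L1 ρ h n0 : ℕ} {c c' : G} {t t' u' : ℕ → G} {o o' : X} {nn : ℕ → ℕ} (hd : IsGM d)
    (hh : Hyp d δ) (hG : IsomAct G d) (hcsa : IsCSA G) (hov : OV G d L1)
    (hb : IsBS G d (1000000 * (δ + L1 + ρ + 1)) h c t o)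
    (hb' : IsBS G d (1000000 * (δ + L1 + ρ + 1)) h c' t' o') (hn0 : 40000 ≤ n0) (h12 : 12 ∣ h)
    (h48 : 48 ≤ h) (hu' : ∀ i, i % (h + 1) ≠ 0 → t' i = u' (((i % (h + 1) - 1) % 12) / 2))
    (hexp : IsExp h n0 nn) {q : G} {p1 p2 : X}
    (hp1 : ∃ y ∈ Mn d (rel c t nn h), d p1 y ≤ ρ) (hp2 : ∃ y ∈ Mn d (rel c t nn h), d p2 y ≤ ρ)
    (hp3 : ∃ y ∈ Mn d (rel c' t' nn h), d p1 (q • y) ≤ ρ)
    (hp4 : ∃ y ∈ Mn d (rel c' t' nn h), d p2 (q • y) ≤ ρ)
    (hp12 : 100 * (n0 * max (disp d c) (disp d c')) ≤ d p1 p2)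
    (hbig : 120 * disp d c' < disp d c) : False := by
  have : Nonempty X := ⟨o⟩
  -- the minimal set of `R'`
  have hs' := slen_ge hd hh hG hb' (by omega)
  have hR := (h6 δ L1 G X d h n0 c' t' o' nn hd hh hG hcsa hov (mono hb' (by omega)) (by omega)
    (by omega) hexp).1
  have hRd : 37 * δ + 5 ≤ disp d (rel c' t' nn h) := by
    have e1 := IsomAct.slen_le_disp (d := d) (rel c' t' nn h)
    have e2 : 1000000 * (δ + L1 + ρ + 1) ≤ disp d c' := hb'.big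
    have e3 : (1000000 : ℝ) * (δ + L1 + ρ + 1) ≤ disp d c' := by exact_mod_cast e2
    have e4 : (40000 : ℝ) ≤ n0 := by exact_mod_cast hn0
    have e5 : (48 : ℝ) ≤ h := by exact_mod_cast h48
    have e6 : (0 : ℝ) ≤ δ := Nat.cast_nonneg _
    have e7 : (0 : ℝ) ≤ L1 := Nat.cast_nonneg _
    have e8 : (0 : ℝ) ≤ ρ := Nat.cast_nonneg _
    have e9 : (40000 : ℝ) * slen d c' ≤ n0 * slen d c' :=
      mul_le_mul_of_nonneg_right e4 hs'.2.le
    have e10 : (1000 : ℝ) * disp d c' ≤ n0 * slen d c' - 24 * disp d c' := by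
      have := hs'.1
      linarith
    have e11 : (1 : ℝ) * (1000 * disp d c') ≤ (h + 1) * (n0 * slen d c' - 24 * disp d c') :=
      mul_le_mul (by linarith) e10 (by positivity) (by linarith)
    have e12 : (37 : ℝ) * δ + 5 ≤ disp d (rel c' t' nn h) := by linarith
    exact_mod_cast e12
  have hq := hG.mn_qconv hh hd hRd
  have hmax : n0 * disp d c ≤ n0 * max (disp d c) (disp d c') :=
    Nat.mul_le_mul_left _ (le_max_left _ _)
  have hnn : n0 * (120 * disp d c') ≤ n0 * disp d c := Nat.mul_le_mul_left _ hbig.le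
  have hnn' : n0 * (120 * disp d c') = 120 * (n0 * disp d c') := by ring
  obtain ⟨r, k, hrk⟩ := h3 δ L1 ρ G X d h n0 c t o nn (Mn d (rel c' t' nn h))
    (100 * (n0 * disp d c')) hd hh hG hcsa hov (mono hb (by omega)) hn0 (by omega) hexp hq q p1 p2
    hp1 hp2 hp3 hp4 (by omega) (by omega)
  have key : ∀ i, i < 2 → ∃ m : ℤ, (rel c t nn h ^ r * q)⁻¹ * bc c t nn (k + i) *
      (rel c t nn h ^ r * q) = rel c' t' nn h ^ m := by
    intro i hi
    obtain ⟨w1, w2, hw, a1, a2, a3, a4⟩ := hrk i hi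
    exact h4 δ L1 (200 * (δ + ρ + 1)) G X d h n0 c' t' u' o' nn hd hh hG hcsa hov
      (mono hb' (by omega)) hn0 h12 h48 hu' hexp _ w1 w2 a1 a2 a3 a4 hw
  obtain ⟨m0, hm0⟩ := key 0 (by omega)
  obtain ⟨m1, hm1⟩ := key 1 (by omega)
  have hcm : Commute (bc c t nn (k + 0)) (bc c t nn (k + 1)) := by
    apply commute_of_conj (x := rel c t nn h ^ r * q)
    rw [hm0, hm1]
    exact ((Commute.refl _).zpow_left m0).zpow_right m1
  exact (h5 δ L1 G X d h n0 c t o nn hd hh hG hcsa hov (mono hb (by omega)) (by omega)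
    hexp.low k).2.1 hcm

end EMAIN

/-- OLE_EMAIN. -/
theorem EMAIN (h1 : Stmt_EGEO) (h2 : Stmt_EALG2) (h3 : Stmt_ESHIFT) (h4 : Stmt_ESELF)
    (h5 : Stmt_EGP) (h6 : Stmt_EREL) : Stmt_EMAIN := by
  intro δ L1 ρ G X _ _ d h n0 c c' t t' u u' o o' nn hd hh hG hcsa hov hb hb' hn0 h12 h48 hu hu'
    hexp q p1 p2 hp1 hp2 hp3 hp4 hp12
  by_cases hA : disp d c ≤ 120 * disp d c'
  · by_cases hB : disp d c' ≤ 120 * disp d c
    · obtain ⟨r, r', k, l, hkl, hj⟩ := h1 δ L1 ρ G X d h n0 c c' t t' o o' nn hd hh hG hcsa hov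
        (EMAIN.mono hb (by omega)) (EMAIN.mono hb' (by omega)) hn0 (by omega) hexp hA hB q p1 p2
        hp1 hp2 hp3 hp4 hp12
      have hs := EMAIN.slen_ge hd hh hG hb (by omega)
      obtain ⟨b, k1, l1, a1, a2, a3, a4⟩ := h2 G h c c' (rel c t nn h ^ r * q * rel c' t' nn h ^ r')
        t t' u u' nn hcsa h12 h48 hb.tper hb'.tper hu hu' hexp.per hb.cent hb.ncomm
        (EMAIN.zpow_inj o hd hs.2) k l hkl hj
      exact ⟨r, r', b, k1, l1, a1, a2, a3, a4⟩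
    · exfalso
      have e1 : ∀ p : X, (∃ y ∈ Mn d (rel c' t' nn h), d p (q • y) ≤ ρ) →
          ∃ y ∈ Mn d (rel c' t' nn h), d (q⁻¹ • p) y ≤ ρ := by
        rintro p ⟨y, hy, hy'⟩
        exact ⟨y, hy, by rw [hG.inv]; exact hy'⟩
      have e2 : ∀ p : X, (∃ y ∈ Mn d (rel c t nn h), d p y ≤ ρ) →
          ∃ y ∈ Mn d (rel c t nn h), d (q⁻¹ • p) (q⁻¹ • y) ≤ ρ := by
        rintro p ⟨y, hy, hy'⟩
        exact ⟨y, hy, by rw [hG]; exact hy'⟩
      exact EMAIN.no_shift h3 h4 h5 h6 hd hh hG hcsa hov hb' hb hn0 h12 h48 hu hexp (q := q⁻¹)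
        (p1 := q⁻¹ • p1) (p2 := q⁻¹ • p2) (e1 p1 hp3) (e1 p2 hp4) (e2 p1 hp1) (e2 p2 hp2)
        (by rw [hG, max_comm]; exact hp12) (by omega)
  · exfalso
    exact EMAIN.no_shift h3 h4 h5 h6 hd hh hG hcsa hov hb hb' hn0 h12 h48 hu' hexp hp1 hp2 hp3 hp4
      hp12 (by omega)

end Pool.Agent.Olsh
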