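import Pool.Agent.Olsh.StmtsE

/-!
# MP_3cdb71_al: EPAIR, a direct pair gives a block system (8.1 to 8.3 of `H92.md`)
-/

set_option autoImplicit false

open Filter Topology

namespace Pool.Agent.Olsh

namespace EPAIR

variable {G X : Type} [Group G] [MulAction G X] {d : X → X → ℕ} {δ L1 : ℕ}

/-- The points of `[o, g^N o]`, `o` on the axis of `g`, are moved by `g` by little more than the
stable length. -/
theorem seg_disp (hG : IsomAct G d) (hh : Hyp d δ) (hd : IsGM d) {D : ℕ} (hD : 37 * δ + 5 ≤ D)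
    {g : G} (hg : 0 < slen d g) {S : ℕ} (hS : slen d g ≤ S) {o : X} (ho : o ∈ Ax D d g) (N : ℕ)
    {z : X} (hz : Bt d o z (g ^ N • o)) : d z (g • z) ≤ S + 134 * δ + 10 := by
  have : Nonempty X := ⟨o⟩
  have ho' : g ^ N • o ∈ Ax D d g :=
    (hG.smul_mem_Ax_of_commute D ((Commute.refl g).pow_left N) o).2 ho
  obtain ⟨y, hy, hzy⟩ := hG.ax_qconv hh hd hD hg o ho _ ho' z hz
  have h1 := hG.ax_dist_le hh hd (by omega) hg (Commute.refl g) hy
  have h2 : d y (g • y) ≤ S + 16 * δ := by
    have : (d y (g • y) : ℝ) ≤ S + 16 * δ := by linarith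
    exact_mod_cast this
  have h3 := hG.dist_base hd g z y
  omega

/-- The Gromov product of the orbit of `c = g^N t` at the vertices. -/
theorem gp_step (hG : IsomAct G d) (hh : Hyp d δ) (hd : IsGM d) (hC : IsCSA G) (hO : OV G d L1)
    {g t : G} {N e r : ℕ} {o : X} (hg1 : g ≠ 1) (hnt : ¬ Commute g t)
    (hseg : ∀ z, Bt d o z (g ^ N • o) → d z (g • z) ≤ e) (hto : d o (t • o) ≤ r)
    (hlong : 3 * r + 8 * (e + 16 * δ) + L1 + 20 * δ + 2 ≤ d o (g ^ N • o)) :
    GpLe d (r + 4 * δ + 1 + 8 * (e + 16 * δ) + L1) o ((g ^ N * t) • o)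
      ((g ^ N * t) • (g ^ N * t) • o) := by
  set c : G := g ^ N * t with hc
  by_contra hcon
  unfold GpLe at hcon
  have hs := hh.slim hd
  -- the end points
  have e1 : d (g ^ N • o) (c • o) = d o (t • o) := by
    rw [hc, mul_smul, hG]
  have e2 : d (c • o) (c • c • o) = d o (c • o) := hG _ _ _
  have e3 := hd.tri o (c • o) (g ^ N • o)
  have e4 := hd.comm (g ^ N • o) (c • o)
  have e5 := hd.comm o (c • o)
  have e6 := hd.comm o (c • c • o)
  -- points of the edge `[o, c o]`
  have key : ∀ z, Bt d o z (c • o) → r + 4 * δ < d z (c • o) → d z (g • z) ≤ e + 8 * δ := by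
    intro z hz hz'
    obtain ⟨u, hu, hzu⟩ := hs _ _ (g ^ N • o) z hz
    have hu' : Bt d o u (g ^ N • o) := by
      rcases hu with hu | hu
      · exact hu
      · exfalso
        have h1 := hd.tri z u (c • o)
        unfold Bt at hu
        omega
    have h1 := hseg u hu'
    have h2 := hG.dist_base hd g z u
    omega
  -- the points near `c o`
  have main : ∀ j, r + 4 * δ + 1 ≤ j → j ≤ r + 4 * δ + 1 + 8 * (e + 16 * δ) + L1 →
      ∀ z, Bt d (c • o) z o → d (c • o) z = j →
      d z (g • z) ≤ e + 16 * δ ∧ d z ((c * g * c⁻¹) • z) ≤ e + 16 * δ := by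
    intro j hj1 hj2 z hz hzj
    have hz1 := hd.bt_symm hz
    have c1 := hd.comm (c • o) z
    have h1 := key z hz1 (by omega)
    refine ⟨by omega, ?_⟩
    obtain ⟨z2, hz2, hz2'⟩ := hd.exists_bt (c • o) (c • c • o) j (by omega)
    have hf : d z z2 ≤ 4 * δ := hh.fellow hd hz hz2 (by omega) (by
      have := hd.comm (c • o) o
      omega)
    -- pull back `z2`
    have hz3 : Bt d o (c⁻¹ • z2) (c • o) := by
      have : Bt d (c • o) (c • c⁻¹ • z2) (c • c • o) := by rwa [smul_inv_smul]
      exact (hG.bt_smul c).1 this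
    have hz4 : d o (c⁻¹ • z2) = j := by
      rw [← hG c, smul_inv_smul]
      exact hz2'
    have h2 : d (c⁻¹ • z2) (g • c⁻¹ • z2) ≤ e + 8 * δ := by
      apply key _ hz3
      unfold Bt at hz3
      omega
    have h3 : d z2 ((c * g * c⁻¹) • z2) = d (c⁻¹ • z2) (g • c⁻¹ • z2) := by
      have := hG.conj (d := d) g c (c⁻¹ • z2)
      rwa [smul_inv_smul] at this
    have h4 := hG.dist_base hd (c * g * c⁻¹) z z2
    omega
  have hlen : r + 4 * δ + 1 + 8 * (e + 16 * δ) + L1 ≤ d (c • o) o := by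
    have := hd.comm (c • o) o
    omega
  obtain ⟨q, hq, hq'⟩ := hd.exists_bt (c • o) o _ hlen
  obtain ⟨p, hp, hp'⟩ := hd.exists_bt (c • o) q (r + 4 * δ + 1) (by omega)
  have hp2 : Bt d (c • o) p o := hd.bt_trans hq hp
  have m1 := main _ (by omega) (by omega) q hq hq'
  have m2 := main _ (by omega) (by omega) p hp2 hp'
  have hdist : 4 * ((e + 16 * δ) + (e + 16 * δ)) + L1 ≤ d p q := by
    unfold Bt at hp
    omega
  have hcomm : Commute g (c * g * c⁻¹) := hO _ _ p q _ _ m2.1 m1.1 m2.2 m1.2 hdist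
  have h5 := hC.maln g c hg1 hcomm
  apply hnt
  have h6 : Commute g (g ^ N)⁻¹ := ((Commute.refl g).pow_right N).inv_right
  have h7 := h6.mul_right h5
  rwa [hc, inv_mul_cancel_left] at h7

/-- The stable length from a bound of the Gromov product. -/
theorem slen_ge_of_gp (hG : IsomAct G d) (hh : Hyp d δ) (hd : IsGM d) {c : G} {o : X} {A : ℕ}
    (h : GpLe d A o (c • o) (c • c • o)) (hl : 2 * A + 2 * δ + 1 ≤ d o (c • o)) :
    (d o (c • o) : ℝ) ≤ slen d c + 2 * (A + δ) := by
  have hch : ∀ n, IsChain d n A (d o (c • o)) (fun i => c ^ i • o) := by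
    intro n
    constructor
    · intro i h1 _
      obtain ⟨j, rfl⟩ : ∃ j, i = j + 1 := ⟨i - 1, by omega⟩
      have e1 : c ^ (j + 1) • o = c ^ j • c • o := by rw [pow_succ, mul_smul]
      have e2 : c ^ (j + 1 + 1) • o = c ^ j • c • c • o := by
        rw [pow_succ, pow_succ, mul_smul, mul_smul]
      have e3 : j + 1 - 1 = j := by omega
      show GpLe d A (c ^ (j + 1 - 1) • o) (c ^ (j + 1) • o) (c ^ (j + 1 + 1) • o)
      rw [e3, e1, e2]
      have k1 := hG (c ^ j) o (c • o)
      have k2 := hG (c ^ j) (c • o) (c • c • o)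
      have k3 := hG (c ^ j) o (c • c • o)
      unfold GpLe at *
      omega
    · intro i _ _
      have e1 : c ^ (i + 1) • o = c ^ i • c • o := by rw [pow_succ, mul_smul]
      show d o (c • o) ≤ d (c ^ i • o) (c ^ (i + 1) • o)
      rw [e1, hG]
  have hlim := hG.tendsto_slen hd c o
  have h2 : (d o (c • o) : ℝ) - 2 * (A + δ) ≤ slen d c := by
    apply le_of_tendsto_of_tendsto tendsto_const_nhds hlim
    filter_upwards [eventually_ge_atTop 1] with n hn
    have h3 := (hch n).dist_ge hh hd hl hn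
    have e0 : (∑ i ∈ Finset.range n, d (c ^ i • o) (c ^ (i + 1) • o)) = n * d o (c • o) := by
      have : ∀ i ∈ Finset.range n, d (c ^ i • o) (c ^ (i + 1) • o) = d o (c • o) := by
        intro i _
        rw [pow_succ, mul_smul, hG]
      rw [Finset.sum_congr rfl this, Finset.sum_const, Finset.card_range, smul_eq_mul]
    have h4 : n * d o (c • o) ≤ d o (c ^ n • o) + n * (2 * (A + δ)) := by
      have h5 : (n - 1) * (2 * (A + δ)) ≤ n * (2 * (A + δ)) := Nat.mul_le_mul_right _ (by omega)
      have h6 : (∑ i ∈ Finset.range n, d (c ^ i • o) (c ^ (i + 1) • o)) ≤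
        d (c ^ 0 • o) (c ^ n • o) + (n - 1) * (2 * (A + δ)) := h3
      rw [e0, pow_zero, one_smul] at h6
      omega
    have h7 : (0 : ℝ) < n := by exact_mod_cast hn
    rw [le_div_iff₀ h7]
    have h8 : (n : ℝ) * d o (c • o) ≤ d o (c ^ n • o) + n * (2 * (A + δ)) := by exact_mod_cast h4
    linarith
  linarith

/-- Overlap of two geodesics. -/
theorem ovl (hh : Hyp d δ) (hd : IsGM d) {e v u' v' p : X} {C1 C2 : ℕ}
    (he : d u' e ≤ C1) (hg : GpLe d C2 e v v') (hp : Bt d e p v) (h1 : C1 + 8 * δ < d e p)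
    (h2 : 2 * C2 + 4 * δ < d p v) :
    ∃ p', Bt d u' p' v' ∧ d p p' ≤ 8 * δ ∧ d e p ≤ d u' p' + C1 + 8 * δ ∧
      d p v ≤ d p' v' + 2 * C2 + 8 * δ := by
  have hs := hh.slim hd
  obtain ⟨p1, hp1, hpp1⟩ := hs _ _ v' p hp
  have hp1' : Bt d e p1 v' := by
    rcases hp1 with hp1 | hp1
    · exact hp1
    · exfalso
      have a1 := hd.tri e p v'
      have a2 := hd.tri p p1 v'
      have a3 := hd.comm v' p1
      have a4 := hd.comm v' v
      have a5 := hd.tri p p1 v
      unfold Bt GpLe at *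
      omega
  obtain ⟨p', hp', hpp'⟩ := hs _ _ u' p1 hp1'
  have hp2 : Bt d u' p' v' := by
    rcases hp' with hp' | hp'
    · exfalso
      have a1 := hd.tri e p' p
      have a2 := hd.tri p' p1 p
      have a3 := hd.comm p' p1
      have a4 := hd.comm p1 p
      have a5 := hd.comm u' e
      unfold Bt at *
      omega
    · exact hp'
  have b1 := hd.tri p p1 p'
  refine ⟨p', hp2, by omega, ?_, ?_⟩
  · have a1 := hd.tri e u' p
    have a2 := hd.tri u' p' p
    have a3 := hd.comm p' p
    have a4 := hd.comm u' e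
    omega
  · have a1 := hd.tri e p v'
    have a2 := hd.tri p p' v'
    have a3 := hd.self v
    unfold Bt GpLe at *
    omega

/-- Two translates of the tube with a large overlap give commuting conjugates of `g`. -/
theorem tube (hG : IsomAct G d) (hh : Hyp d δ) (hd : IsGM d) (hO : OV G d L1)
    {g c b1 b2 : G} {o e : X} {al ρ C1 C2 : ℕ}
    (htube : ∀ p, Bt d o p (c • o) → ρ ≤ d o p → ρ ≤ d p (c • o) → d p (g • p) ≤ al)
    (he : Bt d (b1 • o) e (b1 • c • o)) (he' : d (b2 • o) e ≤ C1)
    (hg : GpLe d C2 e (b1 • c • o) (b2 • c • o))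
    (hT : 2 * (ρ + C1 + 2 * C2 + 8 * δ + 1) + 4 * (al + (al + 16 * δ)) + L1 ≤
      d e (b1 • c • o)) : Commute (b1 * g * b1⁻¹) (b2 * g * b2⁻¹) := by
  set R := ρ + C1 + 2 * C2 + 8 * δ + 1 with hR
  obtain ⟨p, hp, hp'⟩ := hd.exists_bt e (b1 • c • o) R (by omega)
  have hpv : Bt d e p (b1 • c • o) := hp
  obtain ⟨q, hq, hq'⟩ := hd.exists_bt (b1 • c • o) p R (by
    have := hd.comm (b1 • c • o) p
    unfold Bt at hp
    omega)
  have c0 := hd.comm (b1 • c • o) q
  have c1 := hd.comm (b1 • c • o) p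
  have c2 := hd.comm p q
  have c3 := hd.comm (b1 • c • o) e
  have hq1 : Bt d e q (b1 • c • o) := hd.bt_symm (hd.bt_trans (hd.bt_symm hp) hq)
  have main : ∀ z, Bt d e z (b1 • c • o) → R ≤ d e z → R ≤ d z (b1 • c • o) →
      d z ((b1 * g * b1⁻¹) • z) ≤ al ∧ d z ((b2 * g * b2⁻¹) • z) ≤ al + 16 * δ := by
    intro z hz h1 h2
    constructor
    · have k1 : Bt d (b1 • o) z (b1 • c • o) := by
        have := hd.bt_trans (hd.bt_symm he) (hd.bt_symm hz)
        exact hd.bt_symm this
      have k2 : Bt d z e (b1 • o) := by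
        have := hd.bt_trans' (hd.bt_symm he) (hd.bt_symm hz)
        exact this
      have k3 : Bt d o (b1⁻¹ • z) (c • o) := by
        have : Bt d (b1 • o) (b1 • b1⁻¹ • z) (b1 • c • o) := by rwa [smul_inv_smul]
        exact (hG.bt_smul b1).1 this
      have k4 : d o (b1⁻¹ • z) = d (b1 • o) z := by
        rw [← hG b1, smul_inv_smul]
      have k5 : d (b1⁻¹ • z) (c • o) = d z (b1 • c • o) := by
        rw [← hG b1, smul_inv_smul]
      have k6 := htube _ k3 (by
        have a1 := hd.comm (b1 • o) z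
        have a2 := hd.comm e z
        unfold Bt at k2
        omega) (by omega)
      have k7 := hG.conj (d := d) g b1 (b1⁻¹ • z)
      rw [smul_inv_smul] at k7
      omega
    · obtain ⟨z', hz', hzz, h3, h4⟩ := ovl hh hd he' hg hz (by omega) (by omega)
      have k3 : Bt d o (b2⁻¹ • z') (c • o) := by
        have : Bt d (b2 • o) (b2 • b2⁻¹ • z') (b2 • c • o) := by rwa [smul_inv_smul]
        exact (hG.bt_smul b2).1 this
      have k4 : d o (b2⁻¹ • z') = d (b2 • o) z' := by
        rw [← hG b2, smul_inv_smul]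
      have k5 : d (b2⁻¹ • z') (c • o) = d z' (b2 • c • o) := by
        rw [← hG b2, smul_inv_smul]
      have k6 := htube _ k3 (by omega) (by omega)
      have k7 := hG.conj (d := d) g b2 (b2⁻¹ • z')
      rw [smul_inv_smul] at k7
      have k8 := hG.dist_base hd (b2 * g * b2⁻¹) z z'
      omega
  have hpe : R ≤ d p (b1 • c • o) := by
    unfold Bt at hp
    omega
  have m1 := main p hpv (by omega) hpe
  have hqe : R ≤ d e q := by
    have a1 : Bt d p q (b1 • c • o) := hd.bt_symm hq
    have a2 := hd.tri e q (b1 • c • o)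
    unfold Bt at *
    omega
  have m2 := main q hq1 hqe (by omega)
  refine hO _ _ p q _ _ m1.1 m2.1 m1.2 m2.2 ?_
  unfold Bt at *
  omega

/-! ### Displacements of words -/

theorem f_mul (hG : IsomAct G d) (hd : IsGM d) (a b : G) (v : X) :
    d v ((a * b) • v) ≤ d v (a • v) + d v (b • v) := by
  have h1 := hd.tri v (a • v) ((a * b) • v)
  have h2 : d (a • v) ((a * b) • v) = d v (b • v) := by rw [mul_smul, hG]
  omega

theorem f_inv (hG : IsomAct G d) (hd : IsGM d) (a : G) (v : X) :
    d v (a⁻¹ • v) = d v (a • v) := by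
  rw [hd.comm, hG.inv]

theorem words (hG : IsomAct G d) (hd : IsGM d) {D k : ℕ} {x y : G} {v : X} {E : ℕ}
    (hx : d v (x • v) ≤ E) (hy : d v (y • v) ≤ E) :
    d v (gW D k x y • v) ≤ (2 * D + 6 * k + 2) * E ∧
    d v (teW D k x y • v) ≤ (2 * D + 6 * k + 2) * E ∧
    ∀ h i, d v (lW k h x y i • v) ≤ (2 * D + 6 * k + 2) * E := by
  have hY : d v (yW k y • v) ≤ k * E :=
    (hG.pow_le hd y v k).trans (Nat.mul_le_mul_left _ hy)
  have hP : d v (pW D x • v) ≤ D * E :=
    (hG.pow_le hd x v D).trans (Nat.mul_le_mul_left _ hx)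
  have hQ : d v (qW D k x y • v) ≤ D * E + 2 * (k * E) := by
    unfold qW
    have a1 := f_mul hG hd ((yW k y)⁻¹ * pW D x) (yW k y) v
    have a2 := f_mul hG hd (yW k y)⁻¹ (pW D x) v
    have a3 := f_inv hG hd (yW k y) v
    omega
  have hX : ∀ j, d v (xW k j x y • v) ≤ E + 2 * (j * (k * E)) := by
    intro j
    unfold xW
    have a1 := f_mul hG hd ((yW k y ^ j)⁻¹ * x) (yW k y ^ j) v
    have a2 := f_mul hG hd (yW k y ^ j)⁻¹ x v
    have a3 := f_inv hG hd (yW k y ^ j) v
    have a4 := hG.pow_le hd (yW k y) v j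
    have a5 : j * d v (yW k y • v) ≤ j * (k * E) := Nat.mul_le_mul_left _ hY
    omega
  have eC : (2 * D + 6 * k + 2) * E = 2 * (D * E) + 6 * (k * E) + 2 * E := by ring
  refine ⟨?_, ?_, ?_⟩
  · unfold gW
    have a1 := f_mul hG hd (pW D x) (qW D k x y)⁻¹ v
    have a2 := f_inv hG hd (qW D k x y) v
    omega
  · unfold teW
    have a1 := f_mul hG hd (pW D x)⁻¹ (qW D k x y) v
    have a2 := f_inv hG hd (pW D x) v
    omega
  · intro h i
    have hU : ∀ r, r < 6 → d v (uW k x y r • v) ≤ E + 4 * (k * E) := by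
      intro r hr
      unfold uW
      split_ifs with h3
      · have a1 := hX r
        have a2 : r * (k * E) ≤ 2 * (k * E) := Nat.mul_le_mul_right _ (by omega)
        omega
      · have a1 := hX (r - 3)
        have a2 : (r - 3) * (k * E) ≤ 2 * (k * E) := Nat.mul_le_mul_right _ (by omega)
        have a3 := f_inv hG hd (xW k (r - 3) x y) v
        omega
    unfold lW
    split_ifs with h3
    · have a1 := f_mul hG hd (xW k 3 x y) (xW k 0 x y)⁻¹ v
      have a2 := f_inv hG hd (xW k 0 x y) v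
      have a3 := hX 3
      have a4 := hX 0
      omega
    · have a1 := hU (((i % (h + 1) - 1) % 12) / 2) (by omega)
      omega

/-- The letters are not trivial. -/
theorem letter_ne {k h : ℕ} {x y : G} (hx : x ≠ 1)
    (h30 : xW k 3 x y * (xW k 0 x y)⁻¹ ≠ 1) (i : ℕ) : lW k h x y i ≠ 1 := by
  have hX : ∀ j, xW k j x y ≠ 1 := by
    intro j hj
    apply hx
    unfold xW at hj
    have : x = (yW k y ^ j) * ((yW k y ^ j)⁻¹ * x * yW k y ^ j) * (yW k y ^ j)⁻¹ := by group
    rw [this, hj]
    group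
  unfold lW
  split_ifs
  · exact h30
  · unfold uW
    split_ifs
    · exact hX _
    · intro hcon
      exact hX _ (inv_eq_one.1 hcon)

end EPAIR

open EPAIR in
/-- EPAIR. -/
theorem EPAIR (h1 : Stmt_EW1) : Stmt_EPAIR := by
  intro L1 D k V B K
  obtain ⟨W, hW⟩ : ∃ W, W = 2 * D + 6 * k + 2 := ⟨_, rfl⟩
  obtain ⟨C14, hC14⟩ : ∃ C14, C14 = (DD * V + 1) * (W * (2 * B)) + 164 * dl + 16 := ⟨_, rfl⟩
  obtain ⟨Big, hBig⟩ : ∃ Big, Big = W * (2 * B + 2 * C14) + 1000 * dl + L1 + 1000 := ⟨_, rfl⟩
  refine ⟨(3000 * Big + 2 * K) * (1 + V), ?_⟩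
  intro N hN a0 L0 CP M0 G X _ _ d hLev hC hO x y hP h h12 hh12
  obtain ⟨hxy, hs1, o0, hox, hoy⟩ := hP
  have hd := hLev.gm
  have hh := hLev.hyp
  have hG := hLev.isom
  haveI : Nonempty X := hLev.ne
  have hslen1 : slen d (1 : G) = 0 := by
    apply le_antisymm _ (IsomAct.slen_nonneg _)
    have a1 := IsomAct.slen_mul_le (d := d) (1 : G) o0 1
    rw [pow_one, one_smul, hd.self] at a1
    simpa using a1
  have htf : ∀ (g : G) (n : ℕ), 1 ≤ n → g ^ n = 1 → g = 1 := by
    intro g n hn hgn
    by_contra hg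
    have a1 := hLev.lox g hg
    have a2 := hG.slen_pow hd g n
    rw [hgn, hslen1] at a2
    have a3 : (0 : ℝ) < n := by exact_mod_cast hn
    have a4 := mul_pos a3 a1
    linarith
  have hD1 : 1 ≤ D := by
    by_contra hcon
    have : D = 0 := by omega
    subst this
    have e : gW 0 k x y = 1 := by
      unfold gW qW pW
      group
    rw [e, hslen1] at hs1
    linarith
  have hk1 : 1 ≤ k := by
    by_contra hcon
    have : k = 0 := by omega
    subst this
    have e : gW D 0 x y = 1 := by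
      unfold gW qW pW yW
      group
    rw [e, hslen1] at hs1
    linarith
  obtain ⟨w1, w2, w3, w4, w5, w6, w7, w8, w9⟩ := h1 D k G hC htf hD1 hk1 x y hxy
  set g := gW D k x y with hg
  set t := teW D k x y with ht
  obtain ⟨s, hs⟩ : ∃ s, s = slen d g := ⟨_, rfl⟩
  rw [← hs] at hs1 hox hoy
  have hs0 : 0 < s := by rw [hs]; exact hLev.lox g w1
  obtain ⟨S, hsS, hSs, hS1⟩ : ∃ S : ℕ, s ≤ S ∧ (S : ℝ) < s + 1 ∧ 1 ≤ S :=
    ⟨⌈s⌉₊, Nat.le_ceil s, Nat.ceil_lt_add_one hs0.le, Nat.ceil_pos.2 hs0⟩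
  -- the base point `o0`
  have hox' : d o0 (x • o0) ≤ 2 * B * S := by
    have a1 : (d o0 (x • o0) : ℝ) ≤ 2 * B * S := by
      have a2 : (1 : ℝ) ≤ S := by exact_mod_cast hS1
      have a3 : (0 : ℝ) ≤ B := by positivity
      nlinarith
    exact_mod_cast a1
  have hoy' : d o0 (y • o0) ≤ 2 * B * S := by
    have a1 : (d o0 (y • o0) : ℝ) ≤ 2 * B * S := by
      have a2 : (1 : ℝ) ≤ S := by exact_mod_cast hS1
      have a3 : (0 : ℝ) ≤ B := by positivity
      nlinarith
    exact_mod_cast a1
  have hw0 := words hG hd (D := D) (k := k) hox' hoy'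
  rw [← hW] at hw0
  -- the power
  obtain ⟨hm1, hm2⟩ := hG.axPow_spec hd DD (g := g) (hs ▸ hs0)
  have hmle : axPow DD d g ≤ DD * V + 1 := by
    apply Nat.sInf_le
    refine ⟨by omega, ?_⟩
    have a1 := IsomAct.slen_le_disp (d := d) (g ^ (DD * V + 1))
    rw [hG.slen_pow hd, ← hs] at a1
    have a2 : (DD : ℝ) ≤ disp d (g ^ (DD * V + 1)) := by
      push_cast at a1
      have a3 : (0 : ℝ) ≤ DD := by positivity
      have a4 : (DD : ℝ) * 1 ≤ DD * (V * s) := mul_le_mul_of_nonneg_left hs1 a3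
      nlinarith
    exact_mod_cast a2
  have hDD : DD = 100 * dl + 100 := rfl
  obtain ⟨o1, ho1, ho1'⟩ := hG.near_ax hh hd (D := DD) (by omega) (g := g) (h := g ^ axPow DD d g)
    (hs ▸ hs0) ((Commute.refl g).pow_left _) (by omega) o0
  have hd01 : d o0 o1 ≤ C14 * S := by
    have a1 := hG.pow_le hd g o0 (axPow DD d g)
    have a2 : axPow DD d g * d o0 (g • o0) ≤ (DD * V + 1) * (W * (2 * B * S)) :=
      Nat.mul_le_mul hmle hw0.1
    have a3 : C14 * S = (DD * V + 1) * (W * (2 * B * S)) + (164 * dl + 16) * S := by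
      rw [hC14]; ring
    have a4 : (164 * dl + 16) * 1 ≤ (164 * dl + 16) * S := Nat.mul_le_mul_left _ hS1
    omega
  have c01 := hd.comm o0 o1
  have eE : (2 * B + 2 * C14) * S = 2 * B * S + 2 * (C14 * S) := by ring
  have hw1 := words hG hd (D := D) (k := k) (v := o1) (E := (2 * B + 2 * C14) * S) (x := x) (y := y)
    (by
      have := hG.dist_base hd x o1 o0
      omega)
    (by
      have := hG.dist_base hd y o1 o0
      omega)
  rw [← hW] at hw1
  obtain ⟨r, hr⟩ : ∃ r, r = W * ((2 * B + 2 * C14) * S) := ⟨_, rfl⟩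
  obtain ⟨BS, hBS⟩ : ∃ BS, BS = Big * S := ⟨_, rfl⟩
  rw [← hr] at hw1
  have hBSr : r + 1000 * dl + L1 + 1000 * S ≤ BS := by
    have a1 : BS = r + (1000 * dl + L1) * S + 1000 * S := by
      rw [hBS, hBig, hr]; ring
    have a2 : (1000 * dl + L1) * 1 ≤ (1000 * dl + L1) * S := Nat.mul_le_mul_left _ hS1
    omega
  have hNs : (3000 * BS + 2 * K : ℝ) ≤ N * s := by
    have a1 : ((3000 * Big + 2 * K) * (1 + V) : ℝ) ≤ N := by exact_mod_cast hN
    have a2 : ((3000 * Big + 2 * K) * (1 + V) : ℝ) * s ≤ N * s :=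
      mul_le_mul_of_nonneg_right a1 hs0.le
    have a3 : (S : ℝ) ≤ (1 + V) * s := by nlinarith
    have a4 : ((3000 * Big + 2 * K : ℝ)) * S ≤ (3000 * Big + 2 * K) * ((1 + V) * s) :=
      mul_le_mul_of_nonneg_left a3 (by positivity)
    have a5 : (BS : ℝ) = Big * S := by rw [hBS]; push_cast; ring
    have a6 : (1 : ℝ) ≤ S := by exact_mod_cast hS1
    have a7 : (K : ℝ) * 1 ≤ K * S := mul_le_mul_of_nonneg_left a6 (by positivity)
    nlinarith
  obtain ⟨e, he⟩ : ∃ e, e = S + 134 * dl + 10 := ⟨_, rfl⟩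
  have hs0' : 0 < slen d g := by rw [← hs]; exact hs0
  have hsS' : slen d g ≤ S := by rw [← hs]; exact hsS
  have hseg : ∀ z, Bt d o1 z (g ^ N • o1) → d z (g • z) ≤ e := fun z hz => by
    rw [he]
    exact seg_disp hG hh hd (D := DD) (by omega) hs0' hsS' ho1 N hz
  have hl1 := IsomAct.slen_mul_le (d := d) g o1 N
  have hl2 := hG.ax_dist_le hh hd (D := DD) (by omega) hs0'
    ((Commute.refl g).pow_left N) ho1
  rw [hG.slen_pow hd] at hl2
  rw [← hs] at hl1 hl2
  have hlN : 3000 * BS + 2 * K ≤ d o1 (g ^ N • o1) := by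
    have : (3000 * BS + 2 * K : ℝ) ≤ d o1 (g ^ N • o1) := by linarith
    exact_mod_cast this
  have hnt : ¬ Commute g t := fun hc => w2 hc.symm
  have hgp := gp_step hG hh hd hC hO (g := g) (t := t) (N := N) (e := e) (r := r) (o := o1) w1 hnt
    hseg hw1.2.1 (by omega)
  set c := cW D k N x y with hc
  have hcdef : c = g ^ N * t := rfl
  rw [← hcdef] at hgp
  obtain ⟨A, hA⟩ : ∃ A, A = r + 4 * dl + 1 + 8 * (e + 16 * dl) + L1 := ⟨_, rfl⟩
  rw [← hA] at hgp
  have e1 : d (g ^ N • o1) (c • o1) = d o1 (t • o1) := by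
    rw [hcdef, mul_smul, hG]
  have e2 := hd.tri o1 (c • o1) (g ^ N • o1)
  have e3 := hd.tri o1 (g ^ N • o1) (c • o1)
  have e4 := hd.comm (g ^ N • o1) (c • o1)
  have hto : d o1 (t • o1) ≤ r := hw1.2.1
  have hbl : d o1 (g ^ N • o1) ≤ d o1 (c • o1) + r := by omega
  have hbu : d o1 (c • o1) ≤ d o1 (g ^ N • o1) + r := by omega
  have hsc := slen_ge_of_gp hG hh hd hgp (by omega)
  have hsc' := IsomAct.slen_mul_le (d := d) c o1 1
  rw [pow_one] at hsc'
  have hAr : 2 * (A + dl) + r + 16 * dl ≤ 60 * BS := by omega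
  have hArR : (2 * (A + dl) + r + 16 * dl : ℝ) ≤ 60 * BS := by exact_mod_cast hAr
  have hblR : (d o1 (g ^ N • o1) : ℝ) ≤ d o1 (c • o1) + r := by exact_mod_cast hbl
  have hbuR : (d o1 (c • o1) : ℝ) ≤ d o1 (g ^ N • o1) + r := by exact_mod_cast hbu
  have hdlR : (0 : ℝ) ≤ dl := by positivity
  have hrR : (0 : ℝ) ≤ r := by positivity
  have hAR : (0 : ℝ) ≤ A := by positivity
  have hKR : (0 : ℝ) ≤ K := by positivity
  rw [← hs]
  have hlow : 49 * (N * s) ≤ 50 * slen d c := by
    push_cast at hsc'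
    linarith
  have hup : 50 * slen d c ≤ 51 * (N * s) := by
    push_cast at hsc'
    linarith
  refine ⟨?_, hlow, hup⟩
  -- the displacement of `c`
  have hdc := IsomAct.slen_le_disp (d := d) c
  have hdc' : 2900 * BS + K ≤ disp d c := by
    have : (2900 * BS + K : ℝ) ≤ disp d c := by
      have : (0 : ℝ) ≤ BS := by positivity
      linarith
    exact_mod_cast this
  obtain ⟨o, ho, ho'⟩ := hG.near_mn hh hd (g := c) (by omega) o1
  have hr1 : d o1 o ≤ A + 38 * dl + 4 := by
    have a1 : (d o1 (c • o1) : ℝ) ≤ disp d c + 2 * (A + dl) := by linarith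
    have a2 : d o1 (c • o1) ≤ disp d c + 2 * (A + dl) := by exact_mod_cast a1
    omega
  have co1 := hd.comm o1 o
  have hcent : ∀ a, Commute a c → ∃ m : ℤ, a = c ^ m := by
    intro a hac
    have hao : a • o ∈ Mn d c := (hG.smul_mem_Mn_of_commute hac o).2 ho
    have hao' : d (a • o) (c • a • o) = disp d c := hao
    obtain ⟨y0, ⟨i, hi⟩, hy0⟩ := hG.near_oax hh hd ho (by omega) (a • o)
    -- pull back by `c^i`
    set b := c ^ (-i) * a with hb
    set z := c ^ (-i) • y0 with hz
    have hbc : Commute b c := ((Commute.refl c).zpow_left _).mul_left hac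
    have hbcc : b • c • o = c • b • o := by
      rw [smul_smul, smul_smul, hbc.eq]
    have hz1 : Bt d o z (c • o) := by
      have a1 := (hG.bt_smul (c ^ (-i)) (x := c ^ i • o) (y := y0) (z := c ^ (i + 1) • o)).2 hi
      have a2 : c ^ (-i) • c ^ i • o = o := by
        rw [smul_smul, ← zpow_add]
        simp
      have a3 : c ^ (-i) • c ^ (i + 1) • o = c • o := by
        rw [smul_smul, ← zpow_add]
        simp
      rwa [a2, a3] at a1
    have hz2 : d (b • o) z ≤ 37 * dl + 4 := by
      have a1 : d (b • o) z = d (a • o) y0 := by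
        rw [hb, hz, mul_smul, hG]
      omega
    have hoo : d o (c • o) = disp d c := ho
    have hgo := hG.gp_of_disp hh hd ho (by omega)
    rw [pow_two, mul_smul] at hgo
    -- the product of `z` and `c z` at `c o`
    have k1 : d (c • o) (c • z) = d o z := hG _ _ _
    have k2 : d (c • z) (c • c • o) = d z (c • o) := hG _ _ _
    have k3 : d (c • b • o) (c • z) = d (b • o) z := hG _ _ _
    have hzz : d z (c • o) + d o z ≤ d z (c • z) + 4 * dl := by
      have a1 := hd.tri o z (c • c • o)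
      have a2 := hd.tri z (c • z) (c • c • o)
      have a3 : d (c • o) (c • c • o) = d o (c • o) := hG _ _ _
      unfold GpLe at hgo
      unfold Bt at hz1
      omega
    -- the tube
    have htube : ∀ p, Bt d o p (c • o) → A + 38 * dl + 4 + r + 8 * dl + 1 ≤ d o p →
        A + 38 * dl + 4 + r + 8 * dl + 1 ≤ d p (c • o) → d p (g • p) ≤ e + 16 * dl := by
      intro p hp hp1 hp2
      have a1 : d (c • o) (g ^ N • o1) ≤ A + 38 * dl + 4 + r := by
        have b1 := hd.tri (c • o) (c • o1) (g ^ N • o1)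
        have b2 : d (c • o) (c • o1) = d o o1 := hG _ _ _
        omega
      obtain ⟨z', hz', hpz', -, -⟩ := hh.quad hd (x := o) (y := c • o) (x' := o1)
        (y' := g ^ N • o1) (z := p) (a := A + 38 * dl + 4) (b := A + 38 * dl + 4 + r)
        (by omega) a1 hp (by omega) (by omega)
      have a2 := hseg z' hz'
      have a3 := hG.dist_base hd g p z'
      omega
    have hb1 : b = 1 ∨ c⁻¹ * b = 1 := by
      by_cases hcase : 2 * d o z ≤ disp d c
      · left
        have hcomm := tube hG hh hd hO (g := g) (c := c) (b1 := 1) (b2 := b) (o := o) (e := z)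
          (C1 := 37 * dl + 4) (C2 := 39 * dl + 4) htube
          (by rw [one_smul, one_smul]; exact hz1) hz2
          (by
            rw [one_smul, hbcc]
            have a1 := hd.tri z (c • b • o) (c • z)
            have a2 := hd.tri (c • o) (c • z) (c • b • o)
            have a3 := hd.comm (c • z) (c • b • o)
            unfold GpLe
            omega)
          (by
            rw [one_smul]
            unfold Bt at hz1
            omega)
        rw [one_mul, inv_one, mul_one] at hcomm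
        have hgb := hC.maln g b w1 hcomm
        by_contra hbne
        have hbt : Commute b t := by
          have a1 : Commute b (g ^ N)⁻¹ := (hgb.symm.pow_right N).inv_right
          have a2 := a1.mul_right hbc
          rwa [hcdef, inv_mul_cancel_left] at a2
        exact hnt (hC.trans g b t hbne hgb hbt)
      · right
        have hu : (c⁻¹ * b) • c • o = b • o := by
          rw [mul_smul, hbcc, inv_smul_smul]
        have hu' : (c⁻¹ * b) • o = c⁻¹ • b • o := mul_smul _ _ _
        have j1 : d (c⁻¹ • b • o) (c⁻¹ • z) = d (b • o) z := hG _ _ _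
        have j2 : d (c⁻¹ • z) o = d z (c • o) := hG.inv c z o
        have j3 : d (c⁻¹ • z) z = d z (c • z) := hG.inv c z z
        have hgp2 : GpLe d (76 * dl + 8) (c⁻¹ • b • o) o (b • o) := by
          have a1 := hd.tri (c⁻¹ • b • o) (c⁻¹ • z) o
          have a2 := hd.tri o z (b • o)
          have a3 := hd.comm z (b • o)
          have a4 := hd.tri (c⁻¹ • z) (c⁻¹ • b • o) z
          have a5 := hd.tri (c⁻¹ • b • o) (b • o) z
          have a6 := hd.comm (c⁻¹ • b • o) (c⁻¹ • z)
          unfold GpLe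
          omega
        obtain ⟨e', he1, he2⟩ := hh.near_of_gp hd hgp2
        have hcomm := tube hG hh hd hO (g := g) (c := c) (b1 := c⁻¹ * b) (b2 := 1) (o := o)
          (e := e') (C1 := 78 * dl + 9) (C2 := 115 * dl + 13) htube
          (by rw [hu, hu']; exact he1) (by rw [one_smul]; omega)
          (by
            rw [one_smul, hu]
            have a1 := hd.tri e' o (b • o)
            have a2 := hd.tri o z (b • o)
            have a3 := hd.comm z (b • o)
            have a4 := hd.tri (b • o) z (c • o)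
            have a5 := hd.tri o e' (c • o)
            have a6 := hd.comm o e'
            unfold GpLe
            unfold Bt at hz1
            omega)
          (by
            rw [hu]
            have a1 := hd.tri o e' (b • o)
            have a2 := hd.tri o (b • o) z
            omega)
        rw [one_mul, inv_one, mul_one] at hcomm
        have hgb := hC.maln g (c⁻¹ * b) w1 hcomm.symm
        have hbc' : Commute (c⁻¹ * b) c := ((Commute.refl c).inv_left).mul_left hbc
        by_contra hbne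
        have hbt : Commute (c⁻¹ * b) t := by
          have a1 : Commute (c⁻¹ * b) (g ^ N)⁻¹ := (hgb.symm.pow_right N).inv_right
          have a2 := a1.mul_right hbc'
          rwa [hcdef, inv_mul_cancel_left] at a2
        exact hnt (hC.trans g _ t hbne hgb hbt)
    have ha : a = c ^ i * b := by
      rw [hb, ← mul_assoc, ← zpow_add]
      simp
    rcases hb1 with hb1 | hb1
    · exact ⟨i, by rw [ha, hb1, mul_one]⟩
    · refine ⟨i + 1, ?_⟩
      have : b = c := by
        rw [inv_mul_eq_one] at hb1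
        exact hb1.symm
      rw [ha, this, zpow_add, zpow_one]
  have hmove : ∀ i, 10 * d o (lW k h x y i • o) ≤ disp d c := by
    intro i
    have a1 := hw1.2.2 h i
    have a2 := hG.dist_base hd (lW k h x y i) o o1
    omega
  refine ⟨o, ho, by omega, ?_, hmove, ?_, hcent⟩
  · intro i
    unfold lW
    rw [Nat.add_mod_right]
  · intro i hcom
    obtain ⟨m, hm⟩ := hcent _ hcom
    have hne := letter_ne (k := k) (h := h) (y := y) w6 w4 i
    have hm0 : m ≠ 0 := by
      rintro rfl
      rw [zpow_zero] at hm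
      exact hne hm
    have a1 := hmove i
    rw [hm] at a1
    have hnat : d o (c ^ m • o) = d o (c ^ m.natAbs • o) := by
      rcases Int.natAbs_eq m with h5 | h5
      · conv_lhs => rw [h5, zpow_natCast]
      · conv_lhs => rw [h5, zpow_neg, zpow_natCast]
        exact f_inv hG hd _ _
    have a2 := IsomAct.slen_mul_le (d := d) c o m.natAbs
    rw [← hnat] at a2
    have a3 : (1 : ℝ) ≤ m.natAbs := by
      have : 1 ≤ m.natAbs := Int.natAbs_pos.2 hm0
      exact_mod_cast this
    have a4 : (10 : ℝ) * d o (c ^ m • o) ≤ disp d c := by exact_mod_cast a1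
    have a5 : (disp d c : ℝ) ≤ slen d c + (6 * dl + 2) := hG.disp_le_slen hh hd c
    have a6 : slen d c ≤ d o (c ^ m • o) := by
      have := IsomAct.slen_nonneg (d := d) c
      nlinarith
    have a7 : (10 * (6 * dl + 2) : ℝ) < disp d c := by
      have : 10 * (6 * dl + 2) < disp d c := by omega
      exact_mod_cast this
    linarith

end Pool.Agent.Olsh
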