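import Pool.Agent.Olsh.StmtsE

/-!
# MP_3cdb71_al: EPALG, the pair is determined by the letters
-/

set_option autoImplicit false

namespace Pool.Agent.Olsh

namespace EPALG

variable {G : Type} [Group G] {D k N h : ℕ} {nn : ℕ → ℕ} {x y x' y' : G}

theorem xW_zero (k : ℕ) (x y : G) : xW k 0 x y = x := by
  simp [xW]

theorem map_pW (φ : G →* G) (hx : φ x' = x) : φ (pW D x') = pW D x := by
  simp only [pW, map_pow, hx]

theorem map_qW (φ : G →* G) (hx : φ x' = x) (hy : φ (yW k y') = yW k y) :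
    φ (qW D k x' y') = qW D k x y := by
  simp only [qW, map_mul, map_inv, hy, map_pW φ hx]

theorem map_gW (φ : G →* G) (hx : φ x' = x) (hy : φ (yW k y') = yW k y) :
    φ (gW D k x' y') = gW D k x y := by
  simp only [gW, map_mul, map_inv, map_qW φ hx hy, map_pW φ hx]

theorem map_teW (φ : G →* G) (hx : φ x' = x) (hy : φ (yW k y') = yW k y) :
    φ (teW D k x' y') = teW D k x y := by
  simp only [teW, map_mul, map_inv, map_qW φ hx hy, map_pW φ hx]

theorem map_cW (φ : G →* G) (hx : φ x' = x) (hy : φ (yW k y') = yW k y) :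
    φ (cW D k N x' y') = cW D k N x y := by
  simp only [cW, map_mul, map_pow, map_gW φ hx hy, map_teW φ hx hy]

theorem map_xW (φ : G →* G) (hx : φ x' = x) (hy : φ (yW k y') = yW k y) (j : ℕ) :
    φ (xW k j x' y') = xW k j x y := by
  simp only [xW, map_mul, map_inv, map_pow, hy, hx]

theorem map_uW (φ : G →* G) (hx : φ x' = x) (hy : φ (yW k y') = yW k y) (r : ℕ) :
    φ (uW k x' y' r) = uW k x y r := by
  unfold uW
  split_ifs
  · exact map_xW φ hx hy r
  · rw [map_inv, map_xW φ hx hy]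

theorem map_lW (φ : G →* G) (hx : φ x' = x) (hy : φ (yW k y') = yW k y) (i : ℕ) :
    φ (lW k h x' y' i) = lW k h x y i := by
  unfold lW
  split_ifs
  · rw [map_mul, map_inv, map_xW φ hx hy, map_xW φ hx hy]
  · exact map_uW φ hx hy _

theorem map_bs (φ : G →* G) (c c' : G) (t t' : ℕ → G) (nn : ℕ → ℕ) (hc : φ c' = c)
    (ht : ∀ i, φ (t' i) = t i) (j : ℕ) : φ (bs c' t' nn j) = bs c t nn j := by
  induction j with
  | zero => exact ht 0
  | succ j ih =>
    show φ (bs c' t' nn j * c' ^ nn j * t' (j + 1)) = bs c t nn j * c ^ nn j * t (j + 1)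
    rw [map_mul, map_mul, map_pow, ih, hc, ht]

end EPALG

open EPALG

theorem EPALG (h1 : Stmt_EW1) : Stmt_EPALG := by
  intro D k N h nn G _ hcsa htf hD hk _ x y x' y' hxy _ b hb
  obtain ⟨-, -, -, -, hnc, -, -, -, -⟩ := h1 D k G hcsa htf hD hk x y hxy
  have hx : b * x' * b⁻¹ = x := by
    have := hb 0 (by norm_num)
    simpa [uW, xW] using this
  -- the conjugate of `Y'`
  obtain ⟨Z, hZ⟩ : ∃ Z, b * yW k y' * b⁻¹ = Z := ⟨_, rfl⟩
  have hy' : b * (yW k y')⁻¹ * b⁻¹ = Z⁻¹ := by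
    rw [← hZ]
    group
  have e1 : Z⁻¹ * x * Z = (yW k y)⁻¹ * x * yW k y := by
    have h2 := hb 1 (by norm_num)
    have h3 : b * ((yW k y')⁻¹ * x' * yW k y') * b⁻¹ = (yW k y)⁻¹ * x * yW k y := by
      simpa [uW, xW] using h2
    rw [← h3, ← hx, ← hZ]
    group
  have e2 : Z⁻¹ * (Z⁻¹ * x * Z) * Z = (yW k y)⁻¹ * ((yW k y)⁻¹ * x * yW k y) * yW k y := by
    have h2 := hb 2 (by norm_num)
    have h3 : b * ((yW k y' ^ 2)⁻¹ * x' * yW k y' ^ 2) * b⁻¹ =
        (yW k y ^ 2)⁻¹ * x * yW k y ^ 2 := by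
      simpa [uW, xW] using h2
    have h4 : (yW k y)⁻¹ * ((yW k y)⁻¹ * x * yW k y) * yW k y =
        (yW k y ^ 2)⁻¹ * x * yW k y ^ 2 := by
      simp only [pow_two, mul_inv_rev, mul_assoc]
    rw [h4, ← h3, ← hx, ← hZ]
    simp only [pow_two, mul_inv_rev, inv_inv, mul_assoc, inv_mul_cancel_left]
  rw [e1] at e2
  have e0 : xW k 0 x y = x := xW_zero k x y
  have e3 : xW k 1 x y = (yW k y)⁻¹ * x * yW k y := by simp [xW]
  rw [e0, e3] at hnc
  -- `Z Y⁻¹` commutes with `x` and `X_1`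
  have c1 : Commute x (Z * (yW k y)⁻¹) := by
    have h2 : x * (Z * (yW k y)⁻¹) = Z * (Z⁻¹ * x * Z) * (yW k y)⁻¹ := by group
    have h3 : Z * ((yW k y)⁻¹ * x * yW k y) * (yW k y)⁻¹ = Z * (yW k y)⁻¹ * x := by group
    show x * (Z * (yW k y)⁻¹) = Z * (yW k y)⁻¹ * x
    rw [h2, e1, h3]
  have c2 : Commute (Z * (yW k y)⁻¹) ((yW k y)⁻¹ * x * yW k y) := by
    generalize (yW k y)⁻¹ * x * yW k y = X at e2
    have h2 : X * (Z * (yW k y)⁻¹) = Z * (Z⁻¹ * X * Z) * (yW k y)⁻¹ := by group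
    have h3 : Z * ((yW k y)⁻¹ * X * yW k y) * (yW k y)⁻¹ = Z * (yW k y)⁻¹ * X := by group
    show Z * (yW k y)⁻¹ * X = X * (Z * (yW k y)⁻¹)
    rw [h2, e2, h3]
  have hZ1 : Z = yW k y := by
    by_contra hne
    apply hnc
    refine hcsa.trans _ _ _ ?_ c1 c2
    intro h2
    apply hne
    rwa [mul_inv_eq_one] at h2
  have hy : b * yW k y' * b⁻¹ = yW k y := hZ.trans hZ1
  -- conjugation
  set φ : G →* G := (MulAut.conj b).toMonoidHom with hφ
  have hφa : ∀ a, φ a = b * a * b⁻¹ := fun a => MulAut.conj_apply b a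
  have fx : φ x' = x := by rw [hφa]; exact hx
  have fy : φ (yW k y') = yW k y := by rw [hφa]; exact hy
  have fbs : ∀ j, φ (bs (cW D k N x' y') (lW k h x' y') nn j) =
      bs (cW D k N x y) (lW k h x y) nn j := fun j =>
    map_bs φ _ _ _ _ nn (map_cW φ fx fy) (map_lW φ fx fy) j
  refine ⟨hx, hy, ?_, ?_, ?_, ?_⟩
  · rw [← hφa]
    exact map_cW φ fx fy
  · intro j
    rw [← hφa]
    exact fbs j
  · rw [← hφa]
    unfold lawW rel
    rw [map_mul, map_pow, fbs, map_cW φ fx fy]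
  · rintro ⟨rfl, rfl⟩
    by_contra hne
    have a1 : Commute x b := by
      show x * b = b * x
      have : b * x = b * x * b⁻¹ * b := by group
      rw [this, hx]
    have a2 : Commute b (yW k y) := by
      show b * yW k y = yW k y * b
      have : b * yW k y = b * yW k y * b⁻¹ * b := by group
      rw [this, hy]
    have a3 := hcsa.trans _ _ _ hne a1 a2
    apply hnc
    have : (yW k y)⁻¹ * x * yW k y = x := by
      rw [mul_assoc, a3.eq, inv_mul_cancel_left]
    rw [this]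

end Pool.Agent.Olsh
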