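import Pool.Agent.Olsh.StmtsE

/-!
# MP_3cdb71_al, module EPAR: propagation of parallel intervals
-/

set_option autoImplicit false

namespace Pool.Agent.Olsh

namespace EPAR

variable {L1 : ℕ} {G X : Type} [Group G] [MulAction G X] {d : X → X → ℕ} {P : ℕ → X}
  {D m m' lam lam' : ℕ} {x x' : ℕ → ℕ} {e e' : ℕ → G}

/-- The ends of two intervals with a large overlap agree. -/
theorem ends (h1 : Stmt_ECOM) (hC : IsCSA G) (hI : IsomAct G d) (hO : OV G d L1)
    (hT : IsTrack d P D m lam x e) (hT' : IsTrack d P D m' lam' x' e') (hL : L1 ≤ lam + lam')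
    (hx : ∀ i, i < m → x i + 200 * (lam + lam') ≤ x (i + 1))
    (hx' : ∀ i, i < m' → x' i + 200 * (lam + lam') ≤ x' (i + 1)) {i j : ℕ} (hi : i < m)
    (hj : j < m') (ho : Ovl x x' i j (60 * (lam + lam'))) :
    Commute (e i) (e' j) ∧ (i + 1 < m → j + 1 < m' →
      x (i + 1) ≤ x' (j + 1) + 60 * (lam + lam') ∧
      x' (j + 1) ≤ x (i + 1) + 60 * (lam + lam')) := by
  have hcomm := h1 L1 G X d P D m m' lam lam' x x' e e' hI hO hT hT' hL
  have hc := hcomm i j hi hj ho
  refine ⟨hc, fun hi1 hj1 => ⟨?_, ?_⟩⟩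
  · by_contra hcon
    have ho2 : Ovl x x' i (j + 1) (60 * (lam + lam')) := by
      have a1 := hx' (j + 1) hj1
      have a2 : j + 1 + 1 = j + 2 := rfl
      unfold Ovl at *
      omega
    have hc2 := hcomm i (j + 1) hi hj1 ho2
    exact hT'.ncomm j hj1 (hC.trans _ _ _ (hT.ne i hi) hc.symm hc2)
  · by_contra hcon
    have ho2 : Ovl x x' (i + 1) j (60 * (lam + lam')) := by
      have a1 := hx (i + 1) hi1
      unfold Ovl at *
      omega
    have hc2 := hcomm (i + 1) j hi1 hj ho2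
    exact hT.ncomm i hi1 (hC.trans _ _ _ (hT'.ne j hj) hc hc2.symm)

end EPAR

theorem EPAR (h1 : Stmt_ECOM) : Stmt_EPAR := by
  intro L1 G X _ _ d P D m m' lam lam' x x' e e' hC hI hO hT hT' hL hx hx' i j ho r
  induction r with
  | zero =>
    intro hi hj
    exact ⟨ho, EPAR.ends h1 hC hI hO hT hT' hL hx hx' hi hj ho⟩
  | succ r ih =>
    intro hi hj
    obtain ⟨o1, -, o3⟩ := ih (by omega) (by omega)
    obtain ⟨o4, o5⟩ := o3 (by omega) (by omega)
    have a1 := hx (i + r + 1) hi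
    have a2 := hx' (j + r + 1) hj
    have ho2 : Ovl x x' (i + (r + 1)) (j + (r + 1)) (60 * (lam + lam')) := by
      show max (x (i + r + 1)) (x' (j + r + 1)) + 60 * (lam + lam') ≤
        min (x (i + r + 1 + 1)) (x' (j + r + 1 + 1))
      omega
    exact ⟨ho2, EPAR.ends h1 hC hI hO hT hT' hL hx hx' hi hj ho2⟩

end Pool.Agent.Olsh
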