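import Pool.Agent.Olsh.StmtsE

/-!
# EPER: the partial products and the relator
-/

set_option autoImplicit false

namespace Pool.Agent.Olsh

namespace EPER

theorem step {G : Type} [Group G] {h : ℕ} (c : G) {t : ℕ → G} {nn : ℕ → ℕ}
    (ht : ∀ i, t (i + (h + 1)) = t i) (hn : ∀ i, nn (i + (h + 1)) = nn i) (k : ℕ) :
    bs c t nn (k + (h + 1)) = rel c t nn h * bs c t nn k := by
  induction k with
  | zero =>
    have e : t (h + 1) = t 0 := by
      have := ht 0
      rwa [Nat.zero_add] at this
    rw [Nat.zero_add]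
    change bs c t nn h * c ^ nn h * t (h + 1) = rel c t nn h * t 0
    rw [e]
    rfl
  | succ k ih =>
    have e1 : k + 1 + (h + 1) = (k + (h + 1)) + 1 := by omega
    have e2 : t (k + (h + 1) + 1) = t (k + 1) := by
      rw [← e1, ht]
    rw [e1]
    change bs c t nn (k + (h + 1)) * c ^ nn (k + (h + 1)) * t (k + (h + 1) + 1) =
      rel c t nn h * (bs c t nn k * c ^ nn k * t (k + 1))
    rw [ih, hn, e2]
    group

end EPER

theorem EPER : Stmt_EPER := by
  intro G _ h c t nn ht hn k m
  induction m with
  | zero => simp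
  | succ m ih =>
    have e : k + (m + 1) * (h + 1) = (k + m * (h + 1)) + (h + 1) := by ring
    rw [e, EPER.step c ht hn, ih, pow_succ', mul_assoc]

end Pool.Agent.Olsh
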