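import Pool.Agent.Olsh.StmtsE

/-!
# MP_3cdb71_al, section 8: the relator is loxodromic, its minimal set and the path
-/

set_option autoImplicit false

open Filter Topology

namespace Pool.Agent.Olsh

namespace EREL

variable {V : Type} {d : V → V → ℕ} {δ : ℕ}

/-- A point of an edge of a chain has small Gromov product with respect to the ends. -/
theorem gp_edge (hh : Hyp d δ) (hd : IsGM d) {n a b : ℕ} {x : ℕ → V}
    (h : IsChain d n a b x) (hb : 2 * a + 8 * δ + 1 ≤ b) {k : ℕ} (hk1 : 1 ≤ k) (hk2 : k + 1 < n)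
    {z : V} (hz : Bt d (x k) z (x (k + 1))) : GpLe d (a + 3 * δ) (x 0) z (x n) := by
  have g1 := h.gp_ends hh hd (by omega) k (by omega)
  have g2 := h.gp_ends hh hd (by omega) (k + 1) (by omega)
  have hsh : IsChain d (n - k) a b (fun i => x (k + i)) := h.shift (by omega)
  have g3 := hsh.gp_ends hh hd (by omega) 1 (by omega)
  have e : k + (n - k) = n := by omega
  have g4 : GpLe d (a + 2 * δ) (x (k + 0)) (x (k + 1)) (x (k + (n - k))) := g3
  rw [e, Nat.add_zero] at g4
  have hl := h.len k hk1 hk2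
  have d1 := hh.dist_bt (w := x 0) hz hd
  have d2 := hh.dist_bt (w := x n) hz hd
  have t1 := hd.tri z (x (k + 1)) (x n)
  have t2 := hd.tri (x 0) (x k) z
  have c1 := hd.comm (x n) z
  have c2 := hd.comm (x n) (x k)
  have c3 := hd.comm (x n) (x (k + 1))
  have c4 := hd.comm z (x (k + 1))
  have c5 := hd.comm z (x k)
  have t3 := hd.tri (x 0) z (x n)
  unfold GpLe Bt at *
  omega

end EREL

open EREL in
theorem EREL (h1 : Stmt_EGP) (h2 : Stmt_ELEN) (h3 : Stmt_EPER) : Stmt_EREL := by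
  intro δ L1 G X _ _ d h n0 c t o nn hd hh hG hcsa hov hbs hn0 hh12 hexp
  have hbs' : IsBS G d (1000 * (δ + 1)) h c t o :=
    ⟨hbs.o_mem, le_trans (by omega) hbs.big, hbs.tper, hbs.move, hbs.ncomm, hbs.cent⟩
  have hbig := hbs.big
  set cc := disp d c with hcc
  set a : ℕ → X := fun k => bs c t nn k • o with ha
  set R : G := rel c t nn h with hR
  have hgp := fun k => (h1 δ L1 G X d h n0 c t o nn hd hh hG hcsa hov hbs hn0 hexp.low k).1
  obtain ⟨hsl, hlen⟩ := h2 δ G X d h c t o nn hd hh hG hbs'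
  rw [← hcc] at hsl
  have hper := h3 G h c t nn hbs.tper hexp.per
  have : Nonempty X := ⟨o⟩
  have hccR : (1000 * ((δ : ℝ) + L1 + 1)) ≤ cc := by exact_mod_cast hbig
  have hδ0 : (0 : ℝ) ≤ δ := Nat.cast_nonneg _
  have hL0 : (0 : ℝ) ≤ L1 := Nat.cast_nonneg _
  have hn0R : (1000 : ℝ) ≤ n0 := by exact_mod_cast hn0
  have hslpos : 0 ≤ slen d c := IsomAct.slen_nonneg c
  -- lower bound for the edges
  have hedge : ∀ k, (n0 : ℝ) * slen d c - (cc : ℝ) / 5 ≤ d (a k) (a (k + 1)) := by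
    intro k
    have e1 := (hlen k).1
    have e2 : (n0 : ℝ) ≤ nn k := by exact_mod_cast hexp.low k
    have e3 := mul_le_mul_of_nonneg_right e2 hslpos
    have e4 : (nn k : ℝ) * slen d c ≤ d (a k) (a (k + 1)) + (cc : ℝ) / 5 := e1
    linarith
  have hbase : 900 * (cc : ℝ) ≤ (n0 : ℝ) * slen d c - (cc : ℝ) / 5 := by
    have e1 : 1000 * slen d c ≤ n0 * slen d c := mul_le_mul_of_nonneg_right hn0R hslpos
    linarith
  have hedgeN : ∀ k, 900 * cc ≤ d (a k) (a (k + 1)) := by
    intro k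
    have e1 := hbase.trans (hedge k)
    exact_mod_cast e1
  have hchain : ∀ n, IsChain d n (11 * cc) (900 * cc) a := by
    intro n
    constructor
    · intro i hi _
      obtain ⟨j, rfl⟩ : ∃ j, i = j + 1 := ⟨i - 1, by omega⟩
      exact hgp j
    · intro i _ _
      exact hedgeN i
  have hRa : ∀ k m : ℕ, R ^ m • a k = a (k + m * (h + 1)) := by
    intro k m
    change R ^ m • bs c t nn k • o = bs c t nn (k + m * (h + 1)) • o
    rw [smul_smul, hper k m]
  have hb1 : 2 * (11 * cc) + 8 * δ + 1 ≤ 900 * cc := by omega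
  -- (1)
  have part1 : (h + 1 : ℝ) * (n0 * slen d c - 24 * cc) ≤ slen d R := by
    have ht := hG.tendsto_slen hd R (a 0)
    refine le_of_tendsto_of_tendsto tendsto_const_nhds ht ?_
    filter_upwards [eventually_ge_atTop 1] with m hm
    have hm0 : (0 : ℝ) < m := by exact_mod_cast hm
    rw [le_div_iff₀ hm0]
    have e0 := hRa 0 m
    rw [Nat.zero_add] at e0
    rw [e0]
    have hpos : 1 ≤ m * (h + 1) := Nat.one_le_iff_ne_zero.mpr (by positivity)
    have e1 := (hchain (m * (h + 1))).dist_ge hh hd (by omega) hpos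
    have e2 : ((m * (h + 1) : ℕ) : ℝ) * ((n0 : ℝ) * slen d c - (cc : ℝ) / 5) ≤
        ∑ i ∈ Finset.range (m * (h + 1)), (d (a i) (a (i + 1)) : ℝ) := by
      have e3 := Finset.sum_le_sum (s := Finset.range (m * (h + 1))) fun i _ => hedge i
      rw [Finset.sum_const, Finset.card_range, nsmul_eq_mul] at e3
      exact e3
    have e4 : (∑ i ∈ Finset.range (m * (h + 1)), (d (a i) (a (i + 1)) : ℝ)) ≤
        d (a 0) (a (m * (h + 1))) + ((m * (h + 1) : ℕ) : ℝ) * (2 * (11 * cc + δ)) := by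
      have e5 : (∑ i ∈ Finset.range (m * (h + 1)), d (a i) (a (i + 1))) ≤
          d (a 0) (a (m * (h + 1))) + (m * (h + 1)) * (2 * (11 * cc + δ)) := by
        refine e1.trans ?_
        have : (m * (h + 1) - 1) * (2 * (11 * cc + δ)) ≤ (m * (h + 1)) * (2 * (11 * cc + δ)) :=
          Nat.mul_le_mul_right _ (by omega)
        omega
      exact_mod_cast e5
    have e6 : (0 : ℝ) ≤ ((m * (h + 1) : ℕ) : ℝ) := Nat.cast_nonneg _
    have e7 : ((m * (h + 1) : ℕ) : ℝ) * ((n0 : ℝ) * slen d c - 24 * cc) ≤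
        ((m * (h + 1) : ℕ) : ℝ) * ((n0 : ℝ) * slen d c - (cc : ℝ) / 5)
          - ((m * (h + 1) : ℕ) : ℝ) * (2 * (11 * cc + δ)) := by
      rw [← mul_sub]
      apply mul_le_mul_of_nonneg_left _ e6
      linarith
    have e8 : (h + 1 : ℝ) * (n0 * slen d c - 24 * cc) * m =
        ((m * (h + 1) : ℕ) : ℝ) * ((n0 : ℝ) * slen d c - 24 * cc) := by
      push_cast
      ring
    rw [e8]
    linarith
  -- consequences
  have hslR : (1000 : ℝ) * (δ + 1) ≤ slen d R := by
    have e1 : (13 : ℝ) ≤ h + 1 := by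
      have : (12 : ℝ) ≤ h := by exact_mod_cast hh12
      linarith
    have e2 : (cc : ℝ) ≤ n0 * slen d c - 24 * cc := by
      have : (0 : ℝ) ≤ cc := Nat.cast_nonneg _
      linarith
    have e3 : (0 : ℝ) ≤ n0 * slen d c - 24 * cc := le_trans (Nat.cast_nonneg _) e2
    have e4 : 1 * (n0 * slen d c - 24 * cc) ≤ (h + 1 : ℝ) * (n0 * slen d c - 24 * cc) :=
      mul_le_mul_of_nonneg_right (by linarith) e3
    linarith
  have hdR : 1000 * (δ + 1) ≤ disp d R := by
    have e1 : (1000 : ℝ) * (δ + 1) ≤ disp d R := hslR.trans (IsomAct.slen_le_disp R)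
    exact_mod_cast e1
  have hfar : ∀ M : ℕ, M ≤ d (a 0) (R ^ M • a 0) := by
    intro M
    have e1 := IsomAct.slen_mul_le (d := d) R (a 0) M
    have e2 : (M : ℝ) ≤ M * slen d R := by
      have : (1 : ℝ) ≤ slen d R := by linarith
      calc (M : ℝ) = M * 1 := by ring
        _ ≤ M * slen d R := mul_le_mul_of_nonneg_left this (Nat.cast_nonneg _)
    exact_mod_cast e2.trans e1
  refine ⟨part1, ?_, ?_⟩
  · -- (2)
    intro z hz
    set N := 2 * d z (a 0) + 12 * δ + 2 with hN
    have g1 := hG.gp_pow_pow' hh hd (w := a 0) hz (by omega) N (by omega)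
    obtain ⟨q, hq, hzq⟩ := hh.near_of_gp hd g1
    have hq2 : Bt d (a 0) (R ^ N • q) (a (2 * N * (h + 1))) := by
      have e1 := (hG.bt_smul (R ^ N)).mpr hq
      rw [smul_inv_smul, smul_smul, ← pow_add] at e1
      have e2 := hRa 0 (N + N)
      have e3 : 0 + (N + N) * (h + 1) = 2 * N * (h + 1) := by ring
      rw [e3] at e2
      rw [e2] at e1
      exact e1
    have hpos : 1 ≤ 2 * N * (h + 1) := Nat.one_le_iff_ne_zero.mpr (by positivity)
    obtain ⟨i, _, z', hz', hzz⟩ := (hchain (2 * N * (h + 1))).cover hh hd (by omega) hpos hq2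
    refine ⟨N, i, z', hz', ?_⟩
    have e1 := hd.tri (R ^ N • z) (R ^ N • q) z'
    have e2 := hG (R ^ N) z q
    omega
  · -- (3)
    intro k z hz
    obtain ⟨w, hw⟩ := Mn_nonempty (d := d) R
    set M := d (a 0) w + 8 * δ + 1 + d (a 0) z + (11 * cc + 5 * δ + 1) + k + 10 with hM
    have hMk : k + 1 ≤ M * (h + 1) := by
      have : M * 1 ≤ M * (h + 1) := Nat.mul_le_mul_left _ (by omega)
      omega
    have hz1 : Bt d (a (k + M * (h + 1))) (R ^ M • z) (a (k + M * (h + 1) + 1)) := by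
      have e1 := (hG.bt_smul (R ^ M)).mpr hz
      have e2 := hRa k M
      have e3 := hRa (k + 1) M
      have e4 : k + 1 + M * (h + 1) = k + M * (h + 1) + 1 := by ring
      rw [e4] at e3
      have e5 : R ^ M • bs c t nn k • o = a (k + M * (h + 1)) := e2
      have e6 : R ^ M • bs c t nn (k + 1) • o = a (k + M * (h + 1) + 1) := e3
      rw [e5, e6] at e1
      exact e1
    have hn : 2 * M * (h + 1) = M * (h + 1) + M * (h + 1) := by ring
    have hM1 : k + 10 ≤ M * (h + 1) := by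
      have : M * 1 ≤ M * (h + 1) := Nat.mul_le_mul_left _ (by omega)
      omega
    have hM2 : 2 ≤ M * (h + 1) := by omega
    have g1 := gp_edge hh hd (hchain (2 * M * (h + 1))) hb1 (k := k + M * (h + 1)) (by omega)
      (by omega) hz1
    obtain ⟨q, hq, hzq⟩ := hh.near_of_gp hd g1
    have e0 : a (2 * M * (h + 1)) = R ^ M • R ^ M • a 0 := by
      rw [smul_smul, ← pow_add, hRa 0 (M + M)]
      congr 1
      ring
    have f1 := hfar M
    have f2 : d (R ^ M • z) (a (2 * M * (h + 1))) = d z (R ^ M • a 0) := by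
      rw [e0, hG]
    have f3 : d (R ^ M • a 0) (R ^ M • z) = d (a 0) z := hG _ _ _
    have f4 := hd.tri (a 0) (R ^ M • z) (R ^ M • a 0)
    have f5 := hd.comm (R ^ M • z) (R ^ M • a 0)
    have f6 := hd.tri (a 0) z (R ^ M • a 0)
    have f7 := hd.tri (a 0) q (R ^ M • z)
    have f8 := hd.comm q (R ^ M • z)
    have f9 := hd.tri (R ^ M • z) q (a (2 * M * (h + 1)))
    have f10 : d (a (2 * M * (h + 1))) (R ^ M • R ^ M • w) = d (a 0) w := by
      rw [e0, hG, hG]
    obtain ⟨z', hz', hqz, -, -⟩ := hh.quad hd (x' := w) (y' := R ^ M • R ^ M • w) (a := d (a 0) w)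
      (b := d (a 0) w) le_rfl f10.le hq (by omega) (by omega)
    have hqc := hG.oax_qconv hh hd hw (by omega)
    have hw2 : R ^ M • R ^ M • w ∈ OAx d R w := by
      refine ⟨((M + M : ℕ) : ℤ), ?_⟩
      rw [smul_smul, ← pow_add, zpow_natCast]
      exact hd.bt_left _ _
    obtain ⟨y, hy, hzy⟩ := hqc w (IsomAct.self_mem_OAx hd R w) _ hw2 z' hz'
    have hyM := hG.OAx_subset_Mn hd hw hy
    refine ⟨(R ^ M)⁻¹ • y, ?_, ?_⟩
    · have := hG.pow_mem_Mn hyM (-(M : ℤ))
      rwa [zpow_neg, zpow_natCast] at this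
    · have e1 : d z ((R ^ M)⁻¹ • y) = d (R ^ M • z) y := by
        rw [hd.comm, hG.inv, hd.comm]
      have e2 := hd.tri (R ^ M • z) q y
      have e3 := hd.tri q z' y
      rw [e1]
      omega

end Pool.Agent.Olsh
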