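import Pool.Agent.Olsh.StmtsE

/-!
# MP_3cdb71_al: the self overlap theorem for block systems (module OLE_ESELF)
-/

set_option autoImplicit false

namespace Pool.Agent.Olsh

namespace ESELF

/-- The generator of a block system has infinite order. -/
theorem zpow_ne {δ K h : ℕ} {G X : Type} [Group G] [MulAction G X] {d : X → X → ℕ} {c : G}
    {t : ℕ → G} {o : X} (hd : IsGM d) (hh : Hyp d δ) (hG : IsomAct G d)
    (hK : 1000 * (δ + 1) ≤ K) (hb : IsBS G d K h c t o) (m : ℤ) (hm : c ^ m = 1) : m = 0 := by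
  have : Nonempty X := ⟨o⟩
  have h1 := hG.disp_le_slen hh hd c
  have h2 := hb.big
  have h3 : (1000 * (δ + 1) : ℝ) ≤ disp d c := by
    have : 1000 * (δ + 1) ≤ disp d c := le_trans hK h2
    exact_mod_cast this
  have hδ : (0 : ℝ) ≤ δ := Nat.cast_nonneg δ
  have h4 : (0 : ℝ) < slen d c := by linarith
  have h5 : c ^ m.natAbs = 1 := by
    rcases Int.natAbs_eq m with h | h
    · rw [h, zpow_natCast] at hm
      exact hm
    · rw [h, zpow_neg, zpow_natCast, inv_eq_one] at hm
      exact hm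
  have h6 := hG.slen_pow hd c m.natAbs
  have h7 := hG.slen_pow hd c 0
  rw [pow_zero] at h7
  rw [h5, h7] at h6
  have h8 : (m.natAbs : ℝ) = 0 := by
    have h9 : (m.natAbs : ℝ) * slen d c = 0 := by
      rw [← h6]
      simp
    rcases mul_eq_zero.1 h9 with h | h
    · exact h
    · exact absurd h h4.ne'
  have h9 : m.natAbs = 0 := by exact_mod_cast h8
  exact Int.natAbs_eq_zero.1 h9

end ESELF

theorem ESELF (h1 : Stmt_EGEO) (h2 : Stmt_EALG2) (h3 : Stmt_EPER) : Stmt_ESELF := by
  intro δ L1 ρ G X _ _ d h n0 c t u o nn hd hh hG hcsa hov hbs hn0 hdvd hh48 htu hexp q p1 p2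
    hp1 hp2 hp3 hp4 hlen
  have hmax : max (disp d c) (disp d c) = disp d c := max_self _
  obtain ⟨r, r', k, l, hkl, hconj⟩ := h1 δ L1 ρ G X d h n0 c c t t o o nn hd hh hG hcsa hov
    hbs hbs hn0 (by omega) hexp (by omega) (by omega) q p1 p2 hp1 hp2 hp3 hp4
    (by rw [hmax]; exact hlen)
  obtain ⟨b, k1, l1, hk1, hq, hbc, hbu⟩ := h2 G h c c (rel c t nn h ^ r * q * rel c t nn h ^ r')
    t t u u nn hcsa hdvd hh48 hbs.tper hbs.tper htu htu hexp.per hbs.cent hbs.ncomm
    (ESELF.zpow_ne hd hh hG (by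
      have : 0 ≤ L1 + ρ := Nat.zero_le _
      omega) hbs) k l hkl hconj
  have hmod : 1 % (h + 1) = 1 := Nat.mod_eq_of_lt (by omega)
  have ht1 : t 1 = u 0 := by
    have := htu 1 (by rw [hmod]; exact one_ne_zero)
    rw [hmod] at this
    exact this
  have hcb : Commute b c := by
    have : b * c = c * b := by
      calc b * c = (b * c * b⁻¹) * b := by group
        _ = c * b := by rw [hbc]
    exact this
  have htb : Commute (t 1) b := by
    have h4 := hbu 0 (by norm_num)
    have : t 1 * b = b * t 1 := by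
      rw [ht1]
      calc u 0 * b = (b * u 0 * b⁻¹) * b := by rw [h4]
        _ = b * u 0 := by group
    exact this
  have hb1 : b = 1 := by
    by_contra hne
    exact hbs.ncomm 1 (hcsa.trans (t 1) b c hne htb hcb)
  subst hb1
  have hper := h3 G h c t nn hbs.tper hexp.per
  have e1 : bs c t nn k1 = rel c t nn h ^ (k1 / (h + 1)) * bs c t nn (k1 % (h + 1)) := by
    have := hper (k1 % (h + 1)) (k1 / (h + 1))
    rw [Nat.mod_add_div'] at this
    exact this
  have e2 : bs c t nn l1 = rel c t nn h ^ (l1 / (h + 1)) * bs c t nn (k1 % (h + 1)) := by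
    have := hper (l1 % (h + 1)) (l1 / (h + 1))
    rw [Nat.mod_add_div'] at this
    rw [hk1]
    exact this
  rw [e1, e2] at hq
  generalize rel c t nn h = W at hq ⊢
  generalize bs c t nn (k1 % (h + 1)) = s at hq
  refine ⟨-r + ((k1 / (h + 1) : ℕ) : ℤ) - ((l1 / (h + 1) : ℕ) : ℤ) - r', ?_⟩
  have e3 : q = W ^ (-r) * (W ^ r * q * W ^ r') * W ^ (-r') := by
    rw [zpow_neg, zpow_neg]
    group
  rw [e3, hq, ← zpow_natCast W (k1 / (h + 1)), ← zpow_natCast W (l1 / (h + 1))]
  generalize ((k1 / (h + 1) : ℕ) : ℤ) = a1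
  generalize ((l1 / (h + 1) : ℕ) : ℤ) = a2
  group

end Pool.Agent.Olsh
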