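import Pool.Agent.Olsh.StmtsE

/-!
# ETRA: the track of a block system, increasing direction (MP_3cdb71_al)
-/

set_option autoImplicit false

namespace Pool.Agent.Olsh

namespace ETRA

/-- The vertices of the chain: `p`, then `a k, ..., a (k + N)`, then `q`. -/
def vx {X : Type} (p q : X) (a : ℕ → X) (N : ℕ) : ℕ → X := fun i =>
  if i = 0 then p else if i ≤ N + 1 then a (i - 1) else q

theorem vx_zero {X : Type} (p q : X) (a : ℕ → X) (N : ℕ) : vx p q a N 0 = p := rfl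

theorem vx_mid {X : Type} (p q : X) (a : ℕ → X) (N i : ℕ) (hi : i ≤ N) :
    vx p q a N (1 + i) = a i := by
  unfold vx
  rw [if_neg (by omega), if_pos (by omega)]
  congr 1
  omega

theorem vx_last {X : Type} (p q : X) (a : ℕ → X) (N : ℕ) : vx p q a N (N + 2) = q := by
  unfold vx
  rw [if_neg (by omega), if_neg (by omega)]

theorem gp_left {X : Type} {d : X → X → ℕ} (hd : IsGM d) {a z b e p : X} {A B : ℕ}
    (h : GpLe d A a b e) (hz : Bt d a z b) (hp : d p z ≤ B) : GpLe d (A + B) p b e := by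
  have h1 := hd.tri a z e
  have h2 := hd.tri p z b
  have h3 := hd.tri z p e
  have h4 := hd.comm p z
  unfold GpLe Bt at *
  omega

theorem gp_right {X : Type} {d : X → X → ℕ} (hd : IsGM d) {a z b e p : X} {A B : ℕ}
    (h : GpLe d A e a b) (hz : Bt d a z b) (hp : d p z ≤ B) : GpLe d (A + B) e a p := by
  have h1 := hd.tri e z b
  have h2 := hd.tri a z p
  have h3 := hd.tri e p z
  have h4 := hd.comm p z
  unfold GpLe Bt at *
  omega

/-- The chain. -/
theorem chain {X : Type} {d : X → X → ℕ} (hd : IsGM d) {p q z1 z2 : X} {a : ℕ → X} {N lam : ℕ}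
    (hN : 1 ≤ N) {a' b' : X} (hz1 : Bt d a' z1 (a 0)) (hz2 : Bt d (a N) z2 b')
    (hp : d p z1 ≤ 13 * lam) (hq : d q z2 ≤ 13 * lam)
    (g0 : GpLe d (11 * lam) a' (a 0) (a 1)) (gN : GpLe d (11 * lam) (a (N - 1)) (a N) b')
    (g : ∀ i, GpLe d (11 * lam) (a i) (a (i + 1)) (a (i + 2)))
    (hl : ∀ i, 900 * lam ≤ d (a i) (a (i + 1))) :
    IsChain d (N + 2) (24 * lam) (900 * lam) (vx p q a N) := by
  constructor
  · intro i hi1 hi2
    rcases Nat.eq_or_lt_of_le hi1 with h1 | h1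
    · subst h1
      have e0 : vx p q a N (1 - 1) = p := rfl
      have e1 : vx p q a N 1 = a 0 := vx_mid p q a N 0 (by omega)
      have e2 : vx p q a N (1 + 1) = a 1 := vx_mid p q a N 1 hN
      rw [e0, e1, e2]
      exact (gp_left hd g0 hz1 hp).mono (by omega)
    · obtain ⟨j, rfl⟩ : ∃ j, i = j + 2 := ⟨i - 2, by omega⟩
      have e0 : vx p q a N (j + 2 - 1) = a j := by
        have : j + 2 - 1 = 1 + j := by omega
        rw [this]
        exact vx_mid p q a N j (by omega)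
      have e1 : vx p q a N (j + 2) = a (j + 1) := by
        have : j + 2 = 1 + (j + 1) := by omega
        rw [this]
        exact vx_mid p q a N (j + 1) (by omega)
      rw [e0, e1]
      rcases Nat.eq_or_lt_of_le (show j + 1 ≤ N by omega) with h2 | h2
      · have e2 : vx p q a N (j + 2 + 1) = q := by
          have : j + 2 + 1 = N + 2 := by omega
          rw [this]
          exact vx_last p q a N
        rw [e2]
        have e3 : N - 1 = j := by omega
        rw [e3, ← h2] at gN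
        rw [← h2] at hz2
        exact (gp_right hd gN hz2 hq).mono (by omega)
      · have e2 : vx p q a N (j + 2 + 1) = a (j + 2) := by
          have : j + 2 + 1 = 1 + (j + 2) := by omega
          rw [this]
          exact vx_mid p q a N (j + 2) (by omega)
        rw [e2]
        exact (g j).mono (by omega)
  · intro i hi1 hi2
    obtain ⟨j, rfl⟩ : ∃ j, i = 1 + j := ⟨i - 1, by omega⟩
    rw [vx_mid p q a N j (by omega)]
    have e2 : vx p q a N (1 + j + 1) = a (j + 1) := vx_mid p q a N (j + 1) (by omega)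
    rw [e2]
    exact hl j

end ETRA

open ETRA in
theorem ETRA (h1 : Stmt_EDISP) (h2 : Stmt_EGP) (h3 : Stmt_ELEN) (h4 : Stmt_ETRK) :
    Stmt_ETRA := by
  intro δ L1 G X _ _ d h n0 c t o nn hd hh hG hcsa hov hbs hn0 hlow hup P D k1 k2 z1 z2 hP hz1
    hz2 hd1 hd2 hD hk
  have : Nonempty X := ⟨o⟩
  have hbs' : IsBS G d (1000 * (δ + 1)) h c t o :=
    ⟨hbs.o_mem, le_trans (by omega) hbs.big, hbs.tper, hbs.move, hbs.ncomm, hbs.cent⟩
  have hbig := hbs.big
  have hE := h3 δ G X d h c t o nn hd hh hG hbs'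
  have hsl : slen d c ≤ disp d c := IsomAct.slen_le_disp (d := d) c
  have hsl0 : 0 ≤ slen d c := IsomAct.slen_nonneg (d := d) c
  obtain ⟨hE1, hE2⟩ := hE
  obtain ⟨a, ha⟩ : ∃ a : ℕ → X, a = fun k => bs c t nn k • o := ⟨_, rfl⟩
  have ha' : ∀ k, bs c t nn k • o = a k := fun k => by rw [ha]
  simp only [ha'] at hE2 hz1 hz2 ⊢
  have hgp : ∀ k, GpLe d (11 * disp d c) (a k) (a (k + 1)) (a (k + 2)) := by
    intro k
    have := (h2 δ L1 G X d h n0 c t o nn hd hh hG hcsa hov hbs hn0 hlow k).1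
    simpa only [ha'] using this
  have hnc := fun k => (h2 δ L1 G X d h n0 c t o nn hd hh hG hcsa hov hbs hn0 hlow k).2
  have hdisp : ∀ k z, Bt d (a k) z (a (k + 1)) → 10 * d z (bc c t nn k • z) ≤ 13 * disp d c := by
    intro k z hz
    refine h1 δ G X d h c t o nn hd hh hG hbs' k z ?_
    simpa only [ha'] using hz
  obtain ⟨lam, hlam⟩ : ∃ l : ℕ, l = disp d c := ⟨_, rfl⟩
  rw [← hlam] at hbig hE1 hE2 hsl hgp hdisp hd1 hd2 hD ⊢
  obtain ⟨S, hS⟩ : ∃ S : ℝ, S = slen d c := ⟨_, rfl⟩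
  rw [← hS] at hE1 hE2 hsl hsl0 ⊢
  obtain ⟨W, hW⟩ : ∃ W : ℕ, W = n0 * lam := ⟨_, rfl⟩
  rw [← hW] at hD ⊢
  have hWl : 1000 * lam ≤ W := by
    rw [hW]
    exact Nat.mul_le_mul_right lam hn0
  have hWr : (W : ℝ) = n0 * lam := by rw [hW]; push_cast; ring
  have hup' : ∀ k, 5 * d (a k) (a (k + 1)) ≤ 10 * W + lam := by
    intro k
    have e1 := (hE2 k).2
    have e2 : (nn k : ℝ) ≤ 2 * n0 := by exact_mod_cast hup k
    have e3 : (nn k : ℝ) * S ≤ 2 * n0 * lam := by
      apply mul_le_mul e2 hsl hsl0 (by positivity)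
    have e4 : (5 * d (a k) (a (k + 1)) : ℝ) ≤ 10 * W + lam := by
      rw [hWr]
      linarith
    exact_mod_cast e4
  have hlo' : ∀ k, 900 * lam ≤ d (a k) (a (k + 1)) := by
    intro k
    have e1 := (hE2 k).1
    have e2 : (1000 : ℝ) ≤ nn k := by exact_mod_cast le_trans hn0 (hlow k)
    have e3 : 1000 * S ≤ (nn k : ℝ) * S := mul_le_mul_of_nonneg_right e2 hsl0
    have e5 : (0 : ℝ) ≤ lam := by positivity
    have e4 : (900 * lam : ℝ) ≤ d (a k) (a (k + 1)) := by linarith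
    exact_mod_cast e4
  -- the first claim
  have hk2 : k1 + 2 ≤ k2 := by
    by_contra hcon
    have q1 := hP 0 D (Nat.zero_le _) le_rfl
    have q2 := hd.tri (P 0) z1 (P D)
    have q3 := hd.tri z1 z2 (P D)
    have q4 := hd.comm z2 (P D)
    have q5 := hup' k1
    have q6 := hup' k2
    rcases Nat.eq_or_lt_of_le hk with h0 | h0
    · subst h0
      have q7 := hd.tri z1 (a k1) z2
      have q8 := hd.comm z1 (a k1)
      unfold Bt at hz1 hz2
      omega
    · have h0' : k2 = k1 + 1 := by omega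
      subst h0'
      have q7 := hd.tri z1 (a (k1 + 1)) z2
      unfold Bt at hz1 hz2
      omega
  refine ⟨hk2, ?_⟩
  obtain ⟨N, hN⟩ : ∃ N, N = k2 - (k1 + 1) := ⟨_, rfl⟩
  rw [← hN]
  have hN1 : 1 ≤ N := by omega
  have hk2N : k2 = k1 + 1 + N := by omega
  subst hk2N
  -- the chain
  have hch : IsChain d (N + 2) (24 * lam) (900 * lam)
      (vx (P 0) (P D) (fun i => a (k1 + 1 + i)) N) := by
    refine ETRA.chain hd hN1 (a' := a k1) (b' := a (k1 + 1 + N + 1)) hz1 hz2 hd1 hd2 (hgp k1) ?_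
      (fun i => hgp (k1 + 1 + i)) (fun i => hlo' (k1 + 1 + i))
    have e1 := hgp (k1 + 1 + (N - 1))
    have e2 : k1 + 1 + (N - 1) + 1 = k1 + 1 + N := by omega
    have e3 : k1 + 1 + (N - 1) + 2 = k1 + 1 + N + 1 := by omega
    rw [e2, e3] at e1
    exact e1
  obtain ⟨x, hx0, hxm, hxle, hxmono, hxd, hxlen, hxc⟩ := h4 δ X d (N + 2) (24 * lam) (900 * lam) D
    (vx (P 0) (P D) (fun i => a (k1 + 1 + i)) N) P hd hh (by omega) hch (by omega) hP
    (vx_zero _ _ _ _).symm (vx_last _ _ _ _).symm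
  have hv : ∀ i, i ≤ N → vx (P 0) (P D) (fun i => a (k1 + 1 + i)) N (1 + i) = a (k1 + 1 + i) :=
    fun i hi => vx_mid _ _ _ _ i hi
  have hv' : ∀ i, i < N →
      vx (P 0) (P D) (fun i => a (k1 + 1 + i)) N (1 + i + 1) = a (k1 + 1 + i + 1) :=
    fun i hi => vx_mid _ _ _ _ (i + 1) hi
  have hclose : ∀ i, i < N → ∀ s, x (1 + i) + 25 * lam ≤ s → s + 25 * lam ≤ x (1 + (i + 1)) →
      ∃ z', Bt d (a (k1 + 1 + i)) z' (a (k1 + 1 + i + 1)) ∧ d (P s) z' ≤ 8 * δ := by
    intro i hi s hs1 hs2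
    obtain ⟨z', hz', hz''⟩ := hxc (1 + i) (by omega) s (by omega) (by
      have : x (1 + (i + 1)) = x (1 + i + 1) := rfl
      omega)
    rw [hv i (by omega), hv' i hi] at hz'
    exact ⟨z', hz', hz''⟩
  have hdist : ∀ i, i ≤ N → d (P (x (1 + i))) (a (k1 + 1 + i)) ≤ 25 * lam := by
    intro i hi
    have e1 := hxd (1 + i) (by omega)
    rw [hv i hi] at e1
    have e2 := hd.comm (P (x (1 + i))) (a (k1 + 1 + i))
    omega
  refine ⟨fun i => x (1 + i), ⟨hP, ?_, ?_, ?_, ?_, ?_⟩, ?_, ?_, hdist, ?_, hclose⟩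
  · intro i hi
    exact hxle (1 + i) (by omega)
  · intro i hi
    exact hxmono (1 + i) (by omega)
  · intro i hi s hs1 hs2
    obtain ⟨z', hz', hz''⟩ := hclose i hi s hs1 hs2
    have e1 := hdisp (k1 + 1 + i) z' hz'
    have e2 := hG.dist_base hd (bc c t nn (k1 + 1 + i)) (P s) z'
    show 10 * d (P s) (bc c t nn (k1 + 1 + i) • P s) ≤ 14 * lam
    omega
  · intro i hi
    exact (hnc (k1 + 1 + i)).2
  · intro i hi
    exact (hnc (k1 + 1 + i)).1
  · show x (1 + 0) ≤ 3 * W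
    have e1 := hP 0 (x 1) (Nat.zero_le _) (hxle 1 (by omega))
    have e2 : d (P (x 1)) (a (k1 + 1)) ≤ 25 * lam := hdist 0 (by omega)
    have e3 := hd.tri (P 0) z1 (P (x 1))
    have e4 := hd.tri z1 (a (k1 + 1)) (P (x 1))
    have e5 := hd.comm (P (x 1)) (a (k1 + 1))
    have e6 := hup' k1
    have e7 : x (1 + 0) = x 1 := rfl
    unfold Bt at hz1
    omega
  · show D ≤ x (1 + N) + 3 * W
    have e1 := hP (x (1 + N)) D (hxle (1 + N) (by omega)) le_rfl
    have e2 : d (P (x (1 + N))) (a (k1 + 1 + N)) ≤ 25 * lam := hdist N le_rfl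
    have e3 := hd.tri (P (x (1 + N))) (a (k1 + 1 + N)) (P D)
    have e4 := hd.tri (a (k1 + 1 + N)) z2 (P D)
    have e5 := hd.comm (P D) z2
    have e6 := hup' (k1 + 1 + N)
    unfold Bt at hz2
    omega
  · intro i hi
    obtain ⟨e1, e2⟩ := hxlen (1 + i) (by omega) (by omega)
    rw [hv i (by omega), hv' i hi] at e1 e2
    have e3 := hxmono (1 + i) (by omega)
    obtain ⟨e4, e5⟩ := hE2 (k1 + 1 + i)
    have e6 : ((x (1 + i + 1) : ℝ)) - x (1 + i) = ((x (1 + i + 1) - x (1 + i) : ℕ) : ℝ) := by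
      rw [Nat.cast_sub e3]
    have e7 : (d (a (k1 + 1 + i)) (a (k1 + 1 + i + 1)) : ℝ) ≤
        ((x (1 + i + 1) - x (1 + i) : ℕ) : ℝ) + 2 * (24 * lam + 4 * δ + 1) := by
      exact_mod_cast e1
    have e8 : ((x (1 + i + 1) - x (1 + i) : ℕ) : ℝ) ≤
        (d (a (k1 + 1 + i)) (a (k1 + 1 + i + 1)) : ℝ) + 2 * (24 * lam + 4 * δ + 1) := by
      exact_mod_cast e2
    have e9 : (1000 * (δ + L1 + 1) : ℝ) ≤ lam := by exact_mod_cast hbig
    have e10 : (0 : ℝ) ≤ L1 := by positivity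
    have e11 : (0 : ℝ) ≤ δ := by positivity
    show (nn (k1 + 1 + i) : ℝ) * S ≤ (x (1 + i + 1) : ℝ) - x (1 + i) + 49 * lam ∧
      (x (1 + i + 1) : ℝ) - x (1 + i) ≤ nn (k1 + 1 + i) * S + 49 * lam
    rw [e6]
    constructor <;> linarith

end Pool.Agent.Olsh
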