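import Pool.Agent.Olsh.StmtsE

/-!
# MP_3cdb71_al: ETRB, the track of a block system in the decreasing direction
-/

set_option autoImplicit false

namespace Pool.Agent.Olsh

namespace ETRB

variable {X : Type} {d : X → X → ℕ}

/-- The Gromov product of a point near a geodesic from the base point. -/
theorem gp_near (hd : IsGM d) {A B : ℕ} {a b w z p : X} (hg : GpLe d A b a w) (hz : Bt d a z b)
    (hp : d p z ≤ B) : GpLe d (A + B) p a w := by
  have h1 := hd.tri p z a
  have h2 := hd.tri z p w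
  have h3 := hd.tri b z w
  have c1 := hd.comm a z
  have c2 := hd.comm z b
  have c3 := hd.comm a b
  have c4 := hd.comm p z
  unfold GpLe at *
  unfold Bt at hz
  omega

end ETRB

open ETRB in
/-- **ETRB**: the track of a block system on a geodesic, in the decreasing direction. -/
theorem ETRB (h1 : Stmt_EDISP) (h2 : Stmt_EGP) (h3 : Stmt_ELEN) (h4 : Stmt_ETRK) : Stmt_ETRB := by
  intro δ L1 G X _ _ d h n0 c t o nn hd hh hG hcsa hov hbs hn0 hlow hup P D k1 k2 z1 z2 hP hz1 hz2
    hP0 hPD hD hk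
  have hbig := hbs.big
  have hbs' : IsBS G d (1000 * (δ + 1)) h c t o :=
    ⟨hbs.o_mem, by omega, hbs.tper, hbs.move, hbs.ncomm, hbs.cent⟩
  have hne : Nonempty X := ⟨o⟩
  have hsl : slen d c ≤ disp d c := IsomAct.slen_le_disp c
  obtain ⟨hl1, hl2⟩ := h3 δ G X d h c t o nn hd hh hG hbs'
  have hdi := h1 δ G X d h c t o nn hd hh hG hbs'
  have hgp := h2 δ L1 G X d h n0 c t o nn hd hh hG hcsa hov hbs hn0 hlow
  set lam := disp d c with hlam
  set a : ℕ → X := fun k => bs c t nn k • o with ha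
  have hlam0 : 1000 ≤ lam := by omega
  have hn0R : (1000 : ℝ) ≤ n0 := by exact_mod_cast hn0
  have hlamR : (1000 : ℝ) ≤ lam := by exact_mod_cast hlam0
  have hslpos : 0 < slen d c := by linarith
  -- lengths of the edges
  have hlenl : ∀ k, 100 * lam ≤ d (a (k + 1)) (a k) := by
    intro k
    have e1 := (hl2 k).1
    have e2 : (n0 : ℝ) ≤ nn k := by exact_mod_cast hlow k
    have e3 : (1000 : ℝ) * slen d c ≤ nn k * slen d c :=
      mul_le_mul_of_nonneg_right (by linarith) hslpos.le
    have e4 : (100 * lam : ℝ) ≤ d (a k) (a (k + 1)) := by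
      show (100 * lam : ℝ) ≤ d (bs c t nn k • o) (bs c t nn (k + 1) • o)
      linarith
    have e5 : 100 * lam ≤ d (a k) (a (k + 1)) := by exact_mod_cast e4
    rw [hd.comm]; exact e5
  have hlenu : ∀ k, d (a (k + 1)) (a k) ≤ 2 * (n0 * lam) + lam := by
    intro k
    have e1 := (hl2 k).2
    have e2 : (nn k : ℝ) ≤ 2 * n0 := by exact_mod_cast hup k
    have e3 : (nn k : ℝ) * slen d c ≤ 2 * n0 * lam :=
      mul_le_mul e2 hsl hslpos.le (by positivity)
    have e4 : (d (a k) (a (k + 1)) : ℝ) ≤ 2 * (n0 * lam) + lam := by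
      show (d (bs c t nn k • o) (bs c t nn (k + 1) • o) : ℝ) ≤ 2 * (n0 * lam) + lam
      linarith
    have e5 : d (a k) (a (k + 1)) ≤ 2 * (n0 * lam) + lam := by exact_mod_cast e4
    rw [hd.comm]; exact e5
  have hprod : 1000 * lam ≤ n0 * lam := Nat.mul_le_mul_right _ hn0
  have hgd : d (P 0) (P D) = D := by
    have := hP 0 D (Nat.zero_le _) le_rfl
    omega
  have hz1' : Bt d (a k1) z1 (a (k1 + 1)) := hz1
  have hz2' : Bt d (a k2) z2 (a (k2 + 1)) := hz2
  have hu1 := hlenu k1
  have hu2 := hlenu k2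
  have hc1 := hd.comm (a k1) (a (k1 + 1))
  have hc2 := hd.comm (a k2) (a (k2 + 1))
  have hzz1 := hd.comm z1 (a k1)
  have hzz2 := hd.comm z2 (a k2)
  have hzz3 := hd.comm z2 (a (k2 + 1))
  have hPDc := hd.comm (P D) z2
  -- at least two vertices in between
  have hk2 : k2 + 2 ≤ k1 := by
    by_contra hcon
    have t1 := hd.tri (P 0) z1 (P D)
    have t2 := hd.tri z1 z2 (P D)
    rcases Nat.lt_or_ge k2 k1 with hlt | hge
    · have e : k1 = k2 + 1 := by omega
      have t3 := hd.tri z1 (a k1) z2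
      rw [e] at t3 hz1' hu1 hc1 hzz1
      unfold Bt at hz1' hz2'
      omega
    · have e : k1 = k2 := by omega
      have t3 := hd.tri z1 (a k1) z2
      rw [e] at t3 hz1' hu1 hc1 hzz1
      unfold Bt at hz1' hz2'
      omega
  refine ⟨hk2, ?_⟩
  -- the chain
  obtain ⟨M, hM⟩ : ∃ M, k1 = k2 + 1 + M := ⟨k1 - (k2 + 1), by omega⟩
  have hM1 : 1 ≤ M := by omega
  have hMs : k1 - (k2 + 1) = M := by omega
  rw [hMs]
  set v : ℕ → X := fun i => if i = 0 then P 0 else if i = M + 2 then P D else a (k1 + 1 - i)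
    with hv
  have hv0 : v 0 = P 0 := by simp [hv]
  have hvm : v (M + 2) = P D := by simp [hv]
  have hvi : ∀ i, 1 ≤ i → i < M + 2 → v i = a (k1 + 1 - i) := by
    intro i hi1 hi2
    have e1 : i ≠ 0 := by omega
    have e2 : i ≠ M + 2 := by omega
    simp [hv, e1, e2]
  have hgp' : ∀ k, GpLe d (11 * lam) (a (k + 2)) (a (k + 1)) (a k) := fun k =>
    GpLe.symm hd (hgp k).1
  have hchain : IsChain d (M + 2) (24 * lam) (100 * lam) v := by
    constructor
    · intro i hi1 hi2
      rw [hvi i hi1 hi2]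
      rcases Nat.eq_or_lt_of_le hi1 with hi | hi
      · -- first vertex
        subst hi
        have e1 : v (1 - 1) = P 0 := hv0
        have e2 : v (1 + 1) = a (k1 + 1 - 2) := hvi 2 (by omega) (by omega)
        have e3 : k1 + 1 - 1 = k1 := by omega
        rw [e1, e2, e3]
        have e4 : k1 + 1 - 2 = k1 - 1 := by omega
        rw [e4]
        have e5 := hgp' (k1 - 1)
        have e6 : k1 - 1 + 2 = k1 + 1 := by omega
        have e7 : k1 - 1 + 1 = k1 := by omega
        rw [e6, e7] at e5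
        exact (gp_near hd e5 hz1' hP0).mono (by omega)
      · rw [hvi (i - 1) (by omega) (by omega)]
        rcases Nat.eq_or_lt_of_le (Nat.succ_le_of_lt hi2) with hj | hj
        · -- last vertex
          have e0 : i = M + 1 := by omega
          subst e0
          have e1 : v (M + 1 + 1) = P D := hvm
          rw [e1]
          have e2 : k1 + 1 - (M + 1) = k2 + 1 := by omega
          have e3 : k1 + 1 - (M + 1 - 1) = k2 + 2 := by omega
          rw [e2, e3]
          have e4 := (hgp' k2).symm hd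
          exact ((gp_near hd e4 (hd.bt_symm hz2') hPD).mono (by omega)).symm hd
        · rw [hvi (i + 1) (by omega) (by omega)]
          have e1 := hgp' (k1 - i)
          have e2 : k1 + 1 - (i - 1) = k1 - i + 2 := by omega
          have e3 : k1 + 1 - i = k1 - i + 1 := by omega
          have e4 : k1 + 1 - (i + 1) = k1 - i := by omega
          rw [e2, e3, e4]
          exact e1.mono (by omega)
    · intro i hi1 hi2
      rw [hvi i hi1 (by omega), hvi (i + 1) (by omega) hi2]
      have e3 : k1 + 1 - i = k1 - i + 1 := by omega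
      have e4 : k1 + 1 - (i + 1) = k1 - i := by omega
      rw [e3, e4]
      exact hlenl _
  obtain ⟨x, hx0, hxm, hxle, hxmono, hxd, hxl, hxb⟩ := h4 δ X d (M + 2) (24 * lam) (100 * lam) D v P
    hd hh (by omega) hchain (by omega) hP hv0.symm hvm.symm
  have hPx : ∀ i j, i ≤ j → j ≤ M + 2 → x i ≤ x j := by
    intro i j hij hj
    induction j, hij using Nat.le_induction with
    | base => exact le_rfl
    | succ j hij ih => exact (ih (by omega)).trans (hxmono j (by omega))
  have hvM : ∀ i, i < M → v (i + 1) = a (k1 - (1 + i) + 1) ∧ v (i + 2) = a (k1 - (1 + i)) := by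
    intro i hi
    have e1 : k1 + 1 - (i + 1) = k1 - (1 + i) + 1 := by omega
    have e2 : k1 + 1 - (i + 2) = k1 - (1 + i) := by omega
    rw [hvi (i + 1) (by omega) (by omega), hvi (i + 2) (by omega) (by omega), e1, e2]
    exact ⟨rfl, rfl⟩
  refine ⟨fun i => x (i + 1), ?_, ?_, ?_, ?_⟩
  · constructor
    · exact hP
    · intro i hi
      exact hxle (i + 1) (by omega)
    · intro i hi
      exact hxmono (i + 1) (by omega)
    · intro i hi s hs1 hs2
      obtain ⟨z', hz', hz'd⟩ := hxb (i + 1) (by omega) s (by omega)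
        (by omega)
      obtain ⟨e1, e2⟩ := hvM i hi
      have e3 : v (i + 1 + 1) = a (k1 - (1 + i)) := e2
      rw [e1, e3] at hz'
      have e4 := hdi (k1 - (1 + i)) z' (hd.bt_symm hz')
      have e5 := hG (bc c t nn (k1 - (1 + i))) z' (P s)
      have t1 := hd.tri (P s) z' (bc c t nn (k1 - (1 + i)) • P s)
      have t2 := hd.tri z' (bc c t nn (k1 - (1 + i)) • z') (bc c t nn (k1 - (1 + i)) • P s)
      have t3 := hd.comm z' (P s)
      show 10 * d (P s) (bc c t nn (k1 - (1 + i)) • P s) ≤ 14 * lam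
      omega
    · intro i hi
      exact (hgp _).2.2
    · intro i hi hcom
      have e1 := (hgp (k1 - (1 + (i + 1)))).2.1
      have e2 : k1 - (1 + (i + 1)) + 1 = k1 - (1 + i) := by omega
      rw [e2] at e1
      exact e1 hcom.symm
  · show x (0 + 1) ≤ 3 * (n0 * lam)
    have e1 := hxd 1 (by omega)
    have e2 : v 1 = a k1 := by
      rw [hvi 1 le_rfl (by omega)]
      congr 1
    rw [e2] at e1
    have e3 := hP 0 (x 1) (Nat.zero_le _) (hxle 1 (by omega))
    have t1 := hd.tri (P 0) z1 (P (x 1))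
    have t2 := hd.tri z1 (a k1) (P (x 1))
    unfold Bt at hz1'
    show x 1 ≤ 3 * (n0 * lam)
    omega
  · show D ≤ x (M + 1) + 3 * (n0 * lam)
    have e1 := hxd (M + 1) (by omega)
    have e2 : v (M + 1) = a (k2 + 1) := by
      rw [hvi (M + 1) (by omega) (by omega)]
      congr 1
      omega
    rw [e2] at e1
    have e3 := hP (x (M + 1)) D (hxle (M + 1) (by omega)) le_rfl
    have e4 := hxle (M + 1) (by omega)
    have t1 := hd.tri (P (x (M + 1))) z2 (P D)
    have t2 := hd.tri (P (x (M + 1))) (a (k2 + 1)) z2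
    have t3 := hd.comm (P (x (M + 1))) (a (k2 + 1))
    unfold Bt at hz2'
    omega
  · intro i hi
    obtain ⟨e1, e2⟩ := hvM i hi
    obtain ⟨e5, e6⟩ := hxl (i + 1) (by omega) (by omega)
    have e3 : v (i + 1 + 1) = a (k1 - (1 + i)) := e2
    rw [e1, e3] at e5 e6
    have e7 : x (i + 1) ≤ x (i + 1 + 1) := hxmono (i + 1) (by omega)
    obtain ⟨f1, f2⟩ := hl2 (k1 - (1 + i))
    have f3 : d (a (k1 - (1 + i))) (a (k1 - (1 + i) + 1)) =
      d (a (k1 - (1 + i) + 1)) (a (k1 - (1 + i))) := hd.comm _ _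
    have f4 : (d (bs c t nn (k1 - (1 + i)) • o) (bs c t nn (k1 - (1 + i) + 1) • o) : ℝ) =
      d (a (k1 - (1 + i) + 1)) (a (k1 - (1 + i))) := by exact_mod_cast f3
    rw [f4] at f1 f2
    have g1 : d (a (k1 - (1 + i) + 1)) (a (k1 - (1 + i))) + x (i + 1) ≤
        x (i + 1 + 1) + 48 * lam + (8 * δ + 2) := by omega
    have g2 : x (i + 1 + 1) ≤ d (a (k1 - (1 + i) + 1)) (a (k1 - (1 + i))) + x (i + 1) +
        48 * lam + (8 * δ + 2) := by omega
    have g3 : 100 * (8 * δ + 2) ≤ lam := by omega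
    have g1' : (d (a (k1 - (1 + i) + 1)) (a (k1 - (1 + i))) : ℝ) + x (i + 1) ≤
        x (i + 1 + 1) + 48 * lam + (8 * δ + 2) := by exact_mod_cast g1
    have g2' : (x (i + 1 + 1) : ℝ) ≤ d (a (k1 - (1 + i) + 1)) (a (k1 - (1 + i))) + x (i + 1) +
        48 * lam + (8 * δ + 2) := by exact_mod_cast g2
    have g3' : (100 : ℝ) * (8 * δ + 2) ≤ lam := by exact_mod_cast g3
    constructor
    · show (nn (k1 - (1 + i)) : ℝ) * slen d c ≤ (x (i + 1 + 1) : ℝ) - x (i + 1) + 49 * lam
      linarith
    · show (x (i + 1 + 1) : ℝ) - x (i + 1) ≤ nn (k1 - (1 + i)) * slen d c + 49 * lam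
      linarith

end Pool.Agent.Olsh
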