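import Pool.Agent.Olsh.StmtsE
import Pool.Agent.Olsh.Axis
import Pool.Agent.Olsh.Proj

/-!
# ETRK: positions of the vertices of a chain on a geodesic
-/

set_option autoImplicit false

namespace Pool.Agent.Olsh

theorem ETRK : Stmt_ETRK := by
  intro δ X d m A b D v P hd hh hm hc hb hP h0 hD
  classical
  have hDv : d (v 0) (v m) = D := by
    have := hP 0 D (Nat.zero_le _) le_rfl
    rw [h0, hD] at this
    omega
  have hnear : ∀ i, ∃ k, 1 ≤ i → i < m → k ≤ D ∧ d (v i) (P k) ≤ A + 4 * δ + 1 := by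
    intro i
    by_cases hi : 1 ≤ i ∧ i < m
    · obtain ⟨k, hk, hk'⟩ := hh.near_of_gp' hd (hc.gp_ends hh hd (by omega) i hi.2.le)
      refine ⟨k, fun _ _ => ⟨by omega, ?_⟩⟩
      have h1 := hP.bt (Nat.zero_le k) (by omega : k ≤ D) le_rfl
      rw [h0, hD] at h1
      have h2 := hP 0 k (Nat.zero_le _) (by omega)
      rw [h0] at h2
      have := hk' (P k) h1 (by omega)
      omega
    · exact ⟨0, fun h1 h2 => absurd ⟨h1, h2⟩ hi⟩
  choose y hy using hnear
  obtain ⟨x, hx0, hxm, hxi⟩ : ∃ x : ℕ → ℕ, x 0 = 0 ∧ x m = D ∧ ∀ i, 1 ≤ i → i < m → x i = y i := by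
    refine ⟨fun i => if i = 0 then 0 else if i = m then D else y i, by simp, ?_, ?_⟩
    · have : m ≠ 0 := by omega
      simp [this]
    · intro i h1 h2
      have h3 : i ≠ 0 := by omega
      have h4 : i ≠ m := by omega
      simp [h3, h4]
  have hle : ∀ i, i ≤ m → x i ≤ D := by
    intro i hi
    rcases Nat.eq_zero_or_pos i with h1 | h1
    · rw [h1, hx0]; omega
    · rcases Nat.eq_or_lt_of_le hi with h2 | h2
      · rw [h2, hxm]
      · rw [hxi i h1 h2]
        exact (hy i h1 h2).1
  have hdist : ∀ i, i ≤ m → d (v i) (P (x i)) ≤ A + 4 * δ + 1 := by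
    intro i hi
    rcases Nat.eq_zero_or_pos i with h1 | h1
    · rw [h1, hx0, h0, hd.self]; omega
    · rcases Nat.eq_or_lt_of_le hi with h2 | h2
      · rw [h2, hxm, hD, hd.self]; omega
      · rw [hxi i h1 h2]
        exact (hy i h1 h2).2
  have hpos : ∀ i, i ≤ m → x i ≤ d (v 0) (v i) + (A + 4 * δ + 1) ∧
      d (v 0) (v i) ≤ x i + (A + 4 * δ + 1) := by
    intro i hi
    have h1 := hP 0 (x i) (Nat.zero_le _) (hle i hi)
    rw [h0] at h1
    have h2 := hdist i hi
    have h3 := hd.tri (v 0) (v i) (P (x i))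
    have h4 := hd.tri (v 0) (P (x i)) (v i)
    have h5 := hd.comm (v i) (P (x i))
    omega
  have hmono : ∀ i, i < m → x i ≤ x (i + 1) := by
    intro i hi
    rcases Nat.eq_zero_or_pos i with h1 | h1
    · rw [h1, hx0]; omega
    · rcases Nat.eq_or_lt_of_le (Nat.succ_le_of_lt hi) with h2 | h2
      · have h2' : i + 1 = m := h2
        rw [h2', hxm]
        exact hle i hi.le
      · have h3 := hc.step hh hd (by omega) i h1 hi
        have h4 := hc.len i h1 h2
        have h5 := hpos i hi.le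
        have h6 := hpos (i + 1) hi
        unfold GpLe at h3
        omega
  refine ⟨x, hx0, hxm, hle, hmono, hdist, ?_, ?_⟩
  · intro i h1 h2
    have h3 := hP (x i) (x (i + 1)) (hmono i (by omega)) (hle (i + 1) (by omega))
    have h4 := hdist i (by omega)
    have h5 := hdist (i + 1) (by omega)
    have h6 := hd.tri (v i) (P (x i)) (v (i + 1))
    have h7 := hd.tri (P (x i)) (P (x (i + 1))) (v (i + 1))
    have h8 := hd.comm (v (i + 1)) (P (x (i + 1)))
    have h9 := hd.tri (P (x i)) (v i) (P (x (i + 1)))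
    have h10 := hd.tri (v i) (v (i + 1)) (P (x (i + 1)))
    have h11 := hd.comm (v i) (P (x i))
    omega
  · intro i hi s hs1 hs2
    have h1 := hle (i + 1) hi
    have h2 := hP (x i) s (by omega) (by omega)
    have h3 := hP s (x (i + 1)) (by omega) h1
    have hbt := hP.bt (i := x i) (j := s) (k := x (i + 1)) (by omega) (by omega) h1
    have h4 := hdist i hi.le
    have h5 := hdist (i + 1) hi
    have h6 := hd.comm (v i) (P (x i))
    have h7 := hd.comm (v (i + 1)) (P (x (i + 1)))
    obtain ⟨z', hz', hzz, -, -⟩ := hh.quad hd (x := P (x i)) (y := P (x (i + 1))) (x' := v i)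
      (y' := v (i + 1)) (z := P s) (a := A + 4 * δ + 1) (b := A + 4 * δ + 1) (by omega) (by omega)
      hbt (by omega) (by omega)
    exact ⟨z', hz', hzz⟩

end Pool.Agent.Olsh
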