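import Pool.Agent.Olsh.StmtsE

/-!
# MP_3cdb71_al: elementary facts about the words of a non-commuting pair
-/

set_option autoImplicit false

namespace Pool.Agent.Olsh

namespace EW1

variable {G : Type} [Group G]

lemma pow_ne (htf : ∀ (g : G) (n : ℕ), 1 ≤ n → g ^ n = 1 → g = 1) {g : G} (hg : g ≠ 1) {n : ℕ}
    (hn : 1 ≤ n) : g ^ n ≠ 1 := fun h => hg (htf g n hn h)

/-- An element whose conjugate by `b⁻¹` commutes with it commutes with `b`. -/
lemma maln' (hG : IsCSA G) {a b : G} (ha : a ≠ 1) (h : Commute a (b⁻¹ * a * b)) : Commute a b := by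
  have h1 := hG.maln a b⁻¹ ha (by simpa using h)
  have h2 := h1.inv_right
  simpa using h2

end EW1

open EW1 in
theorem EW1 : Stmt_EW1 := by
  intro D k G _ hG htf hD hk x y hxy
  have hx : x ≠ 1 := by
    intro h
    exact hxy (by rw [h, one_mul, mul_one])
  have hy : y ≠ 1 := by
    intro h
    exact hxy (by rw [h, one_mul, mul_one])
  have hY : yW k y ≠ 1 := pow_ne htf hy hk
  have hP : pW D x ≠ 1 := pow_ne htf hx hD
  have hA : ¬ Commute x (yW k y) := by
    intro h
    exact hxy (hG.trans x (yW k y) y hY h ((Commute.refl y).pow_left k))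
  have hB : ¬ Commute (pW D x) (yW k y) := by
    intro h
    exact hA (hG.trans x (pW D x) (yW k y) hP ((Commute.refl x).pow_right D) h)
  have hC : ¬ Commute (pW D x) (qW D k x y) := fun h => hB (maln' hG hP h)
  have hg : gW D k x y ≠ 1 := by
    intro h
    have h1 : pW D x = qW D k x y := mul_inv_eq_one.1 h
    exact hC (by rw [← h1])
  have hPg : pW D x = gW D k x y * qW D k x y := by
    unfold gW
    group
  have hDg : ¬ Commute (gW D k x y) (qW D k x y) := by
    intro h
    apply hC
    rw [hPg]
    exact h.mul_left (Commute.refl _)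
  have ht : teW D k x y = (qW D k x y)⁻¹ * (gW D k x y)⁻¹ * qW D k x y := by
    unfold teW gW
    group
  have hF : ¬ Commute (teW D k x y) (gW D k x y) := by
    intro h
    apply hDg
    refine maln' hG hg ?_
    have h1 : ((qW D k x y)⁻¹ * gW D k x y * qW D k x y) = (teW D k x y)⁻¹ := by
      rw [ht]
      group
    rw [h1]
    exact h.symm.inv_right
  refine ⟨hg, hF, ?_, ?_, ?_, hx, hY, ht, ?_⟩
  · intro N h
    apply hF
    have h1 : teW D k x y = (gW D k x y ^ N)⁻¹ := (inv_eq_of_mul_eq_one_right h).symm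
    rw [h1]
    exact ((Commute.refl (gW D k x y)).pow_left N).inv_left
  · intro h
    have h1 : xW k 3 x y = xW k 0 x y := mul_inv_eq_one.1 h
    have h2 : Commute x (yW k y ^ 3) := by
      unfold xW at h1
      simp only [pow_zero, inv_one, one_mul, mul_one] at h1
      have h3 : x * yW k y ^ 3 = yW k y ^ 3 * x := by
        calc x * yW k y ^ 3 = yW k y ^ 3 * ((yW k y ^ 3)⁻¹ * x * yW k y ^ 3) := by group
          _ = yW k y ^ 3 * x := by rw [h1]
      exact h3
    exact hA (hG.trans x (yW k y ^ 3) (yW k y) (pow_ne htf hY (by norm_num)) h2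
      ((Commute.refl _).pow_left 3))
  · intro h
    unfold xW at h
    simp only [pow_zero, inv_one, one_mul, mul_one, pow_one] at h
    exact hA (maln' hG hx h)
  · unfold gW qW
    group

end Pool.Agent.Olsh
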