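import Pool.Agent.Olsh.ESEQ
import Pool.Agent.Olsh.EDISP
import Pool.Agent.Olsh.EGP
import Pool.Agent.Olsh.ELEN
import Pool.Agent.Olsh.EPER
import Pool.Agent.Olsh.EREL
import Pool.Agent.Olsh.ETRK
import Pool.Agent.Olsh.ETRA
import Pool.Agent.Olsh.ETRB
import Pool.Agent.Olsh.ECOM
import Pool.Agent.Olsh.EPAR
import Pool.Agent.Olsh.EFIND
import Pool.Agent.Olsh.EALG1
import Pool.Agent.Olsh.EALG2
import Pool.Agent.Olsh.EGEO
import Pool.Agent.Olsh.ESHIFT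
import Pool.Agent.Olsh.ESELF
import Pool.Agent.Olsh.EMAIN
import Pool.Agent.Olsh.EW1
import Pool.Agent.Olsh.EPAIR
import Pool.Agent.Olsh.EPALG
import Pool.Agent.Olsh.E85

/-!
# MP_3cdb71_al: section 8 of `H92.md` (direct analysis), assembled

All statements of `StmtsE.lean` (`T_X : Stmt_X`).
-/

set_option autoImplicit false

namespace Pool.Agent.Olsh

theorem T_ESEQ : Stmt_ESEQ := ESEQ
theorem T_EDISP : Stmt_EDISP := EDISP
theorem T_EGP : Stmt_EGP := EGP EDISP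
theorem T_ELEN : Stmt_ELEN := ELEN
theorem T_EPER : Stmt_EPER := EPER
theorem T_EREL : Stmt_EREL := EREL T_EGP ELEN EPER
theorem T_ETRK : Stmt_ETRK := ETRK
theorem T_ETRA : Stmt_ETRA := ETRA EDISP T_EGP ELEN ETRK
theorem T_ETRB : Stmt_ETRB := ETRB EDISP T_EGP ELEN ETRK
theorem T_ECOM : Stmt_ECOM := ECOM
theorem T_EPAR : Stmt_EPAR := EPAR ECOM
theorem T_EFIND : Stmt_EFIND := EFIND
theorem T_EALG1 : Stmt_EALG1 := EALG1
theorem T_EALG2 : Stmt_EALG2 := EALG2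
theorem T_EGEO : Stmt_EGEO :=
  EGEO T_EREL T_EPER T_ETRA T_ETRB T_ECOM T_EPAR T_EFIND T_EALG1
theorem T_ESELF : Stmt_ESELF := ESELF T_EGEO T_EALG2 T_EPER
theorem T_ESHIFT : Stmt_ESHIFT := ESHIFT T_EREL T_EPER T_ETRA
theorem T_EMAIN : Stmt_EMAIN := EMAIN T_EGEO T_EALG2 T_ESHIFT T_ESELF T_EGP T_EREL
theorem T_EW1 : Stmt_EW1 := EW1
theorem T_EPAIR : Stmt_EPAIR := EPAIR T_EW1
theorem T_EPALG : Stmt_EPALG := EPALG T_EW1
theorem T_E85 : Stmt_E85 := E85 T_EMAIN T_EPAIR T_EPALG T_EPER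

end Pool.Agent.Olsh
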