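import Mathlib

/-!
# Integer valued geodesic metrics, hyperbolicity (MP_3cdb71_al, tools layer)

A connected graph is encoded by its path metric `d : V → V → ℕ` (`IsGM d`).  Geodesics are mostly
encoded by betweenness `Bt d x z y : d x z + d z y = d x y`.  Hyperbolicity is the four point
condition `Hyp d δ` with `2 * δ`.
-/

set_option autoImplicit false

namespace Pool.Agent.Olsh

variable {V : Type}

/-- An integer valued geodesic metric (the path metric of a connected graph). -/
structure IsGM (d : V → V → ℕ) : Prop where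
  eq_of_zero : ∀ {x y : V}, d x y = 0 → x = y
  self : ∀ x : V, d x x = 0
  comm : ∀ x y : V, d x y = d y x
  tri : ∀ x y z : V, d x z ≤ d x y + d y z
  mid : ∀ (x y : V) (k : ℕ), k ≤ d x y → ∃ z : V, d x z = k ∧ d z y = d x y - k

/-- `z` lies on a geodesic from `x` to `y`. -/
def Bt (d : V → V → ℕ) (x z y : V) : Prop := d x z + d z y = d x y

/-- The points `p 0, ..., p n` are the vertices of a geodesic. -/
def IsGeo (d : V → V → ℕ) (n : ℕ) (p : ℕ → V) : Prop :=
  ∀ i j : ℕ, i ≤ j → j ≤ n → d (p i) (p j) = j - i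

/-- The four point condition with constant `δ` (classical normalisation). -/
def Hyp (d : V → V → ℕ) (δ : ℕ) : Prop :=
  ∀ w x y z : V, d w y + d x z ≤ d w x + d y z + 2 * δ ∨ d w y + d x z ≤ d w z + d x y + 2 * δ

/-- Slim triangles, for all geodesics at once. -/
def Slim (d : V → V → ℕ) (δ : ℕ) : Prop :=
  ∀ x y z p : V, Bt d x p y → ∃ q : V, (Bt d x q z ∨ Bt d z q y) ∧ d p q ≤ δ

variable {d : V → V → ℕ} {δ : ℕ}

namespace IsGM

theorem tri' (hd : IsGM d) (x y z : V) : d x z ≤ d y x + d y z := by
  have h1 := hd.tri x y z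
  have h2 := hd.comm x y
  omega

theorem tri'' (hd : IsGM d) (x y z : V) : d x z ≤ d x y + d z y := by
  have h1 := hd.tri x y z
  have h2 := hd.comm y z
  omega

/-- Geodesics exist. -/
theorem exists_geo (hd : IsGM d) (x y : V) :
    ∃ p : ℕ → V, p 0 = x ∧ p (d x y) = y ∧ IsGeo d (d x y) p := by
  -- choose successive points
  have key : ∀ n : ℕ, ∀ x y : V, d x y = n → ∃ p : ℕ → V, p 0 = x ∧ p n = y ∧ IsGeo d n p := by
    intro n
    induction n with
    | zero =>
      intro x y h
      refine ⟨fun _ => x, rfl, hd.eq_of_zero h, ?_⟩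
      intro i j hij hj
      have := hd.self x
      simp only [this]
      omega
    | succ n ih =>
      intro x y h
      obtain ⟨z, hz1, hz2⟩ := hd.mid x y 1 (by omega)
      obtain ⟨p, hp0, hpn, hp⟩ := ih z y (by omega)
      refine ⟨fun i => Nat.casesOn i x p, rfl, hpn, ?_⟩
      intro i j hij hj
      cases i with
      | zero =>
        cases j with
        | zero => exact hd.self x
        | succ j =>
          show d x (p j) = _
          have h1 : d z (p j) = j := by
            have := hp 0 j (Nat.zero_le _) (by omega)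
            rw [hp0] at this
            omega
          have h2 : d (p j) y = n - j := by
            have := hp j n (by omega) le_rfl
            rw [hpn] at this
            omega
          have h3 := hd.tri x z (p j)
          have h4 := hd.tri x (p j) y
          omega
      | succ i =>
        cases j with
        | zero => omega
        | succ j =>
          show d (p i) (p j) = _
          have := hp i j (by omega) (by omega)
          omega
  obtain ⟨p, h1, h2, h3⟩ := key (d x y) x y rfl
  exact ⟨p, h1, h2, h3⟩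

theorem exists_bt (hd : IsGM d) (x y : V) (k : ℕ) (hk : k ≤ d x y) :
    ∃ z, Bt d x z y ∧ d x z = k := by
  obtain ⟨z, h1, h2⟩ := hd.mid x y k hk
  exact ⟨z, by unfold Bt; omega, h1⟩

theorem bt_left (hd : IsGM d) (x y : V) : Bt d x x y := by
  have := hd.self x
  unfold Bt
  omega

theorem bt_right (hd : IsGM d) (x y : V) : Bt d x y y := by
  have := hd.self y
  unfold Bt
  omega

theorem bt_symm (hd : IsGM d) {x y z : V} (h : Bt d x z y) : Bt d y z x := by
  have h1 := hd.comm x z
  have h2 := hd.comm z y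
  have h3 := hd.comm x y
  unfold Bt at *
  omega

theorem bt_comm (hd : IsGM d) {x y z : V} : Bt d x z y ↔ Bt d y z x :=
  ⟨hd.bt_symm, hd.bt_symm⟩

/-- If `z` is between `x` and `y`, and `t` between `x` and `z`, then `t` is between `x` and `y`. -/
theorem bt_trans (hd : IsGM d) {x y z t : V} (h : Bt d x z y) (h' : Bt d x t z) : Bt d x t y := by
  have h1 := hd.tri t z y
  have h2 := hd.tri x t y
  unfold Bt at *
  omega

theorem bt_trans' (hd : IsGM d) {x y z t : V} (h : Bt d x z y) (h' : Bt d x t z) : Bt d t z y := by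
  have h1 := hd.tri t z y
  have h2 := hd.tri x t y
  unfold Bt at *
  omega

end IsGM

theorem IsGeo.bt {n : ℕ} {p : ℕ → V} (hp : IsGeo d n p) {i j k : ℕ} (hij : i ≤ j) (hjk : j ≤ k)
    (hk : k ≤ n) : Bt d (p i) (p j) (p k) := by
  have h1 := hp i j hij (by omega)
  have h2 := hp j k hjk hk
  have h3 := hp i k (by omega) hk
  unfold Bt
  omega

theorem IsGeo.mono {n m : ℕ} {p : ℕ → V} (hp : IsGeo d n p) (h : m ≤ n) : IsGeo d m p :=
  fun i j hij hj => hp i j hij (hj.trans h)

theorem IsGeo.shift {n m : ℕ} {p : ℕ → V} (hp : IsGeo d n p) (a : ℕ) (h : a + m ≤ n) :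
    IsGeo d m (fun i => p (a + i)) := by
  intro i j hij hj
  have := hp (a + i) (a + j) (by omega) (by omega)
  show d (p (a + i)) (p (a + j)) = _
  omega

theorem IsGeo.reverse {n : ℕ} {p : ℕ → V} (hd : IsGM d) (hp : IsGeo d n p) :
    IsGeo d n (fun i => p (n - i)) := by
  intro i j hij hj
  have := hp (n - j) (n - i) (by omega) (by omega)
  show d (p (n - i)) (p (n - j)) = _
  rw [hd.comm]
  omega

/-- Any between point lies on a geodesic path. -/
theorem IsGM.exists_geo_through (hd : IsGM d) {x y z : V} (h : Bt d x z y) :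
    ∃ p : ℕ → V, p 0 = x ∧ p (d x y) = y ∧ IsGeo d (d x y) p ∧ p (d x z) = z := by
  obtain ⟨p, hp0, hpn, hp⟩ := hd.exists_geo x z
  obtain ⟨q, hq0, hqn, hq⟩ := hd.exists_geo z y
  unfold Bt at h
  refine ⟨fun i => if i ≤ d x z then p i else q (i - d x z), ?_, ?_, ?_, ?_⟩
  · simp [hp0]
  · by_cases h0 : d x y ≤ d x z
    · have h1 : d z y = 0 := by omega
      have h2 := hd.eq_of_zero h1
      simp only [h0, if_true]
      rw [← h2] at h0 ⊢
      exact hpn
    · simp only [h0, if_false]
      have : d x y - d x z = d z y := by omega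
      rw [this]
      exact hqn
  · intro i j hij hj
    by_cases hi : i ≤ d x z
    · by_cases hj' : j ≤ d x z
      · simp only [hi, hj', if_true]
        exact hp i j hij hj'
      · simp only [hi, hj', if_true, if_false]
        have h1 := hp i (d x z) hi le_rfl
        have h2 := hq 0 (j - d x z) (Nat.zero_le _) (by omega)
        have h3 := hp 0 i (Nat.zero_le _) hi
        have h4 := hq (j - d x z) (d z y) (by omega) le_rfl
        rw [hpn] at h1
        rw [hq0] at h2
        rw [hp0] at h3
        rw [hqn] at h4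
        have h5 := hd.tri (p i) z (q (j - d x z))
        have h6 := hd.tri x (p i) y
        have h7 := hd.tri (p i) (q (j - d x z)) y
        omega
    · have hj' : ¬ j ≤ d x z := by omega
      simp only [hi, hj', if_false]
      have := hq (i - d x z) (j - d x z) (by omega) (by omega)
      omega
  · simp [hpn]

/-! ### Four points and geodesics -/

/-- The distance to a point of a geodesic. -/
theorem Hyp.dist_bt (hh : Hyp d δ) {w x y z : V} (hz : Bt d x z y) (hd : IsGM d) :
    d w z + d x z ≤ d w x + 2 * δ ∨ d w z + d z y ≤ d w y + 2 * δ := by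
  have h := hh w x z y
  have h1 := hd.comm x z
  unfold Bt at hz
  omega

/-- Two points at the same distance from `x` on geodesics `[x,y]`, `[x,z]`, not beyond the
Gromov product. -/
theorem Hyp.fellow (hh : Hyp d δ) (hd : IsGM d) {x y z p q : V} (hp : Bt d x p y)
    (hq : Bt d x q z) (hpq : d x p = d x q) (h : 2 * d x p + d y z ≤ d x y + d x z) :
    d p q ≤ 4 * δ := by
  have h1 := hh.dist_bt (w := z) hp hd
  have h2 := hh.dist_bt (w := p) hq hd
  have h3 := hd.comm x p
  have h4 := hd.comm x z
  have h5 := hd.comm y z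
  have h6 := hd.comm z p
  have h7 := hd.comm p y
  have h8 := hd.comm x q
  unfold Bt at *
  omega

theorem Hyp.slim (hh : Hyp d δ) (hd : IsGM d) : Slim d (4 * δ) := by
  intro x y z p hp
  by_cases h : 2 * d x p + d y z ≤ d x y + d x z
  · have h0 : d x p ≤ d x z := by
      have := hd.tri x z y
      have := hd.comm y z
      have := hd.tri x y z
      omega
    obtain ⟨q, hq, hq'⟩ := hd.exists_bt x z (d x p) h0
    exact ⟨q, Or.inl hq, hh.fellow hd hp hq hq'.symm h⟩
  · have h9 := hd.bt_symm hp
    have h1 := hd.comm x y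
    have h2 := hd.comm x z
    have h3 := hd.comm y z
    have h4 := hd.comm x p
    have h10 := hd.comm p y
    have h5 : 2 * d y p + d x z ≤ d y x + d y z := by
      unfold Bt at hp
      omega
    have h0 : d y p ≤ d y z := by
      have := hd.tri y z x
      have := hd.comm z x
      omega
    obtain ⟨q, hq, hq'⟩ := hd.exists_bt y z (d y p) h0
    exact ⟨q, Or.inr (hd.bt_symm hq), hh.fellow hd h9 hq hq'.symm h5⟩

/-- A discrete intermediate value argument. -/
theorem exists_switch (n : ℕ) (P : ℕ → Prop) (h0 : P 0) (hn : ¬ P n) :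
    ∃ i, i < n ∧ P i ∧ ¬ P (i + 1) := by
  by_contra hcon
  push Not at hcon
  have : ∀ i, i ≤ n → P i := by
    intro i
    induction i with
    | zero => intro _; exact h0
    | succ i ih => intro hi; exact hcon i (by omega) (ih (by omega))
  exact hn (this n le_rfl)

/-- In a slim triangle there is a point close to both other sides. -/
theorem Slim.center (hs : Slim d δ) (hd : IsGM d) (x y w : V) :
    ∃ p, Bt d x p y ∧ (∃ q, Bt d x q w ∧ d p q ≤ δ + 1) ∧ ∃ q, Bt d w q y ∧ d p q ≤ δ + 1 := by
  obtain ⟨p, hp0, hpn, hp⟩ := hd.exists_geo x y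
  have hb : ∀ i, i ≤ d x y → Bt d x (p i) y := by
    intro i hi
    have := hp.bt (Nat.zero_le i) hi le_rfl
    rwa [hp0, hpn] at this
  by_cases hn : ∃ q, Bt d x q w ∧ d (p (d x y)) q ≤ δ
  · obtain ⟨q, hq, hq'⟩ := hn
    refine ⟨y, hd.bt_right x y, ⟨q, hq, ?_⟩, ⟨y, hd.bt_right _ _, ?_⟩⟩
    · rw [hpn] at hq'
      omega
    · rw [hd.self]
      omega
  · obtain ⟨i, hi, ⟨q, hq, hq'⟩, hi2⟩ := exists_switch (d x y)
      (fun i => ∃ q, Bt d x q w ∧ d (p i) q ≤ δ)
      ⟨x, hd.bt_left _ _, by rw [hp0, hd.self]; omega⟩ hn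
    obtain ⟨q', hq1, hq2⟩ := hs x y w (p (i + 1)) (hb _ (by omega))
    rcases hq1 with hq1 | hq1
    · exact absurd ⟨q', hq1, hq2⟩ hi2
    · refine ⟨p i, hb i (by omega), ⟨q, hq, by omega⟩, ⟨q', hq1, ?_⟩⟩
      have h1 := hp i (i + 1) (by omega) (by omega)
      have h2 := hd.tri (p i) (p (i + 1)) q'
      omega

/-- Slim triangles imply the four point condition. -/
theorem Slim.hyp (hs : Slim d δ) (hd : IsGM d) : Hyp d (3 * δ + 2) := by
  intro w x y z
  -- `(x|z)_w ≥ min ((x|y)_w, (y|z)_w) - const`
  obtain ⟨p, hp, ⟨q, hq, hq'⟩, ⟨r, hr, hr'⟩⟩ := hs.center hd x z w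
  obtain ⟨s, hs1, hs2⟩ := hs x z y p hp
  have h1 := hd.tri w q p
  have h2 := hd.tri x q p
  have h3 := hd.tri w r p
  have h4 := hd.tri p r z
  have c1 := hd.comm x w
  have c2 := hd.comm q w
  have c3 := hd.comm x q
  have c4 := hd.comm q p
  have c5 := hd.comm r p
  have c6 := hd.comm w y
  have c7 := hd.comm z y
  have c8 := hd.comm x y
  have c9 := hd.comm w z
  have h5 := hd.tri w p s
  have h6 := hd.tri w s x
  have h7 := hd.tri w s y
  have h8 := hd.tri w s z
  have c10 := hd.comm s x
  have c11 := hd.comm s y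
  have c12 := hd.comm s z
  have h9 := hd.tri x q p
  have h10 := hd.tri q p w
  have h11 := hd.tri p q w
  have h12 := hd.tri p r w
  have c13 := hd.comm r w
  have c14 := hd.comm p w
  have h13 := hd.tri w p s
  have h14 := hd.tri w s p
  have c15 := hd.comm s p
  have h15 := hd.tri x p q
  have h16 := hd.tri p q x
  have c16 := hd.comm x p
  have h17 := hd.tri p r z
  unfold Bt at *
  rcases hs1 with hs1 | hs1 <;> omega

end Pool.Agent.Olsh
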