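import Pool.Agent.Olsh.DefsP

/-!
# MP_3cdb71_al: definitions for section 8 of `H92.md` (direct analysis), abstract form

`IsCSA`, `OV` are the only facts about the level which are used; block systems; tracks.
-/

set_option autoImplicit false

namespace Pool.Agent.Olsh

/-- Commutation is transitive, maximal abelian subgroups are malnormal. -/
structure IsCSA (G : Type) [Group G] : Prop where
  trans : ∀ a b c : G, b ≠ 1 → Commute a b → Commute b c → Commute a c
  maln : ∀ a b : G, a ≠ 1 → Commute a (b * a * b⁻¹) → Commute a b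

/-- 5.2: two isometries with small displacement at two points far apart commute. -/
def OV (G : Type) {X : Type} [Group G] [MulAction G X] (d : X → X → ℕ) (L1 : ℕ) : Prop :=
  ∀ (g h : G) (p q : X) (al be : ℕ), d p (g • p) ≤ al → d q (g • q) ≤ al →
    d p (h • p) ≤ be → d q (h • q) ≤ be → 4 * (al + be) + L1 ≤ d p q → Commute g h

/-! ### Exponents -/

/-- The exponent sequence `n_0, ..., n_h`, extended periodically. -/
structure IsExp (h n0 : ℕ) (nn : ℕ → ℕ) : Prop where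
  per : ∀ i, nn (i + (h + 1)) = nn i
  low : ∀ i, n0 ≤ nn i
  up : ∀ i, nn i ≤ 2 * n0
  sep : ∀ i j, nn i ≠ nn j → nn i + 1000 ≤ nn j ∨ nn j + 1000 ≤ nn i
  uniq : ∀ i j, (∀ r, r < 4 → nn (i + r) = nn (j + r)) → i % (h + 1) = j % (h + 1)
  norev : ∀ i j, 3 ≤ j → ¬ ∀ r, r < 4 → nn (i + r) = nn (j - r)

/-! ### Block systems -/

/-- The partial products `s_0 = t_0`, `s_(k+1) = s_k c^(n_k) t_(k+1)`. -/
def bs {G : Type} [Group G] (c : G) (t : ℕ → G) (nn : ℕ → ℕ) : ℕ → G
  | 0 => t 0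
  | k + 1 => bs c t nn k * c ^ nn k * t (k + 1)

/-- The relator `t_0 c^(n_0) t_1 ... t_h c^(n_h)`. -/
def rel {G : Type} [Group G] (c : G) (t : ℕ → G) (nn : ℕ → ℕ) (h : ℕ) : G :=
  bs c t nn h * c ^ nn h

/-- The generator of the `k`-th block line. -/
def bc {G : Type} [Group G] (c : G) (t : ℕ → G) (nn : ℕ → ℕ) (k : ℕ) : G :=
  bs c t nn k * c * (bs c t nn k)⁻¹

/-- A block system. -/
structure IsBS (G : Type) {X : Type} [Group G] [MulAction G X] (d : X → X → ℕ) (K h : ℕ)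
    (c : G) (t : ℕ → G) (o : X) : Prop where
  o_mem : o ∈ Mn d c
  big : K ≤ disp d c
  tper : ∀ i, t (i + (h + 1)) = t i
  move : ∀ i, 10 * d o (t i • o) ≤ disp d c
  ncomm : ∀ i, ¬ Commute (t i) c
  cent : ∀ a, Commute a c → ∃ m : ℤ, a = c ^ m

/-! ### The words of a pair -/

/-- `t = P⁻¹ Q`. -/
def teW {G : Type} [Group G] (D k : ℕ) (x y : G) : G := (pW D x)⁻¹ * qW D k x y

/-- `c = g^N t`. -/
def cW {G : Type} [Group G] (D k N : ℕ) (x y : G) : G := gW D k x y ^ N * teW D k x y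

/-- `X_j = Y^(-j) x Y^j`. -/
def xW {G : Type} [Group G] (k j : ℕ) (x y : G) : G := (yW k y ^ j)⁻¹ * x * yW k y ^ j

/-- The letters `u_0, ..., u_5 = X_0, X_1, X_2, X_0⁻¹, X_1⁻¹, X_2⁻¹`. -/
def uW {G : Type} [Group G] (k : ℕ) (x y : G) (r : ℕ) : G :=
  if r < 3 then xW k r x y else (xW k (r - 3) x y)⁻¹

/-- The letters `t_0 = X_3 X_0⁻¹` and `t_1, ..., t_h` = the word `u_0 u_0 u_1 u_1 ... u_5 u_5`
repeated (`12 ∣ h`), extended periodically. -/
def lW {G : Type} [Group G] (k h : ℕ) (x y : G) (i : ℕ) : G :=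
  if i % (h + 1) = 0 then xW k 3 x y * (xW k 0 x y)⁻¹ else
    uW k x y (((i % (h + 1) - 1) % 12) / 2)

/-- The law `w = t_0 c^(n_0) t_1 c^(n_1) ... t_h c^(n_h)`. -/
def lawW {G : Type} [Group G] (D k N h : ℕ) (nn : ℕ → ℕ) (x y : G) : G :=
  rel (cW D k N x y) (lW k h x y) nn h

/-! ### Tracks -/

/-- A track on the geodesic path `P` of length `D`: positions `x 0 ≤ ... ≤ x m` and group elements
`e i` which move the points of the middle part of the `i`-th interval by at most `1.4 lam`. -/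
structure IsTrack {G X : Type} [Group G] [MulAction G X] (d : X → X → ℕ) (P : ℕ → X)
    (D m lam : ℕ) (x : ℕ → ℕ) (e : ℕ → G) : Prop where
  geo : IsGeo d D P
  le : ∀ i, i ≤ m → x i ≤ D
  mono : ∀ i, i < m → x i ≤ x (i + 1)
  disp : ∀ i, i < m → ∀ s, x i + 25 * lam ≤ s → s + 25 * lam ≤ x (i + 1) →
    10 * d (P s) (e i • P s) ≤ 14 * lam
  ne : ∀ i, i < m → e i ≠ 1
  ncomm : ∀ i, i + 1 < m → ¬ Commute (e i) (e (i + 1))

/-- The overlap of the interval `i` of `x` and the interval `j` of `x'` is at least `L`. -/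
def Ovl (x x' : ℕ → ℕ) (i j L : ℕ) : Prop := max (x i) (x' j) + L ≤ min (x (i + 1)) (x' (j + 1))

end Pool.Agent.Olsh
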