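import Pool.Agent.Olsh.Iter
import Pool.Agent.Olsh.DefsE

/-!
# MP_3cdb71_al: the law of section 8 (`lawW`) is the law `wl`
-/

set_option autoImplicit false

namespace Pool.Agent.Olsh

variable {G : Type} [Group G]

/-- The law data of the parameters of section 8. -/
def mkLD (D k N h : ℕ) (nn : ℕ → ℕ) : LD := ⟨D, k, N, h + 1, nn⟩

theorem lX_eq_xW (D k N h : ℕ) (nn : ℕ → ℕ) (x y : G) (j : ℕ) :
    lX (mkLD D k N h nn) x y j = xW k j x y := rfl

theorem lc_eq_cW (D k N h : ℕ) (nn : ℕ → ℕ) (x y : G) :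
    lc (mkLD D k N h nn) x y = cW D k N x y := rfl

theorem lT_eq_lW (D k N h : ℕ) (nn : ℕ → ℕ) (x y : G) (i : ℕ) (hi : i ≤ h) :
    lT (mkLD D k N h nn) x y i = lW k h x y i := by
  have hm : i % (h + 1) = i := Nat.mod_eq_of_lt (by omega)
  unfold lW
  rw [hm]
  cases i with
  | zero => rfl
  | succ i =>
    rw [if_neg (Nat.succ_ne_zero i)]
    show ltr (mkLD D k N h nn) x y i = _
    have e : i + 1 - 1 = i := rfl
    rw [e]
    unfold ltr uW
    by_cases h6 : i % 12 < 6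
    · have h3 : i % 12 / 2 < 3 := by omega
      rw [if_pos h6, if_pos h3]
      rfl
    · have h3 : ¬ i % 12 / 2 < 3 := by omega
      rw [if_neg h6, if_neg h3]
      have e2 : (i % 12 - 6) / 2 = i % 12 / 2 - 3 := by omega
      rw [e2]
      rfl

theorem lS_eq_bs (D k N h : ℕ) (nn : ℕ → ℕ) (x y : G) (i : ℕ) (hi : i ≤ h) :
    lS (mkLD D k N h nn) x y (i + 1) =
      bs (cW D k N x y) (lW k h x y) nn i * cW D k N x y ^ nn i := by
  induction i with
  | zero =>
    show 1 * lT (mkLD D k N h nn) x y 0 * lc (mkLD D k N h nn) x y ^ nn 0 = _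
    rw [one_mul, lT_eq_lW D k N h nn x y 0 hi, lc_eq_cW]
    rfl
  | succ i ih =>
    show lS (mkLD D k N h nn) x y (i + 1) * lT (mkLD D k N h nn) x y (i + 1) *
      lc (mkLD D k N h nn) x y ^ nn (i + 1) = _
    rw [ih (by omega), lT_eq_lW D k N h nn x y (i + 1) hi, lc_eq_cW]
    rfl

/-- The two forms of the law agree. -/
theorem wl_eq_lawW (D k N h : ℕ) (nn : ℕ → ℕ) (x y : G) :
    wl (mkLD D k N h nn) x y = lawW D k N h nn x y :=
  lS_eq_bs D k N h nn x y h le_rfl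

/-- Naturality of `lawW`. -/
theorem map_lawW {H : Type} [Group H] (φ : G →* H) (D k N h : ℕ) (nn : ℕ → ℕ) (x y : G) :
    φ (lawW D k N h nn x y) = lawW D k N h nn (φ x) (φ y) := by
  rw [← wl_eq_lawW, ← wl_eq_lawW, map_wl]

/-- `lawW` is trivial for commuting arguments. -/
theorem lawW_comm (D k N h : ℕ) (nn : ℕ → ℕ) {x y : G} (h12 : 12 ∣ h) (hc : Commute x y) :
    lawW D k N h nn x y = 1 := by
  obtain ⟨m, rfl⟩ := h12
  rw [← wl_eq_lawW]
  exact wl_comm (m := m) rfl hc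

end Pool.Agent.Olsh
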