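import Pool.Agent.Olsh.StmtsG

/-!
# MP_3cdb71_al: module CNJQ, images of conjugating elements
-/

set_option autoImplicit false

namespace Pool.Agent.Olsh

namespace CNJQ

theorem map_yW {G G' : Type} [Group G] [Group G'] (π : G →* G') (k : ℕ) (y : G) :
    π (yW k y) = yW k (π y) := map_pow π y k

theorem map_conj {G G' : Type} [Group G] [Group G'] (π : G →* G') {b u v : G}
    (h : b * u * b⁻¹ = v) : π b * π u * (π b)⁻¹ = π v := by
  rw [← h, map_mul, map_mul, map_inv]

theorem commute_of_conj {G : Type} [Group G] {b u : G} (h : b * u * b⁻¹ = u) : Commute b u := by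
  rw [mul_inv_eq_iff_eq_mul] at h
  exact h

end CNJQ

open CNJQ in
/-- CNJQ: images of conjugating elements. -/
theorem CNJQ : Stmt_CNJQ := by
  intro D n0 hD G G' _ _ hcsa htf π x y x' y' q hxy hC
  obtain ⟨b, r, h1, h2, h3, h4, -⟩ := hC
  have e1 : π b * π x' * (π b)⁻¹ = π x := map_conj π h1
  have e2 : π b * yW D.k (π y') * (π b)⁻¹ = yW D.k (π y) := by
    rw [← map_yW, ← map_yW]
    exact map_conj π h2
  have e3 : π b * lw D (π x') (π y') * (π b)⁻¹ = lw D (π x) (π y) := by
    rw [← map_lw, ← map_lw]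
    exact map_conj π h3
  refine ⟨π b, r, e1, e2, e3, ?_, ?_⟩
  · rw [h4, map_mul, map_zpow, map_lw]
  · rintro ⟨hx, hy⟩
    rw [← hx] at e1
    rw [← hy] at e2
    have c1 : Commute (π b) (π x) := commute_of_conj e1
    have c2 : Commute (π b) ((π y) ^ D.k) := commute_of_conj e2
    by_contra hb
    have c3 : Commute (π x) ((π y) ^ D.k) := hcsa.trans _ _ _ hb c1.symm c2
    have hy1 : (π y) ^ D.k ≠ 1 := by
      intro h5
      have h6 : π y = 1 := htf (π y) D.k hD.k1 h5
      apply hxy
      rw [h6, mul_one, one_mul]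
    have c4 : Commute ((π y) ^ D.k) (π y) := (Commute.refl (π y)).pow_left D.k
    exact hxy (hcsa.trans _ _ _ hy1 c3 c4)

end Pool.Agent.Olsh
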