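import Pool.Agent.Olsh.DefsP
import Pool.Agent.Olsh.PROJ
import Pool.Agent.Olsh.CONEGM
import Pool.Agent.Olsh.CONEPS
import Pool.Agent.Olsh.CONEISO
import Pool.Agent.Olsh.CONEROT
import Pool.Agent.Olsh.QEX
import Pool.Agent.Olsh.QGM

/-!
# MP_3cdb71_al: assembly of sections 1 to 4: existence of the quotient of the cone-off
-/

set_option autoImplicit false

namespace Pool.Agent.Olsh

/-- Existence of the quotient, from the family `Y` on a level. -/
def Stmt_CONEQ : Prop := ∀ η : ℕ, ∃ η1 C : ℕ, 1 ≤ C ∧ 1000 * dl + 100 * η + 1000 ≤ η1 ∧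
  ∀ (G X S : Type) [Group G] [MulAction G X] [MulAction G S] (d : X → X → ℕ) (u L : ℕ)
  (Y : S → Set X), ConeG G d u L Y η η1 → C ≤ u → 2000 * C * u < L →
  ∃ (G' A' : Type) (_ : Group G') (_ : MulAction G' A') (d' : A' → A' → ℕ) (π : G →* G')
    (q : X ⊕ S → A'), ConeQ G G' d u L Y η η1 C d' π q

theorem CONEQ (h1 : Stmt_CONEA) (h2 : Stmt_KFREE) : Stmt_CONEQ := by
  intro η
  obtain ⟨η0, C, hC, h⟩ := CONEPS PROJ CONEGM h1 η
  refine ⟨max η0 (1000 * dl + 100 * η + 1000), C, hC, le_max_right _ _, ?_⟩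
  intro G X S _ _ _ d u L Y hY hu hL
  have hP0 : ConeP d u Y η η0 C := by
    apply h X S d u Y _ hu
    refine ⟨hY.gm, hY.hyp, hY.ne, hY.qc, ?_⟩
    have mono : ∀ s : S, Nd d η0 (Y s) ⊆ Nd d (max η0 (1000 * dl + 100 * η + 1000)) (Y s) := by
      rintro s v ⟨a, ha, hv⟩
      exact ⟨a, ha, hv.trans (le_max_left _ _)⟩
    intro s t hst v w h1 h2 h3 h4
    exact hY.ov s t hst v w (mono _ h1) (mono _ h2) (mono _ h3) (mono _ h4)
  have hP : ConeP d u Y η (max η0 (1000 * dl + 100 * η + 1000)) C :=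
    { toConeH := hY.toConeH
      hypc := hP0.hypc
      ps := hP0.ps
      near := hP0.near
      one_le := hP0.one_le
      le_u := hP0.le_u
      eta_le := hP0.eta_le
      dl_le := hP0.dl_le }
  have hR := CONEROT CONEISO CONEGM η _ C G X S d u L Y hY hP hC hL
  have hN : (KK G (apx X S)).Normal := (h2 G (X ⊕ S) _ _ _ _ _ hR).1
  obtain ⟨G', A', i1, i2, d', π, q, hq⟩ := QEX G (X ⊕ S) (cd d u Y) (KK G (apx X S))
    hR.gm hR.isom
  exact ⟨G', A', i1, i2, d', π, q, { toConeG := hY, conep := hP, rotc := hR, quot := hq }⟩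

end Pool.Agent.Olsh
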