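import Pool.Agent.Olsh.StmtsG
import Pool.Agent.Olsh.StmtsE
import Pool.Agent.Olsh.StmtsP

/-!
# MP_3cdb71_al, section 9: the facts of section 8 hold on every level (module DIR)
-/

set_option autoImplicit false

namespace Pool.Agent.Olsh

/-- DIR -/
theorem DIR (h1 : Stmt_MALN) (h2 : Stmt_OV) (h3 : Stmt_EPAIR) (h4 : Stmt_E85) : Stmt_DIR := by
  obtain ⟨A, C, hOV⟩ := h2
  refine ⟨A, C, ?_⟩
  intro a0 L0 hA ρ Dd k V B
  obtain ⟨N1, hN1⟩ := h3 (2 * L0 + C) Dd k V B (1000000 * (dl + (2 * L0 + C) + ρ + 1))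
  obtain ⟨N2, hN2⟩ := h4 (2 * L0 + C) ρ Dd k V B
  refine ⟨max N1 N2, ?_⟩
  rintro D n0 rfl rfl hN hD CP M0 G X _ _ d hL
  have hM := h1 G X d a0 L0 CP M0 hL
  have hcsa : IsCSA G := ⟨fun a b c hb hab hbc => hL.csa a b c hb hab hbc,
    fun a b ha hab => hM.2 a b ha hab⟩
  have hov : OV G d (2 * L0 + C) := by
    intro g h p q al be e1 e2 e3 e4 e5
    exact hOV G X d a0 L0 CP M0 hL hA g h p q al be e1 e2 e3 e4 (by omega)
  have hN1' : N1 ≤ D.N := (le_max_left _ _).trans hN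
  have hN2' : N2 ≤ D.N := (le_max_right _ _).trans hN
  refine ⟨hL.gm, hL.hyp, hL.isom, hL.ne, hcsa, fun g n hn hg => hM.1 g n hn hg, hov, ?_, ?_, ?_⟩
  · intro x y x' y' hp hp' q hq
    obtain ⟨p1, p2, a1, a2, a3, a4, a5⟩ := hq
    exact hN2 D.N hN2' a0 L0 CP M0 G X d hL hcsa hov x y x' y' hp hp' (D.H - 1) n0 D.nn hD.h12
      hD.h48 hD.n0l hD.exp q p1 p2 a1 a2 a3 a4 a5
  · intro x y hp
    exact (hN1 D.N hN1' a0 L0 CP M0 G X d hL hcsa hov x y hp (D.H - 1) hD.h12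
      (by have := hD.h48; omega)).1
  · intro x y hp
    exact (hN1 D.N hN1' a0 L0 CP M0 G X d hL hcsa hov x y hp (D.H - 1) hD.h12
      (by have := hD.h48; omega)).2

end Pool.Agent.Olsh
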