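import Pool.Agent.Olsh.StmtsE

/-!
# MP_3cdb71_al: existence of the exponent sequence
-/

set_option autoImplicit false

namespace Pool.Agent.Olsh

namespace ESEQ

/-- The value at the position `p`. -/
def V (B p : ℕ) : ℕ := if p = 0 then 4 * B else
  if (p - 1) % 2 = 0 then 4 * ((p - 1) / 4 / B) + (p - 1) % 4
  else 4 * ((p - 1) / 4 % B) + (p - 1) % 4

lemma V_zero (B : ℕ) : V B 0 = 4 * B := by simp [V]

lemma V_even {B p : ℕ} (hp : 1 ≤ p) (h : (p - 1) % 2 = 0) :
    V B p = 4 * ((p - 1) / 4 / B) + (p - 1) % 4 := by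
  unfold V
  rw [if_neg (by omega), if_pos h]

lemma V_odd {B p : ℕ} (hp : 1 ≤ p) (h : (p - 1) % 2 = 1) :
    V B p = 4 * ((p - 1) / 4 % B) + (p - 1) % 4 := by
  unfold V
  rw [if_neg (by omega), if_neg (by omega)]

lemma V_lt {B h p : ℕ} (hB : h < 4 * (B * B)) (hp : 1 ≤ p) (hp' : p ≤ h) : V B p < 4 * B := by
  have hB0 : 0 < B := by
    rcases Nat.eq_zero_or_pos B with h0 | h0
    · subst h0
      omega
    · exact h0
  have h1 : (p - 1) / 4 < B * B := by omega
  have h2 : (p - 1) / 4 / B < B := Nat.div_lt_of_lt_mul h1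
  have h3 : (p - 1) / 4 % B < B := Nat.mod_lt _ hB0
  rcases Nat.mod_two_eq_zero_or_one (p - 1) with h4 | h4
  · rw [V_even hp h4]
    omega
  · rw [V_odd hp h4]
    omega

lemma V_mod {B p : ℕ} (hp : 1 ≤ p) : V B p % 4 = (p - 1) % 4 := by
  rcases Nat.mod_two_eq_zero_or_one (p - 1) with h4 | h4
  · rw [V_even hp h4]
    omega
  · rw [V_odd hp h4]
    omega

lemma pair {B x y : ℕ} (hx : 1 ≤ x) (hy : 1 ≤ y) (hs : (x - 1) % 4 ≤ 2) (h0 : V B x = V B y)
    (h1 : V B (x + 1) = V B (y + 1)) : x = y := by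
  have hr : (x - 1) % 4 = (y - 1) % 4 := by
    rw [← V_mod (B := B) hx, ← V_mod (B := B) hy, h0]
  have hJ : (x + 1 - 1) / 4 = (x - 1) / 4 := by omega
  have hK : (y + 1 - 1) / 4 = (y - 1) / 4 := by omega
  have hc : (x - 1) / 4 / B = (y - 1) / 4 / B ∧ (x - 1) / 4 % B = (y - 1) / 4 % B := by
    rcases Nat.mod_two_eq_zero_or_one (x - 1) with h4 | h4
    · rw [V_even hx h4, V_even hy (by omega)] at h0
      rw [V_odd (by omega) (by omega), V_odd (by omega) (by omega), hJ, hK] at h1
      constructor <;> omega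
    · rw [V_odd hx h4, V_odd hy (by omega)] at h0
      rw [V_even (by omega) (by omega), V_even (by omega) (by omega), hJ, hK] at h1
      constructor <;> omega
  have h5 : (x - 1) / 4 = (y - 1) / 4 := by
    rw [← Nat.div_add_mod ((x - 1) / 4) B, hc.1, hc.2, Nat.div_add_mod]
  omega

lemma pos_add {h i r : ℕ} (hr : r ≤ h) :
    (i % (h + 1) + r ≤ h ∧ (i + r) % (h + 1) = i % (h + 1) + r) ∨
    (h + 1 ≤ i % (h + 1) + r ∧ (i + r) % (h + 1) + (h + 1) = i % (h + 1) + r) := by
  have h1 : i % (h + 1) < h + 1 := Nat.mod_lt _ (by omega)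
  have h2 : (i + r) % (h + 1) = (i % (h + 1) + r) % (h + 1) := by
    rw [Nat.add_mod, Nat.mod_eq_of_lt (show r < h + 1 by omega)]
  by_cases h3 : i % (h + 1) + r < h + 1
  · left
    refine ⟨by omega, ?_⟩
    rw [h2, Nat.mod_eq_of_lt h3]
  · right
    refine ⟨by omega, ?_⟩
    rw [h2, Nat.mod_eq_sub_mod (by omega), Nat.mod_eq_of_lt (by omega)]
    omega

lemma pos_sub {h j r : ℕ} (hr : r ≤ h) (hj : r ≤ j) :
    (r ≤ j % (h + 1) ∧ (j - r) % (h + 1) + r = j % (h + 1)) ∨
    (j % (h + 1) < r ∧ (j - r) % (h + 1) + r = j % (h + 1) + (h + 1)) := by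
  have h1 := pos_add (h := h) (i := j - r) hr
  have h2 : j - r + r = j := by omega
  rw [h2] at h1
  have h3 : (j - r) % (h + 1) < h + 1 := Nat.mod_lt _ (by omega)
  omega

/-- Equality of values: markers correspond, otherwise the residues agree. -/
lemma V_eq {B h x y : ℕ} (hB : h < 4 * (B * B)) (hx : x ≤ h) (hy : y ≤ h) (e : V B x = V B y) :
    (x = 0 ∧ y = 0) ∨ (1 ≤ x ∧ 1 ≤ y ∧ (x - 1) % 4 = (y - 1) % 4) := by
  rcases Nat.eq_zero_or_pos x with h0 | h0
  · rcases Nat.eq_zero_or_pos y with h1 | h1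
    · exact Or.inl ⟨h0, h1⟩
    · exfalso
      have := V_lt hB h1 hy
      rw [h0, V_zero] at e
      omega
  · rcases Nat.eq_zero_or_pos y with h1 | h1
    · exfalso
      have := V_lt hB h0 hx
      rw [h1, V_zero] at e
      omega
    · right
      refine ⟨h0, h1, ?_⟩
      rw [← V_mod (B := B) h0, ← V_mod (B := B) h1, e]

end ESEQ

open ESEQ in
theorem ESEQ : Stmt_ESEQ := by
  intro C
  refine ⟨8000000 * (C + 1), ?_⟩
  intro n0 hn0 h hdvd h12 hC
  -- the base
  obtain ⟨B, hB1, hB2⟩ : ∃ B : ℕ, h < 4 * (B * B) ∧ 4000 * B ≤ n0 := by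
    refine ⟨Nat.sqrt (h / 4) + 1, ?_, ?_⟩
    · have h1 := Nat.lt_succ_sqrt (h / 4)
      simp only [Nat.succ_eq_add_one] at h1
      omega
    · have h2 : Nat.sqrt (h / 4) < n0 / 4000 := by
        rw [Nat.sqrt_lt]
        have hq : 2000 * (C + 1) ≤ n0 / 4000 := by omega
        set q := n0 / 4000 with hqd
        have h3 : n0 ≤ 8000 * q := by omega
        have h4 : h / 4 ≤ 2000 * (C * q) := by
          have h5 : C * n0 ≤ C * (8000 * q) := Nat.mul_le_mul_left _ h3
          have h6 : C * (8000 * q) = 8000 * (C * q) := by ring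
          omega
        have h7 : 2000 * (C + 1) * q ≤ q * q := Nat.mul_le_mul_right _ hq
        have h8 : 2000 * (C + 1) * q = 2000 * (C * q) + 2000 * q := by ring
        omega
      omega
  have hpos : ∀ i, i % (h + 1) ≤ h := fun i => by
    have := Nat.mod_lt i (show 0 < h + 1 by omega)
    omega
  have hVle : ∀ i, V B (i % (h + 1)) ≤ 4 * B := fun i => by
    rcases Nat.eq_zero_or_pos (i % (h + 1)) with h0 | h0
    · rw [h0, V_zero]
    · exact (V_lt hB1 h0 (hpos i)).le
  refine ⟨fun i => n0 + 1000 * V B (i % (h + 1)), ?_, ?_, ?_, ?_, ?_, ?_⟩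
  · intro i
    simp only [Nat.add_mod_right]
  · intro i
    exact Nat.le_add_right _ _
  · intro i
    have := hVle i
    omega
  · intro i j hne
    omega
  · intro i j he
    have he' : ∀ r, r < 4 → V B ((i + r) % (h + 1)) = V B ((j + r) % (h + 1)) := by
      intro r hr
      have := he r hr
      omega
    clear he
    have e0 := he' 0 (by omega)
    have e1 := he' 1 (by omega)
    have e2 := he' 2 (by omega)
    have e3 := he' 3 (by omega)
    simp only [add_zero] at e0
    have a1 := pos_add (h := h) (i := i) (r := 1) (by omega)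
    have a2 := pos_add (h := h) (i := i) (r := 2) (by omega)
    have a3 := pos_add (h := h) (i := i) (r := 3) (by omega)
    have b1 := pos_add (h := h) (i := j) (r := 1) (by omega)
    have b2 := pos_add (h := h) (i := j) (r := 2) (by omega)
    have b3 := pos_add (h := h) (i := j) (r := 3) (by omega)
    have c0 := V_eq hB1 (hpos _) (hpos _) e0
    have c1 := V_eq hB1 (hpos _) (hpos _) e1
    have c2 := V_eq hB1 (hpos _) (hpos _) e2
    have c3 := V_eq hB1 (hpos _) (hpos _) e3
    have pi := hpos i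
    have pj := hpos j
    have pi1 := hpos (i + 1)
    have pj1 := hpos (j + 1)
    by_contra hne
    -- no markers
    have n1 : i % (h + 1) + 3 ≤ h ∧ 1 ≤ i % (h + 1) := by omega
    have n2 : j % (h + 1) + 3 ≤ h ∧ 1 ≤ j % (h + 1) := by omega
    have m1 : (i + 1) % (h + 1) = i % (h + 1) + 1 := by omega
    have m2 : (i + 2) % (h + 1) = i % (h + 1) + 1 + 1 := by omega
    have m3 : (j + 1) % (h + 1) = j % (h + 1) + 1 := by omega
    have m4 : (j + 2) % (h + 1) = j % (h + 1) + 1 + 1 := by omega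
    rw [m1, m3] at e1
    rw [m2, m4] at e2
    by_cases hs : (i % (h + 1) - 1) % 4 ≤ 2
    · exact hne (pair n1.2 n2.2 hs e0 e1)
    · have := pair (B := B) (x := i % (h + 1) + 1) (y := j % (h + 1) + 1) (by omega) (by omega)
        (by omega) e1 e2
      omega
  · intro i j hj he
    have he' : ∀ r, r < 4 → V B ((i + r) % (h + 1)) = V B ((j - r) % (h + 1)) := by
      intro r hr
      have := he r hr
      omega
    clear he
    have e0 := he' 0 (by omega)
    have e1 := he' 1 (by omega)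
    have e2 := he' 2 (by omega)
    have e3 := he' 3 (by omega)
    simp only [add_zero, Nat.sub_zero] at e0
    have a1 := pos_add (h := h) (i := i) (r := 1) (by omega)
    have a2 := pos_add (h := h) (i := i) (r := 2) (by omega)
    have a3 := pos_add (h := h) (i := i) (r := 3) (by omega)
    have b1 := pos_sub (h := h) (j := j) (r := 1) (by omega) (by omega)
    have b2 := pos_sub (h := h) (j := j) (r := 2) (by omega) (by omega)
    have b3 := pos_sub (h := h) (j := j) (r := 3) (by omega) (by omega)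
    have c0 := V_eq hB1 (hpos _) (hpos _) e0
    have c1 := V_eq hB1 (hpos _) (hpos _) e1
    have c2 := V_eq hB1 (hpos _) (hpos _) e2
    have c3 := V_eq hB1 (hpos _) (hpos _) e3
    have pi := hpos i
    have pj := hpos j
    omega

end Pool.Agent.Olsh
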