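import Pool.Agent.Olsh.StmtsE

/-!
# ESHIFT: the shift by a block generator (section 8 of `H92.md`)
-/

set_option autoImplicit false

namespace Pool.Agent.Olsh

namespace ESHIFT

variable {δ : ℕ} {G X : Type} [Group G] [MulAction G X] {d : X → X → ℕ}

/-- A point of the edge `[o, b']` far from its ends, shifted by `c⁻¹`, is near the edge. -/
theorem orb (hd : IsGM d) (hh : Hyp d δ) (hG : IsomAct G d) {c : G} {o b' ζ : X} {n : ℕ}
    (ho : o ∈ Mn d c) (hL : 1000 * (δ + 1) ≤ disp d c) (hn : 1 ≤ n)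
    (hb : 10 * d (c ^ n • o) b' ≤ disp d c) (hz : Bt d o ζ b') (h1 : 3 * disp d c ≤ d o ζ)
    (h2 : 3 * disp d c ≤ d ζ b') :
    ∃ e, Bt d o e b' ∧ d (c⁻¹ • ζ) e ≤ 31 * δ + 2 := by
  obtain ⟨ζ1, hζ1, hd1⟩ := hh.slim hd o b' (c ^ n • o) ζ hz
  have hζ1' : Bt d o ζ1 (c ^ n • o) := by
    rcases hζ1 with h | h
    · exact h
    · exfalso
      have a1 := hd.tri ζ ζ1 b'
      have a2 := h
      unfold Bt at a2
      omega
  have hch := hG.isChain_orbit hh hd ho (by omega) n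
  obtain ⟨m, hm, ζ2, hζ2, hd2⟩ := hch.cover hh hd (by omega) hn (z := ζ1) (by
    show Bt d (c ^ 0 • o) ζ1 (c ^ n • o)
    rw [pow_zero, one_smul]
    exact hζ1')
  have hco : d o (c • o) = disp d c := ho
  have hζ2 : Bt d (c ^ m • o) ζ2 (c ^ (m + 1) • o) := hζ2
  have hedge : d (c ^ m • o) (c ^ (m + 1) • o) = disp d c := by
    have := hG.dist_pow_pow c o m 1
    rw [pow_one, hco] at this
    exact this
  have hm1 : 1 ≤ m := by
    rcases Nat.eq_zero_or_pos m with h | h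
    · exfalso
      subst h
      rw [pow_zero, one_smul] at hζ2 hedge
      have a1 := hd.tri o ζ2 ζ
      have a2 := hd.tri ζ2 ζ1 ζ
      have a3 := hd.comm ζ1 ζ2
      have a4 := hd.comm ζ ζ1
      unfold Bt at hζ2
      omega
    · exact h
  obtain ⟨l, rfl⟩ : ∃ l, m = l + 1 := ⟨m - 1, by omega⟩
  have hmn2 : ζ2 ∈ Mn d c := by
    have e1 : c ^ (l + 1) • o ∈ Mn d c := by
      have := hG.pow_mem_Mn ho ((l + 1 : ℕ) : ℤ)
      rwa [zpow_natCast] at this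
    refine hG.mem_Mn_of_bt hd e1 ?_
    rw [smul_smul, ← pow_succ']
    exact hζ2
  set w := c⁻¹ • ζ2 with hw
  have hcw : c • w = ζ2 := by rw [hw, smul_inv_smul]
  have hww : Bt d (c ^ l • o) w (c ^ (l + 1) • o) := by
    rw [← hG.bt_smul c, hcw, smul_smul, smul_smul, ← pow_succ', ← pow_succ']
    exact hζ2
  have hdw : d ζ2 w = disp d c := by
    have a1 : d ζ2 (c • ζ2) = disp d c := hmn2
    have a2 := hG c w ζ2
    rw [hcw] at a2
    have a3 := hd.comm w ζ2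
    omega
  have hgp : GpLe d (7 * δ) o w (c ^ n • o) := by
    have g1 : GpLe d (4 * δ) o (c ^ (l + 1) • o) (c ^ n • o) := by
      have := hch.gp_ends hh hd (by omega) (l + 1) (by omega)
      rw [pow_zero, one_smul] at this
      exact this.mono (by omega)
    have g2 : d o (c ^ l • o) + d (c ^ l • o) (c ^ (l + 1) • o) ≤
        d o (c ^ (l + 1) • o) + 6 * δ := by
      rcases Nat.eq_zero_or_pos l with h | h
      · subst h
        rw [pow_zero, one_smul, hd.self]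
        omega
      · have := hch.step hh hd (by omega) l h (by omega)
        rw [pow_zero, one_smul] at this
        unfold GpLe at this
        omega
    have a1 := hd.tri o (c ^ l • o) w
    have a2 := hd.tri w (c ^ (l + 1) • o) (c ^ n • o)
    unfold GpLe at g1 ⊢
    unfold Bt at hww
    omega
  obtain ⟨e1, he1, hde1⟩ := hh.near_of_gp hd hgp
  obtain ⟨e, he, hde⟩ := hh.slim hd o (c ^ n • o) b' e1 he1
  have hcζ : d (c⁻¹ • ζ) w = d ζ ζ2 := by
    rw [hw, hG.inv, smul_inv_smul]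
  have b1 := hd.tri ζ ζ1 ζ2
  have he' : Bt d o e b' := by
    rcases he with h | h
    · exact h
    · exfalso
      have a1 := hd.tri ζ ζ2 b'
      have a2 := hd.tri ζ2 w b'
      have a3 := hd.tri w e1 b'
      have a4 := hd.tri e1 e b'
      have a5 := h
      have a6 := hd.comm e b'
      have a7 := hd.comm b' (c ^ n • o)
      unfold Bt at a5
      omega
  refine ⟨e, he', ?_⟩
  have a1 := hd.tri (c⁻¹ • ζ) w e
  have a2 := hd.tri w e1 e
  omega

/-- Points between `P 0` and `P D`, far from the ends, are near `q Y'`. -/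
theorem mid (hd : IsGM d) (hh : Hyp d δ) (hG : IsomAct G d) {ρ : ℕ} {Y' : Set X}
    (hY : QConv d (59 * δ + 5) Y') {q : G} {u v z : X} (hu : ∃ y ∈ Y', d u (q • y) ≤ ρ)
    (hv : ∃ y ∈ Y', d v (q • y) ≤ ρ) (hz : Bt d u z v) (h1 : ρ + 8 * δ < d u z)
    (h2 : ρ + 8 * δ < d z v) : ∃ y ∈ Y', d z (q • y) ≤ 67 * δ + 5 := by
  obtain ⟨y, hy, hy1⟩ := hu
  obtain ⟨y', hy', hy1'⟩ := hv
  have hi : ∀ a b : X, d (q⁻¹ • a) b = d a (q • b) := hG.inv q
  obtain ⟨y2, hy2, h3⟩ := hY.middle hh hd (x := q⁻¹ • u) (x' := q⁻¹ • v) (z := q⁻¹ • z) hy hy'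
    (a := ρ) (by rw [hi]; exact hy1) (by rw [hi]; exact hy1') ((hG.bt_smul q⁻¹).2 hz)
    (by rw [hG]; exact h1) (by rw [hG]; exact h2)
  rw [hi] at h3
  exact ⟨y2, hy2, by omega⟩

/-- The main step: the points in the middle of a block. -/
theorem core (hd : IsGM d) (hh : Hyp d δ) (hG : IsomAct G d) {L1 ρ h : ℕ} {c : G} {t : ℕ → G}
    {o : X} {nn : ℕ → ℕ} (hbs : IsBS G d (1000 * (δ + L1 + ρ + 1)) h c t o)
    (hlow : ∀ i, 1 ≤ nn i) {Y' : Set X} (hY : QConv d (59 * δ + 5) Y') {q : G} {P : ℕ → X}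
    {D m k : ℕ} {x : ℕ → ℕ} (htr : IsTrack d P D m (disp d c) x (fun i => bc c t nn (k + i)))
    (hpos : ∀ i, i ≤ m → d (P (x i)) (bs c t nn (k + i) • o) ≤ 25 * disp d c)
    (hedge : ∀ i, i < m → ∀ s, x i + 25 * disp d c ≤ s → s + 25 * disp d c ≤ x (i + 1) →
      ∃ z', Bt d (bs c t nn (k + i) • o) z' (bs c t nn (k + i + 1) • o) ∧ d (P s) z' ≤ 8 * δ)
    (hP0 : ∃ y ∈ Y', d (P 0) (q • y) ≤ ρ) (hPD : ∃ y ∈ Y', d (P D) (q • y) ≤ ρ)
    {i : ℕ} (hi : i < m) {s : ℕ} (hs1 : x i + 60 * disp d c ≤ s)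
    (hs2 : s + 60 * disp d c ≤ x (i + 1)) :
    (∃ y ∈ Y', d (q⁻¹ • P s) y ≤ 200 * (δ + ρ + 1)) ∧
    ∃ y ∈ Y', d (q⁻¹ • P s) ((q⁻¹ * bc c t nn (k + i) * q) • y) ≤ 200 * (δ + ρ + 1) := by
  have hbig := hbs.big
  have hgeo := htr.geo
  have hx1 := htr.le (i + 1) hi
  have hx0 := htr.le i (by omega)
  have hx01 := htr.mono i hi
  set cc := disp d c with hcc
  constructor
  · obtain ⟨y, hy, h1⟩ := mid hd hh hG hY hP0 hPD (z := P s) (hgeo.bt (by omega) (by omega) le_rfl)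
      (by rw [hgeo 0 s (by omega) (by omega)]; omega)
      (by rw [hgeo s D (by omega) le_rfl]; omega)
    refine ⟨y, hy, ?_⟩
    rw [hG.inv]
    omega
  obtain ⟨z, hz, hz'⟩ := hedge i hi s (by omega) (by omega)
  obtain ⟨S, hS⟩ : ∃ S : G, S = bs c t nn (k + i) := ⟨_, rfl⟩
  have hS1 : bs c t nn (k + i + 1) = S * (c ^ nn (k + i) * t (k + i + 1)) := by
    rw [hS]
    exact mul_assoc _ _ _
  have hpi := hpos i (by omega)
  have hpi1 := hpos (i + 1) (by omega)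
  have e1 : k + (i + 1) = k + i + 1 := by omega
  rw [e1] at hpi1
  -- distances along the path
  have g1 := hgeo (x i) s (by omega) (by omega)
  have g2 := hgeo s (x (i + 1)) (by omega) (by omega)
  have hza : 3 * cc ≤ d (bs c t nn (k + i) • o) z := by
    have a1 := hd.tri (P (x i)) (bs c t nn (k + i) • o) (P s)
    have a2 := hd.tri (bs c t nn (k + i) • o) z (P s)
    have a3 := hd.comm z (P s)
    omega
  have hzb : 3 * cc ≤ d z (bs c t nn (k + i + 1) • o) := by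
    have a1 := hd.tri (P s) (bs c t nn (k + i + 1) • o) (P (x (i + 1)))
    have a2 := hd.tri (P s) z (bs c t nn (k + i + 1) • o)
    have a3 := hd.comm (bs c t nn (k + i + 1) • o) (P (x (i + 1)))
    omega
  -- the shifted point
  have hmove : d (c ^ nn (k + i) • o) ((c ^ nn (k + i) * t (k + i + 1)) • o)
      = d o (t (k + i + 1) • o) := by
    rw [mul_smul, hG]
  have hm := hbs.move (k + i + 1)
  have hinv : ∀ a b : X, d (S⁻¹ • a) b = d a (S • b) := hG.inv S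
  have hb' : (c ^ nn (k + i) * t (k + i + 1)) • o = S⁻¹ • (bs c t nn (k + i + 1) • o) := by
    rw [hS1, smul_smul, inv_mul_cancel_left]
  obtain ⟨e, he, hde⟩ := orb hd hh hG (c := c) (o := o)
    (b' := (c ^ nn (k + i) * t (k + i + 1)) • o) (ζ := S⁻¹ • z) (n := nn (k + i)) hbs.o_mem
    (by omega) (hlow _) (by rw [hmove]; exact hm) (by
      rw [hb']
      have := (hG.bt_smul S⁻¹).2 hz
      rwa [← hS, inv_smul_smul] at this)
    (by
      rw [hd.comm, hinv, hS, hd.comm]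
      exact hza)
    (by
      rw [hb', hG]
      exact hzb)
  -- `v = bc⁻¹ P s` and `S e`
  have hSe : Bt d (bs c t nn (k + i) • o) (S • e) (bs c t nn (k + i + 1) • o) := by
    have := (hG.bt_smul S).2 he
    rw [hb', smul_inv_smul] at this
    rwa [← hS]
  obtain ⟨v, hv⟩ : ∃ v : X, v = (bc c t nn (k + i))⁻¹ • P s := ⟨_, rfl⟩
  have hv1 : v = S • (c⁻¹ • (S⁻¹ • P s)) := by
    rw [hv, bc, hS, smul_smul, smul_smul]
    congr 1
    group
  have hve : d v (S • e) ≤ 39 * δ + 2 := by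
    rw [hv1, hG]
    have a1 := hd.tri (c⁻¹ • (S⁻¹ • P s)) (c⁻¹ • (S⁻¹ • z)) e
    have a2 : d (c⁻¹ • (S⁻¹ • P s)) (c⁻¹ • (S⁻¹ • z)) = d (P s) z := by rw [hG, hG]
    omega
  have hvP : 10 * d (P s) v ≤ 14 * cc := by
    have a1 := htr.disp i hi s (by omega) (by omega)
    have a2 : d v (P s) = d (P s) (bc c t nn (k + i) • P s) := by
      rw [hv, hG.inv]
    rw [hd.comm, a2]
    exact a1
  -- the point on the path
  have ha1 : 25 * cc + 8 * δ < d (bs c t nn (k + i) • o) (S • e) := by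
    have b1 := hd.tri (P (x i)) (bs c t nn (k + i) • o) (P s)
    have b2 := hd.tri (bs c t nn (k + i) • o) (S • e) (P s)
    have b3 := hd.tri (S • e) v (P s)
    have b4 := hd.comm v (P s)
    have b5 := hd.comm (S • e) v
    omega
  have ha2 : 25 * cc + 8 * δ < d (S • e) (bs c t nn (k + i + 1) • o) := by
    have b1 := hd.tri (P s) (bs c t nn (k + i + 1) • o) (P (x (i + 1)))
    have b2 := hd.tri (P s) v (bs c t nn (k + i + 1) • o)
    have b3 := hd.tri v (S • e) (bs c t nn (k + i + 1) • o)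
    have b4 := hd.comm (bs c t nn (k + i + 1) • o) (P (x (i + 1)))
    omega
  obtain ⟨e', he', hee, -, -⟩ := hh.quad hd (x := bs c t nn (k + i) • o)
    (y := bs c t nn (k + i + 1) • o) (x' := P (x i)) (y' := P (x (i + 1))) (z := S • e)
    (a := 25 * cc) (b := 25 * cc) (by rw [hd.comm]; exact hpi) (by rw [hd.comm]; exact hpi1) hSe
    ha1 ha2
  have hve' : d v e' ≤ 47 * δ + 2 := by
    have := hd.tri v (S • e) e'
    omega
  have hc1 : 10 * cc ≤ d (P (x i)) e' := by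
    have b1 := hd.tri (P (x i)) e' (P s)
    have b2 := hd.tri e' v (P s)
    have b3 := hd.comm e' v
    have b4 := hd.comm v (P s)
    omega
  have hc2 : 10 * cc ≤ d e' (P (x (i + 1))) := by
    have b1 := hd.tri (P s) e' (P (x (i + 1)))
    have b2 := hd.tri (P s) v e'
    omega
  have hbt1 : Bt d (P 0) (P (x i)) (P (x (i + 1))) := hgeo.bt (by omega) hx01 hx1
  have hbt2 : Bt d (P 0) (P (x (i + 1))) (P D) := hgeo.bt (by omega) hx1 le_rfl
  have hdd0 := hgeo 0 (x i) (by omega) hx0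
  have hdd1 := hgeo 0 (x (i + 1)) (by omega) hx1
  have hdd2 := hgeo (x (i + 1)) D hx1 le_rfl
  have hdd3 := hgeo (x i) (x (i + 1)) hx01 hx1
  have hddD := hgeo 0 D (by omega) le_rfl
  have hbt : Bt d (P 0) e' (P D) := by
    have b1 := hd.tri (P 0) (P (x i)) e'
    have b2 := hd.tri e' (P (x (i + 1))) (P D)
    have b3 := hd.tri (P 0) e' (P D)
    unfold Bt at *
    omega
  obtain ⟨y, hy, hy1⟩ := mid hd hh hG hY hP0 hPD hbt (by
    have b1 := hd.tri (P 0) e' (P (x (i + 1)))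
    have b2 := hd.tri (P (x i)) e' (P (x (i + 1)))
    unfold Bt at he'
    omega) (by
    have b1 := hd.tri (P (x i)) e' (P D)
    have b4 := hgeo (x i) D hx0 le_rfl
    unfold Bt at he'
    omega)
  refine ⟨y, hy, ?_⟩
  rw [hG.inv]
  have f1 : q • ((q⁻¹ * bc c t nn (k + i) * q) • y) = bc c t nn (k + i) • (q • y) := by
    rw [smul_smul, smul_smul]
    congr 1
    group
  have f2 : d (P s) (bc c t nn (k + i) • (q • y)) = d v (q • y) := by
    rw [hv, hG.inv]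
  rw [f1, f2]
  have := hd.tri v e' (q • y)
  omega

/-- The case `k1 ≤ k2`. -/
theorem main (h3 : Stmt_ETRA) {L1 ρ h n0 : ℕ} {c : G} {t : ℕ → G} {o : X} {nn : ℕ → ℕ}
    {Y' : Set X} {T : ℕ} (hd : IsGM d) (hh : Hyp d δ) (hG : IsomAct G d) (hcsa : IsCSA G)
    (hov : OV G d L1) (hbs : IsBS G d (1000 * (δ + L1 + ρ + 1)) h c t o) (hn0 : 40000 ≤ n0)
    (hexp : IsExp h n0 nn) (hY : QConv d (59 * δ + 5) Y') {q : G} {u v z1 z2 : X} {k1 k2 : ℕ}
    (hk : k1 ≤ k2) (hz1 : Bt d (bs c t nn k1 • o) z1 (bs c t nn (k1 + 1) • o))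
    (hz2 : Bt d (bs c t nn k2 • o) z2 (bs c t nn (k2 + 1) • o)) (hu1 : d u z1 ≤ 13 * disp d c)
    (hv1 : d v z2 ≤ 13 * disp d c) (hu : ∃ y ∈ Y', d u (q • y) ≤ ρ)
    (hv : ∃ y ∈ Y', d v (q • y) ≤ ρ) (hD : 10 * (n0 * disp d c) ≤ d u v)
    (hT : 10 * T ≤ 9 * (n0 * disp d c)) :
    ∃ k : ℕ, ∀ i, i < 2 → ∃ w1 w2 : X, T ≤ d w1 w2 ∧
    (∃ y ∈ Y', d w1 y ≤ 200 * (δ + ρ + 1)) ∧ (∃ y ∈ Y', d w2 y ≤ 200 * (δ + ρ + 1)) ∧
    (∃ y ∈ Y', d w1 ((q⁻¹ * bc c t nn (k + i) * q) • y) ≤ 200 * (δ + ρ + 1)) ∧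
    (∃ y ∈ Y', d w2 ((q⁻¹ * bc c t nn (k + i) * q) • y) ≤ 200 * (δ + ρ + 1)) := by
  have hne : Nonempty X := ⟨o⟩
  obtain ⟨P, hP0, hPD, hP⟩ := hd.exists_geo u v
  have hbs' : IsBS G d (1000 * (δ + L1 + 1)) h c t o :=
    ⟨hbs.o_mem, le_trans (by omega) hbs.big, hbs.tper, hbs.move, hbs.ncomm, hbs.cent⟩
  obtain ⟨hk2, x, htr, hx0, hxD, hpos, hlen, hedge⟩ := h3 δ L1 G X d h n0 c t o nn hd hh hG hcsa
    hov hbs' (by omega) hexp.low hexp.up P (d u v) k1 k2 z1 z2 hP hz1 hz2 (by rw [hP0]; exact hu1)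
    (by rw [hPD]; exact hv1) hD hk
  obtain ⟨m, hm⟩ : ∃ m, m = k2 - (k1 + 1) := ⟨_, rfl⟩
  rw [← hm] at htr hxD hpos hlen hedge
  have hbig := hbs.big
  have hslen := hG.disp_le_slen hh hd c
  have hslen' : slen d c ≤ (disp d c : ℝ) := IsomAct.slen_le_disp c
  have hbigR : 1000 * ((δ : ℝ) + 1) ≤ (disp d c : ℝ) := by
    have : 1000 * (δ + 1) ≤ disp d c := by omega
    exact_mod_cast this
  have hδ0 : (0 : ℝ) ≤ δ := Nat.cast_nonneg δ
  -- upper bound of the intervals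
  have hup : ∀ i, i < m → x (i + 1) ≤ x i + (2 * (n0 * disp d c) + 49 * disp d c) := by
    intro i hi
    have h4 := (hlen i hi).2
    have h5 : (nn (k1 + 1 + i) : ℝ) ≤ 2 * n0 := by exact_mod_cast hexp.up _
    have h6 : (nn (k1 + 1 + i) : ℝ) * slen d c ≤ 2 * n0 * disp d c := by
      have h7 : (0 : ℝ) ≤ nn (k1 + 1 + i) := Nat.cast_nonneg _
      have h8 : (0 : ℝ) ≤ disp d c := Nat.cast_nonneg _
      nlinarith
    have h9 : (x (i + 1) : ℝ) ≤ x i + (2 * (n0 * disp d c) + 49 * disp d c) := by linarith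
    exact_mod_cast h9
  -- lower bound
  have hlo : ∀ i, i < m → 9 * (n0 * disp d c) + 1200 * disp d c ≤ 10 * (x (i + 1) - x i) := by
    intro i hi
    have h4 := (hlen i hi).1
    have h5 : (n0 : ℝ) ≤ nn (k1 + 1 + i) := by exact_mod_cast hexp.low _
    have h50 : (40000 : ℝ) ≤ n0 := by exact_mod_cast hn0
    have h51 : (6 * (δ : ℝ) + 2) ≤ 6 / 1000 * disp d c := by linarith
    have h52 : (994 / 1000 : ℝ) * disp d c ≤ slen d c := by linarith
    have h8 : (0 : ℝ) ≤ disp d c := Nat.cast_nonneg _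
    have h53 : (n0 : ℝ) * (994 / 1000 * disp d c) ≤ nn (k1 + 1 + i) * slen d c := by
      have : (0 : ℝ) ≤ n0 := by linarith
      exact mul_le_mul h5 h52 (by positivity) (by linarith)
    have h54 : (40000 : ℝ) * disp d c ≤ n0 * disp d c := by
      exact mul_le_mul_of_nonneg_right h50 h8
    have h9 : (9 * (n0 * disp d c) + 1200 * disp d c : ℝ) + 10 * x i ≤ 10 * x (i + 1) := by
      nlinarith
    have h10 : 9 * (n0 * disp d c) + 1200 * disp d c + 10 * x i ≤ 10 * x (i + 1) := by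
      exact_mod_cast h9
    omega
  have hcc0 : 49 * disp d c ≤ n0 * disp d c := Nat.mul_le_mul_right _ (by omega)
  have hccp : 1 ≤ disp d c := by omega
  have hnp : 40000 * 1 ≤ n0 * disp d c := Nat.mul_le_mul hn0 hccp
  have hm2 : 2 ≤ m := by
    by_contra hcon
    have hm01 : m = 0 ∨ m = 1 := by omega
    rcases hm01 with h | h
    · rw [h] at hxD
      omega
    · rw [h] at hxD
      have := hup 0 (by omega)
      rw [zero_add] at this
      omega
  have hpos' : ∀ i, i ≤ m → d (P (x i)) (bs c t nn (k1 + 1 + i) • o) ≤ 25 * disp d c := hpos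
  refine ⟨k1 + 1, fun i hi => ?_⟩
  have him : i < m := by omega
  have hl := hlo i him
  have hmono := htr.mono i him
  have hcore := fun s (hs1 : x i + 60 * disp d c ≤ s) (hs2 : s + 60 * disp d c ≤ x (i + 1)) =>
    core hd hh hG hbs (fun i => le_trans (by omega) (hexp.low i)) hY (q := q) htr hpos' hedge
      (by rw [hP0]; exact hu) (by rw [hPD]; exact hv) him hs1 hs2
  obtain ⟨a1, a2⟩ := hcore (x i + 60 * disp d c) le_rfl (by omega)
  obtain ⟨b1, b2⟩ := hcore (x (i + 1) - 60 * disp d c) (by omega) (by omega)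
  refine ⟨q⁻¹ • P (x i + 60 * disp d c), q⁻¹ • P (x (i + 1) - 60 * disp d c), ?_, a1, b1, a2, b2⟩
  rw [hG, hP _ _ (by omega) (by have := htr.le (i + 1) him; omega)]
  omega

end ESHIFT

theorem ESHIFT (h1 : Stmt_EREL) (h2 : Stmt_EPER) (h3 : Stmt_ETRA) : Stmt_ESHIFT := by
  intro δ L1 ρ G X _ _ d h n0 c t o nn Y' T hd hh hG hcsa hov hbs hn0 hh12 hexp hY q p1 p2 hp1 hp2
    hq1 hq2 hD hT
  have hbig := hbs.big
  have hbs' : IsBS G d (1000 * (δ + L1 + 1)) h c t o :=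
    ⟨hbs.o_mem, le_trans (by omega) hbs.big, hbs.tper, hbs.move, hbs.ncomm, hbs.cent⟩
  obtain ⟨-, hR, -⟩ := h1 δ L1 G X d h n0 c t o nn hd hh hG hcsa hov hbs' (by omega) hh12 hexp
  set R := rel c t nn h with hRd
  have hedge : ∀ p : X, (∃ y ∈ Mn d R, d p y ≤ ρ) → ∃ (r k : ℕ) (z : X),
      Bt d (bs c t nn k • o) z (bs c t nn (k + 1) • o) ∧ d (R ^ r • p) z ≤ 13 * disp d c := by
    rintro p ⟨y, hy, hpy⟩
    obtain ⟨r, k, z, hz, hz'⟩ := hR y hy
    refine ⟨r, k, z, hz, ?_⟩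
    have a1 := hd.tri (R ^ r • p) (R ^ r • y) z
    have a2 := hG (R ^ r) p y
    omega
  have hshift : ∀ (m k : ℕ) (p z : X), Bt d (bs c t nn k • o) z (bs c t nn (k + 1) • o) →
      d p z ≤ 13 * disp d c → Bt d (bs c t nn (k + m * (h + 1)) • o) (R ^ m • z)
        (bs c t nn (k + m * (h + 1) + 1) • o) ∧ d (R ^ m • p) (R ^ m • z) ≤ 13 * disp d c := by
    intro m k p z hz hz'
    have e1 := h2 G h c t nn hbs.tper hexp.per k m
    have e2 := h2 G h c t nn hbs.tper hexp.per (k + 1) m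
    have e3 : k + m * (h + 1) + 1 = k + 1 + m * (h + 1) := by ring
    rw [e3, e1, e2, mul_smul, mul_smul, hG.bt_smul, hG]
    exact ⟨hz, hz'⟩
  obtain ⟨r1, k1, z1, hz1, hz1'⟩ := hedge p1 hp1
  obtain ⟨r2, k2, z2, hz2, hz2'⟩ := hedge p2 hp2
  obtain ⟨f1, f2⟩ := hshift r2 k1 _ z1 hz1 hz1'
  obtain ⟨g1, g2⟩ := hshift r1 k2 _ z2 hz2 hz2'
  have e1 : R ^ r2 • (R ^ r1 • p1) = R ^ (r1 + r2) • p1 := by
    rw [smul_smul, ← pow_add, add_comm]
  have e2 : R ^ r1 • (R ^ r2 • p2) = R ^ (r1 + r2) • p2 := by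
    rw [smul_smul, ← pow_add]
  rw [e1] at f2
  rw [e2] at g2
  have hq : ∀ p : X, (∃ y ∈ Y', d p (q • y) ≤ ρ) →
      ∃ y ∈ Y', d (R ^ (r1 + r2) • p) ((R ^ (r1 + r2) * q) • y) ≤ ρ := by
    rintro p ⟨y, hy, hy'⟩
    exact ⟨y, hy, by rw [mul_smul, hG]; exact hy'⟩
  have hDD : d (R ^ (r1 + r2) • p1) (R ^ (r1 + r2) • p2) = d p1 p2 := hG _ _ _
  refine ⟨r1 + r2, ?_⟩
  rcases le_total (k1 + r2 * (h + 1)) (k2 + r1 * (h + 1)) with hk | hk
  · exact ESHIFT.main h3 hd hh hG hcsa hov hbs hn0 hexp hY hk f1 g1 f2 g2 (hq p1 hq1) (hq p2 hq2)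
      (by rw [hDD]; exact hD) hT
  · exact ESHIFT.main h3 hd hh hG hcsa hov hbs hn0 hexp hY hk g1 f1 g2 f2 (hq p2 hq2) (hq p1 hq1)
      (by rw [hd.comm, hDD]; exact hD) hT

end Pool.Agent.Olsh
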