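import Pool.Agent.Olsh.StmtsG
import Pool.Agent.Olsh.StmtsE

/-!
# ETRX: the track of a block system on a long geodesic near the axis of the relator
(sections 9 and 10 of `H92.md`)
-/

set_option autoImplicit false

namespace Pool.Agent.Olsh

namespace ETRX

variable {δ : ℕ} {G X : Type} [Group G] [MulAction G X] {d : X → X → ℕ}

/-- Change of the far end point in a Gromov product. -/
theorem gp_change (hd : IsGM d) (hh : Hyp d δ) {A w B B' : X} (h1 : GpLe d (4 * δ) A w B')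
    (h2 : d B B' + 10 * δ < d w B') : GpLe d (5 * δ) A w B := by
  have h3 := hh w A B B'
  have c1 := hd.comm A w
  unfold GpLe at *
  omega

/-- A point with small Gromov product: position on a geodesic path. -/
theorem pos (hd : IsGM d) (hh : Hyp d δ) {w : X} {P : ℕ → X} {D : ℕ} (hP : IsGeo d D P)
    (h1 : GpLe d (5 * δ) (P 0) w (P D)) :
    ∃ s, s ≤ D ∧ d (P s) w ≤ 7 * δ + 1 ∧ d (P 0) w ≤ s + (7 * δ + 1) ∧
      d w (P D) ≤ (D - s) + (7 * δ + 1) := by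
  obtain ⟨k, hk, hk'⟩ := hh.near_of_gp' hd h1
  have hDD : d (P 0) (P D) = D := by
    have := hP 0 D (Nat.zero_le _) le_rfl
    omega
  rw [hDD] at hk
  have a1 := hP 0 k (Nat.zero_le _) hk
  have a2 := hP k D hk le_rfl
  have a3 := hk' (P k) (hP.bt (Nat.zero_le _) hk le_rfl) (by omega)
  have a4 := hd.comm w (P k)
  have a5 := hd.tri (P 0) (P k) w
  have a6 := hd.tri w (P k) (P D)
  exact ⟨k, hk, by omega, by omega, by omega⟩

/-- The orbit of a point of the minimal set has small Gromov products. -/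
theorem gp_orbit (hd : IsGM d) (hh : Hyp d δ) (hG : IsomAct G d) {R : G} {z : X}
    (hz : z ∈ Mn d R) (hL : 1000 * (δ + 1) ≤ disp d R) (a M : ℕ) :
    GpLe d (4 * δ) (R ^ a • z) (R ^ (a + M) • z) (R ^ (a + 2 * M) • z) := by
  have h1 := (hG.isChain_orbit hh hd hz (by omega) (2 * M)).gp_ends hh hd (by omega) M (by omega)
  have h1' : GpLe d (2 * δ + 2 * δ) (R ^ 0 • z) (R ^ M • z) (R ^ (2 * M) • z) := h1
  rw [pow_zero, one_smul] at h1'
  have e1 := hG.dist_pow_pow R z a M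
  have e2 := hG.dist_pow_pow R z a (2 * M)
  have e3 := hG.dist_pow_pow R z (a + M) M
  have e4 := hG.dist_pow_pow R z M M
  have e5 : a + M + M = a + 2 * M := by omega
  have e6 : M + M = 2 * M := by omega
  rw [e5] at e3
  rw [e6] at e4
  unfold GpLe at *
  omega

end ETRX

theorem ETRX (h1 : Stmt_EREL) (h2 : Stmt_EPER) (h3 : Stmt_ETRA) (h4 : Stmt_ELEN) : Stmt_ETRX := by
  intro δ L1 G X _ _ d h n0 c t o nn hd hh hG hcsa hov hbs hn0 hh12 hexp z1 z2 hz1 hz2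
  have hne : Nonempty X := ⟨o⟩
  have hbig := hbs.big
  have hbs' : IsBS G d (1000 * (δ + 1)) h c t o :=
    ⟨hbs.o_mem, le_trans (by omega) hbs.big, hbs.tper, hbs.move, hbs.ncomm, hbs.cent⟩
  obtain ⟨hRlen, hR, -⟩ := h1 δ L1 G X d h n0 c t o nn hd hh hG hcsa hov hbs hn0 hh12 hexp
  obtain ⟨hcl, -⟩ := h4 δ G X d h c t o nn hd hh hG hbs'
  obtain ⟨R, hRd⟩ : ∃ R, R = rel c t nn h := ⟨_, rfl⟩
  rw [← hRd] at hz1 hz2 hRlen hR ⊢
  -- the stable length of `R`
  have hccR : (1000 : ℝ) * (δ + 1) ≤ disp d c := by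
    have : 1000 * (δ + 1) ≤ disp d c := by omega
    exact_mod_cast this
  have hδ0 : (0 : ℝ) ≤ δ := Nat.cast_nonneg δ
  have hn0R : (1000 : ℝ) ≤ n0 := by exact_mod_cast hn0
  have hhR : (12 : ℝ) ≤ h := by exact_mod_cast hh12
  have hcc0 : (0 : ℝ) ≤ disp d c := Nat.cast_nonneg _
  have hsR : (disp d c : ℝ) ≤ slen d R := by
    have a1 : (900 : ℝ) * disp d c ≤ n0 * slen d c - 24 * disp d c := by
      have : (1000 : ℝ) * (100 / 101 * disp d c) ≤ n0 * slen d c :=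
        mul_le_mul hn0R (by linarith) (by positivity) (by linarith)
      linarith
    have a2 : (13 : ℝ) * (900 * disp d c) ≤ (h + 1) * (n0 * slen d c - 24 * disp d c) :=
      mul_le_mul (by linarith) a1 (by positivity) (by linarith)
    linarith
  have hs1 : (1 : ℝ) ≤ slen d R := by linarith
  have hdispR : 1000 * (δ + 1) ≤ disp d R := by
    have a1 := IsomAct.slen_le_disp (d := d) R
    have a2 : (1000 * (δ + 1) : ℝ) ≤ disp d R := by linarith
    exact_mod_cast a2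
  have hlong : ∀ (z : X) (n : ℕ), n ≤ d z (R ^ n • z) := by
    intro z n
    have a1 := IsomAct.slen_mul_le (d := d) R z n
    have a2 : (n : ℝ) * 1 ≤ n * slen d R := mul_le_mul_of_nonneg_left hs1 (Nat.cast_nonneg _)
    have a3 : (n : ℝ) ≤ d z (R ^ n • z) := by linarith
    exact_mod_cast a3
  -- the points near the path
  obtain ⟨r1, k1, z1', hz1', hd1⟩ := hR z1 hz1
  obtain ⟨r2, k2, z2', hz2', hd2⟩ := hR z2 hz2
  have hshift : ∀ (m k : ℕ) (p z : X), Bt d (bs c t nn k • o) z (bs c t nn (k + 1) • o) →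
      d p z ≤ 12 * disp d c → Bt d (bs c t nn (k + m * (h + 1)) • o) (R ^ m • z)
        (bs c t nn (k + m * (h + 1) + 1) • o) ∧ d (R ^ m • p) (R ^ m • z) ≤ 12 * disp d c := by
    intro m k p z hz hz'
    have e1 := h2 G h c t nn hbs.tper hexp.per k m
    have e2 := h2 G h c t nn hbs.tper hexp.per (k + 1) m
    have e3 : k + m * (h + 1) + 1 = k + 1 + m * (h + 1) := by ring
    rw [← hRd] at e1 e2
    rw [e3, e1, e2, mul_smul, mul_smul, hG.bt_smul, hG]
    exact ⟨hz, hz'⟩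
  obtain ⟨E, hE⟩ : ∃ E, E = d z1 z2 := ⟨_, rfl⟩
  obtain ⟨M, hM⟩ : ∃ M, M = 10 * E + 100 * (n0 * disp d c) + 1000 * (δ + 1) + k1 + r2 := ⟨_, rfl⟩
  obtain ⟨f1, f2⟩ := hshift r2 k1 _ z1' hz1' hd1
  obtain ⟨g1, g2⟩ := hshift (r1 + 2 * M) k2 _ z2' hz2' hd2
  have e1 : R ^ r2 • (R ^ r1 • z1) = R ^ (r1 + r2) • z1 := by
    rw [smul_smul, ← pow_add, add_comm]
  have e2 : R ^ (r1 + 2 * M) • (R ^ r2 • z2) = R ^ (r1 + r2 + 2 * M) • z2 := by
    rw [smul_smul, ← pow_add]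
    congr 2
    omega
  rw [e1] at f2
  rw [e2] at g2
  have hkk : k1 + r2 * (h + 1) ≤ k2 + (r1 + 2 * M) * (h + 1) := by
    have a1 : (k1 + r2) * (h + 1) ≤ (r1 + 2 * M) * (h + 1) := Nat.mul_le_mul_right _ (by omega)
    have a2 : k1 * 1 ≤ k1 * (h + 1) := Nat.mul_le_mul_left _ (by omega)
    have a3 : (k1 + r2) * (h + 1) = k1 * (h + 1) + r2 * (h + 1) := by ring
    omega
  -- the geodesic
  obtain ⟨a, ha⟩ : ∃ a, a = r1 + r2 := ⟨_, rfl⟩
  rw [← ha] at f2 g2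
  obtain ⟨P, hP0, hPD, hP⟩ := hd.exists_geo (R ^ a • z1) (R ^ (a + 2 * M) • z2)
  obtain ⟨D, hD⟩ : ∃ D, D = d (R ^ a • z1) (R ^ (a + 2 * M) • z2) := ⟨_, rfl⟩
  rw [← hD] at hPD hP
  have hEz : ∀ n : ℕ, d (R ^ n • z1) (R ^ n • z2) = E := fun n => by rw [hG, hE]
  have hEz' : ∀ n : ℕ, d (R ^ n • z2) (R ^ n • z1) = E := fun n => by rw [hd.comm, hEz]
  have hDM : 10 * (n0 * disp d c) ≤ D := by
    have b1 := hlong z1 (2 * M)
    have b2 := hG.dist_pow_pow R z1 a (2 * M)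
    have b3 := hd.tri (R ^ a • z1) (R ^ (a + 2 * M) • z2) (R ^ (a + 2 * M) • z1)
    have b4 := hEz' (a + 2 * M)
    omega
  obtain ⟨hk2, x, htr, hx0, hxD, hpos, hlen, hedge⟩ := h3 δ L1 G X d h n0 c t o nn hd hh hG hcsa
    hov hbs hn0 hexp.low hexp.up P D (k1 + r2 * (h + 1)) (k2 + (r1 + 2 * M) * (h + 1)) _ _ hP f1
    g1 (by rw [hP0]; omega) (by rw [hPD]; omega) hDM hkk
  obtain ⟨k, hk⟩ : ∃ k, k = k1 + r2 * (h + 1) + 1 := ⟨_, rfl⟩
  obtain ⟨m, hm⟩ : ∃ m, m = k2 + (r1 + 2 * M) * (h + 1) - (k1 + r2 * (h + 1) + 1) := ⟨_, rfl⟩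
  rw [← hm] at htr hxD hpos hlen hedge
  rw [← hk] at htr hpos hlen hedge
  -- the positions
  have q1 : GpLe d (5 * δ) (P 0) (R ^ (a + M) • z1) (P D) := by
    rw [hP0, hPD]
    refine ETRX.gp_change hd hh (ETRX.gp_orbit hd hh hG hz1 hdispR a M) ?_
    have b1 := hlong z1 M
    have b2 := hG.dist_pow_pow R z1 (a + M) M
    have b4 := hEz' (a + 2 * M)
    have b5 : a + M + M = a + 2 * M := by omega
    rw [b5] at b2
    omega
  have q2 : GpLe d (5 * δ) (P 0) (R ^ (a + M) • z2) (P D) := by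
    rw [hP0, hPD]
    refine GpLe.symm hd (ETRX.gp_change hd hh
      ((ETRX.gp_orbit hd hh hG hz2 hdispR a M).symm hd) ?_)
    have b1 := hlong z2 M
    have b2 := hG.dist_pow_pow R z2 a M
    have b3 := hd.comm (R ^ a • z2) (R ^ (a + M) • z2)
    have b4 := hEz a
    omega
  obtain ⟨s1, hs1D, hs1a, hs1b, hs1c⟩ := ETRX.pos hd hh hP q1
  obtain ⟨s2, hs2D, hs2a, hs2b, hs2c⟩ := ETRX.pos hd hh hP q2
  refine ⟨a + M, k, m, D, s1, s2, P, x, htr, ?_, hpos, hedge, by omega, by omega, ?_, ?_, ?_, ?_⟩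
  · intro i hi
    have b1 := (hlen i hi).1
    have b2 : (n0 : ℝ) ≤ nn (k + i) := by exact_mod_cast hexp.low _
    have b3 : (n0 : ℝ) * (100 / 101 * disp d c) ≤ nn (k + i) * slen d c :=
      mul_le_mul b2 (by linarith) (by positivity) (by linarith)
    have b4 : (1000 : ℝ) * disp d c ≤ n0 * disp d c := mul_le_mul_of_nonneg_right hn0R hcc0
    have b5 : (9 * (n0 * disp d c) + 10 * x i : ℝ) ≤ 10 * x (i + 1) := by nlinarith
    exact_mod_cast b5
  · have b1 := hlong z1 M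
    have b2 := hG.dist_pow_pow R z1 a M
    rw [hP0] at hs1b
    omega
  · have b1 := hlong z1 M
    have b2 := hG.dist_pow_pow R z1 (a + M) M
    have b5 : a + M + M = a + 2 * M := by omega
    rw [b5] at b2
    rw [hPD] at hs1c
    have b3 := hd.tri (R ^ (a + M) • z1) (R ^ (a + 2 * M) • z2) (R ^ (a + 2 * M) • z1)
    have b4 := hEz' (a + 2 * M)
    omega
  · have b1 := hlong z2 M
    have b2 := hG.dist_pow_pow R z2 a M
    rw [hP0] at hs2b
    have b3 := hd.tri (R ^ a • z2) (R ^ a • z1) (R ^ (a + M) • z2)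
    have b4 := hEz' a
    omega
  · have b1 := hlong z2 M
    have b2 := hG.dist_pow_pow R z2 (a + M) M
    have b5 : a + M + M = a + 2 * M := by omega
    rw [b5] at b2
    rw [hPD] at hs2c
    omega

end Pool.Agent.Olsh
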