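import Pool.Agent.Olsh.StmtsG
import Pool.Agent.Olsh.Iso

/-!
# KLC: lengths of the words of a pair with `E_X ≤ e`
-/

set_option autoImplicit false

namespace Pool.Agent.Olsh

namespace KLC

variable {G X : Type} [Group G] [MulAction G X] {d : X → X → ℕ}

theorem mul_le (hd : IsGM d) (hG : IsomAct G d) {a b : G} {o : X} {m n : ℕ}
    (ha : d o (a • o) ≤ m) (hb : d o (b • o) ≤ n) : d o ((a * b) • o) ≤ m + n := by
  have h1 := hd.tri o (a • o) ((a * b) • o)
  have h2 : d (a • o) ((a * b) • o) = d o (b • o) := by rw [mul_smul, hG]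
  omega

theorem inv_le (hd : IsGM d) (hG : IsomAct G d) {a : G} {o : X} {m : ℕ}
    (ha : d o (a • o) ≤ m) : d o (a⁻¹ • o) ≤ m := by
  have h1 := hd.comm o (a⁻¹ • o)
  have h2 : d (a⁻¹ • o) o = d o (a • o) := by
    have := hG a (a⁻¹ • o) o
    rw [smul_inv_smul] at this
    exact this.symm
  omega

theorem pow_le (hd : IsGM d) (hG : IsomAct G d) {a : G} {o : X} {m : ℕ}
    (ha : d o (a • o) ≤ m) (n : ℕ) : d o (a ^ n • o) ≤ n * m :=
  (hG.pow_le hd a o n).trans (Nat.mul_le_mul_left n ha)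

end KLC

/-- Module KLC. -/
theorem KLC : Stmt_KLC := by
  intro D G X _ _ d hd hG e x y hE
  obtain ⟨o, hx, hy⟩ := hE
  have hP : d o (pW D.d x • o) ≤ D.d * e := KLC.pow_le hd hG hx _
  have hY : d o (yW D.k y • o) ≤ D.k * e := KLC.pow_le hd hG hy _
  have hQ : d o (qW D.d D.k x y • o) ≤ D.k * e + D.d * e + D.k * e :=
    KLC.mul_le hd hG (KLC.mul_le hd hG (KLC.inv_le hd hG hY) hP) hY
  have hg : d o (gW D.d D.k x y • o) ≤ 2 * (D.d + D.k) * e := by
    have h := KLC.mul_le hd hG hP (KLC.inv_le hd hG hQ)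
    have h2 : D.d * e + (D.k * e + D.d * e + D.k * e) = 2 * (D.d + D.k) * e := by ring
    rw [h2] at h
    exact h
  have ht : d o (teW D.d D.k x y • o) ≤ 2 * (D.d + D.k) * e := by
    have h := KLC.mul_le hd hG (KLC.inv_le hd hG hP) hQ
    have h2 : D.d * e + (D.k * e + D.d * e + D.k * e) = 2 * (D.d + D.k) * e := by ring
    rw [h2] at h
    exact h
  have hc : d o (cw D x y • o) ≤ CE D * e := by
    have h := KLC.mul_le hd hG (KLC.pow_le hd hG hg D.N) ht
    have h2 : D.N * (2 * (D.d + D.k) * e) + 2 * (D.d + D.k) * e = CE D * e := by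
      unfold CE
      ring
    rw [h2] at h
    exact h
  refine ⟨⟨o, hg⟩, ?_, ?_⟩
  · have h1 := IsomAct.slen_mul_le (d := d) (gW D.d D.k x y) o 1
    rw [pow_one, Nat.cast_one, one_mul] at h1
    exact h1.trans (by exact_mod_cast hg)
  · exact (disp_le (d := d) _ o).trans hc

end Pool.Agent.Olsh
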