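import Pool.Agent.Olsh.StmtsG

/-!
# MP_3cdb71_al, module OLG_KOV: the overlap condition for the killed family
-/

set_option autoImplicit false

namespace Pool.Agent.Olsh

theorem KOV (h1 : Stmt_OVS) (h2 : Stmt_KLC) : Stmt_KOV := by
  intro D c η1 u ρ L1 ok hη hrr hV hB hLS hu hTS G X _ _ d SP st dir s t hst v w hvs hvt hws hwt
  by_contra hlt
  have hlt' : u < 100 * d v w := not_le.mp hlt
  have gm := st.lev.gm
  have isom := st.lev.isom
  have key : ∀ s t : KS (G := G) D d c.T, v ∈ Nd d η1 (KY D d c.T s) →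
      w ∈ Nd d η1 (KY D d c.T s) → v ∈ Nd d η1 (KY D d c.T t) →
      w ∈ Nd d η1 (KY D d c.T t) →
      Ovp d η1 (KY D d c.T s) (KY D d c.T t) (1 : G) (d v w) := by
    intro s t a1 a2 ⟨b1, c1, e1⟩ ⟨b2, c2, e2⟩
    exact ⟨v, w, a1, a2, ⟨b1, c1, by rw [one_smul]; exact e1⟩,
      ⟨b2, c2, by rw [one_smul]; exact e2⟩, le_refl _⟩
  have hov := key s t hvs hws hvt hwt
  have hov' := key t s hvt hwt hvs hws
  obtain ⟨x, y, hk, hs⟩ := KS.ex isom s
  obtain ⟨x', y', hk', ht⟩ := KS.ex isom t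
  have hc := (h2 D G X d gm isom c.T x y hk.2.2).2.2
  have hc' := (h2 D G X d gm isom c.T x' y' hk'.2.2).2.2
  have hKs : KY D d c.T s = Mn d (lw D x y) := by
    unfold KY
    rw [hs]
  have hKt : KY D d c.T t = Mn d (lw D x' y') := by
    unfold KY
    rw [ht]
  have bound : ∀ e : ℕ, e ≤ CE D * c.T → 100 * (c.n0 * (e + CE D * c.T)) ≤ d v w := by
    intro e he
    have h3 : c.n0 * (e + CE D * c.T) ≤ c.n0 * (2 * (CE D * c.T)) :=
      Nat.mul_le_mul (le_refl _) (by omega)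
    have h4 : c.n0 * (2 * (CE D * c.T)) = 2 * (c.n0 * (CE D * c.T)) := by ring
    omega
  rcases st.cls x y hk.1 hk.2.1 with hg | hsp
  · have h5 := h1 D c η1 ρ L1 ok hη hrr hV hB hLS G X d SP st dir x y hg t (d v w)
      (by rw [← hKs]; exact hov) (bound _ hc)
    exact hst (Subtype.ext (hs.trans h5))
  · rcases st.cls x' y' hk'.1 hk'.2.1 with hg' | hsp'
    · have h5 := h1 D c η1 ρ L1 ok hη hrr hV hB hLS G X d SP st dir x' y' hg' s (d v w)
        (by rw [← hKt]; exact hov') (bound _ hc')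
      exact hst (Subtype.ext (ht.trans h5)).symm
    · rw [hKs, hKt] at hov
      obtain ⟨b, r, hb1, hb2, hb3, hb4, hb5⟩ := st.sps x y x' y' hsp hsp' 1
        (hov.mono (by omega) (by omega))
      have hbr : b = (lw D x' y' ^ r)⁻¹ := eq_inv_of_mul_eq_one_left hb4.symm
      have h6 : b * lw D x' y' * b⁻¹ = lw D x' y' := by
        rw [hbr, inv_inv]
        have h7 : Commute (lw D x' y') (lw D x' y' ^ r) := (Commute.refl _).zpow_right r
        rw [mul_assoc, h7.eq, inv_mul_cancel_left]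
      exact hst (Subtype.ext (by rw [hs, ht, ← hb3, h6]))

end Pool.Agent.Olsh
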