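import Pool.Agent.Olsh.StmtsG
import Pool.Agent.Olsh.Axis

/-!
# MP_3cdb71_al: KROT, stabilisers and rotation of the killed family
-/

set_option autoImplicit false

namespace Pool.Agent.Olsh

namespace KROT

/-- A `B`-pair is a direct pair. -/
theorem gpair {G X : Type} [Group G] [MulAction G X] {d : X → X → ℕ} {D k C V B : ℕ} {x y : G}
    (hV : 1 ≤ V) (hC : C ≤ B) (h : GPair d D k 1 C x y) :
    GPair d D k V B x y ∧ 1 ≤ slen d (gW D k x y) := by
  obtain ⟨h1, h2, o, h3, h4⟩ := h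
  have h2' : 1 ≤ slen d (gW D k x y) := by simpa using h2
  have hV' : (1 : ℝ) ≤ V := by exact_mod_cast hV
  have hC' : (C : ℝ) ≤ B := by exact_mod_cast hC
  have h5 : (C : ℝ) * (slen d (gW D k x y) + 1) ≤ B * (slen d (gW D k x y) + 1) :=
    mul_le_mul_of_nonneg_right hC' (by linarith)
  exact ⟨⟨h1, by nlinarith, o, h3.trans h5, h4.trans h5⟩, h2'⟩

/-- The minimal sets of `R` and `r R` overlap as long as we want if `r` commutes with `R`. -/
theorem ovp {G X : Type} [Group G] [MulAction G X] {d : X → X → ℕ} (hd : IsGM d) [Nonempty X]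
    (hh : Hyp d dl) (hG : IsomAct G d) {R r : G} (hR : 100 * dl + 100 ≤ disp d R)
    (hc : Commute r R) (l : ℕ) : Ovp d 0 (Mn d R) (Mn d R) r l := by
  obtain ⟨v, hv⟩ := Mn_nonempty (d := d) R
  have hw : R ^ l • v ∈ Mn d R :=
    (hG.smul_mem_Mn_of_commute ((Commute.refl R).pow_left l) v).2 hv
  have h1 := hG.disp_le_slen hh hd R
  have h2 : (100 * dl + 100 : ℝ) ≤ disp d R := by exact_mod_cast hR
  have h3 : (0 : ℝ) ≤ dl := Nat.cast_nonneg _
  have h4 : (1 : ℝ) ≤ slen d R := by linarith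
  have h5 := IsomAct.slen_mul_le (d := d) R v l
  have h6 : (l : ℝ) ≤ d v (R ^ l • v) := by
    have : (l : ℝ) * 1 ≤ l * slen d R := mul_le_mul_of_nonneg_left h4 (Nat.cast_nonneg _)
    linarith
  have h7 : l ≤ d v (R ^ l • v) := by exact_mod_cast h6
  have hci : Commute r⁻¹ R := hc.inv_left
  refine ⟨v, R ^ l • v, ⟨v, hv, (hd.self v).le⟩, ⟨_, hw, (hd.self _).le⟩,
    ⟨r⁻¹ • v, (hG.smul_mem_Mn_of_commute hci v).2 hv, ?_⟩,
    ⟨r⁻¹ • (R ^ l • v), (hG.smul_mem_Mn_of_commute hci _).2 hw, ?_⟩, h7⟩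
  · rw [smul_inv_smul]
    exact (hd.self v).le
  · rw [smul_inv_smul]
    exact (hd.self _).le

end KROT

theorem KROT (h1 : Stmt_RLEN) : Stmt_KROT := by
  intro D c ρ L1 ok hV hC hLS hH G X _ _ d SP st dir s
  have hd := dir.gm
  have hh := dir.hyp
  have hG := dir.isom
  have := dir.ne
  obtain ⟨x, y, ⟨k1, k2, k3⟩, hs⟩ := KS.ex hG s
  have key : c.LS ≤ disp d (lw D x y) ∧ ∀ r : G, (∀ l, Ovp d 0 (Mn d (lw D x y))
      (Mn d (lw D x y)) r l) → Cnj D x y x y r := by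
    rcases st.cls x y k1 k2 with hg | hg
    · obtain ⟨hg', hg1⟩ := KROT.gpair hV hC hg
      have h2 := h1 D c.n0 c.V c.B ρ L1 ok G X d dir x y hg' hg1
      exact ⟨by omega, fun r hr => dir.e85 x y x y hg' hg' r ((hr _).mono (Nat.zero_le _) le_rfl)⟩
    · exact ⟨st.spl x y hg, fun r hr =>
        st.sps x y x y hg hg r ((hr _).mono (Nat.zero_le _) le_rfl)⟩
  rw [← hs] at key
  obtain ⟨key1, key2⟩ := key
  refine ⟨key1, fun r hr => ?_⟩
  have hc : Commute r s.1 := by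
    have h2 : r * s.1 * r⁻¹ = s.1 := by
      rw [← KS.smul_val, hr]
    show r * s.1 = s.1 * r
    conv_rhs => rw [← h2]
    rw [inv_mul_cancel_right]
  have hR : 100 * dl + 100 ≤ disp d s.1 := hLS.trans key1
  obtain ⟨b, m, -, -, -, hq, hb⟩ := key2 r fun l => KROT.ovp hd hh hG hR hc l
  rw [hb ⟨rfl, rfl⟩, one_mul, ← hs] at hq
  refine ⟨⟨m, hq⟩, fun hne y hy => ?_⟩
  have hm : m ≠ 0 := by
    rintro rfl
    exact hne (by rw [hq, zpow_zero])
  have hy' : y ∈ Mn d s.1 := hy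
  have h3 : d y (r • y) = d y (s.1 ^ m.natAbs • y) := by
    rcases Int.natAbs_eq m with h4 | h4
    · rw [hq]
      conv_lhs => rw [h4]
      rw [zpow_natCast]
    · rw [hq]
      conv_lhs => rw [h4]
      rw [zpow_neg, zpow_natCast, hd.comm, hG.inv]
  have h4 := hG.dist_pow_ge hh hd hy' (by omega) m.natAbs
  obtain ⟨n, hn⟩ : ∃ n, m.natAbs = n + 1 := ⟨m.natAbs - 1, by omega⟩
  rw [h3]
  rw [hn] at h4 ⊢
  have h5 : n * (6 * dl) ≤ n * disp d s.1 := Nat.mul_le_mul_left n (by omega)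
  have h6 : (n + 1) * disp d s.1 = n * disp d s.1 + disp d s.1 := by ring
  have h7 : n + 1 - 1 = n := by omega
  rw [h7] at h4
  omega

end Pool.Agent.Olsh

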