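import Pool.Agent.Olsh.StmtsG
import Pool.Agent.Olsh.TR

/-!
# MP_3cdb71_al: overlaps of axes in the quotient lift to overlaps in `X`
-/

set_option autoImplicit false

namespace Pool.Agent.Olsh

namespace LOV

/-- A point between two points of a translate `g • M` of a minimal set is close to `g • M`. -/
theorem near_smul {G X : Type} [Group G] [MulAction G X] {d : X → X → ℕ} (hI : IsomAct G d)
    {M : Set X} {e : ℕ} (hM : QConv d e M) (g : G) {w1 w2 v : X} (h1 : w1 ∈ M) (h2 : w2 ∈ M)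
    (hv : Bt d (g • w1) v (g • w2)) : ∃ z ∈ M, d v (g • z) ≤ e := by
  have e1 : ∀ a b : X, d (g⁻¹ • a) b = d a (g • b) := fun a b => hI.inv g a b
  have e2 : ∀ a b : X, d a (g⁻¹ • b) = d (g • a) b := by
    intro a b
    rw [← hI g a (g⁻¹ • b), smul_inv_smul]
  have h3 : Bt d w1 (g⁻¹ • v) w2 := by
    show d w1 (g⁻¹ • v) + d (g⁻¹ • v) w2 = d w1 w2
    rw [e1, e2, ← hI g w1 w2]
    exact hv
  obtain ⟨z, hz, hz'⟩ := hM w1 h1 w2 h2 _ h3
  exact ⟨z, hz, by rwa [e1] at hz'⟩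

end LOV

theorem LOV (h1 : Stmt_AXQ) (h2 : Stmt_TR) (h3 : Stmt_LAM) (h4 : Stmt_CONEGM) (h6 : Stmt_QGM) :
    Stmt_LOV := by
  intro η η1 C
  obtain ⟨K1, hK1⟩ := h1 η η1 C
  obtain ⟨C', hC'⟩ := h3 η η1 C
  refine ⟨K1 + C' + (59 * dl + 5) + (37 * dl + 5), fun r B => ?_⟩
  obtain ⟨U1, hU1⟩ := hK1 B
  obtain ⟨a, ha⟩ : ∃ a, a = 2 * r + 2 * K1 := ⟨_, rfl⟩
  refine ⟨a + 5 + 2 * ((a + 1) * (B + C' * (1 + a))), U1 + C' + 10 * B + 1, ?_⟩
  intro G G' X S A' _ _ _ _ _ d u L Y d' π q H hu hL R R' hR hR' hdR hdR' g' l hl hov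
  have hd : IsGM d := H.gm
  have hh : Hyp d dl := H.hyp
  have hI : IsomAct G d := H.isom
  have hcd : IsGM (cd d u Y) := H.rotc.gm
  have hu1 : 1 ≤ u := by omega
  obtain ⟨hd', hI'⟩ := h6 G (X ⊕ S) G' A' (cd d u Y) _ d' π q hcd H.rotc.isom H.quot
  have hUu : U1 * u ≤ L := le_trans (Nat.mul_le_mul_right u (by omega)) hL
  have hBu : 10 * (B * u) ≤ L := by
    have e : 10 * B * u ≤ (U1 + C' + 10 * B + 1) * u := Nat.mul_le_mul_right u (by omega)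
    have e' : 10 * (B * u) = 10 * B * u := by ring
    omega
  -- displacements
  have hone : 1 ≤ (B + 1) * u := Nat.mul_pos (by omega) hu1
  have dsp : ∀ Q : G, (K1 + C' + (59 * dl + 5) + (37 * dl + 5)) * ((B + 1) * u) ≤ disp d Q →
      K1 * ((B + 1) * u) ≤ disp d Q ∧ 37 * dl + 5 ≤ disp d Q := by
    intro Q hQ
    constructor
    · exact le_trans (Nat.mul_le_mul_right _ (by omega)) hQ
    · refine le_trans ?_ hQ
      calc 37 * dl + 5 = (37 * dl + 5) * 1 := (Nat.mul_one _).symm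
        _ ≤ (K1 + C' + (59 * dl + 5) + (37 * dl + 5)) * ((B + 1) * u) :=
          Nat.mul_le_mul (by omega) hone
  obtain ⟨dR1, dR2⟩ := dsp R hdR
  obtain ⟨dR3, dR4⟩ := dsp R' hdR'
  obtain ⟨-, -, aR, -⟩ := hU1 G G' X S A' d u L Y d' π q H (by omega) hUu R hR dR1
  obtain ⟨-, -, aR', -⟩ := hU1 G G' X S A' d u L Y d' π q H (by omega) hUu R' hR' dR3
  obtain ⟨p1, p2, ⟨z1, hz1, hz1'⟩, ⟨z2, hz2, hz2'⟩, ⟨z3, hz3, hz3'⟩, ⟨z4, hz4, hz4'⟩, hp⟩ := hov
  obtain ⟨v1, hv1, hv1'⟩ := aR z1 hz1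
  obtain ⟨v2, hv2, hv2'⟩ := aR z2 hz2
  obtain ⟨w1, hw1, hw1'⟩ := aR' z3 hz3
  obtain ⟨w2, hw2, hw2'⟩ := aR' z4 hz4
  -- the translate
  have hclose : ∀ (p z z' x x' : A'), d' p z ≤ r → d' z x ≤ K1 → d' p (g' • z') ≤ r →
      d' z' x' ≤ K1 → d' x (g' • x') ≤ a := by
    intro p z z' x x' e1 e2 e3 e4
    have e5 := hd'.comm x z
    have e6 := hd'.comm p z
    have e7 := hd'.tri x z p
    have e8 := hd'.tri x p (g' • z')
    have e9 := hd'.tri x (g' • z') (g' • x')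
    have e10 := hI' g' z' x'
    have e11 := hd'.comm z p
    omega
  have c1 := hclose p1 z1 z3 _ _ hz1' hv1' hz3' hw1'
  have c2 := hclose p2 z2 z4 _ _ hz2' hv2' hz4' hw2'
  obtain ⟨g, hg, hg1, hg2⟩ := h2 G (X ⊕ S) G' A' (cd d u Y) (apx X S) (cdX d) (C * u) L d' π q
    H.rotc H.quot (Sum.inl v1) (Sum.inl v2) (Sum.inl w1) (Sum.inl w2)
    (by rintro ⟨s, hs⟩; cases hs) (by rintro ⟨s, hs⟩; cases hs)
    (by rintro ⟨s, hs⟩; cases hs) (by rintro ⟨s, hs⟩; cases hs)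
    (by
      rintro _ ⟨s, rfl⟩
      have e1 := hR v1 hv1 v2 hv2 s
      have e2 := hR' w1 hw1 w2 hw2 s
      unfold angC at e1 e2
      constructor <;> omega) g'
  -- back to X
  have hLam := hC' X S d u Y H.conep (by omega) a (B * u) _ v1 v2 (g • w1) (g • w2) rfl
    (fun s => hR v1 hv1 v2 hv2 s)
    (by
      intro s
      have e := TR.ang_smul H.rotc g (Sum.inr (g⁻¹ • s)) ⟨_, rfl⟩ (Sum.inl w1) (Sum.inl w2)
      have e' : g • (Sum.inr (g⁻¹ • s) : X ⊕ S) = Sum.inr s := by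
        rw [Sum.smul_inr, smul_inv_smul]
      rw [e', Sum.smul_inl, Sum.smul_inl] at e
      rw [e]
      exact hR' w1 hw1 w2 hw2 (g⁻¹ • s))
    (by
      have e : cd d u Y (Sum.inl v1) (g • Sum.inl w1) ≤ a := by rw [hg1]; exact c1
      rwa [Sum.smul_inl] at e)
    (by
      have e : cd d u Y (Sum.inl v2) (g • Sum.inl w2) ≤ a := by rw [hg2]; exact c2
      rwa [Sum.smul_inl] at e)
  obtain ⟨lam, hlam⟩ : ∃ lam, lam = (a + 1) * (B * u + C' * (u + a)) := ⟨_, rfl⟩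
  rw [← hlam] at hLam
  obtain ⟨M, hM⟩ : ∃ M, M = (a + 1) * (B + C' * (1 + a)) := ⟨_, rfl⟩
  rw [← hM] at hl
  rw [← hM]
  have hlamM : lam ≤ M * u := by
    rw [hlam, hM, Nat.mul_assoc]
    refine Nat.mul_le_mul_left _ ?_
    have e1 : a ≤ a * u := Nat.le_mul_of_pos_right a hu1
    have e2 : C' * (u + a) ≤ C' * ((1 + a) * u) := by
      refine Nat.mul_le_mul_left _ ?_
      nlinarith
    nlinarith
  -- the length of `[v1, v2]`
  have hcdl : l ≤ cd d u Y (Sum.inl v1) (Sum.inl v2) + a := by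
    have e1 := H.quot.le (Sum.inl v1) (Sum.inl v2)
    have e2 := hd'.tri p1 z1 p2
    have e3 := hd'.tri z1 (q (Sum.inl v1)) p2
    have e4 := hd'.tri (q (Sum.inl v1)) (q (Sum.inl v2)) p2
    have e5 := hd'.tri (q (Sum.inl v2)) z2 p2
    have e6 := hd'.comm (q (Sum.inl v2)) z2
    have e7 := hd'.comm z2 p2
    omega
  have hlen : (l - a - 1) * u + 1 ≤ d v1 v2 := by
    by_contra hcon
    have e1 := (h4 X S d u Y hd hu1 H.ne).2.2 (l - a - 1) v1 v2 (by omega)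
    omega
  have hlen2 : (l - (a + 5 + 2 * M)) * u + 2 * lam + 2 ≤ d v1 v2 := by
    obtain ⟨t, rfl⟩ := Nat.exists_eq_add_of_le hl
    have e1 : a + 5 + 2 * M + t - (a + 5 + 2 * M) = t := by omega
    have e2 : a + 5 + 2 * M + t - a - 1 = 2 * M + t + 4 := by omega
    rw [e1]
    rw [e2] at hlen
    have e3 : (2 * M + t + 4) * u = 2 * (M * u) + t * u + 4 * u := by ring
    omega
  have hq1 := hI.mn_qconv hh hd dR2
  have hq2 := hI.mn_qconv hh hd dR4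
  obtain ⟨P, hP0, hP1, hP⟩ := hd.exists_geo v1 v2
  have hnear : ∀ i, lam < i → i + lam < d v1 v2 →
      (∃ z ∈ Mn d R, d (P i) z ≤ K1 + C' + (59 * dl + 5) + (37 * dl + 5)) ∧
      ∃ z ∈ Mn d R', d (P i) (g • z) ≤ K1 + C' + (59 * dl + 5) + (37 * dl + 5) := by
    intro i hi1 hi2
    have hb : Bt d v1 (P i) v2 := by
      have := hP.bt (Nat.zero_le i) (show i ≤ d v1 v2 by omega) le_rfl
      rwa [hP0, hP1] at this
    have e1 : d v1 (P i) = i := by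
      have := hP 0 i (Nat.zero_le _) (by omega)
      rw [hP0] at this
      omega
    have e2 : d v1 (P i) + d (P i) v2 = d v1 v2 := hb
    obtain ⟨v', hv', hvv', -⟩ := hLam (P i) hb (by omega) (by omega)
    constructor
    · obtain ⟨z, hz, hz'⟩ := hq1 v1 hv1 v2 hv2 _ hb
      exact ⟨z, hz, by omega⟩
    · obtain ⟨z, hz, hz'⟩ := LOV.near_smul hI hq2 g hw1 hw2 hv'
      have e3 := hd.tri (P i) v' (g • z)
      exact ⟨z, hz, by omega⟩
  obtain ⟨n1, n2⟩ := hnear (lam + 1) (by omega) (by omega)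
  obtain ⟨n3, n4⟩ := hnear (d v1 v2 - lam - 1) (by omega) (by omega)
  refine ⟨g, hg, P (lam + 1), P (d v1 v2 - lam - 1), n1, n3, n2, n4, ?_⟩
  have e1 := hP (lam + 1) (d v1 v2 - lam - 1) (by omega) (by omega)
  omega

end Pool.Agent.Olsh
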