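import Pool.Agent.Olsh.StmtsG
import Pool.Agent.Olsh.StmtsE

/-!
# MP_3cdb71_al: OVB (the overlap of a set with the axis of a relator)

If the shifts of the quasi-convex set `Y` by the block generators overlap `Y` in at most `U0`,
then the overlap of `Y` and the axis of `R` is at most `(2 M + 4) (U0 + 100 |c|)`.
-/

set_option autoImplicit false

namespace Pool.Agent.Olsh

namespace OVB

section

variable {X : Type} {d : X → X → ℕ} {δ : ℕ}

/-- A point of the edge `[S, S']` close to the middle of the geodesic `P` on `[a, b]` is close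
to a point of that geodesic. -/
theorem near_path (hd : IsGM d) (hh : Hyp d δ) {D a b lam s r : ℕ} {P : ℕ → X}
    (hP : IsGeo d D P) (hb : b ≤ D) {S S' z : X} (hS : d (P a) S ≤ 25 * lam)
    (hS' : d (P b) S' ≤ 25 * lam) (hz : Bt d S z S') (h1 : a + 28 * lam ≤ s)
    (h2 : s + 28 * lam ≤ b) (hr : d (P s) z ≤ r) (hr' : r + 8 * δ < 3 * lam) :
    ∃ s', a ≤ s' ∧ s' ≤ b ∧ d z (P s') ≤ 12 * δ := by
  have hs := hh.slim hd
  have e1 := hP a s (by omega) (by omega)
  have e2 := hP s b (by omega) (by omega)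
  obtain ⟨v1, hv1, k1⟩ := hs S S' (P a) z hz
  rcases hv1 with hv1 | hv1
  · exfalso
    have f1 := hd.comm (P a) S
    have f2 := hd.comm v1 (P a)
    have f3 := hd.tri (P a) v1 z
    have f4 := hd.comm v1 z
    have f5 := hd.tri (P a) z (P s)
    have f6 := hd.comm z (P s)
    unfold Bt at hv1
    omega
  · obtain ⟨v2, hv2, k2⟩ := hs (P a) S' (P b) v1 hv1
    have g1 := hd.tri z v1 v2
    rcases hv2 with hv2 | hv2
    · have g2 := hP a b (by omega) hb
      have g3 : d (P a) v2 ≤ b - a := by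
        unfold Bt at hv2
        omega
      have g4 := hP.bt (i := a) (j := a + d (P a) v2) (k := b) (by omega) (by omega) hb
      have g5 := hP a (a + d (P a) v2) (by omega) (by omega)
      have g6 := hh.fellow hd hv2 g4 (by omega) (by
        have := hd.self (P b)
        omega)
      refine ⟨a + d (P a) v2, by omega, by omega, ?_⟩
      have g7 := hd.tri z v2 (P (a + d (P a) v2))
      omega
    · exfalso
      have f3 := hd.tri (P s) z v2
      have f4 := hd.tri (P s) v2 (P b)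
      have f5 := hd.comm v2 (P b)
      unfold Bt at hv2
      omega

/-- Monotonicity of the positions. -/
theorem mono_le {m : ℕ} {x : ℕ → ℕ} (hx : ∀ i, i < m → x i ≤ x (i + 1)) :
    ∀ j i, i ≤ j → j ≤ m → x i ≤ x j := by
  intro j
  induction j with
  | zero =>
    intro i hi _
    have : i = 0 := by omega
    rw [this]
  | succ j ih =>
    intro i hi hj
    rcases Nat.lt_or_ge j i with h | h
    · have : i = j + 1 := by omega
      rw [this]
    · exact (ih i h (by omega)).trans (hx j (by omega))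

/-- Pigeonhole: one of the `K + 1` parts of length `w` contains no position in its interior. -/
theorem parts {m K w a q : ℕ} {x : ℕ → ℕ} (hx : ∀ i, i < m → x i ≤ x (i + 1))
    (hsp : ∀ i, i < m → q + 10 * x i ≤ 10 * x (i + 1)) (h0 : x 0 ≤ a)
    (hm : a + (K + 1) * w ≤ x m) (hw : 0 < w) (hK : 10 * ((K + 1) * w) < q * K) :
    ∃ j i, j < K + 1 ∧ i < m ∧ x i ≤ a + j * w ∧ a + (j + 1) * w ≤ x (i + 1) := by
  by_contra hcon
  push Not at hcon
  have hbad : ∀ j, j < K + 1 → ∃ i, i ≤ m ∧ a + j * w < x i ∧ x i < a + (j + 1) * w := by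
    intro j hj
    have hjw : j * w + w ≤ (K + 1) * w := by
      calc j * w + w = (j + 1) * w := by ring
        _ ≤ (K + 1) * w := Nat.mul_le_mul_right w hj
    obtain ⟨i, hi⟩ : ∃ i, i = Nat.findGreatest (fun i => x i ≤ a + j * w) m := ⟨_, rfl⟩
    have hi1 : x i ≤ a + j * w := by
      rw [hi]
      exact Nat.findGreatest_spec (P := fun i => x i ≤ a + j * w) (m := 0) (Nat.zero_le _)
        (by omega)
    have hi2 : i ≤ m := by
      rw [hi]
      exact Nat.findGreatest_le m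
    have hi3 : i < m := by
      rcases Nat.lt_or_ge i m with h | h
      · exact h
      · exfalso
        have : i = m := by omega
        rw [this] at hi1
        omega
    have hi4 : ¬ x (i + 1) ≤ a + j * w := by
      refine Nat.findGreatest_is_greatest (P := fun i => x i ≤ a + j * w) (n := m) ?_ hi3
      omega
    exact ⟨i + 1, hi3, by omega, hcon j i hj hi3 hi1⟩
  have key : ∀ j, j < K + 1 → ∃ i, i ≤ m ∧ x i < a + (j + 1) * w ∧ q * j + 10 * a ≤ 10 * x i := by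
    intro j
    induction j with
    | zero =>
      intro hj
      obtain ⟨i, h1, h2, h3⟩ := hbad 0 hj
      exact ⟨i, h1, h3, by omega⟩
    | succ j ih =>
      intro hj
      obtain ⟨i, h1, h2, h3⟩ := ih (by omega)
      obtain ⟨i', h4, h5, h6⟩ := hbad (j + 1) hj
      have h7 : i < i' := by
        by_contra h
        have := mono_le hx i i' (by omega) h1
        omega
      have h8 := hsp i (by omega)
      have h9 := mono_le hx i' (i + 1) (by omega) h4
      refine ⟨i', h4, h6, ?_⟩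
      have h10 : q * (j + 1) = q * j + q := by ring
      omega
  obtain ⟨i, h1, h2, h3⟩ := key K (by omega)
  have h4 : q * K ≤ 10 * ((K + 1) * w) := by
    have : 10 * x i ≤ 10 * (a + (K + 1) * w) := by omega
    have h5 : 10 * (a + (K + 1) * w) = 10 * a + 10 * ((K + 1) * w) := by ring
    omega
  omega

end

section

variable {G X : Type} [Group G] [MulAction G X] {d : X → X → ℕ} {δ : ℕ}

theorem inv_smul_dist (hG : IsomAct G d) (g : G) (x y : X) : d (g⁻¹ • x) y = d x (g • y) := by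
  have h := hG g (g⁻¹ • x) y
  rw [smul_inv_smul] at h
  exact h.symm

theorem bt_smul (hG : IsomAct G d) (g : G) {x y z : X} (h : Bt d x z y) :
    Bt d (g • x) (g • z) (g • y) := by
  unfold Bt at *
  rw [hG, hG, hG]
  exact h

/-- The points of the middle part of `P` are close to `g Y`. -/
theorem close_Y (hd : IsGM d) (hh : Hyp d δ) (hG : IsomAct G d) {D s1 s2 s ρ : ℕ} {P : ℕ → X}
    (hP : IsGeo d D P) (hs2 : s2 ≤ D) {Y : Set X} (hY : QConv d (59 * δ + 5) Y) {g : G}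
    {y1 y2 : X} (hy1 : y1 ∈ Y) (hy2 : y2 ∈ Y) (h1 : d (P s1) (g • y1) ≤ 30 * δ + 10 + 2 * ρ)
    (h2 : d (P s2) (g • y2) ≤ 30 * δ + 10 + 2 * ρ) (ha : s1 + (38 * δ + 11 + 2 * ρ) ≤ s)
    (hb : s + (38 * δ + 11 + 2 * ρ) ≤ s2) : ∃ y ∈ Y, d (P s) (g • y) ≤ 67 * δ + 5 := by
  have hz := bt_smul hG g⁻¹ (hP.bt (i := s1) (j := s) (k := s2) (by omega) (by omega) hs2)
  have e1 := hP s1 s (by omega) (by omega)
  have e2 := hP s s2 (by omega) hs2
  obtain ⟨y, hy, hy'⟩ := hY.middle hh hd hy1 hy2 (a := 30 * δ + 10 + 2 * ρ)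
    (by rw [inv_smul_dist hG]; exact h1) (by rw [inv_smul_dist hG]; exact h2) hz
    (by rw [hG, e1]; omega) (by rw [hG, e2]; omega)
  rw [inv_smul_dist hG] at hy'
  exact ⟨y, hy, by omega⟩

/-- The claim for one piece. -/
theorem piece (hd : IsGM d) (hh : Hyp d δ) (hG : IsomAct G d) {lam ρ D s1 s2 a0 b0 a b U0 : ℕ}
    (hlam : 1000 * (δ + ρ + 1) ≤ lam) {P : ℕ → X} (hP : IsGeo d D P) (hs2 : s2 ≤ D)
    {Y : Set X} (hY : QConv d (59 * δ + 5) Y) {g : G} {y1 y2 : X} (hy1 : y1 ∈ Y) (hy2 : y2 ∈ Y)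
    (h1 : d (P s1) (g • y1) ≤ 30 * δ + 10 + 2 * ρ)
    (h2 : d (P s2) (g • y2) ≤ 30 * δ + 10 + 2 * ρ) (hb0 : b0 ≤ D) {S S' : X}
    (hS : d (P a0) S ≤ 25 * lam) (hS' : d (P b0) S' ≤ 25 * lam)
    (he : ∀ s, a0 + 25 * lam ≤ s → s + 25 * lam ≤ b0 →
      ∃ z', Bt d S z' S' ∧ d (P s) z' ≤ 8 * δ) {e : G}
    (hdisp : ∀ z, Bt d S z S' → 10 * d z (e • z) ≤ 13 * lam) (ha : a0 ≤ a) (hb : b ≤ b0)
    (hsa : s1 + (38 * δ + 11 + 2 * ρ) ≤ a) (hsb : b + (38 * δ + 11 + 2 * ρ) ≤ s2)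
    (hU : ∀ l', Ovp d (200 * (δ + 1)) Y Y (g⁻¹ * e * g) l' → l' ≤ U0) :
    b ≤ a + U0 + 60 * lam := by
  by_contra hcon
  -- the facts at one point
  have fact : ∀ s, a + 28 * lam ≤ s → s + 28 * lam ≤ b →
      (∃ y ∈ Y, d (P s) (g • y) ≤ 67 * δ + 5) ∧
      ∃ y ∈ Y, d (e • P s) (g • y) ≤ 95 * δ + 5 := by
    intro s k1 k2
    refine ⟨close_Y hd hh hG hP hs2 hY hy1 hy2 h1 h2 (by omega) (by omega), ?_⟩
    obtain ⟨z', hz', k3⟩ := he s (by omega) (by omega)
    have k4 := hdisp z' hz'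
    have e0 := hP a0 s (by omega) (by omega)
    have e0' := hP s b0 (by omega) (by omega)
    -- the point `z''`
    have hl0 : 10 * (13 * lam / 10) ≤ 13 * lam := Nat.mul_div_le _ _
    have hdiv : ∀ z, Bt d S z S' → d (e • z) z ≤ 13 * lam / 10 := by
      intro z hz
      have k5 := hdisp z hz
      rw [hd.comm]
      rw [Nat.le_div_iff_mul_le (by norm_num)]
      omega
    have kS : d S z' + 25 * lam + 8 * δ ≥ 28 * lam := by
      have f1 := hd.tri (P a0) S z'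
      have f2 := hd.tri (P a0) z' (P s)
      have f3 := hd.comm z' (P s)
      omega
    have kS' : d z' S' + 25 * lam + 8 * δ ≥ 28 * lam := by
      have f1 := hd.tri z' S' (P b0)
      have f2 := hd.tri (P s) z' (P b0)
      have f3 := hd.comm (P b0) S'
      omega
    obtain ⟨z2, hz2, k6, -, -⟩ := hh.quad hd (hdiv S (hd.bt_left S S'))
      (hdiv S' (hd.bt_right S S')) (bt_smul hG e hz') (by rw [hG]; omega) (by rw [hG]; omega)
    have k7 : d (P s) z2 ≤ 13 * lam / 10 + 16 * δ := by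
      have f1 := hd.tri (P s) z' z2
      have f2 := hd.tri z' (e • z') z2
      have f3 := hdiv z' hz'
      have f4 := hd.comm (e • z') z'
      omega
    obtain ⟨s', l1, l2, l3⟩ := near_path hd hh hP hb0 hS hS' hz2 (s := s)
      (r := 13 * lam / 10 + 16 * δ) (by omega) (by omega) k7 (by omega)
    -- `s'` is close to `s`
    have l4 : s' ≤ s + 2 * lam ∧ s ≤ s' + 2 * lam := by
      have f1 := hd.tri (P s) z2 (P s')
      have f2 := hd.comm (P s) (P s')
      rcases Nat.le_total s s' with h | h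
      · have f3 := hP s s' h (by omega)
        omega
      · have f3 := hP s' s h (by omega)
        omega
    obtain ⟨y, hy, l5⟩ := close_Y hd hh hG hP hs2 hY hy1 hy2 h1 h2 (s := s') (by omega) (by omega)
    refine ⟨y, hy, ?_⟩
    have f1 := hd.tri (e • P s) (e • z') z2
    have f2 := hG e (P s) z'
    have f3 := hd.tri (e • P s) z2 (P s')
    have f4 := hd.tri (e • P s) (P s') (g • y)
    omega
  obtain ⟨⟨u1, hu1, hu1'⟩, ⟨v1, hv1, hv1'⟩⟩ := fact (a + 28 * lam) le_rfl (by omega)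
  obtain ⟨⟨u2, hu2, hu2'⟩, ⟨v2, hv2, hv2'⟩⟩ := fact (b - 28 * lam) (by omega) (by omega)
  have hov : Ovp d (200 * (δ + 1)) Y Y (g⁻¹ * e * g) (b - 28 * lam - (a + 28 * lam)) := by
    have hmul : ∀ (s : ℕ) (u : X), d (g⁻¹ • e • P s) ((g⁻¹ * e * g) • u) = d (P s) (g • u) := by
      intro s u
      rw [mul_smul, mul_smul, hG, hG]
    refine ⟨g⁻¹ • e • P (a + 28 * lam), g⁻¹ • e • P (b - 28 * lam), ⟨v1, hv1, ?_⟩,
      ⟨v2, hv2, ?_⟩, ⟨u1, hu1, ?_⟩, ⟨u2, hu2, ?_⟩, ?_⟩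
    · rw [inv_smul_dist hG]; omega
    · rw [inv_smul_dist hG]; omega
    · rw [hmul]; omega
    · rw [hmul]; omega
    · rw [hG, hG, hP _ _ (by omega) (by omega)]
  have := hU _ hov
  omega

/-- The statement for `s1 ≤ s2`. -/
theorem half (hd : IsGM d) (hh : Hyp d δ) (hG : IsomAct G d) {lam ρ D m s1 s2 Q U0 M l : ℕ}
    (hlam : 1000 * (δ + ρ + 1) ≤ lam) (hQ : 0 < Q) {P : ℕ → X} {x : ℕ → ℕ} (hP : IsGeo d D P)
    (hle : ∀ i, i ≤ m → x i ≤ D) (hx : ∀ i, i < m → x i ≤ x (i + 1))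
    (hsp : ∀ i, i < m → 9 * Q + 10 * x i ≤ 10 * x (i + 1))
    {Y : Set X} (hY : QConv d (59 * δ + 5) Y) {g : G} {y1 y2 : X} (hy1 : y1 ∈ Y) (hy2 : y2 ∈ Y)
    (h1 : d (P s1) (g • y1) ≤ 30 * δ + 10 + 2 * ρ)
    (h2 : d (P s2) (g • y2) ≤ 30 * δ + 10 + 2 * ρ) {S : ℕ → X} {e : ℕ → G}
    (hS : ∀ i, i ≤ m → d (P (x i)) (S i) ≤ 25 * lam)
    (he : ∀ i, i < m → ∀ s, x i + 25 * lam ≤ s → s + 25 * lam ≤ x (i + 1) →
      ∃ z', Bt d (S i) z' (S (i + 1)) ∧ d (P s) z' ≤ 8 * δ)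
    (hdisp : ∀ i z, Bt d (S i) z (S (i + 1)) → 10 * d z (e i • z) ≤ 13 * lam)
    (hU : ∀ i l', Ovp d (200 * (δ + 1)) Y Y (g⁻¹ * e i * g) l' → l' ≤ U0)
    (hs1 : x 0 ≤ s1) (hs2 : s2 ≤ x m)
    (hl : l + s1 ≤ s2 + 2 * (30 * δ + 10) + 2 * ρ) (hlM : l ≤ M * Q) :
    l ≤ (2 * M + 4) * (U0 + 100 * lam) := by
  by_contra hcon
  have hexp : (2 * M + 4) * (U0 + 100 * lam)
      = 2 * (M * U0) + 4 * U0 + 200 * (M * lam) + 400 * lam := by ring
  obtain ⟨E, hE⟩ : ∃ E, E = 38 * δ + 11 + 2 * ρ := ⟨_, rfl⟩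
  obtain ⟨w, hw⟩ : ∃ w, w = (l - 4 * E) / (2 * M + 3) := ⟨_, rfl⟩
  have hw1 : (2 * M + 3) * w ≤ l - 4 * E := by
    rw [hw]; exact Nat.mul_div_le _ _
  have hw2 : l - 4 * E < (2 * M + 3) * (w + 1) := by
    rw [hw]
    have := Nat.lt_mul_div_succ (l - 4 * E) (show 0 < 2 * M + 3 by omega)
    exact this
  have hM0 : M ≤ M * lam := Nat.le_mul_of_pos_right M (by omega)
  have hw0 : 0 < w := by
    rcases Nat.eq_zero_or_pos w with h | h
    · exfalso
      rw [h] at hw2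
      omega
    · exact h
  have hK : 10 * ((2 * M + 2 + 1) * w) < 9 * Q * (2 * M + 2) := by
    have e1 : 9 * Q * (2 * M + 2) = 18 * (M * Q) + 18 * Q := by ring
    have e2 : (2 * M + 2 + 1) * w = (2 * M + 3) * w := by ring
    rw [e1, e2]
    omega
  obtain ⟨j, i, hj, hi, k1, k2⟩ := parts (K := 2 * M + 2) (w := w) (a := s1 + E) (q := 9 * Q) hx
    hsp (by omega) (by
      have e2 : (2 * M + 2 + 1) * w = (2 * M + 3) * w := by ring
      rw [e2]
      omega) hw0 hK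
  have e3 : (j + 1) * w ≤ (2 * M + 3) * w := Nat.mul_le_mul_right w (by omega)
  have e4 : (j + 1) * w = j * w + w := by ring
  have hxm := hle m le_rfl
  have k3 := piece hd hh hG hlam hP (s1 := s1) (s2 := s2) (by omega) hY hy1 hy2 h1 h2
    (hle (i + 1) hi) (hS i (by omega)) (hS (i + 1) hi) (he i hi) (hdisp i) k1 k2
    (by omega) (by omega) (hU i)
  have hw3 : w ≤ U0 + 60 * lam := by omega
  have hw4 : (2 * M + 3) * (w + 1) ≤ (2 * M + 3) * (U0 + 60 * lam + 1) :=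
    Nat.mul_le_mul_left _ (by omega)
  have e5 : (2 * M + 3) * (U0 + 60 * lam + 1)
      = 2 * (M * U0) + 3 * U0 + 120 * (M * lam) + 180 * lam + 2 * M + 3 := by ring
  omega

end

end OVB

open OVB in
/-- OVB. -/
theorem OVB (h1 : Stmt_ETRX) (h2 : Stmt_EDISP) : Stmt_OVB := by
  intro δ L1 ρ G X _ _ d h n0 c t o nn hd hh hG hcsa hov hbs hn0 hh12 hexp Y hY U0 M l hU hovp hlM
  have hbig := hbs.big
  have hbs1 : IsBS G d (1000 * (δ + L1 + 1)) h c t o :=
    ⟨hbs.o_mem, by omega, hbs.tper, hbs.move, hbs.ncomm, hbs.cent⟩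
  have hbs2 : IsBS G d (1000 * (δ + 1)) h c t o :=
    ⟨hbs.o_mem, by omega, hbs.tper, hbs.move, hbs.ncomm, hbs.cent⟩
  obtain ⟨p1, p2, ⟨z1, hz1, a1⟩, ⟨z2, hz2, a2⟩, ⟨y1, hy1, b1⟩, ⟨y2, hy2, b2⟩, hl⟩ := hovp
  rw [one_smul] at b1 b2
  obtain ⟨r, k, m, D, s1, s2, P, x, htr, hsp, hxs, hedge, q1, q2, t1, t2, t3, t4⟩ :=
    h1 δ L1 G X d h n0 c t o nn hd hh hG hcsa hov hbs1 hn0 hh12 hexp z1 z2 hz1 hz2
  obtain ⟨g, hg⟩ : ∃ g, g = rel c t nn h ^ r := ⟨_, rfl⟩
  rw [← hg] at q1 q2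
  have hQ : 0 < n0 * disp d c := Nat.mul_pos (by omega) (by omega)
  have hdisp : ∀ i z, Bt d (bs c t nn (k + i) • o) z (bs c t nn (k + (i + 1)) • o) →
      10 * d z (bc c t nn (k + i) • z) ≤ 13 * disp d c := fun i z hz =>
    h2 δ G X d h c t o nn hd hh hG hbs2 (k + i) z hz
  have hU' : ∀ i l', Ovp d (200 * (δ + 1)) Y Y (g⁻¹ * bc c t nn (k + i) * g) l' → l' ≤ U0 := by
    intro i l' h'
    rw [hg] at h'
    exact hU r (k + i) l' h'
  have hgz1 : d (g • z1) (g • y1) ≤ 2 * ρ := by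
    rw [hG]
    have := hd.tri z1 p1 y1
    have := hd.comm z1 p1
    omega
  have hgz2 : d (g • z2) (g • y2) ≤ 2 * ρ := by
    rw [hG]
    have := hd.tri z2 p2 y2
    have := hd.comm z2 p2
    omega
  have hy1' : d (P s1) (g • y1) ≤ 30 * δ + 10 + 2 * ρ := by
    have := hd.tri (P s1) (g • z1) (g • y1)
    omega
  have hy2' : d (P s2) (g • y2) ≤ 30 * δ + 10 + 2 * ρ := by
    have := hd.tri (P s2) (g • z2) (g • y2)
    omega
  have hzz : d z1 z2 ≤ d (P s1) (P s2) + 2 * (30 * δ + 10) := by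
    have e1 := hG g z1 z2
    have e2 := hd.tri (g • z1) (P s1) (g • z2)
    have e3 := hd.tri (P s1) (P s2) (g • z2)
    have e4 := hd.comm (g • z1) (P s1)
    omega
  have hpp : d p1 p2 ≤ d z1 z2 + 2 * ρ := by
    have e1 := hd.tri p1 z1 p2
    have e2 := hd.tri z1 z2 p2
    have e3 := hd.comm z2 p2
    omega
  have hxm := htr.le m le_rfl
  rcases Nat.le_total s1 s2 with hs | hs
  · have e := htr.geo s1 s2 hs (by omega)
    exact half hd hh hG (lam := disp d c) (ρ := ρ) (D := D) (m := m) (s1 := s1) (s2 := s2)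
      (by omega) hQ htr.geo htr.le htr.mono hsp hY hy1 hy2 hy1' hy2'
      (S := fun i => bs c t nn (k + i) • o) (e := fun i => bc c t nn (k + i)) hxs hedge hdisp hU'
      t1 t4 (by omega) hlM
  · have e := htr.geo s2 s1 hs (by omega)
    rw [hd.comm (P s2) (P s1)] at e
    exact half hd hh hG (lam := disp d c) (ρ := ρ) (D := D) (m := m) (s1 := s2) (s2 := s1)
      (by omega) hQ htr.geo htr.le htr.mono hsp hY hy2 hy1 hy2' hy1'
      (S := fun i => bs c t nn (k + i) • o) (e := fun i => bc c t nn (k + i)) hxs hedge hdisp hU'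
      t3 t2 (by omega) hlM

end Pool.Agent.Olsh
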