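import Pool.Agent.Olsh.StmtsG
import Pool.Agent.Olsh.EMAIN
import Pool.Agent.Olsh.Axis

/-!
# MP_3cdb71_al: module OLG_OVS

The axis of `w(x,y)` for a pair of bounded energy and the axis of a killed value `s` with a long
overlap: `w(x,y) = s`.
-/

set_option autoImplicit false

namespace Pool.Agent.Olsh

namespace OVS

variable {G X : Type} [Group G] [MulAction G X] {d : X → X → ℕ}

/-- Monotonicity of the class of pairs of bounded energy in the constants. -/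
theorem gpair_mono {D k V B B' : ℕ} {x y : G} (h : GPair d D k 1 B x y) (hV : 1 ≤ V)
    (hB : B ≤ B') : GPair d D k V B' x y := by
  obtain ⟨h1, h2, o, h3, h4⟩ := h
  have hs : 0 ≤ slen d (gW D k x y) := IsomAct.slen_nonneg _
  have hV' : (1 : ℝ) ≤ V := by exact_mod_cast hV
  have hB' : (B : ℝ) ≤ B' := by exact_mod_cast hB
  have h5 : (B : ℝ) * (slen d (gW D k x y) + 1) ≤ B' * (slen d (gW D k x y) + 1) :=
    mul_le_mul_of_nonneg_right hB' (by linarith)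
  have h6 : (1 : ℝ) * slen d (gW D k x y) ≤ V * slen d (gW D k x y) :=
    mul_le_mul_of_nonneg_right hV' hs
  refine ⟨h1, ?_, o, h3.trans h5, h4.trans h5⟩
  push_cast at h2
  linarith

/-- Case A: the conclusion of 8.5 with `q = 1`. -/
theorem eq_of_cnj {D : LD} {x y x' y' : G} (h : Cnj D x y x' y' 1) : lw D x y = lw D x' y' := by
  obtain ⟨b, r, -, -, h3, h4, -⟩ := h
  have hb : b = (lw D x' y' ^ r)⁻¹ := eq_inv_of_mul_eq_one_left h4.symm
  have hc : Commute b (lw D x' y') := by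
    rw [hb]
    exact ((Commute.refl _).zpow_left r).inv_left
  rw [← h3, hc.eq, mul_assoc, mul_inv_cancel, mul_one]

/-- Case B: the direct pair is much longer and the self overlaps of `R'` are controlled. -/
theorem no_case_b (h1 : Stmt_ESHIFT) (h2 : Stmt_EGP) {D : LD} {c : Cst} {r0 ρ L1 : ℕ}
    (hok : LDok D c.n0) (hr0 : r0 ≤ ρ) (hrr : 200 * (dl + r0 + 1) ≤ c.rr)
    (hLS : 100 * dl + 100 ≤ c.LS) (hdir : Dir G D c.n0 c.V c.B ρ L1 d) {x y x' y' : G}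
    (hg : GPair d D.d D.k 1 c.C12 x y) (hg' : GPair d D.d D.k c.V c.B x y)
    (hl' : c.LS ≤ disp d (lw D x' y'))
    (hself : ∀ q : G, Ovp d c.rr (Mn d (lw D x' y')) (Mn d (lw D x' y')) q (c.n0 * D.N / 2) →
      Cnj D x' y' x' y' q)
    {p1 p2 : X}
    (hp1 : ∃ z ∈ Mn d (lw D x y), d p1 z ≤ r0) (hp2 : ∃ z ∈ Mn d (lw D x y), d p2 z ≤ r0)
    (hp3 : ∃ z ∈ Mn d (lw D x' y'), d p1 ((1 : G) • z) ≤ r0)
    (hp4 : ∃ z ∈ Mn d (lw D x' y'), d p2 ((1 : G) • z) ≤ r0)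
    (hp : 100 * (c.n0 * disp d (cw D x y)) ≤ d p1 p2) : False := by
  have : Nonempty X := hdir.ne
  obtain ⟨o, hbs⟩ := hdir.bs x y hg'
  have hcl := (hdir.cl x y hg').1
  have hsg : (1 : ℝ) ≤ slen d (gW D.d D.k x y) := by
    have := hg.2.1
    push_cast at this
    linarith
  have hsd := IsomAct.slen_le_disp (d := d) (cw D x y)
  have hN : (49 : ℝ) * D.N ≤ 50 * disp d (cw D x y) := by
    have e1 : (D.N : ℝ) * 1 ≤ D.N * slen d (gW D.d D.k x y) :=
      mul_le_mul_of_nonneg_left hsg (Nat.cast_nonneg _)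
    linarith
  have hN' : 49 * D.N ≤ 50 * disp d (cw D x y) := by exact_mod_cast hN
  have hnN : c.n0 * (49 * D.N) ≤ c.n0 * (50 * disp d (cw D x y)) := Nat.mul_le_mul_left _ hN'
  have hnN1 : c.n0 * (49 * D.N) = 49 * (c.n0 * D.N) := by ring
  have hnN2 : c.n0 * (50 * disp d (cw D x y)) = 50 * (c.n0 * disp d (cw D x y)) := by ring
  have hq : QConv d (59 * dl + 5) (Mn d (lw D x' y')) :=
    hdir.isom.mn_qconv hdir.hyp hdir.gm (by omega)
  have hrel : rel (cw D x y) (lW D.k (D.H - 1) x y) D.nn (D.H - 1) = lw D x y := rfl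
  obtain ⟨r, k, hrk⟩ := h1 dl L1 r0 G X d (D.H - 1) c.n0 (cw D x y) (lW D.k (D.H - 1) x y) o D.nn
    (Mn d (lw D x' y')) (c.n0 * D.N / 2) hdir.gm hdir.hyp hdir.isom hdir.csa hdir.ov
    (EMAIN.mono hbs (by omega)) hok.n0l (by have := hok.h48; omega) hok.exp hq 1 p1 p2
    (by rw [hrel]; exact hp1) (by rw [hrel]; exact hp2) hp3 hp4 (by omega) (by omega)
  have key : ∀ i, i < 2 → ∃ m : ℤ, (rel (cw D x y) (lW D.k (D.H - 1) x y) D.nn (D.H - 1) ^ r *
      (1 : G))⁻¹ * bc (cw D x y) (lW D.k (D.H - 1) x y) D.nn (k + i) *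
      (rel (cw D x y) (lW D.k (D.H - 1) x y) D.nn (D.H - 1) ^ r * 1) = lw D x' y' ^ m := by
    intro i hi
    obtain ⟨w1, w2, hw, a1, a2, a3, a4⟩ := hrk i hi
    obtain ⟨z1, hz1, hz1'⟩ := a1
    obtain ⟨z2, hz2, hz2'⟩ := a2
    obtain ⟨z3, hz3, hz3'⟩ := a3
    obtain ⟨z4, hz4, hz4'⟩ := a4
    obtain ⟨b, m, -, -, -, e4, e5⟩ := hself _ ⟨w1, w2, ⟨z1, hz1, hz1'.trans hrr⟩,
      ⟨z2, hz2, hz2'.trans hrr⟩, ⟨z3, hz3, hz3'.trans hrr⟩, ⟨z4, hz4, hz4'.trans hrr⟩, hw⟩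
    refine ⟨m, ?_⟩
    rw [e4, e5 ⟨rfl, rfl⟩, one_mul]
  obtain ⟨m0, hm0⟩ := key 0 (by omega)
  obtain ⟨m1, hm1⟩ := key 1 (by omega)
  have hcm : Commute (bc (cw D x y) (lW D.k (D.H - 1) x y) D.nn (k + 0))
      (bc (cw D x y) (lW D.k (D.H - 1) x y) D.nn (k + 1)) := by
    apply EMAIN.commute_of_conj
      (x := rel (cw D x y) (lW D.k (D.H - 1) x y) D.nn (D.H - 1) ^ r * (1 : G))
    rw [hm0, hm1]
    exact ((Commute.refl _).zpow_left m0).zpow_right m1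
  exact (h2 dl L1 G X d (D.H - 1) c.n0 (cw D x y) (lW D.k (D.H - 1) x y) o D.nn hdir.gm hdir.hyp
    hdir.isom hdir.csa hdir.ov (EMAIN.mono hbs (by omega)) (by have := hok.n0l; omega)
    hok.exp.low k).2.1 hcm

end OVS

/-- OLG_OVS. -/
theorem OVS (h1 : Stmt_ESHIFT) (h2 : Stmt_EGP) (h3 : Stmt_KLC) : Stmt_OVS := by
  intro D c r0 ρ L1 hok hr0 hrr hV hC12 hLS G X _ _ d SP hst hdir x y hg s l hov hl
  obtain ⟨x', y', hkl, hs⟩ := KS.ex hst.lev.isom s
  have hce := (h3 D G X d hst.lev.gm hst.lev.isom c.T x' y' hkl.2.2).2.2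
  have hg' : GPair d D.d D.k c.V c.B x y := OVS.gpair_mono hg hV hC12
  have hov' : Ovp d r0 (Mn d (lw D x y)) (Mn d (lw D x' y')) (1 : G) l := by
    rw [← hs]
    exact hov
  have hce' : c.n0 * disp d (cw D x' y') ≤ c.n0 * (CE D * c.T) := Nat.mul_le_mul_left _ hce
  have hl2 : 100 * (c.n0 * disp d (cw D x y)) + 100 * (c.n0 * (CE D * c.T)) ≤ l := by
    have e : 100 * (c.n0 * (disp d (cw D x y) + CE D * c.T)) =
      100 * (c.n0 * disp d (cw D x y)) + 100 * (c.n0 * (CE D * c.T)) := by ring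
    omega
  have caseA : GPair d D.d D.k c.V c.B x' y' → lw D x y = lw D x' y' := by
    intro hgg
    apply OVS.eq_of_cnj
    refine hdir.e85 x y x' y' hg' hgg 1 (hov'.mono hr0 ?_)
    rcases le_total (disp d (cw D x y)) (disp d (cw D x' y')) with hm | hm
    · rw [max_eq_right hm]
      omega
    · rw [max_eq_left hm]
      omega
  rw [hs]
  rcases hst.cls x' y' hkl.1 hkl.2.1 with hA | hSP
  · exact caseA (OVS.gpair_mono hA hV hC12)
  · rcases hst.spd x' y' hSP with hA | hB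
    · exact caseA hA
    · exfalso
      obtain ⟨p1, p2, a1, a2, a3, a4, a5⟩ := hov'
      exact OVS.no_case_b h1 h2 hok hr0 hrr hLS hdir hg hg' (hst.spl x' y' hSP) hB a1 a2 a3 a4
        (by omega)

end Pool.Agent.Olsh
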