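import Pool.Agent.Olsh.StmtsG
import Pool.Agent.Olsh.StmtsE

/-!
# MP_3cdb71_al: RLEN, length of `w(x,y)` for a direct pair with `‖g‖ ≥ 1`
-/

set_option autoImplicit false

namespace Pool.Agent.Olsh

namespace RLEN

/-- The arithmetic of RLEN. -/
theorem arith {h n N : ℕ} {sg sc dc sR dR : ℝ} (hn : 40000 ≤ n)
    (h1 : ((h : ℝ) + 1) * (n * sc - 24 * dc) ≤ sR) (h2 : 100 * dc ≤ 101 * sc)
    (h3 : 49 * (N * sg) ≤ 50 * sc) (h4 : 1 ≤ sg) (h5 : sR ≤ dR) :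
    (h : ℝ) * n * N ≤ 2 * dR := by
  have hn' : (40000 : ℝ) ≤ n := by exact_mod_cast hn
  have hN : (0 : ℝ) ≤ N := by positivity
  have hh : (0 : ℝ) ≤ h := by positivity
  have a1 : (N : ℝ) ≤ N * sg := by nlinarith
  have a2 : 49 * (N : ℝ) ≤ 50 * sc := by linarith
  have hsc : 0 ≤ sc := by linarith
  have a3 : ((n : ℝ) - 25) * sc ≤ n * sc - 24 * dc := by linarith
  have a4 : (n : ℝ) * N ≤ 2 * ((n - 25) * sc) := by
    have b1 : (n : ℝ) * N ≤ n * (50 / 49 * sc) :=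
      mul_le_mul_of_nonneg_left (by linarith) (by linarith)
    have b2 : (n : ℝ) * (50 / 49 * sc) ≤ 2 * ((n - 25) * sc) := by nlinarith
    linarith
  have a5 : (n : ℝ) * N ≤ 2 * (n * sc - 24 * dc) := by linarith
  have a6 : (0 : ℝ) ≤ n * N := by positivity
  have a7 : (h : ℝ) * (n * N) ≤ (h + 1) * (2 * (n * sc - 24 * dc)) := by nlinarith
  nlinarith

end RLEN

theorem RLEN (h1 : Stmt_EREL) (h2 : Stmt_ELEN) : Stmt_RLEN := by
  intro D n0 V B ρ L1 hok G X _ _ d hD x y hP hs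
  obtain ⟨o, hbs⟩ := hD.bs x y hP
  obtain ⟨c1, -⟩ := hD.cl x y hP
  have hn0 := hok.n0l
  have hh := hok.h48
  have : Nonempty X := hD.ne
  have hbig' : 1000 * (dl + L1 + 1) ≤ disp d (cw D x y) := by
    have := hbs.big
    omega
  have hbs' : IsBS G d (1000 * (dl + L1 + 1)) (D.H - 1) (cw D x y) (lW D.k (D.H - 1) x y) o :=
    ⟨hbs.o_mem, hbig', hbs.tper, hbs.move, hbs.ncomm, hbs.cent⟩
  have hbig : 1000 * (dl + 1) ≤ disp d (cw D x y) :=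
    le_trans (Nat.mul_le_mul_left 1000 (Nat.succ_le_succ (Nat.le_add_right dl L1))) hbig'
  have hbs'' : IsBS G d (1000 * (dl + 1)) (D.H - 1) (cw D x y) (lW D.k (D.H - 1) x y) o :=
    ⟨hbs.o_mem, hbig, hbs.tper, hbs.move, hbs.ncomm, hbs.cent⟩
  obtain ⟨e1, -, -⟩ := h1 dl L1 G X d (D.H - 1) n0 (cw D x y) _ o D.nn hD.gm hD.hyp hD.isom
    hD.csa hD.ov hbs' (by omega) (by omega) hok.exp
  obtain ⟨e2, -⟩ := h2 dl G X d (D.H - 1) (cw D x y) _ o D.nn hD.gm hD.hyp hD.isom hbs''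
  have e3 := IsomAct.slen_le_disp (d := d) (lw D x y)
  have key : ((D.H - 1 : ℕ) : ℝ) * n0 * D.N ≤ 2 * (disp d (lw D x y) : ℝ) :=
    RLEN.arith hn0 e1 e2 c1 hs e3
  exact_mod_cast key

end Pool.Agent.Olsh
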