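import Pool.Agent.Olsh.StmtsG

/-!
# MP_3cdb71_al: displacements shrink under the quotient map (module OLG_SHR)
-/

set_option autoImplicit false

namespace Pool.Agent.Olsh

theorem SHR (h1 : Stmt_CONEGM) : Stmt_SHR := by
  intro η η1 C G G' X S A' _ _ _ _ _ d u L Y d' π q hQ
  have hu : 1 ≤ u := hQ.conep.one_le
  obtain ⟨-, -, h3⟩ := h1 X S d u Y hQ.gm hu hQ.ne
  have hA : ∀ (m : ℕ) (v w : X), d v w ≤ m * u →
      d' (q (Sum.inl v)) (q (Sum.inl w)) ≤ m := fun m v w h =>
    (hQ.quot.le _ _).trans (h3 m v w h)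
  have hE : ∀ (g : G) (v : X), π g • q (Sum.inl v) = q (Sum.inl (g • v)) := by
    intro g v
    rw [← hQ.quot.equiv]
    rfl
  refine ⟨hA, ?_, ?_⟩
  · rintro m x y ⟨o, h, h'⟩
    refine ⟨q (Sum.inl o), ?_, ?_⟩
    · rw [hE]
      exact hA m _ _ h
    · rw [hE]
      exact hA m _ _ h'
  · intro v g
    have h4 : d v (g • v) ≤ ((d v (g • v) + u - 1) / u) * u := by
      have h5 := Nat.div_add_mod (d v (g • v) + u - 1) u
      have h6 := Nat.mod_lt (d v (g • v) + u - 1) (show 0 < u from hu)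
      rw [mul_comm]
      omega
    have h7 := hA _ _ _ h4
    have h8 : u * d' (q (Sum.inl v)) (π g • q (Sum.inl v)) ≤
        u * ((d v (g • v) + u - 1) / u) := by
      rw [hE]
      exact Nat.mul_le_mul_left u h7
    have h9 := Nat.mul_div_le (d v (g • v) + u - 1) u
    omega

end Pool.Agent.Olsh
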