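import Pool.Agent.Olsh.StmtsG
import Pool.Agent.Olsh.StmtsE

/-!
# MP_3cdb71_al: SPD (9.4 of `Pool/Agent/Olsh/H92.md`)

An S-pair of the quotient is direct, or its self overlaps are controlled at a smaller scale.
-/

set_option autoImplicit false

namespace Pool.Agent.Olsh

namespace SPD

theorem map_gW {G G' : Type} [Group G] [Group G'] (φ : G →* G') (D k : ℕ) (x y : G) :
    φ (gW D k x y) = gW D k (φ x) (φ y) := by
  simp only [gW, pW, qW, yW, map_mul, map_inv, map_pow]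

theorem gpair_mono {G X : Type} [Group G] [MulAction G X] {d : X → X → ℕ} {D k V B V' B' : ℕ}
    {x y : G} (h : GPair d D k V B x y) (hV : V ≤ V') (hB : B ≤ B') : GPair d D k V' B' x y := by
  obtain ⟨h1, h2, o, h3, h4⟩ := h
  have h0 : 0 ≤ slen d (gW D k x y) := IsomAct.slen_nonneg _
  have hV' : (V : ℝ) ≤ V' := by exact_mod_cast hV
  have hB' : (B : ℝ) ≤ B' := by exact_mod_cast hB
  refine ⟨h1, h2.trans (mul_le_mul_of_nonneg_right hV' h0), o, ?_, ?_⟩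
  · exact h3.trans (mul_le_mul_of_nonneg_right hB' (by linarith))
  · exact h4.trans (mul_le_mul_of_nonneg_right hB' (by linarith))

theorem bs_mono {G X : Type} [Group G] [MulAction G X] {d : X → X → ℕ} {K K' h : ℕ} {c : G}
    {t : ℕ → G} {o : X} (hb : IsBS G d K h c t o) (hK : K' ≤ K) : IsBS G d K' h c t o :=
  ⟨hb.o_mem, hK.trans hb.big, hb.tper, hb.move, hb.ncomm, hb.cent⟩

/-- The arithmetic of the length comparison. -/
theorem arith (n0 N T1 u dc : ℕ) (hT : 4 * T1 + 4 ≤ n0) (hN : 1 ≤ N)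
    (h : 10000 * 10000 * dc ≤ 10302 * (N * u)) :
    T1 ≤ n0 * N / 2 ∧ 100 * (n0 * dc) ≤ (n0 * N / 2 - T1) * u := by
  have hn : n0 ≤ n0 * N := Nat.le_mul_of_pos_right n0 hN
  have h1 : T1 ≤ n0 * N / 2 := by omega
  have h2 : n0 * N ≤ 4 * (n0 * N / 2 - T1) := by omega
  refine ⟨h1, ?_⟩
  have h3 : n0 * (10000 * 10000 * dc) ≤ n0 * (10302 * (N * u)) := Nat.mul_le_mul_left n0 h
  have h4 : n0 * N * u ≤ 4 * (n0 * N / 2 - T1) * u := Nat.mul_le_mul_right u h2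
  generalize n0 * N / 2 - T1 = q at h4 ⊢
  have e1 : n0 * (10000 * 10000 * dc) = 10000 * 10000 * (n0 * dc) := by ring
  have e2 : n0 * (10302 * (N * u)) = 10302 * (n0 * N * u) := by ring
  have e3 : 4 * q * u = 4 * (q * u) := by ring
  rw [e1, e2] at h3
  rw [e3] at h4
  generalize n0 * dc = a at h3 ⊢
  generalize n0 * N * u = b at h3 h4
  generalize q * u = e at h4 ⊢
  omega

end SPD

open SPD in
theorem SPD (h1 : Stmt_LOV) (h2 : Stmt_RLEN) (h3 : Stmt_ELEN) (h4 : Stmt_CNJQ)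
    (h5 : Stmt_SHR) : Stmt_SPD := by
  intro η1 C
  obtain ⟨K, hK⟩ := h1 (59 * dl + 5) η1 C
  refine ⟨K, ?_⟩
  intro rr B1 C10
  obtain ⟨T1, U, hU⟩ := hK rr B1
  refine ⟨4 * T1 + 4, U, ?_⟩
  intro D c u ρ L1 C13 hrr hKρ hUu hUL hH hT0 hV hB G G' X A' _ _ _ _ d SP d' π q hS x₁ y₁ hL hsl
  have hdir := hS.dir
  have hok := hS.ok
  have hgp1 := hL.gp
  have hgp : GPair d D.d D.k c.V c.B x₁ y₁ := gpair_mono hgp1 hS.V1 hS.B1
  by_cases hG : GPair d' D.d D.k c.V c.B (π x₁) (π y₁)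
  · exact Or.inl hG
  right
  -- the length of `g` in the quotient is small
  have hsmall : (c.V : ℝ) * slen d' (π (gW D.d D.k x₁ y₁)) < 1 := by
    by_contra hcon
    apply hG
    rw [map_gW] at hcon
    have h0 : 0 ≤ slen d' (gW D.d D.k (π x₁) (π y₁)) := IsomAct.slen_nonneg _
    obtain ⟨o, ho1, ho2⟩ := (h5 _ _ _ G G' X _ A' d u c.LS (KY D d c.T) d' π q hS.cq).2.1 C13 x₁ y₁
      hL.ele
    have hb : (C13 : ℝ) ≤ c.B * (slen d' (gW D.d D.k (π x₁) (π y₁)) + 1) := by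
      have e1 : (C13 : ℝ) ≤ c.B := by exact_mod_cast hB
      have e2 : (0 : ℝ) ≤ c.B := by positivity
      nlinarith
    refine ⟨hL.nc, not_lt.1 hcon, o, ?_, ?_⟩
    · exact le_trans (by exact_mod_cast ho1) hb
    · exact le_trans (by exact_mod_cast ho2) hb
  have hs1 : 10000 * slen d (gW D.d D.k x₁ y₁) ≤ u := by
    have h0 : 0 ≤ slen d' (π (gW D.d D.k x₁ y₁)) := IsomAct.slen_nonneg _
    have hu : (0 : ℝ) ≤ u := by positivity
    have hV' : (10000 : ℝ) * C10 ≤ c.V := by exact_mod_cast hV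
    calc 10000 * slen d (gW D.d D.k x₁ y₁)
        ≤ 10000 * (C10 * u * slen d' (π (gW D.d D.k x₁ y₁))) := by linarith
      _ = (10000 * C10) * slen d' (π (gW D.d D.k x₁ y₁)) * u := by ring
      _ ≤ c.V * slen d' (π (gW D.d D.k x₁ y₁)) * u := by
          exact mul_le_mul_of_nonneg_right (mul_le_mul_of_nonneg_right hV' h0) hu
      _ ≤ 1 * u := mul_le_mul_of_nonneg_right hsmall.le hu
      _ = u := one_mul _
  obtain ⟨o, ho⟩ := hdir.bs x₁ y₁ hgp
  have hc1 := (h3 dl G X d (D.H - 1) (cw D x₁ y₁) (lW D.k (D.H - 1) x₁ y₁) o D.nn hdir.gm hdir.hyp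
    hdir.isom (bs_mono ho (by
      have : 1000 * (dl + 1) ≤ 1000000 * (dl + L1 + ρ + 1) := by
        generalize dl = a
        omega
      exact this))).1
  have hc2 := (hdir.cl x₁ y₁ hgp).2
  have hdisp : 10000 * 10000 * disp d (cw D x₁ y₁) ≤ 10302 * (D.N * u) := by
    have hN0 : (0 : ℝ) ≤ D.N := by positivity
    have e1 : (D.N : ℝ) * (10000 * slen d (gW D.d D.k x₁ y₁)) ≤ D.N * u :=
      mul_le_mul_of_nonneg_left hs1 hN0
    have e2 : (10000 * 10000 * disp d (cw D x₁ y₁) : ℝ) ≤ 10302 * (D.N * u) := by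
      linarith
    exact_mod_cast e2
  obtain ⟨hT1, har⟩ := arith c.n0 D.N T1 u (disp d (cw D x₁ y₁)) hT0 hok.N1 hdisp
  -- the length of the law
  have hlen1 : 1 ≤ slen d (gW D.d D.k x₁ y₁) := by
    have := hgp1.2.1
    simpa using this
  have hlen := h2 D c.n0 c.V c.B ρ L1 hok G X d hdir x₁ y₁ hgp hlen1
  have hlen2 : K * ((B1 + 1) * u) ≤ disp d (lw D x₁ y₁) := by
    have e : (B1 + 1) * u * K = K * ((B1 + 1) * u) := by ring
    rw [e] at hH
    omega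
  intro q' hov
  rw [← map_lw, hrr] at hov
  obtain ⟨g, hg, hov2⟩ := hU G G' X _ A' d u c.LS (KY D d c.T) d' π q hS.cq hUu hUL
    (lw D x₁ y₁) (lw D x₁ y₁) hL.ang hL.ang hlen2 hlen2 q' (c.n0 * D.N / 2) hT1 hov
  have hcnj : Cnj D x₁ y₁ x₁ y₁ g := by
    refine hdir.e85 x₁ y₁ x₁ y₁ hgp hgp g (hov2.mono hKρ ?_)
    rw [max_self]
    exact har
  have := h4 D c.n0 hok G G' hS.csa' hS.tf' π x₁ y₁ x₁ y₁ g hL.nc hcnj
  rw [hg] at this
  exact this

end Pool.Agent.Olsh
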