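import Pool.Agent.Olsh.StmtsG

/-!
# MP_3cdb71_al: SPF (variation of `phi'` on the axes of S-pairs of the quotient)
-/

set_option autoImplicit false

namespace Pool.Agent.Olsh

namespace SPF

/-- Monotonicity of `GPair` in the constants. -/
theorem gpair_mono {G X : Type} [Group G] [MulAction G X] {d : X → X → ℕ}
    {D k V V' B B' : ℕ} {x y : G} (h : GPair d D k V B x y) (hV : V ≤ V') (hB : B ≤ B')
    (hs : 0 ≤ slen d (gW D k x y)) : GPair d D k V' B' x y := by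
  obtain ⟨h1, h2, o, h3, h4⟩ := h
  have e1 : (V : ℝ) ≤ V' := by exact_mod_cast hV
  have e2 : (B : ℝ) ≤ B' := by exact_mod_cast hB
  refine ⟨h1, h2.trans (mul_le_mul_of_nonneg_right e1 hs), o,
    h3.trans (mul_le_mul_of_nonneg_right e2 (by linarith)),
    h4.trans (mul_le_mul_of_nonneg_right e2 (by linarith))⟩

end SPF

theorem SPF (h1 : Stmt_AXQ) (h2 : Stmt_RLEN) (h3 : Stmt_KLC) (h4 : Stmt_VAR) : Stmt_SPF := by
  intro η1 C
  obtain ⟨K, hK⟩ := h1 (59 * dl + 5) η1 C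
  refine ⟨K, fun B1 => ?_⟩
  obtain ⟨U, hU⟩ := hK B1
  refine ⟨U, ?_⟩
  intro D c u ρ L1 C13 hu hL hlen hV5 G G' X A' _ _ _ _ d SP d' π q hq sg phi Lam hsg heq hlip
    phi' hlip' hphi' x₁ y₁ hl v hv w hw
  have hs1 : 1 ≤ slen d (gW D.d D.k x₁ y₁) := by
    have := hl.gp.2.1
    simpa using this
  have hgp : GPair d D.d D.k c.V c.B x₁ y₁ :=
    SPF.gpair_mono hl.gp hq.V1 hq.B1 (by linarith)
  have hlen' := h2 D c.n0 c.V c.B ρ L1 hq.ok G X d hq.dir x₁ y₁ hgp hs1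
  have hax := hU G G' X (KS (G := G) D d c.T) A' d u c.LS (KY D d c.T) d' π q hq.cq hu hL
    (lw D x₁ y₁) hl.ang (by nlinarith)
  obtain ⟨-, -, hax3, -⟩ := hax
  rw [← map_lw] at hv hw
  obtain ⟨v0, hv0, hv1⟩ := hax3 v hv
  obtain ⟨w0, hw0, hw1⟩ := hax3 w hw
  obtain ⟨o, ho1, ho2⟩ := hl.ele
  have hvar := h4 D c.n0 c.V c.B ρ L1 hq.ok G X d hq.dir sg phi Lam hsg heq hlip x₁ y₁ hgp
    (C13 * u) o ho1 v0 hv0 w0 hw0
  obtain ⟨-, -, hklc⟩ := h3 D G X d hq.dir.gm hq.dir.isom (C13 * u) x₁ y₁ hl.ele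
  -- the two ends
  have ev' := (abs_le.1 (hlip' v (q (Sum.inl v0)))).1
  have ew' := (abs_le.1 (hlip' w (q (Sum.inl w0)))).2
  rw [hphi'] at ev' ew'
  have a1 : ((u * Lam : ℕ) : ℤ) * (d' v (q (Sum.inl v0)) : ℤ) ≤ ((u * Lam : ℕ) : ℤ) * K :=
    mul_le_mul_of_nonneg_left (by exact_mod_cast hv1) (by positivity)
  have a2 : ((u * Lam : ℕ) : ℤ) * (d' w (q (Sum.inl w0)) : ℤ) ≤ ((u * Lam : ℕ) : ℤ) * K :=
    mul_le_mul_of_nonneg_left (by exact_mod_cast hw1) (by positivity)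
  have a3 : Lam * (28 * disp d (cw D x₁ y₁) + 12 * (C13 * u)) ≤
      u * Lam * (28 * (CE D * C13) + 12 * C13) := by
    calc Lam * (28 * disp d (cw D x₁ y₁) + 12 * (C13 * u))
        ≤ Lam * (28 * (CE D * (C13 * u)) + 12 * (C13 * u)) := by gcongr
      _ = u * Lam * (28 * (CE D * C13) + 12 * C13) := by ring
  have a4 : u * Lam * (2 * K + 28 * (CE D * C13) + 12 * C13) ≤ u * Lam * c.V5 :=
    Nat.mul_le_mul_left _ hV5
  have a3' : ((Lam * (28 * disp d (cw D x₁ y₁) + 12 * (C13 * u)) : ℕ) : ℤ) ≤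
      ((u * Lam * (28 * (CE D * C13) + 12 * C13) : ℕ) : ℤ) := by exact_mod_cast a3
  have a4' : ((u * Lam * (2 * K + 28 * (CE D * C13) + 12 * C13) : ℕ) : ℤ) ≤
      ((u * Lam * c.V5 : ℕ) : ℤ) := by exact_mod_cast a4
  have a5 : ((u * Lam * (2 * K + 28 * (CE D * C13) + 12 * C13) : ℕ) : ℤ) =
      2 * (((u * Lam : ℕ) : ℤ) * K) + ((u * Lam * (28 * (CE D * C13) + 12 * C13) : ℕ) : ℤ) := by
    push_cast; ring
  linarith

end Pool.Agent.Olsh
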