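import Pool.Agent.Olsh.StmtsG

/-!
# MP_3cdb71_al, block OLG: overlaps of S-pairs in the quotient (SPS)
-/

set_option autoImplicit false

namespace Pool.Agent.Olsh

namespace SPS

theorem gpair_mono {G X : Type} [Group G] [MulAction G X] {d : X → X → ℕ} {D k V B B' : ℕ}
    {x y : G} (h : GPair d D k 1 B x y) (hV : 1 ≤ V) (hB : B ≤ B') : GPair d D k V B' x y := by
  obtain ⟨h1, h2, o, h3, h4⟩ := h
  have h2' : (1 : ℝ) ≤ slen d (gW D k x y) := by simpa using h2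
  have hV' : (1 : ℝ) ≤ (V : ℝ) := by exact_mod_cast hV
  have hB' : (B : ℝ) ≤ (B' : ℝ) := by exact_mod_cast hB
  have h5 : (B : ℝ) * (slen d (gW D k x y) + 1) ≤ B' * (slen d (gW D k x y) + 1) :=
    mul_le_mul_of_nonneg_right hB' (by linarith)
  refine ⟨h1, ?_, o, h3.trans h5, h4.trans h5⟩
  calc (1 : ℝ) ≤ slen d (gW D k x y) := h2'
    _ = 1 * slen d (gW D k x y) := (one_mul _).symm
    _ ≤ V * slen d (gW D k x y) := mul_le_mul_of_nonneg_right hV' (by linarith)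

theorem one_le_of_gp {G X : Type} [Group G] [MulAction G X] {d : X → X → ℕ} {D k B : ℕ}
    {x y : G} (h : GPair d D k 1 B x y) : (1 : ℝ) ≤ slen d (gW D k x y) := by
  obtain ⟨-, h2, -⟩ := h
  simpa using h2

end SPS

open SPS in
/-- SPS: overlaps of S-pairs in the quotient. -/
theorem SPS (h1 : Stmt_LOV) (h2 : Stmt_RLEN) (h3 : Stmt_KLC) (h4 : Stmt_CNJQ) : Stmt_SPS := by
  intro η1 C
  obtain ⟨K, hK⟩ := h1 (59 * dl + 5) η1 C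
  refine ⟨K, fun rr B1 => ?_⟩
  obtain ⟨T0, U, hTU⟩ := hK rr B1
  refine ⟨T0, U, ?_⟩
  intro D c u ρ L1 C13 hrr hKρ hUu hUL hlen hTS G G' X A' _ _ _ _ d SP d' π q hS x₁ y₁ x₂ y₂
    l₁ l₂ q' ho
  have g₁ : GPair d D.d D.k c.V c.B x₁ y₁ := gpair_mono l₁.gp hS.V1 hS.B1
  have g₂ : GPair d D.d D.k c.V c.B x₂ y₂ := gpair_mono l₂.gp hS.V1 hS.B1
  have r₁ := h2 D c.n0 c.V c.B ρ L1 hS.ok G X d hS.dir x₁ y₁ g₁ (one_le_of_gp l₁.gp)
  have r₂ := h2 D c.n0 c.V c.B ρ L1 hS.ok G X d hS.dir x₂ y₂ g₂ (one_le_of_gp l₂.gp)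
  have e₀ : K * ((B1 + 1) * u) = (B1 + 1) * u * K := Nat.mul_comm _ _
  have d₁ : K * ((B1 + 1) * u) ≤ disp d (lw D x₁ y₁) := by
    rw [e₀]; omega
  have d₂ : K * ((B1 + 1) * u) ≤ disp d (lw D x₂ y₂) := by
    rw [e₀]; omega
  rw [← map_lw π D x₁ y₁, ← map_lw π D x₂ y₂, hrr] at ho
  obtain ⟨g, hg, hov⟩ := hTU G G' X (KS (G := G) D d c.T) A' d u c.LS (KY D d c.T) d' π q hS.cq
    hUu hUL (lw D x₁ y₁) (lw D x₂ y₂) l₁.ang l₂.ang d₁ d₂ q' c.TS (by omega) ho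
  have c₁ := (h3 D G X d hS.dir.gm hS.dir.isom (C13 * u) x₁ y₁ l₁.ele).2.2
  have c₂ := (h3 D G X d hS.dir.gm hS.dir.isom (C13 * u) x₂ y₂ l₂.ele).2.2
  have hmax : 100 * (c.n0 * max (disp d (cw D x₁ y₁)) (disp d (cw D x₂ y₂)))
      ≤ (c.TS - T0) * u := by
    have m1 : max (disp d (cw D x₁ y₁)) (disp d (cw D x₂ y₂)) ≤ CE D * (C13 * u) := max_le c₁ c₂
    have m2 : 100 * (c.n0 * (CE D * C13)) ≤ c.TS - T0 := by omega
    calc 100 * (c.n0 * max (disp d (cw D x₁ y₁)) (disp d (cw D x₂ y₂)))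
        ≤ 100 * (c.n0 * (CE D * (C13 * u))) := by gcongr
      _ = 100 * (c.n0 * (CE D * C13)) * u := by ring
      _ ≤ (c.TS - T0) * u := Nat.mul_le_mul_right u m2
  have hc := hS.dir.e85 x₁ y₁ x₂ y₂ g₁ g₂ g (hov.mono hKρ hmax)
  have := h4 D c.n0 hS.ok G G' hS.csa' hS.tf' π x₁ y₁ x₂ y₂ g l₁.nc hc
  rwa [hg] at this

end Pool.Agent.Olsh
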