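import Pool.Agent.Olsh.PhiStep
import Pool.Agent.Olsh.StmtsE

/-!
# MP_3cdb71_al: variation of the exponent sum on the minimal set of a relator
-/

set_option autoImplicit false

namespace Pool.Agent.Olsh

section sums

variable {G : Type} [Group G] {sg : G → ℤ}

theorem sg_one' (hm : ∀ g h, sg (g * h) = sg g + sg h) : sg 1 = 0 := by
  have := hm 1 1
  rw [mul_one] at this
  omega

theorem sg_inv' (hm : ∀ g h, sg (g * h) = sg g + sg h) (g : G) : sg g⁻¹ = -sg g := by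
  have h1 := hm g g⁻¹
  rw [mul_inv_cancel, sg_one' hm] at h1
  omega

theorem sg_pow' (hm : ∀ g h, sg (g * h) = sg g + sg h) (g : G) (n : ℕ) :
    sg (g ^ n) = n * sg g := by
  induction n with
  | zero => rw [pow_zero, sg_one' hm]; simp
  | succ n ih => rw [pow_succ, hm, ih]; push_cast; ring

theorem sg_zpow' (hm : ∀ g h, sg (g * h) = sg g + sg h) (g : G) (n : ℤ) :
    sg (g ^ n) = n * sg g := by
  cases n with
  | ofNat n => rw [Int.ofNat_eq_natCast, zpow_natCast, sg_pow' hm]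
  | negSucc n =>
    rw [zpow_negSucc, sg_inv' hm, sg_pow' hm, Int.negSucc_eq]
    push_cast
    ring

theorem sg_qW (hm : ∀ g h, sg (g * h) = sg g + sg h) (D k : ℕ) (x y : G) :
    sg (qW D k x y) = sg (pW D x) := by
  unfold qW
  rw [hm, hm, sg_inv' hm]
  ring

theorem sg_cW (hm : ∀ g h, sg (g * h) = sg g + sg h) (D k N : ℕ) (x y : G) :
    sg (cW D k N x y) = 0 := by
  unfold cW gW teW
  rw [hm, sg_pow' hm, hm, hm, sg_inv' hm, sg_inv' hm, sg_qW hm]
  ring

theorem sg_xW (hm : ∀ g h, sg (g * h) = sg g + sg h) (k j : ℕ) (x y : G) :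
    sg (xW k j x y) = sg x := by
  unfold xW
  rw [hm, hm, sg_inv' hm]
  ring

/-- Sums of the letters. -/
def lamb (r : ℕ) : ℤ := if r % 12 ≤ 6 then ((r % 12 : ℕ) : ℤ) else 12 - ((r % 12 : ℕ) : ℤ)

theorem lamb_bd (r : ℕ) : 0 ≤ lamb r ∧ lamb r ≤ 6 := by
  unfold lamb
  have := Nat.mod_lt r (by norm_num : 12 > 0)
  split_ifs <;> constructor <;> omega

theorem sg_lW_succ (hm : ∀ g h, sg (g * h) = sg g + sg h) (k h : ℕ) (x y : G) {r : ℕ}
    (hr : r < h) : sg (lW k h x y (r + 1)) + lamb r * sg x = lamb (r + 1) * sg x := by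
  unfold lW
  have e : (r + 1) % (h + 1) = r + 1 := Nat.mod_eq_of_lt (by omega)
  rw [e, if_neg (Nat.succ_ne_zero r), Nat.add_sub_cancel]
  unfold uW
  by_cases h6 : r % 12 < 6
  · rw [if_pos (by omega), sg_xW hm]
    have e1 : lamb (r + 1) = lamb r + 1 := by
      unfold lamb
      have e2 : (r + 1) % 12 = r % 12 + 1 := by omega
      rw [e2, if_pos (by omega), if_pos (by omega)]
      push_cast
      ring
    rw [e1]
    ring
  · rw [if_neg (by omega), sg_inv' hm, sg_xW hm]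
    have e1 : lamb (r + 1) = lamb r - 1 := by
      unfold lamb
      by_cases h11 : r % 12 = 11
      · have e2 : (r + 1) % 12 = 0 := by omega
        rw [e2, h11]
        norm_num
      · have e2 : (r + 1) % 12 = r % 12 + 1 := by omega
        rw [e2, if_neg (by omega)]
        by_cases h7 : r % 12 = 6
        · rw [h7]
          norm_num
        · rw [if_neg (by omega)]
          push_cast
          ring
    rw [e1]
    ring

theorem sg_bs (hm : ∀ g h, sg (g * h) = sg g + sg h) (D k N h : ℕ) (nn : ℕ → ℕ) (x y : G)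
    (h12 : 12 ∣ h) (i : ℕ) : sg (bs (cW D k N x y) (lW k h x y) nn i) =
      lamb (i % (h + 1)) * sg x := by
  have h0 : ∀ j, j % (h + 1) = 0 → sg (lW k h x y j) = 0 := by
    intro j hj
    unfold lW
    rw [if_pos hj, hm, sg_inv' hm, sg_xW hm, sg_xW hm]
    ring
  have hl0 : lamb 0 = 0 := rfl
  induction i with
  | zero =>
    show sg (lW k h x y 0) = _
    rw [h0 0 (Nat.zero_mod _), Nat.zero_mod, hl0]
    ring
  | succ i ih =>
    show sg (bs (cW D k N x y) (lW k h x y) nn i * cW D k N x y ^ nn i *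
      lW k h x y (i + 1)) = _
    rw [hm, hm, ih, sg_pow' hm, sg_cW hm]
    by_cases hi : i % (h + 1) = h
    · have e1 : (i + 1) % (h + 1) = 0 := by
        rw [Nat.add_mod, hi]
        by_cases hh : h = 0
        · subst hh; rfl
        · rw [Nat.mod_eq_of_lt (by omega : 1 < h + 1), Nat.mod_self]
      rw [h0 _ e1, e1, hl0, hi]
      have e2 : lamb h = 0 := by
        obtain ⟨m, rfl⟩ := h12
        unfold lamb
        have : 12 * m % 12 = 0 := by omega
        rw [this]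
        norm_num
      rw [e2]
      ring
    · have hlt : i % (h + 1) < h + 1 := Nat.mod_lt i (Nat.succ_pos h)
      have e1 : (i + 1) % (h + 1) = i % (h + 1) + 1 := by
        rw [Nat.add_mod]
        by_cases hh : h = 0
        · subst hh; omega
        · rw [Nat.mod_eq_of_lt (by omega : 1 < h + 1), Nat.mod_eq_of_lt (by omega)]
      have e2 : lW k h x y (i + 1) = lW k h x y (i % (h + 1) + 1) := by
        unfold lW
        rw [e1]
        have e3 : (i % (h + 1) + 1) % (h + 1) = i % (h + 1) + 1 := Nat.mod_eq_of_lt (by omega)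
        rw [e3]
      rw [e2, e1]
      have e4 := sg_lW_succ hm k h x y (r := i % (h + 1)) (by omega)
      linarith

theorem sg_lawW (hm : ∀ g h, sg (g * h) = sg g + sg h) (D k N h : ℕ) (nn : ℕ → ℕ) (x y : G)
    (h12 : 12 ∣ h) : sg (lawW D k N h nn x y) = 0 := by
  unfold lawW rel
  rw [hm, sg_bs hm D k N h nn x y h12, sg_pow' hm, sg_cW hm]
  have e2 : lamb (h % (h + 1)) = 0 := by
    obtain ⟨m, rfl⟩ := h12
    rw [Nat.mod_eq_of_lt (by omega)]
    unfold lamb
    have : 12 * m % 12 = 0 := by omega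
    rw [this]
    norm_num
  rw [e2]
  ring

end sums

/-- Variation of `phi` on the minimal set of a relator, in terms of a block system. -/
theorem phi_var_bs (hR : Stmt_EREL) (hD : Stmt_EDISP) {δ L1 : ℕ} {G X : Type} [Group G]
    [MulAction G X] {d : X → X → ℕ} {D k N h n0 : ℕ} {x y : G} {o : X} {nn : ℕ → ℕ}
    (hd : IsGM d) (hh : Hyp d δ) (hG : IsomAct G d) (hcsa : IsCSA G) (hov : OV G d L1)
    (hbs : IsBS G d (1000 * (δ + L1 + 1)) h (cW D k N x y) (lW k h x y) o) (hn0 : 1000 ≤ n0)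
    (h12 : 12 ≤ h) (h12' : 12 ∣ h) (hnn : IsExp h n0 nn) {sg : G → ℤ} {phi : X → ℤ} {Λ : ℕ}
    (hm : ∀ g h, sg (g * h) = sg g + sg h) (heq : ∀ g v, phi (g • v) = sg g + phi v)
    (hlip : ∀ v w, |phi w - phi v| ≤ Λ * (d v w : ℤ)) {z : X}
    (hz : z ∈ Mn d (lawW D k N h nn x y)) :
    |phi z - phi o| ≤ Λ * (14 * disp d (cW D k N x y) : ℕ) + 6 * |sg x| := by
  set c := cW D k N x y with hc
  have hz' : z ∈ Mn d (rel c (lW k h x y) nn h) := hz
  obtain ⟨-, h2, -⟩ := hR δ L1 G X d h n0 c (lW k h x y) o nn hd hh hG hcsa hov hbs hn0 h12 hnn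
  obtain ⟨r, i, z', hz1, hz2⟩ := h2 z hz'
  have hK : 1000 * (δ + 1) ≤ 1000 * (δ + L1 + 1) := by omega
  have hbs' : IsBS G d (1000 * (δ + 1)) h c (lW k h x y) o :=
    { hbs with big := hK.trans hbs.big }
  have h3 := hD δ G X d h c (lW k h x y) o nn hd hh hG hbs' i z' hz1
  set s := bs c (lW k h x y) nn i with hs
  have hbig := hbs'.big
  obtain ⟨w, hw1, hw2⟩ := hG.near_oax hh hd hbs.o_mem (by omega) (s⁻¹ • z')
  have e1 : d (s⁻¹ • z') (c • s⁻¹ • z') = d z' (bc c (lW k h x y) nn i • z') := by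
    have := hG s (s⁻¹ • z') (c • s⁻¹ • z')
    rw [smul_inv_smul] at this
    rw [← this]
    congr 1
    unfold bc
    rw [mul_smul, mul_smul]
  rw [e1] at hw2
  obtain ⟨j, hj⟩ := hw1
  have e2 : d (c ^ j • o) (c ^ (j + 1) • o) = disp d c := by
    rw [hG.dist_zpow, zpow_one]
    exact hbs.o_mem
  unfold Bt at hj
  have t1 := hd.tri (s⁻¹ • z') w (c ^ j • o)
  have c1 := hd.comm w (c ^ j • o)
  have e3 : d (s⁻¹ • z') (c ^ j • o) = d z' (s • c ^ j • o) := by
    rw [hG.inv]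
  have t2 := hd.tri (rel c (lW k h x y) nn h ^ r • z) z' (s • c ^ j • o)
  have h4 : d (rel c (lW k h x y) nn h ^ r • z) (s • c ^ j • o) ≤ 14 * disp d c := by omega
  have h5 := hlip (rel c (lW k h x y) nn h ^ r • z) (s • c ^ j • o)
  have h6 : (Λ : ℤ) * (d (rel c (lW k h x y) nn h ^ r • z) (s • c ^ j • o) : ℤ) ≤
      Λ * (14 * disp d c : ℕ) := by
    apply mul_le_mul_of_nonneg_left _ (by positivity)
    exact_mod_cast h4
  have h7 : phi (rel c (lW k h x y) nn h ^ r • z) = phi z := by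
    rw [heq, sg_pow' hm]
    have : sg (rel c (lW k h x y) nn h) = 0 := sg_lawW hm D k N h nn x y h12'
    rw [this]
    ring
  have h8 : phi (s • c ^ j • o) = lamb (i % (h + 1)) * sg x + phi o := by
    rw [heq, heq, sg_zpow' hm, hs, hc, sg_cW hm, sg_bs hm D k N h nn x y h12']
    ring
  rw [h7, h8] at h5
  obtain ⟨l1, l2⟩ := lamb_bd (i % (h + 1))
  have h9 : |lamb (i % (h + 1)) * sg x| ≤ 6 * |sg x| := by
    rw [abs_mul, abs_of_nonneg l1]
    exact mul_le_mul_of_nonneg_right l2 (abs_nonneg _)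
  rw [abs_le] at h5 h9 ⊢
  constructor <;> linarith [h5.1, h5.2, h9.1, h9.2]

/-- Variation of `phi` on the minimal set of the relator of a pair. -/
theorem phi_var (hR : Stmt_EREL) (hD : Stmt_EDISP) (hP : Stmt_EPAIR) (hL : Stmt_ELEN) :
    ∀ L1 D k V B : ℕ, ∃ N0 : ℕ, ∀ N, N0 ≤ N → ∀ (a0 L0 : ℕ) (CP : ℕ → ℕ)
    (M0 : ℕ) (G X : Type) [Group G] [MulAction G X] (d : X → X → ℕ), Lev G d a0 L0 CP M0 →
    IsCSA G → OV G d L1 → ∀ x y : G, GPair d D k V B x y → ∀ (h n0 : ℕ) (nn : ℕ → ℕ),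
    12 ∣ h → 12 ≤ h → 1000 ≤ n0 → IsExp h n0 nn → ∀ (sg : G → ℤ) (phi : X → ℤ) (Λ : ℕ),
    (∀ g h, sg (g * h) = sg g + sg h) → (∀ g v, phi (g • v) = sg g + phi v) →
    (∀ v w, |phi w - phi v| ≤ Λ * (d v w : ℤ)) → ∀ z ∈ Mn d (lawW D k N h nn x y),
    ∀ z' ∈ Mn d (lawW D k N h nn x y),
    ((phi z' - phi z : ℤ) : ℝ) ≤ Λ * (30 * N + 12 * B) * (slen d (gW D k x y) + 1) := by
  intro L1 D k V B
  obtain ⟨N0, hN0⟩ := hP L1 D k V B (1000 * (dl + L1 + 1))
  refine ⟨N0, ?_⟩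
  intro N hN a0 L0 CP M0 G X _ _ d hlev hcsa hov x y hxy h n0 nn h12 h12' hn0 hnn sg phi Λ hm heq
    hlip z hz z' hz'
  haveI := hlev.ne
  obtain ⟨⟨o, hbs⟩, -, hc2⟩ := hN0 N hN a0 L0 CP M0 G X d hlev hcsa hov x y hxy h h12 h12'
  have v1 := phi_var_bs hR hD hlev.gm hlev.hyp hlev.isom hcsa hov hbs hn0 h12' h12 hnn hm heq
    hlip hz
  have v2 := phi_var_bs hR hD hlev.gm hlev.hyp hlev.isom hcsa hov hbs hn0 h12' h12 hnn hm heq
    hlip hz'
  have hbs' : IsBS G d (1000 * (dl + 1)) h (cW D k N x y) (lW k h x y) o :=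
    { hbs with big := (by omega : 1000 * (dl + 1) ≤ 1000 * (dl + L1 + 1)).trans hbs.big }
  obtain ⟨hlen, -⟩ := hL dl G X d h (cW D k N x y) (lW k h x y) o nn hlev.gm hlev.hyp hlev.isom hbs'
  obtain ⟨-, -, o', ho1, -⟩ := hxy
  have hs0 : 0 ≤ slen d (gW D k x y) := IsomAct.slen_nonneg _
  -- `sg x`
  have hx : (|sg x| : ℝ) ≤ Λ * (B * (slen d (gW D k x y) + 1)) := by
    have h1 := hlip o' (x • o')
    rw [heq] at h1
    have e : sg x + phi o' - phi o' = sg x := by ring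
    rw [e] at h1
    have h2 : ((|sg x| : ℤ) : ℝ) ≤ ((Λ * (d o' (x • o') : ℤ) : ℤ) : ℝ) := by exact_mod_cast h1
    have h3 : (((Λ : ℤ) * (d o' (x • o') : ℤ) : ℤ) : ℝ) = Λ * (d o' (x • o') : ℝ) := by push_cast; ring
    rw [h3] at h2
    have h4 : (Λ : ℝ) * (d o' (x • o') : ℝ) ≤ Λ * (B * (slen d (gW D k x y) + 1)) :=
      mul_le_mul_of_nonneg_left ho1 (by positivity)
    push_cast at h2
    linarith
  have hd1 : (disp d (cW D k N x y) : ℝ) ≤ 104 / 100 * (N * slen d (gW D k x y)) := by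
    have : 0 ≤ (N : ℝ) * slen d (gW D k x y) := by positivity
    linarith
  have v3 : phi z' - phi z ≤ 2 * (Λ * (14 * disp d (cW D k N x y) : ℕ) + 6 * |sg x|) := by
    have a1 := (abs_le.1 v1).1
    have a2 := (abs_le.1 v2).2
    linarith
  have v4 : ((phi z' - phi z : ℤ) : ℝ) ≤
      2 * (Λ * (14 * (disp d (cW D k N x y) : ℝ)) + 6 * |(sg x : ℝ)|) := by
    have : ((phi z' - phi z : ℤ) : ℝ) ≤
      ((2 * (Λ * (14 * disp d (cW D k N x y) : ℕ) + 6 * |sg x|) : ℤ) : ℝ) := by exact_mod_cast v3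
    push_cast at this ⊢
    linarith
  have hΛd : (Λ : ℝ) * (disp d (cW D k N x y) : ℝ) ≤
      Λ * (104 / 100 * (N * slen d (gW D k x y))) :=
    mul_le_mul_of_nonneg_left hd1 (by positivity)
  have hfin : (Λ : ℝ) * (30 * N + 12 * B) * (slen d (gW D k x y) + 1) =
      30 * (Λ * (N * slen d (gW D k x y))) + 30 * (Λ * N) +
        12 * (Λ * (B * (slen d (gW D k x y) + 1))) := by ring
  have hp1 : 0 ≤ (Λ : ℝ) * (N * slen d (gW D k x y)) := by positivity
  have hp2 : 0 ≤ (Λ : ℝ) * N := by positivity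
  rw [hfin]
  linarith

end Pool.Agent.Olsh
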