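import Pool.Agent.Olsh.StmtsG
import Pool.Agent.Olsh.PhiVar

/-!
# MP_3cdb71_al: VAR, variation of an equivariant Lipschitz function on the axis of `w(x,y)`
-/

set_option autoImplicit false

namespace Pool.Agent.Olsh

namespace VAR

/-- A block system with a large constant is a block system with a smaller one. -/
theorem bs_mono {G X : Type} [Group G] [MulAction G X] {d : X → X → ℕ} {K K' h : ℕ} {c : G}
    {t : ℕ → G} {o : X} (H : IsBS G d K' h c t o) (hK : K ≤ K') : IsBS G d K h c t o :=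
  ⟨H.o_mem, hK.trans H.big, H.tper, H.move, H.ncomm, H.cent⟩

end VAR

theorem VAR (h1 : Stmt_EREL) (h2 : Stmt_EDISP) : Stmt_VAR := by
  intro D n0 V B ρ L1 hD G X _ _ d hdir sg phi Lam hsg heq hlip x y hxy e o ho v hv w hw
  obtain ⟨o', hbs⟩ := hdir.bs x y hxy
  have hK : 1000 * (dl + L1 + 1) ≤ 1000000 * (dl + L1 + ρ + 1) := by
    have h0 : 1000 * (dl + L1 + 1) ≤ 1000000 * (dl + L1 + 1) :=
      Nat.mul_le_mul_right _ (by norm_num)
    refine h0.trans (Nat.mul_le_mul_left _ ?_)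
    omega
  have hbs' := VAR.bs_mono hbs hK
  have hn0 : 1000 ≤ n0 := le_trans (by norm_num) hD.n0l
  have h12 : 12 ≤ D.H - 1 := le_trans (by norm_num) hD.h48
  have key : ∀ z ∈ Mn d (lw D x y),
      |phi z - phi o'| ≤ Lam * (14 * disp d (cw D x y) : ℕ) + 6 * |sg x| := fun z hz =>
    phi_var_bs h1 h2 hdir.gm hdir.hyp hdir.isom hdir.csa hdir.ov hbs' hn0 h12 hD.h12 hD.exp
      hsg heq hlip hz
  have hs : |sg x| ≤ (Lam : ℤ) * e := by
    have e1 : sg x = phi (x • o) - phi o := by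
      rw [heq]
      ring
    rw [e1]
    refine (hlip o (x • o)).trans ?_
    exact mul_le_mul_of_nonneg_left (by exact_mod_cast ho) (by positivity)
  have k1 := (abs_le.1 (key v hv)).2
  have k2 := (abs_le.1 (key w hw)).1
  have e2 : ((Lam * (28 * disp d (cw D x y) + 12 * e) : ℕ) : ℤ) =
      2 * ((Lam : ℤ) * (14 * disp d (cw D x y) : ℕ)) + 12 * ((Lam : ℤ) * e) := by
    push_cast
    ring
  rw [e2]
  linarith

end Pool.Agent.Olsh
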