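import Pool.Agent.Olsh.ALC
import Pool.Agent.Olsh.ANGO
import Pool.Agent.Olsh.ANGS
import Pool.Agent.Olsh.ANGX
import Pool.Agent.Olsh.AXQ
import Pool.Agent.Olsh.BEAX
import Pool.Agent.Olsh.CHAIN
import Pool.Agent.Olsh.CLASS
import Pool.Agent.Olsh.CLLL
import Pool.Agent.Olsh.CLLS
import Pool.Agent.Olsh.CLSL
import Pool.Agent.Olsh.CLSS
import Pool.Agent.Olsh.CNJQ
import Pool.Agent.Olsh.CONEA
import Pool.Agent.Olsh.CONEGM
import Pool.Agent.Olsh.CONEISO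
import Pool.Agent.Olsh.CONEPS
import Pool.Agent.Olsh.CONEROT
import Pool.Agent.Olsh.CSAQ
import Pool.Agent.Olsh.ConeAll
import Pool.Agent.Olsh.DICH
import Pool.Agent.Olsh.DIR
import Pool.Agent.Olsh.E85
import Pool.Agent.Olsh.EALG1
import Pool.Agent.Olsh.EALG2
import Pool.Agent.Olsh.ECOM
import Pool.Agent.Olsh.EDISP
import Pool.Agent.Olsh.EFIND
import Pool.Agent.Olsh.EGEO
import Pool.Agent.Olsh.EGP
import Pool.Agent.Olsh.ELEN
import Pool.Agent.Olsh.EMAIN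
import Pool.Agent.Olsh.EPAIR
import Pool.Agent.Olsh.EPALG
import Pool.Agent.Olsh.EPAR
import Pool.Agent.Olsh.EPER
import Pool.Agent.Olsh.EREL
import Pool.Agent.Olsh.ESELF
import Pool.Agent.Olsh.ESEQ
import Pool.Agent.Olsh.ESHIFT
import Pool.Agent.Olsh.ETRA
import Pool.Agent.Olsh.ETRB
import Pool.Agent.Olsh.ETRK
import Pool.Agent.Olsh.ETRX
import Pool.Agent.Olsh.EW1
import Pool.Agent.Olsh.FINE
import Pool.Agent.Olsh.GWA
import Pool.Agent.Olsh.GX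
import Pool.Agent.Olsh.GY
import Pool.Agent.Olsh.IP
import Pool.Agent.Olsh.ISO
import Pool.Agent.Olsh.KFREE
import Pool.Agent.Olsh.KLC
import Pool.Agent.Olsh.KOV
import Pool.Agent.Olsh.KROT
import Pool.Agent.Olsh.LAM
import Pool.Agent.Olsh.LEN
import Pool.Agent.Olsh.LOV
import Pool.Agent.Olsh.LOXQ
import Pool.Agent.Olsh.LT
import Pool.Agent.Olsh.LTB
import Pool.Agent.Olsh.MALN
import Pool.Agent.Olsh.NGON
import Pool.Agent.Olsh.NU1
import Pool.Agent.Olsh.OV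
import Pool.Agent.Olsh.OVAX
import Pool.Agent.Olsh.OVB
import Pool.Agent.Olsh.OVS
import Pool.Agent.Olsh.PMQ
import Pool.Agent.Olsh.POLY
import Pool.Agent.Olsh.PROD
import Pool.Agent.Olsh.PROJ
import Pool.Agent.Olsh.PSA
import Pool.Agent.Olsh.QEX
import Pool.Agent.Olsh.QGM
import Pool.Agent.Olsh.QHYP
import Pool.Agent.Olsh.QPS
import Pool.Agent.Olsh.RLEN
import Pool.Agent.Olsh.SHR
import Pool.Agent.Olsh.SPD
import Pool.Agent.Olsh.SPF
import Pool.Agent.Olsh.SPL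
import Pool.Agent.Olsh.SPS
import Pool.Agent.Olsh.TADD
import Pool.Agent.Olsh.TR
import Pool.Agent.Olsh.TRANSFER
import Pool.Agent.Olsh.TYPES
import Pool.Agent.Olsh.VAR

/-! Closed forms of the modules of MP_3cdb71_al (sections 1-8).  Generated by helper92. -/

set_option autoImplicit false

namespace Pool.Agent.Olsh.ClosedG

open Pool.Agent.Olsh

theorem cPSA : Stmt_PSA := PSA 

theorem cCHAIN : Stmt_CHAIN := CHAIN cPSA

theorem cALC : Stmt_ALC := ALC cPSA cCHAIN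

theorem cPROJ : Stmt_PROJ := PROJ 

theorem cCONEGM : Stmt_CONEGM := CONEGM 

theorem cANGO : Stmt_ANGO := ANGO cPROJ cPSA cCONEGM

theorem cEDISP : Stmt_EDISP := EDISP 

theorem cEGP : Stmt_EGP := EGP cEDISP

theorem cELEN : Stmt_ELEN := ELEN 

theorem cEPER : Stmt_EPER := EPER 

theorem cEREL : Stmt_EREL := EREL cEGP cELEN cEPER

theorem cETRK : Stmt_ETRK := ETRK 

theorem cETRA : Stmt_ETRA := ETRA cEDISP cEGP cELEN cETRK

theorem cESHIFT : Stmt_ESHIFT := ESHIFT cEREL cEPER cETRA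

theorem cKLC : Stmt_KLC := KLC 

theorem cOVS : Stmt_OVS := OVS cESHIFT cEGP cKLC

theorem cETRX : Stmt_ETRX := ETRX cEREL cEPER cETRA cELEN

theorem cOVB : Stmt_OVB := OVB cETRX cEDISP

theorem cRLEN : Stmt_RLEN := RLEN cEREL cELEN

theorem cEW1 : Stmt_EW1 := EW1 

theorem cANGS : Stmt_ANGS := ANGS cANGO cOVS cOVB cKLC cRLEN cEW1

theorem cANGX : Stmt_ANGX := ANGX cPSA cPROJ

theorem cIP : Stmt_IP := IP cPSA cCHAIN

theorem cISO : Stmt_ISO := ISO cPSA cIP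

theorem cLEN : Stmt_LEN := LEN cPSA cCONEGM

theorem cCONEA : Stmt_CONEA := CONEA cCONEGM

theorem cQGM : Stmt_QGM := QGM 

theorem cPOLY : Stmt_POLY := POLY cPSA cIP cQGM

theorem cQHYP : Stmt_QHYP := QHYP cPOLY cQGM

theorem cAXQ : Stmt_AXQ := AXQ cISO cLEN cCONEA cQHYP cQGM cCONEGM

theorem cKFREE : Stmt_KFREE := KFREE cPSA cIP

theorem cQPS : Stmt_QPS := QPS cPSA cKFREE cPOLY cQGM

theorem cBEAX : Stmt_BEAX := BEAX cPSA cQPS cISO cPOLY cPROJ cLEN cCONEGM cQGM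

theorem cDICH : Stmt_DICH := DICH cPSA cQPS cANGX cQGM

theorem cTYPES : Stmt_TYPES := TYPES cPSA cQPS cQGM cDICH cLEN

theorem cNU1 : Stmt_NU1 := NU1 cTYPES cALC cBEAX cQPS cQGM cQHYP

theorem cTADD : Stmt_TADD := TADD 

theorem cMALN : Stmt_MALN := MALN cTADD

theorem cOV : Stmt_OV := OVmain cMALN

theorem cOVAX : Stmt_OVAX := OVAX cOV

theorem cPROD : Stmt_PROD := PROD 

theorem cGX : Stmt_GX := GX cOVAX cMALN cPROD

theorem cGY : Stmt_GY := GY cOVAX cMALN cPROD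

theorem cCLLL : Stmt_CLLL := CLLL cGX cGY

theorem cFINE : Stmt_FINE := FINE cPSA cPOLY cQPS cANGX cKFREE

theorem cLOXQ : Stmt_LOXQ := LOXQ cTYPES cALC cBEAX cQPS cQGM cQHYP

theorem cLTB : Stmt_LTB := LTB cPSA cCHAIN cQPS cQGM cFINE cBEAX cLOXQ

theorem cTR : Stmt_TR := TR cPSA cIP

theorem cNGON : Stmt_NGON := NGON 

theorem cLAM : Stmt_LAM := LAM cPSA cPROJ cNGON cCONEGM

theorem cLT : Stmt_LT := LT cLTB cDICH cTR cLAM cFINE cCONEA cLEN cPROJ cQGM cQHYP cCONEGM cQPS cPSA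

theorem cCLLS : Stmt_CLLS := CLLS cGX cLT cCONEGM

theorem cCLSL : Stmt_CLSL := CLSL cGY cLT cCONEGM cQGM

theorem cCLSS : Stmt_CLSS := CLSS cPSA cCHAIN cLT cFINE cDICH cLEN cQPS cQGM cCONEGM

theorem cCLASS : Stmt_CLASS := CLASS cNU1 cCLLL cCLLS cCLSL cCLSS

theorem cCNJQ : Stmt_CNJQ := CNJQ 

theorem cCONEISO : Stmt_CONEISO := CONEISO 

theorem cCONEPS : Stmt_CONEPS := CONEPS cPROJ cCONEGM cCONEA

theorem cCONEQ : Stmt_CONEQ := CONEQ cCONEA cKFREE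

theorem cCONEROT : Stmt_CONEROT := CONEROT cCONEISO cCONEGM

theorem cGWA : Stmt_GWA := GWA cPSA cQPS cQGM cQHYP cDICH cTR cLAM cOV cCONEGM

theorem cCSAQ : Stmt_CSAQ := CSAQ cGWA cLOXQ cQGM cQHYP

theorem cEPAIR : Stmt_EPAIR := EPAIR cEW1

theorem cETRB : Stmt_ETRB := ETRB cEDISP cEGP cELEN cETRK

theorem cECOM : Stmt_ECOM := ECOM 

theorem cEPAR : Stmt_EPAR := EPAR cECOM

theorem cEFIND : Stmt_EFIND := EFIND.main

theorem cEALG1 : Stmt_EALG1 := EALG1 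

theorem cEGEO : Stmt_EGEO := EGEO cEREL cEPER cETRA cETRB cECOM cEPAR cEFIND cEALG1

theorem cEALG2 : Stmt_EALG2 := EALG2 

theorem cESELF : Stmt_ESELF := ESELF cEGEO cEALG2 cEPER

theorem cEMAIN : Stmt_EMAIN := EMAIN cEGEO cEALG2 cESHIFT cESELF cEGP cEREL

theorem cEPALG : Stmt_EPALG := EPALG cEW1

theorem cE85 : Stmt_E85 := E85 cEMAIN cEPAIR cEPALG cEPER

theorem cDIR : Stmt_DIR := DIR cMALN cOV cEPAIR cE85

theorem cESEQ : Stmt_ESEQ := ESEQ 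

theorem cKOV : Stmt_KOV := KOV cOVS cKLC

theorem cKROT : Stmt_KROT := KROT cRLEN

theorem cLOV : Stmt_LOV := LOV cAXQ cTR cLAM cCONEGM cQGM

theorem cPMQ : Stmt_PMQ := PMQ cTYPES cALC cLT cQPS cQGM cQHYP

theorem cQEX : Stmt_QEX := QEX 

theorem cSHR : Stmt_SHR := SHR cCONEGM

theorem cSPD : Stmt_SPD := SPD cLOV cRLEN cELEN cCNJQ cSHR

theorem cVAR : Stmt_VAR := VAR cEREL cEDISP

theorem cSPF : Stmt_SPF := SPF cAXQ cRLEN cKLC cVAR

theorem cSPL : Stmt_SPL := SPL cAXQ cRLEN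

theorem cSPS : Stmt_SPS := SPS cLOV cRLEN cKLC cCNJQ

theorem cTRANSFER : Stmt_TRANSFER := TRANSFER cQGM cQHYP cQPS cLOXQ cGWA cCSAQ cPMQ

end Pool.Agent.Olsh.ClosedG
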