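import Pool.Agent.Olsh.Guess

/-!
# MP_3cdb71_al: definitions for the cone-off, projection structures, windmill, quotient
(sections 1 to 4 of `Pool/Agent/Olsh/H92.md`)

Conventions: a connected graph is its path metric `d : V → V → ℕ` (`IsGM d`), see `Basic.lean`.
-/

set_option autoImplicit false

namespace Pool.Agent.Olsh

/-! ### General -/

/-- `r`-neighbourhood of a set. -/
def Nd {V : Type} (d : V → V → ℕ) (r : ℕ) (Y : Set V) : Set V := {v | ∃ a ∈ Y, d v a ≤ r}

/-- `η`-quasi-convex sets. -/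
def QC {V : Type} (d : V → V → ℕ) (η : ℕ) (Y : Set V) : Prop :=
  ∀ y ∈ Y, ∀ y' ∈ Y, ∀ z, Bt d y z y' → ∃ w ∈ Y, d z w ≤ η

/-- `y` is a nearest point of `Y` to `v`. -/
def IsPr {V : Type} (d : V → V → ℕ) (Y : Set V) (v y : V) : Prop :=
  y ∈ Y ∧ ∀ z ∈ Y, d v y ≤ d v z

/-- The action of `G` preserves `d`. -/
def Isom (G : Type) {V : Type} [Group G] [MulAction G V] (d : V → V → ℕ) : Prop :=
  ∀ (g : G) (v w : V), d (g • v) (g • w) = d v w

/-- `R`-paths of length `n` from `x` to `y`. -/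
def HasPath {V : Type} (R : V → V → Prop) (n : ℕ) (x y : V) : Prop :=
  ∃ p : ℕ → V, p 0 = x ∧ p n = y ∧ ∀ i, i < n → R (p i) (p (i + 1))

/-- The path metric of a relation. -/
noncomputable def pdist {V : Type} (R : V → V → Prop) (x y : V) : ℕ :=
  sInf {n | HasPath R n x y}

/-! ### The cone-off -/

/-- Adjacency in the cone-off: vertices `v` of `X` at `d`-distance at most `u` are adjacent, and an
apex `s` is adjacent to all points of `Y s`. -/
def coneAdj {X S : Type} (d : X → X → ℕ) (u : ℕ) (Y : S → Set X) : X ⊕ S → X ⊕ S → Prop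
  | Sum.inl v, Sum.inl w => v ≠ w ∧ d v w ≤ u
  | Sum.inl v, Sum.inr s => v ∈ Y s
  | Sum.inr s, Sum.inl v => v ∈ Y s
  | Sum.inr _, Sum.inr _ => False

/-- The metric of the cone-off. -/
noncomputable def cd {X S : Type} (d : X → X → ℕ) (u : ℕ) (Y : S → Set X) : X ⊕ S → X ⊕ S → ℕ :=
  pdist (coneAdj d u Y)

/-- `v` is a base point of the vertex `a` of the cone-off. -/
def IsBase {X S : Type} (Y : S → Set X) (a : X ⊕ S) (v : X) : Prop :=
  match a with
  | Sum.inl w => v = w
  | Sum.inr s => v ∈ Y s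

/-- The set of apexes. -/
def apx (X S : Type) : Set (X ⊕ S) := Set.range Sum.inr

/-- The pseudo-metric on the neighbours of an apex: the metric of `X`. -/
def cdX {X S : Type} (d : X → X → ℕ) (_s : X ⊕ S) : X ⊕ S → X ⊕ S → ℕ
  | Sum.inl v, Sum.inl w => d v w
  | _, _ => 0

/-- The constant for thin guesses with `h = 5`. -/
noncomputable def dl : ℕ := (guess_geodesics 5).choose

/-- The Hausdorff constant for guesses with `h = 5`. -/
noncomputable def kl : ℕ := (guess_geodesics 5).choose_spec.choose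

theorem dl_kl (V : Type) (d : V → V → ℕ) (L : V → V → Set V) (hd : IsGM d)
    (hL : IsGuess d 5 L) : Hyp d dl ∧
      (∀ x y, ∀ w ∈ L x y, ∀ (m : ℕ) (p : ℕ → V), IsGeo d m p → p 0 = x → p m = y →
        ∃ i, i ≤ m ∧ d w (p i) ≤ kl) ∧
      ∀ x y z, Bt d x z y → ∃ w ∈ L x y, d z w ≤ kl :=
  (guess_geodesics 5).choose_spec.choose_spec V d L hd hL

/-- Hypotheses on the family `Y` (without group).  `dl` is the hyperbolicity constant, `η` the
quasi-convexity constant, `η1` the size of neighbourhoods in the overlap condition, `u` the scale. -/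
structure ConeH {X S : Type} (d : X → X → ℕ) (u : ℕ) (Y : S → Set X) (η η1 : ℕ) : Prop where
  gm : IsGM d
  hyp : Hyp d dl
  ne : ∀ s, (Y s).Nonempty
  qc : ∀ s, QC d η (Y s)
  ov : ∀ s t, s ≠ t → ∀ v w, v ∈ Nd d η1 (Y s) → v ∈ Nd d η1 (Y t) → w ∈ Nd d η1 (Y s) →
    w ∈ Nd d η1 (Y t) → 100 * d v w ≤ u

/-- Hypotheses with the group `G` acting freely on `X`, and rotation at least `L`. -/
structure ConeG (G : Type) {X S : Type} [Group G] [MulAction G X] [MulAction G S]
    (d : X → X → ℕ) (u L : ℕ) (Y : S → Set X) (η η1 : ℕ) : Prop extends ConeH d u Y η η1 where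
  isom : Isom G d
  free : ∀ (g : G) (v : X), g • v = v → g = 1
  Ysmul : ∀ (g : G) (s : S) (v : X), v ∈ Y s → g • v ∈ Y (g • s)
  rot : ∀ (s : S) (r : G), r • s = s → r ≠ 1 → ∀ y ∈ Y s, L ≤ d y (r • y)

/-! ### Projection structures -/

/-- The neighbours of `s` in the direction of `a`. -/
def Nb {A : Type} (d : A → A → ℕ) (s a : A) : Set A := {y | d y s = 1 ∧ d a y + 1 = d a s}

/-- The angle at `s` between `a` and `b` (`0` if `a = s` or `b = s`). -/
noncomputable def ang {A : Type} (d : A → A → ℕ) (c : A → A → A → ℕ) (s a b : A) : ℕ :=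
  sSup {n | ∃ y ∈ Nb d s a, ∃ y' ∈ Nb d s b, n = c s y y'}

/-- Projection structure: apexes `ap`, pseudo-metrics `c s` on the neighbours of `s`, and the
cut vertex property: two neighbours of `s` in the directions of `a`, `b` further apart than `T0`
force a geodesic from `a` to `b` through `s`. -/
structure IsPS {A : Type} (d : A → A → ℕ) (ap : Set A) (c : A → A → A → ℕ) (T0 : ℕ) : Prop where
  gm : IsGM d
  nadj : ∀ s ∈ ap, ∀ t ∈ ap, d s t ≠ 1
  cself : ∀ s ∈ ap, ∀ y, d y s = 1 → c s y y = 0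
  csymm : ∀ s ∈ ap, ∀ y y', d y s = 1 → d y' s = 1 → c s y y' = c s y' y
  ctri : ∀ s ∈ ap, ∀ y y' y'', d y s = 1 → d y' s = 1 → d y'' s = 1 →
    c s y y'' ≤ c s y y' + c s y' y''
  bgi : ∀ s ∈ ap, ∀ a b y y', y ∈ Nb d s a → y' ∈ Nb d s b → T0 < c s y y' →
    d a b = d a s + d s b

/-- Rotating families on projection structures: `G` acts, freely outside the apexes, and
nontrivial elements fixing an apex `s` rotate at least by `L` around `s`. -/
structure IsRot (G : Type) {A : Type} [Group G] [MulAction G A] (d : A → A → ℕ) (ap : Set A)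
    (c : A → A → A → ℕ) (T0 L : ℕ) : Prop extends IsPS d ap c T0 where
  isom : Isom G d
  ap_smul : ∀ (g : G), ∀ s ∈ ap, g • s ∈ ap
  c_smul : ∀ (g : G), ∀ s ∈ ap, ∀ y y', d y s = 1 → d y' s = 1 →
    c (g • s) (g • y) (g • y') = c s y y'
  free : ∀ (g : G) (v : A), v ∉ ap → g • v = v → g = 1
  nbr : ∀ s ∈ ap, ∃ y, d y s = 1
  rot : ∀ s ∈ ap, ∀ (r : G), r • s = s → r ≠ 1 → ∀ y, d y s = 1 → L ≤ c s y (r • y)
  one_le : 1 ≤ T0
  big : 2000 * T0 < L

/-- The subgroup generated by all elements which fix an apex. -/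
def KK (G : Type) {A : Type} [Group G] [MulAction G A] (ap : Set A) : Subgroup G :=
  Subgroup.closure {g | ∃ s ∈ ap, g • s = s}

/-! ### Quotients -/

/-- `(G', A', d')` is the quotient of `(G, A, d)` by the normal subgroup `K`. -/
structure IsQuot {G A G' A' : Type} [Group G] [MulAction G A] [Group G'] [MulAction G' A']
    (K : Subgroup G) (d : A → A → ℕ) (d' : A' → A' → ℕ) (π : G →* G') (q : A → A') : Prop where
  surjG : Function.Surjective π
  ker : ∀ g, π g = 1 ↔ g ∈ K
  surj : Function.Surjective q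
  equiv : ∀ (g : G) (a : A), q (g • a) = π g • q a
  fib : ∀ a b, q a = q b ↔ ∃ k ∈ K, k • a = b
  le : ∀ a b, d' (q a) (q b) ≤ d a b
  ex : ∀ a b, ∃ k ∈ K, d a (k • b) = d' (q a) (q b)

/-- The pseudo-metrics on the neighbours of apexes of the quotient: minimum over all lifts. -/
noncomputable def cq {A A' : Type} (d : A → A → ℕ) (c : A → A → A → ℕ) (q : A → A')
    (s' y' z' : A') : ℕ :=
  sInf {n | ∃ s y z, q s = s' ∧ q y = y' ∧ q z = z' ∧ d y s = 1 ∧ d z s = 1 ∧ n = c s y z}

end Pool.Agent.Olsh
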