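import Pool.Agent.Olsh.Iso

/-!
# MP_3cdb71_al: the law as a word map, markings of levels, the step relation
(section 11 of `Pool/Agent/Olsh/H92.md`)
-/

set_option autoImplicit false

namespace Pool.Agent.Olsh

/-! ### The law -/

/-- Parameters of the law: exponents `d`, `k`, `N`, number of blocks `H` (with `12 ∣ H - 1`),
exponents `nn i`, `i < H`. -/
structure LD where
  d : ℕ
  k : ℕ
  N : ℕ
  H : ℕ
  nn : ℕ → ℕ

section law

variable {G : Type*} [Group G]

/-- `Y = y ^ k`. -/
def lY (D : LD) (y : G) : G := y ^ D.k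

/-- `X_j = Y⁻ʲ x Yʲ`. -/
def lX (D : LD) (x y : G) (j : ℕ) : G := (lY D y ^ j)⁻¹ * x * lY D y ^ j

/-- `P = x ^ d`. -/
def lP (D : LD) (x : G) : G := x ^ D.d

/-- `Q = Y⁻¹ P Y`. -/
def lQ (D : LD) (x y : G) : G := (lY D y)⁻¹ * lP D x * lY D y

/-- `g = P Q⁻¹`. -/
def lg (D : LD) (x y : G) : G := lP D x * (lQ D x y)⁻¹

/-- `t = P⁻¹ Q`. -/
def lt (D : LD) (x y : G) : G := (lP D x)⁻¹ * lQ D x y

/-- `c = g ^ N t`. -/
def lc (D : LD) (x y : G) : G := lg D x y ^ D.N * lt D x y

/-- The periodic sequence of letters: `X0 X0 X1 X1 X2 X2 X0⁻¹ X0⁻¹ X1⁻¹ X1⁻¹ X2⁻¹ X2⁻¹`. -/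
def ltr (D : LD) (x y : G) (i : ℕ) : G :=
  if i % 12 < 6 then lX D x y (i % 12 / 2) else (lX D x y ((i % 12 - 6) / 2))⁻¹

/-- The letters of the law: `t_0 = X3 X0⁻¹`, then the periodic sequence. -/
def lT (D : LD) (x y : G) : ℕ → G
  | 0 => lX D x y 3 * (lX D x y 0)⁻¹
  | i + 1 => ltr D x y i

/-- The initial pieces `t_0 c^{n_0} t_1 c^{n_1} ... t_{i-1} c^{n_{i-1}}` of the law. -/
def lS (D : LD) (x y : G) : ℕ → G
  | 0 => 1
  | i + 1 => lS D x y i * lT D x y i * lc D x y ^ D.nn i

/-- The law `w(x,y) = t_0 c^{n_0} t_1 c^{n_1} ... t_{H-1} c^{n_{H-1}}`. -/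
def wl (D : LD) (x y : G) : G := lS D x y D.H

end law

/-! ### Markings and the step relation -/

/-- A marked level: a group `G` which is a quotient of the free group on two letters, acting on
a set `X` with distance `d`. -/
structure Lvl where
  G : Type
  X : Type
  [grp : Group G]
  [act : MulAction G X]
  d : X → X → ℕ
  pi : FreeGroup Bool →* G
  surj : Function.Surjective pi
  o : X

attribute [instance] Lvl.grp Lvl.act

/-- Some point is moved by `x` and `y` at most by `n`. -/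
def Lvl.Small (L : Lvl) (x y : L.G) (n : ℕ) : Prop :=
  ∃ v : L.X, L.d v (x • v) ≤ n ∧ L.d v (y • v) ≤ n

/-- `L'` is a next level of `L`: all values of the law with noncommuting short arguments are
killed, and the distances are divided by `u`. -/
structure StepRel (D : LD) (u T : ℕ) (L L' : Lvl) : Prop where
  ker_le : ∀ g, L.pi g = 1 → L'.pi g = 1
  kills : ∀ x y : FreeGroup Bool, L.Small (L.pi x) (L.pi y) T → ¬ Commute (L.pi x) (L.pi y) →
    L'.pi (wl D x y) = 1
  shrink : ∀ (x y : FreeGroup Bool) (n : ℕ), L.Small (L.pi x) (L.pi y) n →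
    L'.Small (L'.pi x) (L'.pi y) ((n + u - 1) / u)

/-- Different positive words in the free group on two letters have different images. -/
def PosInj {G : Type*} [Group G] (pi : FreeGroup Bool →* G) : Prop :=
  ∀ P Q : List Bool, pi (P.map FreeGroup.of).prod = pi (Q.map FreeGroup.of).prod → P = Q

end Pool.Agent.Olsh
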