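import Pool.Agent.Olsh.Level0

/-!
# MP_3cdb71_al: the exponent sum and the positive words pass to the next level
-/

set_option autoImplicit false

namespace Pool.Agent.Olsh

open FreeGroup

/-- The exponent sum on a level: `phi` is equivariant with respect to the homomorphism `sg`,
`Λ`-Lipschitz, positive words are almost geodesic and pairwise different. -/
structure PhiL (G : Type) {X : Type} [Group G] [MulAction G X] (d : X → X → ℕ) (ψ : F2 →* G)
    (Λ : ℕ) (o : X) (sg : G → ℤ) (phi : X → ℤ) : Prop where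
  sg_mul : ∀ g h, sg (g * h) = sg g + sg h
  sg_psi : ∀ x, sg (ψ x) = es x
  equi : ∀ g v, phi (g • v) = sg g + phi v
  lip : ∀ v w, |phi w - phi v| ≤ Λ * (d v w : ℤ)
  pos : ∀ P : List Bool, Λ * d o (ψ (P.map of).prod • o) ≤ P.length + 2 * Λ
  inj : PosInj ψ
  one_le : 1 ≤ Λ

theorem PhiL.sg_one {G X : Type} [Group G] [MulAction G X] {d : X → X → ℕ} {ψ : F2 →* G}
    {Λ : ℕ} {o : X} {sg : G → ℤ} {phi : X → ℤ} (h : PhiL G d ψ Λ o sg phi) : sg 1 = 0 := by
  have := h.sg_mul 1 1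
  rw [mul_one] at this
  omega

theorem PhiL.sg_inv {G X : Type} [Group G] [MulAction G X] {d : X → X → ℕ} {ψ : F2 →* G}
    {Λ : ℕ} {o : X} {sg : G → ℤ} {phi : X → ℤ} (h : PhiL G d ψ Λ o sg phi) (g : G) :
    sg g⁻¹ = -sg g := by
  have h1 := h.sg_mul g g⁻¹
  rw [mul_inv_cancel, h.sg_one] at h1
  omega

/-- Level 0. -/
theorem phiL0 : PhiL F2 td (MonoidHom.id F2) 1 (1 : F2) es es where
  sg_mul := es_mul
  sg_psi _ := rfl
  equi g v := es_mul g v
  lip v w := by
    have := es_lip v w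
    push_cast
    linarith
  pos P := by
    have h1 : td 1 ((P.map of).prod • (1 : F2)) = P.length := by
      rw [smul_eq_mul, mul_one]
      unfold td
      rw [inv_one, one_mul, pos_norm]
    show 1 * td 1 ((P.map of).prod • (1 : F2)) ≤ _
    rw [h1]
    omega
  inj := pos_inj0
  one_le := le_rfl

/-- The function on the cone-off. -/
noncomputable def phiC {X S : Type} (Y : S → Set X) (phi : X → ℤ) : X ⊕ S → ℤ
  | Sum.inl v => phi v
  | Sum.inr s => sSup (phi '' Y s)

section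

variable {G X S : Type} [Group G] [MulAction G X] [MulAction G S] {d : X → X → ℕ} {u L : ℕ}
  {Y : S → Set X} {η η1 : ℕ} {ψ : F2 →* G} {Λ : ℕ} {o : X} {sg : G → ℤ} {phi : X → ℤ}

theorem phi_Y_bdd (hne : ∀ s, (Y s).Nonempty) {B : ℤ}
    (hvar : ∀ s, ∀ y ∈ Y s, ∀ y' ∈ Y s, phi y' - phi y ≤ B) (s : S) :
    BddAbove (phi '' Y s) := by
  obtain ⟨y, hy⟩ := hne s
  refine ⟨phi y + B, ?_⟩
  rintro _ ⟨y', hy', rfl⟩
  have := hvar s y hy y' hy'
  omega

theorem phiC_s (hne : ∀ s, (Y s).Nonempty) {B : ℤ}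
    (hvar : ∀ s, ∀ y ∈ Y s, ∀ y' ∈ Y s, phi y' - phi y ≤ B) (s : S) :
    ∃ y ∈ Y s, phiC Y phi (Sum.inr s) = phi y := by
  have h := Int.csSup_mem ((hne s).image phi) (phi_Y_bdd hne hvar s)
  obtain ⟨y, hy, e⟩ := h
  exact ⟨y, hy, e.symm⟩

theorem phiC_equi (h : PhiL G d ψ Λ o sg phi) (hne : ∀ s, (Y s).Nonempty) {B : ℤ}
    (hvar : ∀ s, ∀ y ∈ Y s, ∀ y' ∈ Y s, phi y' - phi y ≤ B)
    (hY : ∀ (g : G) (s : S) (v : X), v ∈ Y s → g • v ∈ Y (g • s)) (g : G) (a : X ⊕ S) :
    phiC Y phi (g • a) = sg g + phiC Y phi a := by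
  cases a with
  | inl v => exact h.equi g v
  | inr s =>
    have key : ∀ (g : G) (s : S), phiC Y phi (Sum.inr s) + sg g ≤ phiC Y phi (Sum.inr (g • s)) := by
      intro g s
      obtain ⟨y, hy, e⟩ := phiC_s hne hvar s
      rw [e]
      have h1 : phi (g • y) ≤ phiC Y phi (Sum.inr (g • s)) :=
        le_csSup (phi_Y_bdd hne hvar _) ⟨_, hY g s y hy, rfl⟩
      have h2 := h.equi g y
      omega
    have h1 := key g s
    have h2 := key g⁻¹ (g • s)
    rw [inv_smul_smul, h.sg_inv] at h2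
    show phiC Y phi (Sum.inr (g • s)) = _
    omega

theorem phiC_adj (h : PhiL G d ψ Λ o sg phi) (hne : ∀ s, (Y s).Nonempty)
    (hvar : ∀ s, ∀ y ∈ Y s, ∀ y' ∈ Y s, 10 * (phi y' - phi y) ≤ Λ * (u : ℤ)) {a b : X ⊕ S}
    (hab : coneAdj d u Y a b) : |phiC Y phi b - phiC Y phi a| ≤ (u * Λ : ℕ) := by
  have hu0 : (0 : ℤ) ≤ (Λ : ℤ) * u := by positivity
  have hvar' : ∀ s, ∀ y ∈ Y s, ∀ y' ∈ Y s, phi y' - phi y ≤ Λ * (u : ℤ) := by
    intro s y hy y' hy'
    have := hvar s y hy y' hy'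
    omega
  have hcast : ((u * Λ : ℕ) : ℤ) = Λ * u := by push_cast; ring
  rw [hcast]
  have key : ∀ (v : X) (s : S), v ∈ Y s →
      |phiC Y phi (Sum.inr s) - phi v| ≤ (Λ : ℤ) * u := by
    intro v s hv
    obtain ⟨y, hy, e⟩ := phiC_s hne hvar' s
    rw [e, abs_le]
    have h1 := hvar' s v hv y hy
    have h2 := hvar' s y hy v hv
    constructor <;> omega
  match a, b, hab with
  | Sum.inl v, Sum.inl w, hab =>
    have h1 := h.lip v w
    have h2 : (Λ : ℤ) * (d v w : ℤ) ≤ Λ * u := by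
      apply mul_le_mul_of_nonneg_left _ (by positivity)
      exact_mod_cast hab.2
    exact h1.trans h2
  | Sum.inl v, Sum.inr s, hab => exact key v s hab
  | Sum.inr s, Sum.inl v, hab =>
    have := key v s hab
    rw [abs_sub_comm] at this
    exact this

/-- A function which is Lipschitz on edges is Lipschitz. -/
theorem lip_of_adj {A : Type} {dA : A → A → ℕ} (hd : IsGM dA) {f : A → ℤ} {B : ℤ}
    (hf : ∀ a b, dA a b = 1 → |f b - f a| ≤ B) (a b : A) : |f b - f a| ≤ B * dA a b := by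
  obtain ⟨n, hn⟩ : ∃ n, n = dA a b := ⟨_, rfl⟩
  induction n generalizing a b with
  | zero =>
    have := hd.eq_of_zero hn.symm
    subst this
    rw [← hn]
    simp
  | succ n ih =>
    obtain ⟨z, hz1, hz2⟩ := hd.mid a b 1 (by omega)
    have h1 := hf a z hz1
    have h2 := ih z b (by omega)
    have h3 := abs_add_le (f z - f a) (f b - f z)
    have e : f z - f a + (f b - f z) = f b - f a := by ring
    rw [e] at h3
    have e2 : dA z b = n := by omega
    rw [e2] at h2
    rw [← hn]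
    push_cast
    linarith

end

/-- The exponent sum on the next level. -/
theorem phi_step (hGM : Stmt_CONEGM) (hKF : Stmt_KFREE) (hPSA : Stmt_PSA) (hANG : Stmt_ANGX) :
    ∀ η η1 C : ℕ, ∃ U : ℕ, ∀ (G G' X S A' : Type) [Group G] [MulAction G X] [MulAction G S]
    [Group G'] [MulAction G' A'] (d : X → X → ℕ) (u L : ℕ) (Y : S → Set X) (d' : A' → A' → ℕ)
    (π : G →* G') (q : X ⊕ S → A'), ConeQ G G' d u L Y η η1 C d' π q → U ≤ u → U * u ≤ L →
    ∀ (ψ : F2 →* G) (Λ : ℕ) (o : X) (sg : G → ℤ) (phi : X → ℤ), PhiL G d ψ Λ o sg phi →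
    (∀ s, ∀ y ∈ Y s, ∀ y' ∈ Y s, 10 * (phi y' - phi y) ≤ Λ * (u : ℤ)) →
    (∀ (s : S) (r : G), r • s = s → sg r = 0) →
    ∃ (sg' : G' → ℤ) (phi' : A' → ℤ), PhiL G' d' (π.comp ψ) (u * Λ) (q (Sum.inl o)) sg' phi' ∧
      (∀ g, sg' (π g) = sg g) ∧ ∀ v, phi' (q (Sum.inl v)) = phi v := by
  intro η η1 C
  obtain ⟨C', hC'⟩ := hANG η η1 C
  refine ⟨2 * C' + 12 * C + 20, ?_⟩
  intro G G' X S A' _ _ _ _ _ d u L Y d' π q hQ hu hL ψ Λ o sg phi h hvar hst
  have hne : ∀ s, (Y s).Nonempty := hQ.ne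
  have hdC := hGM X S d u Y hQ.gm hQ.conep.one_le hne
  have hvar' : ∀ s, ∀ y ∈ Y s, ∀ y' ∈ Y s, phi y' - phi y ≤ Λ * (u : ℤ) := by
    intro s y hy y' hy'
    have := hvar s y hy y' hy'
    have : (0 : ℤ) ≤ (Λ : ℤ) * u := by positivity
    omega
  -- `sg` vanishes on the kernel
  have hK : ∀ k ∈ KK G (apx X S), sg k = 0 := by
    intro k hk
    induction hk using Subgroup.closure_induction with
    | mem k hk =>
      obtain ⟨s, ⟨s, rfl⟩, hs⟩ := hk
      exact hst s k (Sum.inr_injective hs)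
    | one => exact h.sg_one
    | mul a b _ _ ha hb => rw [h.sg_mul, ha, hb, add_zero]
    | inv a _ ha => rw [h.sg_inv, ha, neg_zero]
  -- definition on the group
  have hsg : ∀ g g' : G, π g = π g' → sg g = sg g' := by
    intro g g' hg
    have h1 : π (g⁻¹ * g') = 1 := by rw [_root_.map_mul, _root_.map_inv, hg, inv_mul_cancel]
    have h2 := hK _ ((hQ.quot.ker _).1 h1)
    rw [h.sg_mul, h.sg_inv] at h2
    omega
  choose lg hlg using hQ.quot.surjG
  choose la hla using hQ.quot.surj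
  have hphi : ∀ a b : X ⊕ S, q a = q b → phiC Y phi a = phiC Y phi b := by
    intro a b hab
    obtain ⟨k, hk, e⟩ := (hQ.quot.fib a b).1 hab
    rw [← e, phiC_equi h hne hvar' hQ.Ysmul, hK k hk, zero_add]
  have hsg' : ∀ g, sg (lg (π g)) = sg g := fun g => hsg _ _ (hlg _)
  have hphi' : ∀ a, phiC Y phi (la (q a)) = phiC Y phi a := fun a => hphi _ _ (hla _)
  refine ⟨fun g => sg (lg g), fun a => phiC Y phi (la a), ?_, hsg', fun v => hphi' (Sum.inl v)⟩
  refine ⟨?_, ?_, ?_, ?_, ?_, ?_, ?_⟩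
  · intro g g'
    obtain ⟨g, rfl⟩ := hQ.quot.surjG g
    obtain ⟨g', rfl⟩ := hQ.quot.surjG g'
    show sg (lg (π g * π g')) = sg (lg (π g)) + sg (lg (π g'))
    rw [← _root_.map_mul, hsg', hsg', hsg', h.sg_mul]
  · intro x
    show sg (lg (π (ψ x))) = _
    rw [hsg', h.sg_psi]
  · intro g v
    obtain ⟨g, rfl⟩ := hQ.quot.surjG g
    obtain ⟨v, rfl⟩ := hQ.quot.surj v
    show phiC Y phi (la (π g • q v)) = sg (lg (π g)) + phiC Y phi (la (q v))
    rw [← hQ.quot.equiv, hphi', hphi', hsg', phiC_equi h hne hvar' hQ.Ysmul]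
  · intro v w
    obtain ⟨v, rfl⟩ := hQ.quot.surj v
    obtain ⟨w, rfl⟩ := hQ.quot.surj w
    show |phiC Y phi (la (q w)) - phiC Y phi (la (q v))| ≤ _
    rw [hphi', hphi']
    obtain ⟨k, hk, e⟩ := hQ.quot.ex v w
    have h1 : phiC Y phi w = phiC Y phi (k • w) := by
      rw [phiC_equi h hne hvar' hQ.Ysmul, hK k hk, zero_add]
    rw [h1, ← e]
    refine lip_of_adj hdC.1 ?_ v (k • w)
    intro a b hab
    exact phiC_adj h hne hvar ((hdC.2.1 a b).1 hab)
  · intro P
    set w := ψ (P.map of).prod with hw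
    have h1 := h.pos P
    rw [← hw] at h1
    set D := d o (w • o) with hD
    have hu1 : 1 ≤ u := hQ.conep.one_le
    set n := (D + u - 1) / u with hn
    have h2 : D ≤ n * u := by
      have h3 := Nat.div_add_mod (D + u - 1) u
      have h4 := Nat.mod_lt (D + u - 1) hu1
      rw [← hn] at h3
      have h5 : n * u = u * n := mul_comm _ _
      omega
    have h3 : n * u ≤ D + u - 1 := by
      rw [hn]
      exact Nat.div_mul_le_self _ _
    have h4 : cd d u Y (Sum.inl o) (Sum.inl (w • o)) ≤ n := hdC.2.2 n o (w • o) h2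
    have h5 : d' (q (Sum.inl o)) (q (Sum.inl (w • o))) ≤ n :=
      (hQ.quot.le _ _).trans h4
    have h6 : q (Sum.inl (w • o)) = (π.comp ψ) (P.map of).prod • q (Sum.inl o) := by
      show _ = π (ψ (P.map of).prod) • q (Sum.inl o)
      rw [← hQ.quot.equiv]
      rfl
    rw [← h6]
    have hΛ := h.one_le
    calc u * Λ * d' (q (Sum.inl o)) (q (Sum.inl (w • o))) ≤ u * Λ * n :=
          Nat.mul_le_mul_left _ h5
      _ = Λ * (n * u) := by ring
      _ ≤ Λ * (D + (u - 1)) := Nat.mul_le_mul_left _ (by omega)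
      _ = Λ * D + Λ * (u - 1) := by ring
      _ ≤ P.length + 2 * Λ + Λ * (u - 1) := Nat.add_le_add_right h1 _
      _ = P.length + (2 * Λ + Λ * (u - 1)) := by ring
      _ ≤ P.length + 2 * (u * Λ) := by
          have e : 2 * Λ + Λ * (u - 1) = Λ * (u + 1) := by
            obtain ⟨m, rfl⟩ : ∃ m, u = m + 1 := ⟨u - 1, by omega⟩
            simp only [Nat.add_sub_cancel]
            ring
          have e2 : Λ * (u + 1) ≤ Λ * (2 * u) := Nat.mul_le_mul_left _ (by omega)
          have e3 : Λ * (2 * u) = 2 * (u * Λ) := by ring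
          omega
  · -- injectivity on positive words
    intro P Q hPQ
    apply h.inj
    by_contra hne'
    set p := ψ (P.map of).prod with hp
    set r := ψ (Q.map of).prod with hr
    have h0 : π p = π r := hPQ
    set k := r * p⁻¹ with hk
    have hk1 : k ≠ 1 := by
      intro e
      rw [hk, mul_inv_eq_one] at e
      exact hne' e.symm
    have hkK : k ∈ KK G (apx X S) := by
      rw [← hQ.quot.ker, hk, _root_.map_mul, _root_.map_inv, h0, mul_inv_cancel]
    obtain ⟨hKn, hKf, -⟩ := hKF G (X ⊕ S) (cd d u Y) (apx X S) (cdX d) (C * u) L hQ.rotc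
    have hnap : ∀ v : X, (Sum.inl v : X ⊕ S) ∉ apx X S := by
      rintro v ⟨s, hs⟩
      exact Sum.inr_ne_inl hs
    obtain ⟨s, ⟨s, rfl⟩, hs⟩ := hKf (Sum.inl (p • o)) (hnap _) k hkK hk1
    have e1 : k • (Sum.inl (p • o) : X ⊕ S) = Sum.inl (r • o) := by
      show Sum.inl (k • p • o) = _
      rw [smul_smul, hk, inv_mul_cancel_right]
    rw [e1] at hs
    obtain ⟨-, -, hmx, hsym, htri, -, -, -, -, -, -⟩ :=
      hPSA (X ⊕ S) (cd d u Y) (apx X S) (cdX d) (C * u) hQ.rotc.toIsPS (Sum.inr s) ⟨s, rfl⟩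
    have htr := htri (Sum.inl (p • o)) (Sum.inl o) (Sum.inl (r • o)) Sum.inl_ne_inr
    rw [hsym (Sum.inl (p • o)) (Sum.inl o)] at htr
    -- both angles are small
    have key : ∀ R : List Bool, ∀ w : G, w = ψ (R.map of).prod →
        ang (cd d u Y) (cdX d) (Sum.inr s) (Sum.inl o) (Sum.inl (w • o)) ≤ (C' + 3) * u := by
      intro R w hw
      by_contra hbig
      obtain ⟨y, hy, y', hy', hc⟩ := hmx (Sum.inl o) (Sum.inl (w • o)) Sum.inl_ne_inr
        Sum.inl_ne_inr
      -- neighbours of `s` are points of `Y s`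
      have hin : ∀ z : X ⊕ S, cd d u Y z (Sum.inr s) = 1 → ∃ v ∈ Y s, z = Sum.inl v := by
        intro z hz
        have h1 := (hdC.2.1 _ _).1 hz
        cases z with
        | inl v => exact ⟨v, h1, rfl⟩
        | inr t => exact h1.elim
      obtain ⟨v, hv, rfl⟩ := hin y hy.1
      obtain ⟨v', hv', rfl⟩ := hin y' hy'.1
      have hc' : d v v' = ang (cd d u Y) (cdX d) (Sum.inr s) (Sum.inl o) (Sum.inl (w • o)) := hc
      have h3 : C' * u < d v v' := by
        have : C' * u ≤ (C' + 3) * u := Nat.mul_le_mul_right _ (by omega)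
        omega
      have h4 := (hC' X S d u Y hQ.conep (by omega) s o (w • o)).2 v v' hy hy' h3
      have h5 := h.pos R
      rw [← hw] at h5
      have h6 : phi (w • o) = R.length + phi o := by
        rw [h.equi, hw, h.sg_psi, es_pos]
      have h7 := h.lip o v
      have h8 := h.lip v' (w • o)
      have h9 := hvar s v hv v' hv'
      have h10 := le_abs_self (phi v - phi o)
      have h11 := le_abs_self (phi (w • o) - phi v')
      have h12 : (C' + 3) * u = C' * u + 3 * u := by ring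
      have hΛ : (1 : ℤ) ≤ Λ := by exact_mod_cast h.one_le
      have h5' : (Λ : ℤ) * (d o (w • o) : ℤ) ≤ R.length + 2 * Λ := by exact_mod_cast h5
      have h13 : (d o v : ℤ) + d v v' + d v' (w • o) ≤ d o (w • o) + C' * u := by exact_mod_cast h4
      have h14 : (C' : ℤ) * u + 3 * u < d v v' := by
        have : C' * u + 3 * u < d v v' := by omega
        exact_mod_cast this
      have h15 : (Λ : ℤ) * ((d o v : ℤ) + d v v' + d v' (w • o)) ≤
          Λ * (d o (w • o) + C' * u) := mul_le_mul_of_nonneg_left h13 (by omega)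
      have h16 : (Λ : ℤ) * (C' * u + 3 * u) ≤ Λ * d v v' :=
        mul_le_mul_of_nonneg_left h14.le (by omega)
      have h17 : (u : ℤ) ≥ 20 := by
        have : 20 ≤ u := by omega
        exact_mod_cast this
      have h18 : (Λ : ℤ) * 20 ≤ Λ * u := mul_le_mul_of_nonneg_left h17 (by omega)
      nlinarith
    have kP := key P p hp
    have kQ := key Q r hr
    have hL' : (2 * C' + 12 * C + 20) * u = 2 * ((C' + 3) * u) + 12 * (C * u) + 14 * u := by ring
    have hu1 : 1 ≤ u := hQ.conep.one_le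
    omega
  · have := h.one_le
    have hu1 : 1 ≤ u := hQ.conep.one_le
    exact Nat.mul_pos hu1 this

end Pool.Agent.Olsh
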