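import Pool.Agent.Olsh.DefsE
import Pool.Agent.Olsh.PhiStep

/-!
# MP_3cdb71_al: definitions for sections 9 and 10 of `Pool/Agent/Olsh/H92.md`
(S-pairs, the killed family, stages, the step)
-/

set_option autoImplicit false

namespace Pool.Agent.Olsh

/-- The law of the parameters `D`, in the form of `DefsE` (equal to `wl D x y` if `1 ≤ D.H`). -/
def lw {G : Type} [Group G] (D : LD) (x y : G) : G := lawW D.d D.k D.N (D.H - 1) D.nn x y

/-- The word `c` of the parameters `D`. -/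
def cw {G : Type} [Group G] (D : LD) (x y : G) : G := cW D.d D.k D.N x y

/-- Naturality of `lw`. -/
theorem map_lw {G G' : Type} [Group G] [Group G'] (φ : G →* G') (D : LD) (x y : G) :
    φ (lw D x y) = lw D (φ x) (φ y) := map_lawW φ _ _ _ _ _ x y

/-- The conclusion of the overlap theorem 8.5 (`Stmt_E85`). -/
def Cnj {G : Type} [Group G] (D : LD) (x y x' y' q : G) : Prop :=
  ∃ (b : G) (r : ℤ), b * x' * b⁻¹ = x ∧ b * yW D.k y' * b⁻¹ = yW D.k y ∧
    b * lw D x' y' * b⁻¹ = lw D x y ∧ q = b * lw D x' y' ^ r ∧ ((x = x' ∧ y = y') → b = 1)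

/-- Two points at distance at least `l` which are `r`-close to `A` and to `q B`. -/
def Ovp {G V : Type} [Group G] [MulAction G V] (d : V → V → ℕ) (r : ℕ) (A B : Set V) (q : G)
    (l : ℕ) : Prop :=
  ∃ p1 p2 : V, (∃ z ∈ A, d p1 z ≤ r) ∧ (∃ z ∈ A, d p2 z ≤ r) ∧ (∃ z ∈ B, d p1 (q • z) ≤ r) ∧
    (∃ z ∈ B, d p2 (q • z) ≤ r) ∧ l ≤ d p1 p2

theorem Ovp.mono {G V : Type} [Group G] [MulAction G V] {d : V → V → ℕ} {r r' : ℕ} {A B : Set V}
    {q : G} {l l' : ℕ} (h : Ovp d r A B q l) (hr : r ≤ r') (hl : l' ≤ l) : Ovp d r' A B q l' := by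
  obtain ⟨p1, p2, ⟨z1, a1, b1⟩, ⟨z2, a2, b2⟩, ⟨z3, a3, b3⟩, ⟨z4, a4, b4⟩, h5⟩ := h
  exact ⟨p1, p2, ⟨z1, a1, b1.trans hr⟩, ⟨z2, a2, b2.trans hr⟩, ⟨z3, a3, b3.trans hr⟩,
    ⟨z4, a4, b4.trans hr⟩, hl.trans h5⟩

/-- Killed pairs of a level: not commuting, `w(x,y) ≠ 1`, and `E_X(x,y) ≤ T`. -/
def Kl {G X : Type} [Group G] [MulAction G X] (D : LD) (d : X → X → ℕ) (T : ℕ) (x y : G) : Prop :=
  x * y ≠ y * x ∧ lw D x y ≠ 1 ∧ ELe d T x y

/-- The set `S` of conjugates of killed values `w(x,y)` (index set of the cone-off). -/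
def KS {G X : Type} [Group G] [MulAction G X] (D : LD) (d : X → X → ℕ) (T : ℕ) : Type :=
  {R : G // ∃ g x y : G, Kl D d T x y ∧ R = g * lw D x y * g⁻¹}

/-- `G` acts on `KS` by conjugation. -/
instance instKS {G X : Type} [Group G] [MulAction G X] (D : LD) (d : X → X → ℕ) (T : ℕ) :
    MulAction G (KS (G := G) D d T) where
  smul g s := ⟨g * s.1 * g⁻¹, by
    obtain ⟨g', x, y, h, h'⟩ := s.2
    exact ⟨g * g', x, y, h, by rw [h']; group⟩⟩
  one_smul s := Subtype.ext (by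
    show 1 * s.1 * (1 : G)⁻¹ = s.1
    group)
  mul_smul a b s := Subtype.ext (by
    show a * b * s.1 * (a * b)⁻¹ = a * (b * s.1 * b⁻¹) * a⁻¹
    group)

theorem KS.smul_val {G X : Type} [Group G] [MulAction G X] {D : LD} {d : X → X → ℕ} {T : ℕ}
    (g : G) (s : KS (G := G) D d T) : (g • s).1 = g * s.1 * g⁻¹ := rfl

/-- If `G` acts by isometries the elements of `KS` are values of the law at killed pairs. -/
theorem KS.ex {G X : Type} [Group G] [MulAction G X] {D : LD} {d : X → X → ℕ} {T : ℕ}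
    (hG : IsomAct G d) (s : KS (G := G) D d T) : ∃ x y, Kl D d T x y ∧ s.1 = lw D x y := by
  obtain ⟨g, x, y, ⟨h1, h2, o, h3, h4⟩, h'⟩ := s.2
  have e1 : MulAut.conj g x * MulAut.conj g y = MulAut.conj g (x * y) := by rw [map_mul]
  have e2 : MulAut.conj g y * MulAut.conj g x = MulAut.conj g (y * x) := by rw [map_mul]
  have e3 : lw D (MulAut.conj g x) (MulAut.conj g y) = MulAut.conj g (lw D x y) :=
    (map_lw (MulAut.conj g).toMonoidHom D x y).symm
  refine ⟨MulAut.conj g x, MulAut.conj g y, ⟨?_, ?_, g • o, ?_, ?_⟩, ?_⟩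
  · rw [e1, e2]
    exact fun h => h1 ((MulAut.conj g).injective h)
  · rw [e3]
    intro h
    exact h2 ((MulAut.conj g).injective (by rw [h, map_one]))
  · rw [MulAut.conj_apply, smul_smul, inv_mul_cancel_right, mul_smul, hG]
    exact h3
  · rw [MulAut.conj_apply, smul_smul, inv_mul_cancel_right, mul_smul, hG]
    exact h4
  · rw [e3, h', MulAut.conj_apply]

/-- The sets `Y_s`: minimal sets of the killed values. -/
def KY {G X : Type} [Group G] [MulAction G X] (D : LD) (d : X → X → ℕ) (T : ℕ)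
    (s : KS (G := G) D d T) : Set X := Mn d s.1

/-- Constants of a stage. -/
structure Cst where
  a0 : ℕ
  L0 : ℕ
  CP : ℕ → ℕ
  M0 : ℕ
  /-- constant of B-pairs: `GPair d D.d D.k 1 C12` -/
  C12 : ℕ
  /-- constants of direct pairs: `GPair d D.d D.k V B` -/
  V : ℕ
  B : ℕ
  /-- killing radius -/
  T : ℕ
  /-- scale of the exponents -/
  n0 : ℕ
  /-- radius of neighbourhoods in overlaps -/
  rr : ℕ
  /-- lower bound for the displacement of `w(x,y)`, `(x,y)` an S-pair; rotation -/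
  LS : ℕ
  /-- overlap threshold for two S-pairs -/
  TS : ℕ
  /-- variation of `phi` on the axis of an S-pair, in units of `Lam` -/
  V5 : ℕ

/-- The geometric part of a stage: a level with a class `SP` of S-pairs. -/
structure StageG (G : Type) {X : Type} [Group G] [MulAction G X] (D : LD) (c : Cst)
    (d : X → X → ℕ) (SP : G → G → Prop) : Prop where
  lev : Lev G d c.a0 c.L0 c.CP c.M0
  cls : ∀ x y : G, x * y ≠ y * x → lw D x y ≠ 1 → GPair d D.d D.k 1 c.C12 x y ∨ SP x y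
  spn : ∀ x y, SP x y → x * y ≠ y * x ∧ lw D x y ≠ 1
  spe : ∀ x y, SP x y → ELe d c.T x y
  spl : ∀ x y, SP x y → c.LS ≤ disp d (lw D x y)
  sps : ∀ x y x' y', SP x y → SP x' y' → ∀ q : G,
    Ovp d c.rr (Mn d (lw D x y)) (Mn d (lw D x' y')) q c.TS → Cnj D x y x' y' q
  spd : ∀ x y, SP x y → GPair d D.d D.k c.V c.B x y ∨
    ∀ q : G, Ovp d c.rr (Mn d (lw D x y)) (Mn d (lw D x y)) q (c.n0 * D.N / 2) →
      Cnj D x y x y q

/-- A stage with all its data: the marked level `L`, the class `SP` of S-pairs, the exponent sum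
`sg` and the equivariant `Lam`-Lipschitz function `phi`. -/
structure StageD (D : LD) (c : Cst) (L : Lvl) (SP : L.G → L.G → Prop) (Lam : ℕ) (sg : L.G → ℤ)
    (phi : L.X → ℤ) : Prop extends StageG L.G D c L.d SP where
  phl : PhiL L.G L.d L.pi Lam L.o sg phi
  spf : ∀ x y, SP x y → ∀ v ∈ Mn L.d (lw D x y), ∀ w ∈ Mn L.d (lw D x y),
    phi v - phi w ≤ (Lam * c.V5 : ℕ)

/-- Stages. -/
def Stage (D : LD) (c : Cst) (L : Lvl) : Prop :=
  ∃ (SP : L.G → L.G → Prop) (Lam : ℕ) (sg : L.G → ℤ) (phi : L.X → ℤ),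
    StageD D c L SP Lam sg phi

/-! ### Auxiliary structures for the step -/

/-- Elementary conditions on the parameters of the law. -/
structure LDok (D : LD) (n0 : ℕ) : Prop where
  H1 : 1 ≤ D.H
  h12 : 12 ∣ D.H - 1
  h48 : 48 ≤ D.H - 1
  exp : IsExp (D.H - 1) n0 D.nn
  n0l : 40000 ≤ n0
  d1 : 1 ≤ D.d
  k1 : 1 ≤ D.k
  N1 : 1 ≤ D.N

/-- The facts of section 8 about direct pairs of a level. -/
structure Dir (G : Type) {X : Type} [Group G] [MulAction G X] (D : LD) (n0 V B ρ L1 : ℕ)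
    (d : X → X → ℕ) : Prop where
  gm : IsGM d
  hyp : Hyp d dl
  isom : IsomAct G d
  ne : Nonempty X
  csa : IsCSA G
  tf : ∀ (g : G) (n : ℕ), 1 ≤ n → g ^ n = 1 → g = 1
  ov : OV G d L1
  e85 : ∀ x y x' y' : G, GPair d D.d D.k V B x y → GPair d D.d D.k V B x' y' → ∀ q : G,
    Ovp d ρ (Mn d (lw D x y)) (Mn d (lw D x' y')) q
      (100 * (n0 * max (disp d (cw D x y)) (disp d (cw D x' y')))) → Cnj D x y x' y' q
  bs : ∀ x y : G, GPair d D.d D.k V B x y → ∃ o : X,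
    IsBS G d (1000000 * (dl + L1 + ρ + 1)) (D.H - 1) (cw D x y) (lW D.k (D.H - 1) x y) o
  cl : ∀ x y : G, GPair d D.d D.k V B x y →
    49 * (D.N * slen d (gW D.d D.k x y)) ≤ 50 * slen d (cw D x y) ∧
    50 * slen d (cw D x y) ≤ 51 * (D.N * slen d (gW D.d D.k x y))

/-- Bound for `|c|` if `E_X ≤ e`: `CE D * e`. -/
def CE (D : LD) : ℕ := (D.N + 1) * (2 * (D.d + D.k))

/-- The situation of the step: a stage and the quotient by the killed values. -/
structure SQ (G G' : Type) {X A' : Type} [Group G] [MulAction G X] [Group G'] [MulAction G' A']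
    (D : LD) (c : Cst) (d : X → X → ℕ) (SP : G → G → Prop) (u η1 C ρ L1 : ℕ)
    (d' : A' → A' → ℕ) (π : G →* G') (q : X ⊕ KS (G := G) D d c.T → A') : Prop where
  ok : LDok D c.n0
  st : StageG G D c d SP
  dir : Dir G D c.n0 c.V c.B ρ L1 d
  cq : ConeQ G G' d u c.LS (KY D d c.T) (59 * dl + 5) η1 C d' π q
  csa' : IsCSA G'
  tf' : ∀ (g : G') (n : ℕ), 1 ≤ n → g ^ n = 1 → g = 1
  heta : 1000 * dl + 100 * (59 * dl + 5) + 1000 ≤ η1
  V1 : 1 ≤ c.V
  B1 : c.C12 ≤ c.B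

/-- The class of S-pairs of the quotient. -/
def SPQ {G G' X : Type} [Group G] [MulAction G X] [Group G'] (D : LD) (d : X → X → ℕ)
    (π : G →* G') (E : ℕ) (x y : G') : Prop :=
  x * y ≠ y * x ∧ lw D x y ≠ 1 ∧ ∃ x₁ y₁ : G, π x₁ = x ∧ π y₁ = y ∧ ELe d E x₁ y₁

/-- A lift of an S-pair of the quotient (`E = C13 * u`), with all its properties. -/
structure Lft {G G' X : Type} [Group G] [MulAction G X] [Group G'] (D : LD) (c : Cst)
    (d : X → X → ℕ) (u : ℕ) (π : G →* G') (E B1 : ℕ) (x₁ y₁ : G) : Prop where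
  nc : π x₁ * π y₁ ≠ π y₁ * π x₁
  w : π (lw D x₁ y₁) ≠ 1
  gp : GPair d D.d D.k 1 c.C12 x₁ y₁
  ele : ELe d E x₁ y₁
  ang : ∀ v ∈ Mn d (lw D x₁ y₁), ∀ w ∈ Mn d (lw D x₁ y₁), ∀ s : KS (G := G) D d c.T,
    angC d u (KY D d c.T) s v w ≤ B1 * u

end Pool.Agent.Olsh
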