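import Pool.Agent.Olsh.StmtsC
import Pool.Agent.Olsh.Line

/-!
# MP_3cdb71_al: definitions for sections 5 to 7 of `Pool/Agent/Olsh/H92.md`
(invariants of a level, transfer to the quotient, classification of pairs)
-/

set_option autoImplicit false

namespace Pool.Agent.Olsh

/-- The displacement used for axes: `100 dl + 100`. -/
noncomputable def DD : ℕ := 100 * dl + 100

/-- The axis of an element of positive stable length: minimal set of the least power with
displacement at least `DD` (see `Line.lean`). -/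
noncomputable def AX {G V : Type} [Group G] [MulAction G V] (d : V → V → ℕ) (g : G) : Set V :=
  Ax DD d g

/-- Invariants of a level. -/
structure Lev (G : Type) {X : Type} [Group G] [MulAction G X] (d : X → X → ℕ)
    (a0 L0 : ℕ) (CP : ℕ → ℕ) (M0 : ℕ) : Prop where
  gm : IsGM d
  hyp : Hyp d dl
  isom : IsomAct G d
  free : ∀ (g : G) (v : X), g • v = v → g = 1
  ne : Nonempty X
  lox : ∀ g : G, g ≠ 1 → 0 < slen d g
  wa : ∀ (g h : G) (p q : X), d p (g • p) ≤ a0 → d q (g • q) ≤ a0 → d p (h • p) ≤ a0 →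
    d q (h • q) ≤ a0 → L0 ≤ d p q → g * h = h * g
  csa : ∀ a b c : G, b ≠ 1 → a * b = b * a → b * c = c * b → a * c = c * a
  pm : ∀ m : ℕ, 1 ≤ m → m ≤ M0 → ∀ (x : G) (v : X), x ≠ 1 →
    d v (x • v) ≤ d v (x ^ m • v) + CP m

/-- `E_X(x,y) ≤ e`: some vertex is moved by at most `e` by both `x` and `y`. -/
def ELe {G X : Type} [Group G] [MulAction G X] (d : X → X → ℕ) (e : ℕ) (x y : G) : Prop :=
  ∃ o : X, d o (x • o) ≤ e ∧ d o (y • o) ≤ e

/-- `Y = y^k`. -/
def yW {G : Type} [Group G] (k : ℕ) (y : G) : G := y ^ k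

/-- `P = x^D`. -/
def pW {G : Type} [Group G] (D : ℕ) (x : G) : G := x ^ D

/-- `Q = Y⁻¹ P Y`. -/
def qW {G : Type} [Group G] (D k : ℕ) (x y : G) : G := (yW k y)⁻¹ * pW D x * yW k y

/-- `g = P Q⁻¹`. -/
def gW {G : Type} [Group G] (D k : ℕ) (x y : G) : G := pW D x * (qW D k x y)⁻¹

/-- Pairs of bounded energy with respect to `‖g‖`: `‖g‖ ≥ 1 / V` and some point is moved by `x`
and `y` by at most `B (‖g‖ + 1)`.  A `B`-pair of section 7 is `GPair d D k 1 C12 x y`; a direct
pair of section 8 is `GPair d D k V B x y` with other constants. -/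
def GPair {G X : Type} [Group G] [MulAction G X] (d : X → X → ℕ) (D k V B : ℕ) (x y : G) : Prop :=
  x * y ≠ y * x ∧ 1 ≤ V * slen d (gW D k x y) ∧
  ∃ o : X, (d o (x • o) : ℝ) ≤ B * (slen d (gW D k x y) + 1) ∧
    (d o (y • o) : ℝ) ≤ B * (slen d (gW D k x y) + 1)

/-- The angle of the quotient of a cone-off. -/
noncomputable def angQ {X S A' : Type} (d : X → X → ℕ) (u : ℕ) (Y : S → Set X)
    (d' : A' → A' → ℕ) (q : X ⊕ S → A') (s v w : A') : ℕ :=
  ang d' (cq (cd d u Y) (cdX d) q) s v w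

/-- The angle of the cone-off between vertices of `X`. -/
noncomputable def angC {X S : Type} (d : X → X → ℕ) (u : ℕ) (Y : S → Set X) (s : S) (v w : X) : ℕ :=
  ang (cd d u Y) (cdX d) (Sum.inr s) (Sum.inl v) (Sum.inl w)

/-- The complete situation of the transfer: a level `(G,X)`, its cone-off, the quotient
`(G',A')`; the scale `u` is at least `U` and the rotation `L` at least `U * u`. -/
structure LQ (G G' : Type) {X S A' : Type} [Group G] [MulAction G X] [MulAction G S]
    [Group G'] [MulAction G' A'] (d : X → X → ℕ) (u L : ℕ) (Y : S → Set X) (η η1 C : ℕ)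
    (d' : A' → A' → ℕ) (π : G →* G') (q : X ⊕ S → A') (a0 L0 : ℕ) (CP : ℕ → ℕ) (M0 U : ℕ) : Prop
    extends ConeQ G G' d u L Y η η1 C d' π q where
  lev : Lev G d a0 L0 CP M0
  hu : U ≤ u
  hL : U * u ≤ L
  heta : 1000 * dl + 100 * η + 1000 ≤ η1

/-- Type (be): some lift moves some vertex of `X` by at most `E * u`. -/
def TyBe {G G' X : Type} [Group G] [MulAction G X] [Group G'] (d : X → X → ℕ) (u : ℕ)
    (π : G →* G') (E : ℕ) (x : G') : Prop :=
  ∃ (g : G) (o : X), π g = x ∧ d o (g • o) ≤ E * u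

/-- The set `A_x` of Lemma T (6.5). -/
def AT {G G' X S A' : Type} [Group G] [MulAction G X] [Group G'] (d : X → X → ℕ) (u : ℕ)
    (π : G →* G') (q : X ⊕ S → A') (E : ℕ) (x : G') : Set A' :=
  {v | ∃ (g : G) (o : X), π g = x ∧ q (Sum.inl o) = v ∧ slen d g ≤ E * u ∧
    d o (g • o) ≤ (E + 1) * u}

end Pool.Agent.Olsh
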