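import Pool.Agent.Olsh.Basic

/-!
# Guessing geodesics (Masur–Schleimer, Bowditch)
-/

set_option autoImplicit false

namespace Pool.Agent.Olsh

variable {V : Type} {d : V → V → ℕ} {δ : ℕ}

/-- A family of guessed geodesics with constant `h`. -/
structure IsGuess (d : V → V → ℕ) (h : ℕ) (L : V → V → Set V) : Prop where
  left : ∀ x y, x ∈ L x y
  right : ∀ x y, y ∈ L x y
  /-- coarse connectedness -/
  conn : ∀ x y, ∃ (n : ℕ) (p : ℕ → V), p 0 = x ∧ p n = y ∧ (∀ i, i ≤ n → p i ∈ L x y) ∧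
    ∀ i, i < n → d (p i) (p (i + 1)) ≤ h
  /-- triangles are thin -/
  thin : ∀ x y z, ∀ w ∈ L x y, ∃ w' ∈ L x z ∪ L z y, d w w' ≤ h
  /-- the guesses for neighbours are small -/
  small : ∀ x y, d x y ≤ 1 → ∀ w ∈ L x y, ∀ w' ∈ L x y, d w w' ≤ h

namespace Guess

/-- Logarithmic estimate along a path. -/
theorem log_est {h : ℕ} {L : V → V → Set V} (hd : IsGM d) (hL : IsGuess d h L) (r : ℕ) :
    ∀ (z : ℕ → V) (a m : ℕ), m ≤ 2 ^ r → (∀ i, a ≤ i → i < a + m → d (z i) (z (i + 1)) ≤ 1) →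
    ∀ w ∈ L (z a) (z (a + m)), ∃ i, a ≤ i ∧ i ≤ a + m ∧ d w (z i) ≤ (r + 1) * h := by
  induction r with
  | zero =>
    intro z a m hm hz w hw
    have h1 : d (z a) (z (a + m)) ≤ 1 := by
      rcases Nat.eq_zero_or_pos m with h0 | h0
      · subst h0
        rw [Nat.add_zero, hd.self]
        omega
      · have h1 : m = 1 := by omega
        subst h1
        exact hz a le_rfl (by omega)
    refine ⟨a, le_rfl, by omega, ?_⟩
    have := hL.small _ _ h1 w hw (z a) (hL.left _ _)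
    omega
  | succ r ih =>
    intro z a m hm hz w hw
    obtain ⟨m1, m2, rfl, hm1, hm2⟩ : ∃ m1 m2, m = m1 + m2 ∧ m1 ≤ 2 ^ r ∧ m2 ≤ 2 ^ r := by
      refine ⟨m / 2, m - m / 2, by omega, ?_, ?_⟩ <;> rw [pow_succ] at hm <;> omega
    obtain ⟨w', hw', hdw⟩ := hL.thin _ _ (z (a + m1)) w hw
    have e : (r + 1 + 1) * h = (r + 1) * h + h := by ring
    rcases hw' with hw' | hw'
    · obtain ⟨i, hi1, hi2, hi3⟩ := ih z a m1 hm1 (fun i h1 h2 => hz i h1 (by omega)) w' hw'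
      refine ⟨i, hi1, by omega, ?_⟩
      have := hd.tri w w' (z i)
      omega
    · rw [← Nat.add_assoc] at hw'
      obtain ⟨i, hi1, hi2, hi3⟩ := ih z (a + m1) m2 hm2
        (fun i h1 h2 => hz i (by omega) (by omega)) w' hw'
      refine ⟨i, by omega, by omega, ?_⟩
      have := hd.tri w w' (z i)
      omega

/-- The least constant for geodesics of length at most `n` satisfies a logarithmic inequality. -/
theorem est_step {h : ℕ} {L : V → V → Set V} (hd : IsGM d) (hL : IsGuess d h L) (n B r : ℕ)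
    (hB : ∀ (m : ℕ) (p : ℕ → V), m ≤ n → IsGeo d m p → ∀ w ∈ L (p 0) (p m),
      ∃ i, i ≤ m ∧ d w (p i) ≤ B + 1)
    (hr : 2 * (2 * (B + 1) + 2 * h + 1) ≤ 2 ^ r) (hB' : (r + 3) * h ≤ B) :
    ∀ (m : ℕ) (p : ℕ → V), m ≤ n → IsGeo d m p → ∀ w ∈ L (p 0) (p m),
      ∃ i, i ≤ m ∧ d w (p i) ≤ B := by
  intro m p hm hp w hw
  by_contra hcon
  push Not at hcon
  obtain ⟨i0, hi0, hwi0⟩ := hB m p hm hp w hw
  have hwi0' := hcon i0 hi0
  set T := 2 * (B + 1) + 2 * h + 1 with hT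
  -- cut on the right
  obtain ⟨i2, hi2, hi02, hi2T, w1, hw1, hdw1⟩ : ∃ i2, i2 ≤ m ∧ i0 ≤ i2 ∧ i2 ≤ i0 + T ∧
      ∃ w1 ∈ L (p 0) (p i2), d w w1 ≤ h := by
    by_cases hc : m ≤ i0 + T
    · exact ⟨m, le_rfl, hi0, hc, w, hw, by rw [hd.self]; omega⟩
    · refine ⟨i0 + T, by omega, by omega, le_rfl, ?_⟩
      obtain ⟨w', hw', hdw⟩ := hL.thin _ _ (p (i0 + T)) w hw
      rcases hw' with hw' | hw'
      · exact ⟨w', hw', hdw⟩
      · exfalso
        have hg := hp.shift (i0 + T) (m := m - (i0 + T)) (by omega)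
        obtain ⟨j, hj, hj'⟩ := hB (m - (i0 + T)) (fun i => p (i0 + T + i)) (by omega) hg w'
          (by
            have e1 : i0 + T + (m - (i0 + T)) = m := by omega
            show w' ∈ L (p (i0 + T + 0)) (p (i0 + T + (m - (i0 + T))))
            rw [e1]
            exact hw')
        have hj'' : d w' (p (i0 + T + j)) ≤ B + 1 := hj'
        have h1 := hp i0 (i0 + T + j) (by omega) (by omega)
        have h2 := hd.tri (p i0) w (p (i0 + T + j))
        have h3 := hd.tri w w' (p (i0 + T + j))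
        have h4 := hd.comm (p i0) w
        omega
  -- cut on the left
  obtain ⟨i1, hi1, hi1T, w2, hw2, hdw2⟩ : ∃ i1, i1 ≤ i0 ∧ i0 ≤ i1 + T ∧
      ∃ w2 ∈ L (p i1) (p i2), d w1 w2 ≤ h := by
    by_cases hc : i0 ≤ T
    · exact ⟨0, by omega, by omega, w1, hw1, by rw [hd.self]; omega⟩
    · refine ⟨i0 - T, by omega, by omega, ?_⟩
      obtain ⟨w', hw', hdw⟩ := hL.thin _ _ (p (i0 - T)) w1 hw1
      rcases hw' with hw' | hw'
      · exfalso
        have hg := hp.mono (m := i0 - T) (by omega)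
        obtain ⟨j, hj, hj'⟩ := hB (i0 - T) p (by omega) hg w' hw'
        have h1 := hp j i0 (by omega) (by omega)
        have h2 := hd.tri (p j) w (p i0)
        have h3 := hd.tri w w1 w'
        have h5 := hd.tri w w' (p j)
        have h4 := hd.comm (p j) w
        omega
      · exact ⟨w', hw', hdw⟩
  obtain ⟨j, hj1, hj2, hj3⟩ := log_est hd hL r p i1 (i2 - i1) (by omega)
    (fun i h1 h2 => by
      have := hp i (i + 1) (by omega) (by omega)
      omega) w2 (by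
        have e : i1 + (i2 - i1) = i2 := by omega
        rw [e]
        exact hw2)
  have h1 := hcon j (by omega)
  have h2 := hd.tri w w1 (p j)
  have h3 := hd.tri w1 w2 (p j)
  have e : (r + 3) * h = (r + 1) * h + h + h := by ring
  omega

theorem exists_K (h : ℕ) : ∃ K : ℕ, ∀ B : ℕ, K ≤ B →
    ∃ r : ℕ, 2 * (2 * (B + 1) + 2 * h + 1) ≤ 2 ^ r ∧ (r + 3) * h ≤ B := by
  -- `B` between powers of two
  refine ⟨2 ^ (20 * h + 32), fun B hB => ?_⟩
  have hB0 : B ≠ 0 := by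
    have : 0 < 2 ^ (20 * h + 32) := by positivity
    omega
  have h1 : 20 * h + 32 ≤ Nat.log 2 B := Nat.le_log_of_pow_le (by norm_num) hB
  have h2 : 2 ^ Nat.log 2 B ≤ B := Nat.pow_log_le_self 2 hB0
  have h3 : B < 2 ^ (Nat.log 2 B + 1) := Nat.lt_pow_succ_log_self (by norm_num) B
  set s := Nat.log 2 B with hs
  refine ⟨s + 5, ?_, ?_⟩
  · have h4 : h < 2 ^ s := lt_of_lt_of_le Nat.lt_two_pow_self
      (Nat.pow_le_pow_right (by norm_num) (by omega))
    have h5 : 2 ^ (s + 5) = 32 * 2 ^ s := by ring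
    have h6 : 2 ^ (s + 1) = 2 * 2 ^ s := by ring
    have h7 : 1 ≤ 2 ^ s := Nat.one_le_two_pow
    omega
  · -- `(s + 8) h ≤ 2 ^ s`
    obtain ⟨a, ha⟩ : ∃ a, s = 2 * a ∨ s = 2 * a + 1 := ⟨s / 2, by omega⟩
    have h4 : a < 2 ^ a := Nat.lt_two_pow_self
    have h5 : 2 ^ (2 * a) ≤ 2 ^ s := Nat.pow_le_pow_right (by norm_num) (by omega)
    have h6 : 2 ^ (2 * a) = 2 ^ a * 2 ^ a := by ring
    have h7 : (a + 1) * (a + 1) ≤ 2 ^ a * 2 ^ a := Nat.mul_le_mul h4 h4
    have h8 : (s + 5 + 3) * h ≤ (a + 1) * (a + 1) := by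
      have h9 : s + 5 + 3 ≤ 9 * (a + 1) := by omega
      have h10 : 9 * h ≤ a + 1 := by omega
      calc (s + 5 + 3) * h ≤ (9 * (a + 1)) * h := Nat.mul_le_mul_right _ h9
        _ = (a + 1) * (9 * h) := by ring
        _ ≤ (a + 1) * (a + 1) := Nat.mul_le_mul_left _ h10
    omega

/-- The guessed geodesics are close to the geodesics. -/
theorem near_geo (h : ℕ) : ∃ K : ℕ, ∀ (V : Type) (d : V → V → ℕ) (L : V → V → Set V), IsGM d →
    IsGuess d h L → ∀ (m : ℕ) (p : ℕ → V), IsGeo d m p → ∀ w ∈ L (p 0) (p m),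
      ∃ i, i ≤ m ∧ d w (p i) ≤ K := by
  obtain ⟨K, hK⟩ := exists_K h
  refine ⟨K, ?_⟩
  intro V d L hd hL n
  -- a bound which depends on `n`
  have h1 : ∃ B, ∀ (m : ℕ) (p : ℕ → V), m ≤ n → IsGeo d m p → ∀ w ∈ L (p 0) (p m),
      ∃ i, i ≤ m ∧ d w (p i) ≤ B := by
    refine ⟨(n + 1) * h, ?_⟩
    intro m p hm hp w hw
    obtain ⟨i, _, hi2, hi3⟩ := log_est hd hL n p 0 m
      (hm.trans (Nat.lt_two_pow_self).le)
      (fun i _ h2 => by
        have := hp i (i + 1) (by omega) (by omega)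
        omega) w (by simpa using hw)
    exact ⟨i, by omega, hi3⟩
  have h2 : ∀ B, (∀ (m : ℕ) (p : ℕ → V), m ≤ n → IsGeo d m p → ∀ w ∈ L (p 0) (p m),
      ∃ i, i ≤ m ∧ d w (p i) ≤ K + B) → ∀ (m : ℕ) (p : ℕ → V), m ≤ n → IsGeo d m p →
      ∀ w ∈ L (p 0) (p m), ∃ i, i ≤ m ∧ d w (p i) ≤ K := by
    intro B
    induction B with
    | zero => exact fun h => h
    | succ B ih =>
      intro hB
      apply ih
      obtain ⟨r, hr1, hr2⟩ := hK (K + B) (by omega)
      exact est_step hd hL n (K + B) r hB hr1 hr2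
  obtain ⟨B, hB⟩ := h1
  intro p hp w hw
  exact h2 B (fun m p hm hp w hw => by
    obtain ⟨i, hi, hi'⟩ := hB m p hm hp w hw
    exact ⟨i, hi, by omega⟩) n p le_rfl hp w hw

end Guess

/-- GUESS: guessing geodesics.  The space is hyperbolic, and geodesics are at a bounded Hausdorff
distance of the guesses, with constants which only depend on `h`. -/
theorem guess_geodesics (h : ℕ) : ∃ δ K : ℕ, ∀ (V : Type) (d : V → V → ℕ) (L : V → V → Set V),
    IsGM d → IsGuess d h L → Hyp d δ ∧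
      (∀ x y, ∀ w ∈ L x y, ∀ (m : ℕ) (p : ℕ → V), IsGeo d m p → p 0 = x → p m = y →
        ∃ i, i ≤ m ∧ d w (p i) ≤ K) ∧
      ∀ x y z, Bt d x z y → ∃ w ∈ L x y, d z w ≤ K := by
  obtain ⟨K, hK⟩ := Guess.near_geo h
  refine ⟨3 * (4 * K + 2 * h) + 2, 3 * K + h, ?_⟩
  intro V d L hd hL
  have hA : ∀ x y, ∀ w ∈ L x y, ∀ (m : ℕ) (p : ℕ → V), IsGeo d m p → p 0 = x → p m = y →
        ∃ i, i ≤ m ∧ d w (p i) ≤ K := by
    intro x y w hw m p hp h0 hm
    subst h0 hm
    exact hK V d L hd hL m p hp w hw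
  have hB : ∀ x y z, Bt d x z y → ∃ w ∈ L x y, d z w ≤ 3 * K + h := by
    intro x y z hz
    obtain ⟨p, hp0, hpn, hp, hpz⟩ := hd.exists_geo_through hz
    obtain ⟨n, q, hq0, hqn, hqL, hqd⟩ := hL.conn x y
    have hz' : d x z ≤ d x y := by
      unfold Bt at hz
      omega
    -- last `i` whose projection is before `z`
    have hproj : ∀ i, i ≤ n → ∃ j, j ≤ d x y ∧ d (q i) (p j) ≤ K := fun i hi =>
      hA x y (q i) (hqL i hi) _ p hp hp0 hpn
    by_cases hn : ∃ j, j ≤ d x z ∧ d (q n) (p j) ≤ K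
    · obtain ⟨j, hj, hj'⟩ := hn
      have h1 := hp j (d x z) hj hz'
      have h2 := hp j (d x y) (by omega) le_rfl
      rw [hqn] at hj'
      rw [hpn] at h2
      refine ⟨y, hL.right x y, ?_⟩
      have h3 := hd.comm y (p j)
      have h4 := hp (d x z) (d x y) hz' le_rfl
      rw [hpn, hpz] at h4
      omega
    · obtain ⟨i, hi, ⟨j, hj, hj'⟩, hi2⟩ := exists_switch n
        (fun i => ∃ j, j ≤ d x z ∧ d (q i) (p j) ≤ K)
        ⟨0, Nat.zero_le _, by rw [hq0, hp0, hd.self]; omega⟩ hn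
      obtain ⟨j2, hj2, hj2'⟩ := hproj (i + 1) (by omega)
      have h5 : d x z < j2 := by
        by_contra hlt
        exact hi2 ⟨j2, by omega, hj2'⟩
      have h6 := hp j (d x z) hj hz'
      have h7 := hp j j2 (by omega) hj2
      have h8 := hqd i hi
      have h9 := hd.tri (p j) (q i) (p j2)
      have h10 := hd.tri (q i) (q (i + 1)) (p j2)
      have h11 := hd.comm (p j) (q i)
      have h12 := hd.tri (p (d x z)) (p j) (q i)
      have h13 := hd.comm (p (d x z)) (p j)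
      rw [hpz] at h6 h12 h13
      refine ⟨q i, hqL i (by omega), ?_⟩
      omega
  have hS : Slim d (4 * K + 2 * h) := by
    intro x y z p hp
    obtain ⟨w, hw, hpw⟩ := hB x y p hp
    obtain ⟨w', hw', hww⟩ := hL.thin x y z w hw
    have h1 := hd.tri p w w'
    rcases hw' with hw' | hw'
    · obtain ⟨r, hr0, hrn, hr⟩ := hd.exists_geo x z
      obtain ⟨i, hi, hi'⟩ := hA x z w' hw' _ r hr hr0 hrn
      refine ⟨r i, Or.inl ?_, ?_⟩
      · have := hr.bt (Nat.zero_le i) hi le_rfl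
        rwa [hr0, hrn] at this
      · have h2 := hd.tri p w' (r i)
        omega
    · obtain ⟨r, hr0, hrn, hr⟩ := hd.exists_geo z y
      obtain ⟨i, hi, hi'⟩ := hA z y w' hw' _ r hr hr0 hrn
      refine ⟨r i, Or.inr ?_, ?_⟩
      · have := hr.bt (Nat.zero_le i) hi le_rfl
        rwa [hr0, hrn] at this
      · have h2 := hd.tri p w' (r i)
        omega
  refine ⟨hS.hyp hd, ?_, hB⟩
  intro x y w hw m p hp h0 hm
  obtain ⟨i, hi, hi'⟩ := hA x y w hw m p hp h0 hm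
  exact ⟨i, hi, by omega⟩

end Pool.Agent.Olsh
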