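import Pool.Agent.Olsh.RelFree

/-!
# MP_3cdb71_al: iteration of the step
-/

set_option autoImplicit false

namespace Pool.Agent.Olsh

theorem next_le {u n k : ℕ} (hu : 2 ≤ u) (h : n ≤ max 1 k) :
    (n + u - 1) / u ≤ max 1 (k - 1) := by
  rw [Nat.div_le_iff_le_mul_add_pred (by omega)]
  rcases Nat.lt_or_ge k 2 with hk | hk
  · have h1 : n ≤ 1 := by omega
    have h2 : u * 1 ≤ u * max 1 (k - 1) := Nat.mul_le_mul_left _ (by omega)
    omega
  · have h1 : n ≤ k := by omega
    have h2 : max 1 (k - 1) = k - 1 := by omega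
    rw [h2]
    obtain ⟨j, rfl⟩ : ∃ j, k = j + 2 := ⟨k - 2, by omega⟩
    have h3 : 2 * (j + 1) ≤ u * (j + 1) := Nat.mul_le_mul_right _ hu
    have h4 : u * (j + 2 - 1) = u * (j + 1) := by congr 1
    omega

/-- Iteration: if every level has a next level, and positive words are never identified, then
they are not identified in the relatively free group of the law. -/
theorem posInj_of_step (D : LD) {m u T : ℕ} (hH : D.H = 12 * m + 1) (hu : 2 ≤ u) (hT : 1 ≤ T)
    (Inv : Lvl → Prop) (h0 : ∃ L, Inv L)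
    (hstep : ∀ L, Inv L → ∃ L', Inv L' ∧ StepRel D u T L L')
    (hpos : ∀ L, Inv L → PosInj L.pi) : PosInj (QuotientGroup.mk' (VS D)) := by
  obtain ⟨L0, hL0⟩ := h0
  choose nxt hnxt using hstep
  -- the sequence of levels
  let seq : ℕ → {L : Lvl // Inv L} := fun i =>
    Nat.rec ⟨L0, hL0⟩ (fun _ L => ⟨nxt L.1 L.2, (hnxt L.1 L.2).1⟩) i
  have hseq : ∀ i, StepRel D u T (seq i).1 (seq (i + 1)).1 := fun i => (hnxt _ _).2
  -- kernels increase
  have hmono : ∀ i j, i ≤ j → ∀ g, (seq i).1.pi g = 1 → (seq j).1.pi g = 1 := by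
    intro i j hij
    induction j, hij using Nat.le_induction with
    | base => exact fun g hg => hg
    | succ j _ ih => exact fun g hg => (hseq j).ker_le g (ih g hg)
  -- every value of the law is killed
  have hkill : ∀ x y : FreeGroup Bool, ∃ i, (seq i).1.pi (wl D x y) = 1 := by
    intro x y
    obtain ⟨n, hn⟩ : ∃ n, (seq 0).1.Small ((seq 0).1.pi x) ((seq 0).1.pi y) n :=
      ⟨(seq 0).1.d (seq 0).1.o ((seq 0).1.pi x • (seq 0).1.o) +
        (seq 0).1.d (seq 0).1.o ((seq 0).1.pi y • (seq 0).1.o), (seq 0).1.o,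
        Nat.le_add_right _ _, Nat.le_add_left _ _⟩
    have hsm : ∀ i, ∃ n', n' ≤ max 1 (n - i) ∧
        (seq i).1.Small ((seq i).1.pi x) ((seq i).1.pi y) n' := by
      intro i
      induction i with
      | zero => exact ⟨n, by omega, hn⟩
      | succ i ih =>
        obtain ⟨n', h1, h2⟩ := ih
        refine ⟨(n' + u - 1) / u, ?_, (hseq i).shrink x y n' h2⟩
        have := next_le hu h1
        have e : n - (i + 1) = n - i - 1 := by omega
        rw [e]
        exact this
    obtain ⟨n', h1, v, h2, h3⟩ := hsm n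
    have h4 : n' ≤ T := by omega
    by_cases hc : Commute ((seq n).1.pi x) ((seq n).1.pi y)
    · refine ⟨n, ?_⟩
      rw [map_wl]
      exact wl_comm hH hc
    · exact ⟨n + 1, (hseq n).kills x y ⟨v, h2.trans h4, h3.trans h4⟩ hc⟩
  -- the union of the kernels
  let U : Subgroup (FreeGroup Bool) :=
    { carrier := {g | ∃ i, (seq i).1.pi g = 1}
      mul_mem' := by
        rintro a b ⟨i, hi⟩ ⟨j, hj⟩
        refine ⟨max i j, ?_⟩
        rw [map_mul, hmono i _ (le_max_left _ _) a hi, hmono j _ (le_max_right _ _) b hj, one_mul]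
      one_mem' := ⟨0, map_one _⟩
      inv_mem' := by
        rintro a ⟨i, hi⟩
        exact ⟨i, by rw [map_inv, hi, inv_one]⟩ }
  haveI hUn : U.Normal := ⟨by
    rintro a ⟨i, hi⟩ g
    exact ⟨i, by rw [map_mul, map_mul, hi, mul_one, map_inv, mul_inv_cancel]⟩⟩
  have hVU : VS D ≤ U := by
    refine Subgroup.normalClosure_le_normal ?_
    rintro g ⟨x, y, rfl⟩
    exact hkill x y
  intro P Q hPQ
  have h1 : (P.map FreeGroup.of).prod⁻¹ * (Q.map FreeGroup.of).prod ∈ VS D :=
    QuotientGroup.eq.1 hPQ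
  obtain ⟨i, hi⟩ := hVU h1
  apply hpos (seq i).1 (seq i).2
  rw [map_mul, map_inv, inv_mul_eq_one] at hi
  exact hi

end Pool.Agent.Olsh
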