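import Pool.Agent.Olsh.DefsF

/-!
# MP_3cdb71_al: properties of the law `wl`: naturality, commuting arguments, membership
-/

set_option autoImplicit false

namespace Pool.Agent.Olsh

variable {G H : Type*} [Group G] [Group H]

section nat

variable (φ : G →* H) (D : LD) (x y : G)

theorem map_lY : φ (lY D y) = lY D (φ y) := by simp [lY]

theorem map_lX (j : ℕ) : φ (lX D x y j) = lX D (φ x) (φ y) j := by
  simp [lX, map_lY]

theorem map_lP : φ (lP D x) = lP D (φ x) := by simp [lP]

theorem map_lQ : φ (lQ D x y) = lQ D (φ x) (φ y) := by simp [lQ, map_lY, map_lP]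

theorem map_lg : φ (lg D x y) = lg D (φ x) (φ y) := by simp [lg, map_lQ, map_lP]

theorem map_lt : φ (lt D x y) = lt D (φ x) (φ y) := by simp [lt, map_lQ, map_lP]

theorem map_lc : φ (lc D x y) = lc D (φ x) (φ y) := by simp [lc, map_lg, map_lt]

theorem map_ltr (i : ℕ) : φ (ltr D x y i) = ltr D (φ x) (φ y) i := by
  unfold ltr
  split_ifs <;> simp [map_lX]

theorem map_lT (i : ℕ) : φ (lT D x y i) = lT D (φ x) (φ y) i := by
  cases i with
  | zero => simp [lT, map_lX]
  | succ i => simp [lT, map_ltr]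

theorem map_lS (i : ℕ) : φ (lS D x y i) = lS D (φ x) (φ y) i := by
  induction i with
  | zero => simp [lS]
  | succ i ih => simp [lS, ih, map_lT, map_lc]

/-- Naturality of the law. -/
theorem map_wl : φ (wl D x y) = wl D (φ x) (φ y) := map_lS φ D x y D.H

end nat

section comm

variable {D : LD} {x y : G}

theorem lX_comm (h : Commute x y) (j : ℕ) : lX D x y j = x := by
  have h1 : Commute x (lY D y ^ j) := (h.pow_right _).pow_right _
  unfold lX
  rw [mul_assoc, h1.eq, inv_mul_cancel_left]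

theorem lQ_comm (h : Commute x y) : lQ D x y = lP D x := by
  have h1 : Commute (lP D x) (lY D y) := (h.pow_right _).pow_left _
  unfold lQ
  rw [mul_assoc, h1.eq, inv_mul_cancel_left]

theorem lc_comm (h : Commute x y) : lc D x y = 1 := by
  unfold lc lg lt
  rw [lQ_comm h]
  simp

/-- Exponent sums of the letters. -/
def lsum : ℕ → ℤ
  | 0 => 0
  | i + 1 => lsum i + (if i % 12 < 6 then 1 else -1)

theorem lsum_twelve (m : ℕ) : lsum (12 * m) = 0 := by
  induction m with
  | zero => rfl
  | succ m ih =>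
    have e : 12 * (m + 1) = 12 * m + 12 := by ring
    rw [e]
    have h0 : (12 * m) % 12 = 0 := by omega
    have h1 : (12 * m + 1) % 12 = 1 := by omega
    have h2 : (12 * m + 2) % 12 = 2 := by omega
    have h3 : (12 * m + 3) % 12 = 3 := by omega
    have h4 : (12 * m + 4) % 12 = 4 := by omega
    have h5 : (12 * m + 5) % 12 = 5 := by omega
    have h6 : (12 * m + 6) % 12 = 6 := by omega
    have h7 : (12 * m + 7) % 12 = 7 := by omega
    have h8 : (12 * m + 8) % 12 = 8 := by omega
    have h9 : (12 * m + 9) % 12 = 9 := by omega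
    have h10 : (12 * m + 10) % 12 = 10 := by omega
    have h11 : (12 * m + 11) % 12 = 11 := by omega
    simp only [lsum, ih, h0, h1, h2, h3, h4, h5, h6, h7, h8, h9, h10, h11]
    norm_num

theorem lS_comm (h : Commute x y) (i : ℕ) : lS D x y (i + 1) = x ^ lsum i := by
  induction i with
  | zero =>
    show 1 * (lX D x y 3 * (lX D x y 0)⁻¹) * lc D x y ^ D.nn 0 = x ^ (0 : ℤ)
    rw [lX_comm h, lX_comm h, lc_comm h]
    simp
  | succ i ih =>
    show lS D x y (i + 1) * ltr D x y i * lc D x y ^ D.nn (i + 1) =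
      x ^ (lsum i + (if i % 12 < 6 then 1 else -1))
    rw [ih, lc_comm h, one_pow, mul_one, zpow_add]
    congr 1
    unfold ltr
    split_ifs
    · rw [lX_comm h, zpow_one]
    · rw [lX_comm h, zpow_neg, zpow_one]

/-- The law holds for commuting arguments. -/
theorem wl_comm {m : ℕ} (hH : D.H = 12 * m + 1) (h : Commute x y) : wl D x y = 1 := by
  unfold wl
  rw [hH, lS_comm h, lsum_twelve, zpow_zero]

end comm

section member

variable (D : LD) (x y : G)

/-- The subgroup generated by `X0, X1, X2`. -/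
def lM : Subgroup G := Subgroup.closure {lX D x y 0, lX D x y 1, lX D x y 2}

theorem lX_mem {j : ℕ} (hj : j < 3) : lX D x y j ∈ lM D x y := by
  apply Subgroup.subset_closure
  have : j = 0 ∨ j = 1 ∨ j = 2 := by omega
  rcases this with rfl | rfl | rfl <;> simp

theorem lX_pow (j n : ℕ) : lX D x y j ^ n = (lY D y ^ j)⁻¹ * x ^ n * lY D y ^ j := by
  unfold lX
  have := conj_pow (i := n) (a := (lY D y ^ j)⁻¹) (b := x)
  rw [inv_inv] at this
  exact this

theorem lP_mem : lP D x ∈ lM D x y := by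
  have h : lP D x = lX D x y 0 ^ D.d := by
    rw [lX_pow]
    simp [lP]
  rw [h]
  exact Subgroup.pow_mem _ (lX_mem D x y (by norm_num)) _

theorem lQ_mem : lQ D x y ∈ lM D x y := by
  have h : lQ D x y = lX D x y 1 ^ D.d := by
    rw [lX_pow]
    simp [lQ, lP]
  rw [h]
  exact Subgroup.pow_mem _ (lX_mem D x y (by norm_num)) _

theorem lc_mem : lc D x y ∈ lM D x y := by
  unfold lc lg lt
  exact mul_mem (pow_mem (mul_mem (lP_mem D x y) (inv_mem (lQ_mem D x y))) _)
    (mul_mem (inv_mem (lP_mem D x y)) (lQ_mem D x y))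

theorem ltr_mem (i : ℕ) : ltr D x y i ∈ lM D x y := by
  unfold ltr
  split_ifs with h
  · exact lX_mem D x y (by omega)
  · exact inv_mem (lX_mem D x y (by omega))

theorem lS_mem (i : ℕ) : (lX D x y 3)⁻¹ * lS D x y (i + 1) ∈ lM D x y := by
  induction i with
  | zero =>
    show (lX D x y 3)⁻¹ * (1 * (lX D x y 3 * (lX D x y 0)⁻¹) * lc D x y ^ D.nn 0) ∈ lM D x y
    have : (lX D x y 3)⁻¹ * (1 * (lX D x y 3 * (lX D x y 0)⁻¹) * lc D x y ^ D.nn 0) =
        (lX D x y 0)⁻¹ * lc D x y ^ D.nn 0 := by group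
    rw [this]
    exact mul_mem (inv_mem (lX_mem D x y (by norm_num))) (pow_mem (lc_mem D x y) _)
  | succ i ih =>
    show (lX D x y 3)⁻¹ * (lS D x y (i + 1) * ltr D x y i * lc D x y ^ D.nn (i + 1)) ∈ lM D x y
    have : (lX D x y 3)⁻¹ * (lS D x y (i + 1) * ltr D x y i * lc D x y ^ D.nn (i + 1)) =
        (lX D x y 3)⁻¹ * lS D x y (i + 1) * (ltr D x y i * lc D x y ^ D.nn (i + 1)) := by group
    rw [this]
    exact mul_mem ih (mul_mem (ltr_mem D x y i) (pow_mem (lc_mem D x y) _))

/-- The law expresses `X3` by `X0, X1, X2`. -/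
theorem lX3_mem (hH : 1 ≤ D.H) (h : wl D x y = 1) : lX D x y 3 ∈ lM D x y := by
  obtain ⟨i, hi⟩ : ∃ i, D.H = i + 1 := ⟨D.H - 1, by omega⟩
  have h1 := lS_mem D x y i
  unfold wl at h
  rw [hi] at h
  rw [h, mul_one] at h1
  have := inv_mem h1
  rwa [inv_inv] at this

end member

end Pool.Agent.Olsh
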