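import Pool.Agent.Olsh.Law

/-!
# MP_3cdb71_al: two-generator groups satisfying the law have finitely generated commutator subgroup
-/

set_option autoImplicit false

open scoped commutatorElement

namespace Pool.Agent.Olsh

variable {G : Type*} [Group G]

/-- `x ^ (y^i) = y^{-i} x y^i`. -/
def cj (x y : G) (i : ℤ) : G := (y ^ i)⁻¹ * x * y ^ i

theorem cj_cj (x y : G) (i j : ℤ) : cj (cj x y i) y j = cj x y (i + j) := by
  unfold cj
  rw [zpow_add]
  group

theorem cj_mul (x x' y : G) (i : ℤ) : cj (x * x') y i = cj x y i * cj x' y i := by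
  unfold cj
  group

theorem cj_inv (x y : G) (i : ℤ) : cj x⁻¹ y i = (cj x y i)⁻¹ := by
  unfold cj
  group

theorem cj_one (y : G) (i : ℤ) : cj 1 y i = 1 := by
  unfold cj
  group

theorem cj_pow (x y : G) (i j : ℤ) : cj x (y ^ i) j = cj x y (i * j) := by
  unfold cj
  rw [zpow_mul]

/-- Conjugation maps closures to closures. -/
theorem cj_mem_closure {S T : Set G} (y : G) (i : ℤ)
    (h : ∀ s ∈ S, cj s y i ∈ Subgroup.closure T) {x : G} (hx : x ∈ Subgroup.closure S) :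
    cj x y i ∈ Subgroup.closure T := by
  induction hx using Subgroup.closure_induction with
  | mem s hs => exact h s hs
  | one => rw [cj_one]; exact one_mem _
  | mul a b _ _ ha hb => rw [cj_mul]; exact mul_mem ha hb
  | inv a _ ha => rw [cj_inv]; exact inv_mem ha

/-- The closure of finitely many conjugates. -/
def CM (x y : G) (m : ℕ) : Subgroup G := Subgroup.closure {g | ∃ i : ℕ, i < m ∧ g = cj x y i}

theorem cj_mem_CM (x y : G) {m i : ℕ} (h : i < m) : cj x y i ∈ CM x y m :=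
  Subgroup.subset_closure ⟨i, h, rfl⟩

/-- The consequence of the law in terms of `cj`. -/
theorem law_cj {D : LD} (hH : 1 ≤ D.H) (h : ∀ x y : G, wl D x y = 1) (x y : G) :
    cj x (y ^ (D.k : ℤ)) 3 ∈ CM x (y ^ (D.k : ℤ)) 3 := by
  have h1 := lX3_mem D x y hH (h x y)
  have e : ∀ j : ℕ, lX D x y j = cj x (y ^ (D.k : ℤ)) (j : ℤ) := by
    intro j
    unfold lX lY cj
    simp
  rw [e] at h1
  refine (Subgroup.closure_mono ?_ : lM D x y ≤ CM x (y ^ (D.k : ℤ)) 3) h1
  rintro g (rfl | rfl | rfl)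
  · exact ⟨0, by norm_num, e 0⟩
  · exact ⟨1, by norm_num, e 1⟩
  · exact ⟨2, by norm_num, e 2⟩

/-- If `x^{y^3}` lies in `⟨x, x^y, x^{y^2}⟩`, for all positive indices. -/
theorem cj_nat_mem {x y : G} (h : cj x y 3 ∈ CM x y 3) (i : ℕ) : cj x y i ∈ CM x y 3 := by
  induction i with
  | zero => exact cj_mem_CM x y (by norm_num)
  | succ i ih =>
    have e : cj x y ((i + 1 : ℕ) : ℤ) = cj (cj x y i) y 1 := by
      rw [cj_cj]; push_cast; rfl
    rw [e]
    refine cj_mem_closure y 1 ?_ ih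
    rintro s ⟨j, hj, rfl⟩
    rw [cj_cj]
    have : j = 0 ∨ j = 1 ∨ j = 2 := by omega
    rcases this with rfl | rfl | rfl
    · exact cj_mem_CM x y (i := 1) (by norm_num)
    · exact cj_mem_CM x y (i := 2) (by norm_num)
    · exact h

/-- For all integers. -/
theorem cj_int_mem {D : LD} (hH : 1 ≤ D.H) (h : ∀ x y : G, wl D x y = 1) (x y : G) (i : ℤ) :
    cj x (y ^ (D.k : ℤ)) i ∈ CM x (y ^ (D.k : ℤ)) 3 := by
  set z : G := y ^ (D.k : ℤ) with hz
  rcases le_or_gt 0 i with hi | hi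
  · obtain ⟨n, rfl⟩ := Int.eq_ofNat_of_zero_le hi
    exact cj_nat_mem (law_cj hH h x y) n
  · -- use the law for `y⁻¹`, with the base point shifted by two
    have h1 : ∀ x : G, ∀ n : ℕ, cj x z⁻¹ n ∈ CM x z⁻¹ 3 := by
      intro x n
      have h2 := law_cj hH h x y⁻¹
      have e : (y⁻¹ : G) ^ (D.k : ℤ) = z⁻¹ := by rw [hz, inv_zpow]
      rw [e] at h2
      exact cj_nat_mem h2 n
    have e2 : ∀ x : G, ∀ n : ℤ, cj x z⁻¹ n = cj x z (-n) := by
      intro x n
      unfold cj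
      rw [inv_zpow', ]
    obtain ⟨n, hn⟩ := Int.eq_ofNat_of_zero_le (a := 2 - i) (by omega)
    have h3 := h1 (cj x z 2) n
    rw [e2, cj_cj] at h3
    have e3 : (2 : ℤ) + -(n : ℤ) = i := by omega
    rw [e3] at h3
    refine (Subgroup.closure_mono ?_ : CM (cj x z 2) z⁻¹ 3 ≤ CM x z 3) h3
    rintro g ⟨j, hj, rfl⟩
    refine ⟨2 - j, by omega, ?_⟩
    rw [e2, cj_cj]
    congr 1
    omega

/-- All conjugates of `x` by powers of `y` lie in the subgroup generated by `3 k` of them. -/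
theorem cj_mem_three_k {D : LD} (hH : 1 ≤ D.H) (hk : 1 ≤ D.k) (h : ∀ x y : G, wl D x y = 1)
    (x y : G) (i : ℤ) : cj x y i ∈ CM x y (3 * D.k) := by
  -- write `i = r + k q`
  have e1 : cj x y i = cj (cj x (y ^ (D.k : ℤ)) (i / D.k)) y (i % D.k) := by
    rw [cj_pow, cj_cj, Int.mul_ediv_add_emod]
  rw [e1]
  refine cj_mem_closure y _ ?_ (cj_int_mem hH h x y (i / D.k))
  rintro s ⟨j, hj, rfl⟩
  rw [cj_pow, cj_cj]
  have hk' : (0 : ℤ) < D.k := by exact_mod_cast hk
  have h1 := Int.emod_nonneg i hk'.ne'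
  have h2 := Int.emod_lt_of_pos i hk'
  obtain ⟨r, hr⟩ := Int.eq_ofNat_of_zero_le h1
  refine Subgroup.subset_closure ⟨D.k * j + r, ?_, ?_⟩
  · have h3 : r < D.k := by
      rw [hr] at h2
      exact_mod_cast h2
    have h4 : D.k * j ≤ D.k * 2 := Nat.mul_le_mul_left _ (by omega)
    omega
  · rw [hr]
    push_cast
    rfl

/-- The conjugates of the commutator of the generators. -/
def CC (a b : G) (S : Set (ℤ × ℤ)) : Subgroup G :=
  Subgroup.closure {g | ∃ p ∈ S, g = cj (cj (a⁻¹ * b⁻¹ * a * b) a p.1) b p.2}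

theorem CC_univ_le {D : LD} (hH : 1 ≤ D.H) (hk : 1 ≤ D.k) (h : ∀ x y : G, wl D x y = 1)
    (a b : G) : CC a b Set.univ ≤ CC a b {p | ∃ i j : ℕ, i < 3 * D.k ∧ j < 3 * D.k ∧ p = (↑i, ↑j)} := by
  unfold CC
  rw [Subgroup.closure_le]
  rintro g ⟨⟨i, j⟩, -, rfl⟩
  -- first reduce `j`, then `i`
  have h1 := cj_mem_three_k hH hk h (cj (a⁻¹ * b⁻¹ * a * b) a i) b j
  refine (Subgroup.closure_le _).2 ?_ h1
  rintro s ⟨j', hj', rfl⟩
  refine cj_mem_closure b _ ?_ (cj_mem_three_k hH hk h (a⁻¹ * b⁻¹ * a * b) a i)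
  rintro s ⟨i', hi', rfl⟩
  exact Subgroup.subset_closure ⟨_, ⟨i', j', hi', hj', rfl⟩, rfl⟩

/-- If `M` is invariant under conjugation by `b` and contains `[a,b]`, it contains `[a, b^j]`. -/
theorem comm_zpow_mem {M : Subgroup G} {a b : G}
    (hb : ∀ x ∈ M, ∀ i : ℤ, cj x b i ∈ M) (hc : a⁻¹ * b⁻¹ * a * b ∈ M) (j : ℤ) :
    a⁻¹ * (b ^ j)⁻¹ * a * b ^ j ∈ M := by
  have hstep : ∀ j : ℤ, a⁻¹ * (b ^ (j + 1))⁻¹ * a * b ^ (j + 1) =
      (a⁻¹ * b⁻¹ * a * b) * cj (a⁻¹ * (b ^ j)⁻¹ * a * b ^ j) b 1 := by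
    intro j
    unfold cj
    have e1 : b ^ (j + 1) = b ^ j * b := by rw [zpow_add, zpow_one]
    have e2 : b ^ (j + 1) = b * b ^ j := by rw [add_comm, zpow_add, zpow_one]
    have e3 : (b ^ (j + 1))⁻¹ = b⁻¹ * (b ^ j)⁻¹ := by rw [e1, mul_inv_rev]
    rw [e3, e1, zpow_one]
    simp only [mul_assoc, mul_inv_rev, mul_inv_cancel_left, inv_mul_cancel_left]
  induction j using Int.induction_on with
  | zero => simp
  | succ i ih =>
    rw [hstep]
    exact mul_mem hc (hb _ ih 1)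
  | pred i ih =>
    have e := hstep (-(i : ℤ) - 1)
    rw [sub_add_cancel] at e
    have h3 : cj (a⁻¹ * (b ^ (-(i : ℤ) - 1))⁻¹ * a * b ^ (-(i : ℤ) - 1)) b 1 =
        (a⁻¹ * b⁻¹ * a * b)⁻¹ * (a⁻¹ * (b ^ (-(i : ℤ)))⁻¹ * a * b ^ (-(i : ℤ))) := by
      rw [e, inv_mul_cancel_left]
    have h4 : cj (a⁻¹ * (b ^ (-(i : ℤ) - 1))⁻¹ * a * b ^ (-(i : ℤ) - 1)) b 1 ∈ M := by
      rw [h3]
      exact mul_mem (inv_mem hc) ih
    have h5 := hb _ h4 (-1)
    rw [cj_cj] at h5
    have e6 : (1 : ℤ) + -1 = 0 := by norm_num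
    rw [e6] at h5
    simpa [cj] using h5

theorem CC_b (a b : G) : ∀ x ∈ CC a b Set.univ, ∀ i : ℤ, cj x b i ∈ CC a b Set.univ := by
  intro x hx i
  refine cj_mem_closure b i ?_ hx
  rintro s ⟨⟨p, q⟩, -, rfl⟩
  rw [cj_cj]
  exact Subgroup.subset_closure ⟨(p, q + i), trivial, rfl⟩

theorem CC_mem (a b : G) (p q : ℤ) : cj (cj (a⁻¹ * b⁻¹ * a * b) a p) b q ∈ CC a b Set.univ :=
  Subgroup.subset_closure ⟨(p, q), trivial, rfl⟩

theorem CC_a (a b : G) : ∀ x ∈ CC a b Set.univ, ∀ i : ℤ, i = 1 ∨ i = -1 →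
    cj x a i ∈ CC a b Set.univ := by
  intro x hx i hi
  refine cj_mem_closure a i ?_ hx
  rintro s ⟨⟨p, q⟩, -, rfl⟩
  have hm : (a ^ i)⁻¹ * (b ^ q)⁻¹ * a ^ i * b ^ q ∈ CC a b Set.univ := by
    refine comm_zpow_mem (CC_b a b) ?_ q
    rcases hi with rfl | rfl
    · rw [zpow_one]
      simpa [cj] using CC_mem a b 0 0
    · have h1 := inv_mem (CC_mem a b (-1) 0)
      have e : (cj (cj (a⁻¹ * b⁻¹ * a * b) a (-1)) b 0)⁻¹ = (a ^ (-1 : ℤ))⁻¹ * b⁻¹ * a ^ (-1 : ℤ) * b := by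
        unfold cj
        group
      rwa [e] at h1
  have h2 := mul_mem (mul_mem hm (CC_mem a b (p + i) q)) (inv_mem hm)
  have e2 : (a ^ i)⁻¹ * (b ^ q)⁻¹ * a ^ i * b ^ q * cj (cj (a⁻¹ * b⁻¹ * a * b) a (p + i)) b q *
      ((a ^ i)⁻¹ * (b ^ q)⁻¹ * a ^ i * b ^ q)⁻¹ = cj (cj (cj (a⁻¹ * b⁻¹ * a * b) a p) b q) a i := by
    rw [← cj_cj (a⁻¹ * b⁻¹ * a * b) a p i]
    generalize cj (a⁻¹ * b⁻¹ * a * b) a p = z
    unfold cj
    simp only [mul_assoc, mul_inv_rev, mul_inv_cancel_left, inv_mul_cancel_left, inv_inv]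
  rw [e2] at h2
  exact h2

theorem CC_conj (a b : G) (hab : Subgroup.closure {a, b} = ⊤) (g : G) :
    (∀ x ∈ CC a b Set.univ, g * x * g⁻¹ ∈ CC a b Set.univ) ∧
    (∀ x ∈ CC a b Set.univ, g⁻¹ * x * g ∈ CC a b Set.univ) := by
  have hg : g ∈ Subgroup.closure {a, b} := by rw [hab]; trivial
  induction hg using Subgroup.closure_induction with
  | mem s hs =>
    rcases hs with rfl | rfl
    · constructor
      · intro x hx
        have := CC_a s b x hx (-1) (Or.inr rfl)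
        simpa [cj] using this
      · intro x hx
        have := CC_a s b x hx 1 (Or.inl rfl)
        simpa [cj] using this
    · constructor
      · intro x hx
        have := CC_b a s x hx (-1)
        simpa [cj] using this
      · intro x hx
        have := CC_b a s x hx 1
        simpa [cj] using this
  | one => simp
  | mul g h _ _ ihg ihh =>
    constructor
    · intro x hx
      have := ihg.1 _ (ihh.1 x hx)
      simpa [mul_assoc] using this
    · intro x hx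
      have := ihh.2 _ (ihg.2 x hx)
      simpa [mul_assoc] using this
  | inv g _ ih =>
    rw [inv_inv]
    exact ⟨ih.2, ih.1⟩

/-- The commutator subgroup of `⟨a,b⟩` is generated by the `[a,b]^{a^i b^j}`. -/
theorem commutator_le_CC (a b : G) (hab : Subgroup.closure {a, b} = ⊤) :
    commutator G ≤ CC a b Set.univ := by
  haveI hn : (CC a b Set.univ).Normal := ⟨fun x hx g => (CC_conj a b hab g).1 x hx⟩
  -- the quotient is generated by two commuting elements
  let Q := G ⧸ CC a b Set.univ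
  let f : G →* Q := QuotientGroup.mk' (CC a b Set.univ)
  have hcomm : Commute (f a) (f b) := by
    have h1 : a⁻¹ * b⁻¹ * a * b ∈ CC a b Set.univ := by simpa [cj] using CC_mem a b 0 0
    have h2 : f (a⁻¹ * b⁻¹ * a * b) = 1 := (QuotientGroup.eq_one_iff _).2 h1
    have h3 : (f a)⁻¹ * (f b)⁻¹ * f a * f b = 1 := by simpa using h2
    have h4 : f b * f a * ((f a)⁻¹ * (f b)⁻¹ * f a * f b) = f a * f b := by group
    rw [h3, mul_one] at h4
    exact h4.symm
  have hall : ∀ g h : G, Commute (f g) (f h) := by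
    have hgen : ∀ g : G, g ∈ Subgroup.closure {a, b} := by intro g; rw [hab]; trivial
    have hA : ∀ g : G, Commute (f a) (f g) ∧ Commute (f b) (f g) := by
      intro g
      have hg := hgen g
      induction hg using Subgroup.closure_induction with
      | mem s hs =>
        rcases hs with rfl | rfl
        · exact ⟨Commute.refl _, hcomm.symm⟩
        · exact ⟨hcomm, Commute.refl _⟩
      | one => simp
      | mul g h _ _ ihg ihh =>
        rw [map_mul]
        exact ⟨ihg.1.mul_right ihh.1, ihg.2.mul_right ihh.2⟩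
      | inv g _ ih =>
        rw [map_inv]
        exact ⟨ih.1.inv_right, ih.2.inv_right⟩
    intro g h
    have hg := hgen g
    induction hg using Subgroup.closure_induction with
    | mem s hs =>
      rcases hs with rfl | rfl
      · exact (hA h).1
      · exact (hA h).2
    | one => simp
    | mul g g' _ _ ihg ihg' =>
      rw [map_mul]
      exact ihg.mul_left ihg'
    | inv g _ ih =>
      rw [map_inv]
      exact ih.inv_left
  rw [commutator_def, Subgroup.commutator_le]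
  intro g _ h _
  rw [← QuotientGroup.eq_one_iff (N := CC a b Set.univ)]
  show f ⁅g, h⁆ = 1
  rw [map_commutatorElement, commutatorElement_eq_one_iff_commute]
  exact hall g h

theorem CC_le_commutator (a b : G) (S : Set (ℤ × ℤ)) : CC a b S ≤ commutator G := by
  unfold CC
  rw [Subgroup.closure_le]
  rintro g ⟨p, -, rfl⟩
  have hn : (commutator G).Normal := inferInstance
  have h1 : a⁻¹ * b⁻¹ * a * b ∈ commutator G := by
    have : a⁻¹ * b⁻¹ * a * b = ⁅a⁻¹, b⁻¹⁆ := by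
      simp [commutatorElement_def]
    rw [this]
    exact Subgroup.commutator_mem_commutator trivial trivial
  have h2 : ∀ x ∈ commutator G, ∀ (y : G) (i : ℤ), cj x y i ∈ commutator G := by
    intro x hx y i
    have := hn.conj_mem x hx (y ^ i)⁻¹
    rw [inv_inv] at this
    exact this
  exact h2 _ (h2 _ h1 _ _) _ _

/-- Main result: finite generation of the commutator subgroup. -/
theorem commutator_fg_of_law {D : LD} (hH : 1 ≤ D.H) (hk : 1 ≤ D.k)
    (h : ∀ x y : G, wl D x y = 1) (a b : G) (hab : Subgroup.closure {a, b} = ⊤) :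
    (commutator G).FG := by
  have e : commutator G = CC a b {p | ∃ i j : ℕ, i < 3 * D.k ∧ j < 3 * D.k ∧ p = (↑i, ↑j)} :=
    le_antisymm ((commutator_le_CC a b hab).trans (CC_univ_le hH hk h a b))
      (CC_le_commutator a b _)
  rw [e]
  unfold CC
  rw [Subgroup.fg_iff]
  refine ⟨_, rfl, ?_⟩
  have hfin : ({p | ∃ i j : ℕ, i < 3 * D.k ∧ j < 3 * D.k ∧ p = ((↑i : ℤ), (↑j : ℤ))} :
      Set (ℤ × ℤ)).Finite := by
    have : ({p | ∃ i j : ℕ, i < 3 * D.k ∧ j < 3 * D.k ∧ p = ((↑i : ℤ), (↑j : ℤ))} :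
      Set (ℤ × ℤ)) ⊆ (fun q : ℕ × ℕ => ((q.1 : ℤ), (q.2 : ℤ))) ''
        (Set.Iio (3 * D.k) ×ˢ Set.Iio (3 * D.k)) := by
      rintro p ⟨i, j, hi, hj, rfl⟩
      exact ⟨(i, j), ⟨hi, hj⟩, rfl⟩
    exact Set.Finite.subset (((Set.finite_Iio _).prod (Set.finite_Iio _)).image _) this
  refine (hfin.image (fun p : ℤ × ℤ => cj (cj (a⁻¹ * b⁻¹ * a * b) a p.1) b p.2)).subset ?_
  rintro g ⟨p, hp, rfl⟩
  exact ⟨p, hp, rfl⟩

end Pool.Agent.Olsh
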