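import Pool.Agent.Olsh.Tree2
import Pool.Agent.Olsh.StmtsP
import Pool.Agent.Olsh.Bridge

/-!
# MP_3cdb71_al: level 0: classification of pairs, the exponent sum, positive words
-/

set_option autoImplicit false

namespace Pool.Agent.Olsh

open FreeGroup

/-- All non-commuting pairs of the free group are `B`-pairs. -/
theorem class0 (h : Stmt_CLLL) : ∃ A : ℕ, ∀ a0 L0 : ℕ, A ≤ a0 → 4 * a0 + 2 ≤ L0 → ∃ D0 : ℕ,
    ∀ D k : ℕ, D0 ≤ D → D0 ≤ k → ∃ C12 : ℕ, ∀ x y : F2, x * y ≠ y * x →
      GPair td D k 1 C12 x y := by
  obtain ⟨A, hA⟩ := h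
  refine ⟨A, fun a0 L0 h0 h1 => ?_⟩
  obtain ⟨D0, hD⟩ := hA 1 a0 L0 h0
  refine ⟨D0, fun D k hD1 hk1 => ?_⟩
  obtain ⟨C12, hC⟩ := hD D k hD1 hk1
  refine ⟨C12, fun x y hxy => ?_⟩
  have hx : x ≠ 1 := by
    rintro rfl
    simp at hxy
  have hy : y ≠ 1 := by
    rintro rfl
    simp at hxy
  have h2 := td_slen x hx
  have h3 := td_slen y hy
  refine hC F2 F2 td (fun _ => 0) 1 (lev0 a0 L0 _ 1 h1) x y hxy ?_ ?_
  · push_cast
    linarith
  · push_cast
    linarith

/-- The exponent sum. -/
def esum : F2 →* Multiplicative ℤ := FreeGroup.lift fun _ => Multiplicative.ofAdd 1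

/-- The exponent sum as an integer valued function. -/
def es (x : F2) : ℤ := Multiplicative.toAdd (esum x)

theorem es_mul (x y : F2) : es (x * y) = es x + es y := by
  unfold es
  rw [_root_.map_mul, toAdd_mul]

theorem es_one : es 1 = 0 := by
  unfold es
  rw [_root_.map_one, toAdd_one]

theorem es_inv (x : F2) : es x⁻¹ = -es x := by
  unfold es
  rw [_root_.map_inv, toAdd_inv]

theorem es_of (i : Bool) : es (of i) = 1 := by
  unfold es esum
  rw [FreeGroup.lift_apply_of]
  rfl

theorem es_pos (P : List Bool) : es (P.map of).prod = P.length := by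
  induction P with
  | nil => simp [es_one]
  | cons i P ih =>
    rw [List.map_cons, List.prod_cons, es_mul, ih, es_of, List.length_cons]
    push_cast
    ring

/-- The exponent sum is bounded by the norm. -/
theorem es_le_norm (x : F2) : |es x| ≤ FreeGroup.norm x := by
  have key : ∀ L : List (Bool × Bool), |es (mk L)| ≤ L.length := by
    intro L
    induction L with
    | nil =>
      have : (mk [] : F2) = 1 := rfl
      rw [this, es_one]
      simp
    | cons a L ih =>
      have e : (mk (a :: L) : F2) = mk [a] * mk L := by rw [mul_mk]; rfl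
      rw [e, es_mul]
      have h1 : |es (mk [a])| ≤ 1 := by
        obtain ⟨i, b⟩ := a
        cases b
        · have e2 : (mk [(i, false)] : F2) = (of i)⁻¹ := rfl
          rw [e2, es_inv, es_of]
          norm_num
        · have e2 : (mk [(i, true)] : F2) = of i := rfl
          rw [e2, es_of]
          norm_num
      have h2 := abs_add_le (es (mk [a])) (es (mk L))
      rw [List.length_cons]
      push_cast
      linarith
  have := key x.toWord
  rwa [mk_toWord] at this

/-- The exponent sum is `1`-Lipschitz on the tree. -/
theorem es_lip (x y : F2) : |es y - es x| ≤ td x y := by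
  have h1 := es_le_norm (x⁻¹ * y)
  rw [es_mul, es_inv] at h1
  have e : -es x + es y = es y - es x := by ring
  rw [e] at h1
  exact h1

theorem pos_isReduced (P : List Bool) : IsReduced (P.map fun i => (i, true)) := by
  induction P with
  | nil => exact IsReduced.nil
  | cons i P ih =>
    cases P with
    | nil => exact IsReduced.singleton
    | cons j P =>
      rw [List.map_cons, List.map_cons, isReduced_cons_cons]
      exact ⟨fun _ => rfl, ih⟩

theorem pos_eq_mk (P : List Bool) : ((P.map of).prod : F2) = mk (P.map fun i => (i, true)) := by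
  induction P with
  | nil => rfl
  | cons i P ih =>
    rw [List.map_cons, List.prod_cons, ih, List.map_cons]
    have : (of i : F2) = mk [(i, true)] := rfl
    rw [this, mul_mk]
    rfl

theorem pos_toWord (P : List Bool) : ((P.map of).prod : F2).toWord = P.map fun i => (i, true) := by
  rw [pos_eq_mk, toWord_mk, (pos_isReduced P).reduce_eq]

/-- Positive words are geodesic. -/
theorem pos_norm (P : List Bool) : FreeGroup.norm ((P.map of).prod : F2) = P.length := by
  rw [FreeGroup.norm, pos_toWord, List.length_map]

/-- Positive words are not identified in the free group. -/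
theorem pos_inj0 : PosInj (MonoidHom.id F2) := by
  intro P Q h
  have h1 : ((P.map of).prod : F2) = (Q.map of).prod := h
  have h2 : P.map (fun i => (i, true)) = Q.map (fun i => (i, true)) := by
    rw [← pos_toWord, ← pos_toWord, h1]
  have hinj : Function.Injective (fun i : Bool => (i, true)) := by
    intro i j hij
    simpa using hij
  exact hinj.list_map h2

end Pool.Agent.Olsh
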