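import Pool.Agent.Olsh.LawFG

/-!
# MP_3cdb71_al: the relatively free group of the law, and the bridge to the frozen statement
-/

set_option autoImplicit false

namespace Pool.Agent.Olsh

/-- The verbal subgroup of the free group on two letters. -/
def VS (D : LD) : Subgroup (FreeGroup Bool) :=
  Subgroup.normalClosure {g | ∃ x y : FreeGroup Bool, g = wl D x y}

instance VS_normal (D : LD) : (VS D).Normal := Subgroup.normalClosure_normal

/-- The relatively free group of rank two of the law. -/
abbrev GW (D : LD) : Type := FreeGroup Bool ⧸ VS D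

theorem GW_law (D : LD) (x y : GW D) : wl D x y = 1 := by
  obtain ⟨x, rfl⟩ := QuotientGroup.mk'_surjective (VS D) x
  obtain ⟨y, rfl⟩ := QuotientGroup.mk'_surjective (VS D) y
  rw [← map_wl]
  exact (QuotientGroup.eq_one_iff _).2 (Subgroup.subset_normalClosure ⟨x, y, rfl⟩)

/-- The generators. -/
def gg (D : LD) (i : Bool) : GW D := QuotientGroup.mk' (VS D) (FreeGroup.of i)

theorem closure_range_gg (D : LD) : Subgroup.closure (Set.range (gg D)) = ⊤ := by
  have h1 : Set.range (gg D) = (QuotientGroup.mk' (VS D)) '' (Set.range FreeGroup.of) := by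
    rw [← Set.range_comp]
    rfl
  rw [h1, ← MonoidHom.map_closure, FreeGroup.closure_range_of, ← MonoidHom.range_eq_map,
    MonoidHom.range_eq_top]
  exact QuotientGroup.mk'_surjective _

theorem gg_pair (D : LD) : Subgroup.closure {gg D true, gg D false} = ⊤ := by
  rw [← closure_range_gg D]
  congr 1
  ext g
  constructor
  · rintro (rfl | rfl)
    · exact ⟨true, rfl⟩
    · exact ⟨false, rfl⟩
  · rintro ⟨i, rfl⟩
    cases i
    · right; rfl
    · left; rfl

theorem GW_ext (D : LD) (f : Set.range (gg D) → GW D) :
    ∃ φ : GW D →* GW D, ∀ x : Set.range (gg D), φ (x : GW D) = f x := by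
  let φ0 : FreeGroup Bool →* GW D := FreeGroup.lift (fun i => f ⟨gg D i, ⟨i, rfl⟩⟩)
  have hk : VS D ≤ φ0.ker := by
    unfold VS
    refine Subgroup.normalClosure_le_normal ?_
    rintro g ⟨x, y, rfl⟩
    show φ0 (wl D x y) = 1
    rw [map_wl]
    exact GW_law D _ _
  refine ⟨QuotientGroup.lift (VS D) φ0 hk, ?_⟩
  rintro ⟨_, ⟨i, rfl⟩⟩
  show QuotientGroup.lift (VS D) φ0 hk ((FreeGroup.of i : FreeGroup Bool) : GW D) = _
  rw [QuotientGroup.lift_mk]
  exact FreeGroup.lift_apply_of

theorem lift_foldl {G : Type*} [Group G] (f : Bool → G) (l : List Bool) (a : G) :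
    l.foldl (fun a b => a * f b) a = a * (l.map f).prod := by
  induction l generalizing a with
  | nil => simp
  | cons b l ih =>
    rw [List.foldl_cons, ih, List.map_cons, List.prod_cons, mul_assoc]

theorem freeSemigroup_lift {G : Type*} [Group G] (f : Bool → G) (x : FreeSemigroup Bool) :
    FreeSemigroup.lift f x = ((x.head :: x.tail).map f).prod := by
  show x.2.foldl (fun a b => a * f b) (f x.1) = _
  rw [lift_foldl]
  simp

/-- The bridge: a law with finitely generated conjugates and injectivity on positive words gives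
the frozen statement. -/
theorem bridge (D : LD) (hH : 1 ≤ D.H) (hk : 1 ≤ D.k)
    (hpos : PosInj (QuotientGroup.mk' (VS D))) :
    ∃ (G : Type) (_ : Group G) (X : Set G),
      Subgroup.closure X = ⊤ ∧
      (∀ f : X → G, ∃ φ : G →* G, ∀ x : X, φ (x : G) = f x) ∧
      (∃ a b : G,
        Function.Injective
          (FreeSemigroup.lift (fun i : Bool => if i then a else b) : FreeSemigroup Bool → G)) ∧
      (commutator G).FG := by
  refine ⟨GW D, inferInstance, Set.range (gg D), closure_range_gg D, GW_ext D,
    ⟨gg D true, gg D false, ?_⟩,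
    commutator_fg_of_law hH hk (GW_law D) (gg D true) (gg D false) (gg_pair D)⟩
  intro x y hxy
  have hf : (fun i : Bool => if i then gg D true else gg D false) = gg D := by
    funext i
    cases i <;> simp
  have hxy' : FreeSemigroup.lift (gg D) x = FreeSemigroup.lift (gg D) y := by
    rw [← hf]
    exact hxy
  rw [freeSemigroup_lift, freeSemigroup_lift] at hxy'
  have e : ∀ l : List Bool, (l.map (gg D)).prod =
      QuotientGroup.mk' (VS D) (l.map FreeGroup.of).prod := by
    intro l
    rw [map_list_prod, List.map_map]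
    rfl
  rw [e, e] at hxy'
  have := hpos _ _ hxy'
  rw [List.cons.injEq] at this
  cases x
  cases y
  simp only at this
  rw [FreeSemigroup.mk.injEq]
  exact this

end Pool.Agent.Olsh
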