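import Pool.Agent.Olsh.StmtsG

/-!
# MP_3cdb71_al: SPL, displacement of the value of the law at an S-pair of the quotient
-/

set_option autoImplicit false

namespace Pool.Agent.Olsh

/-- A pair with constants `1, B` is a pair with constants `V, B'`. -/
theorem SPL.gpair_mono {G X : Type} [Group G] [MulAction G X] {d : X → X → ℕ} {D k V B B' : ℕ}
    {x y : G} (h : GPair d D k 1 B x y) (hV : 1 ≤ V) (hB : B ≤ B') :
    GPair d D k V B' x y ∧ 1 ≤ slen d (gW D k x y) := by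
  obtain ⟨h1, h2, o, h3, h4⟩ := h
  have hs : 1 ≤ slen d (gW D k x y) := by simpa using h2
  have hV' : (1 : ℝ) ≤ V := by exact_mod_cast hV
  have hB' : (B : ℝ) ≤ B' := by exact_mod_cast hB
  have hm : (B : ℝ) * (slen d (gW D k x y) + 1) ≤ B' * (slen d (gW D k x y) + 1) :=
    mul_le_mul_of_nonneg_right hB' (by linarith)
  exact ⟨⟨h1, by nlinarith, o, h3.trans hm, h4.trans hm⟩, hs⟩

/-- SPL. -/
theorem SPL (h1 : Stmt_AXQ) (h2 : Stmt_RLEN) : Stmt_SPL := by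
  intro η1 C
  obtain ⟨K, hK⟩ := h1 (59 * dl + 5) η1 C
  refine ⟨K, fun B1 => ?_⟩
  obtain ⟨U, hU⟩ := hK B1
  refine ⟨U, ?_⟩
  intro D c u ρ L1 C13 hu hL hbig G G' X A' _ _ _ _ d SP d' π q hsq x₁ y₁ hl
  obtain ⟨hgp, hsl⟩ := SPL.gpair_mono hl.gp hsq.V1 hsq.B1
  have e1 := h2 D c.n0 c.V c.B ρ L1 hsq.ok G X d hsq.dir x₁ y₁ hgp hsl
  have e2 : (B1 + 1) * u * (c.LS + K) ≤ disp d (lw D x₁ y₁) := by
    have := hbig.trans e1
    omega
  have e3 : K * ((B1 + 1) * u) ≤ disp d (lw D x₁ y₁) := by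
    refine le_trans ?_ e2
    rw [mul_comm]
    exact Nat.mul_le_mul_left _ (Nat.le_add_left _ _)
  obtain ⟨-, e4, -, -⟩ := hU G G' X (KS (G := G) D d c.T) A' d u c.LS (KY D d c.T) d' π q
    hsq.cq hu hL (lw D x₁ y₁) hl.ang e3
  have hpos : 0 < (B1 + 1) * u := Nat.mul_pos (Nat.succ_pos _) hsq.cq.conep.one_le
  have e5 := Nat.le_of_mul_le_mul_left (e2.trans e4) hpos
  rw [← map_lw π D x₁ y₁]
  omega

end Pool.Agent.Olsh
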