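import Pool.Agent.Olsh.DefsG
import Pool.Agent.Olsh.PhiVar

/-!
# MP_3cdb71_al: level 0 is a stage; final assembly
-/

set_option autoImplicit false

namespace Pool.Agent.Olsh

/-- The level 0. -/
def lvl0 : Lvl where
  G := F2
  X := F2
  d := td
  pi := MonoidHom.id F2
  surj := Function.surjective_id
  o := 1

/-- Level 0 is a stage. -/
theorem stage0 (D : LD) (c : Cst) (h : 4 * c.a0 + 2 ≤ c.L0)
    (hcl : ∀ x y : F2, x * y ≠ y * x → GPair td D.d D.k 1 c.C12 x y) : Stage D c lvl0 := by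
  refine ⟨fun _ _ => False, 1, es, es, ?_⟩
  exact
    { lev := lev0 c.a0 c.L0 c.CP c.M0 h
      cls := fun x y hxy _ => Or.inl (hcl x y hxy)
      spn := fun _ _ h => h.elim
      spe := fun _ _ h => h.elim
      spl := fun _ _ h => h.elim
      sps := fun _ _ _ _ h => h.elim
      spd := fun _ _ h => h.elim
      spf := fun _ _ h => h.elim
      phl := phiL0 }

/-- The final statement from the step. -/
theorem final_of_step (hstep : ∃ (D : LD) (c : Cst) (u m : ℕ), D.H = 12 * m + 1 ∧ 1 ≤ D.k ∧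
      2 ≤ u ∧ 1 ≤ c.T ∧ 4 * c.a0 + 2 ≤ c.L0 ∧
      (∀ x y : F2, x * y ≠ y * x → GPair td D.d D.k 1 c.C12 x y) ∧
      ∀ L, Stage D c L → ∃ L', Stage D c L' ∧ StepRel D u c.T L L') :
    ∃ (G : Type) (_ : Group G) (X : Set G),
      Subgroup.closure X = ⊤ ∧
      (∀ f : X → G, ∃ φ : G →* G, ∀ x : X, φ (x : G) = f x) ∧
      (∃ a b : G,
        Function.Injective
          (FreeSemigroup.lift (fun i : Bool => if i then a else b) : FreeSemigroup Bool → G)) ∧
      (commutator G).FG := by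
  obtain ⟨D, c, u, m, hH, hk, hu, hT, hL, hcl, hst⟩ := hstep
  refine bridge D (by omega) hk ?_
  refine posInj_of_step D hH hu hT (Stage D c) ⟨lvl0, stage0 D c hL hcl⟩ hst ?_
  rintro L ⟨SP, Lam, sg, phi, h⟩
  exact h.phl.inj

end Pool.Agent.Olsh
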