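import Pool.Agent.Olsh.StmtsS
import Pool.Agent.Olsh.PhiVar
import Pool.Agent.Olsh.ConeAll

/-!
# MP_3cdb71_al: assembly of the step from the modules
-/

set_option autoImplicit false

namespace Pool.Agent.Olsh

theorem GPair.mono {G X : Type} [Group G] [MulAction G X] {d : X → X → ℕ} {D k V B V' B' : ℕ}
    {x y : G} (h : GPair d D k V B x y) (hV : V ≤ V') (hB : B ≤ B') : GPair d D k V' B' x y := by
  obtain ⟨h1, h2, o, h3, h4⟩ := h
  have h5 : 0 ≤ slen d (gW D k x y) := IsomAct.slen_nonneg _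
  have h6 : (V : ℝ) ≤ V' := by exact_mod_cast hV
  have h7 : (B : ℝ) ≤ B' := by exact_mod_cast hB
  have h8 : (B : ℝ) * (slen d (gW D k x y) + 1) ≤ B' * (slen d (gW D k x y) + 1) :=
    mul_le_mul_of_nonneg_right h7 (by linarith)
  exact ⟨h1, h2.trans (mul_le_mul_of_nonneg_right h6 h5), o, h3.trans h8, h4.trans h8⟩

theorem ELe.mono {G X : Type} [Group G] [MulAction G X] {d : X → X → ℕ} {e e' : ℕ} {x y : G}
    (h : ELe d e x y) (he : e ≤ e') : ELe d e' x y := by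
  obtain ⟨o, h1, h2⟩ := h
  exact ⟨o, h1.trans he, h2.trans he⟩

theorem map_gW {G G' : Type} [Group G] [Group G'] (φ : G →* G') (D k : ℕ) (x y : G) :
    φ (gW D k x y) = gW D k (φ x) (φ y) := by
  simp only [gW, qW, pW, yW, map_mul, map_inv, map_pow]

theorem aux37 (a b : ℕ) (h : 100 * a + 100 ≤ b) : 37 * a + 5 ≤ b := by omega

/-- The step at fixed constants. -/
theorem step_core (hMALN : Stmt_MALN) (hKOV : Stmt_KOV) (hKROT : Stmt_KROT) (hKLC : Stmt_KLC)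
    (hVAR : Stmt_VAR) (hSHR : Stmt_SHR) (hEW1 : Stmt_EW1)
    (D : LD) (c : Cst) (u η1 C ρ L1 C13 B1 C10 U : ℕ)
    (hok : LDok D c.n0) (hV : 1 ≤ c.V) (hB : c.C12 ≤ c.B)
    (heta : 1000 * dl + 100 * (59 * dl + 5) + 1000 ≤ η1) (hηρ : η1 ≤ ρ)
    (hrr : 200 * (dl + η1 + 1) ≤ c.rr) (hLS1 : 100 * dl + 100 ≤ c.LS)
    (hLS2 : 2 * c.LS ≤ (D.H - 1) * c.n0 * D.N) (hu1 : 20000 * (c.n0 * (CE D * c.T)) ≤ u)
    (hu2 : 100 * c.TS ≤ u) (hu3 : 10 * c.V5 ≤ u)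
    (hu4 : 10 * (28 * (CE D * c.T) + 12 * c.T) ≤ u) (hT13 : C13 ≤ c.T)
    (hUu : U ≤ u) (hUL : U * u ≤ c.LS) {m : ℕ} (hH : D.H = 12 * m + 1)
    (hDIR : ∀ (G X : Type) [Group G] [MulAction G X] (d : X → X → ℕ),
      Lev G d c.a0 c.L0 c.CP c.M0 → Dir G D c.n0 c.V c.B ρ L1 d)
    (hCONEQ : ∀ (G X S : Type) [Group G] [MulAction G X] [MulAction G S] (d : X → X → ℕ)
      (Y : S → Set X), ConeG G d u c.LS Y (59 * dl + 5) η1 →
      ∃ (G' A' : Type) (_ : Group G') (_ : MulAction G' A') (d' : A' → A' → ℕ) (π : G →* G')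
        (q : X ⊕ S → A'), ConeQ G G' d u c.LS Y (59 * dl + 5) η1 C d' π q)
    (hTR : ∀ (G G' X S A' : Type) [Group G] [MulAction G X] [MulAction G S] [Group G']
      [MulAction G' A'] (d : X → X → ℕ) (Y : S → Set X) (d' : A' → A' → ℕ) (π : G →* G')
      (q : X ⊕ S → A'), LQ G G' d u c.LS Y (59 * dl + 5) η1 C d' π q c.a0 c.L0 c.CP c.M0 U →
      Lev G' d' c.a0 c.L0 c.CP c.M0)
    (hCL : ∀ (G G' X S A' : Type) [Group G] [MulAction G X] [MulAction G S] [Group G']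
      [MulAction G' A'] (d : X → X → ℕ) (Y : S → Set X) (d' : A' → A' → ℕ) (π : G →* G')
      (q : X ⊕ S → A'), LQ G G' d u c.LS Y (59 * dl + 5) η1 C d' π q c.a0 c.L0 c.CP c.M0 U →
      Lev G' d' c.a0 c.L0 c.CP c.M0 → ∀ x y : G', x * y ≠ y * x →
      GPair d' D.d D.k 1 c.C12 x y ∨ ∃ x₁ y₁ : G, π x₁ = x ∧ π y₁ = y ∧ ELe d (C13 * u) x₁ y₁)
    (hBE : ∀ (G G' X S A' : Type) [Group G] [MulAction G X] [MulAction G S] [Group G']
      [MulAction G' A'] (d : X → X → ℕ) (Y : S → Set X) (d' : A' → A' → ℕ) (π : G →* G')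
      (q : X ⊕ S → A'), LQ G G' d u c.LS Y (59 * dl + 5) η1 C d' π q c.a0 c.L0 c.CP c.M0 U →
      ∀ (g : G) (o : X), π g ≠ 1 → d o (g • o) ≤ (2 * (D.d + D.k) * C13) * u →
      slen d g ≤ C10 * u * slen d' (π g))
    (hANGS : ∀ (G G' X A' : Type) [Group G] [MulAction G X] [Group G'] [MulAction G' A']
      (d : X → X → ℕ) (SP : G → G → Prop) (d' : A' → A' → ℕ) (π : G →* G')
      (q : X ⊕ KS (G := G) D d c.T → A'), SQ G G' D c d SP u η1 C ρ L1 d' π q → ∀ x₁ y₁ : G,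
      π x₁ * π y₁ ≠ π y₁ * π x₁ → π (lw D x₁ y₁) ≠ 1 → ELe d (C13 * u) x₁ y₁ →
      Lft D c d u π (C13 * u) B1 x₁ y₁)
    (hSPL : ∀ (G G' X A' : Type) [Group G] [MulAction G X] [Group G'] [MulAction G' A']
      (d : X → X → ℕ) (SP : G → G → Prop) (d' : A' → A' → ℕ) (π : G →* G')
      (q : X ⊕ KS (G := G) D d c.T → A'), SQ G G' D c d SP u η1 C ρ L1 d' π q → ∀ x₁ y₁ : G,
      Lft D c d u π (C13 * u) B1 x₁ y₁ → c.LS ≤ disp d' (lw D (π x₁) (π y₁)))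
    (hSPS : ∀ (G G' X A' : Type) [Group G] [MulAction G X] [Group G'] [MulAction G' A']
      (d : X → X → ℕ) (SP : G → G → Prop) (d' : A' → A' → ℕ) (π : G →* G')
      (q : X ⊕ KS (G := G) D d c.T → A'), SQ G G' D c d SP u η1 C ρ L1 d' π q →
      ∀ x₁ y₁ x₂ y₂ : G, Lft D c d u π (C13 * u) B1 x₁ y₁ →
      Lft D c d u π (C13 * u) B1 x₂ y₂ → ∀ q' : G',
      Ovp d' c.rr (Mn d' (lw D (π x₁) (π y₁))) (Mn d' (lw D (π x₂) (π y₂))) q' c.TS →
      Cnj D (π x₁) (π y₁) (π x₂) (π y₂) q')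
    (hSPD : ∀ (G G' X A' : Type) [Group G] [MulAction G X] [Group G'] [MulAction G' A']
      (d : X → X → ℕ) (SP : G → G → Prop) (d' : A' → A' → ℕ) (π : G →* G')
      (q : X ⊕ KS (G := G) D d c.T → A'), SQ G G' D c d SP u η1 C ρ L1 d' π q →
      ∀ x₁ y₁ : G, Lft D c d u π (C13 * u) B1 x₁ y₁ →
      slen d (gW D.d D.k x₁ y₁) ≤ C10 * u * slen d' (π (gW D.d D.k x₁ y₁)) →
      GPair d' D.d D.k c.V c.B (π x₁) (π y₁) ∨ ∀ q' : G',
        Ovp d' c.rr (Mn d' (lw D (π x₁) (π y₁))) (Mn d' (lw D (π x₁) (π y₁))) q'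
          (c.n0 * D.N / 2) → Cnj D (π x₁) (π y₁) (π x₁) (π y₁) q')
    (hSPF : ∀ (G G' X A' : Type) [Group G] [MulAction G X] [Group G'] [MulAction G' A']
      (d : X → X → ℕ) (SP : G → G → Prop) (d' : A' → A' → ℕ) (π : G →* G')
      (q : X ⊕ KS (G := G) D d c.T → A'), SQ G G' D c d SP u η1 C ρ L1 d' π q →
      ∀ (sg : G → ℤ) (phi : X → ℤ) (Lam : ℕ), (∀ g h, sg (g * h) = sg g + sg h) →
      (∀ (g : G) (v : X), phi (g • v) = sg g + phi v) →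
      (∀ v w : X, |phi w - phi v| ≤ Lam * (d v w : ℤ)) → ∀ phi' : A' → ℤ,
      (∀ v w : A', |phi' w - phi' v| ≤ (u * Lam : ℕ) * (d' v w : ℤ)) →
      (∀ v : X, phi' (q (Sum.inl v)) = phi v) → ∀ x₁ y₁ : G,
      Lft D c d u π (C13 * u) B1 x₁ y₁ →
      ∀ v ∈ Mn d' (lw D (π x₁) (π y₁)), ∀ w ∈ Mn d' (lw D (π x₁) (π y₁)),
      phi' v - phi' w ≤ (u * Lam * c.V5 : ℕ))
    (hPHI : ∀ (G G' X S A' : Type) [Group G] [MulAction G X] [MulAction G S]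
      [Group G'] [MulAction G' A'] (d : X → X → ℕ) (Y : S → Set X) (d' : A' → A' → ℕ)
      (π : G →* G') (q : X ⊕ S → A'), ConeQ G G' d u c.LS Y (59 * dl + 5) η1 C d' π q →
      ∀ (ψ : F2 →* G) (Λ : ℕ) (o : X) (sg : G → ℤ) (phi : X → ℤ), PhiL G d ψ Λ o sg phi →
      (∀ s, ∀ y ∈ Y s, ∀ y' ∈ Y s, 10 * (phi y' - phi y) ≤ Λ * (u : ℤ)) →
      (∀ (s : S) (r : G), r • s = s → sg r = 0) →
      ∃ (sg' : G' → ℤ) (phi' : A' → ℤ), PhiL G' d' (π.comp ψ) (u * Λ) (q (Sum.inl o)) sg' phi' ∧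
        (∀ g, sg' (π g) = sg g) ∧ ∀ v, phi' (q (Sum.inl v)) = phi v)
    (L : Lvl) (hSt : Stage D c L) : ∃ L' : Lvl, Stage D c L' ∧ StepRel D u c.T L L' := by
  obtain ⟨SP, Lam, sg, phi, hS⟩ := hSt
  have hlev := hS.lev
  have hG := hS.toStageG
  have hdir := hDIR L.G L.X L.d hlev
  have hrot := hKROT D c ρ L1 hok hV hB hLS1 hLS2 L.G L.X L.d SP hG hdir
  have hov := hKOV D c η1 u ρ L1 hok hηρ hrr hV hB hLS1 hu1 hu2 L.G L.X L.d SP hG hdir
  have hX := hlev.ne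
  have hLS3 : 37 * dl + 5 ≤ c.LS := aux37 dl c.LS hLS1
  -- the cone-off
  have hCG : ConeG L.G L.d u c.LS (KY D L.d c.T) (59 * dl + 5) η1 :=
    { gm := hlev.gm
      hyp := hlev.hyp
      ne := fun s => Mn_nonempty _
      qc := fun s => hlev.isom.mn_qconv hlev.hyp hlev.gm (hLS3.trans (hrot s).1)
      ov := hov
      isom := hlev.isom
      free := hlev.free
      Ysmul := fun g s v hv => (hlev.isom.smul_mem_Mn s.1 g v).2 hv
      rot := fun s r h1 h2 y hy => ((hrot s).2 r h1).2 h2 y hy }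
  obtain ⟨G', A', i1, i2, d', π, q, hQ⟩ := hCONEQ L.G L.X _ L.d _ hCG
  have hLQ : LQ L.G G' L.d u c.LS (KY D L.d c.T) (59 * dl + 5) η1 C d' π q c.a0 c.L0 c.CP c.M0 U :=
    { toConeQ := hQ, lev := hlev, hu := hUu, hL := hUL, heta := heta }
  have hlev' := hTR L.G G' L.X _ A' L.d _ d' π q hLQ
  have hml := hMALN G' A' d' c.a0 c.L0 c.CP c.M0 hlev'
  have hcsa : IsCSA G' := ⟨fun a b c => hlev'.csa a b c, fun a b => hml.2 a b⟩
  have htf : ∀ (g : G') (n : ℕ), 1 ≤ n → g ^ n = 1 → g = 1 := hml.1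
  have hSQ : SQ L.G G' D c L.d SP u η1 C ρ L1 d' π q :=
    { ok := hok, st := hG, dir := hdir, cq := hQ, csa' := hcsa, tf' := htf, heta := heta
      V1 := hV, B1 := hB }
  have hu0 : 1 ≤ u := hQ.conep.one_le
  obtain ⟨hsh1, hsh2, -⟩ := hSHR _ _ _ L.G G' L.X _ A' L.d u c.LS _ d' π q hQ
  -- lifts of S-pairs
  have hlift : ∀ x y : G', SPQ D L.d π (C13 * u) x y →
      ∃ x₁ y₁ : L.G, π x₁ = x ∧ π y₁ = y ∧ Lft D c L.d u π (C13 * u) B1 x₁ y₁ := by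
    rintro x y ⟨h1, h2, x₁, y₁, rfl, rfl, h3⟩
    exact ⟨x₁, y₁, rfl, rfl, hANGS L.G G' L.X A' L.d SP d' π q hSQ x₁ y₁ h1
      (by rwa [map_lw]) h3⟩
  have hSG : StageG G' D c d' (SPQ D L.d π (C13 * u)) := by
    refine ⟨hlev', ?_, ?_, ?_, ?_, ?_, ?_⟩
    · intro x y h1 h2
      rcases hCL L.G G' L.X _ A' L.d _ d' π q hLQ hlev' x y h1 with h | ⟨x₁, y₁, h3, h4, h5⟩
      · exact Or.inl h
      · exact Or.inr ⟨h1, h2, x₁, y₁, h3, h4, h5⟩
    · exact fun x y h => ⟨h.1, h.2.1⟩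
    · rintro x y ⟨h1, h2, x₁, y₁, rfl, rfl, h3⟩
      exact (hsh2 C13 x₁ y₁ h3).mono hT13
    · intro x y h
      obtain ⟨x₁, y₁, rfl, rfl, h1⟩ := hlift x y h
      exact hSPL L.G G' L.X A' L.d SP d' π q hSQ x₁ y₁ h1
    · intro x y x' y' h h'
      obtain ⟨x₁, y₁, rfl, rfl, h1⟩ := hlift x y h
      obtain ⟨x₂, y₂, rfl, rfl, h2⟩ := hlift x' y' h'
      exact hSPS L.G G' L.X A' L.d SP d' π q hSQ x₁ y₁ x₂ y₂ h1 h2
    · intro x y h
      obtain ⟨x₁, y₁, rfl, rfl, h1⟩ := hlift x y h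
      refine hSPD L.G G' L.X A' L.d SP d' π q hSQ x₁ y₁ h1 ?_
      obtain ⟨o, ho⟩ := (hKLC D L.G L.X L.d hlev.gm hlev.isom (C13 * u) x₁ y₁ h1.ele).1
      refine hBE L.G G' L.X _ A' L.d _ d' π q hLQ _ o ?_ (by rwa [← mul_assoc] at ho)
      rw [map_gW]
      exact (hEW1 D.d D.k G' hcsa htf hok.d1 hok.k1 _ _ h1.nc).1
  -- the exponent sum
  have hvar : ∀ s : KS (G := L.G) D L.d c.T, ∀ y ∈ KY D L.d c.T s, ∀ y' ∈ KY D L.d c.T s,
      10 * (phi y' - phi y) ≤ Lam * (u : ℤ) := by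
    intro s y hy y' hy'
    obtain ⟨x₀, y₀, hk, hs⟩ := s.ex hlev.isom
    have hy1 : y ∈ Mn L.d (lw D x₀ y₀) := hs ▸ hy
    have hy1' : y' ∈ Mn L.d (lw D x₀ y₀) := hs ▸ hy'
    rcases hG.cls x₀ y₀ hk.1 hk.2.1 with h | h
    · obtain ⟨o, ho1, ho2⟩ := hk.2.2
      have h1 := hVAR D c.n0 c.V c.B ρ L1 hok L.G L.X L.d hdir sg phi Lam hS.phl.sg_mul
        hS.phl.equi hS.phl.lip x₀ y₀ (h.mono hV hB) c.T o ho1 y' hy1' y hy1
      have h2 := (hKLC D L.G L.X L.d hlev.gm hlev.isom c.T x₀ y₀ hk.2.2).2.2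
      have h3 : 10 * (Lam * (28 * disp L.d (cw D x₀ y₀) + 12 * c.T)) ≤ Lam * u := by
        calc 10 * (Lam * (28 * disp L.d (cw D x₀ y₀) + 12 * c.T))
            = Lam * (10 * (28 * disp L.d (cw D x₀ y₀) + 12 * c.T)) := by ring
          _ ≤ Lam * u := Nat.mul_le_mul_left _ (by omega)
      have h4 : (10 : ℤ) * ((Lam * (28 * disp L.d (cw D x₀ y₀) + 12 * c.T) : ℕ) : ℤ)
          ≤ Lam * (u : ℤ) := by exact_mod_cast h3
      linarith
    · have h1 := hS.spf x₀ y₀ h y' hy1' y hy1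
      have h3 : 10 * (Lam * c.V5) ≤ Lam * u := by
        calc 10 * (Lam * c.V5) = Lam * (10 * c.V5) := by ring
          _ ≤ Lam * u := Nat.mul_le_mul_left _ hu3
      have h4 : (10 : ℤ) * ((Lam * c.V5 : ℕ) : ℤ) ≤ Lam * (u : ℤ) := by exact_mod_cast h3
      linarith
  have hsg0 : ∀ (s : KS (G := L.G) D L.d c.T) (r : L.G), r • s = s → sg r = 0 := by
    intro s r hr
    obtain ⟨n, rfl⟩ := ((hrot s).2 r hr).1
    obtain ⟨x₀, y₀, hk, hs⟩ := s.ex hlev.isom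
    rw [sg_zpow' hS.phl.sg_mul, hs]
    have : sg (lw D x₀ y₀) = 0 := sg_lawW hS.phl.sg_mul _ _ _ _ _ _ _ hok.h12
    rw [this, mul_zero]
  obtain ⟨sg', phi', hP', -, hphi⟩ := hPHI L.G G' L.X _ A' L.d _ d' π q hQ L.pi Lam L.o sg phi
    hS.phl hvar hsg0
  -- the next level
  let L' : Lvl := { G := G', X := A', d := d', pi := π.comp L.pi, o := q (Sum.inl L.o)
                    surj := hQ.quot.surjG.comp L.surj }
  refine ⟨L', ⟨SPQ D L.d π (C13 * u), u * Lam, sg', phi', { toStageG := hSG, phl := hP', spf := ?_ }⟩,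
    ?_⟩
  · intro x y h
    obtain ⟨x₁, y₁, rfl, rfl, h1⟩ := hlift x y h
    exact hSPF L.G G' L.X A' L.d SP d' π q hSQ sg phi Lam hS.phl.sg_mul hS.phl.equi hS.phl.lip
      phi' hP'.lip hphi x₁ y₁ h1
  · refine ⟨?_, ?_, ?_⟩
    · intro g hg
      show π (L.pi g) = 1
      rw [hg, map_one]
    · intro x y hsm hc
      show π (L.pi (wl D x y)) = 1
      have e1 : D = mkLD D.d D.k D.N (D.H - 1) D.nn := by
        obtain ⟨a1, a2, a3, a4, a5⟩ := D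
        have : a4 - 1 + 1 = a4 := by
          have := hok.H1
          simp only at this
          omega
        simp only [mkLD, this]
      have e2 : L.pi (wl D x y) = lw D (L.pi x) (L.pi y) := by
        rw [map_wl]
        conv_lhs => rw [e1]
        exact wl_eq_lawW _ _ _ _ _ _ _
      rw [e2]
      by_contra hne
      apply hne
      rw [hQ.quot.ker]
      apply Subgroup.subset_closure
      have hk : Kl D L.d c.T (L.pi x) (L.pi y) := ⟨hc, fun h => hne (by rw [h, map_one]), hsm⟩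
      let s : KS (G := L.G) D L.d c.T := ⟨lw D (L.pi x) (L.pi y), 1, L.pi x, L.pi y, hk, by group⟩
      refine ⟨Sum.inr s, ⟨s, rfl⟩, ?_⟩
      show Sum.inr (lw D (L.pi x) (L.pi y) • s) = Sum.inr s
      congr 1
      apply Subtype.ext
      rw [KS.smul_val]
      exact mul_inv_cancel_right _ _
    · rintro x y n ⟨v, h1, h2⟩
      have hn : n ≤ (n + u - 1) / u * u := by
        have h3 := Nat.div_add_mod (n + u - 1) u
        have h4 := Nat.mod_lt (n + u - 1) (show 0 < u by omega)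
        have h5 : u * ((n + u - 1) / u) = (n + u - 1) / u * u := Nat.mul_comm _ _
        omega
      obtain ⟨v', h3, h4⟩ := hsh2 ((n + u - 1) / u) (L.pi x) (L.pi y) ⟨v, h1.trans hn, h2.trans hn⟩
      exact ⟨v', h3, h4⟩

end Pool.Agent.Olsh
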