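import Mathlib

/-!
# MP_3cdb71_al: the numerical conditions of the step
-/

set_option autoImplicit false

namespace Pool.Agent.Olsh

/-- Linear conditions. -/
theorem numeric0 (δ η1 r0 K1 K2 K3 K4 Ca Cb C13 C10 : ℕ) : ∃ ρ V B rr T K : ℕ,
    1 ≤ V ∧ Ca + Cb ≤ B ∧ η1 ≤ ρ ∧ r0 ≤ ρ ∧ K2 ≤ ρ ∧ K3 ≤ ρ ∧ 200 * (δ + η1 + 1) ≤ rr ∧
    200 * (δ + r0 + 1) ≤ rr ∧ C13 ≤ T ∧ 10000 * C10 ≤ V ∧ C13 ≤ B ∧ 1 ≤ T ∧ K1 ≤ K ∧ K2 ≤ K ∧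
    K3 ≤ K ∧ K4 ≤ K ∧ 37 * δ + 5 ≤ K ∧ 1 ≤ K :=
  ⟨η1 + r0 + K2 + K3, 10000 * C10 + 1, Ca + Cb + C13, 200 * (δ + (η1 + r0 + K2 + K3) + 1),
    C13 + 1, K1 + K2 + K3 + K4 + (37 * δ + 5), by omega, by omega, by omega, by omega, by omega,
    by omega, by omega, by omega, by omega, by omega, by omega, by omega, by omega, by omega,
    by omega, by omega, by omega, by omega⟩

/-- Linear conditions for `U`. -/
theorem numericU (δ C U1 U2 U3 U4 U5 U6 U7 U8 : ℕ) : ∃ U, 1 ≤ U ∧ 2000 * C < U ∧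
    100 * δ + 100 ≤ U ∧ U1 ≤ U ∧ U2 ≤ U ∧ U3 ≤ U ∧ U4 ≤ U ∧ U5 ≤ U ∧ U6 ≤ U ∧ U7 ≤ U ∧
    U8 ≤ U :=
  ⟨U1 + U2 + U3 + U4 + U5 + U6 + U7 + U8 + 2000 * C + 1 + (100 * δ + 100), by omega,
    by omega, by omega, by omega, by omega, by omega, by omega, by omega, by omega, by omega,
    by omega⟩

/-- Linear conditions for `a0`, `L0`. -/
theorem numericA (A1 A2 A3 A4 : ℕ) (F : ℕ → ℕ) : ∃ a0 L0, A1 ≤ a0 ∧ A2 ≤ a0 ∧ A3 ≤ a0 ∧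
    A4 ≤ a0 ∧ F a0 ≤ L0 ∧ 4 * a0 + 2 ≤ L0 :=
  ⟨A1 + A2 + A3 + A4, F (A1 + A2 + A3 + A4) + (4 * (A1 + A2 + A3 + A4) + 2), by omega, by omega,
    by omega, by omega, by omega, by omega⟩

/-- Linear conditions for `d`, `k`. -/
theorem numericD (D1 D2 : ℕ) : ∃ Dd, D1 ≤ Dd ∧ D2 ≤ Dd ∧ 1 ≤ Dd :=
  ⟨D1 + D2 + 1, by omega, by omega, by omega⟩

/-- A numerical lemma. -/
theorem numeric (U K C C13 E T V5 B1 N T5 T6 : ℕ) (hU : 1 ≤ U) (hUC : 2000 * C < U)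
    (hN : 1 ≤ N) (hK : 1 ≤ K) : ∃ C20 : ℕ, ∀ Ne : ℕ, ∃ n0 u LS TS : ℕ,
    Ne ≤ n0 ∧ 40000 ≤ n0 ∧ T6 ≤ n0 ∧ 48 ≤ C20 * n0 ∧ 2 ≤ u ∧ C ≤ u ∧ U ≤ u ∧ U ≤ LS ∧
    (∀ x, x ≤ U → x * u ≤ LS) ∧ 20000 * (n0 * (E * T)) ≤ u ∧ 100 * TS ≤ u ∧ 10 * V5 ≤ u ∧
    10 * (28 * (E * T) + 12 * T) ≤ u ∧ T5 + 100 * (n0 * (E * C13)) ≤ TS ∧
    2000 * C * u < LS ∧
    (∀ x, x ≤ LS + K → 2 * ((B1 + 1) * u * x) ≤ 12 * (C20 * n0) * n0 * N) ∧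
    (∀ x, x ≤ LS + K → 2 * x ≤ 12 * (C20 * n0) * n0 * N) := by
  obtain ⟨ET, hET⟩ : ∃ ET, ET = E * T := ⟨_, rfl⟩
  obtain ⟨EC, hEC⟩ : ∃ EC, EC = E * C13 := ⟨_, rfl⟩
  rw [← hET, ← hEC]
  clear hET hEC
  obtain ⟨C18, hC18⟩ : ∃ C18, C18 = T5 + 100 * EC := ⟨_, rfl⟩
  obtain ⟨C19, hC19⟩ : ∃ C19, C19 = 20000 * ET + 100 * C18 + 10 * V5 +
    10 * (28 * ET + 12 * T) + U + C + 2 := ⟨_, rfl⟩
  have k1 : 20000 * ET ≤ C19 := by omega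
  have k2 : 100 * C18 ≤ C19 := by omega
  have k3 : 10 * V5 ≤ C19 := by omega
  have k4 : 10 * (28 * ET + 12 * T) ≤ C19 := by omega
  have k5 : U ≤ C19 := by omega
  have k6 : C ≤ C19 := by omega
  have k7 : 2 ≤ C19 := by omega
  clear hC19
  have hK' : 1 ≤ U * C19 + K := by
    have := Nat.zero_le (U * C19)
    exact le_trans hK (Nat.le_add_left _ _)
  refine ⟨(B1 + 1) * C19 * (U * C19 + K), fun Ne => ?_⟩
  obtain ⟨C20, hC20⟩ : ∃ C20, C20 = (B1 + 1) * C19 * (U * C19 + K) := ⟨_, rfl⟩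
  rw [← hC20]
  have hC20' : 1 ≤ C20 := by
    rw [hC20]
    exact Nat.mul_pos (Nat.mul_pos (Nat.succ_pos _) (lt_of_lt_of_le Nat.zero_lt_two k7)) hK'
  obtain ⟨n0, hn0⟩ : ∃ n0, n0 = Ne + 40000 + T6 := ⟨_, rfl⟩
  have m1 : Ne ≤ n0 := by omega
  have m2 : 40000 ≤ n0 := by omega
  have m3 : T6 ≤ n0 := by omega
  have m4 : 0 < n0 := by omega
  have m5 : 48 ≤ n0 := by omega
  clear hn0
  have m6 : 48 ≤ C20 * n0 := m5.trans (Nat.le_mul_of_pos_left _ hC20')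
  obtain ⟨u, hu⟩ : ∃ u, u = C19 * n0 := ⟨_, rfl⟩
  obtain ⟨LS, hLS⟩ : ∃ LS, LS = U * u := ⟨_, rfl⟩
  obtain ⟨TS, hTS⟩ : ∃ TS, TS = C18 * n0 := ⟨_, rfl⟩
  have hC19u : C19 ≤ u := by
    rw [hu]
    exact Nat.le_mul_of_pos_right _ m4
  have hu2 : 2 ≤ u := k7.trans hC19u
  have hu1 : 0 < u := lt_of_lt_of_le Nat.zero_lt_two hu2
  have hUL : U ≤ LS := by
    rw [hLS]
    exact Nat.le_mul_of_pos_right _ hu1
  have hle : ∀ a, a ≤ C19 → a * n0 ≤ u := by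
    intro a ha
    rw [hu]
    exact Nat.mul_le_mul_right _ ha
  have hmain : 2 * ((B1 + 1) * u * (LS + K)) ≤ 12 * (C20 * n0) * n0 * N := by
    have e1 : LS + K ≤ (U * C19 + K) * n0 := by
      have e2 : K ≤ K * n0 := Nat.le_mul_of_pos_right _ m4
      have e3 : LS = U * C19 * n0 := by rw [hLS, hu, mul_assoc]
      rw [e3, add_mul]
      exact Nat.add_le_add_left e2 _
    calc 2 * ((B1 + 1) * u * (LS + K))
        ≤ 2 * ((B1 + 1) * u * ((U * C19 + K) * n0)) :=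
          Nat.mul_le_mul_left _ (Nat.mul_le_mul_left _ e1)
      _ = 2 * (C20 * n0) * n0 := by rw [hu, hC20]; ring
      _ ≤ 12 * (C20 * n0) * n0 :=
          Nat.mul_le_mul_right _ (Nat.mul_le_mul_right _ (by norm_num))
      _ ≤ 12 * (C20 * n0) * n0 * N := Nat.le_mul_of_pos_right _ hN
  have hB1u : 0 < (B1 + 1) * u := Nat.mul_pos (Nat.succ_pos _) hu1
  have hmain' : ∀ x, x ≤ LS + K → 2 * ((B1 + 1) * u * x) ≤ 12 * (C20 * n0) * n0 * N := by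
    intro x hx
    exact (Nat.mul_le_mul_left _ (Nat.mul_le_mul_left _ hx)).trans hmain
  refine ⟨n0, u, LS, TS, m1, m2, m3, m6, hu2, k6.trans hC19u, k5.trans hC19u, hUL, ?_, ?_, ?_,
    k3.trans hC19u, k4.trans hC19u, ?_, ?_, hmain', ?_⟩
  · intro x hx
    rw [hLS]
    exact Nat.mul_le_mul_right _ hx
  · have := hle _ k1
    calc 20000 * (n0 * ET) = 20000 * ET * n0 := by ring
      _ ≤ u := this
  · have := hle _ k2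
    calc 100 * TS = 100 * C18 * n0 := by rw [hTS]; ring
      _ ≤ u := this
  · have h1 : T5 ≤ T5 * n0 := Nat.le_mul_of_pos_right _ m4
    calc T5 + 100 * (n0 * EC) ≤ T5 * n0 + 100 * (n0 * EC) := Nat.add_le_add_right h1 _
      _ = TS := by rw [hTS, hC18]; ring
  · rw [hLS]
    exact Nat.mul_lt_mul_of_pos_right hUC hu1
  · intro x hx
    refine le_trans (Nat.mul_le_mul_left _ ?_) (hmain' x hx)
    exact Nat.le_mul_of_pos_left _ hB1u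

end Pool.Agent.Olsh
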