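import Pool.Agent.Olsh.Step
import Pool.Agent.Olsh.StepN

/-!
# MP_3cdb71_al: the choice of constants and the step
-/

set_option autoImplicit false

namespace Pool.Agent.Olsh

theorem LQ.mono {G G' X S A' : Type} [Group G] [MulAction G X] [MulAction G S] [Group G']
    [MulAction G' A'] {d : X → X → ℕ} {u L : ℕ} {Y : S → Set X} {η η1 C : ℕ}
    {d' : A' → A' → ℕ} {π : G →* G'} {q : X ⊕ S → A'} {a0 L0 : ℕ} {CP : ℕ → ℕ} {M0 U U' : ℕ}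
    (h : LQ G G' d u L Y η η1 C d' π q a0 L0 CP M0 U) (hU : U' ≤ U) :
    LQ G G' d u L Y η η1 C d' π q a0 L0 CP M0 U' :=
  { toConeQ := h.toConeQ
    lev := h.lev
    hu := hU.trans h.hu
    hL := (Nat.mul_le_mul_right _ hU).trans h.hL
    heta := h.heta }

/-- The step, from all modules. -/
theorem STEP (hMALN : Stmt_MALN) (hKOV : Stmt_KOV) (hKROT : Stmt_KROT) (hKLC : Stmt_KLC)
    (hVAR : Stmt_VAR) (hSHR : Stmt_SHR) (hEW1 : Stmt_EW1) (hDIR : Stmt_DIR)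
    (hCONEQ : Stmt_CONEQ) (hTR : Stmt_TRANSFER) (hCL : Stmt_CLASS) (hCLLL : Stmt_CLLL)
    (hBE : Stmt_BEAX) (hANGS : Stmt_ANGS) (hSPL : Stmt_SPL) (hSPS : Stmt_SPS)
    (hSPD : Stmt_SPD) (hSPF : Stmt_SPF) (hESEQ : Stmt_ESEQ) (hGM : Stmt_CONEGM)
    (hKF : Stmt_KFREE) (hPSA : Stmt_PSA) (hANG : Stmt_ANGX) : Stmt_STEP := by
  obtain ⟨η1, C, hC1, heta, hCONEQ⟩ := hCONEQ (59 * dl + 5)
  obtain ⟨A1, F, CQ, hTR⟩ := hTR (59 * dl + 5) η1 C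
  obtain ⟨A2, hCL⟩ := hCL (59 * dl + 5) η1 C
  obtain ⟨A3, h0⟩ := class0 hCLLL
  obtain ⟨A4, CO, hDIR⟩ := hDIR
  obtain ⟨a0, L0, n1, n2, n3, n4, n5, n6⟩ := numericA A1 A2 A3 A4 F
  obtain ⟨D1, hCL⟩ := hCL a0 L0 n2
  obtain ⟨D2, h0⟩ := h0 a0 L0 n3 n6
  obtain ⟨Dd, n7, n8, a15⟩ := numericD D1 D2
  obtain ⟨Ca, C13, hCL⟩ := hCL Dd Dd n7 n7
  obtain ⟨Cb, h0⟩ := h0 Dd Dd n8 n8
  obtain ⟨U1, hTR⟩ := hTR a0 L0 n1 n5 Dd
  obtain ⟨U2, hCL⟩ := hCL CQ Dd le_rfl le_rfl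
  obtain ⟨C10, hBE⟩ := hBE (59 * dl + 5) η1 C (2 * (Dd + Dd) * C13)
  obtain ⟨U3, hBE⟩ := hBE a0 L0 CQ Dd
  obtain ⟨r0, C2, hANGS⟩ := hANGS η1 C
  obtain ⟨K1, hSPL⟩ := hSPL η1 C
  obtain ⟨K2, hSPS⟩ := hSPS η1 C
  obtain ⟨K3, hSPD⟩ := hSPD η1 C
  obtain ⟨K4, hSPF⟩ := hSPF η1 C
  obtain ⟨ρ, V, B, rr, T, K, a1, a2, a3, a4, a5, a6, a7, a8, a9, a11, a12, a13, a17, a18, a19,
    a20, a21, a22⟩ := numeric0 dl η1 r0 K1 K2 K3 K4 Ca Cb C13 C10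
  obtain ⟨N0, hDIR⟩ := hDIR a0 L0 n4 ρ Dd Dd V B
  obtain ⟨N, hN⟩ : ∃ N, N = N0 + 1 := ⟨_, rfl⟩
  have a10 : N0 ≤ N := hN ▸ Nat.le_succ N0
  have a16 : 1 ≤ N := hN ▸ Nat.le_add_left 1 N0
  have a23 : Ca ≤ Ca + Cb := Nat.le_add_right _ _
  have a24 : Cb ≤ Ca + Cb := Nat.le_add_left _ _
  obtain ⟨E, hE⟩ : ∃ E, E = (N + 1) * (2 * (Dd + Dd)) := ⟨_, rfl⟩
  obtain ⟨B1, hB1⟩ : ∃ B1, B1 = 404 * (1 + 100 * (E * C13)) + C2 := ⟨_, rfl⟩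
  obtain ⟨V5, hV5⟩ : ∃ V5, V5 = 2 * K4 + 28 * (E * C13) + 12 * C13 := ⟨_, rfl⟩
  obtain ⟨U4, hSPL⟩ := hSPL B1
  obtain ⟨T5, U5, hSPS⟩ := hSPS rr B1
  obtain ⟨T6, U6, hSPD⟩ := hSPD rr B1 C10
  obtain ⟨U7, hSPF⟩ := hSPF B1
  obtain ⟨U8, hPHI⟩ := phi_step hGM hKF hPSA hANG (59 * dl + 5) η1 C
  obtain ⟨U, b0, b1, b2, b3, b4, b5, b6, b7, b8, b9, b10⟩ := numericU dl C U1 U2 U3 U4 U5 U6 U7 U8
  obtain ⟨C20, hnum⟩ := numeric U K C C13 E T V5 B1 N T5 T6 b0 b1 a16 a22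
  obtain ⟨Ne, hESEQ⟩ := hESEQ (12 * C20)
  obtain ⟨n0, u, LS, TS, m1, m2, m3, m4, m5, m6, m7, m8, m9, m10, m11, m12, m13, m14, m15, m16,
    m17⟩ := hnum Ne
  have m18 : 48 ≤ 12 * (C20 * n0) := m4.trans (Nat.le_mul_of_pos_left _ (by norm_num))
  obtain ⟨nn, hnn⟩ := hESEQ n0 m1 (12 * (C20 * n0)) (Dvd.intro _ rfl)
    (le_trans (by norm_num) m18) (le_of_eq (mul_assoc _ _ _).symm)
  -- the data
  obtain ⟨D, hD⟩ : ∃ D : LD, D = ⟨Dd, Dd, N, 12 * (C20 * n0) + 1, nn⟩ := ⟨_, rfl⟩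
  have hDd' : D.d = Dd := by rw [hD]
  have hDk' : D.k = Dd := by rw [hD]
  have hDN' : D.N = N := by rw [hD]
  have hDH' : D.H = 12 * (C20 * n0) + 1 := by rw [hD]
  have hDn' : D.nn = nn := by rw [hD]
  have hDH1 : D.H - 1 = 12 * (C20 * n0) := by rw [hDH']; rfl
  have hCE : CE D = E := by
    unfold CE
    rw [hDN', hDd', hDk', hE]
  have hok : LDok D n0 :=
    { H1 := by rw [hDH']; exact Nat.le_add_left _ _
      h12 := by rw [hDH1]; exact Dvd.intro _ rfl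
      h48 := by rw [hDH1]; exact m18
      exp := by rw [hDH1, hDn']; exact hnn
      n0l := m2
      d1 := by rw [hDd']; exact a15
      k1 := by rw [hDk']; exact a15
      N1 := by rw [hDN']; exact a16 }
  have hmD : ∀ x, x ≤ LS + K → 2 * ((B1 + 1) * u * x) ≤ (D.H - 1) * n0 * D.N := by
    intro x hx
    rw [hDH1, hDN']
    exact m16 x hx
  have hmD' : ∀ x, x ≤ LS + K → 2 * x ≤ (D.H - 1) * n0 * D.N := by
    intro x hx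
    rw [hDH1, hDN']
    exact m17 x hx
  obtain ⟨c, hc⟩ : ∃ c : Cst, c = ⟨a0, L0, CQ, Dd, Ca + Cb, V, B, T, n0, rr, LS, TS, V5⟩ :=
    ⟨_, rfl⟩
  have ca0 : c.a0 = a0 := by rw [hc]
  have cL0 : c.L0 = L0 := by rw [hc]
  have cCP : c.CP = CQ := by rw [hc]
  have cM0 : c.M0 = Dd := by rw [hc]
  have cC12 : c.C12 = Ca + Cb := by rw [hc]
  have cV : c.V = V := by rw [hc]
  have cB : c.B = B := by rw [hc]
  have cT : c.T = T := by rw [hc]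
  have cn0 : c.n0 = n0 := by rw [hc]
  have crr : c.rr = rr := by rw [hc]
  have cLS : c.LS = LS := by rw [hc]
  have cTS : c.TS = TS := by rw [hc]
  have cV5 : c.V5 = V5 := by rw [hc]
  have dl100 : 100 * dl + 100 ≤ LS := b2.trans m8
  have kk : ∀ x, x ≤ K → x ≤ LS + K := fun x hx => hx.trans (Nat.le_add_left _ _)
  refine ⟨D, c, u, C20 * n0, hDH', by rw [hDk']; exact a15, m5, by rwa [cT],
    by rw [ca0, cL0]; exact n6, ?_, ?_⟩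
  · intro x y hxy
    rw [hDd', hDk', cC12]
    exact (h0 x y hxy).mono le_rfl a24
  intro L hL
  refine step_core hMALN hKOV hKROT hKLC hVAR hSHR hEW1 D c u η1 C ρ (2 * L0 + CO) C13 B1 C10 U
    (by rwa [cn0]) (by rwa [cV]) (by rwa [cC12, cB]) heta a3 (by rwa [crr]) (by rwa [cLS])
    (by rw [cLS, cn0]; exact hmD' _ (Nat.le_add_right _ _))
    (by rwa [cn0, cT, hCE]) (by rwa [cTS]) (by rwa [cV5]) (by rwa [cT, hCE]) (by rwa [cT]) m7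
    (by rw [cLS]; exact m9 _ le_rfl) hDH' ?_ ?_ ?_ ?_ ?_ ?_ ?_ ?_ ?_ ?_ ?_ L hL
  · intro G X _ _ d hlev
    rw [ca0, cL0, cCP, cM0] at hlev
    rw [cn0, cV, cB]
    exact hDIR D n0 hDd' hDk' (by rwa [hDN']) hok CQ Dd G X d hlev
  · intro G X S _ _ _ d Y hY
    rw [cLS] at hY ⊢
    exact hCONEQ G X S d u LS Y hY m6 m15
  · intro G G' X S A' _ _ _ _ _ d Y d' π q h
    rw [ca0, cL0, cCP, cM0, cLS] at h
    rw [ca0, cL0, cCP, cM0]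
    exact hTR G G' X S A' d u LS Y d' π q (h.mono b3)
  · intro G G' X S A' _ _ _ _ _ d Y d' π q h h' x y hxy
    rw [ca0, cL0, cCP, cM0, cLS] at h
    rw [ca0, cL0, cCP, cM0] at h'
    rw [hDd', hDk', cC12]
    rcases hCL G G' X S A' d u LS Y d' π q (h.mono b4) h' x y hxy with h1 | h1
    · exact Or.inl (h1.mono le_rfl a23)
    · exact Or.inr h1
  · intro G G' X S A' _ _ _ _ _ d Y d' π q h g o hg ho
    rw [ca0, cL0, cCP, cM0, cLS] at h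
    rw [hDd', hDk'] at ho
    exact (hBE G G' X S A' d u LS Y d' π q (h.mono b5) g o hg ho).2
  · intro G G' X A' _ _ _ _ d SP d' π q h x₁ y₁ h1 h2 h3
    have h4 := hANGS D c u ρ (2 * L0 + CO) C13 a4 (by rwa [crr])
      (by rwa [cLS]) (by rwa [cn0, cT, hCE])
      (by rw [cn0]; exact hmD' _ (kk _ a21)) G G' X A' d SP d' π q h x₁ y₁ h1 h2 h3
    rwa [hCE, ← hB1] at h4
  · intro G G' X A' _ _ _ _ d SP d' π q h x₁ y₁ h1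
    exact hSPL D c u ρ (2 * L0 + CO) C13 (b6.trans m7) (by rw [cLS]; exact m9 _ b6)
      (by rw [cLS, cn0]; exact hmD _ (Nat.add_le_add_left a17 _)) G G' X A' d SP d' π q h
      x₁ y₁ h1
  · intro G G' X A' _ _ _ _ d SP d' π q h x₁ y₁ x₂ y₂ h1 h2
    exact hSPS D c u ρ (2 * L0 + CO) C13 crr a5 (b7.trans m7)
      (by rw [cLS]; exact m9 _ b7) (by rw [cn0]; exact hmD _ (kk _ a18))
      (by rwa [cn0, hCE, cTS]) G G' X A' d SP d' π q h x₁ y₁ x₂ y₂ h1 h2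
  · intro G G' X A' _ _ _ _ d SP d' π q h x₁ y₁ h1 h2
    exact hSPD D c u ρ (2 * L0 + CO) C13 crr a6 (b8.trans m7)
      (by rw [cLS]; exact m9 _ b8) (by rw [cn0]; exact hmD _ (kk _ a19))
      (by rwa [cn0]) (by rwa [cV]) (by rwa [cB]) G G' X A' d SP d' π q h x₁ y₁ h1 h2
  · intro G G' X A' _ _ _ _ d SP d' π q h sg phi Lam h1 h2 h3 phi' h4 h5 x₁ y₁ h6
    exact hSPF D c u ρ (2 * L0 + CO) C13 (b9.trans m7) (by rw [cLS]; exact m9 _ b9)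
      (by rw [cn0]; exact hmD _ (kk _ a20)) (by rw [hCE, cV5, hV5]) G G' X A' d SP d' π q h
      sg phi Lam h1 h2 h3 phi' h4 h5 x₁ y₁ h6
  · intro G G' X S A' _ _ _ _ _ d Y d' π q h ψ Λ o sg phi h1 h2 h3
    exact hPHI G G' X S A' d u c.LS Y d' π q h (b10.trans m7)
      (by rw [cLS]; exact m9 _ b10) ψ Λ o sg phi h1 h2 h3

end Pool.Agent.Olsh
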