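import Pool.Agent.Olsh.DefsC

/-!
# MP_3cdb71_al: statements of the modules for sections 1 to 4 of `Pool/Agent/Olsh/H92.md`

Every module proves one `Stmt_*`, as `theorem X (h1 : Stmt_A) (h2 : Stmt_B) : Stmt_X`, taking as
hypotheses whatever earlier statements it needs.
-/

set_option autoImplicit false

namespace Pool.Agent.Olsh

/-! ### Tools -/

/-- Thin polygons (crude constant). -/
def Stmt_NGON : Prop := ∀ (δ : ℕ) (V : Type) (d : V → V → ℕ), IsGM d → Hyp d δ →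
  ∀ (n : ℕ) (x : ℕ → V) (z : V), 1 ≤ n → Bt d (x 0) z (x n) →
    ∃ i, i < n ∧ ∃ z', Bt d (x i) z' (x (i + 1)) ∧ d z z' ≤ 4 * δ * n

/-- Nearest point projection to a quasi-convex set. -/
def Stmt_PROJ : Prop := ∀ δ η : ℕ, ∃ C : ℕ, ∀ (V : Type) (d : V → V → ℕ) (Y : Set V),
  IsGM d → Hyp d δ → QC d η Y → ∀ v v' y y', IsPr d Y v y → IsPr d Y v' y' →
    (∀ z ∈ Y, d v y + d y z ≤ d v z + C) ∧
    d y y' ≤ d v v' + C ∧
    (C < d y y' → d v y + d y y' + d y' v' ≤ d v v' + C) ∧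
    (C < d y y' → (∃ z, Bt d v z v' ∧ d y z ≤ C) ∧ ∃ z, Bt d v z v' ∧ d y' z ≤ C) ∧
    ∀ z w z₂ w₂, Bt d v z v' → Bt d v z₂ v' → w ∈ Y → w₂ ∈ Y →
      d z z₂ ≤ d y y' + d z w + d z₂ w₂ + C

/-! ### Section 1: the cone-off -/

/-- The cone-off is a metric graph, and its edges. -/
def Stmt_CONEGM : Prop := ∀ (X S : Type) (d : X → X → ℕ) (u : ℕ) (Y : S → Set X), IsGM d →
  1 ≤ u → (∀ s, (Y s).Nonempty) →
  IsGM (cd d u Y) ∧ (∀ a b, cd d u Y a b = 1 ↔ coneAdj d u Y a b) ∧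
  ∀ (n : ℕ) (v w : X), d v w ≤ n * u → cd d u Y (Sum.inl v) (Sum.inl w) ≤ n

/-- Isometries of the cone-off. -/
def Stmt_CONEISO : Prop := ∀ (G X S : Type) [Group G] [MulAction G X] [MulAction G S]
  (d : X → X → ℕ) (u : ℕ) (Y : S → Set X), Isom G d →
  (∀ (g : G) (s : S) (v : X), v ∈ Y s → g • v ∈ Y (g • s)) → Isom G (cd d u Y)

/-- Theorem A: the cone-off is `dl`-hyperbolic, geodesics of `X` and of the cone-off are close in
the metric of the cone-off. -/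
def Stmt_CONEA : Prop := ∀ (X S : Type) (d : X → X → ℕ) (u η : ℕ) (Y : S → Set X), IsGM d →
  Hyp d dl → (∀ s, (Y s).Nonempty) → (∀ s, QC d η (Y s)) → 1 ≤ u → 4 * dl ≤ u → η ≤ u →
  Hyp (cd d u Y) dl ∧ ∀ a b va vb, IsBase Y a va → IsBase Y b vb →
    (∀ z, Bt d va z vb → ∀ (m : ℕ) (p : ℕ → X ⊕ S), IsGeo (cd d u Y) m p → p 0 = a → p m = b →
      ∃ i, i ≤ m ∧ cd d u Y (Sum.inl z) (p i) ≤ kl + 2) ∧
    ∀ z', Bt (cd d u Y) a z' b → ∃ z, Bt d va z vb ∧ cd d u Y z' (Sum.inl z) ≤ kl + 2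

/-! ### Section 2: projections, cut vertex property, chains -/

/-- The cone-off with its structure of a projection structure, and Lemma 2.1: the neighbours of
`s` in the direction of `a` are near the projection of (a base point of) `a` to `Y s`. -/
structure ConeP {X S : Type} (d : X → X → ℕ) (u : ℕ) (Y : S → Set X) (η η1 C : ℕ) : Prop
    extends ConeH d u Y η η1 where
  hypc : Hyp (cd d u Y) dl
  ps : IsPS (cd d u Y) (apx X S) (cdX d) (C * u)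
  near : ∀ (s : S) (a : X ⊕ S) (v y pr : X), IsBase Y a v → IsPr d (Y s) v pr →
    Sum.inl y ∈ Nb (cd d u Y) (Sum.inr s) a → d y pr ≤ C * u
  one_le : 1 ≤ u
  le_u : C ≤ u
  eta_le : η ≤ u
  dl_le : 4 * dl ≤ u

/-- Lemmas 2.1 and 2.2 (BGI). -/
def Stmt_CONEPS : Prop := ∀ η : ℕ, ∃ η1 C : ℕ, 1 ≤ C ∧ ∀ (X S : Type) (d : X → X → ℕ) (u : ℕ)
  (Y : S → Set X), ConeH d u Y η η1 → C ≤ u → ConeP d u Y η η1 C

/-- Lemma 2.4 (A1)-(A4). -/
def Stmt_PSA : Prop := ∀ (A : Type) (d : A → A → ℕ) (ap : Set A) (c : A → A → A → ℕ) (T0 : ℕ),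
  IsPS d ap c T0 → ∀ s ∈ ap,
    (∀ a, a ≠ s → (Nb d s a).Nonempty) ∧
    (∀ a b y y', y ∈ Nb d s a → y' ∈ Nb d s b → c s y y' ≤ ang d c s a b) ∧
    (∀ a b, a ≠ s → b ≠ s → ∃ y ∈ Nb d s a, ∃ y' ∈ Nb d s b, c s y y' = ang d c s a b) ∧
    (∀ a b, ang d c s a b = ang d c s b a) ∧
    (∀ a b x, b ≠ s → ang d c s a x ≤ ang d c s a b + ang d c s b x) ∧
    (∀ a, ang d c s a a ≤ T0) ∧
    (∀ a, ang d c s s a = 0 ∧ ang d c s a s = 0) ∧
    (∀ a b, T0 < ang d c s a b → d a b = d a s + d s b ∧ a ≠ s ∧ b ≠ s) ∧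
    (∀ t ∈ ap, t ≠ s → ∀ a, 2 * T0 < ang d c t a s → Nb d s a = Nb d s t ∧
      (∀ b, ang d c s a b = ang d c s t b) ∧ d a s = d a t + d t s) ∧
    (∀ a b, Bt d a b s → b ≠ s → ang d c s a b ≤ T0) ∧
    (∀ a b, d a b < d a s → ang d c s a b ≤ T0)

/-- Lemma 2.5: exact chains. -/
def Stmt_CHAIN : Prop := ∀ (A : Type) (d : A → A → ℕ) (ap : Set A) (c : A → A → A → ℕ) (T0 : ℕ),
  IsPS d ap c T0 → ∀ (m : ℕ) (p : ℕ → A),
  (∀ i, i < m → p (i + 1) ∈ ap ∧ 2 * T0 < ang d c (p (i + 1)) (p i) (p (i + 2))) →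
  (∀ i, i < m →
    Nb d (p (i + 1)) (p (m + 1)) = Nb d (p (i + 1)) (p (i + 2)) ∧
    Nb d (p (i + 1)) (p 0) = Nb d (p (i + 1)) (p i) ∧
    ang d c (p (i + 1)) (p 0) (p (m + 1)) = ang d c (p (i + 1)) (p i) (p (i + 2)) ∧
    d (p 0) (p (m + 1)) = d (p 0) (p (i + 1)) + d (p (i + 1)) (p (m + 1))) ∧
  d (p 0) (p (m + 1)) = ∑ i ∈ Finset.range (m + 1), d (p i) (p (i + 1))

/-- The cone-off of a `G`-space is a rotating family. -/
def Stmt_CONEROT : Prop := ∀ (η η1 C : ℕ) (G X S : Type) [Group G] [MulAction G X]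
  [MulAction G S] (d : X → X → ℕ) (u L : ℕ) (Y : S → Set X), ConeG G d u L Y η η1 →
  ConeP d u Y η η1 C → 1 ≤ C → 2000 * C * u < L →
  IsRot G (cd d u Y) (apx X S) (cdX d) (C * u) L

/-! ### Section 3: windmill -/

/-- Lemma 3.1: the induction principle. -/
def Stmt_IP : Prop := ∀ (G A : Type) [Group G] [MulAction G A] (d : A → A → ℕ) (ap : Set A)
  (c : A → A → A → ℕ) (T0 L : ℕ), IsRot G d ap c T0 L → ∀ w, w ∉ ap → ∀ P : G → Prop, P 1 →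
  (∀ s ∈ ap, ∀ r : G, r • s = s → ∀ g ∈ KK G ap, L ≤ ang d c s w (g • w) + 12 * T0 →
    P (r * g) → P g) →
  ∀ g ∈ KK G ap, P g

/-! ### Section 4: quotient -/

/-- Existence of quotients. -/
def Stmt_QEX : Prop := ∀ (G A : Type) [Group G] [MulAction G A] (d : A → A → ℕ)
  (K : Subgroup G) [K.Normal], IsGM d → Isom G d →
  ∃ (G' A' : Type) (_ : Group G') (_ : MulAction G' A') (d' : A' → A' → ℕ) (π : G →* G')
    (q : A → A'), IsQuot K d d' π q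

/-- The quotient is a metric graph with an isometric action. -/
def Stmt_QGM : Prop := ∀ (G A G' A' : Type) [Group G] [MulAction G A] [Group G']
  [MulAction G' A'] (d : A → A → ℕ) (K : Subgroup G) (d' : A' → A' → ℕ) (π : G →* G')
  (q : A → A'), IsGM d → Isom G d → IsQuot K d d' π q → IsGM d' ∧ Isom G' d'

/-- `K` moves vertices which are not apexes very far: an apex with a large angle. -/
def Stmt_KFREE : Prop := ∀ (G A : Type) [Group G] [MulAction G A] (d : A → A → ℕ) (ap : Set A)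
  (c : A → A → A → ℕ) (T0 L : ℕ), IsRot G d ap c T0 L → (KK G ap).Normal ∧
  (∀ w, w ∉ ap → ∀ g ∈ KK G ap, g ≠ 1 → ∃ s ∈ ap, L ≤ ang d c s w (g • w) + 12 * T0) ∧
  (∀ s ∈ ap, ∀ y, d y s = 1 → ∀ k ∈ KK G ap, d (k • y) s = 1 → k • s = s)

/-- Lemma 4.1: closed polygons lift to closed polygons; and the same with one rigid side
`(a 0, a 1)` of small angles. -/
def Stmt_POLY : Prop := ∀ (G A G' A' : Type) [Group G] [MulAction G A] [Group G']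
  [MulAction G' A'] (d : A → A → ℕ) (ap : Set A) (c : A → A → A → ℕ) (T0 L : ℕ)
  (d' : A' → A' → ℕ) (π : G →* G') (q : A → A'), IsRot G d ap c T0 L →
  IsQuot (KK G ap) d d' π q →
  (∀ (n : ℕ) (x : ℕ → A'), (n + 20) * T0 ≤ L → x n = x 0 →
    ∃ a : ℕ → A, (∀ i, i ≤ n → q (a i) = x i) ∧
      (∀ i, i < n → d (a i) (a (i + 1)) = d' (x i) (x (i + 1))) ∧ a n = a 0) ∧
  (∀ (n R : ℕ) (x : ℕ → A') (a₀ a₁ : A), a₀ ∉ ap → a₁ ∉ ap →
    (∀ s ∈ ap, ang d c s a₀ a₁ ≤ R) → q a₀ = x 0 → q a₁ = x 1 → 1 ≤ n → x n = x 0 →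
    R + (n + 20) * T0 ≤ L →
    ∃ a : ℕ → A, a 0 = a₀ ∧ a 1 = a₁ ∧ (∀ i, i ≤ n → q (a i) = x i) ∧
      (∀ i, 1 ≤ i → i < n → d (a i) (a (i + 1)) = d' (x i) (x (i + 1))) ∧ a n = a₀)

/-- Theorem 4.2: the quotient has the same hyperbolicity constant. -/
def Stmt_QHYP : Prop := ∀ (G A G' A' : Type) [Group G] [MulAction G A] [Group G']
  [MulAction G' A'] (d : A → A → ℕ) (ap : Set A) (c : A → A → A → ℕ) (T0 L δ : ℕ)
  (d' : A' → A' → ℕ) (π : G →* G') (q : A → A'), IsRot G d ap c T0 L →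
  IsQuot (KK G ap) d d' π q → Hyp d δ → Hyp d' δ

/-- Lemma 4.3: the quotient is a projection structure with the same constant `T0`, on which the
quotient group acts freely (also on apexes). -/
def Stmt_QPS : Prop := ∀ (G A G' A' : Type) [Group G] [MulAction G A] [Group G']
  [MulAction G' A'] (d : A → A → ℕ) (ap : Set A) (c : A → A → A → ℕ) (T0 L : ℕ)
  (d' : A' → A' → ℕ) (π : G →* G') (q : A → A'), IsRot G d ap c T0 L →
  IsQuot (KK G ap) d d' π q →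
  IsPS d' (q '' ap) (cq d c q) T0 ∧ (∀ (g : G') (v : A'), g • v = v → g = 1) ∧
  (∀ (g : G'), ∀ s ∈ q '' ap, g • s ∈ q '' ap) ∧
  (∀ (g : G'), ∀ s ∈ q '' ap, ∀ y y', d' y s = 1 → d' y' s = 1 →
    cq d c q (g • s) (g • y) (g • y') = cq d c q s y y') ∧
  (∀ a, q a ∈ q '' ap → a ∈ ap) ∧
  -- the minimum in `cq` is attained by a rotation of a given lift
  (∀ s ∈ ap, ∀ y y', d y s = 1 → d y' s = 1 →
    cq d c q (q s) (q y) (q y') ≤ c s y y' ∧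
    ∃ r : G, r • s = s ∧ cq d c q (q s) (q y) (q y') = c s y (r • y')) ∧
  -- directions and angles of lifts
  (∀ s ∈ ap, ∀ a, d a s = d' (q a) (q s) → ∀ y ∈ Nb d s a, q y ∈ Nb d' (q s) (q a)) ∧
  (∀ s ∈ ap, ∀ a b, d a s = d' (q a) (q s) → d b s = d' (q b) (q s) →
    ang d' (cq d c q) (q s) (q a) (q b) ≤ ang d c s a b + 2 * T0)

/-- Lemma 4.4: pairs with small angles keep their distance. -/
def Stmt_ISO : Prop := ∀ (G A G' A' : Type) [Group G] [MulAction G A] [Group G']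
  [MulAction G' A'] (d : A → A → ℕ) (ap : Set A) (c : A → A → A → ℕ) (T0 L : ℕ)
  (d' : A' → A' → ℕ) (π : G →* G') (q : A → A'), IsRot G d ap c T0 L →
  IsQuot (KK G ap) d d' π q → ∀ a b, b ∉ ap →
  (∀ s ∈ ap, s ≠ a → ang d c s a b + 20 * T0 ≤ L) → d' (q a) (q b) = d a b

/-- Lemma 4.5: equivariant lifting of two translations. -/
def Stmt_TR : Prop := ∀ (G A G' A' : Type) [Group G] [MulAction G A] [Group G']
  [MulAction G' A'] (d : A → A → ℕ) (ap : Set A) (c : A → A → A → ℕ) (T0 L : ℕ)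
  (d' : A' → A' → ℕ) (π : G →* G') (q : A → A'), IsRot G d ap c T0 L →
  IsQuot (KK G ap) d d' π q → ∀ a b a' b', a ∉ ap → b ∉ ap → a' ∉ ap → b' ∉ ap →
  (∀ s ∈ ap, 10 * ang d c s a b ≤ L ∧ 10 * ang d c s a' b' ≤ L) → ∀ g' : G',
  ∃ g : G, π g = g' ∧ d a (g • a') = d' (q a) (g' • q a') ∧
    d b (g • b') = d' (q b) (g' • q b')

/-- Lemma 4.9: lengths. -/
def Stmt_LEN : Prop := ∀ (η η1 C : ℕ) (X S : Type) (d : X → X → ℕ) (u : ℕ) (Y : S → Set X),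
  ConeP d u Y η η1 C → ∀ (B : ℕ) (v w : X),
  (∀ s : S, ang (cd d u Y) (cdX d) (Sum.inr s) (Sum.inl v) (Sum.inl w) ≤ B) →
  d v w ≤ cd d u Y (Sum.inl v) (Sum.inl w) * (B + u)

/-- Angles are at most the distance in `X` up to a multiple of `u`; and for an apex with a large
angle the distance in `X` passes through `Y s`. -/
def Stmt_ANGX : Prop := ∀ η η1 C : ℕ, ∃ C' : ℕ, ∀ (X S : Type) (d : X → X → ℕ) (u : ℕ)
  (Y : S → Set X), ConeP d u Y η η1 C → C' ≤ u → ∀ (s : S) (v w : X),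
  ang (cd d u Y) (cdX d) (Sum.inr s) (Sum.inl v) (Sum.inl w) ≤ d v w + C' * u ∧
  ∀ y y', Sum.inl y ∈ Nb (cd d u Y) (Sum.inr s) (Sum.inl v) →
    Sum.inl y' ∈ Nb (cd d u Y) (Sum.inr s) (Sum.inl w) →
    C' * u < d y y' → d v y + d y y' + d y' w ≤ d v w + C' * u

/-- Lemma 4.6: back to `X`. -/
def Stmt_LAM : Prop := ∀ η η1 C : ℕ, ∃ C' : ℕ, ∀ (X S : Type) (d : X → X → ℕ) (u : ℕ)
  (Y : S → Set X), ConeP d u Y η η1 C → C' ≤ u → ∀ (a B lam : ℕ) (p q p' q' : X),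
  lam = (a + 1) * (B + C' * (u + a)) →
  (∀ s : S, ang (cd d u Y) (cdX d) (Sum.inr s) (Sum.inl p) (Sum.inl q) ≤ B) →
  (∀ s : S, ang (cd d u Y) (cdX d) (Sum.inr s) (Sum.inl p') (Sum.inl q') ≤ B) →
  cd d u Y (Sum.inl p) (Sum.inl p') ≤ a → cd d u Y (Sum.inl q) (Sum.inl q') ≤ a →
  ∀ v, Bt d p v q → lam < d p v → lam < d v q →
    ∃ v', Bt d p' v' q' ∧ d v v' ≤ C' ∧ d p v ≤ d p' v' + 2 * lam ∧ d p' v' ≤ d p v + 2 * lam

/-- Hypotheses for the quotient of a cone-off. -/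
structure ConeQ (G G' : Type) {X S A' : Type} [Group G] [MulAction G X] [MulAction G S]
    [Group G'] [MulAction G' A'] (d : X → X → ℕ) (u L : ℕ) (Y : S → Set X) (η η1 C : ℕ)
    (d' : A' → A' → ℕ) (π : G →* G') (q : X ⊕ S → A') : Prop extends ConeG G d u L Y η η1 where
  conep : ConeP d u Y η η1 C
  rotc : IsRot G (cd d u Y) (apx X S) (cdX d) (C * u) L
  quot : IsQuot (KK G (apx X S)) (cd d u Y) d' π q

/-- Lemma 4.7: fine displacement bounds angles in the quotient. -/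
def Stmt_FINE : Prop := ∀ η η1 C : ℕ, ∃ C' : ℕ, ∀ (G G' X S A' : Type) [Group G]
  [MulAction G X] [MulAction G S] [Group G'] [MulAction G' A'] (d : X → X → ℕ) (u L : ℕ)
  (Y : S → Set X) (d' : A' → A' → ℕ) (π : G →* G') (q : X ⊕ S → A'),
  ConeQ G G' d u L Y η η1 C d' π q → C' ≤ u → C' * u ≤ L →
  (∀ (v w : X), 4 * d v w ≤ L → ∀ s ∈ q '' apx X S,
    ang d' (cq (cd d u Y) (cdX d) q) s (q (Sum.inl v)) (q (Sum.inl w)) ≤ d v w + C' * u) ∧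
  ∀ (v : X), ∀ g ∈ KK G (apx X S), g ≠ 1 → L ≤ 2 * d v (g • v)

/-- Lemma 4.8: dichotomy, a big apex or a lift with small angles. -/
def Stmt_DICH : Prop := ∀ η η1 C : ℕ, ∃ C' : ℕ, ∀ (G G' X S A' : Type) [Group G]
  [MulAction G X] [MulAction G S] [Group G'] [MulAction G' A'] (d : X → X → ℕ) (u L : ℕ)
  (Y : S → Set X) (d' : A' → A' → ℕ) (π : G →* G') (q : X ⊕ S → A'),
  ConeQ G G' d u L Y η η1 C d' π q → C' ≤ u → C' * u ≤ L → ∀ (M : ℕ) (v w : A'),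
  v ∉ q '' apx X S → w ∉ q '' apx X S →
  (∃ s ∈ q '' apx X S, M < ang d' (cq (cd d u Y) (cdX d) q) s v w) ∨
  ∃ v₁ w₁ : X, q (Sum.inl v₁) = v ∧ q (Sum.inl w₁) = w ∧
    cd d u Y (Sum.inl v₁) (Sum.inl w₁) = d' v w ∧
    ∀ s : S, ang (cd d u Y) (cdX d) (Sum.inr s) (Sum.inl v₁) (Sum.inl w₁) ≤ M + C' * u

end Pool.Agent.Olsh
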