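import Pool.Agent.Olsh.DefsG

/-!
# MP_3cdb71_al: statements of the modules for sections 9 and 10 of `Pool/Agent/Olsh/H92.md`

Proofs: `Pool/Agent/Olsh/H37.md`.
-/

set_option autoImplicit false

namespace Pool.Agent.Olsh

/-! ### One level -/

/-- KLC: lengths of the words of a pair with `E_X ≤ e`. -/
def Stmt_KLC : Prop := ∀ (D : LD) (G X : Type) [Group G] [MulAction G X] (d : X → X → ℕ),
  IsGM d → IsomAct G d → ∀ (e : ℕ) (x y : G), ELe d e x y →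
  (∃ o : X, d o (gW D.d D.k x y • o) ≤ 2 * (D.d + D.k) * e) ∧
  slen d (gW D.d D.k x y) ≤ (2 * (D.d + D.k) * e : ℕ) ∧ disp d (cw D x y) ≤ CE D * e

/-- DIR: the facts of section 8 hold on every level (from MALN, OV, EPAIR, E85). -/
def Stmt_DIR : Prop := ∃ A C : ℕ, ∀ a0 L0 : ℕ, A ≤ a0 → ∀ ρ Dd k V B : ℕ, ∃ N0 : ℕ,
  ∀ (D : LD) (n0 : ℕ), D.d = Dd → D.k = k → N0 ≤ D.N → LDok D n0 → ∀ (CP : ℕ → ℕ) (M0 : ℕ)
  (G X : Type) [Group G] [MulAction G X] (d : X → X → ℕ), Lev G d a0 L0 CP M0 →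
  Dir G D n0 V B ρ (2 * L0 + C) d

/-- RLEN: length of `w(x,y)` for a direct pair with `‖g‖ ≥ 1`. -/
def Stmt_RLEN : Prop := ∀ (D : LD) (n0 V B ρ L1 : ℕ), LDok D n0 → ∀ (G X : Type) [Group G]
  [MulAction G X] (d : X → X → ℕ), Dir G D n0 V B ρ L1 d → ∀ x y : G, GPair d D.d D.k V B x y →
  1 ≤ slen d (gW D.d D.k x y) → (D.H - 1) * n0 * D.N ≤ 2 * disp d (lw D x y)

/-- ETRX: the track of a block system on a long geodesic, which contains the translates of two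
given points of the minimal set of `R`. -/
def Stmt_ETRX : Prop := ∀ (δ L1 : ℕ) (G X : Type) [Group G] [MulAction G X] (d : X → X → ℕ)
  (h n0 : ℕ) (c : G) (t : ℕ → G) (o : X) (nn : ℕ → ℕ), IsGM d → Hyp d δ → IsomAct G d →
  IsCSA G → OV G d L1 → IsBS G d (1000 * (δ + L1 + 1)) h c t o → 1000 ≤ n0 → 12 ≤ h →
  IsExp h n0 nn → ∀ z1 z2 : X, z1 ∈ Mn d (rel c t nn h) → z2 ∈ Mn d (rel c t nn h) →
  ∃ (r k m D s1 s2 : ℕ) (P : ℕ → X) (x : ℕ → ℕ),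
    IsTrack d P D m (disp d c) x (fun i => bc c t nn (k + i)) ∧
    (∀ i, i < m → 9 * (n0 * disp d c) + 10 * x i ≤ 10 * x (i + 1)) ∧
    (∀ i, i ≤ m → d (P (x i)) (bs c t nn (k + i) • o) ≤ 25 * disp d c) ∧
    (∀ i, i < m → ∀ s, x i + 25 * disp d c ≤ s → s + 25 * disp d c ≤ x (i + 1) →
      ∃ z', Bt d (bs c t nn (k + i) • o) z' (bs c t nn (k + i + 1) • o) ∧
        d (P s) z' ≤ 8 * δ) ∧
    d (P s1) (rel c t nn h ^ r • z1) ≤ 30 * δ + 10 ∧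
    d (P s2) (rel c t nn h ^ r • z2) ≤ 30 * δ + 10 ∧
    x 0 ≤ s1 ∧ s1 ≤ x m ∧ x 0 ≤ s2 ∧ s2 ≤ x m

/-- OVB: if the shifts of `Y` by the block generators overlap `Y` in at most `U0`, then the
overlap of `Y` and the axis of `R` is at most `(2 M + 4) (U0 + 100 |c|)`, if it consists of at
most `M` blocks. -/
def Stmt_OVB : Prop := ∀ (δ L1 ρ : ℕ) (G X : Type) [Group G] [MulAction G X] (d : X → X → ℕ)
  (h n0 : ℕ) (c : G) (t : ℕ → G) (o : X) (nn : ℕ → ℕ), IsGM d → Hyp d δ → IsomAct G d →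
  IsCSA G → OV G d L1 → IsBS G d (1000 * (δ + L1 + ρ + 1)) h c t o → 1000 ≤ n0 → 12 ≤ h →
  IsExp h n0 nn → ∀ Y : Set X, QConv d (59 * δ + 5) Y → ∀ U0 M l : ℕ,
  (∀ r k l' : ℕ, Ovp d (200 * (δ + 1)) Y Y
    ((rel c t nn h ^ r)⁻¹ * bc c t nn k * rel c t nn h ^ r) l' → l' ≤ U0) →
  Ovp d ρ (Mn d (rel c t nn h)) Y (1 : G) l → l ≤ M * (n0 * disp d c) →
  l ≤ (2 * M + 4) * (U0 + 100 * disp d c)

/-- OVS: the axis of `w(x,y)`, `(x,y)` a `B`-pair, and the axis of a killed value `s` with a long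
overlap: `w(x,y) = s`. -/
def Stmt_OVS : Prop := ∀ (D : LD) (c : Cst) (r0 ρ L1 : ℕ), LDok D c.n0 → r0 ≤ ρ →
  200 * (dl + r0 + 1) ≤ c.rr → 1 ≤ c.V → c.C12 ≤ c.B → 100 * dl + 100 ≤ c.LS →
  ∀ (G X : Type) [Group G] [MulAction G X] (d : X → X → ℕ) (SP : G → G → Prop),
  StageG G D c d SP → Dir G D c.n0 c.V c.B ρ L1 d → ∀ x y : G, GPair d D.d D.k 1 c.C12 x y →
  ∀ (s : KS (G := G) D d c.T) (l : ℕ), Ovp d r0 (Mn d (lw D x y)) (KY D d c.T s) (1 : G) l →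
  100 * (c.n0 * (disp d (cw D x y) + CE D * c.T)) ≤ l → lw D x y = s.1

/-- KOV: the overlap condition for the killed family. -/
def Stmt_KOV : Prop := ∀ (D : LD) (c : Cst) (η1 u ρ L1 : ℕ), LDok D c.n0 → η1 ≤ ρ →
  200 * (dl + η1 + 1) ≤ c.rr → 1 ≤ c.V → c.C12 ≤ c.B → 100 * dl + 100 ≤ c.LS →
  20000 * (c.n0 * (CE D * c.T)) ≤ u → 100 * c.TS ≤ u →
  ∀ (G X : Type) [Group G] [MulAction G X] (d : X → X → ℕ) (SP : G → G → Prop),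
  StageG G D c d SP → Dir G D c.n0 c.V c.B ρ L1 d → ∀ s t : KS (G := G) D d c.T, s ≠ t →
  ∀ v w, v ∈ Nd d η1 (KY D d c.T s) → v ∈ Nd d η1 (KY D d c.T t) →
    w ∈ Nd d η1 (KY D d c.T s) → w ∈ Nd d η1 (KY D d c.T t) → 100 * d v w ≤ u

/-- KROT: stabilisers and rotation of the killed family. -/
def Stmt_KROT : Prop := ∀ (D : LD) (c : Cst) (ρ L1 : ℕ), LDok D c.n0 → 1 ≤ c.V →
  c.C12 ≤ c.B → 100 * dl + 100 ≤ c.LS → 2 * c.LS ≤ (D.H - 1) * c.n0 * D.N →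
  ∀ (G X : Type) [Group G] [MulAction G X] (d : X → X → ℕ) (SP : G → G → Prop),
  StageG G D c d SP → Dir G D c.n0 c.V c.B ρ L1 d → ∀ s : KS (G := G) D d c.T,
  c.LS ≤ disp d s.1 ∧ ∀ r : G, r • s = s →
  (∃ m : ℤ, r = s.1 ^ m) ∧ (r ≠ 1 → ∀ y ∈ KY D d c.T s, c.LS ≤ d y (r • y))

/-- VAR: variation of an equivariant Lipschitz function on the axis of `w(x,y)`. -/
def Stmt_VAR : Prop := ∀ (D : LD) (n0 V B ρ L1 : ℕ), LDok D n0 → ∀ (G X : Type) [Group G]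
  [MulAction G X] (d : X → X → ℕ), Dir G D n0 V B ρ L1 d →
  ∀ (sg : G → ℤ) (phi : X → ℤ) (Lam : ℕ), (∀ g h, sg (g * h) = sg g + sg h) →
  (∀ (g : G) (v : X), phi (g • v) = sg g + phi v) →
  (∀ v w : X, |phi w - phi v| ≤ Lam * (d v w : ℤ)) → ∀ x y : G, GPair d D.d D.k V B x y →
  ∀ (e : ℕ) (o : X), d o (x • o) ≤ e → ∀ v ∈ Mn d (lw D x y), ∀ w ∈ Mn d (lw D x y),
  phi v - phi w ≤ (Lam * (28 * disp d (cw D x y) + 12 * e) : ℕ)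

/-! ### The quotient: general facts -/

/-- ANGO: angles between points of a quasi-convex set, from the overlap with `Y_s`. -/
def Stmt_ANGO : Prop := ∀ η η1 C : ℕ, ∃ r0 C2 : ℕ, ∀ (X S : Type) (d : X → X → ℕ) (u : ℕ)
  (Y : S → Set X), ConeP d u Y η η1 C → ∀ M : Set X, QConv d (59 * dl + 5) M →
  ∀ (s : S) (E : ℕ), (∀ p1 p2 : X, (∃ z ∈ M, d p1 z ≤ r0) → (∃ z ∈ M, d p2 z ≤ r0) →
    (∃ z ∈ Y s, d p1 z ≤ r0) → (∃ z ∈ Y s, d p2 z ≤ r0) → d p1 p2 ≤ E) →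
  ∀ v ∈ M, ∀ w ∈ M, angC d u Y s v w ≤ E + C2 * u

/-- AXQ: the axis of an element with small angles on its axis embeds into the quotient. -/
def Stmt_AXQ : Prop := ∀ η η1 C : ℕ, ∃ K : ℕ, ∀ B : ℕ, ∃ U : ℕ,
  ∀ (G G' X S A' : Type) [Group G] [MulAction G X] [MulAction G S] [Group G'] [MulAction G' A']
  (d : X → X → ℕ) (u L : ℕ) (Y : S → Set X) (d' : A' → A' → ℕ) (π : G →* G') (q : X ⊕ S → A'),
  ConeQ G G' d u L Y η η1 C d' π q → U ≤ u → U * u ≤ L → ∀ R : G,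
  (∀ v ∈ Mn d R, ∀ w ∈ Mn d R, ∀ s : S, angC d u Y s v w ≤ B * u) →
  K * ((B + 1) * u) ≤ disp d R →
  (∀ v ∈ Mn d R, ∀ w ∈ Mn d R,
    d' (q (Sum.inl v)) (q (Sum.inl w)) = cd d u Y (Sum.inl v) (Sum.inl w) ∧
    d v w ≤ (B + 1) * u * d' (q (Sum.inl v)) (q (Sum.inl w))) ∧
  disp d R ≤ (B + 1) * u * (disp d' (π R) + K) ∧
  (∀ z ∈ Mn d' (π R), ∃ v ∈ Mn d R, d' z (q (Sum.inl v)) ≤ K) ∧
  (∀ v ∈ Mn d R, ∃ z ∈ Mn d' (π R), d' (q (Sum.inl v)) z ≤ K)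

/-- LOV: overlaps of such axes in the quotient lift to overlaps in `X`. -/
def Stmt_LOV : Prop := ∀ η η1 C : ℕ, ∃ K : ℕ, ∀ r B : ℕ, ∃ T U : ℕ,
  ∀ (G G' X S A' : Type) [Group G] [MulAction G X] [MulAction G S] [Group G'] [MulAction G' A']
  (d : X → X → ℕ) (u L : ℕ) (Y : S → Set X) (d' : A' → A' → ℕ) (π : G →* G') (q : X ⊕ S → A'),
  ConeQ G G' d u L Y η η1 C d' π q → U ≤ u → U * u ≤ L → ∀ R R' : G,
  (∀ v ∈ Mn d R, ∀ w ∈ Mn d R, ∀ s : S, angC d u Y s v w ≤ B * u) →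
  (∀ v ∈ Mn d R', ∀ w ∈ Mn d R', ∀ s : S, angC d u Y s v w ≤ B * u) →
  K * ((B + 1) * u) ≤ disp d R → K * ((B + 1) * u) ≤ disp d R' → ∀ (g' : G') (l : ℕ), T ≤ l →
  Ovp d' r (Mn d' (π R)) (Mn d' (π R')) g' l →
  ∃ g : G, π g = g' ∧ Ovp d K (Mn d R) (Mn d R') g ((l - T) * u)

/-- SHR: displacements shrink. -/
def Stmt_SHR : Prop := ∀ (η η1 C : ℕ) (G G' X S A' : Type) [Group G] [MulAction G X]
  [MulAction G S] [Group G'] [MulAction G' A'] (d : X → X → ℕ) (u L : ℕ) (Y : S → Set X)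
  (d' : A' → A' → ℕ) (π : G →* G') (q : X ⊕ S → A'), ConeQ G G' d u L Y η η1 C d' π q →
  (∀ (m : ℕ) (v w : X), d v w ≤ m * u → d' (q (Sum.inl v)) (q (Sum.inl w)) ≤ m) ∧
  (∀ (m : ℕ) (x y : G), ELe d (m * u) x y → ELe d' m (π x) (π y)) ∧
  ∀ (v : X) (g : G), u * d' (q (Sum.inl v)) (π g • q (Sum.inl v)) + 1 ≤ d v (g • v) + u

/-! ### The quotient: S-pairs -/

/-- ANGS (9.1): lifts of S-pairs have all properties of `Lft`. -/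
def Stmt_ANGS : Prop := ∀ η1 C : ℕ, ∃ r0 C2 : ℕ, ∀ (D : LD) (c : Cst) (u ρ L1 C13 : ℕ),
  r0 ≤ ρ → 200 * (dl + r0 + 1) ≤ c.rr → 100 * dl + 100 ≤ c.LS →
  20000 * (c.n0 * (CE D * c.T)) ≤ u → 2 * (37 * dl + 5) ≤ (D.H - 1) * c.n0 * D.N →
  ∀ (G G' X A' : Type) [Group G] [MulAction G X] [Group G'] [MulAction G' A']
  (d : X → X → ℕ) (SP : G → G → Prop) (d' : A' → A' → ℕ) (π : G →* G')
  (q : X ⊕ KS (G := G) D d c.T → A'), SQ G G' D c d SP u η1 C ρ L1 d' π q → ∀ x₁ y₁ : G,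
  π x₁ * π y₁ ≠ π y₁ * π x₁ → π (lw D x₁ y₁) ≠ 1 → ELe d (C13 * u) x₁ y₁ →
  Lft D c d u π (C13 * u) (404 * (1 + 100 * (CE D * C13)) + C2) x₁ y₁

/-- SPL: displacement of `w(x,y)` in the quotient, for S-pairs. -/
def Stmt_SPL : Prop := ∀ η1 C : ℕ, ∃ K : ℕ, ∀ B1 : ℕ, ∃ U : ℕ, ∀ (D : LD) (c : Cst)
  (u ρ L1 C13 : ℕ), U ≤ u → U * u ≤ c.LS →
  2 * ((B1 + 1) * u * (c.LS + K)) ≤ (D.H - 1) * c.n0 * D.N →
  ∀ (G G' X A' : Type) [Group G] [MulAction G X] [Group G'] [MulAction G' A']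
  (d : X → X → ℕ) (SP : G → G → Prop) (d' : A' → A' → ℕ) (π : G →* G')
  (q : X ⊕ KS (G := G) D d c.T → A'), SQ G G' D c d SP u η1 C ρ L1 d' π q → ∀ x₁ y₁ : G,
  Lft D c d u π (C13 * u) B1 x₁ y₁ → c.LS ≤ disp d' (lw D (π x₁) (π y₁))

/-- SPS: overlaps of S-pairs in the quotient. -/
def Stmt_SPS : Prop := ∀ η1 C : ℕ, ∃ K : ℕ, ∀ rr B1 : ℕ, ∃ T0 U : ℕ, ∀ (D : LD) (c : Cst)
  (u ρ L1 C13 : ℕ), c.rr = rr → K ≤ ρ → U ≤ u → U * u ≤ c.LS →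
  2 * ((B1 + 1) * u * K) ≤ (D.H - 1) * c.n0 * D.N →
  T0 + 100 * (c.n0 * (CE D * C13)) ≤ c.TS →
  ∀ (G G' X A' : Type) [Group G] [MulAction G X] [Group G'] [MulAction G' A']
  (d : X → X → ℕ) (SP : G → G → Prop) (d' : A' → A' → ℕ) (π : G →* G')
  (q : X ⊕ KS (G := G) D d c.T → A'), SQ G G' D c d SP u η1 C ρ L1 d' π q →
  ∀ x₁ y₁ x₂ y₂ : G, Lft D c d u π (C13 * u) B1 x₁ y₁ → Lft D c d u π (C13 * u) B1 x₂ y₂ →
  ∀ q' : G', Ovp d' c.rr (Mn d' (lw D (π x₁) (π y₁))) (Mn d' (lw D (π x₂) (π y₂))) q' c.TS →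
  Cnj D (π x₁) (π y₁) (π x₂) (π y₂) q'

/-- SPD: an S-pair of the quotient is direct, or its self overlaps are controlled at a smaller
scale. -/
def Stmt_SPD : Prop := ∀ η1 C : ℕ, ∃ K : ℕ, ∀ rr B1 C10 : ℕ, ∃ T0 U : ℕ, ∀ (D : LD) (c : Cst)
  (u ρ L1 C13 : ℕ), c.rr = rr → K ≤ ρ → U ≤ u → U * u ≤ c.LS →
  2 * ((B1 + 1) * u * K) ≤ (D.H - 1) * c.n0 * D.N → T0 ≤ c.n0 → 10000 * C10 ≤ c.V →
  C13 ≤ c.B →
  ∀ (G G' X A' : Type) [Group G] [MulAction G X] [Group G'] [MulAction G' A']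
  (d : X → X → ℕ) (SP : G → G → Prop) (d' : A' → A' → ℕ) (π : G →* G')
  (q : X ⊕ KS (G := G) D d c.T → A'), SQ G G' D c d SP u η1 C ρ L1 d' π q →
  ∀ x₁ y₁ : G, Lft D c d u π (C13 * u) B1 x₁ y₁ →
  slen d (gW D.d D.k x₁ y₁) ≤ C10 * u * slen d' (π (gW D.d D.k x₁ y₁)) →
  GPair d' D.d D.k c.V c.B (π x₁) (π y₁) ∨ ∀ q' : G',
    Ovp d' c.rr (Mn d' (lw D (π x₁) (π y₁))) (Mn d' (lw D (π x₁) (π y₁))) q'
      (c.n0 * D.N / 2) → Cnj D (π x₁) (π y₁) (π x₁) (π y₁) q'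

/-- SPF: variation of `phi'` on the axes of S-pairs of the quotient. -/
def Stmt_SPF : Prop := ∀ η1 C : ℕ, ∃ K : ℕ, ∀ B1 : ℕ, ∃ U : ℕ, ∀ (D : LD) (c : Cst)
  (u ρ L1 C13 : ℕ), U ≤ u → U * u ≤ c.LS →
  2 * ((B1 + 1) * u * K) ≤ (D.H - 1) * c.n0 * D.N →
  2 * K + 28 * (CE D * C13) + 12 * C13 ≤ c.V5 →
  ∀ (G G' X A' : Type) [Group G] [MulAction G X] [Group G'] [MulAction G' A']
  (d : X → X → ℕ) (SP : G → G → Prop) (d' : A' → A' → ℕ) (π : G →* G')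
  (q : X ⊕ KS (G := G) D d c.T → A'), SQ G G' D c d SP u η1 C ρ L1 d' π q →
  ∀ (sg : G → ℤ) (phi : X → ℤ) (Lam : ℕ), (∀ g h, sg (g * h) = sg g + sg h) →
  (∀ (g : G) (v : X), phi (g • v) = sg g + phi v) →
  (∀ v w : X, |phi w - phi v| ≤ Lam * (d v w : ℤ)) → ∀ phi' : A' → ℤ,
  (∀ v w : A', |phi' w - phi' v| ≤ (u * Lam : ℕ) * (d' v w : ℤ)) →
  (∀ v : X, phi' (q (Sum.inl v)) = phi v) → ∀ x₁ y₁ : G, Lft D c d u π (C13 * u) B1 x₁ y₁ →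
  ∀ v ∈ Mn d' (lw D (π x₁) (π y₁)), ∀ w ∈ Mn d' (lw D (π x₁) (π y₁)),
  phi' v - phi' w ≤ (u * Lam * c.V5 : ℕ)

/-- CNJQ: images of conjugating elements. -/
def Stmt_CNJQ : Prop := ∀ (D : LD) (n0 : ℕ), LDok D n0 → ∀ (G G' : Type) [Group G] [Group G'],
  IsCSA G' → (∀ (g : G') (n : ℕ), 1 ≤ n → g ^ n = 1 → g = 1) → ∀ (π : G →* G')
  (x y x' y' q : G), π x * π y ≠ π y * π x → Cnj D x y x' y' q →
  Cnj D (π x) (π y) (π x') (π y') (π q)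

end Pool.Agent.Olsh
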