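import Pool.Agent.Olsh.StmtsG

/-!
# MP_3cdb71_al: the statement of the step
-/

set_option autoImplicit false

namespace Pool.Agent.Olsh

/-- The step. -/
def Stmt_STEP : Prop := ∃ (D : LD) (c : Cst) (u m : ℕ), D.H = 12 * m + 1 ∧ 1 ≤ D.k ∧ 2 ≤ u ∧ 1 ≤ c.T ∧
  4 * c.a0 + 2 ≤ c.L0 ∧ (∀ x y : F2, x * y ≠ y * x → GPair td D.d D.k 1 c.C12 x y) ∧
  ∀ L : Lvl, Stage D c L → ∃ L' : Lvl, Stage D c L' ∧ StepRel D u c.T L L'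

end Pool.Agent.Olsh
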