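import Pool.Agent.Olsh.DefsP
import Mathlib.GroupTheory.FreeGroup.CyclicallyReduced

/-!
# MP_3cdb71_al: level 0, the Cayley tree of the free group on two letters
-/

set_option autoImplicit false

namespace Pool.Agent.Olsh

open FreeGroup

/-- The free group on two letters. -/
abbrev F2 : Type := FreeGroup Bool

/-- The word metric. -/
def td (x y : F2) : ℕ := norm (x⁻¹ * y)

/-- Length of the common initial segment of two lists. -/
def cpl {A : Type} [DecidableEq A] : List A → List A → ℕ
  | a :: l, b :: m => if a = b then cpl l m + 1 else 0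
  | [], _ => 0
  | _ :: _, [] => 0

theorem cpl_nil_left {A : Type} [DecidableEq A] (l : List A) : cpl [] l = 0 := by
  cases l <;> rfl

theorem cpl_nil_right {A : Type} [DecidableEq A] (l : List A) : cpl l [] = 0 := by
  cases l <;> rfl

theorem cpl_comm {A : Type} [DecidableEq A] (l m : List A) : cpl l m = cpl m l := by
  induction l generalizing m with
  | nil => rw [cpl_nil_left, cpl_nil_right]
  | cons a l ih =>
    cases m with
    | nil => rfl
    | cons b m =>
      unfold cpl
      by_cases h : a = b
      · subst h
        simp [ih]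
      · rw [if_neg h, if_neg (Ne.symm h)]

/-- The ultrametric inequality for common initial segments. -/
theorem cpl_min {A : Type} [DecidableEq A] (l m n : List A) :
    cpl l m ≤ cpl l n ∨ cpl m n ≤ cpl l n := by
  induction l generalizing m n with
  | nil => left; rw [cpl_nil_left]; exact Nat.zero_le _
  | cons a l ih =>
    cases m with
    | nil => left; rw [cpl_nil_right]; exact Nat.zero_le _
    | cons b m =>
      cases n with
      | nil => right; rw [cpl_nil_right]; exact Nat.zero_le _
      | cons c n =>
        by_cases h1 : a = b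
        · by_cases h2 : b = c
          · subst h1 h2
            simp only [cpl, if_true]
            rcases ih m n with h | h
            · left; omega
            · right; omega
          · right
            simp only [cpl, if_neg h2]
            exact Nat.zero_le _
        · left
          simp only [cpl, if_neg h1]
          exact Nat.zero_le _

theorem isReduced_invRev_append {a b : Bool × Bool} (hab : a ≠ b) {l m : List (Bool × Bool)}
    (hl : IsReduced (a :: l)) (hm : IsReduced (b :: m)) :
    IsReduced (invRev (a :: l) ++ b :: m) := by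
  have h1 : IsReduced (invRev (a :: l)) := by
    rw [isReduced_iff_reduce_eq, reduce_invRev, hl.reduce_eq]
  have e : invRev (a :: l) = invRev l ++ [(a.1, !a.2)] := by simp [invRev]
  rw [e] at h1 ⊢
  have h2 : IsReduced ([(a.1, !a.2)] ++ b :: m) := by
    show IsReduced ((a.1, !a.2) :: b :: m)
    rw [isReduced_cons_cons]
    refine ⟨?_, hm⟩
    intro h
    dsimp only at h ⊢
    by_contra h3
    apply hab
    have h4 : a.2 = b.2 := by
      cases ha : a.2 <;> cases hb : b.2 <;> simp_all
    exact Prod.ext h h4
  have := IsReduced.append_overlap (L₁ := invRev l) (L₂ := [(a.1, !a.2)]) (L₃ := b :: m) h1 h2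
    (by simp)
  exact this

theorem reduce_length_aux (l m : List (Bool × Bool)) (hl : IsReduced l) (hm : IsReduced m) :
    (reduce (invRev l ++ m)).length + 2 * cpl l m = l.length + m.length := by
  induction l generalizing m with
  | nil =>
    rw [cpl_nil_left]
    have : invRev ([] : List (Bool × Bool)) ++ m = m := by simp [invRev]
    rw [this, hm.reduce_eq]
    simp
  | cons a l ih =>
    cases m with
    | nil =>
      rw [cpl_nil_right, List.append_nil, reduce_invRev, hl.reduce_eq, invRev_length]
      simp
    | cons b m =>
      by_cases hab : a = b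
      · subst hab
        have h1 : IsReduced l := List.IsChain.tail hl
        have h2 : IsReduced m := List.IsChain.tail hm
        have h3 := ih m h1 h2
        have e : reduce (invRev (a :: l) ++ a :: m) = reduce (invRev l ++ m) := by
          apply reduce.sound
          rw [← mul_mk, ← mul_mk, ← inv_mk, ← inv_mk]
          have e1 : (mk (a :: l) : F2) = mk [a] * mk l := by rw [mul_mk]; rfl
          have e2 : (mk (a :: m) : F2) = mk [a] * mk m := by rw [mul_mk]; rfl
          rw [e1, e2]
          group
        rw [e]
        simp only [cpl, if_true, List.length_cons]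
        omega
      · rw [(isReduced_invRev_append hab hl hm).reduce_eq]
        simp only [cpl, if_neg hab, List.length_append, invRev_length]
        rfl

theorem td_eq (x y : F2) : td x y + 2 * cpl x.toWord y.toWord = norm x + norm y := by
  have h := reduce_length_aux x.toWord y.toWord isReduced_toWord isReduced_toWord
  unfold td FreeGroup.norm
  rw [toWord_mul, toWord_inv]
  exact h

theorem td_self (x : F2) : td x x = 0 := by simp [td]

theorem td_comm (x y : F2) : td x y = td y x := by
  unfold td
  rw [← norm_inv_eq]
  simp

theorem td_smul (g x y : F2) : td (g * x) (g * y) = td x y := by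
  unfold td
  congr 1
  group

theorem td_tri (x y z : F2) : td x z ≤ td x y + td y z := by
  unfold td
  have : x⁻¹ * z = (x⁻¹ * y) * (y⁻¹ * z) := by group
  rw [this]
  exact norm_mul_le _ _

theorem td_isGM : IsGM td where
  eq_of_zero := by
    intro x y h
    unfold td at h
    rw [FreeGroup.norm_eq_zero, inv_mul_eq_one] at h
    exact h
  self := td_self
  comm := td_comm
  tri := td_tri
  mid := by
    intro x y k hk
    set w : List (Bool × Bool) := (x⁻¹ * y).toWord with hw
    have hwr : IsReduced w := isReduced_toWord
    have h1 : IsReduced (w.take k) := List.IsChain.take hwr k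
    have h2 : IsReduced (w.drop k) := List.IsChain.drop hwr k
    have hlen : w.length = td x y := rfl
    refine ⟨x * mk (w.take k), ?_, ?_⟩
    · unfold td
      rw [inv_mul_cancel_left, FreeGroup.norm, toWord_mk, h1.reduce_eq, List.length_take]
      omega
    · have e : (x * mk (w.take k))⁻¹ * y = mk (w.drop k) := by
        have e1 : (mk (w.take k) : F2) * mk (w.drop k) = x⁻¹ * y := by
          rw [mul_mk, List.take_append_drop, hw, mk_toWord]
        rw [mul_inv_rev, mul_assoc, ← e1, inv_mul_cancel_left]
      unfold td
      rw [e, FreeGroup.norm, toWord_mk, h2.reduce_eq, List.length_drop, hlen]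
      rfl

theorem td_isom : IsomAct F2 td := fun g x y => td_smul g x y

/-- The Cayley tree is `0`-hyperbolic. -/
theorem td_hyp0 : Hyp td 0 := by
  -- base point at the identity
  have key : ∀ x y z : F2, td 1 y + td x z ≤ td 1 x + td y z ∨
      td 1 y + td x z ≤ td 1 z + td x y := by
    intro x y z
    have e : ∀ a : F2, td 1 a = norm a := by intro a; simp [td]
    have h1 := td_eq x y
    have h2 := td_eq y z
    have h3 := td_eq x z
    rw [e, e, e]
    rcases cpl_min x.toWord y.toWord z.toWord with h | h
    · right; omega
    · left; omega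
  intro w x y z
  have h := key (w⁻¹ * x) (w⁻¹ * y) (w⁻¹ * z)
  have e : ∀ a : F2, td 1 (w⁻¹ * a) = td w a := by
    intro a
    have := td_smul w 1 (w⁻¹ * a)
    rw [mul_one, mul_inv_cancel_left] at this
    exact this.symm
  rw [e, e, e, td_smul, td_smul, td_smul] at h
  simpa using h

theorem Hyp.mono {V : Type} {d : V → V → ℕ} {a b : ℕ} (h : Hyp d a) (hab : a ≤ b) : Hyp d b := by
  intro w x y z
  rcases h w x y z with h | h
  · left; omega
  · right; omega

theorem td_free (g v : F2) (h : g • v = v) : g = 1 := by
  have : g * v = v := h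
  exact mul_eq_right.1 this

/-- Norms of powers. -/
theorem norm_pow_eq (x : F2) : ∃ c r : ℕ, (x ≠ 1 → 1 ≤ r) ∧
    ∀ n : ℕ, 1 ≤ n → norm (x ^ n) = 2 * c + n * r := by
  refine ⟨(reduceCyclically.conjugator x.toWord).length,
    (reduceCyclically x.toWord).length, ?_, ?_⟩
  · intro hx
    by_contra h
    have h1 : reduceCyclically x.toWord = [] := List.length_eq_zero_iff.1 (by omega)
    have h2 := reduceCyclically.conj_conjugator_reduceCyclically x.toWord
    rw [h1] at h2
    apply hx
    have h3 : x = mk (reduceCyclically.conjugator x.toWord ++ [] ++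
        invRev (reduceCyclically.conjugator x.toWord)) := by
      rw [h2, mk_toWord]
    rw [h3, List.append_nil, ← mul_mk, ← inv_mk, mul_inv_cancel]
  · intro n hn
    obtain ⟨m, rfl⟩ : ∃ m, n = m + 1 := ⟨n - 1, by omega⟩
    rw [FreeGroup.norm, toWord_pow, reduceCyclically.reduce_flatten_replicate_succ isReduced_toWord]
    simp only [List.length_append, invRev_length, List.length_flatten, List.map_replicate,
      List.sum_replicate, smul_eq_mul]
    ring

theorem td_pow (x v : F2) (n : ℕ) : td v (x ^ n • v) = norm ((v⁻¹ * x * v) ^ n) := by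
  have h : ∀ n : ℕ, (v⁻¹ * x * v) ^ n = v⁻¹ * x ^ n * v := by
    intro n
    have := conj_pow (i := n) (a := v⁻¹) (b := x)
    rw [inv_inv] at this
    exact this
  unfold td
  rw [h, smul_eq_mul, mul_assoc]

/-- Displacements of powers in the tree. -/
theorem td_pow_eq (x v : F2) : ∃ c r : ℕ, (x ≠ 1 → 1 ≤ r) ∧
    ∀ n : ℕ, 1 ≤ n → td v (x ^ n • v) = 2 * c + n * r := by
  obtain ⟨c, r, h1, h2⟩ := norm_pow_eq (v⁻¹ * x * v)
  refine ⟨c, r, ?_, ?_⟩
  · intro hx
    apply h1
    intro h
    apply hx
    have : x = v * (v⁻¹ * x * v) * v⁻¹ := by group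
    rw [this, h]
    group
  · intro n hn
    rw [td_pow, h2 n hn]

theorem td_pm (m : ℕ) (hm : 1 ≤ m) (x v : F2) : td v (x • v) ≤ td v (x ^ m • v) := by
  obtain ⟨c, r, -, h⟩ := td_pow_eq x v
  have h1 := h 1 le_rfl
  rw [pow_one] at h1
  rw [h1, h m hm]
  have : 1 * r ≤ m * r := Nat.mul_le_mul_right _ hm
  omega

theorem td_slen (x : F2) (hx : x ≠ 1) : 1 ≤ slen td x := by
  unfold slen
  apply le_csInf
  · exact ⟨_, (1 : F2), 1, le_rfl, rfl⟩
  · rintro r ⟨v, n, hn, rfl⟩
    obtain ⟨c, s, hs, h⟩ := td_pow_eq x v
    rw [h n hn, le_div_iff₀ (by exact_mod_cast hn)]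
    have h1 := hs hx
    have : n * 1 ≤ n * s := Nat.mul_le_mul_left _ h1
    have h2 : n ≤ 2 * c + n * s := by omega
    have h3 : (n : ℝ) ≤ ((2 * c + n * s : ℕ) : ℝ) := by exact_mod_cast h2
    linarith

end Pool.Agent.Olsh
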